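import Mathlib
import Pool.Agent.Lib.MP_aa9ae4_nt.S1.SpecM

/-!
MP_aa9ae4_nt, Theorem L (lower bounds of the right order). Definitions.
Notation: `L = log T`, `ℓ = log log T`.
-/

namespace Pool.Agent.Lib.MP_aa9ae4_nt.L1

open Finset MeasureTheory Filter Topology
open Complex (I)
open Pool.Agent.Lib.MP_aa9ae4_nt.S1

/-- exponent vectors on the blocks `B 0, ..., B (n-1)`, of degree at most `R i` on the block `B i` -/
noncomputable def VK (n : ℕ) (B : ℕ → Finset ℕ) (R : ℕ → ℕ) : Finset (ℕ → ℕ) :=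
  (KK ((range n).biUnion B) (∑ i ∈ range n, R i)).filter
    fun k => ∀ i ∈ range n, ∑ p ∈ B i, k p ≤ R i

/-- the coefficient `∏_i f_i(deg_i k) / ∏_p (k p)!` -/
noncomputable def cf (n : ℕ) (B : ℕ → Finset ℕ) (f : ℕ → ℕ → ℝ) (k : ℕ → ℕ) : ℝ :=
  ∏ i ∈ range n, (f i (∑ p ∈ B i, k p) * ∏ p ∈ B i, ((k p).factorial : ℝ)⁻¹)

/-- the block product `∏_i ∑_{r ≤ R_i} f_i(r)/r! (∑_{p ∈ B_i} x_p)^r` -/
noncomputable def MB (n : ℕ) (B : ℕ → Finset ℕ) (R : ℕ → ℕ) (f : ℕ → ℕ → ℝ) (x : ℕ → ℂ) : ℂ :=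
  ∏ i ∈ range n, ∑ r ∈ range (R i + 1), ((f i r / (r.factorial : ℝ) : ℝ) : ℂ) * (∑ p ∈ B i, x p) ^ r

/-- the integer with exponent vector `k` on all blocks -/
def nQ (n : ℕ) (B : ℕ → Finset ℕ) (k : ℕ → ℕ) : ℕ := nn ((range n).biUnion B) k

/-- the weight of the pair `r`, `s` -/
noncomputable def Phi (n : ℕ) (B : ℕ → Finset ℕ) (b : ℕ → ℝ) (r s : ℕ → ℕ) : ℝ :=
  (∏ i ∈ range n, (b i ^ (∑ p ∈ B i, r p + ∑ p ∈ B i, s p) *
    ∏ p ∈ B i, (((r p).factorial : ℝ) * ((s p).factorial : ℝ))⁻¹)) *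
  (√((nQ n B r : ℝ) * (nQ n B s : ℝ)))⁻¹

/-- a system of pairwise disjoint finite sets of primes -/
def IsBl (n : ℕ) (B : ℕ → Finset ℕ) : Prop :=
  (∀ i ∈ range n, ∀ p ∈ B i, p.Prime) ∧
  ∀ i ∈ range n, ∀ j ∈ range n, i ≠ j → Disjoint (B i) (B j)

/-- Mertens' second theorem with the constant `C0/4` -/
def MertC (C0 : ℝ) : Prop :=
  4 ≤ C0 ∧ ∀ x : ℕ, 2 ≤ x → |tail 1 0 x - Real.log (Real.log x)| ≤ C0 / 4

/-- the index of the last block -/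
noncomputable def nI (T : ℝ) : ℕ := ⌈2 * Real.log (Real.log (Real.log T))⌉₊

/-- `exp(η L e^{-i})` -/
noncomputable def xe (η T : ℝ) (i : ℕ) : ℕ := ⌊Real.exp (η * Real.log T * Real.exp (-(i : ℝ)))⌋₊

/-- the lower end of the block `i` -/
noncomputable def lo (η T : ℝ) (i : ℕ) : ℕ := if i < nI T then xe η T (i + 1) else 0

/-- the block `i` -/
noncomputable def Bl (η T : ℝ) (i : ℕ) : Finset ℕ := prs (lo η T i) (xe η T i)

/-- the degree `K_i` -/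
noncomputable def Kb (C1 : ℝ) (i : ℕ) : ℕ := ⌈C1 * Real.exp ((i : ℝ) / 2)⌉₊

/-- `∑_{p ∈ B_i} 1/p` -/
noncomputable def Vb (η T : ℝ) (i : ℕ) : ℝ := ∑ p ∈ Bl η T i, (p : ℝ)⁻¹

/-- an upper bound for `Vb` -/
noncomputable def Vu (C0 T : ℝ) (i : ℕ) : ℝ := if i < nI T then C0 else C0 * Real.log (Real.log T)

/-- the truncated `exp(α ∑_p p^{-1/2-it})` -/
noncomputable def Np (C1 η α T t : ℝ) : ℂ :=
  MB (nI T + 1) (Bl η T) (Kb C1) (fun _ r => α ^ r) (fun p => pw (1 / 2) p t)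

/-- the constant `c(k)` -/
noncomputable def ck (k : ℝ) : ℝ := 120 * (k + 1)

/-- coefficients: type N on the blocks in `S`, type Q on the other blocks -/
noncomputable def fS (k : ℝ) (m : ℕ) (C1 : ℝ) (S : Finset ℕ) (i r : ℕ) : ℝ :=
  if i ∈ S then (if r ≤ Kb C1 i then k ^ r else 0)
  else (if r = m * Kb C1 i then (ck k / (Kb C1 i : ℝ)) ^ r * (r.factorial : ℝ) else 0)

/-- the polynomial `A_S(t)` -/
noncomputable def AS (k : ℝ) (m : ℕ) (C1 η : ℝ) (S : Finset ℕ) (T t : ℝ) : ℂ :=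
  MB (nI T + 1) (Bl η T) (fun i => m * Kb C1 i) (fS k m C1 S) (fun p => pw (1 / 2) p t)

/-- the mass of one block -/
noncomputable def wS (k : ℝ) (m : ℕ) (C1 C0 η T : ℝ) (S : Finset ℕ) (i : ℕ) : ℝ :=
  if i ∈ S then Real.exp (k ^ 2 * Vb η T i)
  else (ck k / (Kb C1 i : ℝ)) ^ (2 * (m * Kb C1 i)) * ((m * Kb C1 i).factorial : ℝ) *
    Vu C0 T i ^ (m * Kb C1 i)

/-- the mass of `A_S` -/
noncomputable def WS (k : ℝ) (m : ℕ) (C1 C0 η T : ℝ) (S : Finset ℕ) : ℝ :=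
  ∏ i ∈ range (nI T + 1), wS k m C1 C0 η T S i

/-- `ψ` bounds the twisted means of the weight `w` at the ratios `(k/h)^a`, mass `M`, error `E` -/
def PsiG (a T : ℝ) (w : ℝ → ℝ) (M E : ℝ) (ψ : ℕ → ℕ → ℝ) : Prop :=
  (∀ h k, 0 ≤ ψ h k) ∧
  ∀ h ∈ Icc 1 (HT T), ∀ k ∈ Icc 1 (HT T), Nat.Coprime h k →
    ‖∫ t in T..(2 * T), (w t : ℂ) * ((((k : ℝ) / h) ^ a : ℝ) : ℂ) ^ ((t : ℂ) * I)‖ ≤
      ψ h k * M + E

end Pool.Agent.Lib.MP_aa9ae4_nt.L1
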