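import Mathlib
import Pool.Agent.Lib.MP_aa9ae4_nt.L1.Defs

/-!
MP_aa9ae4_nt, Theorem L: for every real `k > 1/2`, every `1/2 < σ ≤ 1`, `a > 0` and every real `β`
`∫_T^{2T} (|ζ(1/2+it)|/|ζ(σ+iat)|^β)^(2k) dt ≥ c T (log T)^(k²)` for large `T`, with `c > 0`
(method of Heap and Soundararajan with Hölder weights, and the separation of ratios of Theorem S).

Part A: general facts on block products. Every `S_X : Prop` is to be proved as `theorem pX : S_X` in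
`L1/PX.lean`; the statements used are hypotheses (`theorem pDia (hExd : S_Exd) : S_Dia`). The
docstrings contain complete proofs. Theorems of the directory `S1` may be imported
(`S1.PMn` : `pMn : S1.S_Mn`, `S1.PNn`, `S1.PSz`, `S1.PEs`, `S1.PHm`, `S1.Main` for
`main_Hx`, `main_Gd`); here `S_Mn`, `S_Nn`, ... of `S1` are written `S1.S_Mn`.
`L = log T`, `ℓ = log log T`; `Q` is the union of the blocks, `deg_i k = ∑_{p ∈ B_i} k p`.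
-/

namespace Pool.Agent.Lib.MP_aa9ae4_nt.L1

open Finset MeasureTheory Filter Topology
open Complex (I)
open Pool.Agent.Lib.MP_aa9ae4_nt.S1 (pw psumS eulS tail prs nn KK expJ HT fzS y1)

/-- **Expansion of a block product over exponent vectors.**

Proof. Both parts are the same identity in a field of characteristic 0. Induction on `n` is the direct
way: for `n = 0` both sides are 1 (`VK 0 = {0}`: `KK ∅ 0 = {0}`). Step: by `Finset.prod_range_succ` and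
`(∑_{p∈B n} x p)^r/r! = ∑_{k ∈ (B n).piAntidiag r} ∏ x^k/k!` (see the proof of `S1.pMn`, which also shows
that the sets `piAntidiag` for different `r` are disjoint) the new factor is
`∑_{k'' ∈ KK (B n) (R n)} f n (deg k'') ∏_{p∈B n} x p^(k'' p)/(k'' p)!`. The map `(k', k'') ↦ k' + k''` is a
bijection from `VK n × KK (B n) (R n)` to `VK (n+1)` as the supports are disjoint (`k' p = 0` off the first
`n` blocks, `k'' p = 0` off `B n`; the inverse restricts `k`; the condition `deg ≤ ∑ R` in `VK` follows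
from the conditions on the blocks, `Finset.sum_biUnion`). The coefficient and the product of the `x p`
are multiplicative (`prod_biUnion`). About 180 lines. -/
def S_Exd : Prop :=
  ∀ (n : ℕ) (B : ℕ → Finset ℕ) (R : ℕ → ℕ) (f : ℕ → ℕ → ℝ),
    (∀ i ∈ range n, ∀ j ∈ range n, i ≠ j → Disjoint (B i) (B j)) →
    (∀ x : ℕ → ℂ, MB n B R f x =
      ∑ k ∈ VK n B R, (cf n B f k : ℂ) * ∏ p ∈ (range n).biUnion B, x p ^ k p) ∧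
    (∀ x : ℕ → ℝ, ∏ i ∈ range n, ∑ r ∈ range (R i + 1),
        f i r / (r.factorial : ℝ) * (∑ p ∈ B i, x p) ^ r =
      ∑ k ∈ VK n B R, cf n B f k * ∏ p ∈ (range n).biUnion B, x p ^ k p)

/-- **Diagonal sums with a shift.**

Uses `S_Exd`. Proof. By `(a+b)! ≥ a! b!` and `(g!)^2 ≥ g!`: `((g+r) p)!⁻¹ ((g+s) p)!⁻¹ ≤
(g p)!⁻¹ ((r p)! (s p)!)⁻¹`. So with `h_i(j) = f i (j + deg_i r) * f i (j + deg_i s) ≥ 0`:
`cf (g+r) cf (g+s) (nQ g)⁻¹ ≤ ∏_i ∏_{p∈B i} ((r p)!(s p)!)⁻¹ * (∏_i h_i(deg_i g) ∏_{p∈B i} (g p)!⁻¹) * ∏_{p∈Q} (p⁻¹)^(g p)`,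
that is, a constant times `cf n B h g * ∏ x p^(g p)`, `x p = p⁻¹`. Sum over `g ∈ VK` with the real part of
`S_Exd` for `h`: `∏_i ∑_{j≤R_i} h_i(j)/j! V_i^j ≤ ∏_i b_i^(deg_i r + deg_i s) W_i`. About 120 lines. -/
def S_Dia : Prop :=
  ∀ (n : ℕ) (B : ℕ → Finset ℕ) (R : ℕ → ℕ) (f : ℕ → ℕ → ℝ) (b W : ℕ → ℝ), IsBl n B →
    (∀ i r, 0 ≤ f i r) → (∀ i ∈ range n, 0 ≤ b i) → (∀ i ∈ range n, 0 ≤ W i) →
    (∀ i ∈ range n, ∀ u v : ℕ, ∑ j ∈ range (R i + 1), f i (j + u) * f i (j + v) *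
      (∑ p ∈ B i, (p : ℝ)⁻¹) ^ j / (j.factorial : ℝ) ≤ b i ^ (u + v) * W i) →
    ∀ r ∈ VK n B R, ∀ s ∈ VK n B R,
    ∑ g ∈ VK n B R, cf n B f (g + r) * cf n B f (g + s) * ((nQ n B g : ℝ))⁻¹ ≤
      (∏ i ∈ range n, W i) * ∏ i ∈ range n, (b i ^ (∑ p ∈ B i, r p + ∑ p ∈ B i, s p) *
        ∏ p ∈ B i, (((r p).factorial : ℝ) * ((s p).factorial : ℝ))⁻¹)

/-- **Mean square of a block product.**

Uses `S_Exd`. Proof. `pw (1/2) p t = p^(-1/2) p^(-it)`, so by `S_Exd` and `S1.pNn` (f) the product is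
`∑_{k∈VK} cf k nQ(k)^(-1/2) nQ(k)^(-it)`, with distinct integers `nQ k ≤ Y` (`S1.pNn` (a) with
`J = ∑ R i`; `VK ⊆ KK`). `mean_value` (MeanValue.lean; coefficient of the integer `m` is
`cf k m^(-1/2)` if `m = nQ k`, else 0): at most `C (T+Y) ∑ cf(k)^2/nQ(k)`; `cf(k)^2 ≤ cf n B (f^2) k` since
`((k p)!)^2 ≥ (k p)!`; real part of `S_Exd` for `f^2`, `x p = p⁻¹`. About 120 lines. -/
def S_Msq : Prop :=
  ∃ C : ℝ, 0 < C ∧ ∀ (T Y : ℝ) (n : ℕ) (B : ℕ → Finset ℕ) (R : ℕ → ℕ) (f : ℕ → ℕ → ℝ), 1 ≤ T →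
    IsBl n B → (∀ k ∈ VK n B R, (nQ n B k : ℝ) ≤ Y) →
    ∫ t in T..(2 * T), ‖MB n B R f (fun p => pw (1 / 2) p t)‖ ^ 2 ≤
      C * (T + Y) * ∏ i ∈ range n, ∑ r ∈ range (R i + 1),
        f i r ^ 2 * (∑ p ∈ B i, (p : ℝ)⁻¹) ^ r / (r.factorial : ℝ)

/-- **Twisted mean of a block product.**

Uses `S_Exd`, `S_Dia`. Proof. As in `S_Msq` the product is `∑_k cf(k) nQ(k)^(-1/2) nQ(k)^(-it)`; its
absolute square times `θ^(it)` is `∑_{k,l} cf(k) cf(l) (nQ k nQ l)^(-1/2) exp(it λ(k,l))`,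
`λ(k,l) = log θ + log nQ(l) - log nQ(k)`. Call `(k,l)` near if `|λ(k,l)| ≤ T^(-1/2)`. For the other pairs
`‖∫_T^{2T} exp(itλ)‖ ≤ 2/|λ| ≤ 2√T`, in total at most `2√T Z^2` (`nQ ≥ 1`). If there is no near pair: first
alternative. Otherwise fix a near pair `(k₀,l₀)`, `r = k₀ - min(k₀,l₀)`, `s = l₀ - min(k₀,l₀)` (pointwise; both
in `VK`), `nQ k₀/nQ l₀ = nQ r/nQ s`. If `(k,l)` is near then `|log(nQ k nQ l₀) - log(nQ l nQ k₀)| ≤ 2T^(-1/2)`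
and different integers `x < y ≤ Y^2` have `log y - log x ≥ 1/y ≥ Y^(-2) > 2T^(-1/2)`, so
`nQ(k + l₀) = nQ(l + k₀)` and `k + l₀ = l + k₀` (unique factorisation, `S1.pNn` (a), (c)); hence with
`g = min(k,l)`: `k = g + r`, `l = g + s` (pointwise: `k - l = k₀ - l₀` as integers). The map
`(k,l) ↦ g` is injective, `g ∈ VK`, and the near part is at most
`T ∑_g cf(g+r) cf(g+s) (nQ g)⁻¹ (nQ r nQ s)^(-1/2)`; apply `S_Dia`. About 250 lines; split. -/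
def S_Twm : Prop :=
  ∀ (n : ℕ) (B : ℕ → Finset ℕ) (R : ℕ → ℕ) (f : ℕ → ℕ → ℝ) (b W : ℕ → ℝ) (T Y Z θ : ℝ), IsBl n B →
    (∀ i r, 0 ≤ f i r) → (∀ i ∈ range n, 0 ≤ b i) → (∀ i ∈ range n, 0 ≤ W i) →
    (∀ i ∈ range n, ∀ u v : ℕ, ∑ j ∈ range (R i + 1), f i (j + u) * f i (j + v) *
      (∑ p ∈ B i, (p : ℝ)⁻¹) ^ j / (j.factorial : ℝ) ≤ b i ^ (u + v) * W i) →
    2 ≤ T → 1 ≤ Y → 2 * Y ^ 2 < √T → 0 < θ → (∀ k ∈ VK n B R, (nQ n B k : ℝ) ≤ Y) →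
    ∑ k ∈ VK n B R, cf n B f k ≤ Z →
    ‖∫ t in T..(2 * T), ((‖MB n B R f (fun p => pw (1 / 2) p t)‖ ^ 2 : ℝ) : ℂ) *
      (θ : ℂ) ^ ((t : ℂ) * I)‖ ≤ 2 * √T * Z ^ 2 ∨
    ∃ r ∈ VK n B R, ∃ s ∈ VK n B R, (∀ p, r p = 0 ∨ s p = 0) ∧
      |Real.log θ - (Real.log (nQ n B r) - Real.log (nQ n B s))| ≤ (√T)⁻¹ ∧
      ‖∫ t in T..(2 * T), ((‖MB n B R f (fun p => pw (1 / 2) p t)‖ ^ 2 : ℝ) : ℂ) *
        (θ : ℂ) ^ ((t : ℂ) * I)‖ ≤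
        T * (∏ i ∈ range n, W i) * Phi n B b r s + 2 * √T * Z ^ 2

/-- **Approximation of `ζ(1/2+it)` by a sum of length `T^(3/2)`.**

Proof. Let `s = 1/2+it`, `T ≤ t ≤ 2T`, `N = ⌈T^(3/2)⌉₊`, `N' ≥ T^10` large. `zeta_approx` (ZetaApprox.lean) at `N'`:
`ζ(s) = ∑_{n≤N'} n^(-s) + N'^(1-s)/(s-1) + O(|s| N'^(-1/2))` (see the exact form there). With
`f(x) = x^(-s)` and the trapezoidal rule (twice integration by parts on `[n-1,n]`):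
`f(n) = ∫_{n-1}^n f + (f(n) - f(n-1))/2 + O(max_{[n-1,n]} |f''|)`, `|f''(x)| ≤ |s||s+1| x^(-5/2)`. Sum over
`N < n ≤ N'`: `∑ n^(-s) = (N'^(1-s) - N^(1-s))/(1-s) + (N'^(-s) - N^(-s))/2 + O(T^2 N^(-3/2))`, and
`T^2 N^(-3/2) ≤ T^(-1/4)`. Hence `ζ(s) - ∑_{n≤N} n^(-s) = N^(1-s)/(s-1) - N^(-s)/2 + O(T^(-1/4))` and
`|N^(1-s)/(s-1)| ≤ 2 T^(3/4)/T`, `|N^(-s)| ≤ T^(-3/4)`. About 150 lines. -/
def S_Zap : Prop :=
  ∃ C : ℝ, 0 < C ∧ ∀ T t : ℝ, 2 ≤ T → T ≤ t → t ≤ 2 * T →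
    ‖riemannZeta (1 / 2 + t * I) - zsum (1 / 2 + t * I) ⌈T ^ (3 / 2 : ℝ)⌉₊‖ ≤
      C * T ^ (-(1 / 4) : ℝ)

/-- **Mean of `ζ` against two block products.**

Uses `S_Exd`, `S_Zap`. Proof. `F = MB f = ∑_j cf(j) nQ(j)^(-1/2-it)`, `G = MB g` in the same way,
`‖F‖ ≤ Zf`, `‖G‖ ≤ Zg`. Replace `ζ` by `zsum` (`N = ⌈T^(3/2)⌉₊`): the error is at most
`T C T^(-1/4) Zf Zg`. Then `∑_{n≤N} ∑_{j,l} cf_f(j) cf_g(l) (n nQ(j) nQ(l))^(-1/2) ∫ (nQ(l)/(n nQ(j)))^(it) dt`.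
Diagonal `n nQ(j) = nQ(l)`: then `j ≤ l` (unique factorisation: `nQ j ∣ nQ l`), conversely for `j ≤ l` the only
`n` is `nQ(l-j) ≤ Y ≤ N`; contribution `T cf_f(j) cf_g(l)/nQ(l)`. Off the diagonal
`‖∫‖ ≤ 2/|log(nQ(l)/(n nQ(j)))|`: if `n nQ(j) ≥ 2 nQ(l)` this is at most `2/log 2` and
`∑_{n≤N} n^(-1/2) ≤ 2√N ≤ 4T^(3/4)`; otherwise `n < 2Y` and it is at most `2 max(nQ l, n nQ j) ≤ 4Y`,
`∑_{n<2Y} n^(-1/2) * 4Y ≤ 16 Y^2`. About 250 lines; split. -/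
def S_Mfl : Prop :=
  ∃ C : ℝ, 0 < C ∧ ∀ (n : ℕ) (B : ℕ → Finset ℕ) (R : ℕ → ℕ) (f g : ℕ → ℕ → ℝ) (T Y Zf Zg : ℝ),
    IsBl n B → 2 ≤ T → 1 ≤ Y → Y ≤ T → (∀ k ∈ VK n B R, (nQ n B k : ℝ) ≤ Y) →
    ∑ k ∈ VK n B R, |cf n B f k| ≤ Zf → ∑ k ∈ VK n B R, |cf n B g k| ≤ Zg →
    ‖(∫ t in T..(2 * T), riemannZeta (1 / 2 + t * I) * MB n B R f (fun p => pw (1 / 2) p t) *
        (starRingEnd ℂ) (MB n B R g (fun p => pw (1 / 2) p t))) -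
      (T * ∑ l ∈ VK n B R, ∑ j ∈ (VK n B R).filter (fun j => ∀ p ∈ (range n).biUnion B, j p ≤ l p),
        cf n B f j * cf n B g l * ((nQ n B l : ℝ))⁻¹ : ℝ)‖ ≤
      C * T ^ (3 / 4 : ℝ) * Y ^ 2 * Zf * Zg

/-- **Quadratic form, general weight.**

Proof. As `S1.S_Wsq` (file S1/PWsq.lean: copy it with `zw T` replaced by `w`). About 100 lines. -/
def S_Wsg : Prop :=
  ∀ (a T M E : ℝ) (w : ℝ → ℝ) (ψ : ℕ → ℕ → ℝ), 0 < T → Continuous w → PsiG a T w M E ψ →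
    ∀ (ι : Type) (s : Finset ι) (n : ι → ℕ) (b : ι → ℂ), (∀ i ∈ s, n i ∈ Icc 1 (HT T)) →
    ∫ t in T..(2 * T), w t * ‖∑ i ∈ s, b i * (n i : ℂ) ^ (-(((a * t : ℝ) : ℂ) * I))‖ ^ 2 ≤
      ∑ i ∈ s, ∑ j ∈ s, ‖b i‖ * ‖b j‖ *
        (ψ (n i / Nat.gcd (n i) (n j)) (n j / Nat.gcd (n i) (n j)) * M + E)

/-- **Weighted mean square of the exponential, general weight.**

Uses `S_Wsg`; `S1.S_Cmb` (`S1.pCmb`), `S1.pMn`, `S1.pNn`, `S1.pSz`. Proof. Copy of `S1.S_Wex` (file S1/PWex.lean): there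
`u = 1 + 1/(2σ)`, `v = u/(u-1) = 2σ+1`, `σu = σ+1/2`. The part with `E` is at most `E (∑ β)^2 ≤ E exp(2ℓ^2)` since
`∑ β ≤ exp(ℓ^2)`. (`σ = 1` is allowed here; in `S1.S_Wex` the hypothesis `σ < 1` is only used trivially.)
About 250 lines, mostly copied. -/
def S_Wxg : Prop :=
  ∀ (σ a lam K Cp : ℝ) (A : ℕ), 1 / 2 < σ → σ ≤ 1 → 0 < a → 0 ≤ lam → 0 < K → 0 < Cp →
    ∃ C : ℝ, 0 < C ∧ ∀ᶠ T : ℝ in atTop, ∀ (w : ℝ → ℝ) (M E : ℝ) (ψ : ℕ → ℕ → ℝ), Continuous w →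
    0 ≤ M → 0 ≤ E → PsiG a T w M E ψ →
    ∑ h ∈ Icc 1 (HT T), ∑ k ∈ Icc 1 (HT T), ψ h k ^ (2 * σ + 1) ≤ Cp →
    ∀ (z J : ℕ) (om : ℂ), (z : ℝ) ≤ Real.log (Real.log T) ^ A →
    (J : ℝ) ≤ K * Real.log (Real.log T) → ‖om‖ ≤ 1 →
    ∫ t in T..(2 * T), w t * ‖expJ J ((lam : ℂ) * om * psumS σ 0 z (a * t))‖ ^ 2 ≤
      C * M + Real.exp (2 * Real.log (Real.log T) ^ 2) * E

/-- **Weighted exponential moments, general weight.**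

Uses `S_Wxg`; `S1.pTay`. Proof. As `S1.S_We` (file S1/PWe.lean): `S = psumS σ 0 z (at)`, `J = ⌈10λKℓ⌉₊ ≤ (10λK+1)ℓ`,
`exp(λ‖S‖) ≤ ∑_{ω ∈ {1,i,-1,-i}} ‖exp(λωS)‖^2 ≤ ∑_ω (2‖expJ J (λωS)‖^2 + 2)` on the set, and
`∫_T^{2T} w ≤ ψ 1 1 M + E ≤ Cp^(1/(2σ+1)) M + E` (`PsiG` with `h = k = 1`, `1^a = 1`, `1^(it) = 1`;
`ψ 1 1 ^ (2σ+1)` is one term of the sum). About 110 lines. -/
def S_Weg : Prop :=
  ∀ (σ a lam K Cp : ℝ) (A : ℕ), 1 / 2 < σ → σ ≤ 1 → 0 < a → 0 ≤ lam → 0 < K → 0 < Cp →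
    ∃ C : ℝ, 0 < C ∧ ∀ᶠ T : ℝ in atTop, ∀ (w : ℝ → ℝ) (M E : ℝ) (ψ : ℕ → ℕ → ℝ), Continuous w →
    (∀ t, 0 ≤ w t) → 0 ≤ M → 0 ≤ E → PsiG a T w M E ψ →
    ∑ h ∈ Icc 1 (HT T), ∑ k ∈ Icc 1 (HT T), ψ h k ^ (2 * σ + 1) ≤ Cp →
    ∀ z : ℕ, (z : ℝ) ≤ Real.log (Real.log T) ^ A →
    ∫ t in {t ∈ Set.Icc T (2 * T) | ‖psumS σ 0 z (a * t)‖ ≤ K * Real.log (Real.log T)},
      w t * Real.exp (lam * ‖psumS σ 0 z (a * t)‖) ≤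
      C * M + Real.exp (3 * Real.log (Real.log T) ^ 2) * E

end Pool.Agent.Lib.MP_aa9ae4_nt.L1
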