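import Mathlib
import Pool.Agent.Lib.MP_aa9ae4_nt.L1.SpecA

/-!
MP_aa9ae4_nt, Theorem L, part B: the concrete block polynomials and the theorem. Rules and notation
as in SpecA. `K_i = Kb C1 i = ⌈C1 e^(i/2)⌉₊`, `M_i = m K_i`, blocks `i = 0, ..., nI T` (`n = nI T + 1`),
`x_i = xe η T i`. `ENN` facts: `ℓ → ∞`, `nI T ≥ 1` for `T` large.
-/

namespace Pool.Agent.Lib.MP_aa9ae4_nt.L1

open Finset MeasureTheory Filter Topology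
open Complex (I)
open Pool.Agent.Lib.MP_aa9ae4_nt.S1 (pw psumS eulS tail prs nn KK expJ HT fzS y1)

/-- **Mertens' second theorem.** There is `C0 ≥ 4` with `|∑_{p≤x} 1/p - log log x| ≤ C0/4` for `x ≥ 2`.

Proof. Mertens.lean (`mertens_main`, `mertensA_le`) and MP_9f2731_nt/BT/Mert.lean (`mert_A_ge`,
`mert_upper`, `mert_lower` with `M = 2`): `mertensS x - log log x` is bounded for `x ≥ 2`;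
`tail 1 0 x = mertensS x` (`p^(-1) = 1/p`). About 60 lines. -/
def S_Mt : Prop := ∃ C0 : ℝ, MertC C0

/-- **Facts on the blocks.**

Proof. Everything for `T` large. (c) `2 log ℓ ≤ nI T ≤ 2 log ℓ + 1`, `e^(1/2) ≤ 2`. For `i ≤ nI T`:
`η L e^(-i) ≥ η L/(e ℓ^2)`, which exceeds `√L + 1` and `10`, so (b) (`xe` is a floor: `xe ≥ exp(..) - 1`), and
`log (xe i) ≥ η L e^(-i) - 1/10` etc. (d) the intervals `(lo i, x_i]` are disjoint and their union is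
`(0, x_0]` as `lo i = x_{i+1}` for `i < nI`, `lo (nI) = 0` and `x` is decreasing in `i`.
(a) For `i < nI`: `Vb i = tail 1 0 x_i - tail 1 0 x_{i+1} ≤ log log x_i - log log x_{i+1} + C0/2`, where
`log x_i ≤ η L e^(-i)` and `log x_{i+1} ≥ 0.9 η L e^(-i-1)`, so at most `1.2 + C0/2 ≤ C0` (`C0 ≥ 4`). For
`i = nI`: `Vb = tail 1 0 x_i ≤ log log x_i + C0/4 ≤ ℓ + C0/4 ≤ C0 ℓ`. (e) the sum telescopes to `tail 1 0 x_0`,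
and `|log log x_0 - ℓ| ≤ |log η| + 1`. About 200 lines; split. -/
def S_Bk : Prop :=
  ∀ C0 η : ℝ, MertC C0 → 0 < η → η ≤ 1 → ∀ᶠ T : ℝ in atTop,
    (∀ i ≤ nI T, Vb η T i ≤ Vu C0 T i) ∧
    (∀ i < nI T, Real.exp √(Real.log T) ≤ (lo η T i : ℝ)) ∧
    (∀ i ≤ nI T, 2 ≤ xe η T i ∧ lo η T i ≤ xe η T i) ∧
    (Real.log (Real.log T) ≤ Real.exp ((nI T : ℝ) / 2) ∧
      Real.exp ((nI T : ℝ) / 2) ≤ 2 * Real.log (Real.log T)) ∧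
    IsBl (nI T + 1) (Bl η T) ∧ (range (nI T + 1)).biUnion (Bl η T) = prs 0 (xe η T 0) ∧
    |∑ i ∈ range (nI T + 1), Vb η T i - Real.log (Real.log T)| ≤ C0 + |Real.log η| + 1

/-- **Sizes.** Let `R i = m K_i`.

Uses `S_Bk`, `S_Exd`. Proof. (1) For `k ∈ VK`: `nQ k ≤ ∏_i x_i^(R i)` and
`log ≤ ∑_i η L e^(-i) m (C1 e^(i/2) + 1) ≤ η m L (C1 ∑ e^(-i/2) + ∑ e^(-i)) ≤ η m L (2.6 C1 + 1.6) ≤ 5 η m C1 L`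
(`C1 ≥ 1`, geometric series). (2) `|f i r| ≤ c0^r r!`: `|cf f k| ≤ cf (c0^r r!) k` and by `S_Exd` (real part,
`x p = 1`) the sum is at most `∏_i ∑_{r≤R i} c0^r |B_i|^r ≤ ∏_i (R i + 1) (c0 x_i)^(R i) ≤ ∏_i (2 c0 x_i)^(R i)`
(`|B_i| ≤ x_i`, `c0 x_i ≥ 1`, `R+1 ≤ 2^R`); `∑ R i ≤ m ∑_{i≤nI} (C1 e^(i/2) + 1) ≤ C ℓ`, so
`(2c0)^(∑ R i) ≤ exp(C' ℓ) ≤ T^(ηmC1/2)` for `T` large. About 150 lines. -/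
def S_Sz2 : Prop :=
  ∀ (m : ℕ) (C1 η : ℝ), 1 ≤ m → 1 ≤ C1 → 0 < η → η ≤ 1 →
    (∀ᶠ T : ℝ in atTop, ∀ k ∈ VK (nI T + 1) (Bl η T) (fun i => m * Kb C1 i),
      (nQ (nI T + 1) (Bl η T) k : ℝ) ≤ T ^ (5 * η * m * C1)) ∧
    (∀ c0 : ℝ, 1 ≤ c0 → ∀ᶠ T : ℝ in atTop, ∀ f : ℕ → ℕ → ℝ,
      (∀ i r, |f i r| ≤ c0 ^ r * (r.factorial : ℝ)) →
      ∑ k ∈ VK (nI T + 1) (Bl η T) (fun i => m * Kb C1 i), |cf (nI T + 1) (Bl η T) f k| ≤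
        T ^ (6 * η * m * C1))

/-- the factor by which a prime of block `i` may enlarge a diagonal sum -/
noncomputable def bb (k : ℝ) (m : ℕ) (C1 C0 T : ℝ) (i : ℕ) : ℝ :=
  1 + k + (m * Kb C1 i : ℕ) / Vu C0 T i

/-- **The block inequality for the coefficients `fS`.**

Uses `S_Bk` (only `Vb ≤ Vu`). Proof. Let `K = Kb C1 i ≥ 1`, `M = mK`, `V = Vb`, `U = Vu > 0`, `V ≤ U`. If `i ∈ S`: the terms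
are at most `k^(2j+u+v) V^j/j!`, the sum is at most `k^(u+v) exp(k^2 V)` (`Real.sum_le_exp_of_nonneg`) and
`k ≤ bb`. If `i ∉ S`: a term is nonzero only for `j+u = M = j+v`; then `u = v ≤ M`, `j = M-u`, the term is
`(ck/K)^(2M) M!^2 V^(M-u)/(M-u)!`, `V^(M-u) ≤ U^(M-u)`, `M!/(M-u)! ≤ M^u` (`Nat.factorial_le...`,
`Nat.descFactorial_le_pow`), so it is at most `(ck/K)^(2M) M! U^M (M/U)^u ≤ wS * bb^u ≤ wS * bb^(2u)` (`bb ≥ 1`).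
About 120 lines. -/
def S_Blq : Prop :=
  ∀ (k : ℝ) (m : ℕ) (C1 C0 η : ℝ), 0 < k → 1 ≤ m → 1 ≤ C1 → MertC C0 → 0 < η → η ≤ 1 →
    ∀ᶠ T : ℝ in atTop, ∀ S : Finset ℕ, ∀ i ∈ range (nI T + 1), ∀ u v : ℕ,
    ∑ j ∈ range (m * Kb C1 i + 1), fS k m C1 S i (j + u) * fS k m C1 S i (j + v) *
      (∑ p ∈ Bl η T i, (p : ℝ)⁻¹) ^ j / (j.factorial : ℝ) ≤
      bb k m C1 C0 T i ^ (u + v) * wS k m C1 C0 η T S i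

/-- **Twisted means of `|A_S|^2`.**

Uses `S_Bk`, `S_Sz2`, `S_Blq`, `S_Twm`; `S1.pMn`, `S1.pSz`. Proof. `n = nI T + 1`, `B = Bl η T`, `R i = m K_i`,
`f = fS k m C1 S ≥ 0`, `f i r ≤ c0^r r!` with `c0 = 1 + k + ck k`. `Y = T^(5ηmC1) ≤ T^(1/80)`, `Z = T^(6ηmC1) ≤ T^(3/200)`,
`2√T Z^2 ≤ T^(3/4)`, `2Y^2 < √T`. Apply `S_Twm` to `θ = (k'/h)^a` for coprime `h, k' ∈ Icc 1 (HT T)`: first
alternative: `ψ h k' = 0`; second alternative: `ψ h k' = Phi n B bb r s` for a choice of `(r,s)`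
(`ψ = 0` for other pairs `(h,k')`). The map `(h,k') ↦ (r,s)` is injective: for the same `(r,s)`
`|a log(k'/h) - a log(k''/h'')| ≤ 2T^(-1/2)`, but for different reduced fractions with `h, k ≤ H`, `H ≤ exp(ℓ^2)`:
`|log(k'h'') - log(k''h)| ≥ H^(-2) > 2T^(-1/2)/a` for `T` large. So
`∑∑ ψ^v ≤ ∑_{r,s∈VK} Phi^v ≤ (∑_{r∈VK} ∏_p (b_p^v p^(-v/2))^(r p)/(r p)!)^2` (`b_p = bb i` for `p ∈ B_i`;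
`((r p)!)^v ≥ (r p)!`; `nQ r = ∏ p^(r p)`) `≤ exp(2 ∑_{p∈Q} b_p^v p^(-v/2))` (`S1.pMn`, second part). Here
`bb (nI) ≤ 1 + k + m (2 C1 ℓ + 1)/(C0 ℓ)` is bounded and `∑_p p^(-v/2)` converges (`S1.pSz` (b), `v/2 > 1`); for `i < nI`
`bb i ≤ 1 + k + m(2 C1 ℓ + 1) ≤ C ℓ` and `∑_{p > exp √L} p^(-v/2) ≤ exp(-(v/2-1)√L)/(v/2-1)` (`S1.pSz` (a)), so the
sum over these blocks tends to 0. About 300 lines; split into the bound for the sum and the rest. -/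
def S_Psl : Prop :=
  ∀ (k : ℝ) (m : ℕ) (C1 C0 η a v : ℝ), 0 < k → 1 ≤ m → 1 ≤ C1 → MertC C0 → 0 < η → η ≤ 1 →
    η * m * C1 ≤ 1 / 400 → 0 < a → 2 < v →
    ∃ Cp : ℝ, 0 < Cp ∧ ∀ᶠ T : ℝ in atTop, ∀ S : Finset ℕ, ∃ ψ : ℕ → ℕ → ℝ,
      PsiG a T (fun t => ‖AS k m C1 η S T t‖ ^ 2) (T * WS k m C1 C0 η T S) (T ^ (3 / 4 : ℝ)) ψ ∧
      ∑ h ∈ Icc 1 (HT T), ∑ k ∈ Icc 1 (HT T), ψ h k ^ v ≤ Cp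

/-- **Fourth moment of `A_S`.**

Uses `S_Bk`, `S_Sz2`, `S_Msq`. Proof. `(∑_{r≤R} f(r)/r! x^r)^2 = ∑_{r≤2R} g(r)/r! x^r`,
`g(r) = ∑_j binom(r,j) f(j) f(r-j)` (`f(j) = 0` for `j > R`; here `R = mK`, `f = fS`). So
`AS^2 = MB n B (2R) g`, `∫ ‖AS‖^4 = ∫ ‖MB n B (2R) g‖^2`; the integers are at most
`T^(10ηmC1) ≤ T` (`S_Sz2` (1) with `2m` in place of `m`), so `S_Msq` gives
`2CT ∏_i ∑_r g(r)^2 V_i^r/r!`. Type N (`i ∈ S`): `g(r) ≤ (2k)^r`, factor at most `exp(4k^2 V_i)`. Type Q: only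
`r = 2M`: `g = (2M)! (ck/K)^(2M)`, factor `(2M)! (ck/K)^(4M) V^(2M) ≤ (2M ck^2 V/K^2)^(2M) = (2 m ck^2 V/K)^(2M) ≤ 1`
because `V_i ≤ Vu ≤ C0 e^(i/2)` (`ℓ ≤ e^(nI/2)`) and `K_i ≥ C1 e^(i/2) ≥ 2 m ck^2 C0 e^(i/2)`. Together
`2CT exp(4k^2 ∑ V_i) ≤ C' T L^(4k^2) ≤ T L^(4k^2+1)`. About 200 lines. -/
def S_M4 : Prop :=
  ∀ (k : ℝ) (m : ℕ) (C1 C0 η : ℝ), 0 < k → 1 ≤ m → MertC C0 → 2 * m * ck k ^ 2 * C0 ≤ C1 →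
    0 < η → η ≤ 1 → η * m * C1 ≤ 1 / 400 → ∀ᶠ T : ℝ in atTop, ∀ S : Finset ℕ,
    ∫ t in T..(2 * T), ‖AS k m C1 η S T t‖ ^ 4 ≤ T * Real.log T ^ (4 * k ^ 2 + 1)

/-- **Pointwise inequality in one block.**

Uses `S1.pTay`. Proof. Case 1, `‖x‖ ≤ K/(20(k+1))`: for `α = k, k-1` (`|α| ≤ k+1`) `‖αx‖ ≤ K/20`, so
`expJ K (αx) = exp(αx)(1+ε)`, `‖ε‖ ≤ e^(-K) e^(K/20) ≤ e^(-0.9K)`; as `A1(k-1) + A2 k = 2k`, the left side is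
`exp(2k Re x) ‖1+ε₁‖^A1 ‖1+ε₂‖^A2` and `‖expJ K (kx)‖^2 = exp(2k Re x) ‖1+ε₂‖^2 ≥ exp(2k Re x)(1-e^(-0.9K))^2`;
the quotient is at most `(1+e^(-0.9K))^(A1+A2) (1-e^(-0.9K))^(-2) ≤ 1 + e^(-K/2)` for `K ≥ K0(A1,A2)`.
Case 2, `‖x‖ > K/(20(k+1))`: let `u = (k+1)‖x‖/K > 1/20`. `‖expJ K (αx)‖ ≤ ∑_{r≤K} (uK)^r/r! ≤
∑_r (20u)^K e^K ≤ (40 e u)^K` (`K^r/r! ≤ e^K`, `u^r ≤ (20u)^K`, `K+1 ≤ 2^K`), so the left side is at most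
`(40 e u)^(K(A1+A2)) ≤ (120 u)^(2mK)` (`120 u ≥ 1`, `A1 + A2 ≤ 2m`) and `120 u = ck ‖x‖/K`. About 180 lines. -/
def S_Pnt : Prop :=
  ∀ (k A1 A2 : ℝ) (m : ℕ), 0 < k → 0 ≤ A1 → 0 ≤ A2 → A1 * (k - 1) + A2 * k = 2 * k →
    A1 + A2 ≤ 2 * m → ∃ K0 : ℕ, ∀ K : ℕ, K0 ≤ K → 1 ≤ K → ∀ x : ℂ,
    ‖expJ K (((k - 1 : ℝ) : ℂ) * x)‖ ^ A1 * ‖expJ K ((k : ℂ) * x)‖ ^ A2 ≤
      (1 + Real.exp (-(K : ℝ) / 2)) * ‖expJ K ((k : ℂ) * x)‖ ^ 2 +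
        (ck k * ‖x‖ / K) ^ (2 * (m * K))

/-- **The product inequality.**

Uses `S_Pnt`. Proof. `Np C1 η α T t = ∏_i expJ K_i (α P_i)`, `P_i = ∑_{p∈B_i} pw (1/2) p t`
(`α^r/r! P^r = (αP)^r/r!`), and `‖AS k m C1 η S T t‖^2 = ∏_{i∈S} ‖expJ K_i (k P_i)‖^2 ∏_{i∉S} (ck ‖P_i‖/K_i)^(2M_i)`
(`i < n`; for type Q only `r = M_i` remains and the factorials cancel; for type N the terms with
`K_i < r ≤ M_i` vanish). By `S_Pnt` the left side is at most `∏_i (a_i + b_i) = ∑_S ∏_{i∈S} a_i ∏_{i∉S} b_i`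
(`Finset.prod_add`), `a_i = (1+e^(-K_i/2)) ‖expJ K_i (k P_i)‖^2`, and `∏ (1+e^(-K_i/2)) ≤ exp(∑ e^(-K_i/2)) ≤ e`, since
`K_i ≥ C1 e^(i/2) ≥ 8 + 4i` for `C1 ≥ 8` (`e^(i/2) ≥ 1 + i/2`). `C1₀ = max(K0, 8)`, `K_i ≥ C1`.
`Real.mul_rpow`, `Real.finset_prod_rpow` for the real powers. About 150 lines. -/
def S_Prd : Prop :=
  ∀ (k A1 A2 : ℝ) (m : ℕ), 0 < k → 0 ≤ A1 → 0 ≤ A2 → A1 * (k - 1) + A2 * k = 2 * k →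
    A1 + A2 ≤ 2 * m → 1 ≤ m → ∃ C10 : ℝ, ∀ C1 : ℝ, C10 ≤ C1 → ∀ η T t : ℝ,
    ‖Np C1 η (k - 1) T t‖ ^ A1 * ‖Np C1 η k T t‖ ^ A2 ≤
      Real.exp 1 * ∑ S ∈ (range (nI T + 1)).powerset, ‖AS k m C1 η S T t‖ ^ 2

/-- **The total mass.**

Uses `S_Bk`. Proof. `∑_S WS = ∏_i (exp(k^2 V_i) + q_i)` (`Finset.prod_add`), `q_i = (ck/K)^(2M) M! Vu^M ≤
(ck^2 M Vu/K^2)^M = (ck^2 m Vu/K)^M ≤ e^(-M_i) ≤ e^(-K_i)`, because `Vu ≤ C0 e^(i/2)` (for `i = nI`: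
`C0 ℓ ≤ C0 e^(nI/2)`) and `K_i ≥ C1 e^(i/2)`, `C1 ≥ 3 ck^2 m C0`. As `exp(k^2 V_i) ≥ 1` the product is at most
`∏ exp(k^2 V_i)(1+e^(-K_i)) ≤ e exp(k^2 ∑ V_i) ≤ C exp(k^2 ℓ) = C L^(k^2)`. About 120 lines. -/
def S_Wsm : Prop :=
  ∀ (k : ℝ) (m : ℕ) (C1 C0 η : ℝ), 0 < k → 1 ≤ m → MertC C0 → 3 * ck k ^ 2 * m * C0 ≤ C1 →
    0 < η → η ≤ 1 → ∃ C : ℝ, 0 < C ∧ ∀ᶠ T : ℝ in atTop,
    ∑ S ∈ (range (nI T + 1)).powerset, WS k m C1 C0 η T S ≤ C * Real.log T ^ (k ^ 2)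

/-- **Large values of the prime sums at height `at`.**

Uses `S1.main_Hx` (`S1.S_Hx`), `S1.pHm`, `S1.pSz`. Proof. As `S1.S_Tla`, `S1.S_Tlb` (files S1/PTla.lean, S1/PTlb.lean)
with `100` replaced by `D`. First set: `S_Hx` with `λ = D+1`, `om = 1/2`, `K = 1` (`y1 σ T ≤ ℓ^A ≤ L^(1/2)`,
`‖psumS‖ ≤ y₁`), Markov: `exp(-(D+1)ℓ) C T ≤ T L^(-D)/2`. Second set: `m = ⌈ℓ⌉₊`,
`∫ ‖S‖^(2m) ≤ C T (4/(κℓ))^m` and threshold 1: at most `C T exp(-ℓ log(κℓ/4)) ≤ T L^(-D)/2` for `T` large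
(`z^m ≤ exp(Kz ℓ (ℓ+1)) ≤ T`). About 150 lines. -/
def S_Fz : Prop :=
  ∀ (σ a D : ℝ) (Kz : ℕ), 1 / 2 < σ → σ ≤ 1 → 0 < a → 0 < D → ∀ᶠ T : ℝ in atTop,
    ∀ z : ℕ, (z : ℝ) ≤ Real.log T ^ Kz →
    volume {t ∈ Set.Icc T (2 * T) |
      Real.log (Real.log T) < ‖psumS σ 0 (y1 σ T) (a * t)‖ ∨
      1 < ‖psumS σ (y1 σ T) z (a * t)‖} ≤ ENNReal.ofReal (T * Real.log T ^ (-D))

/-- `z(T)`, `gs T` is a good set for `ζ(σ+iat)` with the parameters `Kz`, `om`, `δ` -/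
def IsGs (σ a : ℝ) (Kz : ℕ) (om δ : ℝ) (z : ℝ → ℕ) (gs : ℝ → Set ℝ) : Prop :=
  ∀ᶠ T : ℝ in atTop, Real.log T ≤ (z T : ℝ) ∧ (z T : ℝ) ≤ Real.log T ^ Kz ∧
    MeasurableSet (gs T) ∧ gs T ⊆ Set.Icc T (2 * T) ∧
    volume (Set.Icc T (2 * T) \ gs T) ≤ ENNReal.ofReal (T ^ (1 - δ)) ∧
    ∀ t ∈ gs T, ‖psumS σ 0 (z T) (a * t)‖ ≤ Real.log T ^ om ∧
      1 / 2 ≤ ‖fzS σ a t‖ * ‖eulS σ 0 (z T) (a * t)‖ ∧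
      ‖fzS σ a t‖ * ‖eulS σ 0 (z T) (a * t)‖ ≤ 2

/-- **The good set, `1/2 < σ ≤ 1`.**

Uses `S1.main_Gd` for `σ < 1`: `z = zT σ T`, `gs = good σ a T`, `om = 1 - σ/4`
(`‖psumS‖ ≤ 2 L^(1-σ/2) ≤ L^om` on `Gz`), `Kz = 2 Bs σ`, `‖ζE‖` within `2/L ≤ 1/2` of 1, `δ` from `S1.S_Gd`.
For `σ = 1`: Final.lean: `fexc a T z`, `z = ⌊L^150⌋₊`, `fin_exc_meas`, `fin_exc_vol`
(`a⁻¹ (aT)^(1/9) ≤ T^(1/2)`), `fz a t = fzS 1 a t`, `eul 0 z u = eulS 1 0 z u` (casts); on the complement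
`‖fz eul - 1‖ ≤ 1/log(aT) ≤ 1/2`; `‖psumS 1 0 z u‖ ≤ tail 1 0 z ≤ log log z + C ≤ L^(1/2)` (`S_Mt`). About 150 lines. -/
def S_Gs : Prop :=
  ∀ σ a : ℝ, 1 / 2 < σ → σ ≤ 1 → 0 < a → ∃ (Kz : ℕ) (om δ : ℝ) (z : ℝ → ℕ) (gs : ℝ → Set ℝ),
    0 < om ∧ om < 1 ∧ 0 < δ ∧ δ < 1 ∧ IsGs σ a Kz om δ z gs

/-- **The upper bound.** There is `C1₀` such that for `C1 ≥ C1₀` and `η m C1 ≤ 1/400` and every real `r`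
`∫_gs ‖Np(k-1)‖^A1 ‖Np(k)‖^A2 ‖ζ(σ+iat)‖^r ≤ C T L^(k²)`.

Uses `S_Bk`, `S_Psl`, `S_Weg`, `S_M4`, `S_Prd`, `S_Wsm`, `S_Fz`, `S_Mt`; `S1.pEs`, `S1.pSz`, `S1.main_Hx`. Proof. `C0` from
`S_Mt`; `C1₀` is the maximum of 1, the `C10` of `S_Prd` and the bounds in `S_M4`, `S_Wsm`. On `gs`:
`‖ζ‖^r ≤ 2^|r| ‖E‖^(-r)`, `|log‖E‖| ≤ ‖psumS σ 0 z‖ + C_σ` (`S1.pEs`, `S1.pSz` (b)), so `‖ζ‖^r ≤ C exp(|r| ‖S‖)`,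
`S = psumS σ 0 z (at)`. By `S_Prd` it suffices to bound `∑_S e ∫_gs ‖AS‖^2 C exp(|r|‖S‖)`. Let `F` be the set of
`S_Fz` (with `D = 8k^2 + 20`, `Kz`), `y₁ = y1 σ T ≤ z` for `T` large (`z ≥ L`). On `gs \ F`:
`‖S‖ ≤ ‖psumS σ 0 y₁‖ + 1`, `‖psumS σ 0 y₁‖ ≤ ℓ`, so by `S_Weg` (`λ = |r|`, `K = 1`, `A = As σ`, weight `‖AS‖^2`, `M = T WS`,
`E = T^(3/4)`, `ψ` of `S_Psl` with `v = 2σ+1`) this part is at most `C T WS + exp(3ℓ^2) T^(3/4)`; summed over the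
`2^(nI+1) ≤ ℓ^3` sets `S` with `S_Wsm`: `≤ C' T L^(k²)`. On `gs ∩ F` Cauchy-Schwarz twice:
`∫ ‖AS‖^2 e^(|r|‖S‖) ≤ (∫ ‖AS‖^4)^(1/2) (vol F)^(1/4) (∫_{‖S‖≤L^om} e^(4|r|‖S‖))^(1/4) ≤
(T L^(4k²+1))^(1/2) (T L^(-D))^(1/4) (C T)^(1/4) ≤ C T L^(-1)` (`S_M4`, `S1.S_Hx` with `y = 0`), times `ℓ^3`.
(`∫ t in Icc` and `∫ t in T..2T` agree.) About 300 lines; split. -/
def S_Upp : Prop :=
  ∀ (k A1 A2 : ℝ) (m : ℕ), 0 < k → 0 ≤ A1 → 0 ≤ A2 → A1 * (k - 1) + A2 * k = 2 * k →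
    A1 + A2 ≤ 2 * m → 1 ≤ m → ∃ C10 : ℝ, ∀ C1 : ℝ, C10 ≤ C1 → ∀ η : ℝ, 0 < η → η ≤ 1 →
    η * m * C1 ≤ 1 / 400 → ∀ (σ a : ℝ) (Kz : ℕ) (om δ : ℝ) (z : ℝ → ℕ) (gs : ℝ → Set ℝ),
    1 / 2 < σ → σ ≤ 1 → 0 < a → 0 < om → om < 1 → IsGs σ a Kz om δ z gs → ∀ r : ℝ,
    ∃ C : ℝ, 0 < C ∧ ∀ᶠ T : ℝ in atTop,
    ∫ t in gs T, ‖Np C1 η (k - 1) T t‖ ^ A1 * ‖Np C1 η k T t‖ ^ A2 * ‖fzS σ a t‖ ^ r ≤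
      C * T * Real.log T ^ (k ^ 2)

/-- **The diagonal sum.**

Uses `S_Bk`, `S_Mt`; `S1.pSz`. Proof. `n = nI T+1`, `B = Bl η T`, `K_i = Kb C1 i`, `Q` the union. For `l ∈ VK` the `j` with
`j ≤ l` on `Q` in `VK` are all functions `j` supported on `Q` with `j ≤ l`, and
`∑_j cf j = ∑_j ∏_{p∈Q} (k-1)^(j p)/(j p)! = ∏_{p∈Q} ∑_{e ≤ l p} (k-1)^e/e!` (`Finset.prod_sum`/`prod_univ_sum`), each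
factor is `≥ 0` (`k > 0`; for `k ≥ 1` clear, for `0 < k < 1` the partial sums of `exp(k-1)` with
`-1 < k-1 < 0` are an alternating sum of decreasing terms beginning with 1). So all terms of the sum over `l` are
nonnegative; keep only the squarefree `l` (`l p ≤ 1`): inner sum `k^(deg l)`, `cf l = k^(deg l)`. This gives
`∏_i ∑_{A ⊆ B_i, |A| ≤ K_i} ∏_{p∈A} x_p`, `x_p = k²/p` (sets `A ⊆ Q` with `|A ∩ B_i| ≤ K_i`). And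
`∑_{A ⊆ B, |A| > K} ∏ x_p ≤ e^(-2K) ∏_p (1 + e² x_p) ≤ exp(-2K + 8k² V_i) ≤ e^(-K_i)` because
`V_i ≤ C0 e^(i/2)` (`S_Bk`, `ℓ ≤ e^(nI/2)`) and `K_i ≥ C1 e^(i/2)`, `C1 ≥ 8k² C0`; so the factor is at least
`∏_{p∈B_i} (1+x_p) - e^(-K_i) ≥ (1-e^(-K_i)) ∏ (1+x_p)` and `∏_i (1-e^(-K_i)) ≥ 1 - ∑ e^(-K_i) ≥ 1/2` for `C1 ≥ 8`.
Finally `∏_{p∈Q} (1+x_p) ≥ exp(k² ∑ 1/p - k⁴ ∑ 1/p²) ≥ c L^(k²)` (`log(1+x) ≥ x - x²`; `S_Bk` (e)).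
About 300 lines; split. -/
def S_Dg : Prop :=
  ∀ (k C0 C1 η : ℝ), 0 < k → MertC C0 → 8 ≤ C1 → 8 * k ^ 2 * C0 ≤ C1 → 0 < η → η ≤ 1 →
    ∃ c : ℝ, 0 < c ∧ ∀ᶠ T : ℝ in atTop, c * Real.log T ^ (k ^ 2) ≤
    ∑ l ∈ VK (nI T + 1) (Bl η T) (Kb C1),
      ∑ j ∈ (VK (nI T + 1) (Bl η T) (Kb C1)).filter
          (fun j => ∀ p ∈ (range (nI T + 1)).biUnion (Bl η T), j p ≤ l p),
        cf (nI T + 1) (Bl η T) (fun _ r => (k - 1) ^ r) j *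
          cf (nI T + 1) (Bl η T) (fun _ r => k ^ r) l * ((nQ (nI T + 1) (Bl η T) l : ℝ))⁻¹

/-- **The lower bound for the first factor.**

Uses `S_Bk`, `S_Sz2`, `S_Mfl`, `S_Dg`; `S1.pCf` ((d): second moment of `ζ`). Proof. `C0` any constant with `MertC C0`.
`S_Sz2` with `m = 1` (`1 * Kb`): `Y = T^(5ηC1)`, `Zf = Zg = T^(6ηC1)` (`|(k-1)^r|, k^r ≤ (k+1)^r r!`). `S_Mfl` and `S_Dg`:
`‖∫_T^{2T} ζ Np(k-1) conj Np(k)‖ ≥ c T L^(k²) - C T^(3/4 + 22ηC1) ≥ (c/2) T L^(k²)` as `22ηC1 ≤ 22/400 < 1/4`. The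
integral over `Icc T (2T) \ gs` is at most `T^(12ηC1) ∫ ‖ζ‖` (`‖Np‖ ≤ ∑ |cf| ≤ T^(6ηC1)` by `S_Exd`, `‖pw‖ ≤ 1`) and
`∫_{bad} ‖ζ‖ ≤ (vol bad)^(1/2) (∫ ‖ζ‖²)^(1/2) ≤ T^((1-δ)/2) (2 T L)^(1/2)`: in total
`T^(1 - δ/2 + 12ηC1) (2L)^(1/2) ≤ T^(1-δ/4)` since `12ηC1 ≤ δ/8`. About 200 lines. -/
def S_Low : Prop :=
  ∀ (k C0 C1 η : ℝ), 0 < k → MertC C0 → 8 ≤ C1 → 8 * k ^ 2 * C0 ≤ C1 → 0 < η → η ≤ 1 →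
    η * C1 ≤ 1 / 400 → ∀ (σ a : ℝ) (Kz : ℕ) (om δ : ℝ) (z : ℝ → ℕ) (gs : ℝ → Set ℝ),
    0 < δ → δ < 1 → 96 * η * C1 ≤ δ → IsGs σ a Kz om δ z gs →
    ∃ c : ℝ, 0 < c ∧ ∀ᶠ T : ℝ in atTop, c * T * Real.log T ^ (k ^ 2) ≤
      ∫ t in gs T, ‖riemannZeta (1 / 2 + t * I)‖ * ‖Np C1 η (k - 1) T t‖ * ‖Np C1 η k T t‖

/-- **Theorem L, `k > 1/2`.**

Uses `S_Mt`, `S_Gs`, `S_Upp`, `S_Low`. Proof. `q = 2k/(2k-1)`, `A1 = A2 = q` (`q(2k-1) = 2k`), `m = ⌈q⌉₊`. `C0` from `S_Mt`, `C1` the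
maximum of `8`, `8k²C0` and the `C10` of `S_Upp`; `Kz, om, δ, z, gs` from `S_Gs`; `η > 0` with
`η m C1 ≤ 1/400`, `96 η C1 ≤ δ`, `η ≤ 1`. Let `x = ‖ζ(1/2+it)‖`, `y = ‖ζ(σ+iat)‖` (`> 0` on `gs`),
`N = ‖Np(k-1)‖ ‖Np(k)‖`. Hölder on `gs T` with exponents `2k` and `q` (`1/(2k) + 1/q = 1`):
`c T L^(k²) ≤ ∫ x N = ∫ (x y^(-β)) (N y^β) ≤ (∫_gs (x y^(-β))^(2k))^(1/(2k)) (∫_gs N^q y^(βq))^(1/q)`, the second factor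
is at most `(C T L^(k²))^(1/q)` by `S_Upp` with `r = βq`. So `∫_gs (x y^(-β))^(2k) ≥ c^(2k) C^(-2k/q) T L^(k²)`
(`2k(1 - 1/q) = 1`). Everything is continuous and bounded on `gs` (`y ≥ 1/(2‖E‖)`, bounded below for fixed
`T`), so the Bochner integral is finite and its `ofReal` is the `lintegral` over `gs T`, at most the one
over `Icc T (2T)`. (`ENNReal` or real version of Hölder: `MeasureTheory.integral_mul_le_Lp_mul_Lq_of_nonneg`.)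
About 200 lines. -/
def S_LA : Prop :=
  ∀ k σ a β : ℝ, 1 / 2 < k → 1 / 2 < σ → σ ≤ 1 → 0 < a → ∃ c : ℝ, 0 < c ∧ ∀ᶠ T : ℝ in atTop,
    ENNReal.ofReal (c * T * Real.log T ^ (k ^ 2)) ≤ ∫⁻ t in Set.Icc T (2 * T), ENNReal.ofReal
      ((‖riemannZeta (1 / 2 + t * I)‖ / ‖riemannZeta (σ + a * t * I)‖ ^ β) ^ (2 * k))

end Pool.Agent.Lib.MP_aa9ae4_nt.L1
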