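import Mathlib
import Pool.Agent.Lib.MP_aa9ae4_nt.L1.SpecB

/-!
MP_aa9ae4_nt, Theorem L, part C: the mean of `|ζ(1/2+it)|^2 |A(1/2+it)|^2` for Dirichlet polynomials `A`
of length `T^ε` (Titchmarsh's method), which extends Theorem L to all real `k > 0`.
Rules as in SpecA. `av ρ = ρ + i`; for `x > 0`: `Ef ρ x = 1/(e^((ρ+i)x) - 1)`, `fa ρ x = Ef ρ x - 1/((ρ+i)x)`.
`0 < ρ ≤ 1/2` throughout (later `ρ = 1/T`), `λ = 1 + log(1/ρ)`.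
-/

namespace Pool.Agent.Lib.MP_aa9ae4_nt.L1

open Finset MeasureTheory Filter Topology
open Complex (I)
open Pool.Agent.Lib.MP_aa9ae4_nt.S1 (pw psumS eulS tail prs nn KK expJ HT fzS y1)

/-- `ρ + i` -/
noncomputable def av (ρ : ℝ) : ℂ := (ρ : ℂ) + I

/-- `1/(e^((ρ+i)x) - 1)` -/
noncomputable def Ef (ρ x : ℝ) : ℂ := (Complex.exp (av ρ * x) - 1)⁻¹

/-- `1/(e^((ρ+i)x) - 1) - 1/((ρ+i)x)` -/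
noncomputable def fa (ρ x : ℝ) : ℂ := Ef ρ x - (av ρ * x)⁻¹

/-- `∫_0^∞ f(hx) conj f(kx) dx` -/
noncomputable def Ihk (ρ : ℝ) (h k : ℕ) : ℂ :=
  ∫ x in Set.Ioi (0 : ℝ), fa ρ (h * x) * (starRingEnd ℂ) (fa ρ (k * x))

/-- **Mellin transform of `fa`.**

Proof. (1) `Re s > 1`: `Ef ρ x = ∑_{n≥1} exp(-n (ρ+i) x)` and
`∫_0^∞ x^(s-1) exp(-n av x) dx = (1/(n av))^s Γ(s)` (`Complex.integral_cpow_mul_exp_neg_mul_Ioi`, `Re av = ρ > 0`),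
`(n av)^(-s) = n^(-s) av^(-s)`; the sum of the integrals of the norms is
`∑ ∫ x^(Re s - 1) e^(-nρx) dx < ∞`. So `∫ x^(s-1) Ef ρ x dx = av^(-s) Γ(s) ζ(s)`. (2) For `Re s > 1` the left side is
`H(s) = ∫_0^1 x^(s-1) fa ρ x dx + 1/(av (s-1)) + ∫_1^∞ x^(s-1) Ef ρ x dx`. `fa` is bounded near 0 (`fa` is a continuous
function with a limit at `0+`), `‖Ef ρ x‖ ≤ C_ρ e^(-ρx)` for `x ≥ 1`, so `(s-1) H(s)` is holomorphic on `Re s > 0`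
(`mellin_differentiableAt_of_isBigO_rpow` for the functions cut at 1) and agrees there with
`(s-1) av^(-s) Γ(s) ζ(s)` (identity theorem on the half plane, which is preconnected; `(s-1)ζ(s)` is entire:
ZetaApprox.lean uses such a function). (3) For `0 < Re s < 1`: `1/(av (s-1)) = -∫_1^∞ x^(s-1)/(av x) dx`, so
`H(s) = ∫_0^∞ x^(s-1) fa ρ x dx`. Take `s = 1/2+it`. About 250 lines; split. -/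
def S_Mel : Prop :=
  ∀ ρ t : ℝ, 0 < ρ → MellinConvergent (fa ρ) (1 / 2 + t * I) ∧
    mellin (fa ρ) (1 / 2 + t * I) =
      av ρ ^ (-(1 / 2 + t * I : ℂ)) * Complex.Gamma (1 / 2 + t * I) * riemannZeta (1 / 2 + t * I)

/-- **Bounds for `1/(e^w - 1)` and `fa`.**

Proof. (a) `‖e^(u+iv) - 1‖² = (e^u-1)² + 4 e^u sin²(v/2) = 4e^u (sinh²(u/2) + sin²(v/2))`; `sinh(u/2) ≥ u/2 ≥ u/π`, and with
`d = |v - 2πn| ≤ π`: `|sin(v/2)| = sin(d/2) ≥ d/π` (`Real.mul_le_sin`); so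
`‖e^w-1‖ ≥ (2/π) e^(u/2) √(u²+d²) ≥ (√2/π) e^(u/2) (u+d)` and `π/√2 ≤ 3`. (b) `w = (ρ+i)x`, `0 < x ≤ π`, `‖w‖ ≤ √2 π ≤ 5`:
`fa = (w - (e^w-1))/(w (e^w-1))`, `‖e^w-1-w‖ ≤ ‖w‖² e^5`, `‖e^w-1‖ ≥ (ρx + x)/3 ≥ ‖w‖/3` by (a) with `n = 0`;
so `‖fa‖ ≤ 3e^5`. (c) clear (`‖av ρ‖ ≥ 1`). About 100 lines. -/
def S_Ebd : Prop :=
  (∀ (u v : ℝ) (n : ℤ), 0 < u → |v - 2 * Real.pi * n| ≤ Real.pi →
    ‖(Complex.exp ((u : ℂ) + (v : ℂ) * I) - 1)⁻¹‖ ≤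
      3 * Real.exp (-u / 2) / (u + |v - 2 * Real.pi * n|)) ∧
  (∀ ρ x : ℝ, 0 < ρ → ρ ≤ 1 → 0 < x → x ≤ Real.pi → ‖fa ρ x‖ ≤ 3 * Real.exp 5) ∧
  (∀ ρ x : ℝ, 0 < ρ → 0 < x → ‖fa ρ x‖ ≤ ‖Ef ρ x‖ + x⁻¹)

/-- **Plancherel.**

Uses `S_Mel`, `S_Ebd`. Proof. `Φ(x) = ∑_i c_i fa ρ (h_i x)`, `ρ = 1/T`. Substitution: the Mellin transform of
`fa ρ (h·)` at `s` is `h^(-s) F(s)`, `F(s) = mellin (fa ρ) s`, so `mellin Φ (1/2+it) = F(1/2+it) ∑ c_i h_i^(-1/2-it)`. With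
`mellin_eq_fourier` (MellinInversion.lean) and Plancherel for functions in `L1 ∩ L2`
(`plancherel` in Pool/Agent/Lib/MP_48d5b6_gt/Plancherel.lean) for `g(u) = e^(-u/2) Φ(e^(-u))`:
`∫_ℝ ‖mellin Φ (1/2+it)‖² dt = 2π ∫_0^∞ ‖Φ(x)‖² dx` (`g ∈ L1 ∩ L2` as `‖fa‖ ≤ 3e^5` near 0 and `‖fa ρ x‖ ≤ C_ρ/x` for
`x ≥ 1`; substitution `x = e^(-u)`). The right side is `2π ∑_i ∑_j c_i c_j Ihk ρ (h_i) (h_j)`. On the left, for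
`t ≥ 0`: `‖av^(-1/2-it)‖² = ‖av‖⁻¹ e^(2tφ)`, `φ = arg av = π/2 - arctan ρ`, `‖av‖ ≤ √2`;
`‖Γ(1/2+it)‖² = Γ(s)Γ(1-s) = π/cosh(πt) ≥ π e^(-πt)` (`Complex.Gamma_mul_Gamma_one_sub`, `sin(π/2+iπt) = cosh(πt)`,
`Complex.Gamma_conj`); so for `T ≤ t ≤ 2T`: `‖F‖² ≥ (π/√2) e^(-2t arctan ρ) ‖ζ‖² ≥ (π/√2) e^(-4) ‖ζ‖²`. Since
`2π √2 e^4/π ≤ 200` the claim follows. About 300 lines; split. -/
def S_Plm : Prop :=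
  ∀ T : ℝ, 2 ≤ T → ∀ (ι : Type) (s : Finset ι) (h : ι → ℕ) (c : ι → ℝ), (∀ i ∈ s, 1 ≤ h i) →
    ∫ t in T..(2 * T), ‖riemannZeta (1 / 2 + t * I)‖ ^ 2 *
        ‖∑ i ∈ s, (c i : ℂ) * pw (1 / 2) (h i) t‖ ^ 2 ≤
      200 * ∑ i ∈ s, ∑ j ∈ s, c i * c j * (Ihk (1 / T) (h i) (h j)).re

/-- **The part `0 < x ≤ π`.**

Uses `S_Ebd`. Proof. For `z > 0` let `n ≥ 0` be an integer with `|z-2πn| ≤ π`, `d = |z - 2πn|`. `n = 0`: `‖fa ρ z‖ ≤ 3e^5`;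
`n ≥ 1`: `‖fa ρ z‖ ≤ 3/(ρz+d) + 1`. So `‖fa ρ z‖ ≤ C (1 + 1/D(z))`, `D(z) = ρz+d` if `n ≥ 1` and `D(z) = 1` if `n = 0`. Let
`0 < x < π`, `z = hx`, `z' = kx` with `n, m`. If `n, m ≥ 1` then `nk ≠ mh`: else `h ∣ n` (coprime), `n ≥ h`, but
`n ≤ (hx+π)/(2π) < (h+1)/2`, so `h < 1`. Hence `|2πn/h - 2πm/k| ≥ 2π/(hk)`, `d/h + d'/k ≥ 2π/(hk)`, so
`d ≥ π/k` or `d' ≥ π/h`. In all cases `1/(D D') ≤ 1/D + 1/D' + k/D' + h/D`. And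
`∫_0^π dx/D(hx) = (1/h) ∫_0^{hπ} dz/D(z) ≤ (1/h) (π + (h+2) 2 ∫_0^π dy/(ρπ+y)) ≤ C λ`. Total
`C (1+h+k) λ`. About 200 lines. -/
def S_I0 : Prop :=
  ∃ C : ℝ, 0 < C ∧ ∀ (ρ : ℝ) (h k : ℕ), 0 < ρ → ρ ≤ 1 / 2 → 1 ≤ h → 1 ≤ k → Nat.Coprime h k →
    ∫ x in (0 : ℝ)..Real.pi, ‖fa ρ (h * x)‖ * ‖fa ρ (k * x)‖ ≤ C * (h + k) * (1 + Real.log (1 / ρ))

/-- **Cross terms.**

Uses `S_Ebd`. Proof. `f(hx) conj f(kx) - E(hx) conj E(kx) = -E(hx)/(conj(av) k x) - conj E(kx)/(av h x) + 1/(‖av‖² h k x²)`,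
`‖av‖ ≥ 1`. The last part has integral `≤ 1/π`. `∫_π^∞ ‖E(hx)‖ dx/x = ∫_{hπ}^∞ ‖E(z)‖ dz/z ≤ ∫_π^∞`, and on
`[2πn-π, 2πn+π]`, `n ≥ 1`, `z ≥ πn`: `‖E(z)‖ ≤ 3 e^(-ρz/2)/(ρz + |z-2πn|)`, so the integral is at most
`∑_{n≥1} (1/(πn)) e^(-πρn/2) 6 ∫_0^π dy/(πρ+y) ≤ C λ ∑ e^(-πρn/2)/n ≤ C λ²` (`-log(1-e^(-x))`). The integrand is
continuous, integrability from the bounds. About 150 lines. -/
def S_I1 : Prop :=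
  ∃ C : ℝ, 0 < C ∧ ∀ (ρ : ℝ) (h k : ℕ), 0 < ρ → ρ ≤ 1 / 2 → 1 ≤ h → 1 ≤ k →
    ∫ x in Set.Ioi Real.pi, ‖fa ρ (h * x) * (starRingEnd ℂ) (fa ρ (k * x)) -
      Ef ρ (h * x) * (starRingEnd ℂ) (Ef ρ (k * x))‖ ≤ C * (1 + Real.log (1 / ρ)) ^ 2

/-- **Mean over a period.**

Proof. `1/(e^w-1) = ∑_{m≥1} e^(-mw)` for `Re w > 0`, both series converge absolutely and uniformly in `y`; the product is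
`∑_{m,n≥1} e^(-(mh+nk)u) e^(-i(mh-nk)y)`, and `∫_{-π}^π e^(-iry) dy` is `2π` for `r = 0` and 0 for integers `r ≠ 0`.
`mh = nk` with `h, k` coprime: `m = kl`, `n = hl`, `l ≥ 1`; `2π ∑_l e^(-2hklu) = 2π/(e^(2hku)-1)`. About 120 lines. -/
def S_Pmn : Prop :=
  ∀ (u : ℝ) (h k : ℕ), 0 < u → 1 ≤ h → 1 ≤ k → Nat.Coprime h k →
    ∫ y in (-Real.pi)..Real.pi, (Complex.exp ((h : ℂ) * ((u : ℂ) + y * I)) - 1)⁻¹ *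
        (Complex.exp ((k : ℂ) * ((u : ℂ) - y * I)) - 1)⁻¹ =
      ((2 * Real.pi / (Real.exp (2 * h * k * u) - 1) : ℝ) : ℂ)

/-- **Sum over the periods.**

Uses `S_Ebd`, `S_Pmn`. Proof. `P(u,y) = 1/((e^(h(u+iy))-1)(e^(k(u-iy))-1))`. For `x = 2πl+y`, `l ≥ 1`, `|y| ≤ π`, the integrand
is `P(ρx, y)`, and by `S_Pmn` the claim is `∑_l ∫ |P(u_l+ρy, y) - P(u_l,y)| dy ≤ C (h+k)³ λ`, `u_l = 2πlρ`. With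
`d = dist(hy, 2πℤ)`, `d' = dist(ky, 2πℤ)`, `D = hu+d`, `D' = ku+d'`: `‖P‖ ≤ 9 e^(-(h+k)u/2)/(D D')` and
`‖∂_u P‖ ≤ ‖P‖ (h(1+3/D) + k(1+3/D'))` (`e^w/(e^w-1) = 1 + 1/(e^w-1)`), where `u ∈ [u_l/2, 2u_l]`. The difference is at
most `ρ|y| sup_u ‖∂_u P‖`. (i) `|y| ≤ π/max(h,k)`: `d = h|y|`, `d' = k|y|`, `D = h(u+|y|)`, `D' = k(u+|y|)`:
`‖∂_uP‖ ≤ 9 e^(-u)/(hk(u+|y|)²) (h+k+6/(u+|y|))`; times `ρ|y|`, integrated: `≤ Cρ e^(-u_l/2) ((h+k)(1+log(1+1/u_l)) + 1/u_l)`.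
(ii) `π/max(h,k) < |y| < π`: with the nearest integers `n, m` (`|hy-2πn| = d`, `|ky-2πm| = d'`), `(n,m) ≠ (0,0)` and
`nk ≠ mh` (coprime; `|n| < h` or `h = 1, n = 0`), so `d ≥ π/k` or `d' ≥ π/h`; if `d' ≥ π/h`:
`‖∂_uP‖ ≤ C e^(-u) h (1/D)(h+k+3h/D+3kh/π) ≤ C (h+k)³ e^(-u) (1/D + 1/D²)` and `∫_{-π}^π dy/D² ≤ C/(hu)`,
`∫ dy/D ≤ C (1+log(1+1/u))` (`h` periods of length `2π/h`). In total for each `l`: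
`C (h+k)³ ρ e^(-u_l/2) (1 + log(1+1/u_l) + 1/u_l)`, and the sum over `l ≥ 1` (`u_l = 2πlρ`) is at most
`C (h+k)³ λ` (`ρ ∑ e^(-πlρ)/(lρ) ≤ C λ`; `ρ ∑ e^(-u_l/2) ≤ C`, `ρ∑ e^(-u_l/2) log(1+1/u_l) ≤ C` by
`log(1+1/u) ≤ 2 u^(-1/2)`). About 350 lines; split into the derivative bound, (i), (ii) and the sum. -/
def S_Per : Prop :=
  ∃ C : ℝ, 0 < C ∧ ∀ (ρ : ℝ) (h k : ℕ), 0 < ρ → ρ ≤ 1 / 2 → 1 ≤ h → 1 ≤ k → Nat.Coprime h k →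
    ‖(∫ x in Set.Ioi Real.pi, Ef ρ (h * x) * (starRingEnd ℂ) (Ef ρ (k * x))) -
      ((∑' l : ℕ, 2 * Real.pi / (Real.exp (4 * Real.pi * h * k * (l + 1) * ρ) - 1) : ℝ) : ℂ)‖ ≤
      C * (h + k) ^ 3 * (1 + Real.log (1 / ρ))

/-- **Lambert series.**

Proof. `φ(x) = 1/(e^x-1) - (1/x) 1_{x≤1}` on `(0,∞)`: on `(0,1]` it is `1/(e^x-1) - 1/x`, monotone and bounded by 1, on
`(1,∞)` decreasing and integrable. So `|∑_l φ(lτ) - (1/τ) ∫_0^∞ φ| ≤ C` (compare on the intervals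
`[(l-1)τ, lτ]`, finite total variation). And `∑_{l≤1/τ} 1/(lτ) = (1/τ)(log(1/τ) + γ + O(τ))`
(harmonic numbers: `Real.eulerMascheroniConstant`, or `|H_n - log n - γ| ≤ 1/n`; existence of the constant is enough).
`c0 = γ + ∫φ`. About 150 lines. -/
def S_Lam : Prop :=
  ∃ c0 C : ℝ, 0 < C ∧ ∀ τ : ℝ, 0 < τ → τ ≤ 1 →
    |∑' l : ℕ, 1 / (Real.exp ((l + 1) * τ) - 1) - (Real.log (1 / τ) + c0) / τ| ≤ C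

/-- **Asymptotic formula for `Ihk`.**

Uses `S_Ebd`, `S_I0`, `S_I1`, `S_Per`, `S_Lam`. Proof. `Ihk = ∫_0^π + ∫_π^∞`; first part `S_I0`; second part `S_I1` and `S_Per`;
`∑_l 2π/(e^(lτ)-1) = (2π/τ)(log(1/τ)+c0) + O(1)` with `τ = 4πhkρ ≤ 1`, `2π/τ = 1/(2hkρ)`,
`log(1/τ) = log(1/(hkρ)) - log(4π)`; `c1 = c0 - log(4π)`. Integrability on `(0,∞)` from the bounds
(`‖fa ρ x‖ ≤ C_ρ/x` for large `x`, bounded near 0). About 120 lines. -/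
def S_Ihk : Prop :=
  ∃ c1 C : ℝ, 0 < C ∧ ∀ (ρ : ℝ) (h k : ℕ), 0 < ρ → ρ ≤ 1 / 2 → 1 ≤ h → 1 ≤ k → Nat.Coprime h k →
    4 * Real.pi * h * k * ρ ≤ 1 →
    ‖Ihk ρ h k - (((Real.log (1 / (h * k * ρ)) + c1) / (2 * h * k * ρ) : ℝ) : ℂ)‖ ≤
      C * (h + k) ^ 3 * (1 + Real.log (1 / ρ)) ^ 2

/-- **The twisted second moment (upper bound).**

Uses `S_Plm`, `S_Ihk`. Proof. `g = gcd(h,k)`, `h = g h'`, `k = g k'`: substitution `y = gx`: `Ihk ρ h k = g⁻¹ Ihk ρ h' k'`. With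
`ρ = 1/T`, `S_Ihk`: `Re Ihk = (T g/(2hk)) (log T - log(hk/g²) + c1) + O((2Y)³ (1+log T)²)`. Insert in `S_Plm`
(`200/2 = 100`). About 100 lines. -/
def S_Tsm : Prop :=
  ∃ c1 C : ℝ, 0 < C ∧ ∀ (T Y : ℝ) (ι : Type) (s : Finset ι) (h : ι → ℕ) (c : ι → ℝ), 2 ≤ T → 1 ≤ Y →
    4 * Real.pi * Y ^ 2 ≤ T → (∀ i ∈ s, 1 ≤ h i ∧ (h i : ℝ) ≤ Y) →
    ∫ t in T..(2 * T), ‖riemannZeta (1 / 2 + t * I)‖ ^ 2 *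
        ‖∑ i ∈ s, (c i : ℂ) * pw (1 / 2) (h i) t‖ ^ 2 ≤
      100 * T * (∑ i ∈ s, ∑ j ∈ s, c i * c j * ((Nat.gcd (h i) (h j) : ℝ) / (h i * h j)) *
        (Real.log T - Real.log (h i * h j / (Nat.gcd (h i) (h j) : ℝ) ^ 2) + c1)) +
      C * Y ^ 3 * (1 + Real.log T) ^ 2 * (∑ i ∈ s, |c i|) ^ 2

/-- **Factorisation of double sums over blocks.**

Proof. As the induction in `S_Exd` (bijection `VK n × KK (B n) (R n) ≃ VK (n+1)`, `(k',k'') ↦ k'+k''`), applied to both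
variables: `G i` depends only on the restrictions of `u`, `v` to `B i`. About 150 lines. -/
def S_Fac : Prop :=
  ∀ (n : ℕ) (B : ℕ → Finset ℕ) (R : ℕ → ℕ) (G : ℕ → (ℕ → ℕ) → (ℕ → ℕ) → ℝ),
    (∀ i ∈ range n, ∀ j ∈ range n, i ≠ j → Disjoint (B i) (B j)) →
    (∀ i ∈ range n, ∀ u v u' v' : ℕ → ℕ, (∀ p ∈ B i, u p = u' p) → (∀ p ∈ B i, v p = v' p) →
      G i u v = G i u' v') →
    ∑ u ∈ VK n B R, ∑ v ∈ VK n B R, ∏ i ∈ range n, G i u v =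
      ∏ i ∈ range n, ∑ u ∈ KK (B i) (R i), ∑ v ∈ KK (B i) (R i), G i u v

/-- the local quadratic form `∏_{p∈B} α^(u+v)/(u! v!) p^(-max(u,v))` -/
noncomputable def lq (α : ℝ) (B : Finset ℕ) (u v : ℕ → ℕ) : ℝ :=
  ∏ p ∈ B, α ^ (u p + v p) / (((u p).factorial : ℝ) * ((v p).factorial : ℝ)) *
    ((p : ℝ) ^ (max (u p) (v p)))⁻¹

/-- `∑_{p∈B} |u_p - v_p| log p` -/
noncomputable def ll (B : Finset ℕ) (u v : ℕ → ℕ) : ℝ :=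
  ∑ p ∈ B, |(u p : ℝ) - (v p : ℝ)| * Real.log p

/-- **One block of the quadratic form.** `α > -1`, `ν = 2α+α²`.

Proof. `K ≥ 1`. Let `box` be the functions supported on `B` with values `≤ K` (`Finset` of functions as in `KK`, or
`B.pi`/`Fintype.piFinset`); `KK B K ⊆ box`. Over `box × box` the sums factor: `∑ lq = ∏_p b_p`,
`b_p = ∑_{a,b≤K} x_a x_b p^(-max(a,b))`, `x_a = α^a/a!`, and `∑ lq ll = ∑_p b'_p ∏_{q≠p} b_q`,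
`b'_p = ∑ x_a x_b |a-b| log p p^(-max)`. Here `b_p = 1 + ν/p + (terms with max ≥ 2)`, these are in absolute value at most
`p^(-2) e^(2|α|)`, so `b_p ≤ exp(ν/p + e^(2|α|)/p²)`; `b_p ≥ 1/2`, as `p^(-m) = ∑_{j≥m} (p^(-j) - p^(-j-1))` gives
`b_p = ∑_{j≥0} (p^(-j)-p^(-j-1)) (∑_{a≤min(j,K)} x_a)² ≥ 1 - 1/p`; `|b'_p| ≤ (log p/p) 2|α| e^(2|α|)`. Hence
`0 < ∏ b_p ≤ exp(νV + e^(2|α|) V₂)` and `|∑_p b'_p ∏_{q≠p} b_q| ≤ 4|α|e^(2|α|) (∑ log p/p) ∏ b_q`. The pairs of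
`box × box` not in `KK × KK` have `deg u + deg v > K`; their contribution is at most
`e^(-2K) ∑_{box×box} ∏ (e²|α|)^(u+v)/(u!v!) p^(-max) ≤ e^(-2K) ∏ (1 + e^(2e²|α|)/p) ≤ e^(-2K) exp(C V)`; with the factor
`ll ≤ (deg u + deg v) log X ≤ e^(deg u + deg v) log X` the same with `e³`. About 300 lines; split. -/
def S_Qfb : Prop :=
  ∀ α : ℝ, -1 < α → ∃ C : ℝ, 1 ≤ C ∧ ∀ (B : Finset ℕ) (K : ℕ) (X : ℝ), (∀ p ∈ B, p.Prime) → 1 ≤ K →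
    1 ≤ X → (∀ p ∈ B, (p : ℝ) ≤ X) →
    |∑ u ∈ KK B K, ∑ v ∈ KK B K, lq α B u v| ≤
      Real.exp ((2 * α + α ^ 2) * ∑ p ∈ B, (p : ℝ)⁻¹ + C * ∑ p ∈ B, ((p : ℝ) ^ 2)⁻¹) +
        Real.exp (-(2 * K : ℝ) + C * ∑ p ∈ B, (p : ℝ)⁻¹) ∧
    |∑ u ∈ KK B K, ∑ v ∈ KK B K, lq α B u v * ll B u v| ≤
      C * (∑ p ∈ B, Real.log p / p) *
        Real.exp ((2 * α + α ^ 2) * ∑ p ∈ B, (p : ℝ)⁻¹ + C * ∑ p ∈ B, ((p : ℝ) ^ 2)⁻¹) +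
        Real.log X * Real.exp (-(2 * K : ℝ) + C * ∑ p ∈ B, (p : ℝ)⁻¹)

/-- **The quadratic forms.**

Uses `S_Bk`, `S_Fac`, `S_Qfb`, `S_Mt`; `mertensA_le` (Mertens.lean), `S1.pSz`, `S1.pNn`. Proof. `α = k-1`, `ν = k²-1 ≥ -1`. For `u, v ∈ VK`:
`gcd(nQ u, nQ v) = nQ(min(u,v))`, so `gcd/(nQ u nQ v) = ∏_{p∈Q} p^(-max(u p,v p))` and
`log(nQ u nQ v/gcd²) = ll Q u v = ∑_i ll (B i) u v`, `cf u cf v gcd/(nQ u nQ v) = ∏_i lq α (B i) u v`. By `S_Fac`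
`BQ = ∏_i β_i` and `BQL = ∑_i β'_i ∏_{j≠i} β_j` with the block sums of `S_Qfb` (`K = Kb C1 i`, `X = x_i`). As `V_i ≤ C0 e^(i/2)` and
`K_i ≥ C1 e^(i/2)`, `C1 ≥ 2C C0 + 4C0`: `exp(-2K_i + C V_i) ≤ exp(-K_i) ≤ exp(-K_i/2) exp(νV_i)`. So
`|β_i| ≤ exp(νV_i + C V₂ᵢ)(1+exp(-K_i/2))` (`V₂ᵢ = ∑_{B_i} p^(-2)`), product over `i` (or over `j ≠ i`): at most `C' exp(ν ∑ V)`
(`∑ V₂ᵢ ≤ 2`, `∑ exp(-K_i/2) ≤ 1`), and `|β'_i| ≤ C' (log x_i + 1) exp(νV_i)` (`∑_{p≤x} log p/p ≤ log x + log 4`;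
`log x_i ≤ η L e^(-i)`). By `S_Bk` (e) `exp(ν ∑ V_i) ≤ C'' L^ν`, `∑_i (ηLe^(-i) + 1) ≤ 2L + nI + 1 ≤ 3L`. About 300 lines. -/
def S_Qff : Prop :=
  ∀ (k C0 : ℝ), 0 < k → MertC C0 → ∃ C10 : ℝ, ∀ C1 η : ℝ, C10 ≤ C1 → 0 < η → η ≤ 1 →
    ∃ C : ℝ, 0 < C ∧ ∀ᶠ T : ℝ in atTop,
    |∑ u ∈ VK (nI T + 1) (Bl η T) (Kb C1), ∑ v ∈ VK (nI T + 1) (Bl η T) (Kb C1),
      cf (nI T + 1) (Bl η T) (fun _ r => (k - 1) ^ r) u *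
        cf (nI T + 1) (Bl η T) (fun _ r => (k - 1) ^ r) v *
        ((Nat.gcd (nQ (nI T + 1) (Bl η T) u) (nQ (nI T + 1) (Bl η T) v) : ℝ) /
          (nQ (nI T + 1) (Bl η T) u * nQ (nI T + 1) (Bl η T) v))| ≤
      C * Real.log T ^ (k ^ 2 - 1) ∧
    |∑ u ∈ VK (nI T + 1) (Bl η T) (Kb C1), ∑ v ∈ VK (nI T + 1) (Bl η T) (Kb C1),
      cf (nI T + 1) (Bl η T) (fun _ r => (k - 1) ^ r) u *
        cf (nI T + 1) (Bl η T) (fun _ r => (k - 1) ^ r) v *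
        ((Nat.gcd (nQ (nI T + 1) (Bl η T) u) (nQ (nI T + 1) (Bl η T) v) : ℝ) /
          (nQ (nI T + 1) (Bl η T) u * nQ (nI T + 1) (Bl η T) v)) *
        Real.log (nQ (nI T + 1) (Bl η T) u * nQ (nI T + 1) (Bl η T) v /
          (Nat.gcd (nQ (nI T + 1) (Bl η T) u) (nQ (nI T + 1) (Bl η T) v) : ℝ) ^ 2)| ≤
      C * Real.log T ^ (k ^ 2)

/-- **Second moment of `ζ Np(k-1)`.**

Uses `S_Bk`, `S_Sz2`, `S_Exd`, `S_Tsm`, `S_Qff`; `S1.pNn`. Proof. By `S_Exd` and `S1.pNn` (f)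
`Np C1 η (k-1) T t = ∑_{u∈VK} cf u pw (1/2) (nQ u) t`. `S_Tsm` with `ι = ℕ → ℕ`, `s = VK`, `Y = T^(5ηC1) ≤ T^(1/80)`, `∑|cf u| ≤ T^(6ηC1)`
(`S_Sz2` with `m = 1`): `100 T ((L + c1) BQ - BQL) + C T^(27ηC1) (1+L)² ≤ C' T L^(k²)`. About 100 lines. -/
def S_Tz : Prop :=
  ∀ (k C0 : ℝ), 0 < k → MertC C0 → ∃ C10 : ℝ, ∀ C1 η : ℝ, C10 ≤ C1 → 0 < η → η ≤ 1 →
    η * C1 ≤ 1 / 400 → ∃ C : ℝ, 0 < C ∧ ∀ᶠ T : ℝ in atTop,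
    ∫ t in T..(2 * T), ‖riemannZeta (1 / 2 + t * I)‖ ^ 2 * ‖Np C1 η (k - 1) T t‖ ^ 2 ≤
      C * (T * Real.log T ^ (k ^ 2))

/-- **Theorem L, `0 < k < 1`.**

Uses `S_Mt`, `S_Gs`, `S_Upp`, `S_Low`, `S_Tz`. Proof. As `pLA` (file L1/PLA.lean), with `A1 = 2`, `A2 = 2/k` (`2(k-1) + 2 = 2k`),
`m = ⌈1+1/k⌉₊`, `r = 2β`, and Hölder with three factors on `gs T`: with `x = ‖ζ(1/2+it)‖`, `y = ‖ζ(σ+iat)‖ > 0`,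
`N₁ = ‖Np(k-1)‖`, `N₂ = ‖Np k‖`: `x N₁ N₂ = (x/y^β)^k (x N₁)^(1-k) (N₁^k N₂ y^(βk))`, exponents `2, 2/(1-k), 2/k`:
`c T L^(k²) ≤ (∫_gs (x/y^β)^(2k))^(1/2) (∫_gs x² N₁²)^((1-k)/2) (∫_gs N₁² N₂^(2/k) y^(2β))^(k/2)`; the second factor by `S_Tz`,
the third by `S_Upp` (both `≤ C T L^(k²)`). So the first integral is at least `c² C^(-1) T L^(k²)`. (Three factor
Hölder: `ENNReal.lintegral_prod_norm_pow_le`, or twice the two factor one.) About 250 lines. -/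
def S_LB : Prop :=
  ∀ k σ a β : ℝ, 0 < k → k < 1 → 1 / 2 < σ → σ ≤ 1 → 0 < a → ∃ c : ℝ, 0 < c ∧ ∀ᶠ T : ℝ in atTop,
    ENNReal.ofReal (c * T * Real.log T ^ (k ^ 2)) ≤ ∫⁻ t in Set.Icc T (2 * T), ENNReal.ofReal
      ((‖riemannZeta (1 / 2 + t * I)‖ / ‖riemannZeta (σ + a * t * I)‖ ^ β) ^ (2 * k))

end Pool.Agent.Lib.MP_aa9ae4_nt.L1
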