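import Mathlib
import Pool.Agent.Lib.MP_aa9ae4_nt.L1.SpecC

/-!
MP_aa9ae4_nt, Theorem L: proof of `S_Ebd`, bounds for `1/(e^w - 1)` and `fa`.
-/

namespace Pool.Agent.Lib.MP_aa9ae4_nt.L1

open Finset MeasureTheory Filter Topology
open Complex (I)

private lemma ebd_normSq (u v : ℝ) :
    ‖Complex.exp ((u : ℂ) + (v : ℂ) * I) - 1‖ ^ 2 =
      (Real.exp u - 1) ^ 2 + 2 * Real.exp u * (1 - Real.cos v) := by
  rw [← Complex.normSq_eq_norm_sq, Complex.normSq_apply]
  have h1 : (Complex.exp ((u : ℂ) + (v : ℂ) * I) - 1).re = Real.exp u * Real.cos v - 1 := by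
    rw [Complex.sub_re, Complex.exp_re]
    simp
  have h2 : (Complex.exp ((u : ℂ) + (v : ℂ) * I) - 1).im = Real.exp u * Real.sin v := by
    rw [Complex.sub_im, Complex.exp_im]
    simp
  rw [h1, h2]
  have h3 := Real.sin_sq_add_cos_sq v
  linear_combination (Real.exp u) ^ 2 * h3

private lemma ebd_exp (u : ℝ) (hu : 0 < u) :
    Real.exp u * u ^ 2 ≤ (Real.exp u - 1) ^ 2 := by
  have h1 : u / 2 ≤ Real.sinh (u / 2) := Real.self_le_sinh_iff.2 (by linarith)
  rw [Real.sinh_eq] at h1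
  have h2 : Real.exp u = Real.exp (u / 2) * Real.exp (u / 2) := by
    rw [← Real.exp_add]
    congr 1
    ring
  have h3 : Real.exp (u / 2) * Real.exp (-(u / 2)) = 1 := by
    rw [← Real.exp_add]
    simp
  have h4 : 0 < Real.exp (u / 2) := Real.exp_pos _
  have h5 : Real.exp (u / 2) * u ≤ Real.exp u - 1 := by
    have h6 : u ≤ Real.exp (u / 2) - Real.exp (-(u / 2)) := by linarith
    calc Real.exp (u / 2) * u ≤ Real.exp (u / 2) * (Real.exp (u / 2) - Real.exp (-(u / 2))) :=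
          mul_le_mul_of_nonneg_left h6 h4.le
      _ = Real.exp u - 1 := by rw [mul_sub, h3, ← h2]
  calc Real.exp u * u ^ 2 = (Real.exp (u / 2) * u) ^ 2 := by rw [h2]; ring
    _ ≤ (Real.exp u - 1) ^ 2 := pow_le_pow_left₀ (by positivity) h5 2

private lemma ebd_low (u v : ℝ) (n : ℤ) (hu : 0 < u) (hv : |v - 2 * Real.pi * n| ≤ Real.pi) :
    Real.exp (u / 2) * (u + |v - 2 * Real.pi * n|) ≤
      3 * ‖Complex.exp ((u : ℂ) + (v : ℂ) * I) - 1‖ := by
  set w : ℝ := v - 2 * Real.pi * n with hw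
  have hcos : Real.cos v = Real.cos w := by
    rw [hw, show (2 * Real.pi * n : ℝ) = (n : ℝ) * (2 * Real.pi) by ring,
      Real.cos_sub_int_mul_two_pi]
  have h1 := Real.cos_le_one_sub_mul_cos_sq hv
  have h2 := ebd_exp u hu
  have h3 := ebd_normSq u v
  rw [hcos] at h3
  have hE : 0 < Real.exp u := Real.exp_pos u
  have hpi : Real.pi ^ 2 ≤ 16 := by
    have h4 := Real.pi_le_four
    have h5 := Real.pi_pos
    nlinarith
  have hpi0 : 0 < Real.pi ^ 2 := by positivity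
  have h6 : 1 / 8 * w ^ 2 ≤ 2 / Real.pi ^ 2 * w ^ 2 := by
    apply mul_le_mul_of_nonneg_right _ (sq_nonneg w)
    rw [div_le_div_iff₀ (by norm_num) hpi0]
    linarith
  have h7 : Real.exp u * (u ^ 2 + w ^ 2 / 4) ≤ ‖Complex.exp ((u : ℂ) + (v : ℂ) * I) - 1‖ ^ 2 := by
    rw [h3]
    have h8 : Real.exp u * (w ^ 2 / 8) ≤ Real.exp u * (1 - Real.cos w) :=
      mul_le_mul_of_nonneg_left (by linarith) hE.le
    nlinarith
  have h9 : Real.exp u = Real.exp (u / 2) ^ 2 := by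
    rw [← Real.exp_nat_mul]
    congr 1
    push_cast
    ring
  have h10 : (Real.exp (u / 2) * (u + |w|)) ^ 2 ≤
      (3 * ‖Complex.exp ((u : ℂ) + (v : ℂ) * I) - 1‖) ^ 2 := by
    rw [mul_pow, mul_pow, ← h9]
    have h11 : (u + |w|) ^ 2 ≤ 9 * (u ^ 2 + w ^ 2 / 4) := by
      rw [← sq_abs w]
      nlinarith [sq_nonneg (u - |w|), sq_nonneg u, sq_nonneg |w|]
    calc Real.exp u * (u + |w|) ^ 2 ≤ Real.exp u * (9 * (u ^ 2 + w ^ 2 / 4)) :=
          mul_le_mul_of_nonneg_left h11 hE.le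
      _ = 9 * (Real.exp u * (u ^ 2 + w ^ 2 / 4)) := by ring
      _ ≤ 9 * ‖Complex.exp ((u : ℂ) + (v : ℂ) * I) - 1‖ ^ 2 := by linarith
      _ = 3 ^ 2 * ‖Complex.exp ((u : ℂ) + (v : ℂ) * I) - 1‖ ^ 2 := by norm_num
  exact le_of_sq_le_sq h10 (by positivity)

private lemma ebd_a (u v : ℝ) (n : ℤ) (hu : 0 < u) (hv : |v - 2 * Real.pi * n| ≤ Real.pi) :
    ‖(Complex.exp ((u : ℂ) + (v : ℂ) * I) - 1)⁻¹‖ ≤
      3 * Real.exp (-u / 2) / (u + |v - 2 * Real.pi * n|) := by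
  have h1 := ebd_low u v n hu hv
  have h2 : 0 < u + |v - 2 * Real.pi * n| := by positivity
  have h3 : 0 < Real.exp (u / 2) := Real.exp_pos _
  have h4 : 0 < ‖Complex.exp ((u : ℂ) + (v : ℂ) * I) - 1‖ := by
    have : 0 < Real.exp (u / 2) * (u + |v - 2 * Real.pi * n|) := by positivity
    linarith
  have h5 : Real.exp (-u / 2) * Real.exp (u / 2) = 1 := by
    rw [← Real.exp_add]
    have : -u / 2 + u / 2 = 0 := by ring
    rw [this, Real.exp_zero]
  rw [norm_inv, inv_eq_one_div, div_le_div_iff₀ h4 h2, one_mul]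
  calc u + |v - 2 * Real.pi * n| =
      Real.exp (-u / 2) * (Real.exp (u / 2) * (u + |v - 2 * Real.pi * n|)) := by
        rw [← mul_assoc, h5, one_mul]
    _ ≤ Real.exp (-u / 2) * (3 * ‖Complex.exp ((u : ℂ) + (v : ℂ) * I) - 1‖) :=
        mul_le_mul_of_nonneg_left h1 (Real.exp_pos _).le
    _ = 3 * Real.exp (-u / 2) * ‖Complex.exp ((u : ℂ) + (v : ℂ) * I) - 1‖ := by ring

private lemma ebd_av_one_le (ρ : ℝ) : 1 ≤ ‖av ρ‖ := by
  have h1 := Complex.abs_im_le_norm (av ρ)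
  have h2 : (av ρ).im = 1 := by simp [av]
  rw [h2, abs_one] at h1
  exact h1

/-- **Bounds for `1/(e^w - 1)` and `fa`.** -/
theorem pEbd : S_Ebd := by
  refine ⟨fun u v n hu hv => ebd_a u v n hu hv, ?_, ?_⟩
  · intro ρ x hρ hρ1 hx hxpi
    have hw : av ρ * (x : ℂ) = ((ρ * x : ℝ) : ℂ) + (x : ℂ) * I := by
      unfold av
      push_cast
      ring
    have hn : ‖av ρ‖ ^ 2 = ρ ^ 2 + 1 := by
      rw [← Complex.normSq_eq_norm_sq, Complex.normSq_apply]
      simp [av]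
      ring
    have hav1 := ebd_av_one_le ρ
    have hav : ‖av ρ‖ ≤ ρ + 1 := by
      refine le_of_sq_le_sq ?_ (by positivity)
      rw [hn]
      nlinarith
    have hwn : ‖av ρ * (x : ℂ)‖ = ‖av ρ‖ * x := by
      rw [norm_mul, Complex.norm_real, Real.norm_eq_abs, abs_of_pos hx]
    have hw0 : 0 < ‖av ρ * (x : ℂ)‖ := by
      rw [hwn]
      positivity
    have hw5 : ‖av ρ * (x : ℂ)‖ ≤ 5 := by
      rw [hwn]
      refine le_of_sq_le_sq ?_ (by norm_num)
      rw [mul_pow, hn]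
      have h1 : x ^ 2 ≤ 10 := by
        have h2 := Real.pi_lt_d2
        have h3 : x ≤ 3.15 := by linarith
        nlinarith
      have h2 : ρ ^ 2 + 1 ≤ 2 := by nlinarith
      nlinarith [sq_nonneg x, sq_nonneg ρ]
    have hE : ‖(Complex.exp (av ρ * (x : ℂ)) - 1)⁻¹‖ ≤ 3 / ‖av ρ * (x : ℂ)‖ := by
      have h1 := ebd_a (ρ * x) x 0 (by positivity) (by
        rw [Int.cast_zero, mul_zero, sub_zero, abs_of_pos hx]
        exact hxpi)
      rw [Int.cast_zero, mul_zero, sub_zero, abs_of_pos hx, ← hw] at h1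
      refine h1.trans ?_
      have h2 : Real.exp (-(ρ * x) / 2) ≤ 1 := by
        rw [Real.exp_le_one_iff]
        have : 0 < ρ * x := by positivity
        linarith
      have h3 : ‖av ρ * (x : ℂ)‖ ≤ ρ * x + x := by
        rw [hwn]
        nlinarith
      exact div_le_div₀ (by norm_num) (by linarith) hw0 h3
    have h0 : av ρ * (x : ℂ) ≠ 0 := norm_pos_iff.1 hw0
    have hE0 : Complex.exp (av ρ * (x : ℂ)) - 1 ≠ 0 := by
      intro h
      have h1 := ebd_low (ρ * x) x 0 (by positivity) (by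
        rw [Int.cast_zero, mul_zero, sub_zero, abs_of_pos hx]
        exact hxpi)
      rw [Int.cast_zero, mul_zero, sub_zero, abs_of_pos hx, ← hw, h, norm_zero, mul_zero] at h1
      have : 0 < Real.exp (ρ * x / 2) * (ρ * x + x) := by positivity
      linarith
    have hfa : fa ρ x = -((Complex.exp (av ρ * (x : ℂ)) - 1 - av ρ * (x : ℂ)) *
        (Complex.exp (av ρ * (x : ℂ)) - 1)⁻¹ * (av ρ * (x : ℂ))⁻¹) := by
      unfold fa Ef
      generalize av ρ * (x : ℂ) = w at h0 hE0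
      generalize Complex.exp w = e at hE0
      field_simp
      ring
    have hexp : ‖Complex.exp (av ρ * (x : ℂ)) - 1 - av ρ * (x : ℂ)‖ ≤
        ‖av ρ * (x : ℂ)‖ ^ 2 * Real.exp 5 := by
      have h1 := Complex.norm_exp_sub_sum_le_norm_mul_exp (av ρ * (x : ℂ)) 2
      have h2 : Complex.exp (av ρ * (x : ℂ)) - ∑ m ∈ range 2, (av ρ * (x : ℂ)) ^ m /
          (m.factorial : ℂ) = Complex.exp (av ρ * (x : ℂ)) - 1 - av ρ * (x : ℂ) := by
        simp [Finset.sum_range_succ]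
        ring
      rw [h2] at h1
      exact h1.trans (mul_le_mul_of_nonneg_left (Real.exp_le_exp.2 hw5) (by positivity))
    rw [hfa, norm_neg, norm_mul, norm_mul, norm_inv (av ρ * (x : ℂ))]
    calc ‖Complex.exp (av ρ * (x : ℂ)) - 1 - av ρ * (x : ℂ)‖ *
          ‖(Complex.exp (av ρ * (x : ℂ)) - 1)⁻¹‖ * ‖av ρ * (x : ℂ)‖⁻¹ ≤
        (‖av ρ * (x : ℂ)‖ ^ 2 * Real.exp 5) * (3 / ‖av ρ * (x : ℂ)‖) * ‖av ρ * (x : ℂ)‖⁻¹ :=
          mul_le_mul_of_nonneg_right (mul_le_mul hexp hE (norm_nonneg _) (by positivity))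
            (by positivity)
      _ = 3 * Real.exp 5 := by
          have := hw0.ne'
          field_simp
  · intro ρ x _ hx
    unfold fa
    refine (norm_sub_le _ _).trans (add_le_add_right ?_ _)
    rw [norm_inv, norm_mul, Complex.norm_real, Real.norm_eq_abs, abs_of_pos hx]
    have h1 := ebd_av_one_le ρ
    apply inv_anti₀ hx
    nlinarith

end Pool.Agent.Lib.MP_aa9ae4_nt.L1
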