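import Pool.Agent.Lib.MP_aa9ae4_nt.L1.SpecC

/-!
MP_aa9ae4_nt, Theorem L: factorisation of double sums over blocks (`S_Fac`).
-/

namespace Pool.Agent.Lib.MP_aa9ae4_nt.L1

open Finset MeasureTheory Filter Topology
open Complex (I)
open Pool.Agent.Lib.MP_aa9ae4_nt.S1 (pw psumS eulS tail prs nn KK expJ HT fzS y1)

private theorem fac_memKK {s : Finset ℕ} {J : ℕ} {k : ℕ → ℕ} :
    k ∈ KK s J ↔ ∑ p ∈ s, k p ≤ J ∧ ∀ p, k p ≠ 0 → p ∈ s := by
  classical
  unfold KK
  rw [Finset.mem_biUnion]
  constructor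
  · rintro ⟨j, hj, hk⟩
    rw [mem_piAntidiag] at hk
    rw [Finset.mem_range] at hj
    exact ⟨by rw [hk.1]; omega, hk.2⟩
  · rintro ⟨h1, h2⟩
    exact ⟨∑ p ∈ s, k p, Finset.mem_range.2 (by omega), mem_piAntidiag.2 ⟨rfl, h2⟩⟩

private theorem fac_memVK {n : ℕ} {B : ℕ → Finset ℕ} {R : ℕ → ℕ} {k : ℕ → ℕ}
    (hd : ∀ i ∈ range n, ∀ j ∈ range n, i ≠ j → Disjoint (B i) (B j)) :
    k ∈ VK n B R ↔ (∀ i ∈ range n, ∑ p ∈ B i, k p ≤ R i) ∧
      ∀ p, k p ≠ 0 → p ∈ (range n).biUnion B := by
  unfold VK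
  rw [Finset.mem_filter, fac_memKK]
  constructor
  · rintro ⟨⟨-, h2⟩, h3⟩
    exact ⟨h3, h2⟩
  · rintro ⟨h1, h2⟩
    refine ⟨⟨?_, h2⟩, h1⟩
    rw [Finset.sum_biUnion fun i hi j hj hij => hd i hi j hj hij]
    exact Finset.sum_le_sum h1

private theorem fac_union (n : ℕ) (B : ℕ → Finset ℕ) :
    (range (n + 1)).biUnion B = (range n).biUnion B ∪ B n := by
  rw [Finset.range_add_one, Finset.biUnion_insert, Finset.union_comm]

private theorem fac_zero (B : ℕ → Finset ℕ) (R : ℕ → ℕ) : VK 0 B R = {0} := by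
  ext k
  rw [fac_memVK (fun i hi => by simp at hi), Finset.mem_singleton]
  constructor
  · rintro ⟨-, h⟩
    funext p
    by_contra hp
    simpa using h p hp
  · rintro rfl
    simp

/-- the bijection `VK n × KK (B n) (R n) ≃ VK (n+1)` -/
private theorem fac_ri (B : ℕ → Finset ℕ) (R : ℕ → ℕ) (n : ℕ)
    (hd : ∀ i ∈ range (n + 1), ∀ j ∈ range (n + 1), i ≠ j → Disjoint (B i) (B j))
    (φ : (ℕ → ℕ) → ℝ) :
    ∑ k ∈ VK (n + 1) B R, φ k = ∑ k' ∈ VK n B R, ∑ k'' ∈ KK (B n) (R n), φ (k' + k'') := by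
  classical
  have hsub : ∀ i ∈ range n, i ∈ range (n + 1) := fun i hi =>
    Finset.mem_range.2 ((Finset.mem_range.1 hi).trans (Nat.lt_succ_self n))
  have hd' : ∀ i ∈ range n, ∀ j ∈ range n, i ≠ j → Disjoint (B i) (B j) :=
    fun i hi j hj => hd i (hsub i hi) j (hsub j hj)
  have hdn : ∀ i ∈ range n, Disjoint (B i) (B n) := fun i hi =>
    hd i (hsub i hi) n (Finset.mem_range.2 (Nat.lt_succ_self n)) (Finset.mem_range.1 hi).ne
  have hU : Disjoint ((range n).biUnion B) (B n) := by
    rw [Finset.disjoint_biUnion_left]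
    exact hdn
  rw [← Finset.sum_product']
  symm
  refine Finset.sum_nbij' (fun kk => kk.1 + kk.2)
    (fun k => (fun p => if p ∈ (range n).biUnion B then k p else 0,
      fun p => if p ∈ B n then k p else 0)) ?_ ?_ ?_ ?_ ?_
  · rintro ⟨k', k''⟩ hk
    rw [Finset.mem_product, fac_memVK hd', fac_memKK] at hk
    obtain ⟨⟨h1, h2⟩, h3, h4⟩ := hk
    rw [fac_memVK hd]
    constructor
    · intro i hi
      rcases (Nat.lt_succ_iff_lt_or_eq.1 (Finset.mem_range.1 hi)) with hin | rfl
      · have hin' := Finset.mem_range.2 hin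
        have : ∑ p ∈ B i, (k' + k'') p = ∑ p ∈ B i, k' p := by
          refine Finset.sum_congr rfl fun p hp => ?_
          have hp0 : k'' p = 0 := by
            by_contra hne
            exact Finset.disjoint_left.1 (hdn i hin') hp (h4 p hne)
          rw [Pi.add_apply, hp0, add_zero]
        rw [this]
        exact h1 i hin'
      · have : ∑ p ∈ B i, (k' + k'') p = ∑ p ∈ B i, k'' p := by
          refine Finset.sum_congr rfl fun p hp => ?_
          have hp0 : k' p = 0 := by
            by_contra hne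
            exact Finset.disjoint_left.1 hU (h2 p hne) hp
          rw [Pi.add_apply, hp0, zero_add]
        rw [this]
        exact h3
    · intro p hp
      rw [fac_union, Finset.mem_union]
      by_cases hk' : k' p = 0
      · right
        refine h4 p fun h0 => hp ?_
        show (k' + k'') p = 0
        rw [Pi.add_apply, hk', zero_add]
        exact h0
      · exact Or.inl (h2 p hk')
  · intro k hk
    rw [fac_memVK hd] at hk
    obtain ⟨h1, h2⟩ := hk
    rw [Finset.mem_product, fac_memVK hd', fac_memKK]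
    refine ⟨⟨fun i hi => ?_, fun p hp => ?_⟩, ?_, fun p hp => ?_⟩
    · refine le_trans (le_of_eq ?_) (h1 i (hsub i hi))
      refine Finset.sum_congr rfl fun p hp => ?_
      exact if_pos (Finset.mem_biUnion.2 ⟨i, hi, hp⟩)
    · by_contra hne
      exact hp (if_neg hne)
    · refine le_trans (le_of_eq ?_) (h1 n (Finset.mem_range.2 (Nat.lt_succ_self n)))
      exact Finset.sum_congr rfl fun p hp => if_pos hp
    · by_contra hne
      exact hp (if_neg hne)
  · rintro ⟨k', k''⟩ hk
    rw [Finset.mem_product, fac_memVK hd', fac_memKK] at hk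
    obtain ⟨⟨-, h2⟩, -, h4⟩ := hk
    refine Prod.ext (funext fun p => ?_) (funext fun p => ?_)
    · show (if p ∈ (range n).biUnion B then (k' + k'') p else 0) = k' p
      by_cases hp : p ∈ (range n).biUnion B
      · have hp0 : k'' p = 0 := by
          by_contra hne
          exact Finset.disjoint_left.1 hU hp (h4 p hne)
        rw [if_pos hp, Pi.add_apply, hp0, add_zero]
      · rw [if_neg hp]
        by_contra hne
        exact hp (h2 p (Ne.symm hne))
    · show (if p ∈ B n then (k' + k'') p else 0) = k'' p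
      by_cases hp : p ∈ B n
      · have hp0 : k' p = 0 := by
          by_contra hne
          exact Finset.disjoint_left.1 hU (h2 p hne) hp
        rw [if_pos hp, Pi.add_apply, hp0, zero_add]
      · rw [if_neg hp]
        by_contra hne
        exact hp (h4 p (Ne.symm hne))
  · intro k hk
    rw [fac_memVK hd] at hk
    obtain ⟨-, h2⟩ := hk
    funext p
    show (if p ∈ (range n).biUnion B then k p else 0) + (if p ∈ B n then k p else 0) = k p
    by_cases hp : p ∈ (range n).biUnion B
    · rw [if_pos hp, if_neg (Finset.disjoint_left.1 hU hp), add_zero]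
    · by_cases hp' : p ∈ B n
      · rw [if_neg hp, if_pos hp', zero_add]
      · rw [if_neg hp, if_neg hp', add_zero]
        by_contra hne
        have := h2 p (Ne.symm hne)
        rw [fac_union, Finset.mem_union] at this
        exact this.elim hp hp'
  · rintro ⟨k', k''⟩ hk
    rfl

/-- the values of `k' + k''` on the blocks -/
private theorem fac_loc (B : ℕ → Finset ℕ) (R : ℕ → ℕ) (n : ℕ)
    (hd : ∀ i ∈ range (n + 1), ∀ j ∈ range (n + 1), i ≠ j → Disjoint (B i) (B j))
    {k' k'' : ℕ → ℕ} (h' : k' ∈ VK n B R) (h'' : k'' ∈ KK (B n) (R n)) :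
    (∀ i ∈ range n, ∀ p ∈ B i, (k' + k'') p = k' p) ∧ ∀ p ∈ B n, (k' + k'') p = k'' p := by
  have hsub : ∀ i ∈ range n, i ∈ range (n + 1) := fun i hi =>
    Finset.mem_range.2 ((Finset.mem_range.1 hi).trans (Nat.lt_succ_self n))
  have hd' : ∀ i ∈ range n, ∀ j ∈ range n, i ≠ j → Disjoint (B i) (B j) :=
    fun i hi j hj => hd i (hsub i hi) j (hsub j hj)
  have hdn : ∀ i ∈ range n, Disjoint (B i) (B n) := fun i hi =>
    hd i (hsub i hi) n (Finset.mem_range.2 (Nat.lt_succ_self n)) (Finset.mem_range.1 hi).ne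
  have hU : Disjoint ((range n).biUnion B) (B n) := by
    rw [Finset.disjoint_biUnion_left]
    exact hdn
  rw [fac_memVK hd'] at h'
  rw [fac_memKK] at h''
  refine ⟨fun i hi p hp => ?_, fun p hp => ?_⟩
  · have hp0 : k'' p = 0 := by
      by_contra hne
      exact Finset.disjoint_left.1 (hdn i hi) hp (h''.2 p hne)
    rw [Pi.add_apply, hp0, add_zero]
  · have hp0 : k' p = 0 := by
      by_contra hne
      exact Finset.disjoint_left.1 hU (h'.2 p hne) hp
    rw [Pi.add_apply, hp0, zero_add]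

/-- Factorisation of double sums over blocks. -/
theorem pFac : S_Fac := by
  intro n B R G hd hG
  induction n with
  | zero => simp [fac_zero]
  | succ n ih =>
    have hsub : ∀ i ∈ range n, i ∈ range (n + 1) := fun i hi =>
      Finset.mem_range.2 ((Finset.mem_range.1 hi).trans (Nat.lt_succ_self n))
    have hd' : ∀ i ∈ range n, ∀ j ∈ range n, i ≠ j → Disjoint (B i) (B j) :=
      fun i hi j hj => hd i (hsub i hi) j (hsub j hj)
    have hnn : n ∈ range (n + 1) := Finset.mem_range.2 (Nat.lt_succ_self n)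
    have ih' := ih hd' (fun i hi => hG i (hsub i hi))
    rw [Finset.prod_range_succ, ← ih', fac_ri B R n hd]
    have e1 : ∀ u' ∈ VK n B R, ∀ u'' ∈ KK (B n) (R n),
        ∑ v ∈ VK (n + 1) B R, ∏ i ∈ range (n + 1), G i (u' + u'') v =
          (∑ v' ∈ VK n B R, ∏ i ∈ range n, G i u' v') *
            ∑ v'' ∈ KK (B n) (R n), G n u'' v'' := by
      intro u' hu' u'' hu''
      obtain ⟨hu1, hu2⟩ := fac_loc B R n hd hu' hu''
      rw [fac_ri B R n hd, Finset.sum_mul_sum]
      refine Finset.sum_congr rfl fun v' hv' => Finset.sum_congr rfl fun v'' hv'' => ?_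
      obtain ⟨hv1, hv2⟩ := fac_loc B R n hd hv' hv''
      rw [Finset.prod_range_succ, hG n hnn (u' + u'') (v' + v'') u'' v'' hu2 hv2]
      congr 1
      exact Finset.prod_congr rfl fun i hi =>
        hG i (hsub i hi) (u' + u'') (v' + v'') u' v' (hu1 i hi) (hv1 i hi)
    rw [Finset.sum_mul_sum]
    refine Finset.sum_congr rfl fun u' hu' => Finset.sum_congr rfl fun u'' hu'' => ?_
    exact e1 u' hu' u'' hu''

end Pool.Agent.Lib.MP_aa9ae4_nt.L1
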