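import Mathlib
import Pool.Agent.Lib.MP_aa9ae4_nt.L1.SpecC

/-!
MP_aa9ae4_nt, Theorem L, part C: the part `0 < x ≤ π` (`S_I0`).
-/

namespace Pool.Agent.Lib.MP_aa9ae4_nt.L1

open Finset MeasureTheory Filter Topology
open Complex (I)

/-- `1/(ρ + dist(z, 2πℤ))` -/
private noncomputable def izG (ρ z : ℝ) : ℝ :=
  (ρ + ‖((z : ℝ) : AddCircle (2 * Real.pi))‖)⁻¹

private theorem iz_near (z : ℝ) : ∃ n : ℤ,
    ‖((z : ℝ) : AddCircle (2 * Real.pi))‖ = |z - 2 * Real.pi * n| ∧
    |z - 2 * Real.pi * n| ≤ Real.pi := by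
  have hp : (2 * Real.pi) ≠ 0 := by positivity
  refine ⟨round ((2 * Real.pi)⁻¹ * z), ?_, ?_⟩
  · rw [AddCircle.norm_eq]
    congr 1
    ring
  · have h1 := AddCircle.norm_le_half_period (2 * Real.pi) (x := ((z : ℝ) : AddCircle (2 * Real.pi))) hp
    rw [AddCircle.norm_eq, abs_of_pos Real.two_pi_pos] at h1
    have h2 : z - 2 * Real.pi * (round ((2 * Real.pi)⁻¹ * z) : ℤ) =
        z - (round ((2 * Real.pi)⁻¹ * z) : ℤ) * (2 * Real.pi) := by ring
    rw [h2]
    linarith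

private theorem iz_G_pos (ρ z : ℝ) (hρ : 0 < ρ) : 0 < izG ρ z := by
  unfold izG
  positivity

private theorem iz_G_cont (ρ : ℝ) (hρ : 0 < ρ) : Continuous (izG ρ) := by
  unfold izG
  refine Continuous.inv₀ ?_ fun z => by positivity
  refine continuous_const.add (Continuous.norm ?_)
  exact AddCircle.continuous_mk' (2 * Real.pi)

private theorem iz_G_per (ρ : ℝ) : Function.Periodic (izG ρ) (2 * Real.pi) := by
  intro z
  unfold izG
  rw [AddCircle.coe_add_period]

/-- the integral over a half period -/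
private theorem iz_int_half (ρ : ℝ) (hρ : 0 < ρ) :
    ∫ y in (0 : ℝ)..Real.pi, izG ρ y = Real.log ((ρ + Real.pi) / ρ) := by
  have hpi := Real.pi_pos
  have h1 : ∫ y in (0 : ℝ)..Real.pi, izG ρ y = ∫ y in (0 : ℝ)..Real.pi, (ρ + y)⁻¹ := by
    refine intervalIntegral.integral_congr fun y hy => ?_
    rw [Set.uIcc_of_le hpi.le] at hy
    show (ρ + ‖((y : ℝ) : AddCircle (2 * Real.pi))‖)⁻¹ = (ρ + y)⁻¹
    have hp : (2 * Real.pi) ≠ 0 := by positivity
    rw [(AddCircle.norm_coe_eq_abs_iff (2 * Real.pi) hp).2 ?_, abs_of_nonneg hy.1]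
    rw [abs_of_nonneg hy.1, abs_of_pos Real.two_pi_pos]
    linarith [hy.2]
  rw [h1, intervalIntegral.integral_comp_add_left (fun x => x⁻¹), add_zero,
    integral_inv_of_pos hρ (by linarith)]

private theorem iz_int_neg (ρ : ℝ) :
    ∫ y in (-Real.pi)..(0 : ℝ), izG ρ y = ∫ y in (0 : ℝ)..Real.pi, izG ρ y := by
  have h1 : ∫ y in (0 : ℝ)..Real.pi, izG ρ (-y) = ∫ y in (-Real.pi)..(-(0 : ℝ)), izG ρ y :=
    intervalIntegral.integral_comp_neg (fun x => izG ρ x)
  rw [neg_zero] at h1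
  rw [← h1]
  refine intervalIntegral.integral_congr fun y _ => ?_
  show izG ρ (-y) = izG ρ y
  unfold izG
  rw [AddCircle.coe_neg, norm_neg]

private theorem iz_int_per (ρ : ℝ) (hρ : 0 < ρ) :
    ∫ y in (0 : ℝ)..(2 * Real.pi), izG ρ y = 2 * Real.log ((ρ + Real.pi) / ρ) := by
  have h1 := (iz_G_per ρ).intervalIntegral_add_eq 0 (-Real.pi)
  rw [zero_add] at h1
  have h2 : -Real.pi + 2 * Real.pi = Real.pi := by ring
  rw [h2] at h1
  rw [h1, ← intervalIntegral.integral_add_adjacent_intervals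
    ((iz_G_cont ρ hρ).intervalIntegrable (-Real.pi) 0)
    ((iz_G_cont ρ hρ).intervalIntegrable 0 Real.pi), iz_int_neg, iz_int_half ρ hρ]
  ring

/-- the integral of the dilated function -/
private theorem iz_int_dil (ρ : ℝ) (hρ : 0 < ρ) (h : ℕ) (hh : 1 ≤ h) :
    ∫ x in (0 : ℝ)..Real.pi, izG ρ (h * x) ≤ 2 * Real.log ((ρ + Real.pi) / ρ) := by
  have hpi := Real.pi_pos
  have hh0 : (0 : ℝ) < h := by exact_mod_cast hh
  have hcont : Continuous fun x : ℝ => izG ρ (h * x) :=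
    (iz_G_cont ρ hρ).comp (continuous_const.mul continuous_id)
  have h1 : ∫ x in (0 : ℝ)..Real.pi, izG ρ (h * x) ≤
      ∫ x in (0 : ℝ)..(2 * Real.pi), izG ρ (h * x) := by
    rw [← intervalIntegral.integral_add_adjacent_intervals (hcont.intervalIntegrable 0 Real.pi)
      (hcont.intervalIntegrable Real.pi (2 * Real.pi))]
    have h2 : 0 ≤ ∫ x in Real.pi..(2 * Real.pi), izG ρ (h * x) :=
      intervalIntegral.integral_nonneg (by linarith) fun x _ => (iz_G_pos ρ _ hρ).le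
    linarith
  refine h1.trans (le_of_eq ?_)
  rw [intervalIntegral.integral_comp_mul_left (fun x => izG ρ x) hh0.ne', mul_zero]
  have h3 := (iz_G_per ρ).intervalIntegral_add_zsmul_eq (h : ℤ) 0
    (fun t₁ t₂ => (iz_G_cont ρ hρ).intervalIntegrable t₁ t₂)
  rw [zero_add, zero_add] at h3
  have h4 : ((h : ℤ) • (2 * Real.pi) : ℝ) = h * (2 * Real.pi) := by
    rw [zsmul_eq_mul]
    push_cast
    rfl
  rw [h4] at h3
  rw [h3, iz_int_per ρ hρ, zsmul_eq_mul, smul_eq_mul]
  push_cast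
  field_simp

/-- pointwise bound for `fa` -/
private theorem iz_fa (hEbd : S_Ebd) (ρ z : ℝ) (hρ : 0 < ρ) (hρ1 : ρ ≤ 1 / 2) (hz : 0 < z) :
    ‖fa ρ z‖ ≤ 3 * Real.exp 5 * (1 + izG ρ z) ∧ (z ≤ Real.pi → ‖fa ρ z‖ ≤ 3 * Real.exp 5) := by
  obtain ⟨e1, e2, e3⟩ := hEbd
  have hG := iz_G_pos ρ z hρ
  have he5 : (1 : ℝ) ≤ Real.exp 5 := Real.one_le_exp (by norm_num)
  have hsm : z ≤ Real.pi → ‖fa ρ z‖ ≤ 3 * Real.exp 5 := fun h => e2 ρ z hρ (by linarith) hz h
  refine ⟨?_, hsm⟩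
  by_cases hzp : z ≤ Real.pi
  · have := hsm hzp
    nlinarith
  · have hzp' : Real.pi < z := not_le.1 hzp
    have hpi3 := Real.pi_gt_three
    obtain ⟨n, hn1, hn2⟩ := iz_near z
    have h1 := e1 (ρ * z) z n (by positivity) hn2
    have h2 : Ef ρ z = (Complex.exp (((ρ * z : ℝ) : ℂ) + (z : ℂ) * I) - 1)⁻¹ := by
      unfold Ef av
      congr 3
      push_cast
      ring
    rw [← h2] at h1
    have h3 : Real.exp (-(ρ * z) / 2) ≤ 1 := by
      rw [Real.exp_le_one_iff]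
      have : 0 < ρ * z := by positivity
      linarith
    have h4 : ρ + |z - 2 * Real.pi * n| ≤ ρ * z + |z - 2 * Real.pi * n| := by nlinarith
    have h5 : 0 < ρ + |z - 2 * Real.pi * n| := by positivity
    have h6 : ‖Ef ρ z‖ ≤ 3 * izG ρ z := by
      unfold izG
      rw [hn1]
      calc ‖Ef ρ z‖ ≤ 3 * Real.exp (-(ρ * z) / 2) / (ρ * z + |z - 2 * Real.pi * n|) := h1
        _ ≤ 3 * 1 / (ρ + |z - 2 * Real.pi * n|) := by gcongr
        _ = 3 * (ρ + |z - 2 * Real.pi * n|)⁻¹ := by rw [mul_one, div_eq_mul_inv]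
    have h7 : z⁻¹ ≤ 1 := inv_le_one_of_one_le₀ (by linarith)
    have h8 := e3 ρ z hρ hz
    nlinarith

/-- the separation of the poles -/
private theorem iz_sep (ρ x : ℝ) (h k : ℕ) (hρ : 0 < ρ) (hh : 1 ≤ h) (hk : 1 ≤ k)
    (hhk : Nat.Coprime h k) (hx : 0 < x) (hxp : x ≤ Real.pi) (h1 : Real.pi < h * x)
    (_h2 : Real.pi < k * x) :
    izG ρ (h * x) * izG ρ (k * x) ≤ h * izG ρ (h * x) + k * izG ρ (k * x) := by
  have hpi := Real.pi_pos
  have hpi3 := Real.pi_gt_three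
  have hh0 : (0 : ℝ) < h := by exact_mod_cast hh
  have hk0 : (0 : ℝ) < k := by exact_mod_cast hk
  obtain ⟨n, hn1, hn2⟩ := iz_near (h * x)
  obtain ⟨m, hm1, hm2⟩ := iz_near (k * x)
  have hnpos : 0 < n := by
    have h3 : 0 < 2 * Real.pi * n := by
      have := (abs_le.1 hn2).2
      linarith
    have h4 : (0 : ℝ) < n := by
      by_contra hcon
      have : 2 * Real.pi * n ≤ 0 := by nlinarith [not_lt.1 hcon]
      linarith
    exact_mod_cast h4
  have hne : m * h ≠ n * k := by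
    intro heq
    have hdvd : (h : ℤ) ∣ n * k := ⟨m, by rw [← heq]; ring⟩
    have hcop : IsCoprime (h : ℤ) (k : ℤ) := Nat.isCoprime_iff_coprime.2 hhk
    have hdn : (h : ℤ) ∣ n := hcop.dvd_of_dvd_mul_right hdvd
    have hle : (h : ℤ) ≤ n := Int.le_of_dvd hnpos hdn
    have hle' : (h : ℝ) ≤ n := by exact_mod_cast hle
    have h3 := (abs_le.1 hn2).1
    -- 2 π n ≤ h x + π ≤ h π + π
    have h5 : 2 * Real.pi * n ≤ h * Real.pi + Real.pi := by nlinarith
    have h6 : 2 * Real.pi * h ≤ 2 * Real.pi * n := by nlinarith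
    have h7 : (h : ℝ) * Real.pi ≤ Real.pi := by linarith
    -- so h = 1, x = π and n = 1
    have h8 : (h : ℝ) ≤ 1 := by
      by_contra hcon
      nlinarith [not_le.1 hcon]
    have h9 : (h : ℝ) * x ≤ Real.pi := by nlinarith
    linarith
  have hsum : 2 * Real.pi ≤ k * |h * x - 2 * Real.pi * n| + h * |k * x - 2 * Real.pi * m| := by
    have h3 : (1 : ℝ) ≤ |((m * h - n * k : ℤ) : ℝ)| := by
      rw [← Int.cast_abs]
      have : 1 ≤ |m * h - n * k| := Int.one_le_abs (sub_ne_zero.2 hne)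
      exact_mod_cast this
    have h4 : (k : ℝ) * (h * x - 2 * Real.pi * n) - h * (k * x - 2 * Real.pi * m) =
        2 * Real.pi * ((m * h - n * k : ℤ) : ℝ) := by
      push_cast
      ring
    calc 2 * Real.pi = 2 * Real.pi * 1 := (mul_one _).symm
      _ ≤ 2 * Real.pi * |((m * h - n * k : ℤ) : ℝ)| := by gcongr
      _ = |2 * Real.pi * ((m * h - n * k : ℤ) : ℝ)| := by
          rw [abs_mul, abs_of_pos Real.two_pi_pos]
      _ = |(k : ℝ) * (h * x - 2 * Real.pi * n) - h * (k * x - 2 * Real.pi * m)| := by rw [h4]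
      _ ≤ |(k : ℝ) * (h * x - 2 * Real.pi * n)| + |(h : ℝ) * (k * x - 2 * Real.pi * m)| :=
          abs_sub _ _
      _ = _ := by rw [abs_mul, abs_mul, abs_of_pos hh0, abs_of_pos hk0]
  have hGh := iz_G_pos ρ (h * x) hρ
  have hGk := iz_G_pos ρ (k * x) hρ
  have key : ∀ (c d z : ℝ), 0 < c → 0 ≤ d → ‖((z : ℝ) : AddCircle (2 * Real.pi))‖ = d →
      1 ≤ c * d → izG ρ z ≤ c := by
    intro c d z hc hd hz hcd
    unfold izG
    rw [hz]
    have hdp : 0 < d := by
      rcases hd.lt_or_eq with h | h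
      · exact h
      · rw [← h, mul_zero] at hcd
        linarith
    calc (ρ + d)⁻¹ ≤ d⁻¹ := by
          gcongr
          linarith
      _ ≤ c := by
          rw [inv_le_iff_one_le_mul₀ hdp]
          linarith
  by_cases hd : Real.pi ≤ k * |h * x - 2 * Real.pi * n|
  · have h3 : izG ρ (h * x) ≤ k := key k _ (h * x) hk0 (abs_nonneg _) hn1 (by linarith)
    nlinarith
  · have hd' : Real.pi ≤ h * |k * x - 2 * Real.pi * m| := by
      have := not_le.1 hd
      linarith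
    have h3 : izG ρ (k * x) ≤ h := key h _ (k * x) hh0 (abs_nonneg _) hm1 (by linarith)
    nlinarith

/-- the pointwise bound for the product -/
private theorem iz_pt (hEbd : S_Ebd) (ρ x : ℝ) (h k : ℕ) (hρ : 0 < ρ) (hρ1 : ρ ≤ 1 / 2)
    (hh : 1 ≤ h) (hk : 1 ≤ k) (hhk : Nat.Coprime h k) (hx : 0 < x) (hxp : x ≤ Real.pi) :
    ‖fa ρ (h * x)‖ * ‖fa ρ (k * x)‖ ≤ (3 * Real.exp 5) ^ 2 *
      (1 + (1 + h) * izG ρ (h * x) + (1 + k) * izG ρ (k * x)) := by
  have hh0 : (0 : ℝ) < h := by exact_mod_cast hh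
  have hk0 : (0 : ℝ) < k := by exact_mod_cast hk
  have hGh := iz_G_pos ρ (h * x) hρ
  have hGk := iz_G_pos ρ (k * x) hρ
  obtain ⟨a1, a2⟩ := iz_fa hEbd ρ (h * x) hρ hρ1 (by positivity)
  obtain ⟨b1, b2⟩ := iz_fa hEbd ρ (k * x) hρ hρ1 (by positivity)
  have hC : (0 : ℝ) < 3 * Real.exp 5 := by positivity
  have n1 := norm_nonneg (fa ρ (h * x))
  have n2 := norm_nonneg (fa ρ (k * x))
  by_cases c1 : h * x ≤ Real.pi
  · have a3 := a2 c1
    calc ‖fa ρ (h * x)‖ * ‖fa ρ (k * x)‖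
        ≤ (3 * Real.exp 5) * (3 * Real.exp 5 * (1 + izG ρ (k * x))) :=
          mul_le_mul a3 b1 n2 hC.le
      _ = (3 * Real.exp 5) ^ 2 * (1 + izG ρ (k * x)) := by ring
      _ ≤ _ := by
          refine mul_le_mul_of_nonneg_left ?_ (by positivity)
          nlinarith [mul_pos hk0 hGk, mul_pos hh0 hGh]
  · by_cases c2 : k * x ≤ Real.pi
    · have b3 := b2 c2
      calc ‖fa ρ (h * x)‖ * ‖fa ρ (k * x)‖
          ≤ (3 * Real.exp 5 * (1 + izG ρ (h * x))) * (3 * Real.exp 5) :=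
            mul_le_mul a1 b3 n2 (by positivity)
        _ = (3 * Real.exp 5) ^ 2 * (1 + izG ρ (h * x)) := by ring
        _ ≤ _ := by
            refine mul_le_mul_of_nonneg_left ?_ (by positivity)
            nlinarith [mul_pos hk0 hGk, mul_pos hh0 hGh]
    · have hs := iz_sep ρ x h k hρ hh hk hhk hx hxp (not_le.1 c1) (not_le.1 c2)
      calc ‖fa ρ (h * x)‖ * ‖fa ρ (k * x)‖
          ≤ (3 * Real.exp 5 * (1 + izG ρ (h * x))) * (3 * Real.exp 5 * (1 + izG ρ (k * x))) :=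
            mul_le_mul a1 b1 n2 (by positivity)
        _ = (3 * Real.exp 5) ^ 2 * (1 + izG ρ (h * x) + izG ρ (k * x) +
              izG ρ (h * x) * izG ρ (k * x)) := by ring
        _ ≤ _ := by
            refine mul_le_mul_of_nonneg_left ?_ (by positivity)
            nlinarith

theorem pI0 (hEbd : S_Ebd) : S_I0 := by
  refine ⟨(3 * Real.exp 5) ^ 2 * 20, by positivity, ?_⟩
  intro ρ h k hρ hρ1 hh hk hhk
  have hpi := Real.pi_pos
  have hpi4 := Real.pi_lt_four
  have hh1 : (1 : ℝ) ≤ h := by exact_mod_cast hh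
  have hk1 : (1 : ℝ) ≤ k := by exact_mod_cast hk
  have hlog0 : 0 ≤ Real.log (1 / ρ) := Real.log_nonneg (by
    rw [le_div_iff₀ hρ]
    linarith)
  have hlog : Real.log ((ρ + Real.pi) / ρ) ≤ 2 * (1 + Real.log (1 / ρ)) := by
    have h1 : (ρ + Real.pi) / ρ = (ρ + Real.pi) * (1 / ρ) := by ring
    rw [h1, Real.log_mul (by positivity) (by positivity)]
    have h2 : Real.log (ρ + Real.pi) ≤ 2 := by
      rw [Real.log_le_iff_le_exp (by positivity)]
      have h3 : (2.7 : ℝ) ≤ Real.exp 1 := by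
        have := Real.exp_one_gt_d9
        linarith
      have h4 : Real.exp 2 = Real.exp 1 * Real.exp 1 := by
        rw [← Real.exp_add]
        norm_num
      rw [h4]
      nlinarith
    linarith
  have hlogp : 0 ≤ Real.log ((ρ + Real.pi) / ρ) := Real.log_nonneg (by
    rw [le_div_iff₀ hρ]
    linarith)
  have hR0 : 0 ≤ (3 * Real.exp 5) ^ 2 * 20 * (h + k) * (1 + Real.log (1 / ρ)) := by positivity
  by_cases hint : IntervalIntegrable (fun x : ℝ => ‖fa ρ (h * x)‖ * ‖fa ρ (k * x)‖) volume 0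
      Real.pi
  · have hch : Continuous fun x : ℝ => izG ρ (h * x) :=
      (iz_G_cont ρ hρ).comp (continuous_const.mul continuous_id)
    have hckk : Continuous fun x : ℝ => izG ρ (k * x) :=
      (iz_G_cont ρ hρ).comp (continuous_const.mul continuous_id)
    have hcR : Continuous fun x : ℝ => (3 * Real.exp 5) ^ 2 *
        (1 + (1 + (h : ℝ)) * izG ρ (h * x) + (1 + (k : ℝ)) * izG ρ (k * x)) := by
      fun_prop
    have h1 : ∫ x in (0 : ℝ)..Real.pi, ‖fa ρ (h * x)‖ * ‖fa ρ (k * x)‖ ≤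
        ∫ x in (0 : ℝ)..Real.pi, (3 * Real.exp 5) ^ 2 *
          (1 + (1 + (h : ℝ)) * izG ρ (h * x) + (1 + (k : ℝ)) * izG ρ (k * x)) := by
      refine intervalIntegral.integral_mono_on_of_le_Ioo hpi.le hint
        (hcR.intervalIntegrable _ _) fun x hx => ?_
      exact iz_pt hEbd ρ x h k hρ hρ1 hh hk hhk hx.1 hx.2.le
    refine h1.trans ?_
    have h2 : ∫ x in (0 : ℝ)..Real.pi, (3 * Real.exp 5) ^ 2 *
          (1 + (1 + (h : ℝ)) * izG ρ (h * x) + (1 + (k : ℝ)) * izG ρ (k * x)) =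
        (3 * Real.exp 5) ^ 2 * (Real.pi + (1 + (h : ℝ)) * (∫ x in (0 : ℝ)..Real.pi, izG ρ (h * x)) +
          (1 + (k : ℝ)) * ∫ x in (0 : ℝ)..Real.pi, izG ρ (k * x)) := by
      rw [intervalIntegral.integral_const_mul, intervalIntegral.integral_add,
        intervalIntegral.integral_add, intervalIntegral.integral_const_mul,
        intervalIntegral.integral_const_mul, intervalIntegral.integral_const]
      · rw [smul_eq_mul, sub_zero, mul_one]
      · exact continuous_const.intervalIntegrable _ _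
      · exact (continuous_const.mul hch).intervalIntegrable _ _
      · exact (continuous_const.add (continuous_const.mul hch)).intervalIntegrable _ _
      · exact (continuous_const.mul hckk).intervalIntegrable _ _
    rw [h2]
    have h3 := iz_int_dil ρ hρ h hh
    have h4 := iz_int_dil ρ hρ k hk
    have h5 : Real.pi + (1 + (h : ℝ)) * (∫ x in (0 : ℝ)..Real.pi, izG ρ (h * x)) +
          (1 + (k : ℝ)) * (∫ x in (0 : ℝ)..Real.pi, izG ρ (k * x)) ≤
        20 * (h + k) * (1 + Real.log (1 / ρ)) := by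
      set A := 1 + Real.log (1 / ρ) with hA
      have hA1 : 1 ≤ A := by linarith
      have h6 : (1 + (h : ℝ)) * (∫ x in (0 : ℝ)..Real.pi, izG ρ (h * x)) ≤ (2 * h) * (4 * A) := by
        refine mul_le_mul (by linarith) (by linarith) ?_ (by positivity)
        exact intervalIntegral.integral_nonneg hpi.le fun x _ => (iz_G_pos ρ _ hρ).le
      have h7 : (1 + (k : ℝ)) * (∫ x in (0 : ℝ)..Real.pi, izG ρ (k * x)) ≤ (2 * k) * (4 * A) := by
        refine mul_le_mul (by linarith) (by linarith) ?_ (by positivity)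
        exact intervalIntegral.integral_nonneg hpi.le fun x _ => (iz_G_pos ρ _ hρ).le
      have h8 : 4 ≤ 4 * ((h + k : ℝ) * A) := by
        have : 1 * 1 ≤ (h + k : ℝ) * A := mul_le_mul (by linarith) hA1 (by norm_num) (by linarith)
        linarith
      nlinarith
    calc (3 * Real.exp 5) ^ 2 * (Real.pi + (1 + (h : ℝ)) * (∫ x in (0 : ℝ)..Real.pi, izG ρ (h * x)) +
          (1 + (k : ℝ)) * ∫ x in (0 : ℝ)..Real.pi, izG ρ (k * x))
        ≤ (3 * Real.exp 5) ^ 2 * (20 * (h + k) * (1 + Real.log (1 / ρ))) :=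
          mul_le_mul_of_nonneg_left h5 (by positivity)
      _ = _ := by ring
  · rw [intervalIntegral.integral_undef hint]
    exact hR0

end Pool.Agent.Lib.MP_aa9ae4_nt.L1
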