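import Mathlib
import Pool.Agent.Lib.MP_aa9ae4_nt.L1.SpecC

/-!
MP_aa9ae4_nt, Theorem L, part C: cross terms (`S_I1`).
-/

namespace Pool.Agent.Lib.MP_aa9ae4_nt.L1

open Finset MeasureTheory Filter Topology
open Complex (I)

private theorem i1_exp (ρ z : ℝ) : av ρ * z = ((ρ * z : ℝ) : ℂ) + ((z : ℝ) : ℂ) * I := by
  unfold av
  push_cast
  ring

private theorem i1_ne {ρ z : ℝ} (hρ : 0 < ρ) (hz : 0 < z) :
    Complex.exp (av ρ * z) - 1 ≠ 0 := by
  intro h
  have h1 : Complex.exp (av ρ * z) = 1 := sub_eq_zero.1 h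
  have h2 : ‖Complex.exp (av ρ * z)‖ = Real.exp (ρ * z) := by
    rw [Complex.norm_exp, i1_exp]
    congr 1
    simp
  rw [h1, norm_one] at h2
  have h3 : 1 < Real.exp (ρ * z) := Real.one_lt_exp_iff.2 (mul_pos hρ hz)
  linarith

/-- the function `‖E(z)‖/z` -/
private noncomputable def i1g (ρ z : ℝ) : ℝ := ‖Ef ρ z‖ / z

private theorem i1g_nonneg {ρ z : ℝ} (hz : 0 < z) : 0 ≤ i1g ρ z :=
  div_nonneg (norm_nonneg _) hz.le

private theorem i1g_cont {ρ : ℝ} (hρ : 0 < ρ) : ContinuousOn (i1g ρ) (Set.Ioi 0) := by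
  unfold i1g Ef
  refine ContinuousOn.div (ContinuousOn.norm (ContinuousOn.inv₀ ?_ ?_)) continuousOn_id ?_
  · exact (Continuous.sub (Complex.continuous_exp.comp
      (continuous_const.mul Complex.continuous_ofReal)) continuous_const).continuousOn
  · intro z hz
    exact i1_ne hρ hz
  · intro z hz
    exact ne_of_gt hz

private theorem i1g_ii {ρ : ℝ} (hρ : 0 < ρ) {a b : ℝ} (ha : 0 < a) (hab : a ≤ b) :
    IntervalIntegrable (i1g ρ) volume a b := by
  refine ContinuousOn.intervalIntegrable ((i1g_cont hρ).mono ?_)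
  rw [Set.uIcc_of_le hab]
  intro z hz
  exact lt_of_lt_of_le ha hz.1

/-- the logarithmic integral -/
private theorem i1_log (ρ : ℝ) (hρ : 0 < ρ) :
    ∫ y in (0 : ℝ)..Real.pi, (ρ * Real.pi + y)⁻¹ = Real.log (1 + 1 / ρ) := by
  have hpi := Real.pi_pos
  rw [intervalIntegral.integral_comp_add_left (fun y => y⁻¹) (ρ * Real.pi), add_zero,
    integral_inv_of_pos (by positivity) (by positivity)]
  congr 1
  field_simp

private theorem i1_per (ρ c : ℝ) (hρ : 0 < ρ) :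
    IntervalIntegrable (fun z => (ρ * Real.pi + |z - c|)⁻¹) volume (c - Real.pi) (c + Real.pi) ∧
    ∫ z in (c - Real.pi)..(c + Real.pi), (ρ * Real.pi + |z - c|)⁻¹ =
      2 * Real.log (1 + 1 / ρ) := by
  have hpi := Real.pi_pos
  have hcont : Continuous fun z : ℝ => (ρ * Real.pi + |z - c|)⁻¹ := by
    refine Continuous.inv₀ (continuous_const.add (continuous_id.sub continuous_const).abs) ?_
    intro z
    have := abs_nonneg (z - c)
    positivity
  refine ⟨hcont.intervalIntegrable _ _, ?_⟩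
  rw [← intervalIntegral.integral_add_adjacent_intervals (hcont.intervalIntegrable (c - Real.pi) c)
    (hcont.intervalIntegrable c (c + Real.pi))]
  have h1 : ∫ z in (c - Real.pi)..c, (ρ * Real.pi + |z - c|)⁻¹ = Real.log (1 + 1 / ρ) := by
    rw [← i1_log ρ hρ]
    have h2 : ∫ z in (c - Real.pi)..c, (ρ * Real.pi + |z - c|)⁻¹ =
        ∫ z in (c - Real.pi)..c, (fun y => (ρ * Real.pi + y)⁻¹) (c - z) := by
      refine intervalIntegral.integral_congr fun z hz => ?_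
      rw [Set.uIcc_of_le (by linarith)] at hz
      show (ρ * Real.pi + |z - c|)⁻¹ = (ρ * Real.pi + (c - z))⁻¹
      rw [abs_sub_comm, abs_of_nonneg (by linarith [hz.2])]
    rw [h2]
    refine (intervalIntegral.integral_comp_sub_left (fun y => (ρ * Real.pi + y)⁻¹) c).trans ?_
    rw [sub_self, sub_sub_cancel]
  have h3 : ∫ z in c..(c + Real.pi), (ρ * Real.pi + |z - c|)⁻¹ = Real.log (1 + 1 / ρ) := by
    rw [← i1_log ρ hρ]
    have h2 : ∫ z in c..(c + Real.pi), (ρ * Real.pi + |z - c|)⁻¹ =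
        ∫ z in c..(c + Real.pi), (fun y => (ρ * Real.pi + y)⁻¹) (z - c) := by
      refine intervalIntegral.integral_congr fun z hz => ?_
      rw [Set.uIcc_of_le (by linarith)] at hz
      show (ρ * Real.pi + |z - c|)⁻¹ = (ρ * Real.pi + (z - c))⁻¹
      rw [abs_of_nonneg (by linarith [hz.1])]
    rw [h2]
    refine (intervalIntegral.integral_comp_sub_right (fun y => (ρ * Real.pi + y)⁻¹) c).trans ?_
    rw [sub_self, add_sub_cancel_left]
  rw [h1, h3]
  ring

/-- one period -/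
private theorem i1_one (hEbd : S_Ebd) (ρ : ℝ) (hρ : 0 < ρ) (n : ℕ) :
    ∫ z in (Real.pi * (2 * n + 1))..(Real.pi * (2 * (n + 1 : ℕ) + 1)), i1g ρ z ≤
      (6 / Real.pi * Real.log (1 + 1 / ρ)) *
        (Real.exp (-(ρ * Real.pi / 2)) ^ (n + 1) / ((n : ℝ) + 1)) := by
  have hpi := Real.pi_pos
  obtain ⟨c, hc⟩ : ∃ c : ℝ, c = 2 * Real.pi * (n + 1) := ⟨_, rfl⟩
  have e1 : Real.pi * (2 * n + 1) = c - Real.pi := by rw [hc]; ring
  have e2 : Real.pi * (2 * (n + 1 : ℕ) + 1) = c + Real.pi := by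
    rw [hc]
    push_cast
    ring
  have hn : (0 : ℝ) ≤ n := Nat.cast_nonneg n
  have hlow : Real.pi * (n + 1) ≤ c - Real.pi := by
    rw [← e1]
    exact mul_le_mul_of_nonneg_left (by linarith) hpi.le
  have hlow0 : 0 < c - Real.pi := lt_of_lt_of_le (by positivity) hlow
  rw [e1, e2]
  obtain ⟨hii, hint⟩ := i1_per ρ c hρ
  have hexp : Real.exp (-(ρ * (Real.pi * (n + 1))) / 2) =
      Real.exp (-(ρ * Real.pi / 2)) ^ (n + 1) := by
    rw [← Real.exp_nat_mul]
    congr 1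
    push_cast
    ring
  obtain ⟨K, hK⟩ : ∃ K : ℝ, K = 3 * Real.exp (-(ρ * (Real.pi * (n + 1))) / 2) /
    (Real.pi * (n + 1)) := ⟨_, rfl⟩
  have hmono : ∫ z in (c - Real.pi)..(c + Real.pi), i1g ρ z ≤
      ∫ z in (c - Real.pi)..(c + Real.pi), K * (ρ * Real.pi + |z - c|)⁻¹ := by
    refine intervalIntegral.integral_mono_on (by linarith) (i1g_ii hρ hlow0 (by linarith))
      (hii.const_mul K) ?_
    intro z hz
    have hz0 : 0 < z := lt_of_lt_of_le hlow0 hz.1
    have hzn : Real.pi * (n + 1) ≤ z := hlow.trans hz.1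
    have habs : |z - c| ≤ Real.pi := abs_le.2 ⟨by linarith [hz.1], by linarith [hz.2]⟩
    have habs0 := abs_nonneg (z - c)
    have h1 := hEbd.1 (ρ * z) z (n + 1 : ℕ) (mul_pos hρ hz0) (by
      have : z - 2 * Real.pi * (((n + 1 : ℕ) : ℤ) : ℝ) = z - c := by
        rw [hc]
        push_cast
        ring
      rw [this]
      exact habs)
    have e3 : z - 2 * Real.pi * (((n + 1 : ℕ) : ℤ) : ℝ) = z - c := by
      rw [hc]
      push_cast
      ring
    rw [e3] at h1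
    have h2 : ‖Ef ρ z‖ ≤ 3 * Real.exp (-(ρ * z) / 2) / (ρ * z + |z - c|) := by
      unfold Ef
      rw [i1_exp]
      exact h1
    have h3 : 3 * Real.exp (-(ρ * z) / 2) / (ρ * z + |z - c|) ≤
        3 * Real.exp (-(ρ * (Real.pi * (n + 1))) / 2) / (ρ * Real.pi + |z - c|) := by
      have h4 : Real.exp (-(ρ * z) / 2) ≤ Real.exp (-(ρ * (Real.pi * (n + 1))) / 2) := by
        apply Real.exp_le_exp.2
        have := mul_le_mul_of_nonneg_left hzn hρ.le
        linarith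
      have h5 : ρ * Real.pi + |z - c| ≤ ρ * z + |z - c| := by
        have h6 : Real.pi ≤ z := by nlinarith
        have := mul_le_mul_of_nonneg_left h6 hρ.le
        linarith
      have h7 : 0 < ρ * Real.pi + |z - c| := by positivity
      exact div_le_div₀ (by positivity) (by linarith) h7 h5
    calc i1g ρ z = ‖Ef ρ z‖ / z := rfl
      _ ≤ (3 * Real.exp (-(ρ * (Real.pi * (n + 1))) / 2) / (ρ * Real.pi + |z - c|)) /
          (Real.pi * (n + 1)) := by
          refine div_le_div₀ (by positivity) (h2.trans h3) (by positivity) hzn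
      _ = K * (ρ * Real.pi + |z - c|)⁻¹ := by
          rw [hK]
          field_simp
  rw [intervalIntegral.integral_const_mul, hint] at hmono
  refine hmono.trans (le_of_eq ?_)
  rw [hK, hexp]
  field_simp
  ring

private theorem i1_bound (hEbd : S_Ebd) (ρ : ℝ) (hρ : 0 < ρ) (hρ2 : ρ ≤ 1 / 2) :
    IntegrableOn (i1g ρ) (Set.Ioi Real.pi) ∧
      ∫ z in Set.Ioi Real.pi, i1g ρ z ≤ 2 * (1 + Real.log (1 / ρ)) ^ 2 := by
  have hpi := Real.pi_pos
  have hpi3 := Real.pi_gt_three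
  have hinv : 2 ≤ 1 / ρ := by
    rw [le_div_iff₀ hρ]
    linarith
  have hlog0 : 0 ≤ Real.log (1 / ρ) := Real.log_nonneg (by linarith)
  -- the two logarithms
  have hL1 : Real.log (1 + 1 / ρ) ≤ 1 + Real.log (1 / ρ) := by
    have h1 : Real.log (1 + 1 / ρ) ≤ Real.log (2 * (1 / ρ)) :=
      Real.log_le_log (by linarith) (by linarith)
    rw [Real.log_mul (by norm_num) (by positivity)] at h1
    have h2 : Real.log 2 ≤ 1 := by
      have := Real.log_two_lt_d9
      linarith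
    linarith
  have hL0 : 0 ≤ Real.log (1 + 1 / ρ) := Real.log_nonneg (by linarith)
  obtain ⟨x, hx⟩ : ∃ x, x = ρ * Real.pi / 2 := ⟨_, rfl⟩
  have hx0 : 0 < x := by rw [hx]; positivity
  obtain ⟨q, hq⟩ : ∃ q, q = Real.exp (-x) := ⟨_, rfl⟩
  have hq0 : 0 < q := by rw [hq]; exact Real.exp_pos _
  have hq1 : q < 1 := by
    have h1 := Real.exp_lt_exp.2 (show -x < 0 by linarith)
    rw [Real.exp_zero] at h1
    rw [hq]
    exact h1
  have hqx : q ≤ 1 / (1 + x) := by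
    rw [hq, Real.exp_neg, ← one_div]
    exact one_div_le_one_div_of_le (by linarith) (by linarith [Real.add_one_le_exp x])
  have hL2 : -Real.log (1 - q) ≤ 1 + Real.log (1 / ρ) := by
    have h1 : x / (1 + x) ≤ 1 - q := by
      have : x / (1 + x) = 1 - 1 / (1 + x) := by field_simp; ring
      linarith
    have h2 : Real.log (x / (1 + x)) ≤ Real.log (1 - q) :=
      Real.log_le_log (by positivity) h1
    have h3 : -Real.log (x / (1 + x)) = Real.log (1 + 1 / x) := by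
      rw [← Real.log_inv]
      congr 1
      field_simp
      ring
    have h4 : Real.log (1 + 1 / x) ≤ Real.log (1 + 1 / ρ) := by
      apply Real.log_le_log (by positivity)
      have : 1 / x ≤ 1 / ρ := by
        apply one_div_le_one_div_of_le hρ
        rw [hx]
        nlinarith
      linarith
    linarith
  have hsum : ∀ N : ℕ, ∑ n ∈ range N, q ^ (n + 1) / ((n : ℝ) + 1) ≤ -Real.log (1 - q) := by
    intro N
    have h1 := Real.hasSum_pow_div_log_of_abs_lt_one (x := q) (by rw [abs_of_pos hq0]; exact hq1)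
    exact sum_le_hasSum (range N) (fun n _ => by positivity) h1
  -- the intervals
  let b : ℕ → ℝ := fun n => Real.pi * (2 * n + 1)
  have hb0 : b 0 = Real.pi := by
    show Real.pi * (2 * ((0 : ℕ) : ℝ) + 1) = Real.pi
    push_cast
    ring
  have hbpi : ∀ n, Real.pi ≤ b n := by
    intro n
    show Real.pi ≤ Real.pi * (2 * (n : ℝ) + 1)
    have : (0 : ℝ) ≤ n := Nat.cast_nonneg n
    nlinarith
  have hbmono : ∀ n, b n ≤ b (n + 1) := by
    intro n
    show Real.pi * (2 * (n : ℝ) + 1) ≤ Real.pi * (2 * ((n + 1 : ℕ) : ℝ) + 1)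
    push_cast
    nlinarith
  have hbt : Tendsto b atTop atTop := by
    refine tendsto_atTop_mono (fun n => ?_) tendsto_natCast_atTop_atTop
    show (n : ℝ) ≤ Real.pi * (2 * (n : ℝ) + 1)
    have : (0 : ℝ) ≤ n := Nat.cast_nonneg n
    nlinarith
  have hint : ∀ N : ℕ, ∫ z in Real.pi..b N, i1g ρ z ≤ 2 * (1 + Real.log (1 / ρ)) ^ 2 := by
    intro N
    have h1 := intervalIntegral.sum_integral_adjacent_intervals (f := i1g ρ) (a := b) (n := N)
      (μ := volume) (fun n _ => i1g_ii hρ (lt_of_lt_of_le hpi (hbpi n)) (hbmono n))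
    rw [hb0] at h1
    rw [← h1]
    have h2 : ∑ n ∈ range N, ∫ z in b n..b (n + 1), i1g ρ z ≤
        ∑ n ∈ range N, (6 / Real.pi * Real.log (1 + 1 / ρ)) * (q ^ (n + 1) / ((n : ℝ) + 1)) := by
      refine Finset.sum_le_sum fun n _ => ?_
      have := i1_one hEbd ρ hρ n
      rw [hq, hx]
      exact this
    rw [← Finset.mul_sum] at h2
    refine h2.trans ?_
    have h3 : 6 / Real.pi * Real.log (1 + 1 / ρ) ≤ 2 * (1 + Real.log (1 / ρ)) := by
      have h4 : 6 / Real.pi ≤ 2 := by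
        rw [div_le_iff₀ hpi]
        linarith
      exact mul_le_mul h4 hL1 hL0 (by norm_num)
    calc (6 / Real.pi * Real.log (1 + 1 / ρ)) * ∑ n ∈ range N, q ^ (n + 1) / ((n : ℝ) + 1)
        ≤ (2 * (1 + Real.log (1 / ρ))) * (1 + Real.log (1 / ρ)) := by
          refine mul_le_mul h3 ((hsum N).trans hL2) ?_ (by positivity)
          exact Finset.sum_nonneg fun n _ => by positivity
      _ = 2 * (1 + Real.log (1 / ρ)) ^ 2 := by ring
  have hion : IntegrableOn (i1g ρ) (Set.Ioi Real.pi) := by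
    refine integrableOn_Ioi_of_intervalIntegral_norm_bounded
      (2 * (1 + Real.log (1 / ρ)) ^ 2) Real.pi (fun n => ?_) hbt (Eventually.of_forall fun n => ?_)
    · exact (intervalIntegrable_iff_integrableOn_Ioc_of_le (hbpi n)).1
        (i1g_ii hρ hpi (hbpi n))
    · refine le_trans (le_of_eq ?_) (hint n)
      refine intervalIntegral.integral_congr fun z hz => ?_
      rw [Set.uIcc_of_le (hbpi n)] at hz
      exact Real.norm_of_nonneg (i1g_nonneg (lt_of_lt_of_le hpi hz.1))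
  refine ⟨hion, ?_⟩
  exact le_of_tendsto (intervalIntegral_tendsto_integral_Ioi Real.pi hion hbt)
    (Eventually.of_forall hint)

/-- the scaled function -/
private theorem i1_scale (hEbd : S_Ebd) (ρ : ℝ) (hρ : 0 < ρ) (hρ2 : ρ ≤ 1 / 2) (h : ℕ)
    (hh : 1 ≤ h) : IntegrableOn (fun x : ℝ => ‖Ef ρ (h * x)‖ / x) (Set.Ioi Real.pi) ∧
      ∫ x in Set.Ioi Real.pi, ‖Ef ρ (h * x)‖ / x ≤ 2 * (1 + Real.log (1 / ρ)) ^ 2 := by
  have hpi := Real.pi_pos
  obtain ⟨hio, hle⟩ := i1_bound hEbd ρ hρ hρ2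
  have hh0 : (0 : ℝ) < h := by exact_mod_cast hh
  have hh1 : (1 : ℝ) ≤ h := by exact_mod_cast hh
  have hsub : Set.Ioi ((h : ℝ) * Real.pi) ⊆ Set.Ioi Real.pi := by
    intro z hz
    have : Real.pi ≤ h * Real.pi := by nlinarith
    exact lt_of_le_of_lt this hz
  have he : (fun x : ℝ => ‖Ef ρ (h * x)‖ / x) = fun x => (h : ℝ) * i1g ρ (h * x) := by
    funext x
    unfold i1g
    rcases eq_or_ne x 0 with h0 | h0
    · rw [h0]
      simp
    · field_simp
  have hio' : IntegrableOn (fun x => i1g ρ (h * x)) (Set.Ioi Real.pi) := by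
    rw [integrableOn_Ioi_comp_mul_left_iff _ _ hh0]
    exact hio.mono_set hsub
  rw [he]
  refine ⟨hio'.const_mul _, ?_⟩
  rw [integral_const_mul, integral_comp_mul_left_Ioi (i1g ρ) Real.pi hh0, smul_eq_mul,
    mul_inv_cancel_left₀ hh0.ne']
  refine le_trans ?_ hle
  exact setIntegral_mono_set hio ((ae_restrict_iff' measurableSet_Ioi).2
    (Eventually.of_forall fun z hz => i1g_nonneg (hpi.trans hz))) hsub.eventuallyLE

private theorem i1_av (ρ : ℝ) : 1 ≤ ‖av ρ‖ := by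
  have h1 : |(av ρ).im| ≤ ‖av ρ‖ := Complex.abs_im_le_norm _
  have h2 : (av ρ).im = 1 := by simp [av]
  rw [h2, abs_one] at h1
  exact h1

/-- the pointwise bound -/
private theorem i1_pt (ρ x : ℝ) (hx : 0 < x) (h k : ℝ) (hh : 1 ≤ h) (hk : 1 ≤ k) :
    ‖fa ρ (h * x) * (starRingEnd ℂ) (fa ρ (k * x)) -
      Ef ρ (h * x) * (starRingEnd ℂ) (Ef ρ (k * x))‖ ≤
      ‖Ef ρ (h * x)‖ / x + ‖Ef ρ (k * x)‖ / x + 1 / x ^ 2 := by
  have hw : ∀ r : ℝ, 1 ≤ r → ‖(av ρ * ((r * x : ℝ) : ℂ))⁻¹‖ ≤ 1 / x := by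
    intro r hr
    rw [norm_inv, norm_mul, Complex.norm_real, Real.norm_of_nonneg (by positivity), ← one_div]
    apply one_div_le_one_div_of_le hx
    have h1 := i1_av ρ
    have h2 : x ≤ r * x := by nlinarith
    nlinarith [norm_nonneg (av ρ)]
  obtain ⟨A, hA⟩ : ∃ A, A = Ef ρ (h * x) := ⟨_, rfl⟩
  obtain ⟨B, hB⟩ : ∃ B, B = Ef ρ (k * x) := ⟨_, rfl⟩
  obtain ⟨u, hu⟩ : ∃ u, u = (av ρ * ((h * x : ℝ) : ℂ))⁻¹ := ⟨_, rfl⟩
  obtain ⟨v, hv⟩ : ∃ v, v = (av ρ * ((k * x : ℝ) : ℂ))⁻¹ := ⟨_, rfl⟩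
  have hu1 : ‖u‖ ≤ 1 / x := by rw [hu]; exact hw h hh
  have hv1 : ‖v‖ ≤ 1 / x := by rw [hv]; exact hw k hk
  have e1 : fa ρ (h * x) * (starRingEnd ℂ) (fa ρ (k * x)) -
      Ef ρ (h * x) * (starRingEnd ℂ) (Ef ρ (k * x)) =
      -(A * (starRingEnd ℂ) v) - u * (starRingEnd ℂ) B + u * (starRingEnd ℂ) v := by
    unfold fa
    rw [← hA, ← hB, ← hu, ← hv, map_sub]
    ring
  rw [e1, ← hA, ← hB]
  have hA0 := norm_nonneg A
  have hB0 := norm_nonneg B
  have hu0 := norm_nonneg u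
  have hv0 := norm_nonneg v
  have h1 : ‖-(A * (starRingEnd ℂ) v)‖ ≤ ‖A‖ / x := by
    rw [norm_neg, norm_mul, RCLike.norm_conj]
    calc ‖A‖ * ‖v‖ ≤ ‖A‖ * (1 / x) := mul_le_mul_of_nonneg_left hv1 hA0
      _ = ‖A‖ / x := by ring
  have h2 : ‖u * (starRingEnd ℂ) B‖ ≤ ‖B‖ / x := by
    rw [norm_mul, RCLike.norm_conj]
    calc ‖u‖ * ‖B‖ ≤ (1 / x) * ‖B‖ := mul_le_mul_of_nonneg_right hu1 hB0
      _ = ‖B‖ / x := by ring
  have h3 : ‖u * (starRingEnd ℂ) v‖ ≤ 1 / x ^ 2 := by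
    rw [norm_mul, RCLike.norm_conj]
    calc ‖u‖ * ‖v‖ ≤ (1 / x) * (1 / x) := mul_le_mul hu1 hv1 hv0 (by positivity)
      _ = 1 / x ^ 2 := by
        field_simp
  calc ‖-(A * (starRingEnd ℂ) v) - u * (starRingEnd ℂ) B + u * (starRingEnd ℂ) v‖
      ≤ ‖-(A * (starRingEnd ℂ) v) - u * (starRingEnd ℂ) B‖ + ‖u * (starRingEnd ℂ) v‖ :=
        norm_add_le _ _
    _ ≤ (‖-(A * (starRingEnd ℂ) v)‖ + ‖u * (starRingEnd ℂ) B‖) + ‖u * (starRingEnd ℂ) v‖ := by
        linarith [norm_sub_le (-(A * (starRingEnd ℂ) v)) (u * (starRingEnd ℂ) B)]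
    _ ≤ _ := by linarith

theorem pI1 (hEbd : S_Ebd) : S_I1 := by
  refine ⟨5, by norm_num, ?_⟩
  intro ρ h k hρ hρ2 hh hk
  have hpi := Real.pi_pos
  have hpi3 := Real.pi_gt_three
  obtain ⟨i1, l1⟩ := i1_scale hEbd ρ hρ hρ2 h hh
  obtain ⟨i2, l2⟩ := i1_scale hEbd ρ hρ hρ2 k hk
  have i3 : IntegrableOn (fun x : ℝ => 1 / x ^ 2) (Set.Ioi Real.pi) := by
    have := integrableOn_Ioi_rpow_of_lt (a := -2) (by norm_num) hpi
    refine this.congr_fun (fun x hx => ?_) measurableSet_Ioi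
    have hx0 : 0 < x := hpi.trans hx
    show x ^ (-2 : ℝ) = 1 / x ^ 2
    rw [Real.rpow_neg hx0.le, one_div]
    norm_num
  have l3 : ∫ x in Set.Ioi Real.pi, 1 / x ^ 2 ≤ 1 := by
    have h1 := integral_Ioi_rpow_of_lt (a := -2) (by norm_num) hpi
    have h2 : ∫ x in Set.Ioi Real.pi, 1 / x ^ 2 = ∫ x in Set.Ioi Real.pi, x ^ (-2 : ℝ) := by
      refine setIntegral_congr_fun measurableSet_Ioi fun x hx => ?_
      have hx0 : 0 < x := hpi.trans hx
      show 1 / x ^ 2 = x ^ (-2 : ℝ)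
      rw [Real.rpow_neg hx0.le, one_div]
      norm_num
    rw [h2, h1]
    have h3 : (-2 : ℝ) + 1 = -1 := by norm_num
    rw [h3, Real.rpow_neg hpi.le, Real.rpow_one, neg_div_neg_eq, div_one, ← one_div]
    rw [div_le_one hpi]
    linarith
  have hlog0 : 0 ≤ Real.log (1 / ρ) := by
    apply Real.log_nonneg
    rw [le_div_iff₀ hρ]
    linarith
  have hle : ∫ x in Set.Ioi Real.pi, ‖fa ρ (h * x) * (starRingEnd ℂ) (fa ρ (k * x)) -
      Ef ρ (h * x) * (starRingEnd ℂ) (Ef ρ (k * x))‖ ≤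
      ∫ x in Set.Ioi Real.pi, (‖Ef ρ (h * x)‖ / x + ‖Ef ρ (k * x)‖ / x + 1 / x ^ 2) := by
    refine integral_mono_of_nonneg (Eventually.of_forall fun x => norm_nonneg _)
      ((i1.add i2).add i3) ((ae_restrict_iff' measurableSet_Ioi).2 (Eventually.of_forall ?_))
    intro x hx
    exact i1_pt ρ x (hpi.trans hx) h k (by exact_mod_cast hh) (by exact_mod_cast hk)
  refine hle.trans ?_
  have e1 := integral_add (μ := volume.restrict (Set.Ioi Real.pi))
    (f := fun x : ℝ => ‖Ef ρ (h * x)‖ / x + ‖Ef ρ (k * x)‖ / x) (g := fun x : ℝ => 1 / x ^ 2)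
    (i1.add i2) i3
  have e2 := integral_add (μ := volume.restrict (Set.Ioi Real.pi))
    (f := fun x : ℝ => ‖Ef ρ (h * x)‖ / x) (g := fun x : ℝ => ‖Ef ρ (k * x)‖ / x) i1 i2
  rw [e1, e2]
  nlinarith

end Pool.Agent.Lib.MP_aa9ae4_nt.L1
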