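import Mathlib
import Pool.Agent.Lib.MP_aa9ae4_nt.L1.SpecC

/-!
MP_aa9ae4_nt, L1: the asymptotic formula for `Ihk`.
-/

namespace Pool.Agent.Lib.MP_aa9ae4_nt.L1

open Finset MeasureTheory Filter Topology
open Complex (I)
open Pool.Agent.Lib.MP_aa9ae4_nt.S1 (pw psumS eulS tail prs nn KK expJ HT fzS y1)

private lemma ih_near (z : ℝ) : ∃ n : ℤ, |z - 2 * Real.pi * n| ≤ Real.pi := by
  refine ⟨round (z / (2 * Real.pi)), ?_⟩
  have hpi := Real.pi_pos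
  have h1 := abs_sub_round (z / (2 * Real.pi))
  have h2 : z - 2 * Real.pi * (round (z / (2 * Real.pi)) : ℤ) =
      (2 * Real.pi) * (z / (2 * Real.pi) - (round (z / (2 * Real.pi)) : ℤ)) := by
    field_simp
  rw [h2, abs_mul, abs_of_pos (by positivity : (0 : ℝ) < 2 * Real.pi)]
  nlinarith

private lemma ih_Ef_bd (hEbd : S_Ebd) (ρ x : ℝ) (hρ : 0 < ρ) (hx : 0 < x) :
    ‖Ef ρ x‖ ≤ 3 / ρ / x := by
  obtain ⟨n, hn⟩ := ih_near x
  have h1 := hEbd.1 (ρ * x) x n (by positivity) hn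
  have h2 : Ef ρ x = (Complex.exp (((ρ * x : ℝ) : ℂ) + (x : ℂ) * I) - 1)⁻¹ := by
    unfold Ef av
    congr 3
    push_cast
    ring
  rw [h2]
  refine h1.trans ?_
  rw [div_div]
  have h3 : Real.exp (-(ρ * x) / 2) ≤ 1 := by
    rw [Real.exp_le_one_iff]
    have : 0 < ρ * x := by positivity
    linarith
  have h4 : (0 : ℝ) < ρ * x := by positivity
  refine div_le_div₀ (by norm_num) (by linarith) h4 ?_
  linarith [abs_nonneg (x - 2 * Real.pi * n)]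

private lemma ih_fa_bd (hEbd : S_Ebd) (ρ x : ℝ) (hρ : 0 < ρ) (hx : 0 < x) :
    ‖fa ρ x‖ ≤ (3 / ρ + 1) / x := by
  refine (hEbd.2.2 ρ x hρ hx).trans ?_
  have h1 := ih_Ef_bd hEbd ρ x hρ hx
  rw [add_div, one_div]
  linarith

private lemma ih_fa_bd2 (hEbd : S_Ebd) (ρ x : ℝ) (hρ : 0 < ρ) (hρ1 : ρ ≤ 1) (hx : 0 < x) :
    ‖fa ρ x‖ ≤ 3 * Real.exp 5 + (3 / ρ + 1) := by
  have hp : 0 < 3 / ρ + 1 := by positivity
  rcases le_or_gt x Real.pi with h | h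
  · have h1 := hEbd.2.1 ρ x hρ hρ1 hx h
    linarith
  · have h1 := ih_fa_bd hEbd ρ x hρ hx
    have h2 : (3 / ρ + 1) / x ≤ 3 / ρ + 1 := div_le_self hp.le (by
      have := Real.pi_gt_three
      linarith)
    have h3 := Real.exp_pos 5
    linarith

private lemma ih_av_ne (ρ : ℝ) (hρ : 0 < ρ) : av ρ ≠ 0 := by
  intro h
  have h1 : (av ρ).re = 0 := by rw [h]; simp
  unfold av at h1
  simp at h1
  linarith

private lemma ih_exp_ne (ρ x : ℝ) (hρ : 0 < ρ) (hx : 0 < x) : Complex.exp (av ρ * x) - 1 ≠ 0 := by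
  intro h
  have h1 : Complex.exp (av ρ * x) = 1 := by linear_combination h
  have h2 : ‖Complex.exp (av ρ * x)‖ = 1 := by rw [h1]; simp
  rw [Complex.norm_exp] at h2
  have h3 : (av ρ * x).re = ρ * x := by
    unfold av
    simp
  rw [h3, Real.exp_eq_one_iff] at h2
  have : 0 < ρ * x := by positivity
  linarith

private lemma ih_Ef_cont (ρ : ℝ) (hρ : 0 < ρ) : ContinuousOn (Ef ρ) (Set.Ioi 0) := by
  unfold Ef
  refine ContinuousOn.inv₀ (Continuous.continuousOn (by fun_prop)) fun x hx => ?_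
  exact ih_exp_ne ρ x hρ hx

private lemma ih_fa_cont (ρ : ℝ) (hρ : 0 < ρ) : ContinuousOn (fa ρ) (Set.Ioi 0) := by
  unfold fa
  refine (ih_Ef_cont ρ hρ).sub ?_
  refine ContinuousOn.inv₀ (Continuous.continuousOn (by fun_prop)) fun x hx => ?_
  refine mul_ne_zero (ih_av_ne ρ hρ) ?_
  have : (0 : ℝ) < x := hx
  exact_mod_cast this.ne'

private lemma ih_prod_cont (f : ℝ → ℂ) (hf : ContinuousOn f (Set.Ioi 0)) (h k : ℕ) (hh : 1 ≤ h)
    (hk : 1 ≤ k) :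
    ContinuousOn (fun x : ℝ => f (h * x) * (starRingEnd ℂ) (f (k * x))) (Set.Ioi 0) := by
  have hh' : (0 : ℝ) < h := by exact_mod_cast hh
  have hk' : (0 : ℝ) < k := by exact_mod_cast hk
  refine ContinuousOn.mul ?_ ?_
  · refine hf.comp (Continuous.continuousOn (by fun_prop)) fun x hx => ?_
    exact mul_pos hh' hx
  · refine Complex.continuous_conj.comp_continuousOn ?_
    refine hf.comp (Continuous.continuousOn (by fun_prop)) fun x hx => ?_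
    exact mul_pos hk' hx

/-- integrability on `(π, ∞)` from the bound `M/x` -/
private lemma ih_int_far (f : ℝ → ℂ) (hf : ContinuousOn f (Set.Ioi 0)) (M : ℝ) (hM : 0 ≤ M)
    (hb : ∀ x, 0 < x → ‖f x‖ ≤ M / x) (h k : ℕ) (hh : 1 ≤ h) (hk : 1 ≤ k) :
    IntegrableOn (fun x : ℝ => f (h * x) * (starRingEnd ℂ) (f (k * x))) (Set.Ioi Real.pi) := by
  have hpi := Real.pi_pos
  have hh' : (1 : ℝ) ≤ h := by exact_mod_cast hh
  have hk' : (1 : ℝ) ≤ k := by exact_mod_cast hk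
  have hsub : Set.Ioi Real.pi ⊆ Set.Ioi (0 : ℝ) := Set.Ioi_subset_Ioi hpi.le
  have h1 : IntegrableOn (fun x : ℝ => M ^ 2 * x ^ (-2 : ℝ)) (Set.Ioi Real.pi) :=
    (integrableOn_Ioi_rpow_of_lt (by norm_num) hpi).const_mul _
  refine Integrable.mono' h1
    (((ih_prod_cont f hf h k hh hk).mono hsub).aestronglyMeasurable measurableSet_Ioi) ?_
  refine (ae_restrict_iff' measurableSet_Ioi).2 (Eventually.of_forall fun x hx => ?_)
  have hx0 : (0 : ℝ) < x := hpi.trans hx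
  have h2 : ∀ m : ℕ, 1 ≤ (m : ℝ) → ‖f (m * x)‖ ≤ M / x := by
    intro m hm
    refine (hb _ (by positivity)).trans ?_
    exact div_le_div_of_nonneg_left hM hx0 (by nlinarith)
  rw [norm_mul, RCLike.norm_conj]
  refine (mul_le_mul (h2 h hh') (h2 k hk') (norm_nonneg _) (by positivity)).trans (le_of_eq ?_)
  rw [Real.rpow_neg hx0.le, show (2 : ℝ) = ((2 : ℕ) : ℝ) by norm_num, Real.rpow_natCast]
  field_simp

private lemma ih_int_near (hEbd : S_Ebd) (ρ : ℝ) (h k : ℕ) (hρ : 0 < ρ) (hρ1 : ρ ≤ 1)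
    (hh : 1 ≤ h) (hk : 1 ≤ k) :
    IntegrableOn (fun x : ℝ => fa ρ (h * x) * (starRingEnd ℂ) (fa ρ (k * x)))
      (Set.Ioc 0 Real.pi) := by
  have hh' : (0 : ℝ) < h := by exact_mod_cast hh
  have hk' : (0 : ℝ) < k := by exact_mod_cast hk
  have hsub : Set.Ioc 0 Real.pi ⊆ Set.Ioi (0 : ℝ) := fun x hx => hx.1
  refine IntegrableOn.of_bound measure_Ioc_lt_top
    (((ih_prod_cont _ (ih_fa_cont ρ hρ) h k hh hk).mono hsub).aestronglyMeasurable
      measurableSet_Ioc) ((3 * Real.exp 5 + (3 / ρ + 1)) ^ 2) ?_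
  refine (ae_restrict_iff' measurableSet_Ioc).2 (Eventually.of_forall fun x hx => ?_)
  rw [norm_mul, RCLike.norm_conj, pow_two]
  exact mul_le_mul (ih_fa_bd2 hEbd ρ _ hρ hρ1 (mul_pos hh' hx.1))
    (ih_fa_bd2 hEbd ρ _ hρ hρ1 (mul_pos hk' hx.1)) (norm_nonneg _) (by positivity)

theorem pIhk (hEbd : S_Ebd) (hI0 : S_I0) (hI1 : S_I1) (hPer : S_Per) (hLam : S_Lam) : S_Ihk := by
  obtain ⟨C0, hC0, h0⟩ := hI0
  obtain ⟨C1, hC1, h1⟩ := hI1
  obtain ⟨C2, hC2, h2⟩ := hPer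
  obtain ⟨c0, C3, hC3, h3⟩ := hLam
  have hpi := Real.pi_pos
  refine ⟨c0 - Real.log (4 * Real.pi), C0 + C1 + C2 + 2 * Real.pi * C3, by positivity, ?_⟩
  intro ρ h k hρ hρ2 hh hk hhk hcond
  have hh' : (1 : ℝ) ≤ h := by exact_mod_cast hh
  have hk' : (1 : ℝ) ≤ k := by exact_mod_cast hk
  have hρ1 : ρ ≤ 1 := by linarith
  have hM : (0 : ℝ) ≤ 3 / ρ + 1 := by positivity
  set F : ℝ → ℂ := fun x => fa ρ (h * x) * (starRingEnd ℂ) (fa ρ (k * x)) with hF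
  set G : ℝ → ℂ := fun x => Ef ρ (h * x) * (starRingEnd ℂ) (Ef ρ (k * x)) with hG
  have hFn : IntegrableOn F (Set.Ioc 0 Real.pi) := ih_int_near hEbd ρ h k hρ hρ1 hh hk
  have hFf : IntegrableOn F (Set.Ioi Real.pi) :=
    ih_int_far _ (ih_fa_cont ρ hρ) _ hM (fun x hx => ih_fa_bd hEbd ρ x hρ hx) h k hh hk
  have hGf : IntegrableOn G (Set.Ioi Real.pi) :=
    ih_int_far _ (ih_Ef_cont ρ hρ) (3 / ρ) (by positivity)
      (fun x hx => ih_Ef_bd hEbd ρ x hρ hx) h k hh hk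
  have e1 : Ihk ρ h k = (∫ x in Set.Ioc 0 Real.pi, F x) + ∫ x in Set.Ioi Real.pi, F x := by
    unfold Ihk
    rw [← Set.Ioc_union_Ioi_eq_Ioi hpi.le]
    exact setIntegral_union (Set.Ioc_disjoint_Ioi le_rfl) measurableSet_Ioi hFn hFf
  have e2 : (∫ x in Set.Ioi Real.pi, F x) = (∫ x in Set.Ioi Real.pi, (F x - G x)) +
      ∫ x in Set.Ioi Real.pi, G x := by
    rw [integral_sub hFf hGf]
    ring
  -- the near part
  have b0 : ‖∫ x in Set.Ioc 0 Real.pi, F x‖ ≤ C0 * (h + k) * (1 + Real.log (1 / ρ)) := by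
    refine (norm_integral_le_integral_norm _).trans ?_
    refine le_trans (le_of_eq ?_) (h0 ρ h k hρ hρ2 hh hk hhk)
    rw [intervalIntegral.integral_of_le hpi.le]
    refine setIntegral_congr_fun measurableSet_Ioc fun x _ => ?_
    rw [hF]
    simp only [norm_mul, RCLike.norm_conj]
  have b1 : ‖∫ x in Set.Ioi Real.pi, (F x - G x)‖ ≤ C1 * (1 + Real.log (1 / ρ)) ^ 2 :=
    (norm_integral_le_integral_norm _).trans (h1 ρ h k hρ hρ2 hh hk)
  have b2 := h2 ρ h k hρ hρ2 hh hk hhk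
  -- the Lambert series
  set τ : ℝ := 4 * Real.pi * h * k * ρ with hτ
  have hτ0 : 0 < τ := by positivity
  have b3 := h3 τ hτ0 hcond
  have e3 : (∑' l : ℕ, 2 * Real.pi / (Real.exp (4 * Real.pi * h * k * (l + 1) * ρ) - 1)) =
      2 * Real.pi * ∑' l : ℕ, 1 / (Real.exp ((l + 1) * τ) - 1) := by
    rw [← tsum_mul_left]
    refine tsum_congr fun l => ?_
    rw [mul_one_div, hτ]
    congr 3
    ring
  have e4 : (Real.log (1 / (h * k * ρ)) + (c0 - Real.log (4 * Real.pi))) / (2 * h * k * ρ) =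
      2 * Real.pi * ((Real.log (1 / τ) + c0) / τ) := by
    have h5 : Real.log (1 / τ) = Real.log (1 / (h * k * ρ)) - Real.log (4 * Real.pi) := by
      rw [← Real.log_div (by positivity) (by positivity), hτ]
      congr 1
      field_simp
    rw [h5, hτ]
    field_simp
    ring
  have b4 : ‖((∑' l : ℕ, 2 * Real.pi /
      (Real.exp (4 * Real.pi * h * k * (l + 1) * ρ) - 1) : ℝ) : ℂ) -
      (((Real.log (1 / (h * k * ρ)) + (c0 - Real.log (4 * Real.pi))) / (2 * h * k * ρ) : ℝ) : ℂ)‖ ≤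
      2 * Real.pi * C3 := by
    rw [← Complex.ofReal_sub, Complex.norm_real, Real.norm_eq_abs, e3, e4, ← mul_sub, abs_mul,
      abs_of_pos (by positivity : (0 : ℝ) < 2 * Real.pi)]
    exact mul_le_mul_of_nonneg_left b3 (by positivity)
  have e5 : Ihk ρ h k - (((Real.log (1 / (h * k * ρ)) + (c0 - Real.log (4 * Real.pi))) /
      (2 * h * k * ρ) : ℝ) : ℂ) = (∫ x in Set.Ioc 0 Real.pi, F x) +
      (∫ x in Set.Ioi Real.pi, (F x - G x)) +
      ((∫ x in Set.Ioi Real.pi, G x) - ((∑' l : ℕ, 2 * Real.pi /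
      (Real.exp (4 * Real.pi * h * k * (l + 1) * ρ) - 1) : ℝ) : ℂ)) +
      (((∑' l : ℕ, 2 * Real.pi /
      (Real.exp (4 * Real.pi * h * k * (l + 1) * ρ) - 1) : ℝ) : ℂ) -
      (((Real.log (1 / (h * k * ρ)) + (c0 - Real.log (4 * Real.pi))) /
      (2 * h * k * ρ) : ℝ) : ℂ)) := by
    rw [e1, e2]
    ring
  rw [e5]
  refine (norm_add_le _ _).trans ?_
  refine (add_le_add ((norm_add_le _ _).trans (add_le_add ((norm_add_le _ _).trans
    (add_le_add b0 b1)) b2)) b4).trans ?_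
  have hlam : 1 ≤ 1 + Real.log (1 / ρ) := by
    have : 0 ≤ Real.log (1 / ρ) := Real.log_nonneg (by
      rw [le_div_iff₀ hρ]; linarith)
    linarith
  set lam : ℝ := 1 + Real.log (1 / ρ) with hlamd
  have hS : (1 : ℝ) ≤ h + k := by linarith
  set S : ℝ := (h : ℝ) + k with hSd
  have hS3 : S ≤ S ^ 3 := by nlinarith [mul_nonneg (by linarith : (0:ℝ) ≤ S) (by nlinarith : (0:ℝ) ≤ S ^ 2 - 1)]
  have hl2 : lam ≤ lam ^ 2 := by nlinarith
  have hS31 : 1 ≤ S ^ 3 := one_le_pow₀ hS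
  have hl21 : 1 ≤ lam ^ 2 := one_le_pow₀ hlam
  have t0 : C0 * S * lam ≤ C0 * (S ^ 3 * lam ^ 2) := by
    rw [mul_assoc]
    exact mul_le_mul_of_nonneg_left (mul_le_mul hS3 hl2 (by linarith) (by linarith)) hC0.le
  have t1 : C1 * lam ^ 2 ≤ C1 * (S ^ 3 * lam ^ 2) := by
    refine mul_le_mul_of_nonneg_left ?_ hC1.le
    nlinarith
  have t2 : C2 * S ^ 3 * lam ≤ C2 * (S ^ 3 * lam ^ 2) := by
    rw [mul_assoc]
    exact mul_le_mul_of_nonneg_left (mul_le_mul_of_nonneg_left hl2 (by linarith)) hC2.le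
  have t3 : 2 * Real.pi * C3 ≤ 2 * Real.pi * C3 * (S ^ 3 * lam ^ 2) := by
    have h6 : 1 ≤ S ^ 3 * lam ^ 2 := by nlinarith
    have h7 : 0 ≤ 2 * Real.pi * C3 := by positivity
    nlinarith
  calc C0 * S * lam + C1 * lam ^ 2 + C2 * S ^ 3 * lam + 2 * Real.pi * C3
      ≤ C0 * (S ^ 3 * lam ^ 2) + C1 * (S ^ 3 * lam ^ 2) + C2 * (S ^ 3 * lam ^ 2) +
        2 * Real.pi * C3 * (S ^ 3 * lam ^ 2) := by linarith
    _ = (C0 + C1 + C2 + 2 * Real.pi * C3) * S ^ 3 * lam ^ 2 := by ring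

end Pool.Agent.Lib.MP_aa9ae4_nt.L1
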