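import Mathlib
import Pool.Agent.Lib.MP_aa9ae4_nt.L1.SpecC

/-!
MP_aa9ae4_nt, Theorem L, `0 < k < 1`. The final Hoelder step (three factors).
-/

namespace Pool.Agent.Lib.MP_aa9ae4_nt.L1

open Finset MeasureTheory Filter Topology
open Complex (I)
open Pool.Agent.Lib.MP_aa9ae4_nt.S1 (pw psumS eulS tail prs nn KK expJ HT fzS y1)

private lemma lb_fzS_cont (σ a T : ℝ) (ha : 0 < a) (hT : 0 < T) :
    ContinuousOn (fun t => ‖fzS σ a t‖) (Set.Icc T (2 * T)) := by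
  apply ContinuousOn.norm
  intro t ht
  have ht0 : 0 < t := lt_of_lt_of_le hT ht.1
  have h1 : ((σ : ℂ) + ((a * t : ℝ) : ℂ) * I) ≠ 1 := by
    intro h2
    have := congrArg Complex.im h2
    simp only [Complex.add_im, Complex.one_im, Complex.mul_im, Complex.ofReal_re, Complex.I_im,
      Complex.ofReal_im, Complex.I_re] at this
    have h3 : a * t = 0 := by linarith
    exact (mul_pos ha ht0).ne' h3
  have h3 : ContinuousAt (fun t : ℝ => (σ : ℂ) + ((a * t : ℝ) : ℂ) * I) t := by fun_prop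
  exact (ContinuousAt.comp (f := fun t : ℝ => (σ : ℂ) + ((a * t : ℝ) : ℂ) * I)
    (differentiableAt_riemannZeta h1).continuousAt h3).continuousWithinAt

private lemma lb_pw_cont (σ : ℝ) (p : ℕ) (hp : p ≠ 0) : Continuous fun u : ℝ => pw σ p u := by
  unfold S1.pw
  apply Continuous.const_cpow (by fun_prop)
  left
  exact_mod_cast hp

private lemma lb_eulS_cont (σ : ℝ) (y z : ℕ) : Continuous fun u : ℝ => eulS σ y z u := by
  unfold S1.eulS
  apply continuous_finsetProd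
  intro p hp
  have hp0 : p ≠ 0 := by
    unfold S1.prs at hp
    exact (mem_filter.1 hp).2.ne_zero
  exact continuous_const.sub (lb_pw_cont σ p hp0)

private lemma lb_MB_cont (n : ℕ) (B : ℕ → Finset ℕ) (R : ℕ → ℕ) (f : ℕ → ℕ → ℝ) (σ : ℝ)
    (hB : ∀ i ∈ range n, ∀ p ∈ B i, p ≠ 0) :
    Continuous fun t : ℝ => MB n B R f (fun p => pw σ p t) := by
  unfold MB
  apply continuous_finsetProd
  intro i hi
  apply continuous_finsetSum
  intro r _
  apply continuous_const.mul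
  apply Continuous.pow
  apply continuous_finsetSum
  intro p hp
  exact lb_pw_cont σ p (hB i hi p hp)

private lemma lb_Bl_ne (η T : ℝ) (i p : ℕ) (hp : p ∈ Bl η T i) : p ≠ 0 := by
  unfold Bl S1.prs at hp
  exact (mem_filter.1 hp).2.ne_zero

private lemma lb_Np_cont (C1 η α T : ℝ) : Continuous fun t : ℝ => Np C1 η α T t :=
  lb_MB_cont _ _ _ _ _ fun i _ p hp => lb_Bl_ne η T i p hp

private lemma lb_compact (σ a T : ℝ) (z : ℕ) (ha : 0 < a) (hT : 0 < T) :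
    IsCompact {t ∈ Set.Icc T (2 * T) | 1 / 2 ≤ ‖fzS σ a t‖ * ‖eulS σ 0 z (a * t)‖} := by
  have hc : ContinuousOn (fun t => ‖fzS σ a t‖ * ‖eulS σ 0 z (a * t)‖) (Set.Icc T (2 * T)) :=
    (lb_fzS_cont σ a T ha hT).mul
      (((lb_eulS_cont σ 0 z).comp (continuous_const.mul continuous_id)).norm.continuousOn)
  have h1 := hc.preimage_isClosed_of_isClosed isClosed_Icc (isClosed_Ici (a := (1 / 2 : ℝ)))
  exact isCompact_Icc.of_isClosed_subset h1 Set.inter_subset_left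

private lemma lb_memLp (K G : Set ℝ) (f : ℝ → ℝ) (p : ENNReal) (hK : IsCompact K)
    (hG : MeasurableSet G) (hGK : G ⊆ K) (hf : ContinuousOn f K) :
    MemLp f p (volume.restrict G) := by
  obtain ⟨C, hC⟩ := hK.exists_bound_of_continuousOn hf
  have : IsFiniteMeasure (volume.restrict G) :=
    ⟨by rw [Measure.restrict_apply_univ]; exact (measure_mono hGK).trans_lt hK.measure_lt_top⟩
  refine MemLp.of_bound ((hf.mono hGK).aestronglyMeasurable hG) C ?_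
  filter_upwards [ae_restrict_mem hG] with t ht
  exact hC t (hGK ht)

/-- Hoelder's inequality for three factors with the exponents `2`, `2/(1-k)`, `2/k` (squared). -/
private lemma lb_holder (K G : Set ℝ) (hK : IsCompact K) (hG : MeasurableSet G) (hGK : G ⊆ K)
    (k : ℝ) (hk0 : 0 < k) (hk1 : k < 1) (f g h : ℝ → ℝ) (hf0 : ∀ t, 0 ≤ f t) (hg0 : ∀ t, 0 ≤ g t)
    (hh0 : ∀ t, 0 ≤ h t) (hf : ContinuousOn f K) (hg : ContinuousOn g K) (hh : ContinuousOn h K) :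
    (∫ t in G, f t * (g t ^ ((1 - k) / 2) * h t ^ (k / 2))) ≤
      (∫ t in G, f t ^ (2 : ℝ)) ^ (1 / (2 : ℝ)) *
        ((∫ t in G, g t) ^ (1 - k) * (∫ t in G, h t) ^ k) ^ (1 / (2 : ℝ)) := by
  have h1k : 0 < 1 - k := by linarith
  have hgc : ContinuousOn (fun t => g t ^ ((1 - k) / 2) * h t ^ (k / 2)) K :=
    (hg.rpow_const fun t _ => Or.inr (by positivity)).mul
      (hh.rpow_const fun t _ => Or.inr (by positivity))
  have hgp : ∀ t, 0 ≤ g t ^ ((1 - k) / 2) * h t ^ (k / 2) := fun t =>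
    mul_nonneg (Real.rpow_nonneg (hg0 t) _) (Real.rpow_nonneg (hh0 t) _)
  have hpq : (2 : ℝ).HolderConjugate 2 := by
    rw [Real.holderConjugate_iff]
    norm_num
  have hH := integral_mul_le_Lp_mul_Lq_of_nonneg (μ := volume.restrict G) hpq
    (Filter.Eventually.of_forall hf0) (Filter.Eventually.of_forall hgp)
    (lb_memLp K G f _ hK hG hGK hf) (lb_memLp K G _ _ hK hG hGK hgc)
  refine hH.trans ?_
  refine mul_le_mul_of_nonneg_left ?_ (Real.rpow_nonneg (integral_nonneg fun t =>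
    Real.rpow_nonneg (hf0 t) _) _)
  refine Real.rpow_le_rpow (integral_nonneg fun t => Real.rpow_nonneg (hgp t) _) ?_ (by norm_num)
  -- second application
  have hpq2 : (1 / (1 - k)).HolderConjugate (1 / k) := by
    rw [Real.holderConjugate_iff]
    refine ⟨by rw [lt_div_iff₀ h1k]; linarith, ?_⟩
    field_simp
    ring
  have hgc2 : ContinuousOn (fun t => g t ^ (1 - k)) K :=
    hg.rpow_const fun t _ => Or.inr (by positivity)
  have hhc2 : ContinuousOn (fun t => h t ^ k) K :=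
    hh.rpow_const fun t _ => Or.inr (by positivity)
  have hH2 := integral_mul_le_Lp_mul_Lq_of_nonneg (μ := volume.restrict G) hpq2
    (f := fun t => g t ^ (1 - k)) (g := fun t => h t ^ k)
    (Filter.Eventually.of_forall fun t => Real.rpow_nonneg (hg0 t) _)
    (Filter.Eventually.of_forall fun t => Real.rpow_nonneg (hh0 t) _)
    (lb_memLp K G _ _ hK hG hGK hgc2) (lb_memLp K G _ _ hK hG hGK hhc2)
  have e1 : ∀ t, (g t ^ ((1 - k) / 2) * h t ^ (k / 2)) ^ (2 : ℝ) = g t ^ (1 - k) * h t ^ k := by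
    intro t
    rw [Real.mul_rpow (Real.rpow_nonneg (hg0 t) _) (Real.rpow_nonneg (hh0 t) _),
      ← Real.rpow_mul (hg0 t), ← Real.rpow_mul (hh0 t)]
    congr 2 <;> ring
  have e2 : ∀ t, (g t ^ (1 - k)) ^ (1 / (1 - k)) = g t := by
    intro t
    rw [← Real.rpow_mul (hg0 t), mul_one_div_cancel h1k.ne', Real.rpow_one]
  have e3 : ∀ t, (h t ^ k) ^ (1 / k) = h t := by
    intro t
    rw [← Real.rpow_mul (hh0 t), mul_one_div_cancel hk0.ne', Real.rpow_one]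
  simp only [e1]
  simp only [e2, e3, one_div_one_div] at hH2
  exact hH2

private lemma lb_num (c C X J A B k : ℝ) (hc : 0 < c) (hC : 0 < C) (hX : 0 < X) (hJ : 0 ≤ J)
    (hA : 0 ≤ A) (hB : 0 ≤ B) (hk0 : 0 < k) (hk1 : k < 1) (hAC : A ≤ C * X) (hBC : B ≤ C * X)
    (h : c * X ≤ J ^ (1 / (2 : ℝ)) * (A ^ (1 - k) * B ^ k) ^ (1 / (2 : ℝ))) :
    c ^ 2 * C⁻¹ * X ≤ J := by
  have h1k : 0 < 1 - k := by linarith
  have hCX : 0 < C * X := by positivity
  have h1 : A ^ (1 - k) * B ^ k ≤ C * X := by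
    calc A ^ (1 - k) * B ^ k ≤ (C * X) ^ (1 - k) * (C * X) ^ k :=
          mul_le_mul (Real.rpow_le_rpow hA hAC h1k.le) (Real.rpow_le_rpow hB hBC hk0.le)
            (Real.rpow_nonneg hB _) (Real.rpow_nonneg hCX.le _)
      _ = C * X := by
          rw [← Real.rpow_add hCX, sub_add_cancel, Real.rpow_one]
  have hAB : 0 ≤ A ^ (1 - k) * B ^ k := mul_nonneg (Real.rpow_nonneg hA _) (Real.rpow_nonneg hB _)
  rw [← Real.sqrt_eq_rpow, ← Real.sqrt_eq_rpow, ← Real.sqrt_mul hJ] at h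
  have h2 : (c * X) ^ 2 ≤ J * (A ^ (1 - k) * B ^ k) := by
    have h3 := pow_le_pow_left₀ (by positivity) h 2
    rwa [Real.sq_sqrt (mul_nonneg hJ hAB)] at h3
  have h4 : (c * X) ^ 2 ≤ J * (C * X) := h2.trans (mul_le_mul_of_nonneg_left h1 hJ)
  have h5 : c ^ 2 * X ≤ J * C := by
    have h6 : (c ^ 2 * X) * X ≤ (J * C) * X := by nlinarith
    exact le_of_mul_le_mul_right h6 hX
  calc c ^ 2 * C⁻¹ * X = (c ^ 2 * X) / C := by field_simp
    _ ≤ J := by rw [div_le_iff₀ hC]; exact h5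

theorem pLB (hMt : S_Mt) (hGs : S_Gs) (hUpp : S_Upp) (hLow : S_Low) (hTz : S_Tz) : S_LB := by
  intro k σ a β hk0 hk1 hσ hσ1 ha
  have hk2 : 0 < 2 * k := by linarith
  have h1k : 0 < 1 - k := by linarith
  obtain ⟨m, hm1, hkm⟩ : ∃ m : ℕ, 1 ≤ m ∧ 2 + 2 / k ≤ 2 * (m : ℝ) := by
    refine ⟨⌈1 + 1 / k⌉₊, ?_, ?_⟩
    · have : 0 < ⌈1 + 1 / k⌉₊ := Nat.ceil_pos.2 (by positivity)
      omega
    · have := Nat.le_ceil (1 + 1 / k)
      calc 2 + 2 / k = 2 * (1 + 1 / k) := by ring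
        _ ≤ _ := by linarith
  have hA : (2 : ℝ) * (k - 1) + 2 / k * k = 2 * k := by
    field_simp
    ring
  obtain ⟨C0, hC0⟩ := hMt
  obtain ⟨C10, hU⟩ := hUpp k 2 (2 / k) m hk0 (by norm_num) (by positivity) hA hkm hm1
  obtain ⟨C10', hTz'⟩ := hTz k C0 hk0 hC0
  obtain ⟨Kz, om, δ, z, gs, hom0, hom1, hδ0, hδ1, hgs⟩ := hGs σ a hσ hσ1 ha
  obtain ⟨C1, hC10, hC10', hC18, hC1k⟩ : ∃ C1 : ℝ, C10 ≤ C1 ∧ C10' ≤ C1 ∧ 8 ≤ C1 ∧
      8 * k ^ 2 * C0 ≤ C1 :=
    ⟨max (max C10 C10') (max 8 (8 * k ^ 2 * C0)), (le_max_left _ _).trans (le_max_left _ _),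
      (le_max_right _ _).trans (le_max_left _ _), (le_max_left _ _).trans (le_max_right _ _),
      (le_max_right _ _).trans (le_max_right _ _)⟩
  have hC1p : 0 < C1 := by linarith
  have hmp : (1 : ℝ) ≤ m := by exact_mod_cast hm1
  obtain ⟨η, hη⟩ : ∃ η : ℝ, η = δ / (400 * m * C1) := ⟨_, rfl⟩
  have hη0 : 0 < η := by rw [hη]; positivity
  have hηm : η * m * C1 = δ / 400 := by
    rw [hη]
    field_simp
  have hη1 : η ≤ 1 := by
    rw [hη, div_le_one (by positivity)]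
    nlinarith
  have hηC : η * C1 ≤ δ / 400 := by
    rw [← hηm]
    have : η * C1 * 1 ≤ η * C1 * m := mul_le_mul_of_nonneg_left hmp (by positivity)
    linarith
  obtain ⟨CU, hCUp, hUe⟩ := hU C1 hC10 η hη0 hη1 (by rw [hηm]; linarith) σ a Kz om δ z gs hσ hσ1 ha
    hom0 hom1 hgs (2 * β)
  obtain ⟨CT, hCTp, hTe⟩ := hTz' C1 η hC10' hη0 hη1 (by linarith)
  obtain ⟨c, hcp, hLe⟩ := hLow k C0 C1 η hk0 hC0 hC18 hC1k hη0 hη1 (by linarith) σ a Kz om δ z gs
    hδ0 hδ1 (by linarith) hgs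
  obtain ⟨C, hCp, hCU, hCT⟩ : ∃ C : ℝ, 0 < C ∧ CU ≤ C ∧ CT ≤ C :=
    ⟨max CU CT, lt_max_of_lt_left hCUp, le_max_left _ _, le_max_right _ _⟩
  refine ⟨c ^ 2 * C⁻¹, by positivity, ?_⟩
  filter_upwards [hUe, hTe, hLe, hgs, eventually_gt_atTop (1 : ℝ)] with T hUT hTT hLT hgT hT1
  obtain ⟨-, -, hGm, hGI, -, hGp⟩ := hgT
  have hT0 : 0 < T := by linarith
  have hlog : 0 < Real.log T := Real.log_pos hT1
  obtain ⟨X, hX⟩ : ∃ X : ℝ, X = T * Real.log T ^ (k ^ 2) := ⟨_, rfl⟩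
  have hXp : 0 < X := by rw [hX]; positivity
  obtain ⟨G, hG⟩ : ∃ G, G = gs T := ⟨_, rfl⟩
  rw [← hG] at hGm hGI hGp hUT hLT
  obtain ⟨K, hK⟩ : ∃ K, K = {t ∈ Set.Icc T (2 * T) |
      1 / 2 ≤ ‖fzS σ a t‖ * ‖eulS σ 0 (z T) (a * t)‖} := ⟨_, rfl⟩
  have hKc : IsCompact K := by rw [hK]; exact lb_compact σ a T (z T) ha hT0
  have hKI : K ⊆ Set.Icc T (2 * T) := by rw [hK]; exact fun t ht => ht.1
  have hGK : G ⊆ K := by rw [hK]; exact fun t ht => ⟨hGI ht, (hGp t ht).2.1⟩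
  have hypos : ∀ t ∈ K, ‖fzS σ a t‖ ≠ 0 := by
    intro t ht h0
    rw [hK] at ht
    have := ht.2
    rw [h0, zero_mul] at this
    linarith
  have hyc : ContinuousOn (fun t => ‖fzS σ a t‖) K :=
    (lb_fzS_cont σ a T ha hT0).mono hKI
  obtain ⟨x, hx⟩ : ∃ x : ℝ → ℝ, x = fun t : ℝ => ‖riemannZeta (1 / 2 + t * I)‖ := ⟨_, rfl⟩
  obtain ⟨y, hy⟩ : ∃ y : ℝ → ℝ, y = fun t => ‖fzS σ a t‖ := ⟨_, rfl⟩
  obtain ⟨N₁, hN₁⟩ : ∃ N₁ : ℝ → ℝ, N₁ = fun t => ‖Np C1 η (k - 1) T t‖ := ⟨_, rfl⟩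
  obtain ⟨N₂, hN₂⟩ : ∃ N₂ : ℝ → ℝ, N₂ = fun t => ‖Np C1 η k T t‖ := ⟨_, rfl⟩
  have hx0 : ∀ t, 0 ≤ x t := fun t => by rw [hx]; exact norm_nonneg _
  have hy0 : ∀ t, 0 ≤ y t := fun t => by rw [hy]; exact norm_nonneg _
  have hN₁0 : ∀ t, 0 ≤ N₁ t := fun t => by rw [hN₁]; exact norm_nonneg _
  have hN₂0 : ∀ t, 0 ≤ N₂ t := fun t => by rw [hN₂]; exact norm_nonneg _
  have hyp : ∀ t ∈ K, 0 < y t := fun t ht => by
    rw [hy]
    exact lt_of_le_of_ne (norm_nonneg _) (Ne.symm (hypos t ht))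
  have hxc : Continuous x := by rw [hx]; exact fin_cont_half.norm
  have hN₁c : Continuous N₁ := by rw [hN₁]; exact (lb_Np_cont _ _ _ _).norm
  have hN₂c : Continuous N₂ := by rw [hN₂]; exact (lb_Np_cont _ _ _ _).norm
  rw [← hy] at hyc
  -- the three functions
  obtain ⟨f, hf⟩ : ∃ f : ℝ → ℝ, f = fun t => (x t / y t ^ β) ^ k := ⟨_, rfl⟩
  obtain ⟨g, hg⟩ : ∃ g : ℝ → ℝ, g = fun t => x t ^ 2 * N₁ t ^ 2 := ⟨_, rfl⟩
  obtain ⟨h, hh⟩ : ∃ h : ℝ → ℝ, h = fun t => N₁ t ^ (2 : ℝ) * N₂ t ^ (2 / k) * y t ^ (2 * β) :=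
    ⟨_, rfl⟩
  have hxy0 : ∀ t, 0 ≤ x t / y t ^ β := fun t => div_nonneg (hx0 t) (Real.rpow_nonneg (hy0 t) _)
  have hf0 : ∀ t, 0 ≤ f t := fun t => by rw [hf]; exact Real.rpow_nonneg (hxy0 t) _
  have hg0 : ∀ t, 0 ≤ g t := fun t => by rw [hg]; positivity
  have hh0 : ∀ t, 0 ≤ h t := fun t => by
    rw [hh]
    exact mul_nonneg (mul_nonneg (Real.rpow_nonneg (hN₁0 t) _) (Real.rpow_nonneg (hN₂0 t) _))
      (Real.rpow_nonneg (hy0 t) _)
  have hxyc : ContinuousOn (fun t => x t / y t ^ β) K :=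
    hxc.continuousOn.div (hyc.rpow_const fun t ht => Or.inl (hyp t ht).ne') fun t ht =>
      (Real.rpow_pos_of_pos (hyp t ht) _).ne'
  have hfc : ContinuousOn f K := by
    rw [hf]
    exact hxyc.rpow_const fun t _ => Or.inr hk0.le
  have hgc : Continuous g := by rw [hg]; exact (hxc.pow 2).mul (hN₁c.pow 2)
  have hhc : ContinuousOn h K := by
    rw [hh]
    refine (ContinuousOn.mul ?_ ?_).mul (hyc.rpow_const fun t ht => Or.inl (hyp t ht).ne')
    · exact hN₁c.continuousOn.rpow_const fun t _ => Or.inr (by norm_num)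
    · exact hN₂c.continuousOn.rpow_const fun t _ => Or.inr (by positivity)
  have hH := lb_holder K G hKc hGm hGK k hk0 hk1 f g h hf0 hg0 hh0 hfc hgc.continuousOn hhc
  -- the left side
  have e1 : ∫ t in G, f t * (g t ^ ((1 - k) / 2) * h t ^ (k / 2)) = ∫ t in G,
      ‖riemannZeta (1 / 2 + t * I)‖ * ‖Np C1 η (k - 1) T t‖ * ‖Np C1 η k T t‖ := by
    apply setIntegral_congr_fun hGm
    intro t ht
    have hyt : 0 < y t := hyp t (hGK ht)
    have hyb : 0 < y t ^ β := Real.rpow_pos_of_pos hyt _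
    have h1 : f t = x t ^ k * (y t ^ (β * k))⁻¹ := by
      rw [hf]
      change (x t / y t ^ β) ^ k = _
      rw [Real.div_rpow (hx0 t) hyb.le, ← Real.rpow_mul hyt.le, div_eq_mul_inv]
    have h2 : g t ^ ((1 - k) / 2) = x t ^ (1 - k) * N₁ t ^ (1 - k) := by
      rw [hg]
      change (x t ^ 2 * N₁ t ^ 2) ^ ((1 - k) / 2) = _
      rw [Real.mul_rpow (by positivity) (by positivity), ← Real.rpow_natCast,
        ← Real.rpow_natCast, ← Real.rpow_mul (hx0 t), ← Real.rpow_mul (hN₁0 t)]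
      congr 2 <;> (push_cast; ring)
    have h3 : h t ^ (k / 2) = N₁ t ^ k * N₂ t * y t ^ (β * k) := by
      rw [hh]
      change (N₁ t ^ (2 : ℝ) * N₂ t ^ (2 / k) * y t ^ (2 * β)) ^ (k / 2) = _
      rw [Real.mul_rpow (mul_nonneg (Real.rpow_nonneg (hN₁0 t) _) (Real.rpow_nonneg (hN₂0 t) _))
        (Real.rpow_nonneg (hy0 t) _), Real.mul_rpow (Real.rpow_nonneg (hN₁0 t) _)
        (Real.rpow_nonneg (hN₂0 t) _), ← Real.rpow_mul (hN₁0 t), ← Real.rpow_mul (hN₂0 t),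
        ← Real.rpow_mul (hy0 t)]
      have e4 : (2 : ℝ) * (k / 2) = k := by ring
      have e5 : 2 / k * (k / 2) = 1 := by field_simp
      have e6 : 2 * β * (k / 2) = β * k := by ring
      rw [e4, e5, e6, Real.rpow_one]
    have h4 : x t ^ k * x t ^ (1 - k) = x t := by
      rcases (hx0 t).eq_or_lt with h0 | h0
      · rw [← h0, Real.zero_rpow hk0.ne', zero_mul]
      · rw [← Real.rpow_add h0, add_sub_cancel, Real.rpow_one]
    have h5 : N₁ t ^ (1 - k) * N₁ t ^ k = N₁ t := by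
      rcases (hN₁0 t).eq_or_lt with h0 | h0
      · rw [← h0, Real.zero_rpow hk0.ne', mul_zero]
      · rw [← Real.rpow_add h0, sub_add_cancel, Real.rpow_one]
    have h6 : y t ^ (β * k) ≠ 0 := (Real.rpow_pos_of_pos hyt _).ne'
    calc f t * (g t ^ ((1 - k) / 2) * h t ^ (k / 2))
        = (x t ^ k * x t ^ (1 - k)) * (N₁ t ^ (1 - k) * N₁ t ^ k) * N₂ t *
          ((y t ^ (β * k))⁻¹ * y t ^ (β * k)) := by rw [h1, h2, h3]; ring
      _ = x t * N₁ t * N₂ t := by rw [h4, h5, inv_mul_cancel₀ h6, mul_one]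
      _ = _ := by rw [hx, hN₁, hN₂]
  have e2 : ∀ t, f t ^ (2 : ℝ) = (x t / y t ^ β) ^ (2 * k) := by
    intro t
    rw [hf]
    change ((x t / y t ^ β) ^ k) ^ (2 : ℝ) = _
    rw [← Real.rpow_mul (hxy0 t), mul_comm k 2]
  rw [e1] at hH
  simp only [e2] at hH
  -- the bounds
  have hA : ∫ t in G, g t ≤ C * X := by
    calc ∫ t in G, g t ≤ ∫ t in Set.Icc T (2 * T), g t :=
          setIntegral_mono_set (hgc.integrableOn_Icc) (Filter.Eventually.of_forall fun t => hg0 t)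
            (Filter.Eventually.of_forall hGI)
      _ = ∫ t in T..(2 * T), ‖riemannZeta (1 / 2 + t * I)‖ ^ 2 * ‖Np C1 η (k - 1) T t‖ ^ 2 := by
          rw [intervalIntegral.integral_of_le (by linarith), integral_Icc_eq_integral_Ioc, hg, hx,
            hN₁]
      _ ≤ CT * (T * Real.log T ^ (k ^ 2)) := hTT
      _ ≤ C * X := by rw [hX]; exact mul_le_mul_of_nonneg_right hCT (by positivity)
  have hB : ∫ t in G, h t ≤ C * X := by
    calc ∫ t in G, h t = ∫ t in G, ‖Np C1 η (k - 1) T t‖ ^ (2 : ℝ) *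
          ‖Np C1 η k T t‖ ^ (2 / k) * ‖fzS σ a t‖ ^ (2 * β) := by rw [hh, hN₁, hN₂, hy]
      _ ≤ CU * T * Real.log T ^ (k ^ 2) := hUT
      _ = CU * X := by rw [hX]; ring
      _ ≤ C * X := mul_le_mul_of_nonneg_right hCU hXp.le
  have hcX : c * X ≤ ∫ t in G,
      ‖riemannZeta (1 / 2 + t * I)‖ * ‖Np C1 η (k - 1) T t‖ * ‖Np C1 η k T t‖ := by
    calc c * X = c * T * Real.log T ^ (k ^ 2) := by rw [hX]; ring
      _ ≤ _ := hLT
  have hJ0 : 0 ≤ ∫ t in G, (x t / y t ^ β) ^ (2 * k) :=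
    integral_nonneg fun t => Real.rpow_nonneg (hxy0 t) _
  have h3 : c ^ 2 * C⁻¹ * X ≤ ∫ t in G, (x t / y t ^ β) ^ (2 * k) :=
    lb_num c C X _ _ _ k hcp hCp hXp hJ0 (integral_nonneg hg0) (integral_nonneg hh0) hk0 hk1 hA hB
      (hcX.trans hH)
  have hint : Integrable (fun t => (x t / y t ^ β) ^ (2 * k)) (volume.restrict G) := by
    have h4 : ContinuousOn (fun t => (x t / y t ^ β) ^ (2 * k)) K :=
      hxyc.rpow_const fun t _ => Or.inr hk2.le
    exact (h4.integrableOn_compact hKc).mono_set hGK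
  calc ENNReal.ofReal (c ^ 2 * C⁻¹ * T * Real.log T ^ (k ^ 2))
      ≤ ENNReal.ofReal (∫ t in G, (x t / y t ^ β) ^ (2 * k)) := by
        apply ENNReal.ofReal_le_ofReal
        calc _ = c ^ 2 * C⁻¹ * X := by rw [hX]; ring
          _ ≤ _ := h3
    _ = ∫⁻ t in G, ENNReal.ofReal ((x t / y t ^ β) ^ (2 * k)) :=
        ofReal_integral_eq_lintegral_ofReal hint
          (Filter.Eventually.of_forall fun t => Real.rpow_nonneg (hxy0 t) _)
    _ ≤ ∫⁻ t in Set.Icc T (2 * T), ENNReal.ofReal ((x t / y t ^ β) ^ (2 * k)) :=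
        lintegral_mono_set hGI
    _ = _ := by
        congr 1
        funext t
        rw [hx, hy]
        simp only [S1.fzS]
        push_cast
        rfl

end Pool.Agent.Lib.MP_aa9ae4_nt.L1
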