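import Pool.Agent.Lib.MP_aa9ae4_nt.L1.SpecC

/-!
MP_aa9ae4_nt, Theorem L, part C: the Mellin transform of `fa` (helper7)
-/

namespace Pool.Agent.Lib.MP_aa9ae4_nt.L1

open Finset MeasureTheory Filter Topology
open Complex (I)

private theorem mel_re (ρ : ℝ) : (av ρ).re = ρ := by
  unfold av
  simp

private theorem mel_ne0 {ρ : ℝ} (hρ : 0 < ρ) : av ρ ≠ 0 := by
  intro h
  have h1 := mel_re ρ
  rw [h, Complex.zero_re] at h1
  exact hρ.ne h1

private theorem mel_norm (ρ x : ℝ) : ‖Complex.exp (av ρ * x)‖ = Real.exp (ρ * x) := by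
  rw [Complex.norm_exp, Complex.re_mul_ofReal, mel_re]

private theorem mel_ne {ρ x : ℝ} (hρ : 0 < ρ) (hx : 0 < x) : Complex.exp (av ρ * x) - 1 ≠ 0 := by
  intro h
  have h1 : Complex.exp (av ρ * x) = 1 := sub_eq_zero.1 h
  have h2 := mel_norm ρ x
  rw [h1, norm_one] at h2
  have h3 : 1 < Real.exp (ρ * x) := Real.one_lt_exp_iff.2 (mul_pos hρ hx)
  exact h3.ne h2

private theorem mel_contE {ρ : ℝ} (hρ : 0 < ρ) : ContinuousOn (Ef ρ) (Set.Ioi 0) := by
  unfold Ef
  refine ContinuousOn.inv₀ ?_ fun x hx => mel_ne hρ hx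
  fun_prop

private theorem mel_contF {ρ : ℝ} (hρ : 0 < ρ) : ContinuousOn (fa ρ) (Set.Ioi 0) := by
  unfold fa
  refine (mel_contE hρ).sub (ContinuousOn.inv₀ (by fun_prop) fun x hx => ?_)
  exact mul_ne_zero (mel_ne0 hρ) (Complex.ofReal_ne_zero.2 (ne_of_gt hx))

private theorem mel_top {ρ : ℝ} (hρ : 0 < ρ) :
    (Ef ρ) =O[atTop] fun x : ℝ => Real.exp (-ρ * x) := by
  have h0 : 0 < 1 - Real.exp (-ρ) := by
    have : Real.exp (-ρ) < 1 := Real.exp_lt_one_iff.2 (by linarith)
    linarith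
  refine Asymptotics.IsBigO.of_bound (1 - Real.exp (-ρ))⁻¹ ?_
  filter_upwards [eventually_ge_atTop (1 : ℝ)] with x hx
  unfold Ef
  rw [norm_inv, Real.norm_eq_abs, abs_of_pos (Real.exp_pos _)]
  have h1 : Real.exp (ρ * x) * (1 - Real.exp (-ρ)) ≤ ‖Complex.exp (av ρ * x) - 1‖ := by
    have h2 := norm_sub_norm_le (Complex.exp (av ρ * x)) 1
    rw [norm_one, mel_norm] at h2
    refine le_trans ?_ h2
    have h3 : 1 ≤ Real.exp (ρ * x) * Real.exp (-ρ) := by
      rw [← Real.exp_add]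
      exact Real.one_le_exp (by nlinarith)
    linarith
  have h4 : Real.exp (-ρ * x) = (Real.exp (ρ * x))⁻¹ := by
    rw [neg_mul, Real.exp_neg]
  rw [h4, ← mul_inv, mul_comm (1 - Real.exp (-ρ))]
  exact inv_anti₀ (mul_pos (Real.exp_pos _) h0) h1

/-- `fa` is bounded near `0` -/
private theorem mel_bot {ρ : ℝ} (hρ : 0 < ρ) :
    (fa ρ) =O[𝓝[>] 0] fun x : ℝ => x ^ (-(0 : ℝ)) := by
  refine Asymptotics.IsBigO.of_bound 2 ?_
  have ha := norm_pos_iff.2 (mel_ne0 hρ)
  have h1 : ∀ᶠ x : ℝ in 𝓝[>] 0, x < (2 * ‖av ρ‖)⁻¹ :=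
    mem_nhdsWithin_of_mem_nhds (Iio_mem_nhds (by positivity))
  filter_upwards [h1, self_mem_nhdsWithin] with x hx1 hx0
  have hx0' : (0 : ℝ) < x := hx0
  rw [neg_zero, Real.rpow_zero, norm_one, mul_one]
  obtain ⟨w, hw⟩ : ∃ w, w = av ρ * x := ⟨_, rfl⟩
  have hw0 : 0 < ‖w‖ := by
    rw [hw, norm_mul, Complex.norm_real, Real.norm_eq_abs, abs_of_pos hx0']
    positivity
  have hw1 : ‖w‖ ≤ 1 / 2 := by
    rw [hw, norm_mul, Complex.norm_real, Real.norm_eq_abs, abs_of_pos hx0']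
    have h2 : x * (2 * ‖av ρ‖) ≤ 1 := by
      have := mul_le_mul_of_nonneg_right hx1.le (by positivity : 0 ≤ 2 * ‖av ρ‖)
      rwa [inv_mul_cancel₀ (by positivity)] at this
    linarith
  have hwn : w ≠ 0 := norm_pos_iff.1 hw0
  have he : Complex.exp w - 1 ≠ 0 := by
    rw [hw]
    exact mel_ne hρ hx0'
  have h3 : fa ρ x = -(Complex.exp w - 1 - w) / (w * (Complex.exp w - 1)) := by
    unfold fa Ef
    rw [← hw]
    field_simp
    ring
  have h4 := Complex.norm_exp_sub_one_sub_id_le (x := w) (by linarith)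
  have h5 : ‖w‖ / 2 ≤ ‖Complex.exp w - 1‖ := by
    have h6 := norm_sub_norm_le w (-(Complex.exp w - 1 - w))
    rw [norm_neg] at h6
    have h7 : w - -(Complex.exp w - 1 - w) = Complex.exp w - 1 := by ring
    rw [h7] at h6
    nlinarith
  rw [h3, norm_div, norm_neg, norm_mul, div_le_iff₀ (mul_pos hw0 (norm_pos_iff.2 he))]
  nlinarith

private theorem mel_sum {ρ x : ℝ} (hρ : 0 < ρ) (hx : 0 < x) :
    HasSum (fun n : ℕ => Complex.exp (-(((n : ℂ) + 1) * av ρ * x))) (Ef ρ x) := by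
  have h1 : ‖Complex.exp (-(av ρ * x))‖ < 1 := by
    rw [Complex.exp_neg, norm_inv, mel_norm]
    exact inv_lt_one_of_one_lt₀ (Real.one_lt_exp_iff.2 (mul_pos hρ hx))
  have h2 := (hasSum_geometric_of_norm_lt_one h1).mul_left (Complex.exp (-(av ρ * x)))
  have h3 : Complex.exp (-(av ρ * x)) * (1 - Complex.exp (-(av ρ * x)))⁻¹ = Ef ρ x := by
    unfold Ef
    have h4 := Complex.exp_ne_zero (av ρ * x)
    have h5 := mel_ne hρ hx
    rw [Complex.exp_neg]
    have h6 : 1 - (Complex.exp (av ρ * x))⁻¹ = (Complex.exp (av ρ * x) - 1) /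
        Complex.exp (av ρ * x) := by
      field_simp
    rw [h6, inv_div, ← mul_div_assoc, inv_mul_cancel₀ h4, one_div]
  rw [h3] at h2
  have h7 : (fun n : ℕ => Complex.exp (-(((n : ℂ) + 1) * av ρ * x))) =
      fun n : ℕ => Complex.exp (-(av ρ * x)) * Complex.exp (-(av ρ * x)) ^ n := by
    funext n
    rw [← Complex.exp_nat_mul, ← Complex.exp_add]
    congr 1
    ring
  rw [h7]
  exact h2

private theorem mel_one {c s : ℂ} (hc : 0 < c.re) (hs : 0 < s.re) :
    MellinConvergent (fun x : ℝ => Complex.exp (-(c * x))) s := by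
  refine mellinConvergent_of_isBigO_rpow_exp hc (b := 0) ?_ ?_ ?_ hs
  · exact (Continuous.continuousOn (by fun_prop)).locallyIntegrableOn measurableSet_Ioi
  · refine Asymptotics.IsBigO.of_bound 1 (Eventually.of_forall fun x => ?_)
    rw [Complex.norm_exp, Complex.neg_re, Complex.re_mul_ofReal, Real.norm_eq_abs,
      abs_of_pos (Real.exp_pos _), one_mul, neg_mul]
  · refine Asymptotics.IsBigO.of_bound 1 ?_
    filter_upwards [self_mem_nhdsWithin] with x hx
    have hx' : (0 : ℝ) < x := hx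
    rw [neg_zero, Real.rpow_zero, norm_one, mul_one, Complex.norm_exp, Complex.neg_re,
      Complex.re_mul_ofReal]
    exact Real.exp_le_one_iff.2 (by nlinarith [mul_pos hc hx'])

private theorem mel_intg {a c : ℝ} (ha : -1 < a) (hc : 0 < c) :
    IntegrableOn (fun t : ℝ => t ^ a * Real.exp (-(c * t))) (Set.Ioi 0) := by
  refine (integrableOn_rpow_mul_exp_neg_mul_rpow ha one_pos hc).congr_fun (fun t _ => ?_)
    measurableSet_Ioi
  simp only [Real.rpow_one, neg_mul]

private theorem mel_nt (a r : ℂ) {t : ℝ} (ht : 0 < t) :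
    ‖(t : ℂ) ^ a * Complex.exp (-(r * t))‖ = t ^ a.re * Real.exp (-(r.re * t)) := by
  rw [norm_mul, Complex.norm_cpow_eq_rpow_re_of_pos ht, Complex.norm_exp]
  congr 2
  simp

private theorem mel_meas (a r : ℂ) : Measurable fun t : ℝ => (t : ℂ) ^ a * Complex.exp (-(r * t)) := by
  refine (Complex.measurable_ofReal.pow_const a).mul ?_
  exact Complex.measurable_exp.comp ((measurable_const.mul Complex.measurable_ofReal).neg)

private theorem mel_hasDeriv {s r₀ : ℂ} (hs : 0 < s.re) (hr : 0 < r₀.re) :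
    DifferentiableAt ℂ
      (fun r => ∫ t : ℝ in Set.Ioi 0, (t : ℂ) ^ (s - 1) * Complex.exp (-(r * t))) r₀ := by
  have hnhds : {r : ℂ | r₀.re / 2 < r.re} ∈ 𝓝 r₀ :=
    (isOpen_lt continuous_const Complex.continuous_re).mem_nhds
      (show r₀.re / 2 < r₀.re by linarith)
  have h := hasDerivAt_integral_of_dominated_loc_of_deriv_le (𝕜 := ℂ)
    (μ := volume.restrict (Set.Ioi (0 : ℝ))) (x₀ := r₀)
    (F := fun r (t : ℝ) => (t : ℂ) ^ (s - 1) * Complex.exp (-(r * t)))
    (F' := fun r (t : ℝ) => (t : ℂ) ^ (s - 1) * (Complex.exp (-(r * t)) * (-(t : ℂ))))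
    (bound := fun t : ℝ => t ^ s.re * Real.exp (-(r₀.re / 2 * t))) hnhds
    (Eventually.of_forall fun r => (mel_meas (s - 1) r).aestronglyMeasurable)
    ?_ ?_ ?_ ?_ ?_
  · exact h.2.differentiableAt
  · have h1 : IntegrableOn (fun t : ℝ => t ^ (s.re - 1) * Real.exp (-(r₀.re * t))) (Set.Ioi 0) :=
      mel_intg (by linarith) hr
    refine Integrable.mono' h1 (mel_meas (s - 1) r₀).aestronglyMeasurable ?_
    filter_upwards [ae_restrict_mem measurableSet_Ioi] with t ht
    rw [mel_nt _ _ ht]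
    simp
  · have e : (fun t : ℝ => (t : ℂ) ^ (s - 1) * (Complex.exp (-(r₀ * t)) * (-(t : ℂ)))) =
        fun t : ℝ => ((t : ℂ) ^ (s - 1) * Complex.exp (-(r₀ * t))) * (-(t : ℂ)) := by
      funext t; ring
    rw [e]
    exact ((mel_meas (s - 1) r₀).mul Complex.measurable_ofReal.neg).aestronglyMeasurable
  · filter_upwards [ae_restrict_mem measurableSet_Ioi] with t ht r hr'
    have ht' : (0 : ℝ) < t := ht
    have hr'' : r₀.re / 2 < r.re := hr'
    rw [← mul_assoc, norm_mul, mel_nt _ _ ht', norm_neg, Complex.norm_real,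
      Real.norm_of_nonneg ht'.le]
    have e : t ^ (s - 1).re * Real.exp (-(r.re * t)) * t =
        t ^ s.re * Real.exp (-(r.re * t)) := by
      rw [Complex.sub_re, Complex.one_re, Real.rpow_sub ht', Real.rpow_one]
      field_simp
    rw [e]
    refine mul_le_mul_of_nonneg_left (Real.exp_le_exp.mpr ?_) (by positivity)
    nlinarith
  · exact mel_intg (by linarith) (by linarith)
  · filter_upwards [ae_restrict_mem measurableSet_Ioi] with t ht r hr'
    refine HasDerivAt.const_mul _ ?_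
    refine HasDerivAt.cexp ?_
    have h5 := ((hasDerivAt_id r).mul_const (t : ℂ)).neg
    rw [one_mul] at h5
    exact h5

/-- complex frequency -/
private theorem mel_gamma {s : ℂ} (hs : 0 < s.re) {r : ℂ} (hr : 0 < r.re) :
    ∫ t : ℝ in Set.Ioi 0, (t : ℂ) ^ (s - 1) * Complex.exp (-(r * t)) =
      (1 / r) ^ s * Complex.Gamma s := by
  set U : Set ℂ := {r : ℂ | 0 < r.re} with hU
  have hUo : IsOpen U := isOpen_lt continuous_const Complex.continuous_re
  have hUc : IsPreconnected U := (convex_halfSpace_re_gt 0).isPreconnected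
  have d1 : DifferentiableOn ℂ
      (fun r => ∫ t : ℝ in Set.Ioi 0, (t : ℂ) ^ (s - 1) * Complex.exp (-(r * t))) U :=
    fun r hr => (mel_hasDeriv hs hr).differentiableWithinAt
  have d2 : DifferentiableOn ℂ (fun r : ℂ => (1 / r) ^ s * Complex.Gamma s) U := by
    intro r hr
    have hr' : 0 < r.re := hr
    have hr0 : r ≠ 0 := by
      rintro rfl
      simp at hr'
    have hd : DifferentiableAt ℂ (fun r : ℂ => 1 / r) r := by
      simp only [one_div]
      exact differentiableAt_inv hr0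
    refine ((hd.cpow_const ?_).mul_const _).differentiableWithinAt
    left
    rw [one_div, Complex.inv_re]
    exact div_pos hr' (Complex.normSq_pos.mpr hr0)
  have h1 : (1 : ℂ) ∈ U := by simp [hU]
  have hfreq : ∃ᶠ z in 𝓝[≠] (1 : ℂ),
      (∫ t : ℝ in Set.Ioi 0, (t : ℂ) ^ (s - 1) * Complex.exp (-(z * t))) =
        (1 / z) ^ s * Complex.Gamma s := by
    have hseq : Tendsto (fun n : ℕ => ((1 + 1 / ((n : ℝ) + 1) : ℝ) : ℂ)) atTop (𝓝[≠] 1) := by
      rw [tendsto_nhdsWithin_iff]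
      constructor
      · have h2 : Tendsto (fun n : ℕ => (1 + 1 / ((n : ℝ) + 1) : ℝ)) atTop (𝓝 (1 + 0)) :=
          tendsto_const_nhds.add tendsto_one_div_add_atTop_nhds_zero_nat
        rw [add_zero] at h2
        have h3 := (Complex.continuous_ofReal.tendsto _).comp h2
        rw [Complex.ofReal_one] at h3
        exact h3
      · refine Eventually.of_forall fun n => ?_
        have : (1 + 1 / ((n : ℝ) + 1) : ℝ) ≠ 1 := by
          have : (0 : ℝ) < 1 / ((n : ℝ) + 1) := by positivity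
          linarith
        rw [Set.mem_compl_iff, Set.mem_singleton_iff]
        exact_mod_cast this
    refine hseq.frequently (Frequently.of_forall fun n => ?_)
    have hpos : (0 : ℝ) < 1 + 1 / ((n : ℝ) + 1) := by positivity
    exact Complex.integral_cpow_mul_exp_neg_mul_Ioi hs hpos
  exact (d1.analyticOnNhd hUo).eqOn_of_preconnected_of_frequently_eq (d2.analyticOnNhd hUo) hUc h1
    hfreq hr

/-- the Mellin transform of `Ef` for `Re s > 1` -/
private theorem mel_E {ρ : ℝ} (hρ : 0 < ρ) {s : ℂ} (hs : 1 < s.re) :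
    mellin (Ef ρ) s = av ρ ^ (-s) * Complex.Gamma s * riemannZeta s := by
  have hs0 : 0 < s.re := by linarith
  have ha0 := mel_ne0 hρ
  have hre : ∀ n : ℕ, (((n : ℂ) + 1) * av ρ).re = ((n : ℝ) + 1) * ρ := by
    intro n
    have : ((n : ℂ) + 1) = (((n : ℝ) + 1 : ℝ) : ℂ) := by push_cast; rfl
    rw [this, Complex.re_ofReal_mul, mel_re]
  have hre0 : ∀ n : ℕ, 0 < (((n : ℂ) + 1) * av ρ).re := by
    intro n
    rw [hre]
    positivity
  have h1 : HasSum (fun n : ℕ => ∫ x in Set.Ioi (0 : ℝ),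
      (x : ℂ) ^ (s - 1) * Complex.exp (-(((n : ℂ) + 1) * av ρ * x))) (∫ x in Set.Ioi (0 : ℝ),
      ∑' n : ℕ, (x : ℂ) ^ (s - 1) * Complex.exp (-(((n : ℂ) + 1) * av ρ * x))) := by
    refine hasSum_integral_of_summable_integral_norm (fun n => mel_one (hre0 n) hs0) ?_
    have h2 : ∀ n : ℕ, ∫ x in Set.Ioi (0 : ℝ),
        ‖(x : ℂ) ^ (s - 1) * Complex.exp (-(((n : ℂ) + 1) * av ρ * x))‖ =
        Real.Gamma s.re * (1 / ρ) ^ s.re * (1 / ((n : ℝ) + 1) ^ s.re) := by
      intro n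
      have h3 := Real.integral_rpow_mul_exp_neg_mul_Ioi hs0 (hre0 n)
      rw [hre] at h3
      have h4 : (1 / (((n : ℝ) + 1) * ρ)) ^ s.re = (1 / ρ) ^ s.re * (1 / ((n : ℝ) + 1) ^ s.re) := by
        rw [one_div, mul_inv, Real.mul_rpow (by positivity) (by positivity), one_div, one_div,
          Real.inv_rpow (by positivity) s.re, mul_comm]
      rw [h4] at h3
      rw [mul_assoc, mul_comm (Real.Gamma s.re), ← h3]
      refine setIntegral_congr_fun measurableSet_Ioi fun x hx => ?_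
      have hx' : (0 : ℝ) < x := hx
      rw [norm_mul, Complex.norm_cpow_eq_rpow_re_of_pos hx', Complex.sub_re, Complex.one_re,
        Complex.norm_exp, Complex.neg_re, Complex.re_mul_ofReal, hre]
    rw [summable_congr h2]
    refine Summable.mul_left _ ?_
    have h5 := (summable_nat_add_iff 1).2 (Real.summable_one_div_nat_rpow.2 hs)
    refine h5.congr fun n => ?_
    push_cast
    rfl
  have h2 : mellin (Ef ρ) s = ∫ x in Set.Ioi (0 : ℝ),
      ∑' n : ℕ, (x : ℂ) ^ (s - 1) * Complex.exp (-(((n : ℂ) + 1) * av ρ * x)) := by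
    unfold mellin
    refine setIntegral_congr_fun measurableSet_Ioi fun x hx => ?_
    rw [tsum_mul_left, (mel_sum hρ hx).tsum_eq, smul_eq_mul]
  have h3 : ∀ n : ℕ, ∫ x in Set.Ioi (0 : ℝ),
      (x : ℂ) ^ (s - 1) * Complex.exp (-(((n : ℂ) + 1) * av ρ * x)) =
      (av ρ ^ (-s) * Complex.Gamma s) * (1 / ((n : ℂ) + 1) ^ s) := by
    intro n
    rw [mel_gamma hs0 (hre0 n)]
    have h4 : (1 / (((n : ℂ) + 1) * av ρ)) ^ s = av ρ ^ (-s) * (1 / ((n : ℂ) + 1) ^ s) := by
      have hn : (0 : ℝ) < (n : ℝ) + 1 := by positivity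
      have hnc : ((n : ℂ) + 1) = (((n : ℝ) + 1 : ℝ) : ℂ) := by push_cast; rfl
      have hn0 : ((n : ℂ) + 1) ≠ 0 := Nat.cast_add_one_ne_zero n
      have harg : (((n : ℂ) + 1) * av ρ).arg ≠ Real.pi := by
        rw [hnc, Complex.arg_real_mul _ hn]
        intro h
        have h5 := (Complex.arg_eq_pi_iff.1 h).1
        rw [mel_re] at h5
        linarith
      rw [one_div, Complex.inv_cpow _ _ harg, hnc, Complex.cpow_def_of_ne_zero
        (mul_ne_zero (Complex.ofReal_ne_zero.2 hn.ne') ha0), Complex.log_ofReal_mul hn ha0,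
        Complex.cpow_neg, Complex.cpow_def_of_ne_zero ha0, Complex.cpow_def_of_ne_zero
        (Complex.ofReal_ne_zero.2 hn.ne'), add_mul, Complex.exp_add, Complex.ofReal_log hn.le,
        mul_inv, one_div, mul_comm]
    rw [h4]
    ring
  rw [h2, ← h1.tsum_eq, tsum_congr h3, tsum_mul_left, zeta_eq_tsum_one_div_nat_add_one_cpow hs]

/-- `1/x` on `(1, ∞)` -/
private noncomputable def mel_i (x : ℝ) : ℂ :=
  Set.indicator (Set.Ioi 1) (fun t : ℝ => (t : ℂ) ^ (-1 : ℂ)) x

private theorem mel_hi {s : ℂ} (hs : s.re < 1) : HasMellin mel_i s (-(1 / (s - 1))) := by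
  have h1 : (fun t : ℝ => (t : ℂ) ^ (s - 1) • mel_i t) =
      Set.indicator (Set.Ioi 1) (fun t : ℝ => (t : ℂ) ^ (s - 2)) := by
    funext t
    unfold mel_i
    by_cases ht : t ∈ Set.Ioi (1 : ℝ)
    · have ht0 : (t : ℂ) ≠ 0 := by
        have : (1 : ℝ) < t := ht
        exact Complex.ofReal_ne_zero.2 (by linarith)
      rw [Set.indicator_of_mem ht, Set.indicator_of_mem ht, smul_eq_mul,
        ← Complex.cpow_add _ _ ht0]
      congr 1
      ring
    · rw [Set.indicator_of_notMem ht, Set.indicator_of_notMem ht, smul_zero]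
  have hre : (s - 2).re < -1 := by
    rw [Complex.sub_re]
    norm_num
    linarith
  have h2 : IntegrableOn (fun t : ℝ => (t : ℂ) ^ (s - 2)) (Set.Ioi 1) :=
    integrableOn_Ioi_cpow_of_lt hre one_pos
  constructor
  · unfold MellinConvergent
    rw [h1]
    exact (h2.integrable_indicator measurableSet_Ioi).integrableOn
  · unfold mellin
    rw [h1, setIntegral_indicator measurableSet_Ioi, Set.inter_eq_right.2
      (Set.Ioi_subset_Ioi zero_le_one), integral_Ioi_cpow_of_lt hre one_pos, Complex.ofReal_one,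
      Complex.one_cpow]
    have h3 : s - 2 + 1 = s - 1 := by ring
    rw [h3]
    ring

/-- `fa` on `(0, 1]`, `Ef` on `(1, ∞)` -/
private noncomputable def mel_f (ρ x : ℝ) : ℂ := fa ρ x + (av ρ)⁻¹ • mel_i x

private theorem mel_loc {ρ : ℝ} (hρ : 0 < ρ) : LocallyIntegrableOn (mel_f ρ) (Set.Ioi 0) := by
  have h1 : LocallyIntegrableOn (fa ρ) (Set.Ioi 0) :=
    (mel_contF hρ).locallyIntegrableOn measurableSet_Ioi
  have h2 : LocallyIntegrableOn (fun t : ℝ => (t : ℂ) ^ (-1 : ℂ)) (Set.Ioi 0) := by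
    refine ContinuousOn.locallyIntegrableOn (fun t ht => ?_) measurableSet_Ioi
    exact (Complex.continuousAt_ofReal_cpow_const _ _
      (Or.inr (ne_of_gt ht))).continuousWithinAt
  intro x hx
  obtain ⟨U, hU, h3⟩ := h1 x hx
  obtain ⟨V, hV, h4⟩ := h2 x hx
  refine ⟨U ∩ V, inter_mem hU hV, ?_⟩
  have h5 : IntegrableOn mel_i V := h4.indicator measurableSet_Ioi
  exact (h3.mono_set Set.inter_subset_left).add
    ((h5.mono_set Set.inter_subset_right).smul ((av ρ)⁻¹))

private theorem mel_ftop {ρ : ℝ} (hρ : 0 < ρ) :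
    (mel_f ρ) =O[atTop] fun x : ℝ => Real.exp (-ρ * x) := by
  refine Asymptotics.IsBigO.congr' (mel_top hρ) ?_ (EventuallyEq.refl _ _)
  filter_upwards [eventually_gt_atTop (1 : ℝ)] with x hx
  have h1 : mel_i x = (x : ℂ)⁻¹ := by
    unfold mel_i
    rw [Set.indicator_of_mem (show x ∈ Set.Ioi (1 : ℝ) from hx), Complex.cpow_neg_one]
  unfold mel_f fa
  rw [h1, smul_eq_mul, mul_inv]
  ring

private theorem mel_fbot {ρ : ℝ} (hρ : 0 < ρ) :
    (mel_f ρ) =O[𝓝[>] 0] fun x : ℝ => x ^ (-(0 : ℝ)) := by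
  refine Asymptotics.IsBigO.congr' (mel_bot hρ) ?_ (EventuallyEq.refl _ _)
  have h1 : ∀ᶠ x : ℝ in 𝓝[>] 0, x < 1 :=
    mem_nhdsWithin_of_mem_nhds (Iio_mem_nhds one_pos)
  filter_upwards [h1] with x hx
  unfold mel_f mel_i
  rw [Set.indicator_of_notMem (by simpa using hx.le), smul_zero, add_zero]

private theorem mel_big {ρ : ℝ} (hρ : 0 < ρ) {s : ℂ} (hs : 1 < s.re) :
    mellin (mel_f ρ) s = av ρ ^ (-s) * Complex.Gamma s * riemannZeta s -
      (av ρ)⁻¹ * (1 / (s - 1)) := by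
  have h1 : MellinConvergent (mel_f ρ) s :=
    mellinConvergent_of_isBigO_rpow_exp hρ (mel_loc hρ) (mel_ftop hρ) (mel_fbot hρ)
      (by linarith)
  have h2 := hasMellin_cpow_Ioc (-1) (s := s) (by
    rw [Complex.neg_re, Complex.one_re]
    linarith)
  have h3 := hasMellin_const_smul h2.1 ((av ρ)⁻¹)
  have h4 := (hasMellin_add h1 h3.1).2
  rw [h3.2, h2.2] at h4
  have h5 : mellin (fun t => mel_f ρ t + (av ρ)⁻¹ •
      Set.indicator (Set.Ioc 0 1) (fun t : ℝ => (t : ℂ) ^ (-1 : ℂ)) t) s = mellin (Ef ρ) s := by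
    unfold mellin
    refine setIntegral_congr_fun measurableSet_Ioi fun x hx => ?_
    have hx' : (0 : ℝ) < x := hx
    have h6 : mel_f ρ x + (av ρ)⁻¹ •
        Set.indicator (Set.Ioc 0 1) (fun t : ℝ => (t : ℂ) ^ (-1 : ℂ)) x = Ef ρ x := by
      unfold mel_f mel_i
      rcases le_or_gt x 1 with h | h
      · rw [Set.indicator_of_notMem (by simpa using h), Set.indicator_of_mem
          (show x ∈ Set.Ioc (0 : ℝ) 1 from ⟨hx', h⟩), smul_zero, add_zero, Complex.cpow_neg_one]
        unfold fa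
        rw [smul_eq_mul, mul_inv]
        ring
      · rw [Set.indicator_of_mem (show x ∈ Set.Ioi (1 : ℝ) from h), Set.indicator_of_notMem
          (fun h' => absurd h'.2 (not_le.2 h)), smul_zero, add_zero, Complex.cpow_neg_one]
        unfold fa
        rw [smul_eq_mul, mul_inv]
        ring
    simp only
    rw [h6]
  rw [h5, mel_E hρ hs] at h4
  rw [h4, smul_eq_mul]
  have h7 : s + -1 = s - 1 := by ring
  rw [h7]
  ring

/-- a convex set which contains `1/2 + it` but not `1` -/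
private noncomputable def mel_W (ε : ℝ) : Set ℂ :=
  (Complex.reLm ⁻¹' Set.Ioi 0) ∩ ((ε • Complex.imLm - Complex.reLm) ⁻¹' Set.Ioi (-(3 / 4)))

private theorem mel_memW {ε : ℝ} {s : ℂ} :
    s ∈ mel_W ε ↔ 0 < s.re ∧ s.re < ε * s.im + 3 / 4 := by
  unfold mel_W
  rw [Set.mem_inter_iff, Set.mem_preimage, Set.mem_preimage, Set.mem_Ioi, Set.mem_Ioi,
    LinearMap.sub_apply, LinearMap.smul_apply, Complex.reLm_coe, Complex.imLm_coe, smul_eq_mul]
  constructor
  · rintro ⟨h1, h2⟩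
    exact ⟨h1, by linarith⟩
  · rintro ⟨h1, h2⟩
    exact ⟨h1, by linarith⟩

private theorem mel_id {ρ : ℝ} (hρ : 0 < ρ) {ε : ℝ} (hε : ε * ε = 1) {s : ℂ}
    (hs : s ∈ mel_W ε) :
    mellin (mel_f ρ) s = av ρ ^ (-s) * Complex.Gamma s * riemannZeta s -
      (av ρ)⁻¹ * (1 / (s - 1)) := by
  have hWc : IsPreconnected (mel_W ε) := by
    refine (Convex.inter ?_ ?_).isPreconnected
    · exact (convex_Ioi (0 : ℝ)).linear_preimage _
    · exact (convex_Ioi (-(3 / 4) : ℝ)).linear_preimage _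
  have hWo : IsOpen (mel_W ε) := by
    have h1 : mel_W ε = {s : ℂ | 0 < s.re} ∩ {s : ℂ | s.re < ε * s.im + 3 / 4} := by
      ext s
      exact mel_memW
    rw [h1]
    exact (isOpen_lt continuous_const Complex.continuous_re).inter
      (isOpen_lt Complex.continuous_re (by fun_prop))
  have d1 : DifferentiableOn ℂ (mellin (mel_f ρ)) (mel_W ε) := by
    intro s hs
    exact (mellin_differentiableAt_of_isBigO_rpow_exp hρ (mel_loc hρ) (mel_ftop hρ)
      (mel_fbot hρ) (mel_memW.1 hs).1).differentiableWithinAt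
  have d2 : DifferentiableOn ℂ (fun s => av ρ ^ (-s) * Complex.Gamma s * riemannZeta s -
      (av ρ)⁻¹ * (1 / (s - 1))) (mel_W ε) := by
    intro s hs
    obtain ⟨h1, h2⟩ := mel_memW.1 hs
    have hs1 : s ≠ 1 := by
      rintro rfl
      rw [Complex.one_re, Complex.one_im] at h2
      linarith
    have e1 : DifferentiableAt ℂ (fun s : ℂ => av ρ ^ (-s)) s :=
      differentiableAt_id.neg.const_cpow (Or.inl (mel_ne0 hρ))
    have e2 : DifferentiableAt ℂ Complex.Gamma s := by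
      refine Complex.differentiableAt_Gamma s fun m h => ?_
      rw [h, Complex.neg_re, Complex.natCast_re] at h1
      have : (0 : ℝ) ≤ m := Nat.cast_nonneg m
      linarith
    have e3 : DifferentiableAt ℂ riemannZeta s := differentiableAt_riemannZeta hs1
    have e4 : DifferentiableAt ℂ (fun s : ℂ => 1 / (s - 1)) s :=
      (differentiableAt_const _).div (differentiableAt_id.sub_const 1) (sub_ne_zero.2 hs1)
    exact (((e1.mul e2).mul e3).sub (e4.const_mul _)).differentiableWithinAt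
  have hz : (2 + ((10 * ε : ℝ) : ℂ) * I) ∈ mel_W ε := by
    rw [mel_memW]
    constructor
    · simp
    · simp
      nlinarith
  refine (d1.analyticOnNhd hWo).eqOn_of_preconnected_of_eventuallyEq (d2.analyticOnNhd hWo) hWc
    hz ?_ hs
  have h1 : {s : ℂ | 1 < s.re} ∈ 𝓝 (2 + ((10 * ε : ℝ) : ℂ) * I) := by
    refine (isOpen_lt continuous_const Complex.continuous_re).mem_nhds ?_
    simp
  filter_upwards [h1] with s hs
  exact mel_big hρ hs

theorem pMel : S_Mel := by
  intro ρ t hρ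
  obtain ⟨s, hs⟩ : ∃ s : ℂ, s = 1 / 2 + t * I := ⟨_, rfl⟩
  have hre : s.re = 1 / 2 := by
    rw [hs]
    simp
  have him : s.im = t := by
    rw [hs]
    simp
  rw [← hs]
  have hid : mellin (mel_f ρ) s = av ρ ^ (-s) * Complex.Gamma s * riemannZeta s -
      (av ρ)⁻¹ * (1 / (s - 1)) := by
    rcases le_total 0 t with h | h
    · exact mel_id hρ (ε := 1) (by norm_num) (mel_memW.2 ⟨by rw [hre]; norm_num, by
        rw [hre, him]; linarith⟩)
    · exact mel_id hρ (ε := -1) (by norm_num) (mel_memW.2 ⟨by rw [hre]; norm_num, by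
        rw [hre, him]; linarith⟩)
  have h1 : MellinConvergent (mel_f ρ) s :=
    mellinConvergent_of_isBigO_rpow_exp hρ (mel_loc hρ) (mel_ftop hρ) (mel_fbot hρ)
      (by rw [hre]; norm_num)
  have h2 := mel_hi (s := s) (by rw [hre]; norm_num)
  have h3 := hasMellin_const_smul h2.1 ((av ρ)⁻¹)
  have h4 := hasMellin_sub h1 h3.1
  have h5 : (fun x => mel_f ρ x - (av ρ)⁻¹ • mel_i x) = fa ρ := by
    funext x
    unfold mel_f
    ring
  rw [h5, h3.2, h2.2, hid] at h4
  refine ⟨h4.1, ?_⟩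
  rw [h4.2, smul_eq_mul]
  ring

end Pool.Agent.Lib.MP_aa9ae4_nt.L1
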