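import Mathlib
import Pool.Agent.Lib.MP_aa9ae4_nt.L1.SpecC

/-!
MP_aa9ae4_nt, Theorem L, part C: sum over the periods.
-/

namespace Pool.Agent.Lib.MP_aa9ae4_nt.L1

open Finset MeasureTheory Filter Topology
open Complex (I)

/-! ### the distance to `2 π ℤ` -/

private noncomputable def per_d (v : ℝ) : ℝ := ‖((v : ℝ) : AddCircle (2 * Real.pi))‖

private lemma per_d_nonneg (v : ℝ) : 0 ≤ per_d v := norm_nonneg _

private lemma per_d_spec (v : ℝ) :
    ∃ n : ℤ, per_d v = |v - 2 * Real.pi * n| ∧ |v - 2 * Real.pi * n| ≤ Real.pi := by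
  have hp := Real.pi_pos
  refine ⟨round ((2 * Real.pi)⁻¹ * v), ?_, ?_⟩
  · unfold per_d
    rw [AddCircle.norm_eq, mul_comm (2 * Real.pi)]
  · have h1 := AddCircle.norm_le_half_period (2 * Real.pi) (x := ((v : ℝ) : AddCircle (2 * Real.pi)))
      (by positivity)
    rw [AddCircle.norm_eq, abs_of_pos (show 0 < 2 * Real.pi by positivity)] at h1
    rw [mul_comm (2 * Real.pi)]
    linarith

private lemma per_d_eq (v : ℝ) (hv : |v| ≤ Real.pi) : per_d v = |v| := by
  have hp := Real.pi_pos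
  unfold per_d
  rw [AddCircle.norm_coe_eq_abs_iff (2 * Real.pi) (by positivity),
    abs_of_pos (show 0 < 2 * Real.pi by positivity)]
  linarith

private lemma per_d_neg (v : ℝ) : per_d (-v) = per_d v := by
  unfold per_d
  rw [AddCircle.coe_neg, norm_neg]

private lemma per_d_cont : Continuous per_d :=
  continuous_norm.comp (AddCircle.continuous_mk' (2 * Real.pi))

private lemma per_d_per : Function.Periodic per_d (2 * Real.pi) := by
  intro v
  unfold per_d
  rw [AddCircle.coe_add_period]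

private lemma per_d_le (v : ℝ) : per_d v ≤ Real.pi := by
  obtain ⟨n, h1, h2⟩ := per_d_spec v
  rw [h1]; exact h2

/-! ### the function `1/(e^w - 1)` -/

private noncomputable def per_E (w : ℂ) : ℂ := (Complex.exp w - 1)⁻¹

/-- the bound for `per_E` -/
private noncomputable def per_G (h : ℕ) (v y : ℝ) : ℝ :=
  3 * Real.exp (-(h * v) / 2) / (h * v + per_d (h * y))

private lemma per_ne (u v : ℝ) (hu : 0 < u) : Complex.exp ((u : ℂ) + v * I) - 1 ≠ 0 := by
  intro h
  have h1 : Complex.exp ((u : ℂ) + v * I) = 1 := by linear_combination h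
  have h2 : ‖Complex.exp ((u : ℂ) + v * I)‖ = Real.exp u := by
    rw [Complex.norm_exp]
    congr 1
    simp
  rw [h1, norm_one] at h2
  have h3 : 1 < Real.exp u := Real.one_lt_exp_iff.2 hu
  linarith

private lemma per_E_le (hE : S_Ebd) (u₀ u v : ℝ) (hu₀ : 0 < u₀) (hu : u₀ ≤ u) :
    ‖per_E ((u : ℂ) + v * I)‖ ≤ 3 * Real.exp (-u₀ / 2) / (u₀ + per_d v) := by
  obtain ⟨n, h1, h2⟩ := per_d_spec v
  have h3 := hE.1 u v n (by linarith) h2
  rw [← h1] at h3
  unfold per_E
  refine h3.trans ?_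
  have h4 := per_d_nonneg v
  have h5 : Real.exp (-u / 2) ≤ Real.exp (-u₀ / 2) := Real.exp_le_exp.2 (by linarith)
  exact div_le_div₀ (by positivity) (by linarith) (by linarith) (by linarith)

private lemma per_E_diff (u u' v : ℝ) (hu : 0 < u) (huu : u ≤ u') :
    ‖per_E ((u' : ℂ) + v * I) - per_E ((u : ℂ) + v * I)‖ ≤
      (u' - u) * (1 + ‖per_E ((u' : ℂ) + v * I)‖) * ‖per_E ((u : ℂ) + v * I)‖ := by
  have h1 := per_ne u v hu
  have h2 := per_ne u' v (by linarith)
  set r : ℝ := Real.exp (-(u' - u)) with hr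
  have hr1 : Complex.exp ((u : ℂ) + v * I) = Complex.exp ((u' : ℂ) + v * I) * (r : ℂ) := by
    rw [hr, Complex.ofReal_exp, ← Complex.exp_add]
    congr 1
    push_cast
    ring
  have h3 : per_E ((u' : ℂ) + v * I) - per_E ((u : ℂ) + v * I) =
      ((r : ℂ) - 1) * (1 + per_E ((u' : ℂ) + v * I)) * per_E ((u : ℂ) + v * I) := by
    unfold per_E
    have h4 : 1 + (Complex.exp ((u' : ℂ) + v * I) - 1)⁻¹ =
        Complex.exp ((u' : ℂ) + v * I) * (Complex.exp ((u' : ℂ) + v * I) - 1)⁻¹ := by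
      field_simp
      ring
    rw [h4, inv_sub_inv h2 h1, hr1]
    rw [hr1] at h1
    field_simp
    ring
  rw [h3, norm_mul, norm_mul]
  have h5 : ‖((r : ℂ) - 1)‖ ≤ u' - u := by
    rw [← Complex.ofReal_one, ← Complex.ofReal_sub, Complex.norm_real, Real.norm_eq_abs, abs_le]
    have h6 := Real.add_one_le_exp (-(u' - u))
    have h7 : r ≤ 1 := Real.exp_le_one_iff.2 (by linarith)
    rw [← hr] at h6
    constructor <;> linarith
  have h6 : ‖1 + per_E ((u' : ℂ) + v * I)‖ ≤ 1 + ‖per_E ((u' : ℂ) + v * I)‖ := by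
    refine (norm_add_le _ _).trans ?_
    rw [norm_one]
  exact mul_le_mul_of_nonneg_right (mul_le_mul h5 h6 (norm_nonneg _) (by linarith)) (norm_nonneg _)

private noncomputable def per_P (h k : ℕ) (u y : ℝ) : ℂ :=
  per_E ((h : ℂ) * ((u : ℂ) + y * I)) * per_E ((k : ℂ) * ((u : ℂ) - y * I))

private lemma per_w1 (h : ℕ) (u y : ℝ) :
    (h : ℂ) * ((u : ℂ) + y * I) = ((h * u : ℝ) : ℂ) + ((h * y : ℝ) : ℂ) * I := by
  push_cast; ring

private lemma per_w2 (k : ℕ) (u y : ℝ) :
    (k : ℂ) * ((u : ℂ) - y * I) = ((k * u : ℝ) : ℂ) + ((-(k * y) : ℝ) : ℂ) * I := by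
  push_cast; ring

private lemma per_G_nonneg (h : ℕ) (v y : ℝ) (hv : 0 < v) : 0 ≤ per_G h v y := by
  unfold per_G
  have := per_d_nonneg (h * y)
  positivity

private lemma per_e1 (hE : S_Ebd) (h : ℕ) (hh : 1 ≤ h) (v u y : ℝ) (hv : 0 < v) (hu : v ≤ u) :
    ‖per_E ((h : ℂ) * ((u : ℂ) + y * I))‖ ≤ per_G h v y := by
  have hh0 : (0 : ℝ) < h := by exact_mod_cast hh
  rw [per_w1]
  exact per_E_le hE (h * v) (h * u) (h * y) (by positivity) (mul_le_mul_of_nonneg_left hu hh0.le)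

private lemma per_e2 (hE : S_Ebd) (k : ℕ) (hk : 1 ≤ k) (v u y : ℝ) (hv : 0 < v) (hu : v ≤ u) :
    ‖per_E ((k : ℂ) * ((u : ℂ) - y * I))‖ ≤ per_G k v y := by
  have hk0 : (0 : ℝ) < k := by exact_mod_cast hk
  rw [per_w2]
  have h1 := per_E_le hE (k * v) (k * u) (-(k * y)) (by positivity)
    (mul_le_mul_of_nonneg_left hu hk0.le)
  rw [per_d_neg] at h1
  exact h1

private lemma per_P_diff0 (hE : S_Ebd) (h k : ℕ) (hh : 1 ≤ h) (hk : 1 ≤ k) (v u u' y : ℝ)
    (hv : 0 < v) (hu : v ≤ u) (huu : u ≤ u') :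
    ‖per_P h k u' y - per_P h k u y‖ ≤ (u' - u) * (per_G h v y * per_G k v y *
      (h * (1 + per_G h v y) + k * (1 + per_G k v y))) := by
  have hh0 : (0 : ℝ) < h := by exact_mod_cast hh
  have hk0 : (0 : ℝ) < k := by exact_mod_cast hk
  have a1 := per_e1 hE h hh v u y hv hu
  have a1' := per_e1 hE h hh v u' y hv (hu.trans huu)
  have a2 := per_e2 hE k hk v u y hv hu
  have a2' := per_e2 hE k hk v u' y hv (hu.trans huu)
  have g1 := per_G_nonneg h v y hv
  have g2 := per_G_nonneg k v y hv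
  have d1 := per_E_diff (h * u) (h * u') (h * y) (by have := hv.trans_le hu; positivity)
    (mul_le_mul_of_nonneg_left huu hh0.le)
  have d2 := per_E_diff (k * u) (k * u') (-(k * y)) (by have := hv.trans_le hu; positivity)
    (mul_le_mul_of_nonneg_left huu hk0.le)
  rw [← per_w1, ← per_w1] at d1
  rw [← per_w2, ← per_w2] at d2
  set A := per_E ((h : ℂ) * ((u : ℂ) + y * I)) with hA
  set A' := per_E ((h : ℂ) * ((u' : ℂ) + y * I)) with hA'
  set B := per_E ((k : ℂ) * ((u : ℂ) - y * I)) with hB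
  set B' := per_E ((k : ℂ) * ((u' : ℂ) - y * I)) with hB'
  set G := per_G h v y with hG
  set H := per_G k v y with hH
  have hd : 0 ≤ u' - u := by linarith
  have e1 : ‖A' - A‖ ≤ (h * (u' - u)) * (1 + G) * G := by
    refine d1.trans ?_
    have h1 : (h : ℝ) * u' - h * u = h * (u' - u) := by ring
    rw [h1]
    refine mul_le_mul (mul_le_mul_of_nonneg_left (by linarith) (by positivity)) a1 (norm_nonneg _)
      (by positivity)
  have e2 : ‖B' - B‖ ≤ (k * (u' - u)) * (1 + H) * H := by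
    refine d2.trans ?_
    have h1 : (k : ℝ) * u' - k * u = k * (u' - u) := by ring
    rw [h1]
    refine mul_le_mul (mul_le_mul_of_nonneg_left (by linarith) (by positivity)) a2 (norm_nonneg _)
      (by positivity)
  have e3 : per_P h k u' y - per_P h k u y = (A' - A) * B' + A * (B' - B) := by
    unfold per_P
    rw [← hA, ← hA', ← hB, ← hB']
    ring
  rw [e3]
  calc ‖(A' - A) * B' + A * (B' - B)‖ ≤ ‖A' - A‖ * ‖B'‖ + ‖A‖ * ‖B' - B‖ := by
        refine (norm_add_le _ _).trans ?_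
        rw [norm_mul, norm_mul]
    _ ≤ ((h * (u' - u)) * (1 + G) * G) * H + G * ((k * (u' - u)) * (1 + H) * H) :=
        add_le_add (mul_le_mul e1 a2' (norm_nonneg _) (by positivity))
          (mul_le_mul a1 e2 (norm_nonneg _) g1)
    _ = _ := by ring

private lemma per_P_diff (hE : S_Ebd) (h k : ℕ) (hh : 1 ≤ h) (hk : 1 ≤ k) (v u u' y : ℝ)
    (hv : 0 < v) (hu : v ≤ u) (hu' : v ≤ u') :
    ‖per_P h k u' y - per_P h k u y‖ ≤ |u' - u| * (per_G h v y * per_G k v y *
      (h * (1 + per_G h v y) + k * (1 + per_G k v y))) := by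
  rcases le_total u u' with h1 | h1
  · rw [abs_of_nonneg (by linarith)]
    exact per_P_diff0 hE h k hh hk v u u' y hv hu h1
  · rw [abs_of_nonpos (by linarith), norm_sub_rev, neg_sub]
    exact per_P_diff0 hE h k hh hk v u' u y hv hu' h1

/-! ### the pointwise bound -/

private lemma per_key (h k : ℕ) (hh : 1 ≤ h) (hk : 1 ≤ k) (hc : Nat.Coprime h k) (y : ℝ)
    (hy : |y| ≤ Real.pi) (hn : ¬ (|(h : ℝ) * y| ≤ Real.pi ∧ |(k : ℝ) * y| ≤ Real.pi)) :
    Real.pi ≤ k * per_d (h * y) ∨ Real.pi ≤ h * per_d (k * y) := by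
  have hp := Real.pi_pos
  have hh0 : (0 : ℝ) < h := by exact_mod_cast hh
  have hk0 : (0 : ℝ) < k := by exact_mod_cast hk
  obtain ⟨n, n1, n2⟩ := per_d_spec (h * y)
  obtain ⟨m, m1, m2⟩ := per_d_spec (k * y)
  rw [← n1] at n2
  rw [← m1] at m2
  have hne : n * k ≠ m * h := by
    intro he
    have hco : IsCoprime (h : ℤ) (k : ℤ) := Nat.isCoprime_iff_coprime.2 hc
    have h1 : (h : ℤ) ∣ n := by
      have : (h : ℤ) ∣ n * k := by rw [he]; exact Dvd.intro_left _ rfl
      exact hco.dvd_of_dvd_mul_right this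
    obtain ⟨j, rfl⟩ := h1
    have h2 : m = k * j := by
      have h3 : (h : ℤ) * (m - k * j) = 0 := by linear_combination -he
      rcases mul_eq_zero.1 h3 with h4 | h4
      · exfalso
        have : (h : ℤ) = 0 := h4
        omega
      · linarith
    subst h2
    by_cases hj : j = 0
    · subst hj
      refine hn ⟨?_, ?_⟩
      · have := per_d_le (h * y)
        rw [n1] at this
        simpa using this
      · have := per_d_le (k * y)
        rw [m1] at this
        simpa using this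
    · have hj1 : (1 : ℝ) ≤ |(j : ℝ)| := by
        rw [← Int.cast_abs]
        exact_mod_cast Int.one_le_abs hj
      have key : ∀ a : ℕ, 1 ≤ a → |(a : ℝ) * y - 2 * Real.pi * ((a : ℤ) * j : ℤ)| ≤ Real.pi →
          |(a : ℝ) * y| ≤ Real.pi := by
        intro a ha h5
        have ha0 : (1 : ℝ) ≤ a := by exact_mod_cast ha
        have h6 : |2 * Real.pi * (((a : ℤ) * j : ℤ) : ℝ)| = 2 * Real.pi * a * |(j : ℝ)| := by
          push_cast
          have h60 : 2 * Real.pi * ((a : ℝ) * j) = (2 * Real.pi * a) * j := by ring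
          rw [h60, abs_mul, abs_of_pos (show 0 < 2 * Real.pi * a by positivity)]
        have h7 : |2 * Real.pi * (((a : ℤ) * j : ℤ) : ℝ)| ≤
            |(a : ℝ) * y| + |(a : ℝ) * y - 2 * Real.pi * ((a : ℤ) * j : ℤ)| := by
          have h8 := abs_sub_abs_le_abs_sub (2 * Real.pi * (((a : ℤ) * j : ℤ) : ℝ)) ((a : ℝ) * y)
          rw [abs_sub_comm] at h8
          linarith
        have h9 : |(a : ℝ) * y| = a * |y| := by
          rw [abs_mul, abs_of_pos (show (0 : ℝ) < a by linarith)]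
        rw [h6] at h7
        rw [h9] at h7 ⊢
        have h10 : 2 * Real.pi * a * 1 ≤ 2 * Real.pi * a * |(j : ℝ)| :=
          mul_le_mul_of_nonneg_left hj1 (by positivity)
        have h11 : (a : ℝ) * |y| ≤ a * Real.pi := mul_le_mul_of_nonneg_left hy (by linarith)
        have h12 : Real.pi * a ≤ Real.pi * 1 := by nlinarith
        have h13 : (a : ℝ) ≤ 1 := le_of_mul_le_mul_left h12 hp
        nlinarith [abs_nonneg y]
      refine hn ⟨key h hh ?_, key k hk ?_⟩
      · rw [← n1]; exact n2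
      · rw [← m1]; exact m2
  have h1 : (1 : ℝ) ≤ |(n : ℝ) * k - m * h| := by
    have h2 : n * k - m * h ≠ 0 := sub_ne_zero.2 hne
    have h3 : (1 : ℤ) ≤ |n * k - m * h| := Int.one_le_abs h2
    have h4 : ((1 : ℤ) : ℝ) ≤ ((|n * k - m * h| : ℤ) : ℝ) := by exact_mod_cast h3
    push_cast at h4
    exact h4
  have h2 : 2 * Real.pi ≤ k * per_d (h * y) + h * per_d (k * y) := by
    rw [n1, m1]
    calc 2 * Real.pi ≤ 2 * Real.pi * |(n : ℝ) * k - m * h| := by nlinarith
      _ = |h * (k * y - 2 * Real.pi * m) - k * (h * y - 2 * Real.pi * n)| := by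
          rw [← abs_of_pos (show 0 < 2 * Real.pi by positivity), ← abs_mul,
            abs_of_pos (show 0 < 2 * Real.pi by positivity)]
          congr 1
          ring
      _ ≤ |h * (k * y - 2 * Real.pi * m)| + |k * (h * y - 2 * Real.pi * n)| := abs_sub _ _
      _ = k * |h * y - 2 * Real.pi * n| + h * |k * y - 2 * Real.pi * m| := by
          rw [abs_mul, abs_mul, abs_of_pos hh0, abs_of_pos hk0]
          ring
  by_contra hcon
  push Not at hcon
  linarith [hcon.1, hcon.2]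

private lemma per_core (y e x z a b h k : ℝ) (hy : 0 ≤ y) (hx : 0 < x) (hz : 0 < z) (ha : 0 < a)
    (ha1 : a ≤ 1) (hb : 0 < b) (hb1 : b ≤ 1) (hab : a * b ≤ e) (hh : 1 ≤ h) (hk : 1 ≤ k) :
    y * ((3 * a * x) * (3 * b * z) * (h * (1 + 3 * a * x) + k * (1 + 3 * b * z))) ≤
      9 * e * y * x * z * (h + k + 3 * h * x + 3 * k * z) := by
  have h1 : h * (1 + 3 * a * x) + k * (1 + 3 * b * z) ≤ h + k + 3 * h * x + 3 * k * z := by
    have h2 : a * (h * x) ≤ 1 * (h * x) := mul_le_mul_of_nonneg_right ha1 (by positivity)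
    have h3 : b * (k * z) ≤ 1 * (k * z) := mul_le_mul_of_nonneg_right hb1 (by positivity)
    nlinarith
  have he : 0 ≤ e := (by positivity : 0 ≤ a * b).trans hab
  calc y * ((3 * a * x) * (3 * b * z) * (h * (1 + 3 * a * x) + k * (1 + 3 * b * z)))
      = (a * b) * ((9 * y * x * z) * (h * (1 + 3 * a * x) + k * (1 + 3 * b * z))) := by ring
    _ ≤ e * ((9 * y * x * z) * (h + k + 3 * h * x + 3 * k * z)) := by
        refine mul_le_mul hab (mul_le_mul_of_nonneg_left h1 (by positivity)) (by positivity) he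
    _ = _ := by ring

private lemma per_case1 (y e x z w h k v : ℝ) (hy : 0 ≤ y) (hy4 : y ≤ 4) (he : 0 ≤ e) (hx : 0 < x)
    (hz : 0 < z) (hh : 1 ≤ h) (hk : 1 ≤ k) (hxw : x ≤ w) (hzw : z ≤ w) (hhx : h * x = w)
    (hkz : k * z = w) (hyw : y * w ≤ 1) (hv : 0 ≤ v) :
    9 * e * y * x * z * (h + k + 3 * h * x + 3 * k * z) ≤
      200 * (h + k) ^ 3 * e * ((5 + v) * w ^ 2) := by
  have hw : 0 < w := hx.trans_le hxw
  have h1 : h + k + 3 * h * x + 3 * k * z = h + k + 6 * w := by
    linear_combination 3 * hhx + 3 * hkz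
  have h2 : x * z ≤ w * w := mul_le_mul hxw hzw hz.le hw.le
  have h3 : y * (h + k + 6 * w) ≤ 4 * (h + k) + 6 := by nlinarith
  have h4 : 4 * (h + k) + 6 ≤ 7 * (h + k) := by linarith
  have h5 : (h + k) ≤ (h + k) ^ 3 := by
    have : 1 ≤ h + k := by linarith
    calc (h + k) = (h + k) ^ 1 := (pow_one _).symm
      _ ≤ (h + k) ^ 3 := pow_le_pow_right₀ this (by norm_num)
  have h6 : (1 : ℝ) ≤ 5 + v := by linarith
  rw [h1]
  calc 9 * e * y * x * z * (h + k + 6 * w) = (9 * e) * ((x * z) * (y * (h + k + 6 * w))) := by ring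
    _ ≤ (9 * e) * ((w * w) * (7 * (h + k) ^ 3)) := by
        refine mul_le_mul_of_nonneg_left (mul_le_mul h2 (by linarith) (by positivity)
          (by positivity)) (by positivity)
    _ = 63 * ((h + k) ^ 3 * e * w ^ 2 * 1) := by ring
    _ ≤ 200 * ((h + k) ^ 3 * e * w ^ 2 * (5 + v)) := by
        refine mul_le_mul (by norm_num) (mul_le_mul_of_nonneg_left h6 (by positivity))
          (by positivity) (by norm_num)
    _ = _ := by ring

private lemma per_case2 (y e x z h k c : ℝ) (hy : 0 ≤ y) (hy4 : y ≤ 4) (he : 0 ≤ e) (hx : 0 < x)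
    (hz : 0 < z) (hh : 1 ≤ h) (hk : 1 ≤ k) (hzh : z ≤ h) (hc : 0 ≤ c) (hxc : 1 ≤ (c + 4) * x) :
    9 * e * y * x * z * (h + k + 3 * h * x + 3 * k * z) ≤
      200 * (h + k) ^ 3 * e * ((5 + c) * x ^ 2) := by
  have hs : 1 ≤ h + k := by linarith
  have hs2 : (h + k) ^ 2 ≤ (h + k) ^ 3 := pow_le_pow_right₀ hs (by norm_num)
  have h1 : h * (h + k) ≤ (h + k) ^ 3 := by nlinarith
  have h2 : h * (k * h) ≤ (h + k) ^ 3 := by
    have : h * (k * h) ≤ (h + k) * ((h + k) * (h + k)) := by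
      refine mul_le_mul (by linarith) (mul_le_mul (by linarith) (by linarith) (by linarith)
        (by linarith)) (by positivity) (by linarith)
    calc h * (k * h) ≤ (h + k) * ((h + k) * (h + k)) := this
      _ = _ := by ring
  have h3 : h * h ≤ (h + k) ^ 3 := by nlinarith
  have h4 : z * (h + k + 3 * h * x + 3 * k * z) ≤ h * (h + k + 3 * h * x + 3 * k * h) := by
    refine mul_le_mul hzh ?_ (by positivity) (by linarith)
    have : k * z ≤ k * h := mul_le_mul_of_nonneg_left hzh (by linarith)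
    linarith
  have h5 : h * (h + k + 3 * h * x + 3 * k * h) ≤ (h + k) ^ 3 * (4 + 3 * x) := by
    have : h * (h + k + 3 * h * x + 3 * k * h) = h * (h + k) + 3 * (h * (k * h)) +
      3 * (h * h) * x := by ring
    rw [this]
    have h6 : 3 * (h * h) * x ≤ 3 * (h + k) ^ 3 * x :=
      mul_le_mul_of_nonneg_right (by linarith) hx.le
    linarith
  have h6 : x * (4 + 3 * x) ≤ 4 * ((5 + c) * x ^ 2) := by
    have h7 : x * 1 ≤ x * ((c + 4) * x) := mul_le_mul_of_nonneg_left hxc hx.le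
    nlinarith [sq_nonneg x]
  calc 9 * e * y * x * z * (h + k + 3 * h * x + 3 * k * z)
      = (9 * e * x) * (y * (z * (h + k + 3 * h * x + 3 * k * z))) := by ring
    _ ≤ (9 * e * x) * (4 * ((h + k) ^ 3 * (4 + 3 * x))) := by
        refine mul_le_mul_of_nonneg_left (mul_le_mul hy4 (h4.trans h5) (by positivity)
          (by norm_num)) (by positivity)
    _ = 36 * ((h + k) ^ 3 * e) * (x * (4 + 3 * x)) := by ring
    _ ≤ 36 * ((h + k) ^ 3 * e) * (4 * ((5 + c) * x ^ 2)) :=
        mul_le_mul_of_nonneg_left h6 (by positivity)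
    _ = 144 * ((h + k) ^ 3 * e * ((5 + c) * x ^ 2)) := by ring
    _ ≤ 200 * ((h + k) ^ 3 * e * ((5 + c) * x ^ 2)) :=
        mul_le_mul_of_nonneg_right (by norm_num) (by positivity)
    _ = _ := by ring

/-- the bounding function -/
private noncomputable def per_B (h : ℕ) (v y : ℝ) : ℝ :=
  (5 + h * v) * ((h * v + per_d (h * y))⁻¹) ^ 2

private lemma per_B_nonneg (h : ℕ) (v y : ℝ) (hv : 0 < v) : 0 ≤ per_B h v y := by
  unfold per_B
  positivity

private lemma per_point (h k : ℕ) (hh : 1 ≤ h) (hk : 1 ≤ k) (hc : Nat.Coprime h k) (v y : ℝ)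
    (hv : 0 < v) (hy : |y| ≤ Real.pi) :
    |y| * (per_G h v y * per_G k v y * (h * (1 + per_G h v y) + k * (1 + per_G k v y))) ≤
      200 * ((h : ℝ) + k) ^ 3 * Real.exp (-v) * (per_B 1 v y + per_B h v y + per_B k v y) := by
  have hp := Real.pi_pos
  have hp4 := Real.pi_le_four
  have hp1 : 1 ≤ Real.pi := by linarith [Real.pi_gt_three]
  have hh0 : (1 : ℝ) ≤ h := by exact_mod_cast hh
  have hk0 : (1 : ℝ) ≤ k := by exact_mod_cast hk
  have dh := per_d_nonneg (h * y)
  have dk := per_d_nonneg (k * y)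
  have dh' := per_d_le (h * y)
  have dk' := per_d_le (k * y)
  have hDh : 0 < h * v + per_d (h * y) := by positivity
  have hDk : 0 < k * v + per_d (k * y) := by positivity
  have hG1 : per_G h v y = 3 * Real.exp (-(h * v) / 2) * (h * v + per_d (h * y))⁻¹ := by
    unfold per_G; rw [div_eq_mul_inv]
  have hG2 : per_G k v y = 3 * Real.exp (-(k * v) / 2) * (k * v + per_d (k * y))⁻¹ := by
    unfold per_G; rw [div_eq_mul_inv]
  have b1 := per_B_nonneg 1 v y hv
  have b2 := per_B_nonneg h v y hv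
  have b3 := per_B_nonneg k v y hv
  have hvh : v ≤ h * v := by nlinarith
  have hvk : v ≤ k * v := by nlinarith
  have e1 : Real.exp (-(h * v) / 2) ≤ 1 := Real.exp_le_one_iff.2 (by linarith)
  have e2 : Real.exp (-(k * v) / 2) ≤ 1 := Real.exp_le_one_iff.2 (by linarith)
  have e3 : Real.exp (-(h * v) / 2) * Real.exp (-(k * v) / 2) ≤ Real.exp (-v) := by
    rw [← Real.exp_add]
    exact Real.exp_le_exp.2 (by linarith)
  have hcore := per_core |y| (Real.exp (-v)) (h * v + per_d (h * y))⁻¹ (k * v + per_d (k * y))⁻¹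
    _ _ h k (abs_nonneg y) (inv_pos.2 hDh) (inv_pos.2 hDk) (Real.exp_pos _) e1 (Real.exp_pos _)
    e2 e3 hh0 hk0
  rw [← hG1, ← hG2] at hcore
  refine hcore.trans ?_
  have hpre : 0 ≤ 200 * ((h : ℝ) + k) ^ 3 * Real.exp (-v) := by positivity
  by_cases hcase : |(h : ℝ) * y| ≤ Real.pi ∧ |(k : ℝ) * y| ≤ Real.pi
  · have q1 : h * v + per_d (h * y) = h * (v + |y|) := by
      rw [per_d_eq _ hcase.1, abs_mul, abs_of_pos (show (0 : ℝ) < h by linarith)]
      ring
    have q2 : k * v + per_d (k * y) = k * (v + |y|) := by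
      rw [per_d_eq _ hcase.2, abs_mul, abs_of_pos (show (0 : ℝ) < k by linarith)]
      ring
    have q3 : 0 < v + |y| := by positivity
    have q4 : per_B 1 v y = (5 + v) * ((v + |y|)⁻¹) ^ 2 := by
      unfold per_B
      have : per_d (((1 : ℕ) : ℝ) * y) = |y| := by
        rw [Nat.cast_one, one_mul]
        exact per_d_eq _ hy
      rw [this, Nat.cast_one, one_mul]
    have q5 := per_case1 |y| (Real.exp (-v)) (h * v + per_d (h * y))⁻¹ (k * v + per_d (k * y))⁻¹
      (v + |y|)⁻¹ h k v (abs_nonneg y) (hy.trans hp4) (Real.exp_pos _).le (inv_pos.2 hDh)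
      (inv_pos.2 hDk) hh0 hk0
      (by rw [q1]; exact inv_anti₀ q3 (by nlinarith))
      (by rw [q2]; exact inv_anti₀ q3 (by nlinarith))
      (by rw [q1, mul_inv]; field_simp)
      (by rw [q2, mul_inv]; field_simp)
      (by rw [← div_eq_mul_inv, div_le_one q3]; linarith) hv.le
    refine q5.trans ?_
    rw [← q4]
    exact mul_le_mul_of_nonneg_left (by linarith) hpre
  · rcases per_key h k hh hk hc y hy hcase with h1 | h1
    · have q1 : (h * v + per_d (h * y))⁻¹ ≤ k := by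
        rw [inv_le_comm₀ hDh (by linarith), inv_le_iff_one_le_mul₀ (by linarith)]
        nlinarith
      have q2 := per_case2 |y| (Real.exp (-v)) (k * v + per_d (k * y))⁻¹ (h * v + per_d (h * y))⁻¹
        k h (k * v) (abs_nonneg y) (hy.trans hp4) (Real.exp_pos _).le (inv_pos.2 hDk)
        (inv_pos.2 hDh) hk0 hh0 q1 (by positivity)
        (by rw [← div_eq_mul_inv, le_div_iff₀ hDk]; linarith)
      have q3 : 9 * Real.exp (-v) * |y| * (h * v + per_d (h * y))⁻¹ * (k * v + per_d (k * y))⁻¹ *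
          (h + k + 3 * h * (h * v + per_d (h * y))⁻¹ + 3 * k * (k * v + per_d (k * y))⁻¹) =
          9 * Real.exp (-v) * |y| * (k * v + per_d (k * y))⁻¹ * (h * v + per_d (h * y))⁻¹ *
          (k + h + 3 * k * (k * v + per_d (k * y))⁻¹ + 3 * h * (h * v + per_d (h * y))⁻¹) := by
        ring
      rw [q3]
      refine q2.trans ?_
      have q4 : (5 + k * v) * ((k * v + per_d (k * y))⁻¹) ^ 2 = per_B k v y := rfl
      rw [q4, add_comm (k : ℝ) h]
      exact mul_le_mul_of_nonneg_left (by linarith) hpre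
    · have q1 : (k * v + per_d (k * y))⁻¹ ≤ h := by
        rw [inv_le_comm₀ hDk (by linarith), inv_le_iff_one_le_mul₀ (by linarith)]
        nlinarith
      have q2 := per_case2 |y| (Real.exp (-v)) (h * v + per_d (h * y))⁻¹ (k * v + per_d (k * y))⁻¹
        h k (h * v) (abs_nonneg y) (hy.trans hp4) (Real.exp_pos _).le (inv_pos.2 hDh)
        (inv_pos.2 hDk) hh0 hk0 q1 (by positivity)
        (by rw [← div_eq_mul_inv, le_div_iff₀ hDh]; linarith)
      refine q2.trans ?_
      have q4 : (5 + h * v) * ((h * v + per_d (h * y))⁻¹) ^ 2 = per_B h v y := rfl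
      rw [q4]
      exact mul_le_mul_of_nonneg_left (by linarith) hpre

/-! ### the integrals of the bounding functions -/

private lemma per_half (c : ℝ) (hc : 0 < c) :
    ∫ z in (0 : ℝ)..Real.pi, ((c + z)⁻¹) ^ 2 ≤ c⁻¹ := by
  have hp := Real.pi_pos
  have h1 : ∀ x ∈ Set.uIcc (0 : ℝ) Real.pi, HasDerivAt (fun z : ℝ => -(c + z)⁻¹)
      (((c + x)⁻¹) ^ 2) x := by
    intro x hx
    rw [Set.uIcc_of_le hp.le] at hx
    have h2 : c + x ≠ 0 := by have := hx.1; positivity
    have h3 : HasDerivAt (fun z : ℝ => c + z) 1 x := (hasDerivAt_id x).const_add c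
    have h4 := (h3.fun_inv h2).neg
    have h5 : -(-1 / (c + x) ^ 2) = ((c + x)⁻¹) ^ 2 := by
      field_simp
    rw [h5] at h4
    exact h4
  have h2 : IntervalIntegrable (fun z : ℝ => ((c + z)⁻¹) ^ 2) volume 0 Real.pi := by
    refine ContinuousOn.intervalIntegrable ?_
    rw [Set.uIcc_of_le hp.le]
    refine (ContinuousOn.inv₀ (by fun_prop) fun x hx => ?_).pow 2
    have := hx.1
    positivity
  rw [intervalIntegral.integral_eq_sub_of_hasDerivAt h1 h2]
  have h3 : 0 ≤ (c + Real.pi)⁻¹ := by positivity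
  rw [add_zero]
  linarith

private lemma per_full (c : ℝ) (hc : 0 < c) :
    ∫ z in (-Real.pi)..Real.pi, ((c + per_d z)⁻¹) ^ 2 ≤ 2 * c⁻¹ := by
  have hp := Real.pi_pos
  have hcont : Continuous fun z : ℝ => ((c + per_d z)⁻¹) ^ 2 := by
    refine (Continuous.inv₀ (continuous_const.add per_d_cont) fun x => ?_).pow 2
    have h0 := per_d_nonneg x
    exact (add_pos_of_pos_of_nonneg hc h0).ne'
  rw [← intervalIntegral.integral_add_adjacent_intervals (b := 0)
    (hcont.intervalIntegrable _ _) (hcont.intervalIntegrable _ _)]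
  have h1 : ∫ z in (0 : ℝ)..Real.pi, ((c + per_d z)⁻¹) ^ 2 = ∫ z in (0 : ℝ)..Real.pi,
      ((c + z)⁻¹) ^ 2 := by
    refine intervalIntegral.integral_congr fun z hz => ?_
    rw [Set.uIcc_of_le hp.le] at hz
    show ((c + per_d z)⁻¹) ^ 2 = ((c + z)⁻¹) ^ 2
    rw [per_d_eq z (by rw [abs_of_nonneg hz.1]; exact hz.2), abs_of_nonneg hz.1]
  have h2 : ∫ z in (-Real.pi)..0, ((c + per_d z)⁻¹) ^ 2 = ∫ z in (0 : ℝ)..Real.pi,
      ((c + per_d z)⁻¹) ^ 2 := by
    have h3 := intervalIntegral.integral_comp_neg (a := 0) (b := Real.pi)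
      (fun z : ℝ => ((c + per_d z)⁻¹) ^ 2)
    rw [neg_zero] at h3
    rw [← h3]
    refine intervalIntegral.integral_congr fun z _ => ?_
    show ((c + per_d (-z))⁻¹) ^ 2 = ((c + per_d z)⁻¹) ^ 2
    rw [per_d_neg]
  rw [h2, h1]
  have := per_half c hc
  linarith

private lemma per_shift (h : ℕ) (hh : 1 ≤ h) (F : ℝ → ℝ) (hF : Function.Periodic F (2 * Real.pi))
    (hFc : Continuous F) :
    ∫ y in (-Real.pi)..Real.pi, F (h * y) = ∫ z in (-Real.pi)..Real.pi, F z := by
  have hh0 : (h : ℝ) ≠ 0 := by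
    have : (1 : ℝ) ≤ h := by exact_mod_cast hh
    linarith
  rw [intervalIntegral.integral_comp_mul_left F hh0]
  have h1 := hF.intervalIntegral_add_zsmul_eq (h : ℤ) (h * (-Real.pi))
    (fun _ _ => hFc.intervalIntegrable _ _)
  have h2 : (h : ℝ) * (-Real.pi) + (h : ℤ) • (2 * Real.pi) = h * Real.pi := by
    rw [zsmul_eq_mul]
    push_cast
    ring
  rw [h2] at h1
  rw [h1, hF.intervalIntegral_add_eq _ (-Real.pi)]
  have h3 : -Real.pi + 2 * Real.pi = Real.pi := by ring
  rw [h3, zsmul_eq_mul, smul_eq_mul]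
  push_cast
  field_simp

private lemma per_B_cont (h : ℕ) (v : ℝ) (hh : 1 ≤ h) (hv : 0 < v) : Continuous (per_B h v) := by
  unfold per_B
  have hh0 : (1 : ℝ) ≤ h := by exact_mod_cast hh
  refine continuous_const.mul ((Continuous.inv₀ (continuous_const.add
    (per_d_cont.comp (by fun_prop))) fun x => ?_).pow 2)
  have := per_d_nonneg (h * x)
  have h1 : 0 < (h : ℝ) * v := by positivity
  show (h : ℝ) * v + per_d (h * x) ≠ 0
  positivity

private lemma per_B_int (h : ℕ) (v : ℝ) (hh : 1 ≤ h) (hv : 0 < v) :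
    ∫ y in (-Real.pi)..Real.pi, per_B h v y ≤ 2 + 10 / v := by
  have hh0 : (1 : ℝ) ≤ h := by exact_mod_cast hh
  have hc : 0 < (h : ℝ) * v := by positivity
  unfold per_B
  rw [intervalIntegral.integral_const_mul]
  have h1 := per_shift h hh (fun z => ((h * v + per_d z)⁻¹) ^ 2)
    (fun z => by simp only [per_d_per z])
    ((Continuous.inv₀ (continuous_const.add per_d_cont) fun x =>
      (add_pos_of_pos_of_nonneg hc (per_d_nonneg x)).ne').pow 2)
  rw [h1]
  have h2 := per_full (h * v) hc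
  have h3 : (5 + h * v) * (2 * ((h : ℝ) * v)⁻¹) = 2 + 10 / (h * v) := by
    field_simp
    ring
  have h4 : 10 / ((h : ℝ) * v) ≤ 10 / v := div_le_div_of_nonneg_left (by norm_num) hv (by nlinarith)
  calc (5 + h * v) * ∫ z in (-Real.pi)..Real.pi, ((h * v + per_d z)⁻¹) ^ 2
      ≤ (5 + h * v) * (2 * ((h : ℝ) * v)⁻¹) := mul_le_mul_of_nonneg_left h2 (by positivity)
    _ = 2 + 10 / (h * v) := h3
    _ ≤ 2 + 10 / v := by linarith

/-! ### one period -/

private lemma per_E_cont (h : ℕ) (hh : 1 ≤ h) (f g : ℝ → ℝ) (hf : Continuous f) (hg : Continuous g)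
    (s : Set ℝ) (hs : ∀ x ∈ s, 0 < f x) :
    ContinuousOn (fun x => per_E ((h : ℂ) * ((f x : ℂ) + (g x : ℂ) * I))) s := by
  have hh0 : (0 : ℝ) < h := by exact_mod_cast hh
  unfold per_E
  refine ContinuousOn.inv₀ (Continuous.continuousOn ?_) fun x hx => ?_
  · have h1 : Continuous fun x => ((f x : ℝ) : ℂ) := Complex.continuous_ofReal.comp hf
    have h2 : Continuous fun x => ((g x : ℝ) : ℂ) := Complex.continuous_ofReal.comp hg
    fun_prop
  · rw [per_w1]
    exact per_ne _ _ (mul_pos hh0 (hs x hx))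

private lemma per_P_cont (h k : ℕ) (hh : 1 ≤ h) (hk : 1 ≤ k) (f g : ℝ → ℝ) (hf : Continuous f)
    (hg : Continuous g) (s : Set ℝ) (hs : ∀ x ∈ s, 0 < f x) :
    ContinuousOn (fun x => per_P h k (f x) (g x)) s := by
  unfold per_P
  refine (per_E_cont h hh f g hf hg s hs).mul ?_
  have h1 := per_E_cont k hk f (fun x => -(g x)) hf hg.neg s hs
  refine h1.congr fun x _ => ?_
  show per_E ((k : ℂ) * ((f x : ℂ) - (g x : ℂ) * I)) =
    per_E ((k : ℂ) * ((f x : ℂ) + ((-(g x) : ℝ) : ℂ) * I))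
  congr 2
  push_cast
  ring

private lemma per_period (hE : S_Ebd) (h k : ℕ) (hh : 1 ≤ h) (hk : 1 ≤ k) (hc : Nat.Coprime h k)
    (ρ : ℝ) (hρ : 0 < ρ) (l : ℕ) :
    ‖(∫ y in (-Real.pi)..Real.pi, per_P h k (2 * Real.pi * (l + 1) * ρ + ρ * y) y) -
      ∫ y in (-Real.pi)..Real.pi, per_P h k (2 * Real.pi * (l + 1) * ρ) y‖ ≤
      200 * ((h : ℝ) + k) ^ 3 * (6 * (ρ * Real.exp (-(Real.pi * (l + 1) * ρ))) +
        10 * (Real.exp (-(Real.pi * (l + 1) * ρ)) / (l + 1))) := by
  have hp := Real.pi_pos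
  have hp3 := Real.pi_gt_three
  have hl0 : (0 : ℝ) ≤ l := Nat.cast_nonneg _
  set v : ℝ := Real.pi * (l + 1) * ρ with hv
  have hv0 : 0 < v := by positivity
  have hu : 2 * Real.pi * (l + 1) * ρ = 2 * v := by rw [hv]; ring
  have hvρ : Real.pi * ρ ≤ v := by
    rw [hv]
    have : 0 ≤ Real.pi * l * ρ := by positivity
    nlinarith
  rw [hu]
  have hpos : ∀ y ∈ Set.uIcc (-Real.pi) Real.pi, v ≤ 2 * v + ρ * y := by
    intro y hy
    rw [Set.uIcc_of_le (by linarith)] at hy
    have h1 : ρ * (-Real.pi) ≤ ρ * y := mul_le_mul_of_nonneg_left hy.1 hρ.le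
    linarith
  have c1 : ContinuousOn (fun y => per_P h k (2 * v + ρ * y) y) (Set.uIcc (-Real.pi) Real.pi) :=
    per_P_cont h k hh hk (fun y => 2 * v + ρ * y) (fun y => y) (by fun_prop) (by fun_prop) _
      fun y hy => hv0.trans_le (hpos y hy)
  have c2 : ContinuousOn (fun y => per_P h k (2 * v) y) (Set.uIcc (-Real.pi) Real.pi) :=
    per_P_cont h k hh hk (fun _ => 2 * v) (fun y => y) (by fun_prop) (by fun_prop) _
      fun y _ => (by positivity : 0 < 2 * v)
  rw [← intervalIntegral.integral_sub c1.intervalIntegrable c2.intervalIntegrable]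
  have b1 := per_B_cont 1 v le_rfl hv0
  have b2 := per_B_cont h v hh hv0
  have b3 := per_B_cont k v hk hv0
  have hint : Continuous fun y => ρ * (200 * ((h : ℝ) + k) ^ 3 * Real.exp (-v) *
      (per_B 1 v y + per_B h v y + per_B k v y)) := by fun_prop
  have hle : ∀ y ∈ Set.Ioc (-Real.pi) Real.pi,
      ‖per_P h k (2 * v + ρ * y) y - per_P h k (2 * v) y‖ ≤
      ρ * (200 * ((h : ℝ) + k) ^ 3 * Real.exp (-v) * (per_B 1 v y + per_B h v y + per_B k v y)) := by
    intro y hy
    have hy' : |y| ≤ Real.pi := abs_le.2 ⟨hy.1.le, hy.2⟩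
    have h1 := per_P_diff hE h k hh hk v (2 * v) (2 * v + ρ * y) y hv0 (by linarith)
      (hpos y (by rw [Set.uIcc_of_le (by linarith)]; exact ⟨hy.1.le, hy.2⟩))
    have h2 : |2 * v + ρ * y - 2 * v| = ρ * |y| := by
      rw [add_sub_cancel_left, abs_mul, abs_of_pos hρ]
    rw [h2, mul_assoc] at h1
    exact h1.trans (mul_le_mul_of_nonneg_left (per_point h k hh hk hc v y hv0 hy') hρ.le)
  refine (intervalIntegral.norm_integral_le_of_norm_le (by linarith)
    (Filter.Eventually.of_forall hle) (hint.intervalIntegrable _ _)).trans ?_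
  have b12 : Continuous fun y => per_B 1 v y + per_B h v y := b1.add b2
  have i0 : ∫ y in (-Real.pi)..Real.pi, (per_B 1 v y + per_B h v y + per_B k v y) =
      (∫ y in (-Real.pi)..Real.pi, per_B 1 v y) + (∫ y in (-Real.pi)..Real.pi, per_B h v y) +
        ∫ y in (-Real.pi)..Real.pi, per_B k v y := by
    rw [intervalIntegral.integral_add (b12.intervalIntegrable _ _) (b3.intervalIntegrable _ _),
      intervalIntegral.integral_add (b1.intervalIntegrable _ _) (b2.intervalIntegrable _ _)]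
  rw [intervalIntegral.integral_const_mul, intervalIntegral.integral_const_mul, i0]
  have i1 := per_B_int 1 v le_rfl hv0
  have i2 := per_B_int h v hh hv0
  have i3 := per_B_int k v hk hv0
  have e0 := Real.exp_pos (-v)
  have hs : (0 : ℝ) ≤ ((h : ℝ) + k) ^ 3 := by positivity
  have hv3 : ρ / v ≤ 1 / 3 * (1 / (l + 1)) := by
    rw [hv, div_le_iff₀ (by positivity)]
    have : 1 / 3 * (1 / ((l : ℝ) + 1)) * (Real.pi * (l + 1) * ρ) = Real.pi / 3 * ρ := by
      field_simp
    rw [this]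
    nlinarith
  calc ρ * (200 * ((h : ℝ) + k) ^ 3 * Real.exp (-v) *
      ((∫ y in (-Real.pi)..Real.pi, per_B 1 v y) + (∫ y in (-Real.pi)..Real.pi, per_B h v y) +
        ∫ y in (-Real.pi)..Real.pi, per_B k v y))
      ≤ ρ * (200 * ((h : ℝ) + k) ^ 3 * Real.exp (-v) * (6 + 30 / v)) := by
        refine mul_le_mul_of_nonneg_left (mul_le_mul_of_nonneg_left ?_ (by positivity)) hρ.le
        have : (30 : ℝ) / v = 10 / v + 10 / v + 10 / v := by ring
        linarith
    _ = 200 * ((h : ℝ) + k) ^ 3 * (6 * (ρ * Real.exp (-v)) + 30 * Real.exp (-v) * (ρ / v)) := by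
        ring
    _ ≤ 200 * ((h : ℝ) + k) ^ 3 * (6 * (ρ * Real.exp (-v)) +
        30 * Real.exp (-v) * (1 / 3 * (1 / (l + 1)))) := by
        refine mul_le_mul_of_nonneg_left ?_ (by positivity)
        have : 30 * Real.exp (-v) * (ρ / v) ≤ 30 * Real.exp (-v) * (1 / 3 * (1 / ((l : ℝ) + 1))) :=
          mul_le_mul_of_nonneg_left hv3 (by positivity)
        linarith
    _ = _ := by ring

/-! ### the sum over the periods -/

private lemma per_sum1 (ρ : ℝ) (hρ : 0 < ρ) (N : ℕ) :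
    ∑ l ∈ range N, ρ * Real.exp (-(Real.pi * (l + 1) * ρ)) ≤ 1 - Real.exp (-(Real.pi * N * ρ)) := by
  have hp := Real.pi_gt_three
  induction N with
  | zero => simp
  | succ N ih =>
    rw [sum_range_succ]
    have h1 : Real.exp (-(Real.pi * N * ρ)) =
        Real.exp (-(Real.pi * (N + 1) * ρ)) * Real.exp (Real.pi * ρ) := by
      rw [← Real.exp_add]
      congr 1
      ring
    have h2 := Real.add_one_le_exp (Real.pi * ρ)
    have h3 := Real.exp_pos (-(Real.pi * ((N : ℝ) + 1) * ρ))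
    push_cast
    rw [h1] at ih
    have h4 : ρ ≤ Real.exp (Real.pi * ρ) - 1 := by nlinarith
    have h5 := mul_le_mul_of_nonneg_right h4 h3.le
    nlinarith

private lemma per_sum2 (ρ : ℝ) (hρ : 0 < ρ) (hρ1 : ρ ≤ 1) (N : ℕ) :
    ∑ l ∈ range N, Real.exp (-(Real.pi * (l + 1) * ρ)) / (l + 1) ≤ 1 + Real.log (1 / ρ) := by
  have hp := Real.pi_gt_three
  set x : ℝ := Real.exp (-(Real.pi * ρ)) with hx
  have hx0 : 0 < x := Real.exp_pos _
  have hx1 : x < 1 := by
    rw [hx, ← Real.exp_zero]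
    exact Real.exp_lt_exp.2 (by nlinarith)
  have h1 := Real.hasSum_pow_div_log_of_abs_lt_one (x := x) (by rw [abs_of_pos hx0]; exact hx1)
  have h2 := sum_le_hasSum (range N) (fun i _ => by positivity) h1
  have h3 : ∑ l ∈ range N, Real.exp (-(Real.pi * (l + 1) * ρ)) / (l + 1) =
      ∑ l ∈ range N, x ^ (l + 1) / ((l : ℝ) + 1) := by
    refine Finset.sum_congr rfl fun l _ => ?_
    rw [hx, ← Real.exp_nat_mul]
    congr 2
    push_cast
    ring
  rw [h3]
  refine h2.trans ?_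
  have h4 : ρ / 2 ≤ 1 - x := by
    have h5 : x * Real.exp (Real.pi * ρ) = 1 := by
      rw [hx, ← Real.exp_add]
      simp
    have h6 := Real.add_one_le_exp (Real.pi * ρ)
    have h7 : x * (Real.pi * ρ + 1) ≤ 1 :=
      (mul_le_mul_of_nonneg_left h6 hx0.le).trans h5.le
    by_contra hcon
    push Not at hcon
    have h8 : 1 - ρ / 2 < x := by linarith
    have h9 : (1 - ρ / 2) * (Real.pi * ρ + 1) < 1 := by
      have : (1 - ρ / 2) * (Real.pi * ρ + 1) < x * (Real.pi * ρ + 1) :=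
        mul_lt_mul_of_pos_right h8 (by positivity)
      linarith
    nlinarith [mul_pos hρ hρ, mul_pos (mul_pos hρ hρ) (show (0:ℝ) < Real.pi by linarith)]
  have h5 : -Real.log (1 - x) ≤ Real.log (2 / ρ) := by
    rw [← Real.log_inv]
    refine Real.log_le_log (by rw [inv_pos]; linarith) ?_
    rw [inv_le_comm₀ (by linarith) (by positivity), inv_div]
    exact h4
  have h6 : Real.log (2 / ρ) = Real.log 2 + Real.log (1 / ρ) := by
    rw [← Real.log_mul (by norm_num) (by positivity)]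
    congr 1
    ring
  have h7 := Real.log_two_lt_d9
  linarith

private lemma per_P_shift (h k l : ℕ) (u y : ℝ) :
    per_P h k u (y + 2 * Real.pi * (l + 1)) = per_P h k u y := by
  unfold per_P per_E
  have h1 : (h : ℂ) * ((u : ℂ) + ((y + 2 * Real.pi * (l + 1) : ℝ) : ℂ) * I) =
      (h : ℂ) * ((u : ℂ) + y * I) + ((h * (l + 1) : ℕ) : ℂ) * (2 * Real.pi * I) := by
    push_cast
    ring
  have h2 : (k : ℂ) * ((u : ℂ) - ((y + 2 * Real.pi * (l + 1) : ℝ) : ℂ) * I) =
      (k : ℂ) * ((u : ℂ) - y * I) - ((k * (l + 1) : ℕ) : ℂ) * (2 * Real.pi * I) := by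
    push_cast
    ring
  rw [h1, h2, Complex.exp_periodic.nat_mul _ _, Complex.exp_periodic.sub_nat_mul_eq]

private lemma per_F (ρ : ℝ) (h k : ℕ) (x : ℝ) :
    Ef ρ (h * x) * (starRingEnd ℂ) (Ef ρ (k * x)) = per_P h k (ρ * x) x := by
  unfold per_P per_E Ef av
  rw [map_inv₀, map_sub, map_one, ← Complex.exp_conj]
  congr 4
  · push_cast
    ring
  · rw [map_mul, map_add, Complex.conj_I, Complex.conj_ofReal, Complex.conj_ofReal]
    push_cast
    ring

private lemma per_partial (hE : S_Ebd) (hP : S_Pmn) (h k : ℕ) (hh : 1 ≤ h) (hk : 1 ≤ k)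
    (hc : Nat.Coprime h k) (ρ : ℝ) (hρ : 0 < ρ) (hρ1 : ρ ≤ 1) (N : ℕ) :
    ‖(∫ x in Real.pi..((2 * N + 1) * Real.pi), per_P h k (ρ * x) x) -
      ((∑ l ∈ range N, 2 * Real.pi / (Real.exp (4 * Real.pi * h * k * (l + 1) * ρ) - 1) : ℝ) : ℂ)‖ ≤
      3200 * ((h : ℝ) + k) ^ 3 * (1 + Real.log (1 / ρ)) := by
  have hp := Real.pi_pos
  have hcont : ∀ a b : ℝ, 0 < a → 0 < b →
      IntervalIntegrable (fun x => per_P h k (ρ * x) x) volume a b := by
    intro a b ha hb
    refine (per_P_cont h k hh hk (fun x => ρ * x) (fun x => x) (by fun_prop) (by fun_prop) _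
      fun x hx => ?_).intervalIntegrable
    have : 0 < x := (lt_min ha hb).trans_le hx.1
    positivity
  have h1 : ∫ x in Real.pi..((2 * N + 1) * Real.pi), per_P h k (ρ * x) x =
      ∑ l ∈ range N, ∫ y in (-Real.pi)..Real.pi,
        per_P h k (2 * Real.pi * (l + 1) * ρ + ρ * y) y := by
    have h2 := intervalIntegral.sum_integral_adjacent_intervals (μ := volume)
      (f := fun x => per_P h k (ρ * x) x) (a := fun l : ℕ => (2 * (l : ℝ) + 1) * Real.pi) (n := N)
      (fun l _ => hcont _ _ (by positivity) (by positivity))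
    have h3 : (2 * ((0 : ℕ) : ℝ) + 1) * Real.pi = Real.pi := by push_cast; ring
    rw [h3] at h2
    rw [← h2]
    refine Finset.sum_congr rfl fun l _ => ?_
    have h4 := intervalIntegral.integral_comp_add_right (a := -Real.pi) (b := Real.pi)
      (fun x => per_P h k (ρ * x) x) (2 * Real.pi * (l + 1))
    have h5 : -Real.pi + 2 * Real.pi * ((l : ℝ) + 1) = (2 * (l : ℝ) + 1) * Real.pi := by ring
    have h6 : Real.pi + 2 * Real.pi * ((l : ℝ) + 1) = (2 * ((l + 1 : ℕ) : ℝ) + 1) * Real.pi := by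
      push_cast; ring
    rw [h5, h6] at h4
    rw [← h4]
    refine intervalIntegral.integral_congr fun y _ => ?_
    show per_P h k (ρ * (y + 2 * Real.pi * (l + 1))) (y + 2 * Real.pi * (l + 1)) = _
    rw [per_P_shift]
    congr 1
    ring
  have h2 : ((∑ l ∈ range N, 2 * Real.pi / (Real.exp (4 * Real.pi * h * k * (l + 1) * ρ) - 1) : ℝ) :
      ℂ) = ∑ l ∈ range N, ∫ y in (-Real.pi)..Real.pi, per_P h k (2 * Real.pi * (l + 1) * ρ) y := by
    rw [Complex.ofReal_sum]
    refine Finset.sum_congr rfl fun l _ => ?_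
    have h3 := hP (2 * Real.pi * (l + 1) * ρ) h k (by positivity) hh hk hc
    have h4 : 2 * (h : ℝ) * k * (2 * Real.pi * (l + 1) * ρ) =
        4 * Real.pi * h * k * (l + 1) * ρ := by ring
    rw [h4] at h3
    rw [← h3]
    rfl
  rw [h1, h2, ← Finset.sum_sub_distrib]
  refine (norm_sum_le _ _).trans ?_
  refine (Finset.sum_le_sum fun l _ => per_period hE h k hh hk hc ρ hρ l).trans ?_
  have s0 : ∑ l ∈ range N, (6 * (ρ * Real.exp (-(Real.pi * (l + 1) * ρ))) +
      10 * (Real.exp (-(Real.pi * (l + 1) * ρ)) / (l + 1))) =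
      6 * ∑ l ∈ range N, ρ * Real.exp (-(Real.pi * (l + 1) * ρ)) +
      10 * ∑ l ∈ range N, Real.exp (-(Real.pi * (l + 1) * ρ)) / (l + 1) := by
    rw [Finset.sum_add_distrib, Finset.mul_sum (a := 6), Finset.mul_sum (a := 10)]
  rw [← Finset.mul_sum, s0]
  have s1 := per_sum1 ρ hρ N
  have s2 := per_sum2 ρ hρ hρ1 N
  have s3 := Real.exp_pos (-(Real.pi * N * ρ))
  have s4 : 0 ≤ Real.log (1 / ρ) := Real.log_nonneg (by rw [le_div_iff₀ hρ]; linarith)
  have s5 : 6 * ∑ l ∈ range N, ρ * Real.exp (-(Real.pi * (l + 1) * ρ)) +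
      10 * ∑ l ∈ range N, Real.exp (-(Real.pi * (l + 1) * ρ)) / (l + 1) ≤
      16 * (1 + Real.log (1 / ρ)) := by linarith
  calc 200 * ((h : ℝ) + k) ^ 3 * (6 * ∑ l ∈ range N, ρ * Real.exp (-(Real.pi * (l + 1) * ρ)) +
      10 * ∑ l ∈ range N, Real.exp (-(Real.pi * (l + 1) * ρ)) / (l + 1))
      ≤ 200 * ((h : ℝ) + k) ^ 3 * (16 * (1 + Real.log (1 / ρ))) :=
        mul_le_mul_of_nonneg_left s5 (by positivity)
    _ = _ := by ring

private lemma per_integrable (hE : S_Ebd) (h k : ℕ) (hh : 1 ≤ h) (hk : 1 ≤ k) (ρ : ℝ)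
    (hρ : 0 < ρ) : IntegrableOn (fun x => per_P h k (ρ * x) x) (Set.Ioi Real.pi) := by
  have hp := Real.pi_pos
  have hh0 : (1 : ℝ) ≤ h := by exact_mod_cast hh
  have hk0 : (1 : ℝ) ≤ k := by exact_mod_cast hk
  have hg : ∀ (j : ℕ) (_ : 1 ≤ j) (x : ℝ), Real.pi < x →
      per_G j (ρ * x) x ≤ 3 / (ρ * Real.pi) * Real.exp (-(ρ * x) / 2) := by
    intro j hj x hx
    have hj0 : (1 : ℝ) ≤ j := by exact_mod_cast hj
    unfold per_G
    have h1 := per_d_nonneg (j * x)
    have h2 : 0 < ρ * x := mul_pos hρ (hp.trans hx)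
    have h3 : Real.exp (-(j * (ρ * x)) / 2) ≤ Real.exp (-(ρ * x) / 2) :=
      Real.exp_le_exp.2 (by nlinarith)
    have h4 : ρ * Real.pi ≤ j * (ρ * x) + per_d (j * x) := by
      have h5 : ρ * Real.pi ≤ ρ * x := mul_le_mul_of_nonneg_left hx.le hρ.le
      nlinarith
    calc 3 * Real.exp (-(j * (ρ * x)) / 2) / (j * (ρ * x) + per_d (j * x))
        ≤ 3 * Real.exp (-(ρ * x) / 2) / (ρ * Real.pi) :=
          div_le_div₀ (by positivity) (by linarith) (by positivity) h4
      _ = _ := by ring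
  have hint : IntegrableOn (fun x : ℝ => (3 / (ρ * Real.pi)) ^ 2 * Real.exp (-ρ * x))
      (Set.Ioi Real.pi) := (integrableOn_exp_mul_Ioi (by linarith) _).const_mul _
  refine Integrable.mono' hint ?_ ?_
  · refine ContinuousOn.aestronglyMeasurable ?_ measurableSet_Ioi
    exact per_P_cont h k hh hk (fun x => ρ * x) (fun x => x) (by fun_prop) (by fun_prop) _
      fun x hx => mul_pos hρ (hp.trans hx)
  · refine (ae_restrict_iff' measurableSet_Ioi).2 (Filter.Eventually.of_forall fun x hx => ?_)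
    have hx' : Real.pi < x := hx
    have h0 : 0 < ρ * x := mul_pos hρ (hp.trans hx')
    unfold per_P
    rw [norm_mul]
    have a1 := (per_e1 hE h hh (ρ * x) (ρ * x) x h0 le_rfl).trans (hg h hh x hx')
    have a2 := (per_e2 hE k hk (ρ * x) (ρ * x) x h0 le_rfl).trans (hg k hk x hx')
    calc ‖per_E ((h : ℂ) * (((ρ * x : ℝ) : ℂ) + x * I))‖ *
        ‖per_E ((k : ℂ) * (((ρ * x : ℝ) : ℂ) - x * I))‖
        ≤ (3 / (ρ * Real.pi) * Real.exp (-(ρ * x) / 2)) *
          (3 / (ρ * Real.pi) * Real.exp (-(ρ * x) / 2)) :=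
          mul_le_mul a1 a2 (norm_nonneg _) (by positivity)
      _ = (3 / (ρ * Real.pi)) ^ 2 * (Real.exp (-(ρ * x) / 2) * Real.exp (-(ρ * x) / 2)) := by ring
      _ = (3 / (ρ * Real.pi)) ^ 2 * Real.exp (-ρ * x) := by
          rw [← Real.exp_add]
          congr 2
          ring

private lemma per_summable (c : ℝ) (hc : 0 < c) :
    Summable fun l : ℕ => 2 * Real.pi / (Real.exp (c * (l + 1)) - 1) := by
  have hp := Real.pi_pos
  have h1 : Summable fun l : ℕ => 4 * Real.pi / c ^ 2 * (1 / ((l : ℝ) + 1) ^ 2) := by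
    refine Summable.mul_left _ ?_
    have h2 := (summable_nat_add_iff 1).2 (Real.summable_one_div_nat_pow.2 one_lt_two)
    refine h2.congr fun l => ?_
    push_cast
    rfl
  refine Summable.of_nonneg_of_le (fun l => ?_) (fun l => ?_) h1
  · have : 0 < Real.exp (c * (l + 1)) - 1 := by
      have := Real.one_lt_exp_iff.2 (show 0 < c * ((l : ℝ) + 1) by positivity)
      linarith
    positivity
  · have h2 := Real.quadratic_le_exp_of_nonneg (show 0 ≤ c * ((l : ℝ) + 1) by positivity)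
    have h3 : 0 < c * ((l : ℝ) + 1) := by positivity
    have h4 : (c * ((l : ℝ) + 1)) ^ 2 / 2 ≤ Real.exp (c * (l + 1)) - 1 := by linarith
    calc 2 * Real.pi / (Real.exp (c * (l + 1)) - 1)
        ≤ 2 * Real.pi / ((c * ((l : ℝ) + 1)) ^ 2 / 2) :=
          div_le_div_of_nonneg_left (by positivity) (by positivity) h4
      _ = _ := by
          field_simp
          ring

theorem pPer (hEbd : S_Ebd) (hPmn : S_Pmn) : S_Per := by
  refine ⟨3200, by norm_num, fun ρ h k hρ hρ2 hh hk hc => ?_⟩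
  have hp := Real.pi_pos
  have hh0 : (1 : ℝ) ≤ h := by exact_mod_cast hh
  have hk0 : (1 : ℝ) ≤ k := by exact_mod_cast hk
  have hF : ∀ x : ℝ, Ef ρ (h * x) * (starRingEnd ℂ) (Ef ρ (k * x)) = per_P h k (ρ * x) x :=
    per_F ρ h k
  simp only [hF]
  have hN : Tendsto (fun N : ℕ => (2 * (N : ℝ) + 1) * Real.pi) atTop atTop := by
    refine Tendsto.atTop_mul_const hp (tendsto_atTop_add_const_right _ _ ?_)
    exact Tendsto.const_mul_atTop (by norm_num) tendsto_natCast_atTop_atTop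
  have h1 := intervalIntegral_tendsto_integral_Ioi Real.pi
    (per_integrable hEbd h k hh hk ρ hρ) hN
  have hs : Summable fun l : ℕ =>
      2 * Real.pi / (Real.exp (4 * Real.pi * h * k * (l + 1) * ρ) - 1) := by
    refine (per_summable (4 * Real.pi * h * k * ρ) (by positivity)).congr fun l => ?_
    congr 3
    ring
  have h2 : Tendsto (fun N : ℕ => ((∑ l ∈ range N,
      2 * Real.pi / (Real.exp (4 * Real.pi * h * k * (l + 1) * ρ) - 1) : ℝ) : ℂ)) atTop
      (𝓝 ((∑' l : ℕ, 2 * Real.pi / (Real.exp (4 * Real.pi * h * k * (l + 1) * ρ) - 1) : ℝ) : ℂ)) :=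
    (Complex.continuous_ofReal.tendsto _).comp hs.hasSum.tendsto_sum_nat
  exact le_of_tendsto (h1.sub h2).norm (Filter.Eventually.of_forall fun N =>
    per_partial hEbd hPmn h k hh hk hc ρ hρ (by linarith) N)

end Pool.Agent.Lib.MP_aa9ae4_nt.L1
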