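import Mathlib
import Pool.Agent.Lib.MP_aa9ae4_nt.L1.SpecC
import Pool.Agent.Lib.MP_48d5b6_gt.Plancherel

/-!
MP_aa9ae4_nt, Theorem L: proof of `S_Plm`, Plancherel for the Mellin transform.
-/

namespace Pool.Agent.Lib.MP_aa9ae4_nt.L1

open Finset MeasureTheory Filter Topology
open Complex (I)
open Pool.Agent.Lib.MP_aa9ae4_nt.S1 (pw)
open scoped FourierTransform ENNReal

/-! ### The substitution `x = e^(-u)` -/

private lemma plm_image : (fun x : ℝ => Real.exp (-x)) '' Set.univ = Set.Ioi 0 := by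
  have h : (fun x : ℝ => Real.exp (-x)) = Real.exp ∘ Neg.neg := rfl
  rw [h, Set.image_comp, Set.image_univ_of_surjective neg_surjective, Set.image_univ,
    Real.range_exp]

private lemma plm_deriv : ∀ x ∈ (Set.univ : Set ℝ),
    HasDerivWithinAt (fun x : ℝ => Real.exp (-x)) (-Real.exp (-x)) Set.univ x := by
  intro x _
  have h := (Real.hasDerivAt_exp (-x)).comp x (hasDerivAt_neg x)
  rw [mul_neg_one] at h
  exact h.hasDerivWithinAt

private lemma plm_inj : Set.InjOn (fun x : ℝ => Real.exp (-x)) Set.univ := by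
  intro x _ y _ h
  exact neg_injective (Real.exp_injective h)

private lemma plm_cov {E : Type} [NormedAddCommGroup E] [NormedSpace ℝ E] (φ : ℝ → E) :
    ∫ x in Set.Ioi (0 : ℝ), φ x = ∫ u, Real.exp (-u) • φ (Real.exp (-u)) := by
  rw [← plm_image, integral_image_eq_integral_abs_deriv_smul MeasurableSet.univ plm_deriv plm_inj,
    setIntegral_univ]
  simp only [abs_neg, Real.abs_exp]

private lemma plm_cov_int {E : Type} [NormedAddCommGroup E] [NormedSpace ℝ E] (φ : ℝ → E) :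
    IntegrableOn φ (Set.Ioi 0) ↔ Integrable (fun u => Real.exp (-u) • φ (Real.exp (-u))) := by
  rw [← plm_image, integrableOn_image_iff_integrableOn_abs_deriv_smul MeasurableSet.univ plm_deriv
    plm_inj, integrableOn_univ]
  simp only [abs_neg, Real.abs_exp]

/-! ### Plancherel -/

private lemma plm_key (Φ : ℝ → ℂ) (hM : MellinConvergent Φ (1 / 2 : ℂ))
    (h2 : IntegrableOn (fun x => ‖Φ x‖ ^ 2) (Set.Ioi 0)) :
    Integrable (fun t : ℝ => ‖mellin Φ (1 / 2 + t * I)‖ ^ 2) ∧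
      ∫ t : ℝ, ‖mellin Φ (1 / 2 + t * I)‖ ^ 2 =
        2 * Real.pi * ∫ x in Set.Ioi (0 : ℝ), ‖Φ x‖ ^ 2 := by
  set G : ℝ → ℂ := fun u => Real.exp (-(1 / 2) * u) • Φ (Real.exp (-u)) with hG
  have hG1 : Integrable G := by
    have h := (plm_cov_int _).1 hM
    refine h.congr (Eventually.of_forall fun u => ?_)
    show Real.exp (-u) • ((Real.exp (-u) : ℂ) ^ ((1 / 2 : ℂ) - 1) • Φ (Real.exp (-u))) =
      Real.exp (-(1 / 2) * u) • Φ (Real.exp (-u))
    have h3 : ((Real.exp (-u) : ℝ) : ℂ) ^ ((1 / 2 : ℂ) - 1) = ((Real.exp (u / 2) : ℝ) : ℂ) := by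
      have h4 : ((1 / 2 : ℂ) - 1) = (((1 / 2 : ℝ) - 1 : ℝ) : ℂ) := by push_cast; ring
      rw [h4, ← Complex.ofReal_cpow (Real.exp_pos _).le, ← Real.exp_mul]
      congr 2
      ring
    rw [h3]
    simp only [Complex.real_smul, smul_eq_mul]
    rw [← mul_assoc, ← Complex.ofReal_mul, ← Real.exp_add]
    congr 3
    ring
  have hGn : ∀ u, ‖G u‖ ^ 2 = Real.exp (-u) • ‖Φ (Real.exp (-u))‖ ^ 2 := by
    intro u
    rw [hG]
    simp only [norm_smul, Real.norm_eq_abs, Real.abs_exp, smul_eq_mul]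
    rw [mul_pow, ← Real.exp_nat_mul]
    congr 2
    push_cast
    ring
  have hG2 : MemLp G 2 := by
    rw [memLp_two_iff_integrable_sq_norm hG1.aestronglyMeasurable]
    simp only [hGn]
    exact (plm_cov_int _).1 h2
  have hF : ∀ t : ℝ, mellin Φ (1 / 2 + t * I) = 𝓕 G (t / (2 * Real.pi)) := by
    intro t
    rw [mellin_eq_fourier]
    have h5 : (1 / 2 + t * I : ℂ).re = 1 / 2 := by simp
    have h6 : (1 / 2 + t * I : ℂ).im = t := by simp
    rw [h5, h6]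
  have hpi : (2 * Real.pi : ℝ) ≠ 0 := by positivity
  simp only [hF]
  refine ⟨?_, ?_⟩
  · exact (MP_48d5b6_gt.integrable_fourier_sq hG1 hG2).comp_div hpi
  · rw [Measure.integral_comp_div (fun ξ => ‖𝓕 G ξ‖ ^ 2) (2 * Real.pi),
      MP_48d5b6_gt.plancherel hG1 hG2, plm_cov (fun x => ‖Φ x‖ ^ 2)]
    simp only [hGn]
    rw [abs_of_pos (by positivity), smul_eq_mul]

/-! ### Bounds for `fa` -/

private lemma plm_fa_le (hE : S_Ebd) {ρ x : ℝ} (hρ : 0 < ρ) (hx : 0 < x) :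
    ‖fa ρ x‖ ≤ (ρ⁻¹ + 1) / x := by
  refine (hE.2.2 ρ x hρ hx).trans ?_
  have h1 : ‖Ef ρ x‖ ≤ ρ⁻¹ / x := by
    unfold Ef
    rw [norm_inv, div_eq_mul_inv, ← mul_inv]
    apply inv_anti₀ (by positivity)
    have h2 : ‖Complex.exp (av ρ * x)‖ = Real.exp (ρ * x) := by
      rw [Complex.norm_exp]
      congr 1
      simp [av]
    have h3 : ‖Complex.exp (av ρ * x)‖ ≤ ‖Complex.exp (av ρ * x) - 1‖ + 1 := by
      have h4 := norm_add_le (Complex.exp (av ρ * x) - 1) 1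
      rw [sub_add_cancel, norm_one] at h4
      exact h4
    have h5 := Real.add_one_le_exp (ρ * x)
    rw [h2] at h3
    linarith
  calc ‖Ef ρ x‖ + x⁻¹ ≤ ρ⁻¹ / x + x⁻¹ := by linarith
    _ = (ρ⁻¹ + 1) / x := by
        rw [add_div, one_div]

private lemma plm_meas (ρ : ℝ) : Measurable (fa ρ) := by
  unfold fa Ef
  fun_prop

private lemma plm_sq (hE : S_Ebd) {ρ : ℝ} (hρ : 0 < ρ) (hρ1 : ρ ≤ 1) :
    IntegrableOn (fun x => ‖fa ρ x‖ ^ 2) (Set.Ioi 0) := by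
  set K : ℝ := (3 * Real.exp 5) ^ 2 * (1 + Real.pi ^ 2) + 2 * (ρ⁻¹ + 1) ^ 2 with hK
  have hi : IntegrableOn (fun x : ℝ => K * (1 + x ^ 2)⁻¹) (Set.Ioi 0) :=
    (integrable_inv_one_add_sq.const_mul K).integrableOn
  refine hi.mono' ((plm_meas ρ).norm.pow_const 2).aestronglyMeasurable ?_
  refine (ae_restrict_mem measurableSet_Ioi).mono fun x hx => ?_
  have hx0 : 0 < x := hx
  rw [Real.norm_eq_abs, abs_of_nonneg (by positivity)]
  rcases le_or_gt x Real.pi with h | h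
  · have h1 := hE.2.1 ρ x hρ hρ1 hx0 h
    have h2 : ‖fa ρ x‖ ^ 2 ≤ (3 * Real.exp 5) ^ 2 := pow_le_pow_left₀ (norm_nonneg _) h1 2
    have h3 : (1 : ℝ) ≤ (1 + Real.pi ^ 2) * (1 + x ^ 2)⁻¹ := by
      rw [← div_eq_mul_inv, one_le_div (by positivity)]
      nlinarith
    calc ‖fa ρ x‖ ^ 2 ≤ (3 * Real.exp 5) ^ 2 * 1 := by linarith
      _ ≤ (3 * Real.exp 5) ^ 2 * ((1 + Real.pi ^ 2) * (1 + x ^ 2)⁻¹) :=
          mul_le_mul_of_nonneg_left h3 (by positivity)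
      _ ≤ K * (1 + x ^ 2)⁻¹ := by
          have h4 : K * (1 + x ^ 2)⁻¹ = (3 * Real.exp 5) ^ 2 * ((1 + Real.pi ^ 2) *
              (1 + x ^ 2)⁻¹) + 2 * (ρ⁻¹ + 1) ^ 2 * (1 + x ^ 2)⁻¹ := by
            rw [hK]
            ring
          have h5 : 0 ≤ 2 * (ρ⁻¹ + 1) ^ 2 * (1 + x ^ 2)⁻¹ := by positivity
          rw [h4]
          linarith
  · have h1 := plm_fa_le hE hρ hx0
    have h2 : ‖fa ρ x‖ ^ 2 ≤ ((ρ⁻¹ + 1) / x) ^ 2 := pow_le_pow_left₀ (norm_nonneg _) h1 2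
    have hx1 : 1 ≤ x := by
      have := Real.pi_gt_three
      linarith
    have h3 : (x ^ 2)⁻¹ ≤ 2 * (1 + x ^ 2)⁻¹ := by
      rw [← div_eq_mul_inv, ← one_div, div_le_div_iff₀ (by positivity) (by positivity)]
      nlinarith
    calc ‖fa ρ x‖ ^ 2 ≤ (ρ⁻¹ + 1) ^ 2 * (x ^ 2)⁻¹ := by
          rw [← div_eq_mul_inv, ← div_pow]
          exact h2
      _ ≤ (ρ⁻¹ + 1) ^ 2 * (2 * (1 + x ^ 2)⁻¹) := mul_le_mul_of_nonneg_left h3 (by positivity)
      _ ≤ K * (1 + x ^ 2)⁻¹ := by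
          have h4 : K * (1 + x ^ 2)⁻¹ = (3 * Real.exp 5) ^ 2 * (1 + Real.pi ^ 2) *
              (1 + x ^ 2)⁻¹ + (ρ⁻¹ + 1) ^ 2 * (2 * (1 + x ^ 2)⁻¹) := by
            rw [hK]
            ring
          have h5 : 0 ≤ (3 * Real.exp 5) ^ 2 * (1 + Real.pi ^ 2) * (1 + x ^ 2)⁻¹ := by positivity
          rw [h4]
          linarith

private lemma plm_memLp (hE : S_Ebd) {ρ : ℝ} (hρ : 0 < ρ) (hρ1 : ρ ≤ 1) (h : ℕ) (hh : 1 ≤ h) :
    MemLp (fun x : ℝ => fa ρ (h * x)) 2 (volume.restrict (Set.Ioi 0)) := by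
  have hm : Measurable (fun x : ℝ => fa ρ (h * x)) :=
    (plm_meas ρ).comp (measurable_const.mul measurable_id)
  rw [memLp_two_iff_integrable_sq_norm hm.aestronglyMeasurable]
  have hh0 : (0 : ℝ) < h := by exact_mod_cast hh
  have h1 := (integrableOn_Ioi_comp_mul_left_iff (fun x => ‖fa ρ x‖ ^ 2) 0 hh0).2
    (by rw [mul_zero]; exact plm_sq hE hρ hρ1)
  exact h1

/-! ### The Gamma factor -/

private lemma plm_sin (t : ℝ) (ht : 0 ≤ t) :
    ‖Complex.sin (Real.pi * (1 / 2 + t * I))‖ ≤ Real.exp (Real.pi * t) := by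
  set z : ℂ := Real.pi * (1 / 2 + t * I) with hz
  have him : z.im = Real.pi * t := by
    rw [hz]
    simp
  have h1 : Complex.sin z = (Complex.exp (-z * I) - Complex.exp (z * I)) * I / 2 := rfl
  rw [h1, norm_div, norm_mul, Complex.norm_I, mul_one]
  have h2 : ‖(2 : ℂ)‖ = 2 := by simp
  rw [h2, div_le_iff₀ (by norm_num)]
  refine (norm_sub_le _ _).trans ?_
  rw [Complex.norm_exp, Complex.norm_exp]
  have h3 : (-z * I).re = Real.pi * t := by
    rw [Complex.mul_re]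
    simp [him]
  have h4 : (z * I).re = -(Real.pi * t) := by
    rw [Complex.mul_re]
    simp [him]
  rw [h3, h4]
  have h5 : Real.exp (-(Real.pi * t)) ≤ Real.exp (Real.pi * t) := by
    apply Real.exp_le_exp.2
    have : 0 ≤ Real.pi * t := by positivity
    linarith
  linarith

private lemma plm_gamma (t : ℝ) (ht : 0 ≤ t) :
    Real.pi * Real.exp (-(Real.pi * t)) ≤ ‖Complex.Gamma (1 / 2 + t * I)‖ ^ 2 := by
  have h1 := Complex.Gamma_mul_Gamma_one_sub (1 / 2 + t * I : ℂ)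
  have h2 : (1 - (1 / 2 + t * I) : ℂ) = (starRingEnd ℂ) (1 / 2 + t * I : ℂ) := by
    apply Complex.ext
    · simp
      norm_num
    · simp
  rw [h2, Complex.Gamma_conj] at h1
  have h3 := congrArg norm h1
  rw [norm_mul, Complex.norm_conj, norm_div, Complex.norm_real, Real.norm_eq_abs,
    abs_of_pos Real.pi_pos] at h3
  rw [sq, h3]
  have h4 := plm_sin t ht
  have h5 : 0 < ‖Complex.sin (Real.pi * (1 / 2 + t * I))‖ := by
    rw [norm_pos_iff]
    intro h6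
    rw [h6, norm_zero, div_zero] at h3
    have h7 : ‖Complex.Gamma (1 / 2 + t * I)‖ = 0 := by nlinarith [h3]
    rw [norm_eq_zero] at h7
    exact Complex.Gamma_ne_zero_of_re_pos (by simp) h7
  rw [Real.exp_neg, ← div_eq_mul_inv]
  exact div_le_div_of_nonneg_left Real.pi_pos.le h5 h4

/-! ### The factor `av ρ ^ (-s)` -/

private lemma plm_arg (ρ : ℝ) (hρ : 0 < ρ) : Real.pi / 2 - ρ ≤ (av ρ).arg := by
  have hre : (av ρ).re = ρ := by simp [av]
  have him : (av ρ).im = 1 := by simp [av]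
  have h1 : |(av ρ).arg| ≤ Real.pi / 2 := Complex.abs_arg_le_pi_div_two_iff.2 (by rw [hre]; exact hρ.le)
  have h2 : 0 ≤ (av ρ).arg := Complex.arg_nonneg_iff.2 (by rw [him]; exact zero_le_one)
  have h3 : (av ρ).arg ≠ 0 := by
    intro h
    have h4 := (Complex.arg_eq_zero_iff.1 h).2
    rw [him] at h4
    exact one_ne_zero h4
  have h4 : 0 < (av ρ).arg := lt_of_le_of_ne h2 (Ne.symm h3)
  have h5 : (av ρ).arg ≤ Real.pi / 2 := (le_abs_self _).trans h1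
  have h6 : Real.tan (Real.pi / 2 - (av ρ).arg) = ρ := by
    rw [Real.tan_pi_div_two_sub, Complex.tan_arg, hre, him, one_div, inv_inv]
  have h7 := Real.le_tan (x := Real.pi / 2 - (av ρ).arg) (by linarith) (by linarith)
  rw [h6] at h7
  linarith

private lemma plm_av (ρ t : ℝ) (hρ : 0 < ρ) (ht : 0 ≤ t) :
    ‖av ρ‖⁻¹ * Real.exp (Real.pi * t - 2 * ρ * t) ≤ ‖av ρ ^ (-(1 / 2 + t * I : ℂ))‖ ^ 2 := by
  have him : (av ρ).im = 1 := by simp [av]
  have h0 : av ρ ≠ 0 := by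
    intro h
    rw [h] at him
    simp at him
  have hn : 0 < ‖av ρ‖ := norm_pos_iff.2 h0
  rw [Complex.norm_cpow_of_ne_zero h0]
  have h1 : (-(1 / 2 + t * I : ℂ)).re = -(1 / 2) := by simp
  have h2 : (-(1 / 2 + t * I : ℂ)).im = -t := by simp
  rw [h1, h2, div_pow, ← Real.rpow_natCast, ← Real.rpow_mul hn.le, ← Real.exp_nat_mul]
  have h3 : (-(1 / 2) * ((2 : ℕ) : ℝ)) = -1 := by norm_num
  rw [h3, Real.rpow_neg_one, div_eq_mul_inv, ← Real.exp_neg]
  refine mul_le_mul_of_nonneg_left (Real.exp_le_exp.2 ?_) (by positivity)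
  have h4 := plm_arg ρ hρ
  push_cast
  nlinarith

/-! ### The Mellin transform of the sum -/

private lemma plm_F (hM : S_Mel) {T t : ℝ} (hT : 2 ≤ T) (h1 : T ≤ t) (h2 : t ≤ 2 * T) :
    ‖riemannZeta (1 / 2 + t * I)‖ ^ 2 ≤
      (3 / 2 * Real.exp 4 / Real.pi) * ‖mellin (fa (1 / T)) (1 / 2 + t * I)‖ ^ 2 := by
  have hT0 : 0 < T := by linarith
  have hρ : 0 < 1 / T := by positivity
  have ht : 0 ≤ t := by linarith
  rw [(hM (1 / T) t hρ).2, norm_mul, norm_mul, mul_pow, mul_pow]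
  have h3 := plm_av (1 / T) t hρ ht
  have h4 := plm_gamma t ht
  have hav : ‖av (1 / T)‖ ≤ 3 / 2 := by
    unfold av
    refine (norm_add_le _ _).trans ?_
    rw [Complex.norm_I, Complex.norm_real, Real.norm_eq_abs, abs_of_pos hρ]
    have : 1 / T ≤ 1 / 2 := one_div_le_one_div_of_le (by norm_num) hT
    linarith
  have hav0 : 0 < ‖av (1 / T)‖ := by
    rw [norm_pos_iff]
    intro h
    have him : (av (1 / T)).im = 1 := by simp [av]
    rw [h] at him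
    simp at him
  have h5 : (3 / 2 : ℝ)⁻¹ ≤ ‖av (1 / T)‖⁻¹ := inv_anti₀ hav0 hav
  have h6 : Real.exp (-4) ≤ Real.exp (Real.pi * t - 2 * (1 / T) * t) *
      Real.exp (-(Real.pi * t)) := by
    rw [← Real.exp_add]
    apply Real.exp_le_exp.2
    have h7 : 2 * (1 / T) * t ≤ 4 := by
      have : 2 * (1 / T) * t = 2 * t / T := by ring
      rw [this, div_le_iff₀ hT0]
      linarith
    linarith
  have h8 : (3 / 2 : ℝ)⁻¹ * Real.exp (-4) * Real.pi ≤
      ‖av (1 / T) ^ (-(1 / 2 + t * I : ℂ))‖ ^ 2 * ‖Complex.Gamma (1 / 2 + t * I)‖ ^ 2 := by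
    calc (3 / 2 : ℝ)⁻¹ * Real.exp (-4) * Real.pi ≤
        ‖av (1 / T)‖⁻¹ * (Real.exp (Real.pi * t - 2 * (1 / T) * t) *
          Real.exp (-(Real.pi * t))) * Real.pi := by
          apply mul_le_mul_of_nonneg_right _ Real.pi_pos.le
          exact mul_le_mul h5 h6 (Real.exp_pos _).le (by positivity)
      _ = (‖av (1 / T)‖⁻¹ * Real.exp (Real.pi * t - 2 * (1 / T) * t)) *
          (Real.pi * Real.exp (-(Real.pi * t))) := by ring
      _ ≤ _ := mul_le_mul h3 h4 (by positivity) (by positivity)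
  have h9 : (3 / 2 * Real.exp 4 / Real.pi) * ((3 / 2 : ℝ)⁻¹ * Real.exp (-4) * Real.pi) = 1 := by
    rw [Real.exp_neg]
    have := Real.exp_pos 4
    have := Real.pi_pos
    field_simp
  calc ‖riemannZeta (1 / 2 + t * I)‖ ^ 2 =
      (3 / 2 * Real.exp 4 / Real.pi) * ((3 / 2 : ℝ)⁻¹ * Real.exp (-4) * Real.pi) *
        ‖riemannZeta (1 / 2 + t * I)‖ ^ 2 := by rw [h9, one_mul]
    _ ≤ (3 / 2 * Real.exp 4 / Real.pi) * (‖av (1 / T) ^ (-(1 / 2 + t * I : ℂ))‖ ^ 2 *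
        ‖Complex.Gamma (1 / 2 + t * I)‖ ^ 2) * ‖riemannZeta (1 / 2 + t * I)‖ ^ 2 := by
        apply mul_le_mul_of_nonneg_right _ (by positivity)
        exact mul_le_mul_of_nonneg_left h8 (by positivity)
    _ = _ := by ring

private lemma plm_hasMellin (hM : S_Mel) {ρ : ℝ} (hρ : 0 < ρ) {ι : Type} (s : Finset ι)
    (h : ι → ℕ) (c : ι → ℝ) (hh : ∀ i ∈ s, 1 ≤ h i) (t : ℝ) :
    MellinConvergent (fun x : ℝ => ∑ i ∈ s, (c i : ℂ) * fa ρ (h i * x)) (1 / 2 + t * I) ∧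
      mellin (fun x : ℝ => ∑ i ∈ s, (c i : ℂ) * fa ρ (h i * x)) (1 / 2 + t * I) =
        mellin (fa ρ) (1 / 2 + t * I) * ∑ i ∈ s, (c i : ℂ) * pw (1 / 2) (h i) t := by
  classical
  have hterm : ∀ i ∈ s, MellinConvergent (fun x : ℝ => (c i : ℂ) * fa ρ (h i * x))
      (1 / 2 + t * I) ∧ mellin (fun x : ℝ => (c i : ℂ) * fa ρ (h i * x)) (1 / 2 + t * I) =
        mellin (fa ρ) (1 / 2 + t * I) * ((c i : ℂ) * pw (1 / 2) (h i) t) := by
    intro i hi
    have hi0 : (0 : ℝ) < h i := by exact_mod_cast hh i hi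
    have h1 : MellinConvergent (fun x : ℝ => fa ρ (h i * x)) (1 / 2 + t * I) :=
      (MellinConvergent.comp_mul_left hi0).2 (hM ρ t hρ).1
    have h2 := hasMellin_const_smul h1 (c i : ℂ)
    simp only [smul_eq_mul] at h2
    refine ⟨h2.1, ?_⟩
    rw [h2.2, mellin_comp_mul_left (fa ρ) _ hi0, smul_eq_mul]
    have h3 : (((h i : ℕ) : ℝ) : ℂ) ^ (-(1 / 2 + t * I : ℂ)) = pw (1 / 2) (h i) t := by
      unfold pw
      push_cast
      rfl
    rw [h3]
    ring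
  induction s using Finset.induction_on with
  | empty =>
    simp only [Finset.sum_empty, mul_zero]
    refine ⟨?_, ?_⟩
    · unfold MellinConvergent
      simp only [smul_zero]
      exact integrableOn_zero
    · unfold mellin
      simp
  | insert a s ha ih =>
    obtain ⟨i1, i2⟩ := ih (fun i hi => hh i (Finset.mem_insert_of_mem hi))
      (fun i hi => hterm i (Finset.mem_insert_of_mem hi))
    obtain ⟨j1, j2⟩ := hterm a (Finset.mem_insert_self _ _)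
    have h4 := hasMellin_add j1 i1
    simp only [Finset.sum_insert ha]
    refine ⟨h4.1, ?_⟩
    rw [h4.2, i2, j2, mul_add]

private lemma plm_sum (hE : S_Ebd) {ρ : ℝ} (hρ : 0 < ρ) (hρ1 : ρ ≤ 1) {ι : Type} (s : Finset ι)
    (h : ι → ℕ) (c : ι → ℝ) (hh : ∀ i ∈ s, 1 ≤ h i) :
    IntegrableOn (fun x : ℝ => ‖∑ i ∈ s, (c i : ℂ) * fa ρ (h i * x)‖ ^ 2) (Set.Ioi 0) ∧
      ∫ x in Set.Ioi (0 : ℝ), ‖∑ i ∈ s, (c i : ℂ) * fa ρ (h i * x)‖ ^ 2 =
        ∑ i ∈ s, ∑ j ∈ s, c i * c j * (Ihk ρ (h i) (h j)).re := by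
  have hm : MemLp (fun x : ℝ => ∑ i ∈ s, (c i : ℂ) * fa ρ (h i * x)) 2
      (volume.restrict (Set.Ioi 0)) :=
    memLp_finsetSum s fun i hi => (plm_memLp hE hρ hρ1 (h i) (hh i hi)).const_mul (c i : ℂ)
  have hint : ∀ i ∈ s, ∀ j ∈ s, IntegrableOn
      (fun x : ℝ => fa ρ (h i * x) * (starRingEnd ℂ) (fa ρ (h j * x))) (Set.Ioi 0) := by
    intro i hi j hj
    have h1 := plm_memLp hE hρ hρ1 (h i) (hh i hi)
    have h2 := (plm_memLp hE hρ hρ1 (h j) (hh j hj)).star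
    exact h1.integrable_mul h2
  refine ⟨(memLp_two_iff_integrable_sq_norm hm.1).1 hm, ?_⟩
  have h3 : ∀ x : ℝ, ((‖∑ i ∈ s, (c i : ℂ) * fa ρ (h i * x)‖ ^ 2 : ℝ) : ℂ) =
      ∑ i ∈ s, ∑ j ∈ s, ((c i * c j : ℝ) : ℂ) *
        (fa ρ (h i * x) * (starRingEnd ℂ) (fa ρ (h j * x))) := by
    intro x
    rw [Complex.ofReal_pow, ← Complex.mul_conj', map_sum, Finset.sum_mul_sum]
    refine Finset.sum_congr rfl fun i _ => Finset.sum_congr rfl fun j _ => ?_
    rw [map_mul, Complex.conj_ofReal, Complex.ofReal_mul]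
    ring
  have h4 : ((∫ x in Set.Ioi (0 : ℝ), ‖∑ i ∈ s, (c i : ℂ) * fa ρ (h i * x)‖ ^ 2 : ℝ) : ℂ) =
      ∑ i ∈ s, ∑ j ∈ s, ((c i * c j : ℝ) : ℂ) * Ihk ρ (h i) (h j) := by
    have h5 : ((∫ x in Set.Ioi (0 : ℝ), ‖∑ i ∈ s, (c i : ℂ) * fa ρ (h i * x)‖ ^ 2 : ℝ) : ℂ) =
        ∫ x in Set.Ioi (0 : ℝ), ((‖∑ i ∈ s, (c i : ℂ) * fa ρ (h i * x)‖ ^ 2 : ℝ) : ℂ) :=
      integral_ofReal.symm
    rw [h5]
    simp only [h3]
    rw [integral_finsetSum]
    · refine Finset.sum_congr rfl fun i hi => ?_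
      rw [integral_finsetSum]
      · refine Finset.sum_congr rfl fun j hj => ?_
        rw [integral_const_mul]
        rfl
      · intro j hj
        exact (hint i hi j hj).const_mul _
    · intro i hi
      exact integrable_finsetSum _ fun j hj => (hint i hi j hj).const_mul _
  have h5 := congrArg Complex.re h4
  rw [Complex.ofReal_re, Complex.re_sum] at h5
  rw [h5]
  refine Finset.sum_congr rfl fun i _ => ?_
  rw [Complex.re_sum]
  refine Finset.sum_congr rfl fun j _ => ?_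
  rw [Complex.re_ofReal_mul]

/-- **Plancherel.** -/
theorem pPlm (hMel : S_Mel) (hEbd : S_Ebd) : S_Plm := by
  intro T hT ι s h c hh
  have hT0 : 0 < T := by linarith
  have hρ : 0 < 1 / T := by positivity
  have hρ1 : 1 / T ≤ 1 := by
    rw [div_le_one hT0]
    linarith
  set Φ : ℝ → ℂ := fun x : ℝ => ∑ i ∈ s, (c i : ℂ) * fa (1 / T) (h i * x) with hΦ
  have hc0 := (plm_hasMellin hMel hρ s h c hh 0).1
  have hc0' : MellinConvergent Φ (1 / 2 : ℂ) := by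
    have h1 : (1 / 2 + ((0 : ℝ) : ℂ) * I : ℂ) = 1 / 2 := by simp
    rw [h1] at hc0
    exact hc0
  obtain ⟨hi, hsum⟩ := plm_sum hEbd hρ hρ1 s h c hh
  obtain ⟨k1, k2⟩ := plm_key Φ hc0' hi
  rw [hΦ] at k2
  rw [hsum] at k2
  rw [intervalIntegral.integral_of_le (by linarith)]
  have hmono : ∫ t in Set.Ioc T (2 * T), ‖riemannZeta (1 / 2 + t * I)‖ ^ 2 *
        ‖∑ i ∈ s, (c i : ℂ) * pw (1 / 2) (h i) t‖ ^ 2 ≤
      ∫ t in Set.Ioc T (2 * T), (3 / 2 * Real.exp 4 / Real.pi) * ‖mellin Φ (1 / 2 + t * I)‖ ^ 2 := by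
    apply integral_mono_of_nonneg
    · exact Eventually.of_forall fun t => by positivity
    · exact (k1.const_mul _).integrableOn
    · refine (ae_restrict_mem measurableSet_Ioc).mono fun t ht => ?_
      show ‖riemannZeta (1 / 2 + t * I)‖ ^ 2 *
        ‖∑ i ∈ s, (c i : ℂ) * pw (1 / 2) (h i) t‖ ^ 2 ≤
        (3 / 2 * Real.exp 4 / Real.pi) * ‖mellin Φ (1 / 2 + t * I)‖ ^ 2
      rw [(plm_hasMellin hMel hρ s h c hh t).2, norm_mul, mul_pow, ← mul_assoc]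
      exact mul_le_mul_of_nonneg_right (plm_F hMel hT ht.1.le ht.2) (by positivity)
  have hle : ∫ t in Set.Ioc T (2 * T), (3 / 2 * Real.exp 4 / Real.pi) *
        ‖mellin Φ (1 / 2 + t * I)‖ ^ 2 ≤
      ∫ t : ℝ, (3 / 2 * Real.exp 4 / Real.pi) * ‖mellin Φ (1 / 2 + t * I)‖ ^ 2 :=
    setIntegral_le_integral (k1.const_mul _) (Eventually.of_forall fun t => by positivity)
  refine (hmono.trans hle).trans ?_
  rw [integral_const_mul, k2]
  set R : ℝ := ∑ i ∈ s, ∑ j ∈ s, c i * c j * (Ihk (1 / T) (h i) (h j)).re with hR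
  have hR0 : 0 ≤ R := by
    rw [← hsum]
    exact integral_nonneg fun x => by positivity
  have hexp : Real.exp 4 ≤ 50 * 1.1 := by
    have h1 := Real.exp_one_lt_d9
    have h2 : Real.exp 4 = Real.exp 1 ^ 4 := by
      rw [← Real.exp_nat_mul]
      norm_num
    rw [h2]
    have h3 : Real.exp 1 ^ 4 ≤ 2.7182818286 ^ 4 := pow_le_pow_left₀ (Real.exp_pos _).le h1.le 4
    refine h3.trans ?_
    norm_num
  have h6 : 3 / 2 * Real.exp 4 / Real.pi * (2 * Real.pi * R) = 3 * Real.exp 4 * R := by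
    have := Real.pi_pos
    field_simp
  rw [h6]
  nlinarith

end Pool.Agent.Lib.MP_aa9ae4_nt.L1
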