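import Pool.Agent.Lib.MP_aa9ae4_nt.L1.SpecC

/-!
MP_aa9ae4_nt, Theorem L: the mean over a period (`S_Pmn`).
-/

namespace Pool.Agent.Lib.MP_aa9ae4_nt.L1

open Finset MeasureTheory Filter Topology
open Complex (I)
open Pool.Agent.Lib.MP_aa9ae4_nt.S1 (pw psumS eulS tail prs nn KK expJ HT fzS y1)

private theorem pmn_geo (w : ℂ) (hw : 0 < w.re) :
    HasSum (fun m : ℕ => Complex.exp (-w) ^ (m + 1)) (Complex.exp w - 1)⁻¹ := by
  have h1 : ‖Complex.exp (-w)‖ < 1 := by
    rw [Complex.norm_exp, Complex.neg_re, Real.exp_lt_one_iff]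
    linarith
  have h2 := (hasSum_geometric_of_norm_lt_one h1).mul_left (Complex.exp (-w))
  have h3 : Complex.exp w ≠ 0 := Complex.exp_ne_zero _
  have h5 : Complex.exp (-w) * (1 - Complex.exp (-w))⁻¹ = (Complex.exp w - 1)⁻¹ := by
    rw [Complex.exp_neg, ← mul_inv]
    congr 1
    rw [mul_sub, mul_one, mul_inv_cancel₀ h3]
  rw [h5] at h2
  have h6 : (fun m : ℕ => Complex.exp (-w) ^ (m + 1)) =
      fun m : ℕ => Complex.exp (-w) * Complex.exp (-w) ^ m := by
    funext m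
    rw [pow_succ']
  rw [h6]
  exact h2

/-- the orthogonality relation -/
private theorem pmn_orth (r : ℤ) :
    ∫ y in (-Real.pi)..Real.pi, Complex.exp (-(r : ℂ) * (y * I)) =
      if r = 0 then ((2 * Real.pi : ℝ) : ℂ) else 0 := by
  split_ifs with hr
  · subst hr
    simp only [Int.cast_zero, neg_zero, zero_mul, Complex.exp_zero, intervalIntegral.integral_const,
      Complex.real_smul, mul_one]
    push_cast
    ring
  · have hc : (-(r : ℂ) * I) ≠ 0 := by
      refine mul_ne_zero (neg_ne_zero.2 (by exact_mod_cast hr)) Complex.I_ne_zero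
    have h1 : ∀ y : ℝ, Complex.exp (-(r : ℂ) * (y * I)) = Complex.exp ((-(r : ℂ) * I) * y) := by
      intro y
      congr 1
      ring
    simp only [h1]
    rw [integral_exp_mul_complex hc]
    have h2 : Complex.exp (-(r : ℂ) * I * ((-Real.pi : ℝ) : ℂ)) =
        Complex.exp (-(r : ℂ) * I * (Real.pi : ℂ)) := by
      have h3 : -(r : ℂ) * I * ((-Real.pi : ℝ) : ℂ) =
          -(r : ℂ) * I * (Real.pi : ℂ) + r * (2 * Real.pi * I) := by
        push_cast
        ring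
      rw [h3, Complex.exp_add, Complex.exp_int_mul_two_pi_mul_I, mul_one]
    rw [h2, sub_self, zero_div]

/-- the terms of the double series -/
private noncomputable def pmnF (u : ℝ) (h k : ℕ) (x : ℕ × ℕ) (y : ℝ) : ℂ :=
  Complex.exp (-((h : ℂ) * ((u : ℂ) + y * I))) ^ (x.1 + 1) *
    Complex.exp (-((k : ℂ) * ((u : ℂ) - y * I))) ^ (x.2 + 1)

private noncomputable def pmnB (u : ℝ) (h k : ℕ) (x : ℕ × ℕ) : ℝ :=
  Real.exp (-(h * u)) ^ (x.1 + 1) * Real.exp (-(k * u)) ^ (x.2 + 1)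

private theorem pmn_re1 (u : ℝ) (h : ℕ) (y : ℝ) : ((h : ℂ) * ((u : ℂ) + y * I)).re = h * u := by
  simp

private theorem pmn_re2 (u : ℝ) (k : ℕ) (y : ℝ) : ((k : ℂ) * ((u : ℂ) - y * I)).re = k * u := by
  simp

private theorem pmn_norm (u : ℝ) (h k : ℕ) (x : ℕ × ℕ) (y : ℝ) :
    ‖pmnF u h k x y‖ = pmnB u h k x := by
  unfold pmnF pmnB
  rw [norm_mul, norm_pow, norm_pow, Complex.norm_exp, Complex.norm_exp, Complex.neg_re,
    Complex.neg_re, pmn_re1, pmn_re2]

private theorem pmn_s1 (c : ℝ) (hc : 0 < c) : Summable fun m : ℕ => Real.exp (-c) ^ (m + 1) := by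
  have h1 : Real.exp (-c) < 1 := by
    rw [Real.exp_lt_one_iff]
    linarith
  have h2 := (summable_geometric_of_lt_one (Real.exp_nonneg (-c)) h1).mul_left (Real.exp (-c))
  have h6 : (fun m : ℕ => Real.exp (-c) ^ (m + 1)) =
      fun m : ℕ => Real.exp (-c) * Real.exp (-c) ^ m := by
    funext m
    rw [pow_succ']
  rw [h6]
  exact h2

private theorem pmn_bs (u : ℝ) (h k : ℕ) (hu : 0 < u) (hh : 1 ≤ h) (hk : 1 ≤ k) :
    Summable (pmnB u h k) := by
  have hh0 : (0 : ℝ) < h := by exact_mod_cast hh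
  have hk0 : (0 : ℝ) < k := by exact_mod_cast hk
  have hs1 := pmn_s1 (h * u) (mul_pos hh0 hu)
  have hs2 := pmn_s1 (k * u) (mul_pos hk0 hu)
  have h3 := Summable.mul_of_nonneg hs1 hs2 (fun m => pow_nonneg (Real.exp_nonneg _) _)
    (fun m => pow_nonneg (Real.exp_nonneg _) _)
  exact h3

private theorem pmn_cont (u : ℝ) (h k : ℕ) (x : ℕ × ℕ) : Continuous (pmnF u h k x) := by
  unfold pmnF
  fun_prop

private theorem pmn_mul (u : ℝ) (h k : ℕ) (y : ℝ)
    (a3 : Summable fun x : ℕ × ℕ => pmnF u h k x y) (A B : ℂ)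
    (a1 : HasSum (fun m : ℕ => Complex.exp (-((h : ℂ) * ((u : ℂ) + y * I))) ^ (m + 1)) A)
    (a2 : HasSum (fun m : ℕ => Complex.exp (-((k : ℂ) * ((u : ℂ) - y * I))) ^ (m + 1)) B) :
    HasSum (fun x => pmnF u h k x y) (A * B) := by
  have h3 : ∀ x, pmnF u h k x y =
      (fun m : ℕ => Complex.exp (-((h : ℂ) * ((u : ℂ) + y * I))) ^ (m + 1)) x.1 *
        (fun m : ℕ => Complex.exp (-((k : ℂ) * ((u : ℂ) - y * I))) ^ (m + 1)) x.2 := fun x => rfl
  generalize (fun m : ℕ => Complex.exp (-((h : ℂ) * ((u : ℂ) + y * I))) ^ (m + 1)) = f at h3 a1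
  generalize (fun m : ℕ => Complex.exp (-((k : ℂ) * ((u : ℂ) - y * I))) ^ (m + 1)) = g at h3 a2
  simp only [h3] at a3 ⊢
  exact HasSum.mul a1 a2 a3

private theorem pmn_lim (u : ℝ) (h k : ℕ) (hu : 0 < u) (hh : 1 ≤ h) (hk : 1 ≤ k) (y : ℝ) :
    HasSum (fun x => pmnF u h k x y)
      ((Complex.exp ((h : ℂ) * ((u : ℂ) + y * I)) - 1)⁻¹ *
        (Complex.exp ((k : ℂ) * ((u : ℂ) - y * I)) - 1)⁻¹) := by
  have hh0 : (0 : ℝ) < h := by exact_mod_cast hh
  have hk0 : (0 : ℝ) < k := by exact_mod_cast hk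
  have b1 : 0 < ((h : ℂ) * ((u : ℂ) + y * I)).re := by
    rw [pmn_re1]
    exact mul_pos hh0 hu
  have b2 : 0 < ((k : ℂ) * ((u : ℂ) - y * I)).re := by
    rw [pmn_re2]
    exact mul_pos hk0 hu
  exact pmn_mul u h k y (Summable.of_norm_bounded (pmn_bs u h k hu hh hk)
    fun x => (pmn_norm u h k x y).le) _ _ (pmn_geo _ b1) (pmn_geo _ b2)

private theorem pmn_sum (u : ℝ) (h k : ℕ) (hu : 0 < u) (hh : 1 ≤ h) (hk : 1 ≤ k) :
    HasSum (fun x => ∫ y in (-Real.pi)..Real.pi, pmnF u h k x y)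
      (∫ y in (-Real.pi)..Real.pi, (Complex.exp ((h : ℂ) * ((u : ℂ) + y * I)) - 1)⁻¹ *
        (Complex.exp ((k : ℂ) * ((u : ℂ) - y * I)) - 1)⁻¹) := by
  refine intervalIntegral.hasSum_integral_of_dominated_convergence (fun x _ => pmnB u h k x)
    (fun x => (pmn_cont u h k x).aestronglyMeasurable) ?_ ?_ ?_ ?_
  · intro x
    exact Eventually.of_forall fun y _ => (pmn_norm u h k x y).le
  · exact Eventually.of_forall fun y _ => pmn_bs u h k hu hh hk
  · exact intervalIntegrable_const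
  · exact Eventually.of_forall fun y _ => pmn_lim u h k hu hh hk y

private theorem pmn_eq (u : ℝ) (h k : ℕ) (x : ℕ × ℕ) (y : ℝ) :
    pmnF u h k x y = (pmnB u h k x : ℂ) *
        Complex.exp (-((((x.1 + 1) * h : ℤ) - ((x.2 + 1) * k : ℤ) : ℤ) : ℂ) * (y * I)) := by
  unfold pmnF pmnB
  push_cast
  rw [← Complex.exp_nat_mul, ← Complex.exp_nat_mul, ← Complex.exp_nat_mul,
    ← Complex.exp_nat_mul, ← Complex.exp_add, ← Complex.exp_add, ← Complex.exp_add]
  congr 1
  push_cast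
  ring

private theorem pmn_int (u : ℝ) (h k : ℕ) (x : ℕ × ℕ) :
    ∫ y in (-Real.pi)..Real.pi, pmnF u h k x y =
      if (x.1 + 1) * h = (x.2 + 1) * k then ((2 * Real.pi * pmnB u h k x : ℝ) : ℂ) else 0 := by
  simp only [pmn_eq]
  rw [intervalIntegral.integral_const_mul, pmn_orth]
  have e2 : ((((x.1 + 1) * h : ℤ) - ((x.2 + 1) * k : ℤ) : ℤ) = 0) ↔
      (x.1 + 1) * h = (x.2 + 1) * k := by
    rw [sub_eq_zero]
    constructor
    · intro h0
      exact_mod_cast h0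
    · intro h0
      exact_mod_cast h0
  by_cases hx : (x.1 + 1) * h = (x.2 + 1) * k
  · rw [if_pos hx, if_pos (e2.2 hx)]
    push_cast
    ring
  · rw [if_neg hx, if_neg (fun h0 => hx (e2.1 h0)), mul_zero]

private theorem pmn_diag (u : ℝ) (h k : ℕ) (hh : 1 ≤ h) (hk : 1 ≤ k) (hco : Nat.Coprime h k)
    (S : ℂ) (hS : HasSum (fun x : ℕ × ℕ =>
      if (x.1 + 1) * h = (x.2 + 1) * k then ((2 * Real.pi * pmnB u h k x : ℝ) : ℂ) else 0) S) :
    HasSum (fun l : ℕ => ((2 * Real.pi * Real.exp (-(2 * h * k * u)) ^ (l + 1) : ℝ) : ℂ)) S := by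
  have hk1 : ∀ l, k * (l + 1) - 1 + 1 = k * (l + 1) := fun l =>
    Nat.sub_add_cancel (Nat.mul_pos hk (Nat.succ_pos l))
  have hh1 : ∀ l, h * (l + 1) - 1 + 1 = h * (l + 1) := fun l =>
    Nat.sub_add_cancel (Nat.mul_pos hh (Nat.succ_pos l))
  have hgi : Function.Injective (fun l : ℕ => (k * (l + 1) - 1, h * (l + 1) - 1)) := by
    intro a b hab
    have h1 : k * (a + 1) - 1 = k * (b + 1) - 1 := congrArg Prod.fst hab
    have h2 : k * (a + 1) = k * (b + 1) := by
      rw [← hk1 a, ← hk1 b, h1]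
    have h3 := Nat.eq_of_mul_eq_mul_left (by omega : 0 < k) h2
    omega
  have hoff : ∀ x ∉ Set.range (fun l : ℕ => (k * (l + 1) - 1, h * (l + 1) - 1)),
      (if (x.1 + 1) * h = (x.2 + 1) * k then
      ((2 * Real.pi * pmnB u h k x : ℝ) : ℂ) else 0) = 0 := by
    intro x hx
    refine if_neg fun he => hx ?_
    have hd : k ∣ (x.1 + 1) := by
      have : k ∣ (x.1 + 1) * h := ⟨x.2 + 1, by rw [he, mul_comm]⟩
      exact (Nat.Coprime.dvd_of_dvd_mul_right hco.symm this)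
    obtain ⟨l, hl⟩ := hd
    have hl0 : 0 < l := by
      rcases Nat.eq_zero_or_pos l with h0 | h0
      · rw [h0, mul_zero] at hl
        omega
      · exact h0
    refine ⟨l - 1, ?_⟩
    have hl1 : l - 1 + 1 = l := by omega
    have hx2 : x.2 + 1 = h * l := by
      rw [hl] at he
      have : k * (l * h) = k * (x.2 + 1) := by
        rw [← mul_assoc, he, mul_comm]
      have h4 := Nat.eq_of_mul_eq_mul_left (by omega : 0 < k) this
      rw [← h4, mul_comm]
    refine Prod.ext ?_ ?_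
    · show k * (l - 1 + 1) - 1 = x.1
      rw [hl1, ← hl]
      omega
    · show h * (l - 1 + 1) - 1 = x.2
      rw [hl1, ← hx2]
      omega
  have hdiag := (hgi.hasSum_iff hoff).2 hS
  have hfun : ((fun x : ℕ × ℕ => (if (x.1 + 1) * h = (x.2 + 1) * k then
      ((2 * Real.pi * pmnB u h k x : ℝ) : ℂ) else 0)) ∘
        (fun l : ℕ => (k * (l + 1) - 1, h * (l + 1) - 1))) =
      fun l : ℕ => ((2 * Real.pi * Real.exp (-(2 * h * k * u)) ^ (l + 1) : ℝ) : ℂ) := by
    funext l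
    have h1 : (k * (l + 1) - 1 + 1) * h = (h * (l + 1) - 1 + 1) * k := by
      rw [hk1, hh1]
      ring
    have h2 : pmnB u h k (k * (l + 1) - 1, h * (l + 1) - 1) =
        Real.exp (-(2 * h * k * u)) ^ (l + 1) := by
      unfold pmnB
      dsimp only
      rw [hk1, hh1, ← Real.exp_nat_mul, ← Real.exp_nat_mul, ← Real.exp_nat_mul, ← Real.exp_add]
      congr 1
      push_cast
      ring
    rw [Function.comp_apply]
    dsimp only
    rw [if_pos h1, h2]
  rw [hfun] at hdiag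
  exact hdiag

private theorem pmn_fin (c : ℝ) (hc : 0 < c) :
    HasSum (fun l : ℕ => ((2 * Real.pi * Real.exp (-c) ^ (l + 1) : ℝ) : ℂ))
      ((2 * Real.pi / (Real.exp c - 1) : ℝ) : ℂ) := by
  rw [Complex.hasSum_ofReal]
  have hq1 : Real.exp (-c) < 1 := by
    rw [Real.exp_lt_one_iff]
    linarith
  have h1 := (hasSum_geometric_of_lt_one (Real.exp_nonneg (-c)) hq1).mul_left
    (2 * Real.pi * Real.exp (-c))
  have h2 : 2 * Real.pi * Real.exp (-c) * (1 - Real.exp (-c))⁻¹ =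
      2 * Real.pi / (Real.exp c - 1) := by
    have h3 : Real.exp c ≠ 0 := Real.exp_ne_zero _
    rw [Real.exp_neg, div_eq_mul_inv, mul_assoc, ← mul_inv]
    congr 2
    rw [mul_sub, mul_one, mul_inv_cancel₀ h3]
  rw [h2] at h1
  have h6 : (fun l : ℕ => 2 * Real.pi * Real.exp (-c) ^ (l + 1)) =
      fun l : ℕ => 2 * Real.pi * Real.exp (-c) * Real.exp (-c) ^ l := by
    funext l
    rw [pow_succ]
    ring
  rw [h6]
  exact h1

theorem pPmn : S_Pmn := by
  intro u h k hu hh hk hco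
  have hh0 : (0 : ℝ) < h := by exact_mod_cast hh
  have hk0 : (0 : ℝ) < k := by exact_mod_cast hk
  have h1 := pmn_sum u h k hu hh hk
  simp only [pmn_int] at h1
  have h2 := pmn_diag u h k hh hk hco _ h1
  have h3 := pmn_fin (2 * h * k * u) (by positivity)
  exact h2.unique h3

end Pool.Agent.Lib.MP_aa9ae4_nt.L1
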