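import Mathlib
import Pool.Agent.Lib.MP_aa9ae4_nt.L1.SpecC

/-!
MP_aa9ae4_nt, Theorem L: one block of the quadratic form (`S_Qfb`).
-/

namespace Pool.Agent.Lib.MP_aa9ae4_nt.L1

open Finset MeasureTheory Filter Topology
open Complex (I)
open Pool.Agent.Lib.MP_aa9ae4_nt.S1

private theorem qfb_KK {s : Finset ℕ} {J : ℕ} {k : ℕ → ℕ} :
    k ∈ KK s J ↔ ∑ p ∈ s, k p ≤ J ∧ ∀ p, k p ≠ 0 → p ∈ s := by
  classical
  unfold KK
  rw [Finset.mem_biUnion]
  constructor
  · rintro ⟨j, hj, hk⟩
    rw [mem_piAntidiag] at hk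
    rw [Finset.mem_range] at hj
    exact ⟨by rw [hk.1]; omega, hk.2⟩
  · rintro ⟨h1, h2⟩
    exact ⟨∑ p ∈ s, k p, Finset.mem_range.2 (by omega), mem_piAntidiag.2 ⟨rfl, h2⟩⟩

/-- the square `{0,...,K}²` -/
private def qfS (K : ℕ) : Finset (ℕ × ℕ) := range (K + 1) ×ˢ range (K + 1)

/-- the local factor -/
private noncomputable def qq (α : ℝ) (p : ℕ) (x : ℕ × ℕ) : ℝ :=
  α ^ (x.1 + x.2) / ((x.1.factorial : ℝ) * (x.2.factorial : ℝ)) * ((p : ℝ) ^ (max x.1 x.2))⁻¹

/-- the total degree -/
private noncomputable def qD (B : Finset ℕ) (x : B → ℕ × ℕ) : ℝ := ∑ i, (((x i).1 : ℝ) + (x i).2)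

private theorem qfb_sum (B : Finset ℕ) (K : ℕ) (G : (B → ℕ × ℕ) → ℝ) :
    ∑ u ∈ KK B K, ∑ v ∈ KK B K, G (fun i => (u i, v i)) =
      ∑ x ∈ (Fintype.piFinset fun _ : B => qfS K).filter
        (fun x => ∑ i, (x i).1 ≤ K ∧ ∑ i, (x i).2 ≤ K), G x := by
  classical
  rw [← Finset.sum_product' (KK B K) (KK B K) (fun u v => G (fun i => (u i, v i)))]
  refine Finset.sum_nbij' (fun w => fun i => (w.1 i, w.2 i))
    (fun x => (fun p => if h : p ∈ B then (x ⟨p, h⟩).1 else 0,
      fun p => if h : p ∈ B then (x ⟨p, h⟩).2 else 0)) ?_ ?_ ?_ ?_ ?_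
  · rintro ⟨u, v⟩ huv
    rw [Finset.mem_product] at huv
    obtain ⟨hu, hv⟩ := huv
    simp only at hu hv
    rw [qfb_KK] at hu hv
    have h1 : ∑ i : B, u i ≤ K := by
      rw [Finset.sum_coe_sort B u]; exact hu.1
    have h2 : ∑ i : B, v i ≤ K := by
      rw [Finset.sum_coe_sort B v]; exact hv.1
    rw [Finset.mem_filter, Fintype.mem_piFinset]
    refine ⟨fun i => ?_, h1, h2⟩
    unfold qfS
    rw [Finset.mem_product, Finset.mem_range, Finset.mem_range]
    have h3 : u i ≤ ∑ i : B, u i := Finset.single_le_sum (f := fun i : B => u i)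
      (fun _ _ => Nat.zero_le _) (Finset.mem_univ i)
    have h4 : v i ≤ ∑ i : B, v i := Finset.single_le_sum (f := fun i : B => v i)
      (fun _ _ => Nat.zero_le _) (Finset.mem_univ i)
    exact ⟨by simp only; omega, by simp only; omega⟩
  · intro x hx
    rw [Finset.mem_filter] at hx
    obtain ⟨-, h1, h2⟩ := hx
    rw [Finset.mem_product]
    simp only
    rw [qfb_KK, qfb_KK]
    refine ⟨⟨?_, fun p hp => ?_⟩, ⟨?_, fun p hp => ?_⟩⟩
    · rw [← Finset.sum_coe_sort B]
      refine le_trans (le_of_eq ?_) h1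
      exact Finset.sum_congr rfl fun i _ => by simp
    · by_contra h
      exact hp (by simp [h])
    · rw [← Finset.sum_coe_sort B]
      refine le_trans (le_of_eq ?_) h2
      exact Finset.sum_congr rfl fun i _ => by simp
    · by_contra h
      exact hp (by simp [h])
  · rintro ⟨u, v⟩ huv
    rw [Finset.mem_product] at huv
    obtain ⟨hu, hv⟩ := huv
    simp only at hu hv
    rw [qfb_KK] at hu hv
    simp only [Prod.mk.injEq]
    refine ⟨funext fun p => ?_, funext fun p => ?_⟩
    · by_cases h : p ∈ B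
      · simp [h]
      · have : u p = 0 := by
          by_contra h0
          exact h (hu.2 p h0)
        simp [h, this]
    · by_cases h : p ∈ B
      · simp [h]
      · have : v p = 0 := by
          by_contra h0
          exact h (hv.2 p h0)
        simp [h, this]
  · intro x hx
    funext i
    simp
  · rintro ⟨u, v⟩ huv
    rfl

private theorem qfb_cmp (B : Finset ℕ) (K : ℕ) (G : (B → ℕ × ℕ) → ℝ) :
    |∑ u ∈ KK B K, ∑ v ∈ KK B K, G (fun i => (u i, v i))| ≤
      |∑ x ∈ Fintype.piFinset (fun _ : B => qfS K), G x| +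
      Real.exp (-(2 * K : ℝ)) * ∑ x ∈ Fintype.piFinset (fun _ : B => qfS K),
        |G x| * Real.exp (2 * qD B x) := by
  classical
  rw [qfb_sum]
  set P := Fintype.piFinset (fun _ : B => qfS K) with hP
  have h1 := Finset.sum_filter_add_sum_filter_not P
    (fun x => ∑ i, (x i).1 ≤ K ∧ ∑ i, (x i).2 ≤ K) G
  set A := ∑ x ∈ P.filter (fun x => ∑ i, (x i).1 ≤ K ∧ ∑ i, (x i).2 ≤ K), G x with hA
  set R := ∑ x ∈ P.filter (fun x => ¬ (∑ i, (x i).1 ≤ K ∧ ∑ i, (x i).2 ≤ K)), G x with hR
  have h2 : |R| ≤ Real.exp (-(2 * K : ℝ)) * ∑ x ∈ P, |G x| * Real.exp (2 * qD B x) := by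
    calc |R| ≤ ∑ x ∈ P.filter (fun x => ¬ (∑ i, (x i).1 ≤ K ∧ ∑ i, (x i).2 ≤ K)), |G x| :=
          Finset.abs_sum_le_sum_abs _ _
      _ ≤ ∑ x ∈ P.filter (fun x => ¬ (∑ i, (x i).1 ≤ K ∧ ∑ i, (x i).2 ≤ K)),
          Real.exp (-(2 * K : ℝ)) * (|G x| * Real.exp (2 * qD B x)) := by
          refine Finset.sum_le_sum fun x hx => ?_
          rw [Finset.mem_filter] at hx
          have hD : (K : ℝ) ≤ qD B x := by
            have e : qD B x = ((∑ i, (x i).1 + ∑ i, (x i).2 : ℕ) : ℝ) := by
              unfold qD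
              push_cast
              rw [Finset.sum_add_distrib]
            rw [e]
            have : K ≤ ∑ i, (x i).1 + ∑ i, (x i).2 := by
              by_contra h
              exact hx.2 ⟨by omega, by omega⟩
            exact_mod_cast this
          have h3 : 1 ≤ Real.exp (-(2 * K : ℝ)) * Real.exp (2 * qD B x) := by
            rw [← Real.exp_add]
            exact Real.one_le_exp (by linarith)
          have h4 : 0 ≤ |G x| := abs_nonneg _
          nlinarith
      _ ≤ ∑ x ∈ P, Real.exp (-(2 * K : ℝ)) * (|G x| * Real.exp (2 * qD B x)) := by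
          refine Finset.sum_le_sum_of_subset_of_nonneg (Finset.filter_subset _ _) fun x _ _ => ?_
          positivity
      _ = _ := by rw [Finset.mul_sum]
  have h5 : A = (∑ x ∈ P, G x) - R := by rw [← h1]; ring
  calc |A| = |(∑ x ∈ P, G x) - R| := by rw [h5]
    _ ≤ |∑ x ∈ P, G x| + |R| := abs_sub _ _
    _ ≤ _ := by linarith

private theorem qfb_lq (α : ℝ) (B : Finset ℕ) (u v : ℕ → ℕ) :
    lq α B u v = ∏ i : B, qq α i (u i, v i) := by
  unfold lq qq
  exact (Finset.prod_coe_sort B (fun p => α ^ (u p + v p) / (((u p).factorial : ℝ) *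
    ((v p).factorial : ℝ)) * ((p : ℝ) ^ (max (u p) (v p)))⁻¹)).symm

private theorem qfb_ll (B : Finset ℕ) (u v : ℕ → ℕ) :
    ll B u v = ∑ i : B, |(((u i, v i) : ℕ × ℕ).1 : ℝ) - ((u i, v i) : ℕ × ℕ).2| *
      Real.log ((i : ℕ) : ℝ) := by
  unfold ll
  exact (Finset.sum_coe_sort B (fun p => |(u p : ℝ) - (v p : ℝ)| * Real.log p)).symm

/-- exponential sums over the square -/
private theorem qfb_exp (y : ℝ) (hy : 0 ≤ y) (K : ℕ) :
    ∑ x ∈ qfS K, y ^ (x.1 + x.2) / ((x.1.factorial : ℝ) * (x.2.factorial : ℝ)) ≤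
      Real.exp (2 * y) := by
  unfold qfS
  rw [Finset.sum_product]
  have h1 : ∀ a ∈ range (K + 1), ∑ b ∈ range (K + 1),
      y ^ (a + b) / ((a.factorial : ℝ) * (b.factorial : ℝ)) =
      y ^ a / a.factorial * ∑ b ∈ range (K + 1), y ^ b / b.factorial := by
    intro a _
    rw [Finset.mul_sum]
    refine Finset.sum_congr rfl fun b _ => ?_
    rw [pow_add]
    field_simp
  have h2 : ∑ a ∈ range (K + 1), y ^ a / a.factorial ≤ Real.exp y := Real.sum_le_exp_of_nonneg hy _
  have h3 : 0 ≤ ∑ a ∈ range (K + 1), y ^ a / a.factorial :=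
    Finset.sum_nonneg fun a _ => by positivity
  calc _ = (∑ a ∈ range (K + 1), y ^ a / a.factorial) *
        ∑ b ∈ range (K + 1), y ^ b / b.factorial := by
        rw [Finset.sum_mul]
        exact Finset.sum_congr rfl h1
    _ ≤ Real.exp y * Real.exp y := mul_le_mul h2 h2 h3 (Real.exp_pos _).le
    _ = _ := by rw [← Real.exp_add]; congr 1; ring

private theorem qfb_abs (α : ℝ) (p : ℕ) (x : ℕ × ℕ) :
    |qq α p x| = |α| ^ (x.1 + x.2) / ((x.1.factorial : ℝ) * (x.2.factorial : ℝ)) *
      ((p : ℝ) ^ (max x.1 x.2))⁻¹ := by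
  unfold qq
  rw [abs_mul, abs_div, abs_pow, abs_of_nonneg (a := ((x.1.factorial : ℝ) * (x.2.factorial : ℝ)))
    (by positivity), abs_of_nonneg (a := ((p : ℝ) ^ (max x.1 x.2))⁻¹) (by positivity)]

/-- the sum of `|q| e^(c(a+b))` -/
private theorem qfb_big (α c : ℝ) (p K : ℕ) (hp : 2 ≤ p) :
    ∑ x ∈ qfS K, |qq α p x| * Real.exp (c * ((x.1 : ℝ) + x.2)) ≤
      1 + Real.exp (2 * (Real.exp c * |α|)) * (p : ℝ)⁻¹ := by
  have hp0 : (1 : ℝ) ≤ p := by exact_mod_cast (by omega : 1 ≤ p)
  have hy : 0 ≤ Real.exp c * |α| := by positivity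
  have h1 : ∀ x ∈ qfS K, |qq α p x| * Real.exp (c * ((x.1 : ℝ) + x.2)) ≤
      (if x = (0, 0) then 1 else 0) + (Real.exp c * |α|) ^ (x.1 + x.2) /
        ((x.1.factorial : ℝ) * (x.2.factorial : ℝ)) * (p : ℝ)⁻¹ := by
    rintro ⟨a, b⟩ -
    rw [qfb_abs]
    by_cases hab : a = 0 ∧ b = 0
    · obtain ⟨rfl, rfl⟩ := hab
      simp
    · have hne : ((a, b) : ℕ × ℕ) ≠ (0, 0) := by
        intro h
        rw [Prod.mk.injEq] at h
        exact hab h
      rw [if_neg hne, zero_add]
      simp only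
      have e1 : Real.exp (c * ((a : ℝ) + b)) = Real.exp c ^ (a + b) := by
        rw [← Real.exp_nat_mul]
        push_cast
        congr 1
        ring
      rw [e1, mul_pow]
      have h2 : ((p : ℝ) ^ (max a b))⁻¹ ≤ (p : ℝ)⁻¹ := by
        refine inv_anti₀ (by linarith) ?_
        calc (p : ℝ) = (p : ℝ) ^ 1 := (pow_one _).symm
          _ ≤ (p : ℝ) ^ (max a b) := pow_le_pow_right₀ hp0 (by omega)
      calc _ = (Real.exp c ^ (a + b) * |α| ^ (a + b) / ((a.factorial : ℝ) * (b.factorial : ℝ))) *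
            ((p : ℝ) ^ (max a b))⁻¹ := by ring
        _ ≤ _ := mul_le_mul_of_nonneg_left h2 (by positivity)
  refine (Finset.sum_le_sum h1).trans ?_
  rw [Finset.sum_add_distrib, ← Finset.sum_mul]
  have h3 : ∑ x ∈ qfS K, (if x = (0, 0) then (1 : ℝ) else 0) ≤ 1 := by
    rw [Finset.sum_ite_eq' (qfS K) ((0, 0) : ℕ × ℕ) (fun _ => (1 : ℝ))]
    split_ifs <;> norm_num
  have h4 := qfb_exp (Real.exp c * |α|) hy K
  have h5 : 0 ≤ (p : ℝ)⁻¹ := by positivity
  have h6 := mul_le_mul_of_nonneg_right h4 h5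
  linarith

/-- upper bound for the local factor -/
private theorem qfb_up (α : ℝ) (p K : ℕ) (hp : 2 ≤ p) (hK : 1 ≤ K) :
    ∑ x ∈ qfS K, qq α p x ≤
      Real.exp ((2 * α + α ^ 2) * (p : ℝ)⁻¹ + Real.exp (2 * |α|) * ((p : ℝ) ^ 2)⁻¹) := by
  classical
  have hp0 : (1 : ℝ) ≤ p := by exact_mod_cast (by omega : 1 ≤ p)
  have h1 : ∀ x ∈ qfS K, qq α p x ≤ (if x ∈ range 2 ×ˢ range 2 then qq α p x else 0) +
      |α| ^ (x.1 + x.2) / ((x.1.factorial : ℝ) * (x.2.factorial : ℝ)) * ((p : ℝ) ^ 2)⁻¹ := by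
    rintro ⟨a, b⟩ -
    by_cases hab : ((a, b) : ℕ × ℕ) ∈ range 2 ×ˢ range 2
    · rw [if_pos hab]
      have : 0 ≤ |α| ^ (a + b) / ((a.factorial : ℝ) * (b.factorial : ℝ)) * ((p : ℝ) ^ 2)⁻¹ := by
        positivity
      simpa using this
    · rw [if_neg hab, zero_add]
      refine (le_abs_self _).trans ?_
      rw [qfb_abs]
      simp only
      have hm : 2 ≤ max a b := by
        rw [Finset.mem_product, Finset.mem_range, Finset.mem_range] at hab
        simp only at hab
        by_contra h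
        exact hab ⟨by omega, by omega⟩
      have h2 : ((p : ℝ) ^ (max a b))⁻¹ ≤ ((p : ℝ) ^ 2)⁻¹ :=
        inv_anti₀ (by positivity) (pow_le_pow_right₀ hp0 hm)
      exact mul_le_mul_of_nonneg_left h2 (by positivity)
  have h2 : ∑ x ∈ qfS K, (if x ∈ range 2 ×ˢ range 2 then qq α p x else 0) =
      1 + (2 * α + α ^ 2) * (p : ℝ)⁻¹ := by
    rw [← Finset.sum_filter]
    have e : (qfS K).filter (fun x => x ∈ range 2 ×ˢ range 2) = range 2 ×ˢ range 2 := by
      ext x
      rw [Finset.mem_filter]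
      unfold qfS
      simp only [Finset.mem_product, Finset.mem_range]
      constructor
      · rintro ⟨-, h⟩
        exact h
      · intro h
        exact ⟨⟨by omega, by omega⟩, h⟩
    rw [e, Finset.sum_product]
    simp only [Finset.sum_range_succ, Finset.sum_range_zero, qq]
    norm_num
    ring
  have h3 := qfb_exp |α| (abs_nonneg α) K
  have h4 : 0 ≤ ((p : ℝ) ^ 2)⁻¹ := by positivity
  have h5 := mul_le_mul_of_nonneg_right h3 h4
  have h6 := Finset.sum_le_sum h1
  rw [Finset.sum_add_distrib, ← Finset.sum_mul, h2] at h6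
  have h7 := Real.add_one_le_exp ((2 * α + α ^ 2) * (p : ℝ)⁻¹ +
    Real.exp (2 * |α|) * ((p : ℝ) ^ 2)⁻¹)
  linarith

private theorem qfb_tel (y : ℝ) (m K : ℕ) (h : m ≤ K) :
    y ^ m = ∑ j ∈ range K, (if m ≤ j then y ^ j - y ^ (j + 1) else 0) + y ^ K := by
  induction K, h using Nat.le_induction with
  | base =>
    rw [Finset.sum_eq_zero, zero_add]
    intro j hj
    rw [Finset.mem_range] at hj
    rw [if_neg (by omega)]
  | succ K hK ih =>
    rw [Finset.sum_range_succ, if_pos hK, ih]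
    ring

/-- lower bound for the local factor -/
private theorem qfb_lo (α : ℝ) (p K : ℕ) (hp : 2 ≤ p) (hK : 1 ≤ K) :
    1 / 2 ≤ ∑ x ∈ qfS K, qq α p x := by
  classical
  have hp2 : (2 : ℝ) ≤ p := by exact_mod_cast hp
  set y : ℝ := (p : ℝ)⁻¹ with hy
  have hy0 : 0 < y := by positivity
  have hy1 : y ≤ 1 / 2 := by
    rw [hy, one_div]
    exact inv_anti₀ (by norm_num) hp2
  set w : ℕ → ℝ := fun a => α ^ a / a.factorial with hw
  have h1 : ∀ x ∈ qfS K, qq α p x =
      ∑ j ∈ range K, (y ^ j - y ^ (j + 1)) * ((if x.1 ≤ j then w x.1 else 0) *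
        (if x.2 ≤ j then w x.2 else 0)) + y ^ K * (w x.1 * w x.2) := by
    rintro ⟨a, b⟩ hx
    unfold qfS at hx
    rw [Finset.mem_product, Finset.mem_range, Finset.mem_range] at hx
    simp only at hx
    have e1 : qq α p (a, b) = w a * w b * y ^ (max a b) := by
      unfold qq
      simp only [hw, hy, inv_pow, pow_add]
      field_simp
    rw [e1, qfb_tel y (max a b) K (by omega), mul_add, Finset.mul_sum]
    simp only
    congr 1
    · refine Finset.sum_congr rfl fun j _ => ?_
      by_cases h2 : a ≤ j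
      · by_cases h3 : b ≤ j
        · rw [if_pos (by omega), if_pos h2, if_pos h3]; ring
        · rw [if_neg (by omega), if_pos h2, if_neg h3]; ring
      · rw [if_neg (by omega), if_neg h2]; ring
    · ring
  rw [Finset.sum_congr rfl h1, Finset.sum_add_distrib, Finset.sum_comm]
  have h2 : ∀ j ∈ range K, ∑ x ∈ qfS K, (y ^ j - y ^ (j + 1)) *
      ((if x.1 ≤ j then w x.1 else 0) * (if x.2 ≤ j then w x.2 else 0)) =
      (y ^ j - y ^ (j + 1)) * (∑ a ∈ range (K + 1), (if a ≤ j then w a else 0)) ^ 2 := by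
    intro j _
    rw [← Finset.mul_sum, sq]
    unfold qfS
    rw [Finset.sum_product, Finset.sum_mul_sum]
  rw [Finset.sum_congr rfl h2]
  have h3 : ∑ x ∈ qfS K, y ^ K * (w x.1 * w x.2) = y ^ K * (∑ a ∈ range (K + 1), w a) ^ 2 := by
    rw [← Finset.mul_sum, sq]
    unfold qfS
    rw [Finset.sum_product, Finset.sum_mul_sum]
  rw [h3]
  have h4 : 0 ≤ y ^ K * (∑ a ∈ range (K + 1), w a) ^ 2 := by positivity
  have h5 : ∀ j ∈ range K, 0 ≤ (y ^ j - y ^ (j + 1)) *
      (∑ a ∈ range (K + 1), (if a ≤ j then w a else 0)) ^ 2 := by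
    intro j _
    refine mul_nonneg ?_ (sq_nonneg _)
    rw [pow_succ]
    have : 0 ≤ y ^ j := by positivity
    nlinarith
  have h6 := Finset.single_le_sum h5 (Finset.mem_range.2 (by omega : 0 < K))
  have h7 : ∑ a ∈ range (K + 1), (if a ≤ 0 then w a else 0) = 1 := by
    rw [Finset.sum_eq_single 0]
    · simp [hw]
    · intro a _ ha
      rw [if_neg (by omega)]
    · intro h
      exact absurd (Finset.mem_range.2 (by omega)) h
  rw [h7] at h6
  norm_num at h6
  linarith

/-- the local factor with the logarithm -/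
private theorem qfb_log (α : ℝ) (p K : ℕ) (hp : 2 ≤ p) :
    |∑ x ∈ qfS K, qq α p x * (|(x.1 : ℝ) - x.2| * Real.log p)| ≤
      Real.exp (2 * (Real.exp 1 * |α|)) * (Real.log p / p) := by
  have hp0 : (1 : ℝ) ≤ p := by exact_mod_cast (by omega : 1 ≤ p)
  have hlog : 0 ≤ Real.log p := Real.log_nonneg hp0
  have hy : 0 ≤ Real.exp 1 * |α| := by positivity
  have h1 : ∀ x ∈ qfS K, |qq α p x * (|(x.1 : ℝ) - x.2| * Real.log p)| ≤
      (Real.exp 1 * |α|) ^ (x.1 + x.2) / ((x.1.factorial : ℝ) * (x.2.factorial : ℝ)) *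
        (Real.log p / p) := by
    rintro ⟨a, b⟩ -
    simp only
    rw [abs_mul, qfb_abs, abs_of_nonneg (a := |(a : ℝ) - b| * Real.log p) (by positivity)]
    simp only
    by_cases hab : a = b
    · subst hab
      simp only [sub_self, abs_zero, zero_mul, mul_zero]
      positivity
    · have h2 : ((p : ℝ) ^ (max a b))⁻¹ ≤ (p : ℝ)⁻¹ := by
        refine inv_anti₀ (by linarith) ?_
        calc (p : ℝ) = (p : ℝ) ^ 1 := (pow_one _).symm
          _ ≤ (p : ℝ) ^ (max a b) := pow_le_pow_right₀ hp0 (by omega)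
      have h3 : |(a : ℝ) - b| ≤ Real.exp 1 ^ (a + b) := by
        have e1 : Real.exp 1 ^ (a + b) = Real.exp ((a : ℝ) + b) := by
          rw [← Real.exp_nat_mul]
          push_cast
          congr 1
          ring
        rw [e1]
        have h4 := Real.add_one_le_exp ((a : ℝ) + b)
        have h5 : |(a : ℝ) - b| ≤ (a : ℝ) + b := by
          rw [abs_le]
          have ha : (0 : ℝ) ≤ a := Nat.cast_nonneg a
          have hb : (0 : ℝ) ≤ b := Nat.cast_nonneg b
          constructor <;> linarith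
        linarith
      rw [mul_pow]
      have h6 : ((p : ℝ) ^ (max a b))⁻¹ * |(a : ℝ) - b| ≤ (p : ℝ)⁻¹ * Real.exp 1 ^ (a + b) :=
        mul_le_mul h2 h3 (abs_nonneg _) (by positivity)
      have h7 : 0 ≤ |α| ^ (a + b) / ((a.factorial : ℝ) * (b.factorial : ℝ)) * Real.log p := by
        positivity
      have h8 := mul_le_mul_of_nonneg_left h6 h7
      calc _ = |α| ^ (a + b) / ((a.factorial : ℝ) * (b.factorial : ℝ)) * Real.log p *
            (((p : ℝ) ^ (max a b))⁻¹ * |(a : ℝ) - b|) := by ring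
        _ ≤ _ := h8
        _ = _ := by ring
  refine (Finset.abs_sum_le_sum_abs _ _).trans ((Finset.sum_le_sum h1).trans ?_)
  rw [← Finset.sum_mul]
  exact mul_le_mul_of_nonneg_right (qfb_exp _ hy K) (by positivity)

theorem pQfb : S_Qfb := by
  classical
  intro α hα
  set C : ℝ := 2 * Real.exp (2 * (Real.exp 3 * |α|)) with hC
  have ha0 : 0 ≤ |α| := abs_nonneg α
  have hE : ∀ c : ℝ, c ≤ 3 → Real.exp (2 * (Real.exp c * |α|)) ≤
      Real.exp (2 * (Real.exp 3 * |α|)) := by
    intro c hc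
    refine Real.exp_le_exp.2 ?_
    have := Real.exp_le_exp.2 hc
    nlinarith
  have hE1 : 1 ≤ Real.exp (2 * (Real.exp 3 * |α|)) := Real.one_le_exp (by positivity)
  have hC1 : 1 ≤ C := by linarith
  refine ⟨C, hC1, ?_⟩
  intro B K X hB hK hX hBX
  set P := Fintype.piFinset (fun _ : B => qfS K) with hP
  set V : ℝ := ∑ p ∈ B, (p : ℝ)⁻¹ with hV
  set V2 : ℝ := ∑ p ∈ B, ((p : ℝ) ^ 2)⁻¹ with hV2
  set ν : ℝ := 2 * α + α ^ 2 with hν
  have hV0 : 0 ≤ V := Finset.sum_nonneg fun p _ => by positivity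
  have hV20 : 0 ≤ V2 := Finset.sum_nonneg fun p _ => by positivity
  have hp2 : ∀ i : B, 2 ≤ (i : ℕ) := fun i => (hB i i.2).two_le
  -- the product of the local factors
  set b : B → ℝ := fun i => ∑ x ∈ qfS K, qq α i x with hb
  have hb2 : ∀ i, 1 / 2 ≤ b i := fun i => qfb_lo α i K (hp2 i) hK
  have hb0 : ∀ i, 0 < b i := fun i => by have := hb2 i; linarith
  have hprod : ∏ i, b i ≤ Real.exp (ν * V + C * V2) := by
    calc ∏ i, b i ≤ ∏ i : B, Real.exp (ν * ((i : ℕ) : ℝ)⁻¹ + C * (((i : ℕ) : ℝ) ^ 2)⁻¹) := by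
          refine Finset.prod_le_prod (fun i _ => (hb0 i).le) fun i _ => ?_
          refine (qfb_up α i K (hp2 i) hK).trans (Real.exp_le_exp.2 ?_)
          have h1 : Real.exp (2 * |α|) ≤ C := by
            have := hE 0 (by norm_num)
            rw [Real.exp_zero, one_mul] at this
            linarith
          have h2 : 0 ≤ (((i : ℕ) : ℝ) ^ 2)⁻¹ := by positivity
          have := mul_le_mul_of_nonneg_right h1 h2
          linarith
      _ = Real.exp (∑ i : B, (ν * ((i : ℕ) : ℝ)⁻¹ + C * (((i : ℕ) : ℝ) ^ 2)⁻¹)) :=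
          (Real.exp_sum _ _).symm
      _ = Real.exp (ν * V + C * V2) := by
          congr 1
          rw [Finset.sum_add_distrib, ← Finset.mul_sum, ← Finset.mul_sum,
            Finset.sum_coe_sort B (fun p => (p : ℝ)⁻¹),
            Finset.sum_coe_sort B (fun p => ((p : ℝ) ^ 2)⁻¹)]
  have hprod0 : 0 < ∏ i, b i := Finset.prod_pos fun i _ => hb0 i
  have hsumq : ∑ x ∈ P, ∏ i : B, qq α i (x i) = ∏ i, b i := by
    rw [hP, ← Finset.prod_univ_sum]
  -- the large sum
  have hbig : ∀ c : ℝ, c ≤ 3 → ∑ x ∈ P, |∏ i : B, qq α i (x i)| * Real.exp (c * qD B x) ≤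
      Real.exp (C * V) := by
    intro c hc
    have e : ∀ x ∈ P, |∏ i : B, qq α i (x i)| * Real.exp (c * qD B x) =
        ∏ i : B, (|qq α i (x i)| * Real.exp (c * (((x i).1 : ℝ) + (x i).2))) := by
      intro x _
      rw [Finset.prod_mul_distrib, Finset.abs_prod]
      unfold qD
      rw [Finset.mul_sum, Real.exp_sum]
    rw [Finset.sum_congr rfl e, hP, ← Finset.prod_univ_sum (fun _ : B => qfS K)
      (fun i y => |qq α i y| * Real.exp (c * ((y.1 : ℝ) + y.2)))]
    calc _ ≤ ∏ i : B, Real.exp (C * ((i : ℕ) : ℝ)⁻¹) := by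
          refine Finset.prod_le_prod (fun i _ => Finset.sum_nonneg fun y _ => by positivity)
            fun i _ => ?_
          refine (qfb_big α c i K (hp2 i)).trans ?_
          have h1 : Real.exp (2 * (Real.exp c * |α|)) ≤ C := by
            have := hE c hc
            linarith
          have h2 : 0 ≤ ((i : ℕ) : ℝ)⁻¹ := by positivity
          have h3 := mul_le_mul_of_nonneg_right h1 h2
          have h4 := Real.add_one_le_exp (C * ((i : ℕ) : ℝ)⁻¹)
          linarith
      _ = Real.exp (∑ i : B, C * ((i : ℕ) : ℝ)⁻¹) := (Real.exp_sum _ _).symm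
      _ = Real.exp (C * V) := by
          congr 1
          rw [← Finset.mul_sum, Finset.sum_coe_sort B (fun p => (p : ℝ)⁻¹)]
  constructor
  · have h1 := qfb_cmp B K (fun x => ∏ i : B, qq α i (x i))
    have h2 : ∀ u ∈ KK B K, ∑ v ∈ KK B K, lq α B u v =
        ∑ v ∈ KK B K, (fun x : B → ℕ × ℕ => ∏ i : B, qq α i (x i)) (fun i => (u i, v i)) :=
      fun u _ => Finset.sum_congr rfl fun v _ => qfb_lq α B u v
    rw [Finset.sum_congr rfl h2]
    refine h1.trans ?_
    rw [← hP, hsumq, abs_of_pos hprod0, Real.exp_add (-(2 * K : ℝ))]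
    have h3 := hbig 2 (by norm_num)
    have h4 := mul_le_mul_of_nonneg_left h3 (Real.exp_pos (-(2 * K : ℝ))).le
    linarith
  · have h1 := qfb_cmp B K (fun x => (∏ i : B, qq α i (x i)) *
      ∑ i : B, |((x i).1 : ℝ) - (x i).2| * Real.log ((i : ℕ) : ℝ))
    have h2 : ∀ u ∈ KK B K, ∑ v ∈ KK B K, lq α B u v * ll B u v =
        ∑ v ∈ KK B K, (fun x : B → ℕ × ℕ => (∏ i : B, qq α i (x i)) *
          ∑ i : B, |((x i).1 : ℝ) - (x i).2| * Real.log ((i : ℕ) : ℝ)) (fun i => (u i, v i)) :=
      fun u _ => Finset.sum_congr rfl fun v _ => by rw [qfb_lq α B u v, qfb_ll B u v]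
    rw [Finset.sum_congr rfl h2]
    refine h1.trans ?_
    rw [← hP]
    -- the complete sum
    have h3 : ∑ x ∈ P, (∏ i : B, qq α i (x i)) *
        ∑ i : B, |((x i).1 : ℝ) - (x i).2| * Real.log ((i : ℕ) : ℝ) =
        ∑ i : B, (∑ y ∈ qfS K, qq α i y * (|(y.1 : ℝ) - y.2| * Real.log ((i : ℕ) : ℝ))) *
          ∏ j ∈ univ.erase i, b j := by
      simp only [Finset.mul_sum]
      rw [Finset.sum_comm]
      refine Finset.sum_congr rfl fun i _ => ?_
      have e1 : ∀ x ∈ P, (∏ j : B, qq α j (x j)) *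
          (|((x i).1 : ℝ) - (x i).2| * Real.log ((i : ℕ) : ℝ)) =
          ∏ j : B, (if j = i then qq α j (x j) * (|((x j).1 : ℝ) - (x j).2| *
            Real.log ((j : ℕ) : ℝ)) else qq α j (x j)) := by
        intro x _
        rw [← Finset.mul_prod_erase univ _ (Finset.mem_univ i),
          ← Finset.mul_prod_erase univ (fun j : B => if j = i then qq α j (x j) *
            (|((x j).1 : ℝ) - (x j).2| * Real.log ((j : ℕ) : ℝ)) else qq α j (x j))
            (Finset.mem_univ i), if_pos rfl]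
        have e2 : ∏ j ∈ univ.erase i, (if j = i then qq α j (x j) *
            (|((x j).1 : ℝ) - (x j).2| * Real.log ((j : ℕ) : ℝ)) else qq α j (x j)) =
            ∏ j ∈ univ.erase i, qq α j (x j) := by
          refine Finset.prod_congr rfl fun j hj => ?_
          rw [if_neg (Finset.ne_of_mem_erase hj)]
        rw [e2]
        ring
      rw [Finset.sum_congr rfl e1, hP, ← Finset.prod_univ_sum (fun _ : B => qfS K)
        (fun j y => if j = i then qq α j y * (|((y.1 : ℝ)) - y.2| *
            Real.log ((j : ℕ) : ℝ)) else qq α j y)]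
      rw [← Finset.mul_prod_erase univ _ (Finset.mem_univ i)]
      congr 1
      · refine Finset.sum_congr rfl fun y _ => ?_
        rw [if_pos rfl]
      · refine Finset.prod_congr rfl fun j hj => ?_
        simp only [if_neg (Finset.ne_of_mem_erase hj)]
        rfl
    have h4 : |∑ x ∈ P, (∏ i : B, qq α i (x i)) *
        ∑ i : B, |((x i).1 : ℝ) - (x i).2| * Real.log ((i : ℕ) : ℝ)| ≤
        C * (∑ p ∈ B, Real.log p / p) * Real.exp (ν * V + C * V2) := by
      rw [h3]
      calc _ ≤ ∑ i : B, |(∑ y ∈ qfS K, qq α i y * (|(y.1 : ℝ) - y.2| *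
            Real.log ((i : ℕ) : ℝ))) * ∏ j ∈ univ.erase i, b j| := Finset.abs_sum_le_sum_abs _ _
        _ ≤ ∑ i : B, C * (Real.log ((i : ℕ) : ℝ) / ((i : ℕ) : ℝ)) * ∏ j, b j := by
            refine Finset.sum_le_sum fun i _ => ?_
            rw [abs_mul]
            have h5 := qfb_log α i K (hp2 i)
            have h6 : 0 ≤ ∏ j ∈ univ.erase i, b j := Finset.prod_nonneg fun j _ => (hb0 j).le
            have h7 : ∏ j ∈ univ.erase i, b j ≤ 2 * ∏ j, b j := by
              rw [← Finset.mul_prod_erase univ b (Finset.mem_univ i)]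
              have := hb2 i
              nlinarith
            rw [abs_of_nonneg h6]
            have h8 : 0 ≤ Real.log ((i : ℕ) : ℝ) / ((i : ℕ) : ℝ) := by
              have : (1 : ℝ) ≤ ((i : ℕ) : ℝ) := by
                have := hp2 i
                exact_mod_cast (by omega : 1 ≤ (i : ℕ))
              exact div_nonneg (Real.log_nonneg this) (by linarith)
            have h9 := hE 1 (by norm_num)
            calc _ ≤ Real.exp (2 * (Real.exp 1 * |α|)) * (Real.log ((i : ℕ) : ℝ) / ((i : ℕ) : ℝ)) *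
                  (2 * ∏ j, b j) := mul_le_mul h5 h7 h6 (by positivity)
              _ ≤ Real.exp (2 * (Real.exp 3 * |α|)) * (Real.log ((i : ℕ) : ℝ) / ((i : ℕ) : ℝ)) *
                  (2 * ∏ j, b j) := by
                  refine mul_le_mul_of_nonneg_right (mul_le_mul_of_nonneg_right h9 h8) ?_
                  linarith
              _ = _ := by rw [hC]; ring
        _ = C * (∑ i : B, Real.log ((i : ℕ) : ℝ) / ((i : ℕ) : ℝ)) * ∏ j, b j := by
            rw [← Finset.sum_mul, ← Finset.mul_sum]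
        _ = C * (∑ p ∈ B, Real.log p / p) * ∏ j, b j := by
            rw [Finset.sum_coe_sort B (fun p => Real.log (p : ℝ) / (p : ℝ))]
        _ ≤ _ := by
            refine mul_le_mul_of_nonneg_left hprod (mul_nonneg (by linarith) ?_)
            refine Finset.sum_nonneg fun p hp => ?_
            have : (1 : ℝ) ≤ p := by exact_mod_cast (hB p hp).one_le
            exact div_nonneg (Real.log_nonneg this) (by linarith)
    -- the rest
    have h5 : ∑ x ∈ P, |(∏ i : B, qq α i (x i)) *
        ∑ i : B, |((x i).1 : ℝ) - (x i).2| * Real.log ((i : ℕ) : ℝ)| * Real.exp (2 * qD B x) ≤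
        Real.log X * Real.exp (C * V) := by
      have h6 := hbig 3 le_rfl
      have hlX : 0 ≤ Real.log X := Real.log_nonneg hX
      calc _ ≤ ∑ x ∈ P, Real.log X * (|∏ i : B, qq α i (x i)| * Real.exp (3 * qD B x)) := by
            refine Finset.sum_le_sum fun x _ => ?_
            rw [abs_mul]
            have h7 : |∑ i : B, |((x i).1 : ℝ) - (x i).2| * Real.log ((i : ℕ) : ℝ)| ≤
                Real.log X * Real.exp (qD B x) := by
              calc _ ≤ ∑ i : B, |(|((x i).1 : ℝ) - (x i).2| * Real.log ((i : ℕ) : ℝ))| :=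
                    Finset.abs_sum_le_sum_abs _ _
                _ ≤ ∑ i : B, (((x i).1 : ℝ) + (x i).2) * Real.log X := by
                    refine Finset.sum_le_sum fun i _ => ?_
                    have h1i : (1 : ℝ) ≤ ((i : ℕ) : ℝ) := by
                      have := hp2 i
                      exact_mod_cast (by omega : 1 ≤ (i : ℕ))
                    have hl0 : 0 ≤ Real.log ((i : ℕ) : ℝ) := Real.log_nonneg h1i
                    have hlX' : Real.log ((i : ℕ) : ℝ) ≤ Real.log X :=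
                      Real.log_le_log (by linarith) (hBX i i.2)
                    rw [abs_mul, abs_abs, abs_of_nonneg hl0]
                    have ha : (0 : ℝ) ≤ (x i).1 := Nat.cast_nonneg _
                    have hb' : (0 : ℝ) ≤ (x i).2 := Nat.cast_nonneg _
                    have h5 : |((x i).1 : ℝ) - (x i).2| ≤ ((x i).1 : ℝ) + (x i).2 := by
                      rw [abs_le]
                      constructor <;> linarith
                    exact mul_le_mul h5 hlX' hl0 (by linarith)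
                _ = qD B x * Real.log X := by
                    unfold qD
                    rw [Finset.sum_mul]
                _ ≤ _ := by
                    have := Real.add_one_le_exp (qD B x)
                    nlinarith
            have h8 : Real.exp (3 * qD B x) = Real.exp (qD B x) * Real.exp (2 * qD B x) := by
              rw [← Real.exp_add]
              congr 1
              ring
            rw [h8]
            calc _ ≤ |∏ i : B, qq α i (x i)| * (Real.log X * Real.exp (qD B x)) *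
                  Real.exp (2 * qD B x) := by
                  refine mul_le_mul_of_nonneg_right (mul_le_mul_of_nonneg_left h7 (abs_nonneg _))
                    (Real.exp_pos _).le
              _ = _ := by ring
        _ = Real.log X * ∑ x ∈ P, (|∏ i : B, qq α i (x i)| * Real.exp (3 * qD B x)) := by
            rw [← Finset.mul_sum]
        _ ≤ _ := mul_le_mul_of_nonneg_left h6 hlX
    rw [Real.exp_add (-(2 * K : ℝ))]
    have h6 := mul_le_mul_of_nonneg_left h5 (Real.exp_pos (-(2 * K : ℝ))).le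
    have h7 : Real.log X * (Real.exp (-(2 * K : ℝ)) * Real.exp (C * V)) =
        Real.exp (-(2 * K : ℝ)) * (Real.log X * Real.exp (C * V)) := by ring
    rw [h7]
    linarith

end Pool.Agent.Lib.MP_aa9ae4_nt.L1
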