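import Mathlib
import Pool.Agent.Lib.MP_aa9ae4_nt.L1.SpecC

/-!
MP_aa9ae4_nt, L1: the twisted second moment (upper bound), from `S_Plm` and `S_Ihk`.
-/

namespace Pool.Agent.Lib.MP_aa9ae4_nt.L1

open Finset MeasureTheory Filter Topology
open Complex (I)
open Pool.Agent.Lib.MP_aa9ae4_nt.S1 (pw psumS eulS tail prs nn KK expJ HT fzS y1)

/-- dilation by a common factor -/
private lemma ts_dil (ρ : ℝ) (g h k : ℕ) (hg : 1 ≤ g) :
    Ihk ρ (g * h) (g * k) = ((g : ℝ)⁻¹ : ℝ) • Ihk ρ h k := by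
  have hg' : (0 : ℝ) < (g : ℝ) := by exact_mod_cast hg
  have h1 := MeasureTheory.integral_comp_mul_left_Ioi
    (fun x : ℝ => fa ρ ((h : ℝ) * x) * (starRingEnd ℂ) (fa ρ ((k : ℝ) * x))) 0 hg'
  rw [mul_zero] at h1
  unfold Ihk
  rw [← h1]
  refine MeasureTheory.setIntegral_congr_fun measurableSet_Ioi fun x _ => ?_
  rw [show (((g * h : ℕ) : ℝ)) * x = (h : ℝ) * ((g : ℝ) * x) by push_cast; ring,
    show (((g * k : ℕ) : ℝ)) * x = (k : ℝ) * ((g : ℝ) * x) by push_cast; ring]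

theorem pTsm (hPlm : S_Plm) (hIhk : S_Ihk) : S_Tsm := by
  obtain ⟨c1, C, hC, hI⟩ := hIhk
  refine ⟨c1, 1600 * C, by positivity, ?_⟩
  intro T Y ι s h c hT hY hYT hh
  have h1 := hPlm T hT ι s h c (fun i hi => (hh i hi).1)
  refine h1.trans ?_
  have hT0 : 0 < T := by linarith
  have hlog : 0 ≤ Real.log T := Real.log_nonneg (by linarith)
  have key : ∀ i ∈ s, ∀ j ∈ s,
      |(Ihk (1 / T) (h i) (h j)).re - T / 2 * (((Nat.gcd (h i) (h j) : ℝ) / (h i * h j)) *
        (Real.log T - Real.log (h i * h j / (Nat.gcd (h i) (h j) : ℝ) ^ 2) + c1))| ≤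
        C * (8 * Y ^ 3) * (1 + Real.log T) ^ 2 := by
    intro i hi j hj
    obtain ⟨hi1, hiY⟩ := hh i hi
    obtain ⟨hj1, hjY⟩ := hh j hj
    obtain ⟨g, a, b, hg, hab, ha, hb⟩ := Nat.exists_coprime' (Nat.gcd_pos_of_pos_left (h j) hi1)
    have hgg : Nat.gcd (h i) (h j) = g := by
      rw [ha, hb, Nat.gcd_mul_right, hab, one_mul]
    have hi1' : 0 < h i := hi1
    have hj1' : 0 < h j := hj1
    have ha1 : 1 ≤ a := Nat.pos_of_ne_zero (by rintro rfl; omega)
    have hb1 : 1 ≤ b := Nat.pos_of_ne_zero (by rintro rfl; omega)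
    have hgr : (1 : ℝ) ≤ g := by exact_mod_cast hg
    have har : (1 : ℝ) ≤ a := by exact_mod_cast ha1
    have hbr : (1 : ℝ) ≤ b := by exact_mod_cast hb1
    have hir : (h i : ℝ) = a * g := by rw [ha]; push_cast; ring
    have hjr : (h j : ℝ) = b * g := by rw [hb]; push_cast; ring
    have haY : (a : ℝ) ≤ Y := by
      refine le_trans ?_ hiY
      rw [hir]; nlinarith
    have hbY : (b : ℝ) ≤ Y := by
      refine le_trans ?_ hjY
      rw [hjr]; nlinarith
    have habY : (a : ℝ) * b ≤ Y ^ 2 := by nlinarith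
    have hcond : 4 * Real.pi * a * b * (1 / T) ≤ 1 := by
      rw [mul_one_div, div_le_one hT0]
      have := Real.pi_pos
      nlinarith
    have h2 := hI (1 / T) a b (by positivity) (by
      rw [div_le_div_iff₀ hT0 (by norm_num)]; linarith) ha1 hb1 hab hcond
    have e0 : Ihk (1 / T) (h i) (h j) = ((g : ℝ)⁻¹ : ℝ) • Ihk (1 / T) a b := by
      rw [ha, hb, mul_comm a g, mul_comm b g, ts_dil _ _ _ _ hg]
    rw [e0, hgg, Complex.smul_re, smul_eq_mul]
    have e1 : T / 2 * ((g : ℝ) / (h i * h j) *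
        (Real.log T - Real.log (h i * h j / (g : ℝ) ^ 2) + c1)) =
        (g : ℝ)⁻¹ * ((Real.log (1 / (a * b * (1 / T))) + c1) / (2 * a * b * (1 / T))) := by
      have e2 : (h i : ℝ) * h j / (g : ℝ) ^ 2 = a * b := by
        rw [hir, hjr]
        field_simp
      have e3 : Real.log (1 / ((a : ℝ) * b * (1 / T))) = Real.log T - Real.log (a * b) := by
        rw [← Real.log_div (by positivity) (by positivity)]
        congr 1
        field_simp
      rw [e2, e3, hir, hjr]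
      field_simp
    rw [e1, ← mul_sub, abs_mul, abs_of_pos (by positivity : (0 : ℝ) < (g : ℝ)⁻¹)]
    have h3 : |(Ihk (1 / T) a b).re -
        (Real.log (1 / (a * b * (1 / T))) + c1) / (2 * a * b * (1 / T))| ≤
        C * (a + b) ^ 3 * (1 + Real.log (1 / (1 / T))) ^ 2 := by
      refine le_trans ?_ h2
      refine le_trans (le_of_eq ?_) (Complex.abs_re_le_norm _)
      rw [Complex.sub_re, Complex.ofReal_re]
    rw [one_div_one_div] at h3
    have h4 : (g : ℝ)⁻¹ ≤ 1 := inv_le_one_of_one_le₀ hgr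
    calc (g : ℝ)⁻¹ * |(Ihk (1 / T) a b).re -
        (Real.log (1 / (a * b * (1 / T))) + c1) / (2 * a * b * (1 / T))|
        ≤ 1 * |(Ihk (1 / T) a b).re -
        (Real.log (1 / (a * b * (1 / T))) + c1) / (2 * a * b * (1 / T))| :=
          mul_le_mul_of_nonneg_right h4 (abs_nonneg _)
      _ ≤ C * ((a : ℝ) + b) ^ 3 * (1 + Real.log T) ^ 2 := by rw [one_mul]; exact h3
      _ ≤ C * (8 * Y ^ 3) * (1 + Real.log T) ^ 2 := by
          have h5 : ((a : ℝ) + b) ^ 3 ≤ (2 * Y) ^ 3 :=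
            pow_le_pow_left₀ (by positivity) (by linarith) 3
          have h6 : (2 * Y) ^ 3 = 8 * Y ^ 3 := by ring
          rw [h6] at h5
          gcongr
  have e1 : 200 * ∑ i ∈ s, ∑ j ∈ s, c i * c j * (Ihk (1 / T) (h i) (h j)).re =
      100 * T * (∑ i ∈ s, ∑ j ∈ s, c i * c j * ((Nat.gcd (h i) (h j) : ℝ) / (h i * h j)) *
        (Real.log T - Real.log (h i * h j / (Nat.gcd (h i) (h j) : ℝ) ^ 2) + c1)) +
      ∑ i ∈ s, ∑ j ∈ s, 200 * (c i * c j) * ((Ihk (1 / T) (h i) (h j)).re -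
        T / 2 * (((Nat.gcd (h i) (h j) : ℝ) / (h i * h j)) *
        (Real.log T - Real.log (h i * h j / (Nat.gcd (h i) (h j) : ℝ) ^ 2) + c1))) := by
    rw [mul_sum, mul_sum, ← sum_add_distrib]
    refine sum_congr rfl fun i _ => ?_
    rw [mul_sum, mul_sum, ← sum_add_distrib]
    refine sum_congr rfl fun j _ => ?_
    ring
  rw [e1]
  refine add_le_add le_rfl ?_
  have e2 : 1600 * C * Y ^ 3 * (1 + Real.log T) ^ 2 * (∑ i ∈ s, |c i|) ^ 2 =
      ∑ i ∈ s, ∑ j ∈ s, 200 * (|c i| * |c j|) * (C * (8 * Y ^ 3) * (1 + Real.log T) ^ 2) := by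
    rw [pow_two (∑ i ∈ s, |c i|), sum_mul_sum, mul_sum]
    refine sum_congr rfl fun i _ => ?_
    rw [mul_sum]
    refine sum_congr rfl fun j _ => ?_
    ring
  rw [e2]
  refine sum_le_sum fun i hi => sum_le_sum fun j hj => ?_
  refine (le_abs_self _).trans ?_
  rw [abs_mul, abs_mul, abs_mul, abs_of_pos (by norm_num : (0 : ℝ) < 200)]
  exact mul_le_mul_of_nonneg_left (key i hi j hj) (by positivity)

end Pool.Agent.Lib.MP_aa9ae4_nt.L1
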