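import Mathlib
import Pool.Agent.Lib.MP_aa9ae4_nt.L1.SpecC
import Pool.Agent.Lib.MP_aa9ae4_nt.S1.PNn

/-!
MP_aa9ae4_nt, L1: the second moment of `ζ Np(k-1)`.
-/

namespace Pool.Agent.Lib.MP_aa9ae4_nt.L1

open Finset MeasureTheory Filter Topology
open Complex (I)
open Pool.Agent.Lib.MP_aa9ae4_nt.S1 (pw psumS eulS tail prs nn KK expJ HT fzS y1)

private lemma tz_log : ∀ᶠ T : ℝ in atTop, 1 + Real.log T ≤ T ^ (1 / 4 : ℝ) := by
  have h1 : (fun T : ℝ => 1 + Real.log T) =o[atTop] fun T : ℝ => T ^ (1 / 4 : ℝ) := by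
    refine Asymptotics.IsLittleO.add ?_ (isLittleO_log_rpow_atTop (by norm_num))
    refine Asymptotics.isLittleO_const_left.2 (Or.inr ?_)
    exact tendsto_norm_atTop_atTop.comp (tendsto_rpow_atTop (by norm_num))
  filter_upwards [h1.bound (show (0 : ℝ) < 1 by norm_num), eventually_ge_atTop 1] with T hT h1T
  rw [one_mul] at hT
  refine (le_abs_self _).trans (hT.trans ?_)
  rw [Real.norm_eq_abs, abs_of_nonneg (by positivity)]

/-- the expansion of `Np` -/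
private lemma tz_exp (hExd : S_Exd) (C1 η α T t : ℝ) (hB : IsBl (nI T + 1) (Bl η T)) :
    Np C1 η α T t = ∑ u ∈ VK (nI T + 1) (Bl η T) (Kb C1),
      (cf (nI T + 1) (Bl η T) (fun _ r => α ^ r) u : ℂ) *
        pw (1 / 2) (nQ (nI T + 1) (Bl η T) u) t := by
  have h1 := (hExd (nI T + 1) (Bl η T) (Kb C1) (fun _ r => α ^ r) hB.2).1
    (fun p => pw (1 / 2) p t)
  unfold Np
  rw [h1]
  refine sum_congr rfl fun u _ => ?_
  congr 1
  have hp : ∀ p ∈ (range (nI T + 1)).biUnion (Bl η T), p.Prime := by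
    intro p hp
    rw [mem_biUnion] at hp
    obtain ⟨i, hi, hpi⟩ := hp
    exact hB.1 i hi p hpi
  obtain ⟨-, -, -, -, -, h⟩ := S1.pNn _ hp 0
  exact (h (1 / 2) t u).symm

theorem pTz (hBk : S_Bk) (hSz2 : S_Sz2) (hExd : S_Exd) (hTsm : S_Tsm) (hQff : S_Qff) : S_Tz := by
  intro k C0 hk hC0
  obtain ⟨C10, hQ⟩ := hQff k C0 hk hC0
  obtain ⟨c1, CT, hCT, hTs⟩ := hTsm
  refine ⟨max C10 1, ?_⟩
  intro C1 η hC1 hη hη1 hηC
  have hC10 : C10 ≤ C1 := (le_max_left _ _).trans hC1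
  have hC11 : 1 ≤ C1 := (le_max_right _ _).trans hC1
  obtain ⟨CQ, hCQ, hQe⟩ := hQ C1 η hC10 hη hη1
  obtain ⟨hS1, hS2⟩ := hSz2 1 C1 η le_rfl hC11 hη hη1
  have hKb : (fun i => 1 * Kb C1 i) = Kb C1 := by
    funext i; rw [one_mul]
  rw [hKb] at hS1
  have hS3 := hS2 (max 1 |k - 1|) (le_max_left _ _)
  rw [hKb] at hS3
  refine ⟨100 * ((1 + |c1|) * CQ + CQ) + CT, by positivity, ?_⟩
  filter_upwards [hQe, hS1, hS3, hBk C0 η hC0 hη hη1, tz_log, eventually_ge_atTop 256,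
    eventually_ge_atTop (Real.exp 1)] with T hQT hS1T hS3T hBT hlogT hT256 hTe
  obtain ⟨-, -, -, -, hBl, -, -⟩ := hBT
  have hT1 : 1 ≤ T := by linarith
  have hT0 : 0 < T := by linarith
  have hL1 : 1 ≤ Real.log T := by
    rw [Real.le_log_iff_exp_le hT0]; exact hTe
  have hηC0 : 0 < η * C1 := by positivity
  set Y : ℝ := T ^ (5 * (η * C1)) with hY
  have hY1 : 1 ≤ Y := Real.one_le_rpow hT1 (by positivity)
  have hT12 : T ^ (1 / 2 : ℝ) * T ^ (1 / 2 : ℝ) = T := by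
    rw [← Real.rpow_add hT0]; norm_num
  have hT16 : 16 ≤ T ^ (1 / 2 : ℝ) := by
    have h1 : (256 : ℝ) ^ (1 / 2 : ℝ) ≤ T ^ (1 / 2 : ℝ) :=
      Real.rpow_le_rpow (by norm_num) hT256 (by norm_num)
    have h2 : (256 : ℝ) ^ (1 / 2 : ℝ) = 16 := by
      rw [show (256 : ℝ) = 16 ^ (2 : ℝ) by norm_num, ← Real.rpow_mul (by norm_num)]
      norm_num
    rw [h2] at h1
    exact h1
  have hY2 : 4 * Real.pi * Y ^ 2 ≤ T := by
    have h1 : Y ^ 2 ≤ T ^ (1 / 2 : ℝ) := by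
      rw [hY, ← Real.rpow_natCast, ← Real.rpow_mul hT0.le]
      refine Real.rpow_le_rpow_of_exponent_le hT1 ?_
      push_cast
      linarith
    have h2 : 4 * Real.pi ≤ 16 := by
      have := Real.pi_le_four
      linarith
    calc 4 * Real.pi * Y ^ 2 ≤ T ^ (1 / 2 : ℝ) * T ^ (1 / 2 : ℝ) :=
          mul_le_mul (h2.trans hT16) h1 (by positivity) (by positivity)
      _ = T := hT12
  have hpr : ∀ p ∈ (range (nI T + 1)).biUnion (Bl η T), p.Prime := by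
    intro p hp
    rw [mem_biUnion] at hp
    obtain ⟨i, hi, hpi⟩ := hp
    exact hBl.1 i hi p hpi
  have hsz : ∀ u ∈ VK (nI T + 1) (Bl η T) (Kb C1), 1 ≤ nQ (nI T + 1) (Bl η T) u ∧
      (nQ (nI T + 1) (Bl η T) u : ℝ) ≤ Y := by
    intro u hu
    refine ⟨?_, ?_⟩
    · unfold nQ nn
      refine Nat.one_le_iff_ne_zero.2 (prod_ne_zero_iff.2 fun p hp => ?_)
      exact pow_ne_zero _ (hpr p hp).ne_zero
    · have h1 := hS1T u hu
      rw [hY]
      refine h1.trans (le_of_eq ?_)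
      congr 1
      push_cast
      ring
  have hTs2 := hTs T Y (ℕ → ℕ) (VK (nI T + 1) (Bl η T) (Kb C1)) (nQ (nI T + 1) (Bl η T))
    (cf (nI T + 1) (Bl η T) (fun _ r => (k - 1) ^ r)) (by linarith) hY1 hY2 hsz
  have e0 : (∫ t in T..(2 * T), ‖riemannZeta (1 / 2 + t * I)‖ ^ 2 *
      ‖Np C1 η (k - 1) T t‖ ^ 2) = ∫ t in T..(2 * T), ‖riemannZeta (1 / 2 + t * I)‖ ^ 2 *
        ‖∑ i ∈ VK (nI T + 1) (Bl η T) (Kb C1),
          (cf (nI T + 1) (Bl η T) (fun _ r => (k - 1) ^ r) i : ℂ) *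
            pw (1 / 2) (nQ (nI T + 1) (Bl η T) i) t‖ ^ 2 := by
    refine intervalIntegral.integral_congr fun t _ => ?_
    rw [tz_exp hExd C1 η (k - 1) T t hBl]
  rw [e0]
  refine hTs2.trans ?_
  obtain ⟨hQ1, hQ2⟩ := hQT
  -- the main term
  have hmain : 100 * T * (∑ i ∈ VK (nI T + 1) (Bl η T) (Kb C1),
      ∑ j ∈ VK (nI T + 1) (Bl η T) (Kb C1),
        cf (nI T + 1) (Bl η T) (fun _ r => (k - 1) ^ r) i *
        cf (nI T + 1) (Bl η T) (fun _ r => (k - 1) ^ r) j *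
        ((Nat.gcd (nQ (nI T + 1) (Bl η T) i) (nQ (nI T + 1) (Bl η T) j) : ℝ) /
          (nQ (nI T + 1) (Bl η T) i * nQ (nI T + 1) (Bl η T) j)) *
        (Real.log T - Real.log (nQ (nI T + 1) (Bl η T) i * nQ (nI T + 1) (Bl η T) j /
          (Nat.gcd (nQ (nI T + 1) (Bl η T) i) (nQ (nI T + 1) (Bl η T) j) : ℝ) ^ 2) + c1)) ≤
      100 * T * (((1 + |c1|) * CQ + CQ) * Real.log T ^ (k ^ 2)) := by
    refine mul_le_mul_of_nonneg_left ?_ (by positivity)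
    have e1 : (∑ i ∈ VK (nI T + 1) (Bl η T) (Kb C1),
      ∑ j ∈ VK (nI T + 1) (Bl η T) (Kb C1),
        cf (nI T + 1) (Bl η T) (fun _ r => (k - 1) ^ r) i *
        cf (nI T + 1) (Bl η T) (fun _ r => (k - 1) ^ r) j *
        ((Nat.gcd (nQ (nI T + 1) (Bl η T) i) (nQ (nI T + 1) (Bl η T) j) : ℝ) /
          (nQ (nI T + 1) (Bl η T) i * nQ (nI T + 1) (Bl η T) j)) *
        (Real.log T - Real.log (nQ (nI T + 1) (Bl η T) i * nQ (nI T + 1) (Bl η T) j /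
          (Nat.gcd (nQ (nI T + 1) (Bl η T) i) (nQ (nI T + 1) (Bl η T) j) : ℝ) ^ 2) + c1)) =
      (Real.log T + c1) * (∑ u ∈ VK (nI T + 1) (Bl η T) (Kb C1), ∑ v ∈ VK (nI T + 1) (Bl η T) (Kb C1),
      cf (nI T + 1) (Bl η T) (fun _ r => (k - 1) ^ r) u *
        cf (nI T + 1) (Bl η T) (fun _ r => (k - 1) ^ r) v *
        ((Nat.gcd (nQ (nI T + 1) (Bl η T) u) (nQ (nI T + 1) (Bl η T) v) : ℝ) /
          (nQ (nI T + 1) (Bl η T) u * nQ (nI T + 1) (Bl η T) v))) -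
      ∑ u ∈ VK (nI T + 1) (Bl η T) (Kb C1), ∑ v ∈ VK (nI T + 1) (Bl η T) (Kb C1),
      cf (nI T + 1) (Bl η T) (fun _ r => (k - 1) ^ r) u *
        cf (nI T + 1) (Bl η T) (fun _ r => (k - 1) ^ r) v *
        ((Nat.gcd (nQ (nI T + 1) (Bl η T) u) (nQ (nI T + 1) (Bl η T) v) : ℝ) /
          (nQ (nI T + 1) (Bl η T) u * nQ (nI T + 1) (Bl η T) v)) *
        Real.log (nQ (nI T + 1) (Bl η T) u * nQ (nI T + 1) (Bl η T) v /
          (Nat.gcd (nQ (nI T + 1) (Bl η T) u) (nQ (nI T + 1) (Bl η T) v) : ℝ) ^ 2) := by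
      rw [mul_sum, ← sum_sub_distrib]
      refine sum_congr rfl fun u _ => ?_
      rw [mul_sum, ← sum_sub_distrib]
      refine sum_congr rfl fun v _ => ?_
      ring
    rw [e1]
    have hp1 : Real.log T * Real.log T ^ (k ^ 2 - 1) = Real.log T ^ (k ^ 2) := by
      have h1 : Real.log T ^ (1 : ℝ) * Real.log T ^ (k ^ 2 - 1) = Real.log T ^ (k ^ 2) := by
        rw [← Real.rpow_add (by linarith)]
        congr 1
        ring
      rwa [Real.rpow_one] at h1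
    have h2 : |Real.log T + c1| ≤ (1 + |c1|) * Real.log T := by
      refine (abs_add_le _ _).trans ?_
      rw [abs_of_pos (by linarith : 0 < Real.log T)]
      nlinarith [abs_nonneg c1]
    refine (sub_le_sub ((le_abs_self _).trans (le_of_eq (abs_mul _ _)))
      (neg_le_of_abs_le hQ2)).trans ?_
    rw [sub_neg_eq_add, add_mul]
    refine add_le_add ?_ le_rfl
    refine (mul_le_mul h2 hQ1 (abs_nonneg _) (by positivity)).trans (le_of_eq ?_)
    rw [← hp1]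
    ring
  -- the error term
  have hsum : ∑ u ∈ VK (nI T + 1) (Bl η T) (Kb C1),
      |cf (nI T + 1) (Bl η T) (fun _ r => (k - 1) ^ r) u| ≤ T ^ (6 * (η * C1)) := by
    have h1 := hS3T (fun _ r => (k - 1) ^ r) (by
      intro i r
      rw [abs_pow]
      have h2 : |k - 1| ^ r ≤ (max 1 |k - 1|) ^ r :=
        pow_le_pow_left₀ (abs_nonneg _) (le_max_right _ _) r
      have h3 : (1 : ℝ) ≤ (r.factorial : ℝ) := by
        exact_mod_cast Nat.one_le_iff_ne_zero.2 (Nat.factorial_ne_zero r)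
      have h4 : (0 : ℝ) ≤ (max 1 |k - 1|) ^ r := by positivity
      nlinarith)
    refine h1.trans (le_of_eq ?_)
    congr 1
    push_cast
    ring
  have herr : CT * Y ^ 3 * (1 + Real.log T) ^ 2 * (∑ u ∈ VK (nI T + 1) (Bl η T) (Kb C1),
      |cf (nI T + 1) (Bl η T) (fun _ r => (k - 1) ^ r) u|) ^ 2 ≤
      CT * (T * Real.log T ^ (k ^ 2)) := by
    have h1 : (∑ u ∈ VK (nI T + 1) (Bl η T) (Kb C1),
      |cf (nI T + 1) (Bl η T) (fun _ r => (k - 1) ^ r) u|) ^ 2 ≤ (T ^ (6 * (η * C1))) ^ 2 :=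
      pow_le_pow_left₀ (sum_nonneg fun _ _ => abs_nonneg _) hsum 2
    have h2 : Y ^ 3 * (T ^ (6 * (η * C1))) ^ 2 ≤ T ^ (1 / 2 : ℝ) := by
      rw [hY, ← Real.rpow_natCast, ← Real.rpow_mul hT0.le, ← Real.rpow_natCast,
        ← Real.rpow_mul hT0.le, ← Real.rpow_add hT0]
      refine Real.rpow_le_rpow_of_exponent_le hT1 ?_
      push_cast
      linarith
    have h3 : (1 + Real.log T) ^ 2 ≤ T ^ (1 / 2 : ℝ) := by
      have h4 : (1 + Real.log T) ^ 2 ≤ (T ^ (1 / 4 : ℝ)) ^ 2 :=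
        pow_le_pow_left₀ (by linarith) hlogT 2
      refine h4.trans (le_of_eq ?_)
      rw [← Real.rpow_natCast, ← Real.rpow_mul hT0.le]
      norm_num
    have h5 : 1 ≤ Real.log T ^ (k ^ 2) := Real.one_le_rpow hL1 (by positivity)
    calc CT * Y ^ 3 * (1 + Real.log T) ^ 2 * (∑ u ∈ VK (nI T + 1) (Bl η T) (Kb C1),
      |cf (nI T + 1) (Bl η T) (fun _ r => (k - 1) ^ r) u|) ^ 2
        ≤ CT * Y ^ 3 * (1 + Real.log T) ^ 2 * (T ^ (6 * (η * C1))) ^ 2 :=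
          mul_le_mul_of_nonneg_left h1 (by positivity)
      _ = CT * ((Y ^ 3 * (T ^ (6 * (η * C1))) ^ 2) * (1 + Real.log T) ^ 2) := by ring
      _ ≤ CT * (T ^ (1 / 2 : ℝ) * T ^ (1 / 2 : ℝ)) := by
          refine mul_le_mul_of_nonneg_left ?_ hCT.le
          exact mul_le_mul h2 h3 (by positivity) (by positivity)
      _ = CT * (T * 1) := by rw [hT12, mul_one]
      _ ≤ CT * (T * Real.log T ^ (k ^ 2)) := by gcongr
  calc _ ≤ 100 * T * (((1 + |c1|) * CQ + CQ) * Real.log T ^ (k ^ 2)) +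
        CT * (T * Real.log T ^ (k ^ 2)) := add_le_add hmain herr
    _ = _ := by ring

end Pool.Agent.Lib.MP_aa9ae4_nt.L1
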