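import Pool.Agent.Lib.MP_aa9ae4_nt.L1.MainA
import Pool.Agent.Lib.MP_aa9ae4_nt.L1.PLB
import Pool.Agent.Lib.MP_aa9ae4_nt.L1.PMel
import Pool.Agent.Lib.MP_aa9ae4_nt.L1.PEbd
import Pool.Agent.Lib.MP_aa9ae4_nt.L1.PPlm
import Pool.Agent.Lib.MP_aa9ae4_nt.L1.PI0
import Pool.Agent.Lib.MP_aa9ae4_nt.L1.PI1
import Pool.Agent.Lib.MP_aa9ae4_nt.L1.PPmn
import Pool.Agent.Lib.MP_aa9ae4_nt.L1.PPer
import Pool.Agent.Lib.MP_aa9ae4_nt.L1.PLam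
import Pool.Agent.Lib.MP_aa9ae4_nt.L1.PIhk
import Pool.Agent.Lib.MP_aa9ae4_nt.L1.PTsm
import Pool.Agent.Lib.MP_aa9ae4_nt.L1.PFac
import Pool.Agent.Lib.MP_aa9ae4_nt.L1.PQfb
import Pool.Agent.Lib.MP_aa9ae4_nt.L1.PQff
import Pool.Agent.Lib.MP_aa9ae4_nt.L1.PTz

/-! Assembly of Theorem L: the lower bound of the conjectured order for every `k > 0`. -/

namespace Pool.Agent.Lib.MP_aa9ae4_nt.L1

open Finset MeasureTheory Filter Topology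
open Complex (I)

theorem mIhk : S_Ihk := pIhk pEbd (pI0 pEbd) (pI1 pEbd) (pPer pEbd pPmn) pLam

theorem mTsm : S_Tsm := pTsm (pPlm pMel pEbd) mIhk

theorem mQff : S_Qff := pQff pBk pFac pQfb pMt

theorem mTz : S_Tz := pTz pBk mSz2 pExd mTsm mQff

theorem mLB : S_LB := pLB pMt (pGs pMt) mUpp mLow mTz

theorem main_L (k σ a β : ℝ) (hk : 0 < k) (hσ : 1 / 2 < σ) (hσ1 : σ ≤ 1) (ha : 0 < a) :
    ∃ c : ℝ, 0 < c ∧ ∀ᶠ T : ℝ in atTop,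
      ENNReal.ofReal (c * T * Real.log T ^ (k ^ 2)) ≤
        ∫⁻ t in Set.Icc T (2 * T), ENNReal.ofReal
          ((‖riemannZeta (1 / 2 + t * I)‖ / ‖riemannZeta (σ + a * t * I)‖ ^ β) ^ (2 * k)) := by
  rcases lt_or_ge k 1 with h | h
  · exact mLB k σ a β hk h hσ hσ1 ha
  · exact mLA k σ a β (by linarith) hσ hσ1 ha

end Pool.Agent.Lib.MP_aa9ae4_nt.L1
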