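import Pool.Agent.Lib.MP_aa9ae4_nt.L1.SpecB

/-! MP_aa9ae4_nt, Theorem L, part B: facts on the blocks. -/

namespace Pool.Agent.Lib.MP_aa9ae4_nt.L1

open Finset MeasureTheory Filter Topology
open Complex (I)
open Pool.Agent.Lib.MP_aa9ae4_nt.S1 (pw psumS eulS tail prs nn KK expJ HT fzS y1)

private theorem bk_prs_union {x y z : ℕ} (h1 : x ≤ y) (h2 : y ≤ z) :
    prs x y ∪ prs y z = prs x z := by
  ext p
  simp only [prs, Finset.mem_union, Finset.mem_filter, Finset.mem_Ioc]
  constructor
  · rintro (⟨⟨h3, h4⟩, h5⟩ | ⟨⟨h3, h4⟩, h5⟩)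
    · exact ⟨⟨h3, by omega⟩, h5⟩
    · exact ⟨⟨by omega, h4⟩, h5⟩
  · rintro ⟨⟨h3, h4⟩, h5⟩
    by_cases h6 : p ≤ y
    · exact Or.inl ⟨⟨h3, h6⟩, h5⟩
    · exact Or.inr ⟨⟨by omega, h4⟩, h5⟩

private theorem bk_prs_disj (x y z : ℕ) : Disjoint (prs x y) (prs y z) := by
  rw [Finset.disjoint_left]
  intro p hp hq
  simp only [prs, Finset.mem_filter, Finset.mem_Ioc] at hp hq
  omega

private theorem bk_tail (z : ℕ) : tail 1 0 z = ∑ p ∈ prs 0 z, (p : ℝ)⁻¹ := by
  unfold tail
  exact Finset.sum_congr rfl fun p _ => Real.rpow_neg_one _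

/-- the exponent of the block `i` -/
private noncomputable def bku (η T : ℝ) (i : ℕ) : ℝ := η * Real.log T * Real.exp (-(i : ℝ))

private theorem bk_logn {u : ℝ} (hu : 10 ≤ u) :
    Real.log (⌊Real.exp u⌋₊ : ℝ) ≤ u ∧ 9 / 10 * u ≤ Real.log (⌊Real.exp u⌋₊ : ℝ) ∧
      2 ≤ ⌊Real.exp u⌋₊ ∧ Real.exp u / 2 ≤ (⌊Real.exp u⌋₊ : ℝ) := by
  have h1 : (11 : ℝ) ≤ Real.exp u := by
    have := Real.add_one_le_exp u
    linarith
  have h2 : (⌊Real.exp u⌋₊ : ℝ) ≤ Real.exp u := Nat.floor_le (Real.exp_nonneg _)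
  have h3 : Real.exp u < (⌊Real.exp u⌋₊ : ℝ) + 1 := Nat.lt_floor_add_one _
  have h4 : Real.exp u / 2 ≤ (⌊Real.exp u⌋₊ : ℝ) := by linarith
  have h5 : (0 : ℝ) < (⌊Real.exp u⌋₊ : ℝ) := by linarith
  refine ⟨?_, ?_, ?_, h4⟩
  · have := Real.log_le_log h5 h2
    rwa [Real.log_exp] at this
  · have h6 := Real.log_le_log (by positivity) h4
    rw [Real.log_div (Real.exp_ne_zero _) (by norm_num), Real.log_exp] at h6
    have := Real.log_two_lt_d9
    linarith
  · apply Nat.le_floor
    push_cast
    linarith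

theorem pBk : S_Bk := by
  intro C0 η hM hη hη1
  obtain ⟨hC0, hMt⟩ := hM
  have hL : Tendsto Real.log atTop atTop := Real.tendsto_log_atTop
  have hl : Tendsto (fun T : ℝ => Real.log (Real.log T)) atTop atTop := hL.comp hL
  have hlit : ∀ᶠ x : ℝ in atTop, Real.log x ^ (2 : ℝ) ≤ η / 6 * x ^ (1 / 2 : ℝ) := by
    have h := (isLittleO_log_rpow_rpow_atTop (s := 1 / 2) (2 : ℝ) (by norm_num)).bound
      (show (0 : ℝ) < η / 6 by positivity)
    filter_upwards [h, eventually_ge_atTop 1] with x hx hx1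
    have h1 : 0 ≤ Real.log x := Real.log_nonneg hx1
    rw [Real.norm_of_nonneg (Real.rpow_nonneg h1 _),
      Real.norm_of_nonneg (Real.rpow_nonneg (by linarith) _)] at hx
    exact hx
  filter_upwards [hL.eventually hlit, hL.eventually_ge_atTop 100, hl.eventually_ge_atTop 1] with
    T h1 h2 h3
  set L := Real.log T with hLdef
  set l := Real.log L with hldef
  have hL0 : 0 < L := by linarith
  have hl0 : 0 < l := by linarith
  set n := nI T with hn
  have hn1 : 2 * Real.log l ≤ n := by
    rw [hn]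
    unfold nI
    exact Nat.le_ceil _
  have hlogl : 0 ≤ Real.log l := Real.log_nonneg h3
  have hn2 : (n : ℝ) ≤ 2 * Real.log l + 1 := by
    rw [hn]
    unfold nI
    exact (Nat.ceil_lt_add_one (by positivity)).le
  have he1 : Real.exp 1 ≤ 3 := by
    have := Real.exp_one_lt_d9
    linarith
  -- the exponents are large
  have hexpn : ∀ i ≤ n, 1 / (3 * l ^ 2) ≤ Real.exp (-(i : ℝ)) := by
    intro i hi
    have hi' : (i : ℝ) ≤ n := by exact_mod_cast hi
    have h4 : Real.exp (i : ℝ) ≤ 3 * l ^ 2 := by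
      calc Real.exp (i : ℝ) ≤ Real.exp (2 * Real.log l + 1) := Real.exp_le_exp.mpr (by linarith)
        _ = Real.exp 1 * l ^ 2 := by
            rw [Real.exp_add, mul_comm (2 : ℝ), Real.exp_mul, Real.exp_log hl0, mul_comm]
            norm_num
        _ ≤ 3 * l ^ 2 := mul_le_mul_of_nonneg_right he1 (by positivity)
    rw [Real.exp_neg, ← one_div]
    exact one_div_le_one_div_of_le (Real.exp_pos _) h4
  have hsq : √L = L ^ (1 / 2 : ℝ) := Real.sqrt_eq_rpow L
  have hsq10 : 10 ≤ √L := by
    rw [show (10 : ℝ) = √100 by rw [show (100 : ℝ) = 10 ^ 2 by norm_num, Real.sqrt_sq (by norm_num)]]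
    exact Real.sqrt_le_sqrt h2
  have hsqL : √L * √L = L := Real.mul_self_sqrt hL0.le
  have h1' : l ^ 2 ≤ η / 6 * √L := by
    rw [hsq]
    have := h1
    rwa [show (2 : ℝ) = ((2 : ℕ) : ℝ) by norm_num, Real.rpow_natCast] at this
  have hu : ∀ i ≤ n, √L + 10 ≤ bku η T i := by
    intro i hi
    unfold bku
    rw [← hLdef]
    have h5 : √L + 10 ≤ η * L * (1 / (3 * l ^ 2)) := by
      rw [mul_one_div, le_div_iff₀ (by positivity)]
      have h6 : 3 * l ^ 2 ≤ η / 2 * √L := by linarith
      calc (√L + 10) * (3 * l ^ 2) ≤ (2 * √L) * (η / 2 * √L) := by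
            apply mul_le_mul (by linarith) h6 (by positivity) (by positivity)
        _ = η * (√L * √L) := by ring
        _ = η * L := by rw [hsqL]
    exact h5.trans (mul_le_mul_of_nonneg_left (hexpn i hi) (by positivity))
  have hu10 : ∀ i ≤ n, 10 ≤ bku η T i := fun i hi => by
    have := hu i hi
    linarith
  have hxe : ∀ i, xe η T i = ⌊Real.exp (bku η T i)⌋₊ := fun i => rfl
  have hus : ∀ i, bku η T (i + 1) = bku η T i / Real.exp 1 := by
    intro i
    unfold bku
    rw [Nat.cast_add, Nat.cast_one, neg_add, Real.exp_add, Real.exp_neg 1]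
    field_simp
  have hanti : ∀ i j, i ≤ j → xe η T j ≤ xe η T i := by
    intro i j hij
    rw [hxe, hxe]
    apply Nat.floor_le_floor
    apply Real.exp_le_exp.mpr
    unfold bku
    apply mul_le_mul_of_nonneg_left _ (by positivity)
    apply Real.exp_le_exp.mpr
    have : (i : ℝ) ≤ j := by exact_mod_cast hij
    linarith
  have hlo : ∀ i, i < n → lo η T i = xe η T (i + 1) := fun i hi => by
    unfold lo
    rw [if_pos hi]
  have hlon : lo η T n = 0 := by
    unfold lo
    rw [if_neg (lt_irrefl _)]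
  have hlole : ∀ i ≤ n, lo η T i ≤ xe η T i := by
    intro i hi
    rcases Nat.lt_or_ge i n with h4 | h4
    · rw [hlo i h4]
      exact hanti _ _ (Nat.le_succ i)
    · have : i = n := le_antisymm hi h4
      rw [this, hlon]
      exact Nat.zero_le _
  have hxe2 : ∀ i ≤ n, 2 ≤ xe η T i := fun i hi => (bk_logn (hu10 i hi)).2.2.1
  have hlg1 : ∀ i ≤ n, Real.log (xe η T i) ≤ bku η T i := fun i hi => (bk_logn (hu10 i hi)).1
  have hlg2 : ∀ i ≤ n, 9 / 10 * bku η T i ≤ Real.log (xe η T i) := fun i hi =>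
    (bk_logn (hu10 i hi)).2.1
  have h09 : -(1 / 5) ≤ Real.log (9 / 10) := by
    have := Real.one_sub_inv_le_log_of_pos (show (0 : ℝ) < 9 / 10 by norm_num)
    norm_num at this ⊢
    linarith
  have hll1 : ∀ i ≤ n, Real.log (Real.log (xe η T i)) ≤ Real.log (bku η T i) := by
    intro i hi
    apply Real.log_le_log _ (hlg1 i hi)
    have := hlg2 i hi
    have := hu10 i hi
    linarith
  have hll2 : ∀ i ≤ n, -(1 / 5) + Real.log (bku η T i) ≤ Real.log (Real.log (xe η T i)) := by
    intro i hi
    have h4 := hu10 i hi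
    have h5 := Real.log_le_log (by linarith) (hlg2 i hi)
    rw [Real.log_mul (by norm_num) (by linarith)] at h5
    linarith
  -- disjointness
  have hdisj : ∀ i ≤ n, ∀ j ≤ n, i < j → Disjoint (Bl η T i) (Bl η T j) := by
    intro i _ j hj hij
    rw [Finset.disjoint_left]
    intro p hp hq
    simp only [Bl, prs, Finset.mem_filter, Finset.mem_Ioc] at hp hq
    rw [hlo i (by omega)] at hp
    have h4 := hanti (i + 1) j (by omega)
    omega
  have hbl : IsBl (n + 1) (Bl η T) := by
    constructor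
    · intro i _ p hp
      simp only [Bl, prs, Finset.mem_filter] at hp
      exact hp.2
    · intro i hi j hj hij
      rw [Finset.mem_range] at hi hj
      rcases lt_or_gt_of_ne hij with h4 | h4
      · exact hdisj i (by omega) j (by omega) h4
      · exact (hdisj j (by omega) i (by omega) h4).symm
  have hun1 : ∀ m ≤ n, (range m).biUnion (Bl η T) = prs (xe η T m) (xe η T 0) := by
    intro m
    induction m with
    | zero =>
      intro _
      simp [prs]
    | succ m ih =>
      intro hm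
      rw [Finset.range_add_one, Finset.biUnion_insert, ih (by omega)]
      have h4 : Bl η T m = prs (xe η T (m + 1)) (xe η T m) := by
        unfold Bl
        rw [hlo m (by omega)]
      rw [h4]
      exact bk_prs_union (hanti _ _ (Nat.le_succ m)) (hanti _ _ (Nat.zero_le m))
  have hun : (range (n + 1)).biUnion (Bl η T) = prs 0 (xe η T 0) := by
    rw [Finset.range_add_one, Finset.biUnion_insert, hun1 n le_rfl]
    have h4 : Bl η T n = prs 0 (xe η T n) := by
      unfold Bl
      rw [hlon]
    rw [h4]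
    exact bk_prs_union (Nat.zero_le _) (hanti _ _ (Nat.zero_le n))
  have hMa : ∀ i ≤ n, |tail 1 0 (xe η T i) - Real.log (Real.log (xe η T i))| ≤ C0 / 4 :=
    fun i hi => hMt _ (hxe2 i hi)
  refine ⟨?_, ?_, fun i hi => ⟨hxe2 i hi, hlole i hi⟩, ⟨?_, ?_⟩, hbl, hun, ?_⟩
  · intro i hi
    rcases Nat.lt_or_ge i n with h4 | h4
    · have h5 : Vu C0 T i = C0 := by
        unfold Vu
        rw [if_pos h4]
      rw [h5]
      have h6 : tail 1 0 (xe η T i) = tail 1 0 (xe η T (i + 1)) + Vb η T i := by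
        rw [bk_tail, bk_tail, ← bk_prs_union (Nat.zero_le (xe η T (i + 1)))
          (hanti _ _ (Nat.le_succ i)), Finset.sum_union (bk_prs_disj _ _ _)]
        unfold Vb Bl
        rw [hlo i h4]
      have h7 := abs_le.mp (hMa i hi)
      have h8 := abs_le.mp (hMa (i + 1) h4)
      have h9 := hll1 i hi
      have h10 := hll2 (i + 1) h4
      have h11 : Real.log (bku η T (i + 1)) = Real.log (bku η T i) - 1 := by
        have := hu10 i hi
        rw [hus, Real.log_div (by linarith) (Real.exp_ne_zero _), Real.log_exp]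
      linarith [h7.1, h7.2, h8.1, h8.2]
    · have hin : i = n := le_antisymm hi h4
      rw [hin]
      have h5 : Vu C0 T n = C0 * l := by
        unfold Vu
        rw [if_neg (by omega)]
      rw [h5]
      have h6 : tail 1 0 (xe η T n) = Vb η T n := by
        rw [bk_tail]
        unfold Vb Bl
        rw [hlon]
      have h7 := abs_le.mp (hMa n le_rfl)
      have h9 := hll1 n le_rfl
      have h10 : Real.log (bku η T n) ≤ l := by
        have h11 := hu10 n le_rfl
        apply Real.log_le_log (by linarith)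
        unfold bku
        rw [← hLdef]
        have h12 : Real.exp (-(n : ℝ)) ≤ 1 := Real.exp_le_one_iff.mpr (by simp)
        calc η * L * Real.exp (-(n : ℝ)) ≤ 1 * L * 1 := by
              apply mul_le_mul _ h12 (Real.exp_nonneg _) (by linarith)
              exact mul_le_mul_of_nonneg_right hη1 hL0.le
          _ = L := by ring
      nlinarith [h7.1, h7.2]
  · intro i hi
    rw [hlo i hi, hxe]
    have h4 := hu (i + 1) hi
    have h5 := (bk_logn (hu10 (i + 1) hi)).2.2.2
    refine le_trans ?_ h5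
    have h6 : 2 * Real.exp √L ≤ Real.exp (bku η T (i + 1)) := by
      calc 2 * Real.exp √L ≤ Real.exp 10 * Real.exp √L := by
            apply mul_le_mul_of_nonneg_right _ (Real.exp_nonneg _)
            have := Real.add_one_le_exp (10 : ℝ)
            linarith
        _ = Real.exp (√L + 10) := by rw [← Real.exp_add, add_comm]
        _ ≤ _ := Real.exp_le_exp.mpr h4
    linarith
  · calc l = Real.exp (Real.log l) := (Real.exp_log hl0).symm
      _ ≤ Real.exp ((n : ℝ) / 2) := Real.exp_le_exp.mpr (by linarith)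
  · have h4 : Real.exp (1 / 2) ≤ 2 := by
      have h5 : Real.exp (1 / 2) ^ 2 = Real.exp 1 := by
        rw [← Real.exp_nat_mul]
        norm_num
      have h6 := Real.exp_pos (1 / 2)
      nlinarith
    calc Real.exp ((n : ℝ) / 2) ≤ Real.exp (Real.log l + 1 / 2) :=
          Real.exp_le_exp.mpr (by linarith)
      _ = l * Real.exp (1 / 2) := by rw [Real.exp_add, Real.exp_log hl0]
      _ ≤ l * 2 := mul_le_mul_of_nonneg_left h4 hl0.le
      _ = 2 * l := mul_comm _ _
  · have h4 : ∑ i ∈ range (n + 1), Vb η T i = tail 1 0 (xe η T 0) := by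
      rw [bk_tail, ← hun, Finset.sum_biUnion]
      · rfl
      · intro i hi j hj hij
        exact hbl.2 i hi j hj hij
    rw [h4]
    have h5 := abs_le.mp (hMa 0 (Nat.zero_le n))
    have h6 := hll1 0 (Nat.zero_le n)
    have h7 := hll2 0 (Nat.zero_le n)
    have h8 : Real.log (bku η T 0) = Real.log η + l := by
      unfold bku
      rw [← hLdef, Nat.cast_zero, neg_zero, Real.exp_zero, mul_one,
        Real.log_mul hη.ne' hL0.ne']
    have h9 := neg_abs_le (Real.log η)
    have h10 := le_abs_self (Real.log η)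
    rw [abs_le]
    constructor <;> linarith [h5.1, h5.2]

end Pool.Agent.Lib.MP_aa9ae4_nt.L1
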