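import Pool.Agent.Lib.MP_aa9ae4_nt.L1.SpecB

/-!
MP_aa9ae4_nt, Theorem L: the block inequality for the coefficients.
-/

namespace Pool.Agent.Lib.MP_aa9ae4_nt.L1

open Finset MeasureTheory Filter Topology
open Complex (I)
open Pool.Agent.Lib.MP_aa9ae4_nt.S1 (pw psumS eulS tail prs nn KK expJ HT fzS y1)

private lemma blq_Kb_pos (C1 : ℝ) (hC1 : 1 ≤ C1) (i : ℕ) : 1 ≤ Kb C1 i := by
  unfold Kb
  refine Nat.one_le_iff_ne_zero.mpr ?_
  have h : 0 < C1 * Real.exp ((i : ℝ) / 2) := by positivity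
  have := Nat.ceil_pos.mpr h
  omega

private lemma blq_ex (k V : ℝ) (hV : 0 ≤ V) (N : ℕ) :
    ∑ j ∈ range N, (k ^ 2 * V) ^ j / (j.factorial : ℝ) ≤ Real.exp (k ^ 2 * V) :=
  Real.sum_le_exp_of_nonneg (by positivity) N

/-- the case of a block of type N -/
private lemma blq_in (k : ℝ) (m : ℕ) (C1 : ℝ) (S : Finset ℕ) (i : ℕ) (hi : i ∈ S) (hk : 0 < k)
    (V b : ℝ) (hV : 0 ≤ V) (hb : k ≤ b) (u v : ℕ) :
    ∑ j ∈ range (m * Kb C1 i + 1), fS k m C1 S i (j + u) * fS k m C1 S i (j + v) *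
      V ^ j / (j.factorial : ℝ) ≤ b ^ (u + v) * Real.exp (k ^ 2 * V) := by
  have h0 : ∀ r, 0 ≤ fS k m C1 S i r ∧ fS k m C1 S i r ≤ k ^ r := by
    intro r
    unfold fS
    rw [if_pos hi]
    split_ifs
    · exact ⟨by positivity, le_rfl⟩
    · exact ⟨le_rfl, by positivity⟩
  have h1 : ∀ j ∈ range (m * Kb C1 i + 1), fS k m C1 S i (j + u) * fS k m C1 S i (j + v) *
      V ^ j / (j.factorial : ℝ) ≤ k ^ (u + v) * ((k ^ 2 * V) ^ j / (j.factorial : ℝ)) := by
    intro j _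
    have h2 : fS k m C1 S i (j + u) * fS k m C1 S i (j + v) ≤ k ^ (j + u) * k ^ (j + v) :=
      mul_le_mul (h0 _).2 (h0 _).2 (h0 _).1 (by positivity)
    have h3 : k ^ (u + v) * ((k ^ 2 * V) ^ j / (j.factorial : ℝ)) =
        (k ^ (j + u) * k ^ (j + v)) * V ^ j / (j.factorial : ℝ) := by
      rw [mul_pow, ← pow_mul]
      ring
    rw [h3]
    gcongr
  calc ∑ j ∈ range (m * Kb C1 i + 1), fS k m C1 S i (j + u) * fS k m C1 S i (j + v) *
      V ^ j / (j.factorial : ℝ)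
      ≤ ∑ j ∈ range (m * Kb C1 i + 1), k ^ (u + v) * ((k ^ 2 * V) ^ j / (j.factorial : ℝ)) :=
        sum_le_sum h1
    _ = k ^ (u + v) * ∑ j ∈ range (m * Kb C1 i + 1), (k ^ 2 * V) ^ j / (j.factorial : ℝ) := by
        rw [mul_sum]
    _ ≤ k ^ (u + v) * Real.exp (k ^ 2 * V) := by
        have := blq_ex k V hV (m * Kb C1 i + 1)
        gcongr
    _ ≤ b ^ (u + v) * Real.exp (k ^ 2 * V) := by gcongr

/-- the single term of a block of type Q -/
private lemma blq_term (c V U b : ℝ) (M u : ℕ) (hc : 0 ≤ c) (hV : 0 ≤ V) (hVU : V ≤ U) (hU : 0 < U)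
    (hb : 1 ≤ b) (hb2 : (M : ℝ) / U ≤ b) (hu : u ≤ M) :
    (c ^ M * (M.factorial : ℝ)) * (c ^ M * (M.factorial : ℝ)) * V ^ (M - u) /
      ((M - u).factorial : ℝ) ≤ b ^ (u + u) * (c ^ (2 * M) * (M.factorial : ℝ) * U ^ M) := by
  have h1 : (M.factorial : ℝ) / ((M - u).factorial : ℝ) ≤ (M : ℝ) ^ u := by
    rw [div_le_iff₀ (by positivity)]
    have h2 := Nat.factorial_mul_descFactorial hu
    have h3 := Nat.descFactorial_le_pow M u
    have h4 : M.factorial ≤ M ^ u * (M - u).factorial := by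
      rw [← h2, mul_comm]
      exact Nat.mul_le_mul_right _ h3
    exact_mod_cast h4
  have h5 : U ^ M = U ^ (M - u) * U ^ u := by
    rw [← pow_add, Nat.sub_add_cancel hu]
  have h6 : (M : ℝ) ^ u = ((M : ℝ) / U) ^ u * U ^ u := by
    rw [← mul_pow, div_mul_cancel₀ _ hU.ne']
  have h7 : ((M : ℝ) / U) ^ u ≤ b ^ (u + u) := by
    calc ((M : ℝ) / U) ^ u ≤ b ^ u := by
          have : 0 ≤ (M : ℝ) / U := by positivity
          gcongr
      _ ≤ b ^ (u + u) := pow_le_pow_right₀ hb (by omega)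
  have h8 : V ^ (M - u) ≤ U ^ (M - u) := by gcongr
  have e1 : (c ^ M * (M.factorial : ℝ)) * (c ^ M * (M.factorial : ℝ)) * V ^ (M - u) /
      ((M - u).factorial : ℝ) = (c ^ (2 * M) * (M.factorial : ℝ)) *
      (((M.factorial : ℝ) / ((M - u).factorial : ℝ)) * V ^ (M - u)) := by
    rw [two_mul, pow_add]
    ring
  rw [e1]
  have h9 : ((M.factorial : ℝ) / ((M - u).factorial : ℝ)) * V ^ (M - u) ≤
      (M : ℝ) ^ u * U ^ (M - u) := by
    have : 0 ≤ V ^ (M - u) := by positivity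
    gcongr
  have h10 : (M : ℝ) ^ u * U ^ (M - u) ≤ b ^ (u + u) * U ^ M := by
    rw [h6, h5]
    calc ((M : ℝ) / U) ^ u * U ^ u * U ^ (M - u) = ((M : ℝ) / U) ^ u * (U ^ (M - u) * U ^ u) := by ring
      _ ≤ b ^ (u + u) * (U ^ (M - u) * U ^ u) := by
          have : 0 ≤ U ^ (M - u) * U ^ u := by positivity
          gcongr
  calc (c ^ (2 * M) * (M.factorial : ℝ)) *
      (((M.factorial : ℝ) / ((M - u).factorial : ℝ)) * V ^ (M - u))
      ≤ (c ^ (2 * M) * (M.factorial : ℝ)) * (b ^ (u + u) * U ^ M) := by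
        have h11 := h9.trans h10
        gcongr
    _ = b ^ (u + u) * (c ^ (2 * M) * (M.factorial : ℝ) * U ^ M) := by ring

/-- the case of a block of type Q -/
private lemma blq_out (k : ℝ) (m : ℕ) (C1 : ℝ) (S : Finset ℕ) (i : ℕ) (hi : i ∉ S)
    (V U b : ℝ) (hc : 0 ≤ ck k / (Kb C1 i : ℝ)) (hV : 0 ≤ V) (hVU : V ≤ U) (hU : 0 < U)
    (hb : 1 ≤ b) (hb2 : ((m * Kb C1 i : ℕ) : ℝ) / U ≤ b) (u v : ℕ) :
    ∑ j ∈ range (m * Kb C1 i + 1), fS k m C1 S i (j + u) * fS k m C1 S i (j + v) *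
      V ^ j / (j.factorial : ℝ) ≤ b ^ (u + v) * ((ck k / (Kb C1 i : ℝ)) ^ (2 * (m * Kb C1 i)) *
        ((m * Kb C1 i).factorial : ℝ) * U ^ (m * Kb C1 i)) := by
  have hR : 0 ≤ b ^ (u + v) * ((ck k / (Kb C1 i : ℝ)) ^ (2 * (m * Kb C1 i)) *
        ((m * Kb C1 i).factorial : ℝ) * U ^ (m * Kb C1 i)) := by positivity
  have hf : ∀ r, fS k m C1 S i r = if r = m * Kb C1 i then
      (ck k / (Kb C1 i : ℝ)) ^ r * (r.factorial : ℝ) else 0 := by
    intro r
    unfold fS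
    rw [if_neg hi]
  by_cases hc1 : u = v ∧ u ≤ m * Kb C1 i
  · obtain ⟨rfl, hu⟩ := hc1
    rw [Finset.sum_eq_single (m * Kb C1 i - u)]
    · rw [hf, if_pos (by omega : m * Kb C1 i - u + u = m * Kb C1 i),
        (by omega : m * Kb C1 i - u + u = m * Kb C1 i)]
      exact blq_term _ V U b _ u hc hV hVU hU hb hb2 hu
    · intro j _ hj
      rw [hf, if_neg (by omega)]
      simp
    · intro hj
      exact absurd (mem_range.mpr (by omega)) hj
  · rw [Finset.sum_eq_zero]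
    · exact hR
    · intro j _
      rw [hf (j + u), hf (j + v)]
      by_cases h1 : j + u = m * Kb C1 i
      · have h2 : j + v ≠ m * Kb C1 i := by
          intro h3
          exact hc1 ⟨by omega, by omega⟩
        rw [if_neg h2]
        simp
      · rw [if_neg h1]
        simp

/-- **The block inequality for the coefficients `fS`.** -/
theorem pBlq (hBk : S_Bk) : S_Blq := by
  intro k m C1 C0 η hk hm hC1 hC0 hη hη1
  filter_upwards [hBk C0 η hC0 hη hη1,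
    (Real.tendsto_log_atTop.comp Real.tendsto_log_atTop).eventually (eventually_gt_atTop (0 : ℝ))]
    with T hT hll S i hi u v
  have hi1 : i ≤ nI T := by
    have := mem_range.mp hi
    omega
  have hV : 0 ≤ ∑ p ∈ Bl η T i, (p : ℝ)⁻¹ := sum_nonneg fun p _ => by positivity
  have hVU : ∑ p ∈ Bl η T i, (p : ℝ)⁻¹ ≤ Vu C0 T i := hT.1 i hi1
  have hC04 : 4 ≤ C0 := hC0.1
  have hU : 0 < Vu C0 T i := by
    unfold Vu
    have hll' : 0 < Real.log (Real.log T) := hll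
    split_ifs
    · linarith
    · have : 0 < C0 := by linarith
      positivity
  have hK : 1 ≤ Kb C1 i := blq_Kb_pos C1 hC1 i
  have hMU : 0 ≤ ((m * Kb C1 i : ℕ) : ℝ) / Vu C0 T i := by positivity
  unfold wS
  by_cases hiS : i ∈ S
  · rw [if_pos hiS]
    refine blq_in k m C1 S i hiS hk _ _ hV ?_ u v
    unfold bb
    linarith
  · rw [if_neg hiS]
    refine blq_out k m C1 S i hiS _ _ _ ?_ hV hVU hU ?_ ?_ u v
    · unfold ck
      positivity
    · unfold bb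
      linarith
    · unfold bb
      linarith

end Pool.Agent.Lib.MP_aa9ae4_nt.L1
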