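import Mathlib
import Pool.Agent.Lib.MP_aa9ae4_nt.L1.SpecB
import Pool.Agent.Lib.MP_aa9ae4_nt.S1.PSz

/-!
MP_aa9ae4_nt, Theorem L: the diagonal sum (`S_Dg`).
-/

set_option autoImplicit false

namespace Pool.Agent.Lib.MP_aa9ae4_nt.L1

open Finset MeasureTheory Filter Topology
open Complex (I)

private theorem dg_pd {n : ℕ} {B : ℕ → Finset ℕ}
    (hd : ∀ i ∈ range n, ∀ j ∈ range n, i ≠ j → Disjoint (B i) (B j)) :
    ((range n : Finset ℕ) : Set ℕ).PairwiseDisjoint B :=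
  fun i hi j hj hij => hd i (Finset.mem_coe.1 hi) j (Finset.mem_coe.1 hj) hij

private theorem dg_memVK {n : ℕ} {B : ℕ → Finset ℕ} {R : ℕ → ℕ}
    (hd : ∀ i ∈ range n, ∀ j ∈ range n, i ≠ j → Disjoint (B i) (B j)) {l : ℕ → ℕ} :
    l ∈ VK n B R ↔ (∀ p, l p ≠ 0 → p ∈ (range n).biUnion B) ∧
      ∀ i ∈ range n, ∑ p ∈ B i, l p ≤ R i := by
  classical
  unfold VK S1.KK
  rw [Finset.mem_filter, Finset.mem_biUnion]
  constructor
  · rintro ⟨⟨J, hJ, hl⟩, h2⟩
    exact ⟨(Finset.mem_piAntidiag.1 hl).2, h2⟩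
  · rintro ⟨h1, h2⟩
    refine ⟨⟨∑ p ∈ (range n).biUnion B, l p, ?_, Finset.mem_piAntidiag.2 ⟨rfl, h1⟩⟩, h2⟩
    rw [Finset.mem_range, Nat.lt_succ_iff, Finset.sum_biUnion (dg_pd hd)]
    exact Finset.sum_le_sum h2

private theorem dg_cf {n : ℕ} {B : ℕ → Finset ℕ}
    (hd : ∀ i ∈ range n, ∀ j ∈ range n, i ≠ j → Disjoint (B i) (B j)) (α : ℝ) (j : ℕ → ℕ) :
    cf n B (fun _ r => α ^ r) j =
      ∏ p ∈ (range n).biUnion B, (α ^ j p * ((j p).factorial : ℝ)⁻¹) := by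
  unfold cf
  rw [Finset.prod_biUnion (dg_pd hd)]
  refine Finset.prod_congr rfl fun i _ => ?_
  rw [Finset.prod_mul_distrib, Finset.prod_pow_eq_pow_sum]

private theorem dg_nonneg (k : ℝ) (hk : 0 < k) (e : ℕ) :
    0 ≤ ∑ i ∈ range e, (k - 1) ^ i * ((i.factorial : ℝ))⁻¹ := by
  rcases le_or_gt 1 k with h1 | h1
  · exact Finset.sum_nonneg fun i _ => mul_nonneg (pow_nonneg (by linarith) _)
      (inv_nonneg.2 (Nat.cast_nonneg _))
  · have key : ∀ m : ℕ, 0 ≤ ∑ i ∈ range (2 * m), (k - 1) ^ i * ((i.factorial : ℝ))⁻¹ := by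
      intro m
      induction m with
      | zero => simp
      | succ m ih =>
        rw [show 2 * (m + 1) = 2 * m + 1 + 1 from by ring, Finset.sum_range_succ,
          Finset.sum_range_succ]
        have h2 : 0 ≤ (k - 1) ^ (2 * m) := (even_two_mul m).pow_nonneg _
        have h3 : ((((2 * m + 1).factorial : ℕ) : ℝ))⁻¹ ≤ ((((2 * m).factorial : ℕ) : ℝ))⁻¹ := by
          apply inv_anti₀
          · exact_mod_cast Nat.factorial_pos _
          · exact_mod_cast Nat.factorial_le (Nat.le_succ _)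
        have h4 : 0 ≤ ((((2 * m + 1).factorial : ℕ) : ℝ))⁻¹ := inv_nonneg.2 (Nat.cast_nonneg _)
        have h5 : 0 ≤ ((((2 * m).factorial : ℕ) : ℝ))⁻¹ +
            (k - 1) * ((((2 * m + 1).factorial : ℕ) : ℝ))⁻¹ := by nlinarith
        have h6 := mul_nonneg h2 h5
        rw [pow_succ]
        nlinarith
    rcases Nat.even_or_odd' e with ⟨m, rfl | rfl⟩
    · exact key m
    · rw [Finset.sum_range_succ]
      exact add_nonneg (key m) (mul_nonneg ((even_two_mul m).pow_nonneg _)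
        (inv_nonneg.2 (Nat.cast_nonneg _)))

private theorem dg_inner {n : ℕ} {B : ℕ → Finset ℕ} {R : ℕ → ℕ}
    (hd : ∀ i ∈ range n, ∀ j ∈ range n, i ≠ j → Disjoint (B i) (B j)) (α : ℝ) (l : ℕ → ℕ)
    (hl : l ∈ VK n B R) :
    ∑ j ∈ (VK n B R).filter (fun j => ∀ p ∈ (range n).biUnion B, j p ≤ l p),
      cf n B (fun _ r => α ^ r) j =
    ∏ p ∈ (range n).biUnion B, ∑ e ∈ range (l p + 1), α ^ e * ((e.factorial : ℝ))⁻¹ := by
  classical
  rw [Finset.prod_sum]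
  refine Finset.sum_bij' (fun j _ => fun p _ => j p)
    (fun g _ => fun p => if h : p ∈ (range n).biUnion B then g p h else 0) ?_ ?_ ?_ ?_ ?_
  · intro j hj
    rw [Finset.mem_pi]
    intro p hp
    rw [Finset.mem_range, Nat.lt_succ_iff]
    exact (Finset.mem_filter.1 hj).2 p hp
  · intro g hg
    rw [Finset.mem_pi] at hg
    have hle : ∀ p (h : p ∈ (range n).biUnion B), g p h ≤ l p := fun p h =>
      Nat.lt_succ_iff.1 (Finset.mem_range.1 (hg p h))
    rw [Finset.mem_filter, dg_memVK hd]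
    refine ⟨⟨fun p hp => ?_, fun i hi => ?_⟩, fun p hp => ?_⟩
    · by_contra hn
      exact hp (dif_neg hn)
    · refine le_trans (Finset.sum_le_sum fun p hp => ?_) (((dg_memVK hd).1 hl).2 i hi)
      have hpQ : p ∈ (range n).biUnion B := Finset.mem_biUnion.2 ⟨i, hi, hp⟩
      rw [dif_pos hpQ]
      exact hle p hpQ
    · dsimp only
      rw [dif_pos hp]
      exact hle p hp
  · intro j hj
    funext p
    dsimp only
    split_ifs with h
    · rfl
    · by_contra hn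
      exact h (((dg_memVK hd).1 (Finset.mem_filter.1 hj).1).1 p (Ne.symm hn))
  · intro g hg
    funext p hp
    exact dif_pos hp
  · intro j hj
    rw [dg_cf hd]
    exact (Finset.prod_attach _ (fun p => α ^ j p * ((j p).factorial : ℝ)⁻¹)).symm

/-- the indicator of a set as an exponent vector -/
private def dg_ind (A : Finset ℕ) : ℕ → ℕ := fun p => if p ∈ A then 1 else 0

private theorem dg_ind_inj {A A' : Finset ℕ} (h : dg_ind A = dg_ind A') : A = A' := by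
  ext p
  have := congrFun h p
  unfold dg_ind at this
  by_cases h1 : p ∈ A <;> by_cases h2 : p ∈ A' <;> simp [h1, h2] at this ⊢

private theorem dg_term {n : ℕ} {B : ℕ → Finset ℕ} {R : ℕ → ℕ}
    (hd : ∀ i ∈ range n, ∀ j ∈ range n, i ≠ j → Disjoint (B i) (B j)) (k : ℝ) (A : Finset ℕ)
    (hA : A ⊆ (range n).biUnion B) (hl : dg_ind A ∈ VK n B R) :
    ∑ j ∈ (VK n B R).filter (fun j => ∀ p ∈ (range n).biUnion B, j p ≤ dg_ind A p),
      cf n B (fun _ r => (k - 1) ^ r) j * cf n B (fun _ r => k ^ r) (dg_ind A) *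
        ((nQ n B (dg_ind A) : ℝ))⁻¹ = ∏ p ∈ A, (k ^ 2 * (p : ℝ)⁻¹) := by
  classical
  have h0 : ∀ (f : ℕ → ℝ), ∏ p ∈ (range n).biUnion B, (if p ∈ A then f p else 1) =
      ∏ p ∈ A, f p := by
    intro f
    rw [Finset.prod_ite_mem, Finset.inter_eq_right.2 hA]
  rw [← Finset.sum_mul, ← Finset.sum_mul, dg_inner hd (k - 1) _ hl, dg_cf hd]
  unfold nQ S1.nn
  push_cast
  rw [← Finset.prod_inv_distrib, ← Finset.prod_mul_distrib, ← Finset.prod_mul_distrib, ← h0]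
  refine Finset.prod_congr rfl fun p _ => ?_
  unfold dg_ind
  by_cases hp : p ∈ A
  · rw [if_pos hp, if_pos hp, Finset.sum_range_succ, Finset.sum_range_one]
    simp only [pow_zero, pow_one, Nat.factorial_zero, Nat.factorial_one, Nat.cast_one, inv_one,
      mul_one]
    ring
  · rw [if_neg hp, if_neg hp]
    simp

private theorem dg_outer {n : ℕ} {B : ℕ → Finset ℕ} {R : ℕ → ℕ}
    (hd : ∀ i ∈ range n, ∀ j ∈ range n, i ≠ j → Disjoint (B i) (B j)) (k : ℝ) (hk : 0 < k) :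
    ∑ A ∈ ((range n).biUnion B).powerset.filter (fun A => ∀ i ∈ range n, #(A ∩ B i) ≤ R i),
      ∏ p ∈ A, (k ^ 2 * (p : ℝ)⁻¹) ≤
    ∑ l ∈ VK n B R, ∑ j ∈ (VK n B R).filter (fun j => ∀ p ∈ (range n).biUnion B, j p ≤ l p),
      cf n B (fun _ r => (k - 1) ^ r) j * cf n B (fun _ r => k ^ r) l * ((nQ n B l : ℝ))⁻¹ := by
  classical
  set AA := ((range n).biUnion B).powerset.filter (fun A => ∀ i ∈ range n, #(A ∩ B i) ≤ R i)
    with hAA
  have hmem : ∀ A ∈ AA, A ⊆ (range n).biUnion B ∧ dg_ind A ∈ VK n B R := by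
    intro A hA
    obtain ⟨h1, h2⟩ := Finset.mem_filter.1 hA
    refine ⟨Finset.mem_powerset.1 h1, (dg_memVK hd).2 ⟨fun p hp => ?_, fun i hi => ?_⟩⟩
    · unfold dg_ind at hp
      by_contra hn
      apply hp
      rw [if_neg fun h => hn (Finset.mem_powerset.1 h1 h)]
    · have h3 : ∑ p ∈ B i, dg_ind A p = #(A ∩ B i) := by
        unfold dg_ind
        rw [Finset.sum_ite_mem, Finset.inter_comm, Finset.card_eq_sum_ones]
      rw [h3]
      exact h2 i hi
  calc ∑ A ∈ AA, ∏ p ∈ A, (k ^ 2 * (p : ℝ)⁻¹)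
      = ∑ A ∈ AA, ∑ j ∈ (VK n B R).filter (fun j => ∀ p ∈ (range n).biUnion B, j p ≤ dg_ind A p),
          cf n B (fun _ r => (k - 1) ^ r) j * cf n B (fun _ r => k ^ r) (dg_ind A) *
            ((nQ n B (dg_ind A) : ℝ))⁻¹ :=
        Finset.sum_congr rfl fun A hA => (dg_term hd k A (hmem A hA).1 (hmem A hA).2).symm
    _ = ∑ l ∈ AA.image dg_ind, ∑ j ∈ (VK n B R).filter
          (fun j => ∀ p ∈ (range n).biUnion B, j p ≤ l p),
          cf n B (fun _ r => (k - 1) ^ r) j * cf n B (fun _ r => k ^ r) l *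
            ((nQ n B l : ℝ))⁻¹ := by
        rw [Finset.sum_image fun A _ A' _ h => dg_ind_inj h]
    _ ≤ _ := by
        refine Finset.sum_le_sum_of_subset_of_nonneg ?_ ?_
        · intro l hl
          obtain ⟨A, hA, rfl⟩ := Finset.mem_image.1 hl
          exact (hmem A hA).2
        · intro l hl _
          rw [← Finset.sum_mul, ← Finset.sum_mul, dg_inner hd (k - 1) _ hl, dg_cf hd]
          refine mul_nonneg (mul_nonneg (Finset.prod_nonneg fun p _ => dg_nonneg k hk _)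
            (Finset.prod_nonneg fun p _ => ?_)) (inv_nonneg.2 (Nat.cast_nonneg _))
          exact mul_nonneg (pow_nonneg hk.le _) (inv_nonneg.2 (Nat.cast_nonneg _))

private theorem dg_union {n : ℕ} {B : ℕ → Finset ℕ} {R : ℕ → ℕ} (x : ℕ → ℝ) (hx : ∀ p, 0 ≤ x p)
    (ε : ℕ → ℝ) (hε : ∀ i ∈ range n,
      Real.exp (-(2 * (R i : ℝ))) * ∏ p ∈ B i, (1 + Real.exp 2 * x p) ≤ ε i) :
    (1 - ∑ i ∈ range n, ε i) * ∏ p ∈ (range n).biUnion B, (1 + x p) ≤
      ∑ A ∈ ((range n).biUnion B).powerset.filter (fun A => ∀ i ∈ range n, #(A ∩ B i) ≤ R i),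
        ∏ p ∈ A, x p := by
  classical
  set Q := (range n).biUnion B with hQ
  have hP0 : 0 ≤ ∏ p ∈ Q, (1 + x p) := Finset.prod_nonneg fun p _ => by linarith [hx p]
  have hw : ∀ A : Finset ℕ, 0 ≤ ∏ p ∈ A, x p := fun A => Finset.prod_nonneg fun p _ => hx p
  have hsplit : ∏ p ∈ Q, (1 + x p) =
      ∑ A ∈ Q.powerset.filter (fun A => ∀ i ∈ range n, #(A ∩ B i) ≤ R i), ∏ p ∈ A, x p +
      ∑ A ∈ Q.powerset.filter (fun A => ¬ ∀ i ∈ range n, #(A ∩ B i) ≤ R i), ∏ p ∈ A, x p := by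
    rw [Finset.sum_filter_add_sum_filter_not, Finset.prod_one_add]
  -- one block
  have hone : ∀ i ∈ range n, ∑ A ∈ Q.powerset, Real.exp (-(2 * (R i : ℝ))) *
      Real.exp (2 * (#(A ∩ B i) : ℝ)) * ∏ p ∈ A, x p ≤ ε i * ∏ p ∈ Q, (1 + x p) := by
    intro i hi
    have hBQ : B i ⊆ Q := Finset.subset_biUnion_of_mem B hi
    have h1 : ∀ A ∈ Q.powerset, Real.exp (-(2 * (R i : ℝ))) *
        Real.exp (2 * (#(A ∩ B i) : ℝ)) * ∏ p ∈ A, x p = Real.exp (-(2 * (R i : ℝ))) *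
        ∏ p ∈ A, (if p ∈ B i then Real.exp 2 * x p else x p) := by
      intro A _
      have h2 : ∏ p ∈ A, (if p ∈ B i then Real.exp 2 * x p else x p) =
          (∏ p ∈ A, if p ∈ B i then Real.exp 2 else 1) * ∏ p ∈ A, x p := by
        rw [← Finset.prod_mul_distrib]
        refine Finset.prod_congr rfl fun p _ => ?_
        split_ifs
        · rfl
        · rw [one_mul]
      have h3 : (∏ p ∈ A, if p ∈ B i then Real.exp 2 else 1) =
          Real.exp (2 * (#(A ∩ B i) : ℝ)) := by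
        rw [Finset.prod_ite_mem, Finset.prod_const, ← Real.exp_nat_mul, mul_comm]
      rw [h2, h3, mul_assoc]
    rw [Finset.sum_congr rfl h1, ← Finset.mul_sum, ← Finset.prod_one_add]
    have h4 : ∏ p ∈ Q, (1 + if p ∈ B i then Real.exp 2 * x p else x p) ≤
        (∏ p ∈ B i, (1 + Real.exp 2 * x p)) * ∏ p ∈ Q, (1 + x p) := by
      have h5 : ∏ p ∈ B i, (1 + Real.exp 2 * x p) =
          ∏ p ∈ Q, (if p ∈ B i then 1 + Real.exp 2 * x p else 1) := by
        rw [Finset.prod_ite_mem, Finset.inter_eq_right.2 hBQ]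
      rw [h5, ← Finset.prod_mul_distrib]
      refine Finset.prod_le_prod (fun p _ => ?_) fun p _ => ?_
      · split_ifs
        · have := mul_nonneg (Real.exp_pos 2).le (hx p)
          linarith
        · linarith [hx p]
      · split_ifs
        · have h6 := mul_nonneg (Real.exp_pos 2).le (hx p)
          have h7 := mul_nonneg h6 (hx p)
          have h8 := hx p
          nlinarith
        · rw [one_mul]
    calc Real.exp (-(2 * (R i : ℝ))) * ∏ p ∈ Q, (1 + if p ∈ B i then Real.exp 2 * x p else x p)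
        ≤ Real.exp (-(2 * (R i : ℝ))) *
          ((∏ p ∈ B i, (1 + Real.exp 2 * x p)) * ∏ p ∈ Q, (1 + x p)) :=
          mul_le_mul_of_nonneg_left h4 (Real.exp_pos _).le
      _ = (Real.exp (-(2 * (R i : ℝ))) * ∏ p ∈ B i, (1 + Real.exp 2 * x p)) *
          ∏ p ∈ Q, (1 + x p) := by ring
      _ ≤ ε i * ∏ p ∈ Q, (1 + x p) := mul_le_mul_of_nonneg_right (hε i hi) hP0
  have hbad : ∑ A ∈ Q.powerset.filter (fun A => ¬ ∀ i ∈ range n, #(A ∩ B i) ≤ R i),
      ∏ p ∈ A, x p ≤ (∑ i ∈ range n, ε i) * ∏ p ∈ Q, (1 + x p) := by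
    calc ∑ A ∈ Q.powerset.filter (fun A => ¬ ∀ i ∈ range n, #(A ∩ B i) ≤ R i), ∏ p ∈ A, x p
        ≤ ∑ A ∈ Q.powerset.filter (fun A => ¬ ∀ i ∈ range n, #(A ∩ B i) ≤ R i),
          ∑ i ∈ range n, Real.exp (-(2 * (R i : ℝ))) *
            Real.exp (2 * (#(A ∩ B i) : ℝ)) * ∏ p ∈ A, x p := by
          refine Finset.sum_le_sum fun A hA => ?_
          obtain ⟨h1, h2⟩ := Finset.mem_filter.1 hA
          push Not at h2
          obtain ⟨i, hi, h3⟩ := h2
          have h4 : 1 ≤ Real.exp (-(2 * (R i : ℝ))) * Real.exp (2 * (#(A ∩ B i) : ℝ)) := by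
            rw [← Real.exp_add]
            apply Real.one_le_exp
            have : (R i : ℝ) ≤ #(A ∩ B i) := by exact_mod_cast h3.le
            linarith
          calc ∏ p ∈ A, x p = 1 * ∏ p ∈ A, x p := (one_mul _).symm
            _ ≤ (Real.exp (-(2 * (R i : ℝ))) * Real.exp (2 * (#(A ∩ B i) : ℝ))) *
                ∏ p ∈ A, x p := mul_le_mul_of_nonneg_right h4 (hw A)
            _ ≤ _ := Finset.single_le_sum (f := fun i => Real.exp (-(2 * (R i : ℝ))) *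
                Real.exp (2 * (#(A ∩ B i) : ℝ)) * ∏ p ∈ A, x p)
                (fun i _ => mul_nonneg (mul_nonneg (Real.exp_pos _).le (Real.exp_pos _).le)
                  (hw A)) hi
      _ ≤ ∑ A ∈ Q.powerset, ∑ i ∈ range n, Real.exp (-(2 * (R i : ℝ))) *
            Real.exp (2 * (#(A ∩ B i) : ℝ)) * ∏ p ∈ A, x p :=
          Finset.sum_le_sum_of_subset_of_nonneg (Finset.filter_subset _ _) fun A _ _ =>
            Finset.sum_nonneg fun i _ => mul_nonneg (mul_nonneg (Real.exp_pos _).le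
              (Real.exp_pos _).le) (hw A)
      _ = ∑ i ∈ range n, ∑ A ∈ Q.powerset, Real.exp (-(2 * (R i : ℝ))) *
            Real.exp (2 * (#(A ∩ B i) : ℝ)) * ∏ p ∈ A, x p := Finset.sum_comm
      _ ≤ ∑ i ∈ range n, ε i * ∏ p ∈ Q, (1 + x p) := Finset.sum_le_sum hone
      _ = (∑ i ∈ range n, ε i) * ∏ p ∈ Q, (1 + x p) := by rw [Finset.sum_mul]
  rw [sub_mul, one_mul, hsplit]
  rw [hsplit] at hbad
  linarith

private theorem dg_kb (C1 : ℝ) (h : 8 ≤ C1) (i : ℕ) : (i : ℝ) + 2 ≤ (Kb C1 i : ℝ) ∧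
    C1 * Real.exp ((i : ℝ) / 2) ≤ (Kb C1 i : ℝ) := by
  have h1 : C1 * Real.exp ((i : ℝ) / 2) ≤ (Kb C1 i : ℝ) := Nat.le_ceil _
  have h2 := Real.add_one_le_exp ((i : ℝ) / 2)
  have h3 : (0 : ℝ) ≤ i := Nat.cast_nonneg i
  refine ⟨?_, h1⟩
  have h4 : 8 * ((i : ℝ) / 2 + 1) ≤ C1 * Real.exp ((i : ℝ) / 2) := by
    have := Real.exp_pos ((i : ℝ) / 2)
    nlinarith
  linarith

private theorem dg_eps (C1 : ℝ) (h : 8 ≤ C1) (n : ℕ) :
    ∑ i ∈ range n, Real.exp (-(Kb C1 i : ℝ)) ≤ 1 / 2 := by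
  have h1 : ∀ i ∈ range n, Real.exp (-(Kb C1 i : ℝ)) ≤ 1 / 4 * (1 / 2) ^ i := by
    intro i _
    have h2 := (dg_kb C1 h i).1
    have h3 : Real.exp (-(Kb C1 i : ℝ)) ≤ Real.exp (-((i : ℝ) + 2)) :=
      Real.exp_le_exp.2 (by linarith)
    have h4 : Real.exp (-((i : ℝ) + 2)) = Real.exp (-1) ^ (i + 2) := by
      rw [← Real.exp_nat_mul]
      congr 1
      push_cast
      ring
    have h5 : Real.exp (-1) ≤ 1 / 2 := by
      rw [Real.exp_neg, one_div]
      apply inv_anti₀ (by norm_num)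
      have := Real.add_one_le_exp (1 : ℝ)
      linarith
    calc Real.exp (-(Kb C1 i : ℝ)) ≤ Real.exp (-1) ^ (i + 2) := h3.trans h4.le
      _ ≤ (1 / 2) ^ (i + 2) := pow_le_pow_left₀ (Real.exp_pos _).le h5 _
      _ = 1 / 4 * (1 / 2) ^ i := by
          rw [pow_add]
          ring
  calc ∑ i ∈ range n, Real.exp (-(Kb C1 i : ℝ)) ≤ ∑ i ∈ range n, 1 / 4 * (1 / 2 : ℝ) ^ i :=
        Finset.sum_le_sum h1
    _ = 1 / 4 * ∑ i ∈ range n, (1 / 2 : ℝ) ^ i := by rw [Finset.mul_sum]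
    _ ≤ 1 / 4 * 2 := mul_le_mul_of_nonneg_left (sum_geometric_two_le n) (by norm_num)
    _ = 1 / 2 := by norm_num

private theorem dg_log (x : ℝ) (hx : 0 ≤ x) : x - x ^ 2 ≤ Real.log (1 + x) := by
  have h1 : 0 < 1 + x := by linarith
  have h2 := Real.one_sub_inv_le_log_of_pos h1
  have h3 : x - x ^ 2 ≤ 1 - (1 + x)⁻¹ := by
    have h4 : (1 + x) * (1 + x)⁻¹ = 1 := mul_inv_cancel₀ h1.ne'
    have h5 : 0 < (1 + x)⁻¹ := inv_pos.2 h1
    have h6 : 1 - (1 + x)⁻¹ = x * (1 + x)⁻¹ := by linarith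
    rw [h6]
    have h7 : 1 - x ≤ (1 + x)⁻¹ := by
      rw [← sub_nonneg]
      have : (1 + x)⁻¹ - (1 - x) = x ^ 2 * (1 + x)⁻¹ := by
        field_simp
        ring
      rw [this]
      positivity
    nlinarith
  linarith

/-- **The diagonal sum.** -/
theorem pDg (hBk : S_Bk) (_hMt : S_Mt) : S_Dg := by
  intro k C0 C1 η hk hC0 hC1 hC1' hη hη1
  refine ⟨1 / 2 * Real.exp (-(k ^ 2 * (C0 + |Real.log η| + 1) + 2 * k ^ 4)), by positivity, ?_⟩
  filter_upwards [hBk C0 η hC0 hη hη1, eventually_gt_atTop (1 : ℝ)] with T hT hT1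
  obtain ⟨b1, -, -, ⟨b4, -⟩, b5, b6, b7⟩ := hT
  have hL : 0 < Real.log T := Real.log_pos hT1
  have hC00 : 0 < C0 := by linarith [hC0.1]
  have hd := b5.2
  set n := nI T + 1 with hn
  have hx : ∀ p : ℕ, 0 ≤ k ^ 2 * (p : ℝ)⁻¹ := fun p =>
    mul_nonneg (sq_nonneg k) (inv_nonneg.2 (Nat.cast_nonneg _))
  have he2 : Real.exp 2 ≤ 8 := by
    have h1 : Real.exp 2 = Real.exp 1 ^ 2 := by
      rw [← Real.exp_nat_mul]
      norm_num
    have h2 : Real.exp 1 < 2.7182818286 := Real.exp_one_lt_d9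
    have h3 := Real.exp_pos 1
    rw [h1]
    nlinarith
  -- the blocks
  have hε : ∀ i ∈ range n, Real.exp (-(2 * (Kb C1 i : ℝ))) *
      ∏ p ∈ Bl η T i, (1 + Real.exp 2 * (k ^ 2 * (p : ℝ)⁻¹)) ≤ Real.exp (-(Kb C1 i : ℝ)) := by
    intro i hi
    have hi' : i ≤ nI T := by
      rw [Finset.mem_range] at hi
      omega
    have hV : Vb η T i ≤ C0 * Real.exp ((i : ℝ) / 2) := by
      refine (b1 i hi').trans ?_
      unfold Vu
      split_ifs with h
      · have : 1 ≤ Real.exp ((i : ℝ) / 2) := Real.one_le_exp (by positivity)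
        nlinarith
      · have : i = nI T := by omega
        rw [this]
        exact mul_le_mul_of_nonneg_left b4 hC00.le
    have h1 : ∏ p ∈ Bl η T i, (1 + Real.exp 2 * (k ^ 2 * (p : ℝ)⁻¹)) ≤
        Real.exp (Real.exp 2 * k ^ 2 * Vb η T i) := by
      calc ∏ p ∈ Bl η T i, (1 + Real.exp 2 * (k ^ 2 * (p : ℝ)⁻¹))
          ≤ ∏ p ∈ Bl η T i, Real.exp (Real.exp 2 * (k ^ 2 * (p : ℝ)⁻¹)) := by
            refine Finset.prod_le_prod (fun p _ => ?_) fun p _ => ?_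
            · have := mul_nonneg (Real.exp_pos 2).le (hx p)
              linarith
            · have := Real.add_one_le_exp (Real.exp 2 * (k ^ 2 * (p : ℝ)⁻¹))
              linarith
        _ = Real.exp (Real.exp 2 * k ^ 2 * Vb η T i) := by
            rw [← Real.exp_sum]
            congr 1
            unfold Vb
            rw [Finset.mul_sum]
            exact Finset.sum_congr rfl fun p _ => by ring
    have h2 : Real.exp 2 * k ^ 2 * Vb η T i ≤ (Kb C1 i : ℝ) := by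
      have hV0 : 0 ≤ Vb η T i := Finset.sum_nonneg fun p _ => inv_nonneg.2 (Nat.cast_nonneg _)
      have hk2 : 0 ≤ k ^ 2 := sq_nonneg k
      have hex := Real.exp_pos ((i : ℝ) / 2)
      calc Real.exp 2 * k ^ 2 * Vb η T i ≤ 8 * k ^ 2 * Vb η T i := by
            apply mul_le_mul_of_nonneg_right _ hV0
            exact mul_le_mul_of_nonneg_right he2 hk2
        _ ≤ 8 * k ^ 2 * (C0 * Real.exp ((i : ℝ) / 2)) :=
            mul_le_mul_of_nonneg_left hV (by positivity)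
        _ = 8 * k ^ 2 * C0 * Real.exp ((i : ℝ) / 2) := by ring
        _ ≤ C1 * Real.exp ((i : ℝ) / 2) := mul_le_mul_of_nonneg_right hC1' hex.le
        _ ≤ (Kb C1 i : ℝ) := (dg_kb C1 hC1 i).2
    calc Real.exp (-(2 * (Kb C1 i : ℝ))) *
          ∏ p ∈ Bl η T i, (1 + Real.exp 2 * (k ^ 2 * (p : ℝ)⁻¹))
        ≤ Real.exp (-(2 * (Kb C1 i : ℝ))) * Real.exp (Kb C1 i : ℝ) :=
          mul_le_mul_of_nonneg_left (h1.trans (Real.exp_le_exp.2 h2)) (Real.exp_pos _).le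
      _ = Real.exp (-(Kb C1 i : ℝ)) := by
          rw [← Real.exp_add]
          congr 1
          ring
  have hun := dg_union (n := n) (B := Bl η T) (R := Kb C1) (fun p => k ^ 2 * (p : ℝ)⁻¹) hx
    (fun i => Real.exp (-(Kb C1 i : ℝ))) hε
  have hout := dg_outer (n := n) (B := Bl η T) (R := Kb C1) hd k hk
  refine le_trans ?_ (hun.trans hout)
  -- the Euler product
  have hprod : Real.exp (-(k ^ 2 * (C0 + |Real.log η| + 1) + 2 * k ^ 4)) *
      Real.log T ^ (k ^ 2) ≤ ∏ p ∈ (range n).biUnion (Bl η T), (1 + k ^ 2 * (p : ℝ)⁻¹) := by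
    have h1 : ∏ p ∈ (range n).biUnion (Bl η T), (1 + k ^ 2 * (p : ℝ)⁻¹) =
        Real.exp (∑ p ∈ (range n).biUnion (Bl η T), Real.log (1 + k ^ 2 * (p : ℝ)⁻¹)) := by
      rw [Real.exp_sum]
      refine Finset.prod_congr rfl fun p _ => ?_
      rw [Real.exp_log]
      linarith [hx p]
    have h2 : ∑ p ∈ (range n).biUnion (Bl η T), (k ^ 2 * (p : ℝ)⁻¹ - (k ^ 2 * (p : ℝ)⁻¹) ^ 2) ≤
        ∑ p ∈ (range n).biUnion (Bl η T), Real.log (1 + k ^ 2 * (p : ℝ)⁻¹) :=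
      Finset.sum_le_sum fun p _ => dg_log _ (hx p)
    have h3 : ∑ p ∈ (range n).biUnion (Bl η T), (k ^ 2 * (p : ℝ)⁻¹ - (k ^ 2 * (p : ℝ)⁻¹) ^ 2) =
        k ^ 2 * ∑ i ∈ range n, Vb η T i -
          k ^ 4 * ∑ p ∈ (range n).biUnion (Bl η T), (p : ℝ) ^ (-(2 : ℝ)) := by
      rw [Finset.sum_sub_distrib]
      congr 1
      · rw [Finset.sum_biUnion (dg_pd hd), Finset.mul_sum]
        refine Finset.sum_congr rfl fun i _ => ?_
        unfold Vb
        rw [Finset.mul_sum]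
      · rw [Finset.mul_sum]
        refine Finset.sum_congr rfl fun p _ => ?_
        have : (p : ℝ) ^ (-(2 : ℝ)) = ((p : ℝ) ^ 2)⁻¹ := by
          rw [Real.rpow_neg (Nat.cast_nonneg _)]
          congr 1
          exact_mod_cast Real.rpow_natCast (p : ℝ) 2
        rw [this]
        ring
    have h4 : ∑ p ∈ (range n).biUnion (Bl η T), (p : ℝ) ^ (-(2 : ℝ)) ≤ 2 := by
      rw [b6]
      have h5 := S1.pSz.2.1 2 (by norm_num) 0 (xe η T 0)
      unfold S1.tail at h5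
      calc ∑ p ∈ S1.prs 0 (xe η T 0), (p : ℝ) ^ (-(2 : ℝ)) ≤ 2 / (2 - 1) := h5
        _ = 2 := by norm_num
    have h6 : Real.log (Real.log T) - (C0 + |Real.log η| + 1) ≤ ∑ i ∈ range n, Vb η T i := by
      have := (abs_le.1 b7).1
      linarith
    rw [h1, Real.rpow_def_of_pos hL, ← Real.exp_add]
    apply Real.exp_le_exp.2
    refine le_trans ?_ h2
    rw [h3]
    have h7 : k ^ 2 * (Real.log (Real.log T) - (C0 + |Real.log η| + 1)) ≤
        k ^ 2 * ∑ i ∈ range n, Vb η T i := mul_le_mul_of_nonneg_left h6 (sq_nonneg k)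
    have h8 : k ^ 4 * ∑ p ∈ (range n).biUnion (Bl η T), (p : ℝ) ^ (-(2 : ℝ)) ≤ k ^ 4 * 2 :=
      mul_le_mul_of_nonneg_left h4 (by positivity)
    nlinarith
  have hE := dg_eps C1 hC1 n
  have hpos : 0 ≤ ∏ p ∈ (range n).biUnion (Bl η T), (1 + k ^ 2 * (p : ℝ)⁻¹) :=
    Finset.prod_nonneg fun p _ => by linarith [hx p]
  calc 1 / 2 * Real.exp (-(k ^ 2 * (C0 + |Real.log η| + 1) + 2 * k ^ 4)) * Real.log T ^ (k ^ 2)
      = 1 / 2 * (Real.exp (-(k ^ 2 * (C0 + |Real.log η| + 1) + 2 * k ^ 4)) *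
        Real.log T ^ (k ^ 2)) := by ring
    _ ≤ 1 / 2 * ∏ p ∈ (range n).biUnion (Bl η T), (1 + k ^ 2 * (p : ℝ)⁻¹) :=
        mul_le_mul_of_nonneg_left hprod (by norm_num)
    _ ≤ (1 - ∑ i ∈ range n, Real.exp (-(Kb C1 i : ℝ))) *
        ∏ p ∈ (range n).biUnion (Bl η T), (1 + k ^ 2 * (p : ℝ)⁻¹) :=
        mul_le_mul_of_nonneg_right (by linarith) hpos

end Pool.Agent.Lib.MP_aa9ae4_nt.L1
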