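import Pool.Agent.Lib.MP_aa9ae4_nt.L1.SpecA

/-!
MP_aa9ae4_nt, Theorem L: diagonal sums with a shift (`S_Dia`).
-/

namespace Pool.Agent.Lib.MP_aa9ae4_nt.L1

open Finset MeasureTheory Filter Topology
open Complex (I)
open Pool.Agent.Lib.MP_aa9ae4_nt.S1 (pw psumS eulS tail prs nn KK expJ HT fzS y1)

private theorem dia_fac (g r s : ℕ) :
    (((g + r).factorial : ℝ))⁻¹ * (((g + s).factorial : ℝ))⁻¹ ≤
      ((r.factorial : ℝ) * (s.factorial : ℝ))⁻¹ * ((g.factorial : ℝ))⁻¹ := by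
  have hg : 0 < (g.factorial : ℝ) := by exact_mod_cast Nat.factorial_pos g
  have hr : 0 < (r.factorial : ℝ) := by exact_mod_cast Nat.factorial_pos r
  have hs : 0 < (s.factorial : ℝ) := by exact_mod_cast Nat.factorial_pos s
  have h1 : (g.factorial : ℝ) * r.factorial ≤ ((g + r).factorial : ℝ) := by
    exact_mod_cast Nat.le_of_dvd (Nat.factorial_pos _) (Nat.factorial_mul_factorial_dvd_factorial_add g r)
  have h2 : (g.factorial : ℝ) * s.factorial ≤ ((g + s).factorial : ℝ) := by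
    exact_mod_cast Nat.le_of_dvd (Nat.factorial_pos _) (Nat.factorial_mul_factorial_dvd_factorial_add g s)
  have h3 : (1 : ℝ) ≤ (g.factorial : ℝ) := by exact_mod_cast Nat.factorial_pos g
  rw [← mul_inv, ← mul_inv]
  refine inv_anti₀ (by positivity) ?_
  calc (r.factorial : ℝ) * s.factorial * g.factorial
      ≤ (r.factorial : ℝ) * s.factorial * g.factorial * g.factorial :=
        le_mul_of_one_le_right (by positivity) h3
    _ = (g.factorial : ℝ) * r.factorial * ((g.factorial : ℝ) * s.factorial) := by ring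
    _ ≤ ((g + r).factorial : ℝ) * ((g + s).factorial : ℝ) :=
        mul_le_mul h1 h2 (by positivity) (by positivity)

/-- Diagonal sums with a shift. -/
theorem pDia (hExd : S_Exd) : S_Dia := by
  intro n B R f b W hB hf hb hW hsum r _ s _
  have hE := (hExd n B R (fun i j => f i (j + ∑ p ∈ B i, r p) * f i (j + ∑ p ∈ B i, s p))
    hB.2).2 (fun p => ((p : ℝ))⁻¹)
  have hpos : ∀ k : ℕ, 0 < (k.factorial : ℝ) := fun k => by exact_mod_cast Nat.factorial_pos k
  have hterm : ∀ g ∈ VK n B R, cf n B f (g + r) * cf n B f (g + s) * ((nQ n B g : ℝ))⁻¹ ≤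
      (∏ i ∈ range n, ∏ p ∈ B i, (((r p).factorial : ℝ) * ((s p).factorial : ℝ))⁻¹) *
      (cf n B (fun i j => f i (j + ∑ p ∈ B i, r p) * f i (j + ∑ p ∈ B i, s p)) g *
        ∏ p ∈ (range n).biUnion B, (((p : ℝ))⁻¹) ^ g p) := by
    intro g _
    have hn : ((nQ n B g : ℝ))⁻¹ = ∏ p ∈ (range n).biUnion B, (((p : ℝ))⁻¹) ^ g p := by
      unfold nQ nn
      push_cast
      rw [← Finset.prod_inv_distrib]
      exact Finset.prod_congr rfl fun p _ => by rw [inv_pow]
    have hP : 0 ≤ ∏ p ∈ (range n).biUnion B, (((p : ℝ))⁻¹) ^ g p :=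
      Finset.prod_nonneg fun p _ => by positivity
    rw [hn, ← mul_assoc]
    refine mul_le_mul_of_nonneg_right ?_ hP
    unfold cf
    rw [← Finset.prod_mul_distrib, ← Finset.prod_mul_distrib]
    refine Finset.prod_le_prod (fun i _ => ?_) fun i _ => ?_
    · exact mul_nonneg (mul_nonneg (hf _ _) (Finset.prod_nonneg fun p _ => by positivity))
        (mul_nonneg (hf _ _) (Finset.prod_nonneg fun p _ => by positivity))
    · have e1 : ∑ p ∈ B i, (g + r) p = ∑ p ∈ B i, g p + ∑ p ∈ B i, r p := by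
        rw [← Finset.sum_add_distrib]
        rfl
      have e2 : ∑ p ∈ B i, (g + s) p = ∑ p ∈ B i, g p + ∑ p ∈ B i, s p := by
        rw [← Finset.sum_add_distrib]
        rfl
      have h3 : (∏ p ∈ B i, (((g + r) p).factorial : ℝ)⁻¹) * ∏ p ∈ B i, (((g + s) p).factorial : ℝ)⁻¹ ≤
          (∏ p ∈ B i, (((r p).factorial : ℝ) * ((s p).factorial : ℝ))⁻¹) *
            ∏ p ∈ B i, ((g p).factorial : ℝ)⁻¹ := by
        rw [← Finset.prod_mul_distrib, ← Finset.prod_mul_distrib]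
        exact Finset.prod_le_prod (fun p _ => by positivity) fun p _ => dia_fac (g p) (r p) (s p)
      rw [e1, e2]
      calc f i (∑ p ∈ B i, g p + ∑ p ∈ B i, r p) * (∏ p ∈ B i, (((g + r) p).factorial : ℝ)⁻¹) *
            (f i (∑ p ∈ B i, g p + ∑ p ∈ B i, s p) * ∏ p ∈ B i, (((g + s) p).factorial : ℝ)⁻¹)
          = (f i (∑ p ∈ B i, g p + ∑ p ∈ B i, r p) * f i (∑ p ∈ B i, g p + ∑ p ∈ B i, s p)) *
            ((∏ p ∈ B i, (((g + r) p).factorial : ℝ)⁻¹) *
              ∏ p ∈ B i, (((g + s) p).factorial : ℝ)⁻¹) := by ring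
        _ ≤ (f i (∑ p ∈ B i, g p + ∑ p ∈ B i, r p) * f i (∑ p ∈ B i, g p + ∑ p ∈ B i, s p)) *
            ((∏ p ∈ B i, (((r p).factorial : ℝ) * ((s p).factorial : ℝ))⁻¹) *
            ∏ p ∈ B i, ((g p).factorial : ℝ)⁻¹) :=
            mul_le_mul_of_nonneg_left h3 (mul_nonneg (hf _ _) (hf _ _))
        _ = (∏ p ∈ B i, (((r p).factorial : ℝ) * ((s p).factorial : ℝ))⁻¹) *
            (f i (∑ p ∈ B i, g p + ∑ p ∈ B i, r p) * f i (∑ p ∈ B i, g p + ∑ p ∈ B i, s p) *
            ∏ p ∈ B i, ((g p).factorial : ℝ)⁻¹) := by ring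
  refine (Finset.sum_le_sum hterm).trans ?_
  rw [← Finset.mul_sum, ← hE]
  have hA : 0 ≤ ∏ i ∈ range n, ∏ p ∈ B i, (((r p).factorial : ℝ) * ((s p).factorial : ℝ))⁻¹ :=
    Finset.prod_nonneg fun i _ => Finset.prod_nonneg fun p _ => by positivity
  have hV : ∀ i, 0 ≤ ∑ p ∈ B i, ((p : ℝ))⁻¹ := fun i => Finset.sum_nonneg fun p _ => by positivity
  have hM : ∏ i ∈ range n, ∑ j ∈ range (R i + 1),
      f i (j + ∑ p ∈ B i, r p) * f i (j + ∑ p ∈ B i, s p) / (j.factorial : ℝ) *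
        (∑ p ∈ B i, ((p : ℝ))⁻¹) ^ j ≤
      ∏ i ∈ range n, (b i ^ (∑ p ∈ B i, r p + ∑ p ∈ B i, s p) * W i) := by
    refine Finset.prod_le_prod (fun i _ => Finset.sum_nonneg fun j _ => ?_) fun i hi => ?_
    · exact mul_nonneg (div_nonneg (mul_nonneg (hf _ _) (hf _ _)) (hpos j).le) (pow_nonneg (hV i) j)
    · refine le_trans (le_of_eq ?_) (hsum i hi (∑ p ∈ B i, r p) (∑ p ∈ B i, s p))
      exact Finset.sum_congr rfl fun j _ => by ring
  refine (mul_le_mul_of_nonneg_left hM hA).trans (le_of_eq ?_)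
  rw [← Finset.prod_mul_distrib, ← Finset.prod_mul_distrib]
  exact Finset.prod_congr rfl fun i _ => by ring

end Pool.Agent.Lib.MP_aa9ae4_nt.L1
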