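import Pool.Agent.Lib.MP_aa9ae4_nt.L1.SpecA

/-!
MP_aa9ae4_nt, Theorem L: expansion of a block product over exponent vectors (`S_Exd`).
-/

namespace Pool.Agent.Lib.MP_aa9ae4_nt.L1

open Finset MeasureTheory Filter Topology
open Complex (I)
open Pool.Agent.Lib.MP_aa9ae4_nt.S1 (pw psumS eulS tail prs nn KK expJ HT fzS y1)

private theorem exd_memKK {s : Finset ℕ} {J : ℕ} {k : ℕ → ℕ} :
    k ∈ KK s J ↔ ∑ p ∈ s, k p ≤ J ∧ ∀ p, k p ≠ 0 → p ∈ s := by
  classical
  unfold KK
  rw [Finset.mem_biUnion]
  constructor
  · rintro ⟨j, hj, hk⟩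
    rw [mem_piAntidiag] at hk
    rw [Finset.mem_range] at hj
    exact ⟨by rw [hk.1]; omega, hk.2⟩
  · rintro ⟨h1, h2⟩
    exact ⟨∑ p ∈ s, k p, Finset.mem_range.2 (by omega), mem_piAntidiag.2 ⟨rfl, h2⟩⟩

private theorem exd_memVK {n : ℕ} {B : ℕ → Finset ℕ} {R : ℕ → ℕ} {k : ℕ → ℕ}
    (hd : ∀ i ∈ range n, ∀ j ∈ range n, i ≠ j → Disjoint (B i) (B j)) :
    k ∈ VK n B R ↔ (∀ i ∈ range n, ∑ p ∈ B i, k p ≤ R i) ∧
      ∀ p, k p ≠ 0 → p ∈ (range n).biUnion B := by
  unfold VK
  rw [Finset.mem_filter, exd_memKK]
  constructor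
  · rintro ⟨⟨-, h2⟩, h3⟩
    exact ⟨h3, h2⟩
  · rintro ⟨h1, h2⟩
    refine ⟨⟨?_, h2⟩, h1⟩
    rw [Finset.sum_biUnion fun i hi j hj hij => hd i hi j hj hij]
    exact Finset.sum_le_sum h1

private theorem exd_disj (s : Finset ℕ) (J : ℕ) :
    Set.PairwiseDisjoint (↑(range (J + 1)) : Set ℕ) fun j => s.piAntidiag j := by
  intro i _ j _ hij
  refine Finset.disjoint_left.2 fun k hi hj => hij ?_
  rw [mem_piAntidiag] at hi hj
  exact hi.1.symm.trans hj.1

private theorem exd_one {K : Type*} [Field K] [CharZero K] (s : Finset ℕ) (x : ℕ → K) (J : ℕ)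
    (g : ℕ → K) :
    ∑ j ∈ range (J + 1), g j / (j.factorial : K) * (∑ p ∈ s, x p) ^ j =
      ∑ k ∈ KK s J, (g (∑ p ∈ s, k p) * ∏ p ∈ s, ((k p).factorial : K)⁻¹) *
        ∏ p ∈ s, x p ^ k p := by
  classical
  unfold KK
  rw [Finset.sum_biUnion (exd_disj s J)]
  refine Finset.sum_congr rfl fun j _ => ?_
  rw [Finset.sum_pow_eq_sum_piAntidiag, Finset.mul_sum]
  refine Finset.sum_congr rfl fun k hk => ?_
  rw [mem_piAntidiag] at hk
  have h := Nat.multinomial_spec s k
  rw [hk.1] at h
  have h' : (∏ p ∈ s, ((k p).factorial : K)) * (Nat.multinomial s k : K) = (j.factorial : K) := by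
    exact_mod_cast h
  have h1 : (∏ p ∈ s, ((k p).factorial : K)) ≠ 0 :=
    Finset.prod_ne_zero_iff.2 fun p _ => by exact_mod_cast Nat.factorial_ne_zero _
  have h2 : (Nat.multinomial s k : K) ≠ 0 := by
    intro h0
    rw [h0, mul_zero] at h'
    exact (by exact_mod_cast Nat.factorial_ne_zero j : (j.factorial : K) ≠ 0) h'.symm
  rw [hk.1, Finset.prod_inv_distrib, ← h']
  field_simp

private theorem exd_union (n : ℕ) (B : ℕ → Finset ℕ) :
    (range (n + 1)).biUnion B = (range n).biUnion B ∪ B n := by
  rw [Finset.range_add_one, Finset.biUnion_insert, Finset.union_comm]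

/-- the general identity -/
private theorem exd_aux {K : Type*} [Field K] [CharZero K] (B : ℕ → Finset ℕ) (R : ℕ → ℕ)
    (f : ℕ → ℕ → K) (x : ℕ → K) (n : ℕ)
    (hd : ∀ i ∈ range n, ∀ j ∈ range n, i ≠ j → Disjoint (B i) (B j)) :
    ∏ i ∈ range n, ∑ r ∈ range (R i + 1), f i r / (r.factorial : K) * (∑ p ∈ B i, x p) ^ r =
      ∑ k ∈ VK n B R, (∏ i ∈ range n, (f i (∑ p ∈ B i, k p) *
        ∏ p ∈ B i, ((k p).factorial : K)⁻¹)) * ∏ p ∈ (range n).biUnion B, x p ^ k p := by
  classical
  induction n with
  | zero =>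
    have h0 : VK 0 B R = {0} := by
      ext k
      rw [exd_memVK hd, Finset.mem_singleton]
      constructor
      · rintro ⟨-, h⟩
        funext p
        by_contra hp
        simpa using h p hp
      · rintro rfl
        simp
    rw [h0]
    simp
  | succ n ih =>
    have hsub : ∀ i ∈ range n, i ∈ range (n + 1) := fun i hi =>
      Finset.mem_range.2 ((Finset.mem_range.1 hi).trans (Nat.lt_succ_self n))
    have hd' : ∀ i ∈ range n, ∀ j ∈ range n, i ≠ j → Disjoint (B i) (B j) :=
      fun i hi j hj => hd i (hsub i hi) j (hsub j hj)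
    have hdn : ∀ i ∈ range n, Disjoint (B i) (B n) := fun i hi =>
      hd i (hsub i hi) n (Finset.mem_range.2 (Nat.lt_succ_self n)) (Finset.mem_range.1 hi).ne
    have hU : Disjoint ((range n).biUnion B) (B n) := by
      rw [Finset.disjoint_biUnion_left]
      exact hdn
    rw [Finset.prod_range_succ, ih hd', exd_one, Finset.sum_mul_sum, ← Finset.sum_product']
    refine Finset.sum_nbij' (fun kk => kk.1 + kk.2)
      (fun k => (fun p => if p ∈ (range n).biUnion B then k p else 0,
        fun p => if p ∈ B n then k p else 0)) ?_ ?_ ?_ ?_ ?_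
    · rintro ⟨k', k''⟩ hk
      rw [Finset.mem_product, exd_memVK hd', exd_memKK] at hk
      obtain ⟨⟨h1, h2⟩, h3, h4⟩ := hk
      rw [exd_memVK hd]
      constructor
      · intro i hi
        rcases (Nat.lt_succ_iff_lt_or_eq.1 (Finset.mem_range.1 hi)) with hin | rfl
        · have hin' := Finset.mem_range.2 hin
          have : ∑ p ∈ B i, (k' + k'') p = ∑ p ∈ B i, k' p := by
            refine Finset.sum_congr rfl fun p hp => ?_
            have hp0 : k'' p = 0 := by
              by_contra hne
              exact Finset.disjoint_left.1 (hdn i hin') hp (h4 p hne)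
            rw [Pi.add_apply, hp0, add_zero]
          rw [this]
          exact h1 i hin'
        · have : ∑ p ∈ B i, (k' + k'') p = ∑ p ∈ B i, k'' p := by
            refine Finset.sum_congr rfl fun p hp => ?_
            have hp0 : k' p = 0 := by
              by_contra hne
              exact Finset.disjoint_left.1 hU (h2 p hne) hp
            rw [Pi.add_apply, hp0, zero_add]
          rw [this]
          exact h3
      · intro p hp
        rw [exd_union, Finset.mem_union]
        by_cases hk' : k' p = 0
        · right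
          refine h4 p fun h0 => hp ?_
          show (k' + k'') p = 0
          rw [Pi.add_apply, hk', zero_add]
          exact h0
        · exact Or.inl (h2 p hk')
    · intro k hk
      rw [exd_memVK hd] at hk
      obtain ⟨h1, h2⟩ := hk
      rw [Finset.mem_product, exd_memVK hd', exd_memKK]
      refine ⟨⟨fun i hi => ?_, fun p hp => ?_⟩, ?_, fun p hp => ?_⟩
      · refine le_trans (le_of_eq ?_) (h1 i (hsub i hi))
        refine Finset.sum_congr rfl fun p hp => ?_
        exact if_pos (Finset.mem_biUnion.2 ⟨i, hi, hp⟩)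
      · by_contra hne
        exact hp (if_neg hne)
      · refine le_trans (le_of_eq ?_) (h1 n (Finset.mem_range.2 (Nat.lt_succ_self n)))
        exact Finset.sum_congr rfl fun p hp => if_pos hp
      · by_contra hne
        exact hp (if_neg hne)
    · rintro ⟨k', k''⟩ hk
      rw [Finset.mem_product, exd_memVK hd', exd_memKK] at hk
      obtain ⟨⟨-, h2⟩, -, h4⟩ := hk
      refine Prod.ext (funext fun p => ?_) (funext fun p => ?_)
      · show (if p ∈ (range n).biUnion B then (k' + k'') p else 0) = k' p
        by_cases hp : p ∈ (range n).biUnion B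
        · have hp0 : k'' p = 0 := by
            by_contra hne
            exact Finset.disjoint_left.1 hU hp (h4 p hne)
          rw [if_pos hp, Pi.add_apply, hp0, add_zero]
        · rw [if_neg hp]
          by_contra hne
          exact hp (h2 p (Ne.symm hne))
      · show (if p ∈ B n then (k' + k'') p else 0) = k'' p
        by_cases hp : p ∈ B n
        · have hp0 : k' p = 0 := by
            by_contra hne
            exact Finset.disjoint_left.1 hU (h2 p hne) hp
          rw [if_pos hp, Pi.add_apply, hp0, zero_add]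
        · rw [if_neg hp]
          by_contra hne
          exact hp (h4 p (Ne.symm hne))
    · intro k hk
      rw [exd_memVK hd] at hk
      obtain ⟨-, h2⟩ := hk
      funext p
      show (if p ∈ (range n).biUnion B then k p else 0) + (if p ∈ B n then k p else 0) = k p
      by_cases hp : p ∈ (range n).biUnion B
      · rw [if_pos hp, if_neg (Finset.disjoint_left.1 hU hp), add_zero]
      · by_cases hp' : p ∈ B n
        · rw [if_neg hp, if_pos hp', zero_add]
        · rw [if_neg hp, if_neg hp', add_zero]
          by_contra hne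
          have := h2 p (Ne.symm hne)
          rw [exd_union, Finset.mem_union] at this
          exact this.elim hp hp'
    · rintro ⟨k', k''⟩ hk
      rw [Finset.mem_product, exd_memVK hd', exd_memKK] at hk
      obtain ⟨⟨-, h2⟩, -, h4⟩ := hk
      have e1 : ∀ p ∈ (range n).biUnion B, (k' + k'') p = k' p := by
        intro p hp
        have hp0 : k'' p = 0 := by
          by_contra hne
          exact Finset.disjoint_left.1 hU hp (h4 p hne)
        rw [Pi.add_apply, hp0, add_zero]
      have e2 : ∀ p ∈ B n, (k' + k'') p = k'' p := by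
        intro p hp
        have hp0 : k' p = 0 := by
          by_contra hne
          exact Finset.disjoint_left.1 hU (h2 p hne) hp
        rw [Pi.add_apply, hp0, zero_add]
      have e3 : ∏ i ∈ range n, (f i (∑ p ∈ B i, (k' + k'') p) *
          ∏ p ∈ B i, (((k' + k'') p).factorial : K)⁻¹) =
          ∏ i ∈ range n, (f i (∑ p ∈ B i, k' p) * ∏ p ∈ B i, ((k' p).factorial : K)⁻¹) := by
        refine Finset.prod_congr rfl fun i hi => ?_
        have hB : ∀ p ∈ B i, (k' + k'') p = k' p := fun p hp =>
          e1 p (Finset.mem_biUnion.2 ⟨i, hi, hp⟩)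
        rw [Finset.sum_congr rfl hB]
        congr 1
        exact Finset.prod_congr rfl fun p hp => by rw [hB p hp]
      have e4 : f n (∑ p ∈ B n, (k' + k'') p) * ∏ p ∈ B n, (((k' + k'') p).factorial : K)⁻¹ =
          f n (∑ p ∈ B n, k'' p) * ∏ p ∈ B n, ((k'' p).factorial : K)⁻¹ := by
        rw [Finset.sum_congr rfl e2]
        congr 1
        exact Finset.prod_congr rfl fun p hp => by rw [e2 p hp]
      have e5 : ∏ p ∈ (range (n + 1)).biUnion B, x p ^ (k' + k'') p =
          (∏ p ∈ (range n).biUnion B, x p ^ k' p) * ∏ p ∈ B n, x p ^ k'' p := by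
        rw [exd_union, Finset.prod_union hU]
        congr 1
        · exact Finset.prod_congr rfl fun p hp => by rw [e1 p hp]
        · exact Finset.prod_congr rfl fun p hp => by rw [e2 p hp]
      show _ = (∏ i ∈ range (n + 1), (f i (∑ p ∈ B i, (k' + k'') p) *
        ∏ p ∈ B i, (((k' + k'') p).factorial : K)⁻¹)) *
        ∏ p ∈ (range (n + 1)).biUnion B, x p ^ (k' + k'') p
      rw [Finset.prod_range_succ, e3, e4, e5]
      ring

/-- Expansion of a block product over exponent vectors. -/
theorem pExd : S_Exd := by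
  intro n B R f hd
  refine ⟨fun x => ?_, fun x => ?_⟩
  · have h := exd_aux B R (fun i r => (f i r : ℂ)) x n hd
    have e : MB n B R f x = ∏ i ∈ range n, ∑ r ∈ range (R i + 1),
        (f i r : ℂ) / (r.factorial : ℂ) * (∑ p ∈ B i, x p) ^ r := by
      unfold MB
      refine Finset.prod_congr rfl fun i _ => Finset.sum_congr rfl fun r _ => ?_
      push_cast
      ring
    rw [e, h]
    refine Finset.sum_congr rfl fun k _ => ?_
    unfold cf
    push_cast
    rfl
  · exact exd_aux B R f x n hd

end Pool.Agent.Lib.MP_aa9ae4_nt.L1
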