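import Mathlib
import Pool.Agent.Lib.MP_aa9ae4_nt.L1.SpecB
import Pool.Agent.Lib.MP_aa9ae4_nt.S1.PHx
import Pool.Agent.Lib.MP_aa9ae4_nt.S1.PSz
import Pool.Agent.Lib.MP_aa9ae4_nt.S1.PTay
import Pool.Agent.Lib.MP_aa9ae4_nt.S1.PEq
import Pool.Agent.Lib.MP_aa9ae4_nt.S1.PMn
import Pool.Agent.Lib.MP_aa9ae4_nt.S1.PNn
import Pool.Agent.Lib.MP_aa9ae4_nt.S1.PHm

/-!
MP_aa9ae4_nt, Theorem L: large values of the prime sums at height `at` (`S_Fz`).
-/

namespace Pool.Agent.Lib.MP_aa9ae4_nt.L1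

open Finset MeasureTheory Filter Topology
open Complex (I)
open Pool.Agent.Lib.MP_aa9ae4_nt.S1

private theorem fzl_psum_cont (σ : ℝ) (y z : ℕ) : Continuous fun u : ℝ => psumS σ y z u := by
  unfold psumS
  refine continuous_finsetSum _ fun p hp => ?_
  unfold pw
  have hp0 : (p : ℂ) ≠ 0 := by
    have := (mem_filter.mp hp).2.ne_zero
    exact_mod_cast this
  exact Continuous.const_cpow (by fun_prop) (Or.inl hp0)

private theorem fzl_norm (σ : ℝ) (hσ : 0 ≤ σ) (y z : ℕ) (u : ℝ) : ‖psumS σ y z u‖ ≤ z := by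
  unfold psumS
  have h1 : ∀ p ∈ prs y z, ‖pw σ p u‖ ≤ 1 := by
    intro p hp
    have hp1 : 1 ≤ p := (mem_filter.mp hp).2.one_lt.le
    unfold pw
    rw [Complex.norm_natCast_cpow_of_pos (by omega)]
    apply Real.rpow_le_one_of_one_le_of_nonpos
    · exact_mod_cast hp1
    · simp
      exact hσ
  calc ‖∑ p ∈ prs y z, pw σ p u‖ ≤ ∑ p ∈ prs y z, ‖pw σ p u‖ := norm_sum_le _ _
    _ ≤ ∑ p ∈ prs y z, (1 : ℝ) := Finset.sum_le_sum h1
    _ = ((prs y z).card : ℝ) := by simp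
    _ ≤ ((Ioc y z).card : ℝ) := by
        exact_mod_cast Finset.card_le_card (Finset.filter_subset _ _)
    _ ≤ (z : ℝ) := by
        rw [Nat.card_Ioc]
        exact_mod_cast Nat.sub_le z y

private theorem fzl_markov (f : ℝ → ℝ) (hf : Continuous f) (h0 : ∀ t, 0 ≤ f t) (A B ε M : ℝ)
    (hε : 0 < ε) (hI : ∫ t in Set.Icc A B, f t ≤ M) (E : Set ℝ) (hE : E ⊆ Set.Icc A B)
    (hEf : ∀ t ∈ E, ε ≤ f t) : volume E ≤ ENNReal.ofReal (M / ε) := by
  have hint : Integrable f (volume.restrict (Set.Icc A B)) := hf.integrableOn_Icc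
  have h1 := mul_meas_ge_le_integral_of_nonneg (μ := volume.restrict (Set.Icc A B))
    (Filter.Eventually.of_forall h0) hint ε
  have h2 : volume E ≤ (volume.restrict (Set.Icc A B)) {x | ε ≤ f x} := by
    rw [Measure.restrict_apply (measurableSet_le measurable_const hf.measurable)]
    exact measure_mono fun t ht => ⟨hEf t ht, hE ht⟩
  refine h2.trans ?_
  have hM : 0 ≤ M := le_trans (integral_nonneg h0) hI
  rw [ENNReal.le_ofReal_iff_toReal_le (measure_ne_top _ _) (div_nonneg hM hε.le),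
    le_div_iff₀' hε]
  exact h1.trans hI

private theorem fzl_a (hHx : S_Hx) (σ a D : ℝ) (hσ : 1 / 2 < σ) (ha : 0 < a) (hD : 0 < D) :
    ∀ᶠ T : ℝ in atTop, volume {t ∈ Set.Icc T (2 * T) |
      Real.log (Real.log T) < ‖psumS σ 0 (y1 σ T) (a * t)‖} ≤
      ENNReal.ofReal (T * Real.log T ^ (-D) / 2) := by
  obtain ⟨C, hC, hev⟩ := hHx σ a (D + 2) (1 / 2) 1 hσ ha (by positivity) (by norm_num)
    (by norm_num)
  have hL : Tendsto (fun T : ℝ => Real.log T) atTop atTop := Real.tendsto_log_atTop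
  have hl : Tendsto (fun T : ℝ => Real.log (Real.log T)) atTop atTop :=
    Real.tendsto_log_atTop.comp hL
  have e1 : ∀ᶠ x : ℝ in atTop, x ^ As σ ≤ Real.exp (1 / 2 * x) := by
    have h := (isLittleO_pow_exp_pos_mul_atTop (k := As σ) (b := 1 / 2) (by norm_num)).bound
      (c := 1) one_pos
    filter_upwards [h] with x hx
    rw [one_mul, Real.norm_eq_abs, Real.norm_eq_abs, abs_of_pos (Real.exp_pos _)] at hx
    exact (le_abs_self _).trans hx
  filter_upwards [hev, hl.eventually e1, hL.eventually_ge_atTop 2, hL.eventually_ge_atTop C,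
    hl.eventually_ge_atTop 0, eventually_gt_atTop 0] with T hT h1 h2 h3 h4 hT0
  have hLpos : 0 < Real.log T := by linarith
  set L := Real.log T with hLdef
  set l := Real.log L with hldef
  have hexp : Real.exp l = L := Real.exp_log hLpos
  have hhalf : L ^ (1 / 2 : ℝ) = Real.exp (1 / 2 * l) := by
    rw [Real.rpow_def_of_pos hLpos, mul_comm]
  have hz : ((y1 σ T : ℕ) : ℝ) ≤ L ^ (1 / 2 : ℝ) := by
    rw [hhalf]
    refine le_trans ?_ h1
    exact Nat.floor_le (by positivity)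
  have hz' : ((y1 σ T : ℕ) : ℝ) ≤ L ^ 1 := by
    rw [pow_one]
    refine hz.trans ?_
    calc L ^ (1 / 2 : ℝ) ≤ L ^ (1 : ℝ) :=
          Real.rpow_le_rpow_of_exponent_le (by linarith) (by norm_num)
      _ = L := Real.rpow_one L
  have h5 := hT 0 (y1 σ T) hz'
  have hset : {t ∈ Set.Icc T (2 * T) | ‖psumS σ 0 (y1 σ T) (a * t)‖ ≤ L ^ (1 / 2 : ℝ)} =
      Set.Icc T (2 * T) := by
    ext t
    constructor
    · intro ht
      exact ht.1
    · intro ht
      exact ⟨ht, (fzl_norm σ (by linarith) 0 _ _).trans hz⟩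
  rw [hset] at h5
  have hcont : Continuous fun t : ℝ =>
      Real.exp ((D + 2) * ‖psumS σ 0 (y1 σ T) (a * t)‖) :=
    Real.continuous_exp.comp (continuous_const.mul
      (((fzl_psum_cont σ 0 (y1 σ T)).comp (continuous_const.mul continuous_id)).norm))
  have h6 := fzl_markov _ hcont (fun t => (Real.exp_pos _).le) T (2 * T)
    (Real.exp ((D + 2) * l)) (C * T) (Real.exp_pos _) h5
    {t ∈ Set.Icc T (2 * T) | l < ‖psumS σ 0 (y1 σ T) (a * t)‖} (fun t ht => ht.1) (by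
      intro t ht
      apply Real.exp_le_exp.mpr
      have := ht.2
      nlinarith)
  refine h6.trans (ENNReal.ofReal_le_ofReal ?_)
  have h7 : L ^ (-D) = Real.exp (-(D * l)) := by
    rw [Real.rpow_def_of_pos hLpos]
    congr 1
    ring
  rw [h7, div_le_iff₀ (Real.exp_pos _)]
  have h8 : T * Real.exp (-(D * l)) / 2 * Real.exp ((D + 2) * l) = T / 2 * (L * L) := by
    have h9 : Real.exp ((D + 2) * l) = Real.exp (D * l) * (L * L) := by
      rw [← hexp, ← Real.exp_add, ← Real.exp_add]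
      congr 1
      ring
    rw [h9, Real.exp_neg]
    have := Real.exp_pos (D * l)
    field_simp
  rw [h8]
  have h10 : 2 * C ≤ L * L := mul_le_mul h2 h3 hC.le hLpos.le
  have h11 := mul_le_mul_of_nonneg_left h10 hT0.le
  linarith

/-- The tail bound. -/
private theorem fzl_tail (σ : ℝ) (hσ : 1 / 2 < σ) (l : ℝ) (hl : 1 ≤ l) (hσ1 : σ ≤ 1)
    (z : ℕ) : tail (2 * σ) ⌊l ^ As σ⌋₊ z ≤ 2 / (l ^ 2 * (2 * σ - 1)) := by
  have hκ : 0 < 2 * σ - 1 := by linarith
  have hlA : 1 ≤ l ^ As σ := one_le_pow₀ hl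
  have hy1 : 1 ≤ ⌊l ^ As σ⌋₊ := Nat.le_floor (by exact_mod_cast hlA)
  have hy2 : l ^ As σ / 2 ≤ (⌊l ^ As σ⌋₊ : ℝ) := by
    have h1 : (1 : ℝ) ≤ (⌊l ^ As σ⌋₊ : ℝ) := by exact_mod_cast hy1
    have h2 := Nat.lt_floor_add_one (l ^ As σ)
    linarith
  have h3 := pSz.1 (2 * σ) (by linarith) ⌊l ^ As σ⌋₊ z hy1
  refine h3.trans ?_
  have hA : 2 ≤ (As σ : ℝ) * (2 * σ - 1) := by
    have := Nat.le_ceil (2 / (2 * σ - 1))
    rw [div_le_iff₀ hκ] at this
    exact this
  have h4 : (⌊l ^ As σ⌋₊ : ℝ) ^ (1 - 2 * σ) ≤ (l ^ As σ / 2) ^ (1 - 2 * σ) :=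
    Real.rpow_le_rpow_of_nonpos (by positivity) hy2 (by linarith)
  have h5 : (l ^ As σ / 2) ^ (1 - 2 * σ) ≤ 2 / l ^ 2 := by
    rw [Real.div_rpow (by positivity) (by norm_num), ← Real.rpow_natCast, ← Real.rpow_mul
      (by linarith), div_eq_mul_inv, ← Real.rpow_neg (by norm_num)]
    have h6 : (2 : ℝ) ^ (-(1 - 2 * σ)) ≤ 2 := by
      calc (2 : ℝ) ^ (-(1 - 2 * σ)) ≤ (2 : ℝ) ^ (1 : ℝ) :=
            Real.rpow_le_rpow_of_exponent_le (by norm_num) (by linarith)
        _ = 2 := Real.rpow_one 2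
    have h7 : l ^ ((As σ : ℝ) * (1 - 2 * σ)) ≤ l ^ (-(2 : ℝ)) :=
      Real.rpow_le_rpow_of_exponent_le hl (by nlinarith)
    have h8 : l ^ (-(2 : ℝ)) = 1 / l ^ 2 := by
      rw [Real.rpow_neg (by linarith), one_div]
      congr 1
      exact_mod_cast Real.rpow_natCast l 2
    rw [h8] at h7
    calc l ^ ((As σ : ℝ) * (1 - 2 * σ)) * (2 : ℝ) ^ (-(1 - 2 * σ)) ≤ 1 / l ^ 2 * 2 :=
          mul_le_mul h7 h6 (by positivity) (by positivity)
      _ = 2 / l ^ 2 := by ring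
  have h9 : (⌊l ^ As σ⌋₊ : ℝ) ^ (1 - 2 * σ) ≤ 2 / l ^ 2 := h4.trans h5
  calc (⌊l ^ As σ⌋₊ : ℝ) ^ (1 - 2 * σ) / (2 * σ - 1) ≤ 2 / l ^ 2 / (2 * σ - 1) :=
        div_le_div_of_nonneg_right h9 hκ.le
    _ = 2 / (l ^ 2 * (2 * σ - 1)) := by rw [div_div]

private theorem fzl_b (σ a D : ℝ) (Kz : ℕ) (hσ : 1 / 2 < σ) (hσ1 : σ ≤ 1) (ha : 0 < a)
    (hD : 0 < D) :
    ∀ᶠ T : ℝ in atTop, ∀ z : ℕ, (z : ℝ) ≤ Real.log T ^ Kz → volume {t ∈ Set.Icc T (2 * T) |
      1 < ‖psumS σ (y1 σ T) z (a * t)‖} ≤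
      ENNReal.ofReal (T * Real.log T ^ (-D) / 2) := by
  obtain ⟨C, hC, hm⟩ := pHm
  have hκ : 0 < 2 * σ - 1 := by linarith
  have hL : Tendsto (fun T : ℝ => Real.log T) atTop atTop := Real.tendsto_log_atTop
  have hl : Tendsto (fun T : ℝ => Real.log (Real.log T)) atTop atTop :=
    Real.tendsto_log_atTop.comp hL
  have e1 : ∀ᶠ x : ℝ in atTop, 2 * (Kz : ℝ) * x ^ 2 ≤ Real.exp x := by
    have h := (isLittleO_pow_exp_pos_mul_atTop (k := 2) (b := 1) (by norm_num)).bound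
      (c := 1 / (2 * (Kz : ℝ) + 1)) (by positivity)
    filter_upwards [h] with x hx
    rw [one_mul, Real.norm_eq_abs, Real.norm_eq_abs, abs_of_pos (Real.exp_pos _),
      abs_of_nonneg (by positivity), div_mul_eq_mul_div, one_mul, le_div_iff₀ (by positivity)] at hx
    nlinarith [sq_nonneg x]
  have e2 : ∀ᶠ x : ℝ in atTop, 4 / (x * (2 * σ - 1)) ≤ Real.exp (-(D + 2)) := by
    filter_upwards [eventually_ge_atTop (4 / ((2 * σ - 1) * Real.exp (-(D + 2)))),
      eventually_gt_atTop 0] with x hx hx0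
    have := Real.exp_pos (-(D + 2))
    rw [div_le_iff₀ (by positivity)] at hx ⊢
    linarith
  filter_upwards [hl.eventually e1, hl.eventually e2, hL.eventually_ge_atTop 2,
    hL.eventually_ge_atTop (C / a * (a + 1)), hl.eventually_ge_atTop 1, eventually_gt_atTop 0,
    eventually_ge_atTop (1 / a)] with T h1 h2 h3 h4 h5 hT0 h6
  intro z hzK
  have hLpos : 0 < Real.log T := by linarith
  have hTL : Real.exp (Real.log T) = T := Real.exp_log hT0
  set L := Real.log T with hLdef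
  set l := Real.log L with hldef
  have hexp : Real.exp l = L := Real.exp_log hLpos
  have hlpos : 0 < l := by linarith
  set m : ℕ := ⌈l⌉₊ with hmdef
  have hm1 : l ≤ m := Nat.le_ceil l
  have hm2 : (m : ℝ) ≤ 2 * l := by
    have := Nat.ceil_lt_add_one hlpos.le
    linarith
  have hy : y1 σ T = ⌊l ^ As σ⌋₊ := rfl
  have htail := fzl_tail σ hσ l h5 hσ1 z
  rw [← hy] at htail
  have htail0 : 0 ≤ tail (2 * σ) (y1 σ T) z :=
    Finset.sum_nonneg fun p _ => Real.rpow_nonneg (Nat.cast_nonneg p) _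
  have haT : 1 ≤ a * T := by
    rw [div_le_iff₀ ha] at h6
    linarith
  have hint := hm σ (a * T) (y1 σ T) z m haT
  -- the power of z
  have hz : (z : ℝ) ^ m ≤ T := by
    have hz2 : L ^ Kz = Real.exp (Kz * l) := by
      rw [← hexp, ← Real.exp_nat_mul]
    calc (z : ℝ) ^ m ≤ (L ^ Kz) ^ m := pow_le_pow_left₀ (Nat.cast_nonneg _) hzK m
      _ = Real.exp ((m : ℝ) * (Kz * l)) := by
          rw [hz2, ← Real.exp_nat_mul]
      _ ≤ Real.exp (Real.exp l) := by
          apply Real.exp_le_exp.mpr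
          refine le_trans ?_ h1
          have hBl : 0 ≤ (Kz : ℝ) * l := by positivity
          nlinarith
      _ = T := by rw [hexp, hTL]
  have hfac : (m.factorial : ℝ) * tail (2 * σ) (y1 σ T) z ^ m ≤
      (4 / (l * (2 * σ - 1))) ^ m := by
    have hf1 : (m.factorial : ℝ) ≤ (2 * l) ^ m := by
      calc (m.factorial : ℝ) ≤ (m : ℝ) ^ m := by exact_mod_cast Nat.factorial_le_pow m
        _ ≤ (2 * l) ^ m := pow_le_pow_left₀ (Nat.cast_nonneg _) hm2 m
    calc (m.factorial : ℝ) * tail (2 * σ) (y1 σ T) z ^ m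
        ≤ (2 * l) ^ m * (2 / (l ^ 2 * (2 * σ - 1))) ^ m :=
          mul_le_mul hf1 (pow_le_pow_left₀ htail0 htail m) (pow_nonneg htail0 m)
            (by positivity)
      _ = (4 / (l * (2 * σ - 1))) ^ m := by
          rw [← mul_pow]
          congr 1
          field_simp
          ring
  have hmain : ∫ t in Set.Icc T (2 * T), ‖psumS σ (y1 σ T) z (a * t)‖ ^ (2 * m) ≤
      C / a * (a + 1) * T * (4 / (l * (2 * σ - 1))) ^ m := by
    rw [integral_Icc_eq_integral_Ioc, ← intervalIntegral.integral_of_le (by linarith),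
      intervalIntegral.integral_comp_mul_left
        (fun u => ‖psumS σ (y1 σ T) z u‖ ^ (2 * m)) ha.ne']
    have e3 : a * (2 * T) = 2 * (a * T) := by ring
    rw [e3, smul_eq_mul]
    calc a⁻¹ * ∫ u in a * T..2 * (a * T), ‖psumS σ (y1 σ T) z u‖ ^ (2 * m)
        ≤ a⁻¹ * (C * (a * T + (z : ℝ) ^ m) *
          (m.factorial * tail (2 * σ) (y1 σ T) z ^ m)) :=
          mul_le_mul_of_nonneg_left hint (by positivity)
      _ ≤ a⁻¹ * (C * (a * T + T) * (4 / (l * (2 * σ - 1))) ^ m) := by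
          apply mul_le_mul_of_nonneg_left _ (by positivity)
          apply mul_le_mul _ hfac (by positivity) (by positivity)
          apply mul_le_mul_of_nonneg_left _ hC.le
          linarith
      _ = C / a * (a + 1) * T * (4 / (l * (2 * σ - 1))) ^ m := by
          field_simp
  have hcont : Continuous fun t : ℝ => ‖psumS σ (y1 σ T) z (a * t)‖ ^ (2 * m) :=
    (((fzl_psum_cont σ (y1 σ T) z).comp (continuous_const.mul continuous_id)).norm).pow _
  have h7 := fzl_markov _ hcont (fun t => by positivity) T (2 * T) 1 _ one_pos hmain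
    {t ∈ Set.Icc T (2 * T) | 1 < ‖psumS σ (y1 σ T) z (a * t)‖}
    (fun t ht => ht.1) (by
      intro t ht
      exact one_le_pow₀ ht.2.le)
  refine h7.trans (ENNReal.ofReal_le_ofReal ?_)
  have h8 : L ^ (-D) = Real.exp (-(D * l)) := by
    rw [Real.rpow_def_of_pos hLpos]
    congr 1
    ring
  have h11 : (4 / (l * (2 * σ - 1))) ^ m ≤ Real.exp (-((D + 2) * l)) := by
    calc (4 / (l * (2 * σ - 1))) ^ m ≤ Real.exp (-(D + 2)) ^ m :=
          pow_le_pow_left₀ (by positivity) h2 m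
      _ = Real.exp ((m : ℝ) * (-(D + 2))) := by rw [← Real.exp_nat_mul]
      _ ≤ Real.exp (-((D + 2) * l)) := by
          apply Real.exp_le_exp.mpr
          nlinarith
  rw [div_one, h8]
  have h12 : Real.exp (-((D + 2) * l)) * (L * L) = Real.exp (-(D * l)) := by
    rw [← hexp, ← Real.exp_add, ← Real.exp_add]
    congr 1
    ring
  have h13 : 0 < Real.exp (-((D + 2) * l)) := Real.exp_pos _
  calc C / a * (a + 1) * T * (4 / (l * (2 * σ - 1))) ^ m
      ≤ L * T * Real.exp (-((D + 2) * l)) := by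
        apply mul_le_mul _ h11 (by positivity) (by positivity)
        exact mul_le_mul_of_nonneg_right h4 hT0.le
    _ ≤ T * (Real.exp (-((D + 2) * l)) * (L * L)) / 2 := by
        have h14 : L * 2 ≤ L * L := by nlinarith
        have h15 : 0 < T * Real.exp (-((D + 2) * l)) := by positivity
        nlinarith
    _ = T * Real.exp (-(D * l)) / 2 := by rw [h12]

theorem pFz : S_Fz := by
  intro σ a D Kz hσ hσ1 ha hD
  have hHx : S_Hx := pHx pSz pTay (pEq pMn pNn)
  filter_upwards [fzl_a hHx σ a D hσ ha hD, fzl_b σ a D Kz hσ hσ1 ha hD,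
    eventually_ge_atTop (1 : ℝ)] with T h1 h2 h3
  intro z hz
  have h4 : {t ∈ Set.Icc T (2 * T) |
      Real.log (Real.log T) < ‖psumS σ 0 (y1 σ T) (a * t)‖ ∨
      1 < ‖psumS σ (y1 σ T) z (a * t)‖} ⊆
      {t ∈ Set.Icc T (2 * T) | Real.log (Real.log T) < ‖psumS σ 0 (y1 σ T) (a * t)‖} ∪
      {t ∈ Set.Icc T (2 * T) | 1 < ‖psumS σ (y1 σ T) z (a * t)‖} := by
    rintro t ⟨ht, h | h⟩
    · exact Or.inl ⟨ht, h⟩
    · exact Or.inr ⟨ht, h⟩
  have hL : 0 ≤ Real.log T := Real.log_nonneg h3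
  have h5 : 0 ≤ T * Real.log T ^ (-D) / 2 := by positivity
  calc volume _ ≤ volume (_ ∪ _) := measure_mono h4
    _ ≤ _ := measure_union_le _ _
    _ ≤ ENNReal.ofReal (T * Real.log T ^ (-D) / 2) + ENNReal.ofReal (T * Real.log T ^ (-D) / 2) :=
        add_le_add h1 (h2 z hz)
    _ = ENNReal.ofReal (T * Real.log T ^ (-D)) := by
        rw [← ENNReal.ofReal_add h5 h5]
        congr 1
        ring

end Pool.Agent.Lib.MP_aa9ae4_nt.L1
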