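import Mathlib
import Pool.Agent.Lib.MP_aa9ae4_nt.L1.SpecB
import Pool.Agent.Lib.MP_aa9ae4_nt.S1.Main
import Pool.Agent.Lib.MP_aa9ae4_nt.Final

/-!
MP_aa9ae4_nt, Theorem L: the good set for `1/2 < σ ≤ 1` (`S_Gs`).
-/

namespace Pool.Agent.Lib.MP_aa9ae4_nt.L1

open Finset MeasureTheory Filter Topology
open Complex (I)
open Pool.Agent.Lib.MP_aa9ae4_nt.S1

private theorem gsl_near {x y : ℂ} {ε : ℝ} (hε : ε ≤ 1 / 2) (h : ‖x * y - 1‖ ≤ ε) :
    1 / 2 ≤ ‖x‖ * ‖y‖ ∧ ‖x‖ * ‖y‖ ≤ 2 := by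
  rw [← norm_mul]
  have h1 : ‖(1 : ℂ)‖ = 1 := norm_one
  have h2 : ‖(1 : ℂ)‖ ≤ ‖x * y‖ + ‖x * y - 1‖ := by
    calc ‖(1 : ℂ)‖ = ‖x * y - (x * y - 1)‖ := by ring_nf
      _ ≤ _ := norm_sub_le _ _
  have h3 : ‖x * y‖ ≤ ‖x * y - 1‖ + ‖(1 : ℂ)‖ := by
    calc ‖x * y‖ = ‖(x * y - 1) + 1‖ := by ring_nf
      _ ≤ _ := norm_add_le _ _
  rw [h1] at h2 h3
  constructor <;> linarith

private theorem gsl_floor (x : ℝ) (B : ℕ) (hB : 2 ≤ B) (hx : 2 ≤ x) : x ≤ (⌊x ^ B⌋₊ : ℝ) := by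
  have h1 := Nat.lt_floor_add_one (x ^ B)
  have h2 : x ^ 2 ≤ x ^ B := pow_le_pow_right₀ (by linarith) hB
  nlinarith

/-- the case `σ < 1` -/
private theorem gsl_lt (σ a : ℝ) (hσ : 1 / 2 < σ) (hσ1 : σ < 1) (ha : 0 < a) :
    ∃ (Kz : ℕ) (om δ : ℝ) (z : ℝ → ℕ) (gs : ℝ → Set ℝ),
    0 < om ∧ om < 1 ∧ 0 < δ ∧ δ < 1 ∧ IsGs σ a Kz om δ z gs := by
  obtain ⟨δ, hδ, hG⟩ := main_Gd σ a hσ hσ1 ha
  refine ⟨2 * Bs σ, 1 - σ / 4, min δ (1 / 2), fun T => zT σ T, fun T => good σ a T, by linarith,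
    by linarith, lt_min hδ (by norm_num), (min_le_right _ _).trans_lt (by norm_num), ?_⟩
  have hL : Tendsto (fun T : ℝ => Real.log T) atTop atTop := Real.tendsto_log_atTop
  have e1 : ∀ᶠ x : ℝ in atTop, 2 ≤ x ^ (σ / 4) :=
    (tendsto_rpow_atTop (y := σ / 4) (by linarith)).eventually_ge_atTop 2
  unfold IsGs
  filter_upwards [hG, hL.eventually_ge_atTop 4, hL.eventually e1, eventually_ge_atTop 1]
    with T hT h4 he hT1
  obtain ⟨hm, hv, hsub, hnear⟩ := hT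
  have hLp : 0 < Real.log T := by linarith
  have hB : 1 ≤ Bs σ := by
    have h1 : 0 < 20 / (2 * σ - 1) := div_pos (by norm_num) (by linarith)
    exact Nat.one_le_iff_ne_zero.2 (Nat.ceil_pos.2 h1).ne'
  refine ⟨?_, ?_, hm, fun t ht => ht.1, ?_, ?_⟩
  · exact gsl_floor _ _ (by omega) (by linarith)
  · exact Nat.floor_le (by positivity)
  · refine hv.trans (ENNReal.ofReal_le_ofReal ?_)
    exact Real.rpow_le_rpow_of_exponent_le hT1 (by linarith [min_le_left δ (1 / 2)])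
  · intro t ht
    have h5 : ‖psumS σ 0 (zT σ T) (a * t)‖ ≤ 2 * Real.log T ^ (1 - σ / 2) := (hsub ht).2
    constructor
    · refine h5.trans ?_
      have h6 : Real.log T ^ (1 - σ / 4) =
          Real.log T ^ (σ / 4) * Real.log T ^ (1 - σ / 2) := by
        rw [← Real.rpow_add hLp]
        congr 1
        ring
      rw [h6]
      exact mul_le_mul_of_nonneg_right he (Real.rpow_nonneg hLp.le _)
    · refine gsl_near (ε := 2 / Real.log T) ?_ (hnear t ht)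
      rw [div_le_iff₀ hLp]
      linarith

private theorem gsl_fz (a t : ℝ) : fz a t = fzS 1 a t := by
  unfold fz fzS
  rw [Complex.ofReal_one]

private theorem gsl_eul (z : ℕ) (u : ℝ) : eul 0 z u = eulS 1 0 z u := by
  unfold eul eulS prs pw
  rw [Complex.ofReal_one]

private theorem gsl_psum (z : ℕ) (u : ℝ) : ‖psumS 1 0 z u‖ ≤ tail 1 0 z := by
  unfold psumS tail
  refine (norm_sum_le _ _).trans (Finset.sum_le_sum fun p hp => ?_)
  have hp1 : 0 < p := (mem_filter.mp hp).2.pos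
  unfold pw
  rw [Complex.norm_natCast_cpow_of_pos hp1]
  simp

/-- the case `σ = 1` -/
private theorem gsl_one (hMt : S_Mt) (a : ℝ) (ha : 0 < a) :
    ∃ (Kz : ℕ) (om δ : ℝ) (z : ℝ → ℕ) (gs : ℝ → Set ℝ),
    0 < om ∧ om < 1 ∧ 0 < δ ∧ δ < 1 ∧ IsGs 1 a Kz om δ z gs := by
  obtain ⟨C0, hC4, hC0⟩ := hMt
  refine ⟨150, 1 / 2, 1 / 2, fun T => ⌊(Real.log T) ^ 150⌋₊,
    fun T => Set.Icc T (2 * T) \ fexc a T ⌊(Real.log T) ^ 150⌋₊, by norm_num,
    by norm_num, by norm_num, by norm_num, ?_⟩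
  have hL : Tendsto (fun T : ℝ => Real.log T) atTop atTop := Real.tendsto_log_atTop
  have e1 : ∀ᶠ x : ℝ in atTop, 150 * Real.log x + C0 / 4 ≤ x ^ (1 / 2 : ℝ) := by
    have h1 := (isLittleO_log_rpow_atTop (r := 1 / 2) (by norm_num)).bound
      (c := 1 / 300) (by norm_num)
    have h2 : ∀ᶠ x : ℝ in atTop, C0 / 2 ≤ x ^ (1 / 2 : ℝ) :=
      (tendsto_rpow_atTop (y := 1 / 2) (by norm_num)).eventually_ge_atTop _
    filter_upwards [h1, h2, eventually_ge_atTop 1] with x hx hx2 hx1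
    rw [Real.norm_eq_abs, Real.norm_eq_abs, abs_of_nonneg (Real.log_nonneg hx1),
      abs_of_nonneg (by positivity)] at hx
    linarith
  have e2 : ∀ᶠ T : ℝ in atTop, a⁻¹ * (a * T) ^ (1 / 9 : ℝ) ≤ T ^ (1 - 1 / 2 : ℝ) := by
    have h2 : ∀ᶠ x : ℝ in atTop, a⁻¹ * a ^ (1 / 9 : ℝ) ≤ x ^ (7 / 18 : ℝ) :=
      (tendsto_rpow_atTop (y := 7 / 18) (by norm_num)).eventually_ge_atTop _
    filter_upwards [h2, eventually_gt_atTop 0] with T hT hT0
    have h3 : T ^ (1 - 1 / 2 : ℝ) = T ^ (7 / 18 : ℝ) * T ^ (1 / 9 : ℝ) := by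
      rw [← Real.rpow_add hT0]
      norm_num
    rw [h3, Real.mul_rpow ha.le hT0.le, ← mul_assoc]
    exact mul_le_mul_of_nonneg_right hT (Real.rpow_nonneg hT0.le _)
  unfold IsGs
  filter_upwards [fin_exc_vol a ha, fin_log_mul a ha, hL.eventually_ge_atTop 4, hL.eventually e1,
    e2, eventually_ge_atTop 1] with T hv hlog h4 he he2 hT1
  have hLp : 0 < Real.log T := by linarith
  have hT0 : 0 < T := by linarith
  have hzL : Real.log T ≤ (⌊(Real.log T) ^ 150⌋₊ : ℝ) := gsl_floor _ _ (by norm_num) (by linarith)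
  have hzU : (⌊(Real.log T) ^ 150⌋₊ : ℝ) ≤ Real.log T ^ 150 := Nat.floor_le (by positivity)
  refine ⟨hzL, hzU, measurableSet_Icc.diff (fin_exc_meas a T _ ha hT0), Set.diff_subset, ?_, ?_⟩
  · have hsub : Set.Icc T (2 * T) \ (Set.Icc T (2 * T) \ fexc a T ⌊(Real.log T) ^ 150⌋₊) ⊆
        fexc a T ⌊(Real.log T) ^ 150⌋₊ := by
      intro t ht
      by_contra h
      exact ht.2 ⟨ht.1, h⟩
    exact (measure_mono hsub).trans (hv.trans (ENNReal.ofReal_le_ofReal he2))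
  · intro t ht
    constructor
    · refine (gsl_psum _ _).trans ?_
      have hz2 : 2 ≤ ⌊(Real.log T) ^ 150⌋₊ := by
        have : (2 : ℝ) ≤ (⌊(Real.log T) ^ 150⌋₊ : ℝ) := by linarith
        exact_mod_cast this
      have h5 := (abs_le.1 (hC0 _ hz2)).2
      set z : ℕ := ⌊(Real.log T) ^ 150⌋₊ with hz
      have hzp : (0 : ℝ) < z := by linarith
      have hzr : (2 : ℝ) ≤ z := by exact_mod_cast hz2
      have h6 : Real.log (Real.log z) ≤ Real.log z :=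
        (Real.log_le_sub_one_of_pos (Real.log_pos (by linarith))).trans (by linarith)
      have h7 : Real.log z ≤ 150 * Real.log (Real.log T) := by
        calc Real.log z ≤ Real.log (Real.log T ^ 150) := Real.log_le_log hzp hzU
          _ = 150 * Real.log (Real.log T) := by
              rw [Real.log_pow]
              norm_num
      linarith
    · have h5 : ‖fz a t * eul 0 ⌊(Real.log T) ^ 150⌋₊ (a * t) - 1‖ ≤ 1 / Real.log (a * T) := by
        by_contra h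
        exact ht.2 ⟨ht.1, not_le.1 h⟩
      rw [gsl_fz, gsl_eul] at h5
      refine gsl_near ?_ h5
      have h6 : 2 ≤ Real.log (a * T) := by linarith [hlog.1]
      rw [div_le_iff₀ (by linarith)]
      linarith

theorem pGs (hMt : S_Mt) : S_Gs := by
  intro σ a hσ hσ1 ha
  rcases hσ1.lt_or_eq with h | h
  · exact gsl_lt σ a hσ h ha
  · subst h
    exact gsl_one hMt a ha

end Pool.Agent.Lib.MP_aa9ae4_nt.L1
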