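import Mathlib
import Pool.Agent.Lib.MP_aa9ae4_nt.L1.SpecB
import Pool.Agent.Lib.MP_aa9ae4_nt.S1.Aux72

/-!
MP_aa9ae4_nt, Theorem L: the lower bound for the first factor (`S_Low`).
-/

set_option autoImplicit false

namespace Pool.Agent.Lib.MP_aa9ae4_nt.L1

open Finset MeasureTheory Filter Topology
open Complex (I)

private theorem low_norm (hExd : S_Exd) {n : ℕ} {B : ℕ → Finset ℕ} (R : ℕ → ℕ)
    (f : ℕ → ℕ → ℝ) (hB : IsBl n B) (t : ℝ) :
    ‖MB n B R f (fun p => S1.pw (1 / 2) p t)‖ ≤ ∑ k ∈ VK n B R, |cf n B f k| := by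
  rw [(hExd n B R f hB.2).1]
  refine (norm_sum_le _ _).trans (Finset.sum_le_sum fun k _ => ?_)
  rw [norm_mul, Complex.norm_real, Real.norm_eq_abs, norm_prod]
  refine mul_le_of_le_one_right (abs_nonneg _)
    (Finset.prod_le_one (fun p _ => norm_nonneg _) fun p hp => ?_)
  rw [norm_pow]
  apply pow_le_one₀ (norm_nonneg _)
  obtain ⟨i, hi, hpi⟩ := Finset.mem_biUnion.1 hp
  have hpp := hB.1 i hi p hpi
  rw [S1.a72_norm_pw _ hpp.pos]
  exact Real.rpow_le_one_of_one_le_of_nonpos (by exact_mod_cast hpp.one_le) (by norm_num)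

private theorem low_cont {n : ℕ} {B : ℕ → Finset ℕ} (R : ℕ → ℕ) (f : ℕ → ℕ → ℝ)
    (hB : IsBl n B) : Continuous fun t : ℝ => MB n B R f (fun p => S1.pw (1 / 2) p t) := by
  unfold MB
  refine continuous_finsetProd _ fun i hi => continuous_finsetSum _ fun r _ => ?_
  refine continuous_const.mul ((continuous_finsetSum _ fun p hp => ?_).pow r)
  have h := S1.a72_cont_pw (1 / 2) (hB.1 i hi p hp).pos 1
  simpa using h

private theorem low_ev1 (C c : ℝ) (hc : 0 < c) :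
    ∀ᶠ T : ℝ in atTop, C * T ^ (9 / 10 : ℝ) ≤ c / 4 * T := by
  have h1 : Tendsto (fun T : ℝ => T ^ (1 / 10 : ℝ)) atTop atTop :=
    tendsto_rpow_atTop (by norm_num)
  filter_upwards [h1.eventually_ge_atTop (4 * C / c), eventually_gt_atTop (0 : ℝ)] with T h2 hT
  have h3 : T = T ^ (9 / 10 : ℝ) * T ^ (1 / 10 : ℝ) := by
    rw [← Real.rpow_add hT]
    norm_num
  have h4 : 0 < T ^ (9 / 10 : ℝ) := Real.rpow_pos_of_pos hT _
  have h5 : C ≤ c / 4 * T ^ (1 / 10 : ℝ) := by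
    rw [div_le_iff₀ hc] at h2
    linarith
  calc C * T ^ (9 / 10 : ℝ) ≤ (c / 4 * T ^ (1 / 10 : ℝ)) * T ^ (9 / 10 : ℝ) :=
        mul_le_mul_of_nonneg_right h5 h4.le
    _ = c / 4 * (T ^ (9 / 10 : ℝ) * T ^ (1 / 10 : ℝ)) := by ring
    _ = c / 4 * T := by rw [← h3]

private theorem low_ev2 (δ c : ℝ) (hδ : 0 < δ) (hc : 0 < c) :
    ∀ᶠ T : ℝ in atTop, T ^ (δ / 8) * (√(T ^ (1 - δ)) * √(2 * (T * Real.log T))) ≤ c / 4 * T := by
  have h1 := (isLittleO_log_rpow_atTop (r := 3 * δ / 4) (by positivity)).def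
    (show 0 < (c / 4) ^ 2 / 2 by positivity)
  filter_upwards [h1, eventually_gt_atTop (1 : ℝ)] with T h2 hT1
  have hT : 0 < T := by linarith
  have hL : 0 < Real.log T := Real.log_pos hT1
  rw [Real.norm_of_nonneg hL.le, Real.norm_of_nonneg (Real.rpow_nonneg hT.le _)] at h2
  have h3 : √(T ^ (1 - δ)) = T ^ ((1 - δ) / 2) := by
    rw [Real.sqrt_eq_rpow, ← Real.rpow_mul hT.le]
    congr 1
    ring
  have h4 : √(2 * (T * Real.log T)) ≤ c / 4 * T ^ ((1 + 3 * δ / 4) / 2) := by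
    have h5 : 2 * (T * Real.log T) ≤ (c / 4 * T ^ ((1 + 3 * δ / 4) / 2)) ^ 2 := by
      rw [mul_pow, ← Real.rpow_natCast (T ^ ((1 + 3 * δ / 4) / 2)) 2, ← Real.rpow_mul hT.le]
      have h6 : (1 + 3 * δ / 4) / 2 * ((2 : ℕ) : ℝ) = 1 + 3 * δ / 4 := by
        push_cast
        ring
      rw [h6, Real.rpow_add hT, Real.rpow_one]
      nlinarith
    exact Real.sqrt_le_iff.2 ⟨by positivity, h5⟩
  calc T ^ (δ / 8) * (√(T ^ (1 - δ)) * √(2 * (T * Real.log T)))
      ≤ T ^ (δ / 8) * (T ^ ((1 - δ) / 2) * (c / 4 * T ^ ((1 + 3 * δ / 4) / 2))) := by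
        rw [h3]
        gcongr
    _ = c / 4 * (T ^ (δ / 8) * T ^ ((1 - δ) / 2) * T ^ ((1 + 3 * δ / 4) / 2)) := by ring
    _ = c / 4 * T := by
        rw [← Real.rpow_add hT, ← Real.rpow_add hT]
        congr 1
        have : δ / 8 + (1 - δ) / 2 + (1 + 3 * δ / 4) / 2 = 1 := by ring
        rw [this, Real.rpow_one]

/-- Cauchy-Schwarz on the bad set -/
private theorem low_cs {T : ℝ} (hT : 0 < T) {S : Set ℝ} (_hSm : MeasurableSet S)
    (hS : S ⊆ Set.Icc T (2 * T)) {v M : ℝ} (hv : volume S ≤ ENNReal.ofReal v) (hv0 : 0 ≤ v)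
    (hM : ∫ t in T..(2 * T), ‖riemannZeta (1 / 2 + t * I)‖ ^ 2 ≤ M) :
    ∫ t in S, ‖riemannZeta (1 / 2 + t * I)‖ ≤ √v * √M := by
  have hT2 : T ≤ 2 * T := by linarith
  have hc : Continuous fun t : ℝ => ‖riemannZeta (1 / 2 + t * I)‖ := fin_cont_half.norm
  have hi2 : IntegrableOn (fun t : ℝ => ‖riemannZeta (1 / 2 + t * I)‖ ^ 2) (Set.Icc T (2 * T)) :=
    (hc.pow 2).continuousOn.integrableOn_Icc
  have hSfin : volume S ≠ ⊤ := (hv.trans_lt ENNReal.ofReal_lt_top).ne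
  have : IsFiniteMeasure (volume.restrict S) := ⟨by
    rw [Measure.restrict_apply_univ]
    exact hv.trans_lt ENNReal.ofReal_lt_top⟩
  have hL2 : MemLp (fun t : ℝ => ‖riemannZeta (1 / 2 + t * I)‖) (ENNReal.ofReal 2)
      (volume.restrict S) := by
    rw [ENNReal.ofReal_ofNat]
    exact (memLp_two_iff_integrable_sq hc.aestronglyMeasurable).2 (hi2.mono_set hS)
  have h1L : MemLp (fun _ : ℝ => (1 : ℝ)) (ENNReal.ofReal 2) (volume.restrict S) :=
    memLp_const 1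
  have h1 := integral_mul_le_Lp_mul_Lq_of_nonneg (μ := volume.restrict S)
    Real.HolderConjugate.two_two (Filter.Eventually.of_forall fun _ => zero_le_one)
    (Filter.Eventually.of_forall fun t => norm_nonneg (riemannZeta (1 / 2 + (t : ℂ) * I))) h1L hL2
  simp only [Real.rpow_two, ← Real.sqrt_eq_rpow, one_mul, one_pow] at h1
  refine h1.trans ?_
  have h2 : ∫ _ in S, (1 : ℝ) ≤ v := by
    rw [setIntegral_const, smul_eq_mul, mul_one]
    exact ENNReal.toReal_le_of_le_ofReal hv0 hv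
  have h3 : ∫ t in S, ‖riemannZeta (1 / 2 + t * I)‖ ^ 2 ≤ M := by
    refine le_trans ?_ hM
    rw [intervalIntegral.integral_of_le hT2, ← integral_Icc_eq_integral_Ioc]
    exact setIntegral_mono_set hi2 (Filter.Eventually.of_forall fun t => sq_nonneg _)
      hS.eventuallyLE
  exact mul_le_mul (Real.sqrt_le_sqrt h2) (Real.sqrt_le_sqrt h3) (Real.sqrt_nonneg _)
    (Real.sqrt_nonneg _)

/-- **The lower bound for the first factor.** -/
theorem pLow (hBk : S_Bk) (hSz2 : S_Sz2) (hExd : S_Exd) (hMfl : S_Mfl) (hDg : S_Dg) : S_Low := by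
  intro k C0 C1 η hk hC0 hC1 hC1' hη hη1 hηC σ a Kz om δ z gs hδ hδ1 hηδ hgs
  obtain ⟨c, hc, hDgT⟩ := hDg k C0 C1 η hk hC0 hC1 hC1' hη hη1
  obtain ⟨C, hC, hM⟩ := hMfl
  obtain ⟨hsz1, hsz2⟩ := hSz2 1 C1 η le_rfl (by linarith) hη hη1
  have hsz2' := hsz2 (k + 1) (by linarith)
  have hmass : ∀ᶠ T : ℝ in atTop,
      ∫ t in T..(2 * T), ‖riemannZeta (1 / 2 + t * I)‖ ^ 2 ≤ 2 * (T * Real.log T) := by
    filter_upwards [mass_limit.eventually_le_const (by norm_num : (1 : ℝ) < 2),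
      eventually_gt_atTop (1 : ℝ)] with T h1 hT1
    have hT : 0 < T * Real.log T := mul_pos (by linarith) (Real.log_pos hT1)
    rwa [div_le_iff₀ hT] at h1
  refine ⟨c / 2, by positivity, ?_⟩
  filter_upwards [hBk C0 η hC0 hη hη1, hDgT, hsz1, hsz2', hmass, hgs, low_ev1 C c hc,
    low_ev2 δ c hδ hc, eventually_ge_atTop (Real.exp 1)] with T hBT hD hs1 hs2 hm hg hev1 hev2 hTe
  obtain ⟨-, -, -, -, b5, -, -⟩ := hBT
  have hT1 : 1 < T := lt_of_lt_of_le (by
    have := Real.add_one_lt_exp (one_ne_zero : (1 : ℝ) ≠ 0)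
    linarith) hTe
  have hT2 : 2 ≤ T := le_trans (by
    have := Real.add_one_le_exp (1 : ℝ)
    linarith) hTe
  have hT : 0 < T := by linarith
  have hTle : T ≤ 2 * T := by linarith
  have hL : 1 ≤ Real.log T := by
    rw [Real.le_log_iff_exp_le hT]
    exact hTe
  have hLk : 1 ≤ Real.log T ^ (k ^ 2) := Real.one_le_rpow hL (sq_nonneg k)
  obtain ⟨-, -, hgm, hgsub, hgv, -⟩ := hg
  -- sizes
  have hR : (fun i => 1 * Kb C1 i) = Kb C1 := by
    funext i
    exact one_mul _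
  rw [hR] at hs1 hs2
  set n := nI T + 1 with hn
  set Y := T ^ (5 * η * ((1 : ℕ) : ℝ) * C1) with hY
  set Z := T ^ (6 * η * ((1 : ℕ) : ℝ) * C1) with hZ
  have hfb : ∀ (α : ℝ), |α| ≤ k + 1 → ∀ (_ r : ℕ), |α ^ r| ≤ (k + 1) ^ r * (r.factorial : ℝ) := by
    intro α hα _ r
    rw [abs_pow]
    have h1 : |α| ^ r ≤ (k + 1) ^ r := pow_le_pow_left₀ (abs_nonneg _) hα r
    have h2 : (1 : ℝ) ≤ (r.factorial : ℝ) := by exact_mod_cast Nat.factorial_pos r
    have h3 : 0 ≤ (k + 1) ^ r := by positivity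
    nlinarith
  have hf1 := hs2 (fun _ r => (k - 1) ^ r) (fun i r => hfb (k - 1) (abs_le.2
    ⟨by linarith, by linarith⟩) i r)
  have hf2 := hs2 (fun _ r => k ^ r) (fun i r => hfb k (abs_le.2
    ⟨by linarith, by linarith⟩) i r)
  have hηC0 : 0 ≤ η * C1 := mul_nonneg hη.le (by linarith)
  have hY1 : 1 ≤ Y := Real.one_le_rpow hT1.le (by
    push_cast
    nlinarith)
  have hYT : Y ≤ T := by
    calc Y ≤ T ^ (1 : ℝ) := Real.rpow_le_rpow_of_exponent_le hT1.le (by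
          push_cast
          nlinarith)
      _ = T := Real.rpow_one T
  have hZ0 : 0 ≤ Z := Real.rpow_nonneg hT.le _
  have hmain := hM n (Bl η T) (Kb C1) (fun _ r => (k - 1) ^ r) (fun _ r => k ^ r) T Y Z Z b5 hT2
    hY1 hYT hs1 hf1 hf2
  -- the functions
  set F : ℝ → ℂ := fun t => Np C1 η (k - 1) T t with hF
  set G : ℝ → ℂ := fun t => Np C1 η k T t with hG
  have hFc : Continuous F := low_cont (Kb C1) (fun _ r => (k - 1) ^ r) b5
  have hGc : Continuous G := low_cont (Kb C1) (fun _ r => k ^ r) b5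
  have hFn : ∀ t, ‖F t‖ ≤ Z := fun t =>
    (low_norm hExd (Kb C1) (fun _ r => (k - 1) ^ r) b5 t).trans hf1
  have hGn : ∀ t, ‖G t‖ ≤ Z := fun t =>
    (low_norm hExd (Kb C1) (fun _ r => k ^ r) b5 t).trans hf2
  set h : ℝ → ℝ := fun t => ‖riemannZeta (1 / 2 + t * I)‖ * ‖F t‖ * ‖G t‖ with hh
  have hhc : Continuous h := (fin_cont_half.norm.mul hFc.norm).mul hGc.norm
  have hhi : IntegrableOn h (Set.Icc T (2 * T)) := hhc.continuousOn.integrableOn_Icc
  -- lower bound for the integral over the whole interval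
  have hI1 : c * Real.log T ^ (k ^ 2) * T - C * T ^ (9 / 10 : ℝ) ≤
      ∫ t in Set.Icc T (2 * T), h t := by
    set D := ∑ l ∈ VK n (Bl η T) (Kb C1), ∑ j ∈ (VK n (Bl η T) (Kb C1)).filter
        (fun j => ∀ p ∈ (range n).biUnion (Bl η T), j p ≤ l p),
        cf n (Bl η T) (fun _ r => (k - 1) ^ r) j * cf n (Bl η T) (fun _ r => k ^ r) l *
          ((nQ n (Bl η T) l : ℝ))⁻¹ with hDdef
    have h1 : ‖∫ t in T..(2 * T), riemannZeta (1 / 2 + t * I) * F t *
        (starRingEnd ℂ) (G t)‖ ≤ ∫ t in Set.Icc T (2 * T), h t := by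
      rw [intervalIntegral.integral_of_le hTle, ← integral_Icc_eq_integral_Ioc]
      refine (norm_integral_le_integral_norm _).trans (le_of_eq ?_)
      refine integral_congr_ae (Filter.Eventually.of_forall fun t => ?_)
      simp only [hh, norm_mul, RCLike.norm_conj]
    have h2 : T * D - C * T ^ (3 / 4 : ℝ) * Y ^ 2 * Z * Z ≤
        ‖∫ t in T..(2 * T), riemannZeta (1 / 2 + t * I) * F t * (starRingEnd ℂ) (G t)‖ := by
      have h3 := norm_sub_norm_le (((T * D : ℝ) : ℂ))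
        (∫ t in T..(2 * T), riemannZeta (1 / 2 + t * I) * F t * (starRingEnd ℂ) (G t))
      rw [norm_sub_rev] at h3
      have h4 : T * D ≤ ‖((T * D : ℝ) : ℂ)‖ := by
        rw [Complex.norm_real]
        exact le_abs_self _
      have h5 := hmain
      have h6 := h3.trans h5
      linarith
    have h7 : C * T ^ (3 / 4 : ℝ) * Y ^ 2 * Z * Z ≤ C * T ^ (9 / 10 : ℝ) := by
      have h8 : C * T ^ (3 / 4 : ℝ) * Y ^ 2 * Z * Z =
          C * (T ^ (3 / 4 : ℝ) * (Y * Y * Z * Z)) := by ring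
      have h9 : T ^ (3 / 4 : ℝ) * (Y * Y * Z * Z) ≤ T ^ (9 / 10 : ℝ) := by
        rw [hY, hZ, ← Real.rpow_add hT, ← Real.rpow_add hT, ← Real.rpow_add hT,
          ← Real.rpow_add hT]
        apply Real.rpow_le_rpow_of_exponent_le hT1.le
        push_cast
        nlinarith
      rw [h8]
      exact mul_le_mul_of_nonneg_left h9 hC.le
    have h10 : c * Real.log T ^ (k ^ 2) * T ≤ T * D := by
      rw [mul_comm T D]
      exact mul_le_mul_of_nonneg_right hD hT.le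
    linarith
  -- the bad set
  have hI2 : ∫ t in Set.Icc T (2 * T) \ gs T, h t ≤ c / 4 * T := by
    have hbm : MeasurableSet (Set.Icc T (2 * T) \ gs T) := measurableSet_Icc.diff hgm
    have hbs : Set.Icc T (2 * T) \ gs T ⊆ Set.Icc T (2 * T) := Set.sdiff_subset
    have h1 := low_cs hT hbm hbs hgv (Real.rpow_nonneg hT.le _) hm
    have hzi : IntegrableOn (fun t : ℝ => ‖riemannZeta (1 / 2 + t * I)‖)
        (Set.Icc T (2 * T)) := fin_cont_half.norm.continuousOn.integrableOn_Icc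
    have h2 : ∫ t in Set.Icc T (2 * T) \ gs T, h t ≤
        ∫ t in Set.Icc T (2 * T) \ gs T, (Z * Z) * ‖riemannZeta (1 / 2 + t * I)‖ := by
      refine setIntegral_mono (hhi.mono_set hbs) ((hzi.mono_set hbs).const_mul _) fun t => ?_
      have h3 := hFn t
      have h4 := hGn t
      have h5 := norm_nonneg (F t)
      have h6 := norm_nonneg (G t)
      have h7 : ‖F t‖ * ‖G t‖ ≤ Z * Z := mul_le_mul h3 h4 h6 hZ0
      calc h t = ‖riemannZeta (1 / 2 + t * I)‖ * (‖F t‖ * ‖G t‖) := by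
            simp only [hh]
            ring
        _ ≤ ‖riemannZeta (1 / 2 + t * I)‖ * (Z * Z) :=
            mul_le_mul_of_nonneg_left h7 (norm_nonneg _)
        _ = Z * Z * ‖riemannZeta (1 / 2 + t * I)‖ := by ring
    rw [integral_const_mul] at h2
    have h8 : Z * Z ≤ T ^ (δ / 8) := by
      rw [hZ, ← Real.rpow_add hT]
      apply Real.rpow_le_rpow_of_exponent_le hT1.le
      push_cast
      nlinarith
    calc ∫ t in Set.Icc T (2 * T) \ gs T, h t
        ≤ Z * Z * ∫ t in Set.Icc T (2 * T) \ gs T, ‖riemannZeta (1 / 2 + t * I)‖ := h2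
      _ ≤ Z * Z * (√(T ^ (1 - δ)) * √(2 * (T * Real.log T))) :=
          mul_le_mul_of_nonneg_left h1 (mul_nonneg hZ0 hZ0)
      _ ≤ T ^ (δ / 8) * (√(T ^ (1 - δ)) * √(2 * (T * Real.log T))) :=
          mul_le_mul_of_nonneg_right h8 (by positivity)
      _ ≤ c / 4 * T := hev2
  rw [setIntegral_sdiff hgm hhi hgsub] at hI2
  have hfin : c / 4 * T ≤ c / 4 * (T * Real.log T ^ (k ^ 2)) := by
    have : T * 1 ≤ T * Real.log T ^ (k ^ 2) := mul_le_mul_of_nonneg_left hLk hT.le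
    nlinarith
  change c / 2 * T * Real.log T ^ (k ^ 2) ≤ ∫ t in gs T, h t
  nlinarith

end Pool.Agent.Lib.MP_aa9ae4_nt.L1
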