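import Pool.Agent.Lib.MP_aa9ae4_nt.L1.PTwm

/-!
MP_aa9ae4_nt, Theorem L: mean of `ζ` against two block products (`S_Mfl`).
-/

namespace Pool.Agent.Lib.MP_aa9ae4_nt.L1

open Finset MeasureTheory Filter Topology
open Complex (I)
open Pool.Agent.Lib.MP_aa9ae4_nt.S1

private theorem mfl_rs (N : ℕ) : ∑ m ∈ Icc 1 N, (√(m : ℝ))⁻¹ ≤ 2 * √(N : ℝ) := by
  induction N with
  | zero => simp
  | succ N ih =>
    rw [Finset.sum_Icc_succ_top (by omega)]
    have h0 : (0 : ℝ) ≤ N := Nat.cast_nonneg N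
    set x : ℝ := √(N : ℝ) with hx
    set y : ℝ := √((N + 1 : ℕ) : ℝ) with hy
    have hx0 : 0 ≤ x := Real.sqrt_nonneg _
    have hy0 : 0 < y := Real.sqrt_pos.2 (by positivity)
    have hx2 : x ^ 2 = N := Real.sq_sqrt h0
    have hy2 : y ^ 2 = (N : ℝ) + 1 := by
      rw [hy, Real.sq_sqrt (by positivity)]
      push_cast
      ring
    have hxy : x ≤ y := Real.sqrt_le_sqrt (by push_cast; linarith)
    have h1 : y⁻¹ ≤ 2 * (y - x) := by
      rw [inv_le_iff_one_le_mul₀ hy0]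
      nlinarith
    linarith

private theorem mfl_off (N : ℕ) {Y : ℝ} {a b : ℕ} (hY : 1 ≤ Y) (ha : 1 ≤ a) (hb : 1 ≤ b)
    (hbY : (b : ℝ) ≤ Y) (T : ℝ) :
    ∑ m ∈ (Icc 1 N).filter (fun m => ¬ m * a = b), (√(m : ℝ))⁻¹ *
      ‖∫ t in T..(2 * T), Complex.exp ((((Real.log b - Real.log m - Real.log a) * t : ℝ) : ℂ) *
        I)‖ ≤ 8 * √(N : ℝ) + 8 * Y ^ 2 := by
  have ha0 : (0 : ℝ) < a := by exact_mod_cast ha
  have hb0 : (0 : ℝ) < b := by exact_mod_cast hb
  have h1 : ∀ m ∈ (Icc 1 N).filter (fun m => ¬ m * a = b), (√(m : ℝ))⁻¹ *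
      ‖∫ t in T..(2 * T), Complex.exp ((((Real.log b - Real.log m - Real.log a) * t : ℝ) : ℂ) *
        I)‖ ≤ 4 * (√(m : ℝ))⁻¹ + (if (m : ℝ) < 2 * Y then 4 * Y else 0) := by
    intro m hm
    rw [Finset.mem_filter, Finset.mem_Icc] at hm
    obtain ⟨⟨hm1, -⟩, hne⟩ := hm
    have hm0 : (0 : ℝ) < m := by exact_mod_cast hm1
    have hms : (√(m : ℝ))⁻¹ ≤ 1 := by
      refine inv_le_one_of_one_le₀ ?_
      rw [Real.one_le_sqrt]
      exact_mod_cast hm1
    have hms0 : 0 ≤ (√(m : ℝ))⁻¹ := by positivity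
    have hma : 1 ≤ m * a := Nat.mul_pos hm1 ha
    have hlog : Real.log b - Real.log m - Real.log a =
        Real.log b - Real.log ((m * a : ℕ) : ℝ) := by
      rw [Nat.cast_mul, Real.log_mul hm0.ne' ha0.ne']
      ring
    rw [hlog]
    set c : ℝ := Real.log b - Real.log ((m * a : ℕ) : ℝ) with hc
    by_cases h2 : 2 * (b : ℝ) ≤ ((m * a : ℕ) : ℝ)
    · have h3 : 1 / 2 ≤ |c| := by
        have h4 : Real.log 2 + Real.log b ≤ Real.log ((m * a : ℕ) : ℝ) := by
          rw [← Real.log_mul (by norm_num) hb0.ne']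
          exact Real.log_le_log (by positivity) h2
        have h5 := Real.log_two_gt_d9
        rw [hc, abs_sub_comm]
        refine le_trans ?_ (le_abs_self _)
        linarith
      have hc0 : c ≠ 0 := by
        intro h
        rw [h, abs_zero] at h3
        linarith
      have h4 := twm_osc (T := T) hc0
      have h5 : 2 / |c| ≤ 4 := by
        rw [div_le_iff₀ (by linarith)]
        linarith
      have h6 : (√(m : ℝ))⁻¹ * ‖∫ t in T..(2 * T), Complex.exp (((c * t : ℝ) : ℂ) * I)‖ ≤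
          (√(m : ℝ))⁻¹ * 4 := mul_le_mul_of_nonneg_left (h4.trans h5) hms0
      have h7 : (0 : ℝ) ≤ if (m : ℝ) < 2 * Y then 4 * Y else 0 := by
        split_ifs <;> linarith
      linarith
    · push Not at h2
      have h2' : (m : ℝ) * a < 2 * b := by
        rw [Nat.cast_mul] at h2
        exact h2
      have ha1 : (1 : ℝ) ≤ a := by exact_mod_cast ha
      have h3 : (m : ℝ) < 2 * Y := by nlinarith
      rw [if_pos h3]
      have h4 : 1 / (2 * Y) ≤ |c| :=
        twm_gap hb hma (by linarith) (by linarith) (fun h => hne h.symm)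
      have hY0 : 0 < 2 * Y := by linarith
      have h4' : 0 < |c| := lt_of_lt_of_le (by positivity) h4
      have hc0 : c ≠ 0 := abs_pos.1 h4'
      have h5 := twm_osc (T := T) hc0
      have h6 : 2 / |c| ≤ 4 * Y := by
        rw [div_le_iff₀ h4']
        rw [div_le_iff₀ hY0] at h4
        linarith
      have h7 : (√(m : ℝ))⁻¹ * ‖∫ t in T..(2 * T), Complex.exp (((c * t : ℝ) : ℂ) * I)‖ ≤
          1 * (4 * Y) := mul_le_mul hms (h5.trans h6) (norm_nonneg _) (by norm_num)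
      linarith
  refine (Finset.sum_le_sum h1).trans ?_
  have h2 : ∑ m ∈ (Icc 1 N).filter (fun m => ¬ m * a = b), (4 * (√(m : ℝ))⁻¹ +
      (if (m : ℝ) < 2 * Y then 4 * Y else 0)) ≤
      ∑ m ∈ Icc 1 N, (4 * (√(m : ℝ))⁻¹ + (if (m : ℝ) < 2 * Y then 4 * Y else 0)) := by
    refine Finset.sum_le_sum_of_subset_of_nonneg (Finset.filter_subset _ _) fun m _ _ => ?_
    have h7 : (0 : ℝ) ≤ if (m : ℝ) < 2 * Y then 4 * Y else 0 := by
      split_ifs <;> linarith
    positivity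
  refine h2.trans ?_
  rw [Finset.sum_add_distrib, ← Finset.mul_sum, ← Finset.sum_filter, Finset.sum_const,
    nsmul_eq_mul]
  have h3 := mfl_rs N
  have h4 : (((Icc 1 N).filter fun m : ℕ => (m : ℝ) < 2 * Y).card : ℝ) ≤ 2 * Y := by
    have h5 : (Icc 1 N).filter (fun m : ℕ => (m : ℝ) < 2 * Y) ⊆ Icc 1 ⌊2 * Y⌋₊ := by
      intro m hm
      rw [Finset.mem_filter, Finset.mem_Icc] at hm
      rw [Finset.mem_Icc]
      exact ⟨hm.1.1, Nat.le_floor hm.2.le⟩
    have h6 := Finset.card_le_card h5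
    rw [Nat.card_Icc, Nat.add_sub_cancel] at h6
    calc (((Icc 1 N).filter fun m : ℕ => (m : ℝ) < 2 * Y).card : ℝ) ≤ (⌊2 * Y⌋₊ : ℝ) := by
          exact_mod_cast h6
      _ ≤ 2 * Y := Nat.floor_le (by linarith)
  have h5 : (((Icc 1 N).filter fun m : ℕ => (m : ℝ) < 2 * Y).card : ℝ) * (4 * Y) ≤
      2 * Y * (4 * Y) := mul_le_mul_of_nonneg_right h4 (by linarith)
  nlinarith

/-- divisibility of the integers `nQ` -/
private theorem mfl_dvd {n : ℕ} {B : ℕ → Finset ℕ} {R : ℕ → ℕ} (hB : IsBl n B) {j l : ℕ → ℕ}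
    (hj : j ∈ VK n B R) (hl : l ∈ VK n B R) {m : ℕ} (hm : m * nQ n B j = nQ n B l) :
    ∀ p, j p ≤ l p := by
  have hjm := (twm_mem hB).1 hj
  have hlm := (twm_mem hB).1 hl
  have h1 : Nat.gcd (nQ n B j) (nQ n B l) = nQ n B (fun p => min (j p) (l p)) :=
    (pNn ((range n).biUnion B) (twm_prime hB) 0).2.2.2.1 j l
  have h2 : Nat.gcd (nQ n B j) (nQ n B l) = nQ n B j :=
    Nat.gcd_eq_left ⟨m, by rw [← hm, mul_comm]⟩
  rw [h2] at h1
  have h3 := twm_nQ_inj hB hjm.1 (l := fun p => min (j p) (l p)) (fun p hp => hjm.1 p (by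
    intro h0
    apply hp
    simp [h0])) h1
  intro p
  have h4 := congrFun h3 p
  omega

private theorem mfl_pair {n : ℕ} {B : ℕ → Finset ℕ} {R : ℕ → ℕ} (hB : IsBl n B) {Y T : ℝ} {N : ℕ}
    (hY : 1 ≤ Y) (hYN : Y ≤ N) (hnY : ∀ k ∈ VK n B R, (nQ n B k : ℝ) ≤ Y) {j l : ℕ → ℕ}
    (hj : j ∈ VK n B R) (hl : l ∈ VK n B R) :
    ‖(∑ m ∈ Icc 1 N, (((√(m : ℝ))⁻¹ * (√(nQ n B j : ℝ))⁻¹ * (√(nQ n B l : ℝ))⁻¹ : ℝ) : ℂ) *
      ∫ t in T..(2 * T), Complex.exp ((((Real.log (nQ n B l) - Real.log m -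
        Real.log (nQ n B j)) * t : ℝ) : ℂ) * I)) -
      ((if ∀ p ∈ (range n).biUnion B, j p ≤ l p then T * ((nQ n B l : ℝ))⁻¹ else 0 : ℝ) : ℂ)‖ ≤
      8 * √(N : ℝ) + 8 * Y ^ 2 := by
  have hpos : ∀ m : ℕ → ℕ, (0 : ℝ) < nQ n B m := fun m => by exact_mod_cast twm_nQ_pos hB m
  have hinv : ∀ m : ℕ → ℕ, (√(nQ n B m : ℝ))⁻¹ ≤ 1 := by
    intro m
    refine inv_le_one_of_one_le₀ ?_
    rw [Real.one_le_sqrt]
    exact_mod_cast twm_nQ_pos hB m
  have hjm := (twm_mem hB).1 hj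
  have hlm := (twm_mem hB).1 hl
  rw [← Finset.sum_filter_add_sum_filter_not (Icc 1 N) (fun m => m * nQ n B j = nQ n B l)]
  -- the diagonal
  have hdiag : ∑ m ∈ (Icc 1 N).filter (fun m => m * nQ n B j = nQ n B l),
      (((√(m : ℝ))⁻¹ * (√(nQ n B j : ℝ))⁻¹ * (√(nQ n B l : ℝ))⁻¹ : ℝ) : ℂ) *
      ∫ t in T..(2 * T), Complex.exp ((((Real.log (nQ n B l) - Real.log m -
        Real.log (nQ n B j)) * t : ℝ) : ℂ) * I) =
      ((if ∀ p ∈ (range n).biUnion B, j p ≤ l p then T * ((nQ n B l : ℝ))⁻¹ else 0 : ℝ) : ℂ) := by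
    have h1 : ∀ m ∈ (Icc 1 N).filter (fun m => m * nQ n B j = nQ n B l),
        (((√(m : ℝ))⁻¹ * (√(nQ n B j : ℝ))⁻¹ * (√(nQ n B l : ℝ))⁻¹ : ℝ) : ℂ) *
        ∫ t in T..(2 * T), Complex.exp ((((Real.log (nQ n B l) - Real.log m -
          Real.log (nQ n B j)) * t : ℝ) : ℂ) * I) = ((T * ((nQ n B l : ℝ))⁻¹ : ℝ) : ℂ) := by
      intro m hm
      rw [Finset.mem_filter, Finset.mem_Icc] at hm
      obtain ⟨⟨hm1, -⟩, he⟩ := hm
      have hm0 : (0 : ℝ) < m := by exact_mod_cast hm1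
      have h2 : (nQ n B l : ℝ) = m * nQ n B j := by rw [← he, Nat.cast_mul]
      have h3 : Real.log (nQ n B l) - Real.log m - Real.log (nQ n B j) = 0 := by
        rw [h2, Real.log_mul hm0.ne' (hpos j).ne']
        ring
      have h4 : (√(m : ℝ))⁻¹ * (√(nQ n B j : ℝ))⁻¹ * (√(nQ n B l : ℝ))⁻¹ =
          ((nQ n B l : ℝ))⁻¹ := by
        have h5 : √(nQ n B l : ℝ) = √(m : ℝ) * √(nQ n B j : ℝ) := by
          rw [h2, Real.sqrt_mul hm0.le]
        rw [← mul_inv, ← mul_inv, ← h5, Real.mul_self_sqrt (hpos l).le]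
      rw [h3, h4]
      simp only [zero_mul, Complex.ofReal_zero, Complex.exp_zero]
      rw [intervalIntegral.integral_const]
      have h6 : (2 * T - T) = T := by ring
      rw [h6]
      simp [mul_comm]
    rw [Finset.sum_congr rfl h1]
    split_ifs with hle
    · -- exactly one m
      set d : ℕ → ℕ := fun p => l p - j p with hd
      have hle' : ∀ p, j p ≤ l p := by
        intro p
        by_cases hp : p ∈ (range n).biUnion B
        · exact hle p hp
        · have : j p = 0 := by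
            by_contra h0
            exact hp (hjm.1 p h0)
          omega
      have hld : l = d + j := by
        funext p
        have := hle' p
        simp only [hd, Pi.add_apply]
        omega
      have hdm : nQ n B d * nQ n B j = nQ n B l := by
        rw [← twm_nQ_add, ← hld]
      have hset : (Icc 1 N).filter (fun m => m * nQ n B j = nQ n B l) = {nQ n B d} := by
        ext m
        rw [Finset.mem_filter, Finset.mem_Icc, Finset.mem_singleton]
        constructor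
        · rintro ⟨-, h2⟩
          rw [← hdm] at h2
          exact Nat.eq_of_mul_eq_mul_right (twm_nQ_pos hB j) h2
        · rintro rfl
          refine ⟨⟨twm_nQ_pos hB d, ?_⟩, hdm⟩
          have h2 : nQ n B d ≤ nQ n B l := by
            rw [← hdm]
            exact Nat.le_mul_of_pos_right _ (twm_nQ_pos hB j)
          have h3 : (nQ n B l : ℝ) ≤ N := (hnY l hl).trans hYN
          have h4 : nQ n B l ≤ N := by exact_mod_cast h3
          omega
      rw [hset, Finset.sum_singleton]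
    · rw [Finset.filter_false_of_mem, Finset.sum_empty, Complex.ofReal_zero]
      intro m _ he
      exact hle fun p _ => mfl_dvd hB hj hl he p
  rw [hdiag, add_sub_cancel_left]
  refine le_trans ?_ (mfl_off N hY (twm_nQ_pos hB j) (twm_nQ_pos hB l) (hnY l hl) T)
  refine norm_sum_le_of_le _ fun m _ => ?_
  rw [norm_mul, Complex.norm_real, Real.norm_eq_abs, abs_of_nonneg (by positivity)]
  refine mul_le_mul_of_nonneg_right ?_ (norm_nonneg _)
  have h1 := hinv j
  have h2 := hinv l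
  have h3 : (√(nQ n B j : ℝ))⁻¹ * (√(nQ n B l : ℝ))⁻¹ ≤ 1 * 1 :=
    mul_le_mul h1 h2 (by positivity) (by norm_num)
  have h4 : 0 ≤ (√(m : ℝ))⁻¹ := by positivity
  calc (√(m : ℝ))⁻¹ * (√(nQ n B j : ℝ))⁻¹ * (√(nQ n B l : ℝ))⁻¹ =
        (√(m : ℝ))⁻¹ * ((√(nQ n B j : ℝ))⁻¹ * (√(nQ n B l : ℝ))⁻¹) := by ring
    _ ≤ (√(m : ℝ))⁻¹ * (1 * 1) := mul_le_mul_of_nonneg_left h3 h4
    _ = (√(m : ℝ))⁻¹ := by ring

private theorem mfl_pw_cont {m : ℕ} (hm : 1 ≤ m) : Continuous fun t : ℝ => pw (1 / 2) m t := by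
  have : (fun t : ℝ => pw (1 / 2) m t) = fun t : ℝ => (((√(m : ℝ))⁻¹ : ℝ) : ℂ) *
      Complex.exp (((-Real.log m * t : ℝ) : ℂ) * I) := funext fun t => twm_pw hm t
  rw [this]
  exact (twm_osc_cont _).const_mul _

private theorem mfl_MB_cont (hExd : S_Exd) {n : ℕ} {B : ℕ → Finset ℕ} (hB : IsBl n B) (R : ℕ → ℕ)
    (f : ℕ → ℕ → ℝ) : Continuous fun t : ℝ => MB n B R f (fun p => pw (1 / 2) p t) := by
  have : (fun t : ℝ => MB n B R f (fun p => pw (1 / 2) p t)) = fun t : ℝ =>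
      ∑ k ∈ VK n B R, (cf n B f k : ℂ) * pw (1 / 2) (nQ n B k) t :=
    funext fun t => twm_exp hExd hB R f t
  rw [this]
  exact continuous_finsetSum _ fun k _ => (mfl_pw_cont (twm_nQ_pos hB k)).const_mul _

private theorem mfl_MB_le (hExd : S_Exd) {n : ℕ} {B : ℕ → Finset ℕ} (hB : IsBl n B) (R : ℕ → ℕ)
    (f : ℕ → ℕ → ℝ) (t : ℝ) :
    ‖MB n B R f (fun p => pw (1 / 2) p t)‖ ≤ ∑ k ∈ VK n B R, |cf n B f k| := by
  rw [twm_exp hExd hB R f t]
  refine norm_sum_le_of_le _ fun k _ => ?_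
  rw [norm_mul, Complex.norm_real, Real.norm_eq_abs, twm_pw (twm_nQ_pos hB k), norm_mul,
    Complex.norm_exp_ofReal_mul_I, mul_one, Complex.norm_real, Real.norm_eq_abs,
    abs_of_nonneg (by positivity : (0 : ℝ) ≤ (√(nQ n B k : ℝ))⁻¹)]
  have h1 : (√(nQ n B k : ℝ))⁻¹ ≤ 1 := by
    refine inv_le_one_of_one_le₀ ?_
    rw [Real.one_le_sqrt]
    exact_mod_cast twm_nQ_pos hB k
  calc |cf n B f k| * (√(nQ n B k : ℝ))⁻¹ ≤ |cf n B f k| * 1 :=
        mul_le_mul_of_nonneg_left h1 (abs_nonneg _)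
    _ = |cf n B f k| := mul_one _

private theorem mfl_zeta_cont : Continuous fun t : ℝ => riemannZeta (1 / 2 + t * I) := by
  rw [continuous_iff_continuousAt]
  intro t
  have h1 : (1 / 2 + (t : ℂ) * I) ≠ 1 := by
    intro h
    have := congrArg Complex.re h
    norm_num at this
  have h2 := (differentiableAt_riemannZeta h1).continuousAt
  exact ContinuousAt.comp (f := fun t : ℝ => (1 / 2 + (t : ℂ) * I)) h2 (by fun_prop)

private theorem mfl_zsum (N : ℕ) (t : ℝ) :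
    zsum (1 / 2 + t * I) N = ∑ m ∈ Icc 1 N, pw (1 / 2) m t := by
  unfold zsum pw
  refine Finset.sum_congr rfl fun m _ => ?_
  congr 2
  push_cast
  ring

/-- the integral with the partial sum as a triple sum -/
private theorem mfl_int (hExd : S_Exd) {n : ℕ} {B : ℕ → Finset ℕ} (hB : IsBl n B) (R : ℕ → ℕ)
    (f g : ℕ → ℕ → ℝ) (T : ℝ) (N : ℕ) :
    ∫ t in T..(2 * T), zsum (1 / 2 + t * I) N * MB n B R f (fun p => pw (1 / 2) p t) *
      (starRingEnd ℂ) (MB n B R g (fun p => pw (1 / 2) p t)) =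
    ∑ l ∈ VK n B R, ∑ j ∈ VK n B R, ((cf n B f j * cf n B g l : ℝ) : ℂ) *
      ∑ m ∈ Icc 1 N, (((√(m : ℝ))⁻¹ * (√(nQ n B j : ℝ))⁻¹ * (√(nQ n B l : ℝ))⁻¹ : ℝ) : ℂ) *
      ∫ t in T..(2 * T), Complex.exp ((((Real.log (nQ n B l) - Real.log m -
        Real.log (nQ n B j)) * t : ℝ) : ℂ) * I) := by
  have h1 : ∀ t : ℝ, zsum (1 / 2 + t * I) N * MB n B R f (fun p => pw (1 / 2) p t) *
      (starRingEnd ℂ) (MB n B R g (fun p => pw (1 / 2) p t)) =
      ∑ l ∈ VK n B R, ∑ j ∈ VK n B R, ((cf n B f j * cf n B g l : ℝ) : ℂ) *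
      ∑ m ∈ Icc 1 N, (((√(m : ℝ))⁻¹ * (√(nQ n B j : ℝ))⁻¹ * (√(nQ n B l : ℝ))⁻¹ : ℝ) : ℂ) *
      Complex.exp ((((Real.log (nQ n B l) - Real.log m -
        Real.log (nQ n B j)) * t : ℝ) : ℂ) * I) := by
    intro t
    rw [twm_exp hExd hB R f t, twm_exp hExd hB R g t, map_sum, Finset.mul_sum]
    refine Finset.sum_congr rfl fun l _ => ?_
    rw [Finset.mul_sum, Finset.sum_mul]
    refine Finset.sum_congr rfl fun j _ => ?_
    rw [mfl_zsum, Finset.sum_mul, Finset.sum_mul, Finset.mul_sum]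
    refine Finset.sum_congr rfl fun m hm => ?_
    have hm1 : 1 ≤ m := (Finset.mem_Icc.1 hm).1
    rw [twm_pw hm1, twm_pw (twm_nQ_pos hB j), twm_pw (twm_nQ_pos hB l), map_mul, map_mul,
      Complex.conj_ofReal, Complex.conj_ofReal, ← Complex.exp_conj, map_mul, Complex.conj_ofReal,
      Complex.conj_I]
    have e1 : Complex.exp ((((Real.log (nQ n B l) - Real.log m -
        Real.log (nQ n B j)) * t : ℝ) : ℂ) * I) =
        Complex.exp (((-Real.log m * t : ℝ) : ℂ) * I) *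
        Complex.exp (((-Real.log (nQ n B j) * t : ℝ) : ℂ) * I) *
        Complex.exp (((-Real.log (nQ n B l) * t : ℝ) : ℂ) * -I) := by
      rw [← Complex.exp_add, ← Complex.exp_add]
      congr 1
      push_cast
      ring
    rw [e1]
    push_cast
    ring
  have hc : ∀ (l j : ℕ → ℕ), Continuous fun t : ℝ => ∑ m ∈ Icc 1 N,
      (((√(m : ℝ))⁻¹ * (√(nQ n B j : ℝ))⁻¹ * (√(nQ n B l : ℝ))⁻¹ : ℝ) : ℂ) *
      Complex.exp ((((Real.log (nQ n B l) - Real.log m -
        Real.log (nQ n B j)) * t : ℝ) : ℂ) * I) := fun l j =>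
    continuous_finsetSum _ fun m _ => (twm_osc_cont _).const_mul _
  rw [intervalIntegral.integral_congr (fun t _ => h1 t), intervalIntegral.integral_finsetSum]
  · refine Finset.sum_congr rfl fun l _ => ?_
    rw [intervalIntegral.integral_finsetSum]
    · refine Finset.sum_congr rfl fun j _ => ?_
      rw [intervalIntegral.integral_const_mul, intervalIntegral.integral_finsetSum]
      · congr 1
        refine Finset.sum_congr rfl fun m _ => ?_
        rw [intervalIntegral.integral_const_mul]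
      · intro m _
        exact ((twm_osc_cont _).const_mul _).intervalIntegrable _ _
    · intro j _
      exact ((hc l j).const_mul _).intervalIntegrable _ _
  · intro l _
    refine Continuous.intervalIntegrable ?_ _ _
    exact continuous_finsetSum _ fun j _ => (hc l j).const_mul _

theorem pMfl (hExd : S_Exd) (hZap : S_Zap) : S_Mfl := by
  obtain ⟨C, hC, hZ⟩ := hZap
  refine ⟨C + 24, by linarith, ?_⟩
  intro n B R f g T Y Zf Zg hB hT hY hYT hnY hZf hZg
  have hT0 : 0 < T := by linarith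
  set N : ℕ := ⌈T ^ (3 / 2 : ℝ)⌉₊ with hN
  have hT32 : 1 ≤ T ^ (3 / 2 : ℝ) := Real.one_le_rpow (by linarith) (by norm_num)
  have hNle : T ^ (3 / 2 : ℝ) ≤ N := Nat.le_ceil _
  have hNu : (N : ℝ) ≤ 2 * T ^ (3 / 2 : ℝ) := by
    have := Nat.ceil_lt_add_one (by positivity : 0 ≤ T ^ (3 / 2 : ℝ))
    linarith
  have hTN : T ≤ N := by
    refine le_trans ?_ hNle
    nth_rewrite 1 [← Real.rpow_one T]
    exact Real.rpow_le_rpow_of_exponent_le (by linarith) (by norm_num)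
  set F : ℝ → ℂ := fun t => MB n B R f (fun p => pw (1 / 2) p t) with hF
  set G : ℝ → ℂ := fun t => MB n B R g (fun p => pw (1 / 2) p t) with hG
  set P : ℝ := T ^ (3 / 4 : ℝ) with hP
  have hP1 : 1 ≤ P := Real.one_le_rpow (by linarith) (by norm_num)
  have hZf0 : 0 ≤ Zf := le_trans (Finset.sum_nonneg fun k _ => abs_nonneg _) hZf
  have hZg0 : 0 ≤ Zg := le_trans (Finset.sum_nonneg fun k _ => abs_nonneg _) hZg
  have hY2 : 1 ≤ Y ^ 2 := one_le_pow₀ hY
  have hFc : Continuous F := mfl_MB_cont hExd hB R f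
  have hGc : Continuous G := mfl_MB_cont hExd hB R g
  have hGc' : Continuous fun t => (starRingEnd ℂ) (G t) := Complex.continuous_conj.comp hGc
  have hzc := mfl_zeta_cont
  have hsc : Continuous fun t : ℝ => zsum (1 / 2 + t * I) N := by
    have : (fun t : ℝ => zsum (1 / 2 + t * I) N) = fun t : ℝ => ∑ m ∈ Icc 1 N, pw (1 / 2) m t :=
      funext fun t => mfl_zsum N t
    rw [this]
    exact continuous_finsetSum _ fun m hm => mfl_pw_cont (Finset.mem_Icc.1 hm).1
  -- replace ζ by the partial sum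
  have hrep : ‖(∫ t in T..(2 * T), riemannZeta (1 / 2 + t * I) * F t * (starRingEnd ℂ) (G t)) -
      ∫ t in T..(2 * T), zsum (1 / 2 + t * I) N * F t * (starRingEnd ℂ) (G t)‖ ≤
      C * P * Zf * Zg := by
    have hi1 : IntervalIntegrable (fun t : ℝ => riemannZeta (1 / 2 + t * I) * F t *
        (starRingEnd ℂ) (G t)) volume T (2 * T) :=
      ((hzc.mul hFc).mul hGc').intervalIntegrable _ _
    have hi2 : IntervalIntegrable (fun t : ℝ => zsum (1 / 2 + t * I) N * F t *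
        (starRingEnd ℂ) (G t)) volume T (2 * T) :=
      ((hsc.mul hFc).mul hGc').intervalIntegrable _ _
    rw [← intervalIntegral.integral_sub hi1 hi2]
    have h1 := intervalIntegral.norm_integral_le_of_norm_le_const
      (C := C * T ^ (-(1 / 4) : ℝ) * Zf * Zg) (a := T) (b := 2 * T)
      (f := fun t : ℝ => riemannZeta (1 / 2 + t * I) * F t * (starRingEnd ℂ) (G t) -
        zsum (1 / 2 + t * I) N * F t * (starRingEnd ℂ) (G t)) (by
        intro t ht
        rw [Set.uIoc_of_le (by linarith)] at ht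
        have e : riemannZeta (1 / 2 + t * I) * F t * (starRingEnd ℂ) (G t) -
            zsum (1 / 2 + t * I) N * F t * (starRingEnd ℂ) (G t) =
            (riemannZeta (1 / 2 + t * I) - zsum (1 / 2 + t * I) N) * F t *
            (starRingEnd ℂ) (G t) := by ring
        rw [e, norm_mul, norm_mul, RCLike.norm_conj]
        have h2 := hZ T t hT ht.1.le ht.2
        have h3 : ‖F t‖ ≤ Zf := (mfl_MB_le hExd hB R f t).trans hZf
        have h4 : ‖G t‖ ≤ Zg := (mfl_MB_le hExd hB R g t).trans hZg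
        exact mul_le_mul (mul_le_mul h2 h3 (norm_nonneg _) (by positivity)) h4 (norm_nonneg _)
          (by positivity))
    refine h1.trans (le_of_eq ?_)
    rw [show 2 * T - T = T by ring, abs_of_pos hT0]
    have h5 : T ^ (-(1 / 4) : ℝ) * T = P := by
      nth_rewrite 2 [← Real.rpow_one T]
      rw [← Real.rpow_add hT0, hP]
      norm_num
    rw [← h5]
    ring
  -- the partial sum
  have hsum : ‖(∫ t in T..(2 * T), zsum (1 / 2 + t * I) N * F t * (starRingEnd ℂ) (G t)) -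
      (T * ∑ l ∈ VK n B R, ∑ j ∈ (VK n B R).filter
        (fun j => ∀ p ∈ (range n).biUnion B, j p ≤ l p),
        cf n B f j * cf n B g l * ((nQ n B l : ℝ))⁻¹ : ℝ)‖ ≤
      (8 * √(N : ℝ) + 8 * Y ^ 2) * (Zf * Zg) := by
    rw [hF, hG, mfl_int hExd hB R f g T N]
    have e1 : ((T * ∑ l ∈ VK n B R, ∑ j ∈ (VK n B R).filter
        (fun j => ∀ p ∈ (range n).biUnion B, j p ≤ l p),
        cf n B f j * cf n B g l * ((nQ n B l : ℝ))⁻¹ : ℝ) : ℂ) =
        ∑ l ∈ VK n B R, ∑ j ∈ VK n B R, ((cf n B f j * cf n B g l : ℝ) : ℂ) *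
        ((if ∀ p ∈ (range n).biUnion B, j p ≤ l p then T * ((nQ n B l : ℝ))⁻¹ else 0 : ℝ) :
          ℂ) := by
      rw [Finset.mul_sum, Complex.ofReal_sum]
      refine Finset.sum_congr rfl fun l _ => ?_
      rw [Finset.mul_sum, Finset.sum_filter, Complex.ofReal_sum]
      refine Finset.sum_congr rfl fun j _ => ?_
      split_ifs
      · push_cast
        ring
      · simp
    rw [e1, ← Finset.sum_sub_distrib]
    have h1 : ∀ l ∈ VK n B R, ‖(∑ j ∈ VK n B R, ((cf n B f j * cf n B g l : ℝ) : ℂ) *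
        ∑ m ∈ Icc 1 N, (((√(m : ℝ))⁻¹ * (√(nQ n B j : ℝ))⁻¹ * (√(nQ n B l : ℝ))⁻¹ : ℝ) : ℂ) *
        ∫ t in T..(2 * T), Complex.exp ((((Real.log (nQ n B l) - Real.log m -
          Real.log (nQ n B j)) * t : ℝ) : ℂ) * I)) -
        ∑ j ∈ VK n B R, ((cf n B f j * cf n B g l : ℝ) : ℂ) *
        ((if ∀ p ∈ (range n).biUnion B, j p ≤ l p then T * ((nQ n B l : ℝ))⁻¹ else 0 : ℝ) : ℂ)‖ ≤
        ∑ j ∈ VK n B R, |cf n B f j| * |cf n B g l| * (8 * √(N : ℝ) + 8 * Y ^ 2) := by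
      intro l hl
      rw [← Finset.sum_sub_distrib]
      refine norm_sum_le_of_le _ fun j hj => ?_
      rw [← mul_sub, norm_mul, Complex.norm_real, Real.norm_eq_abs, abs_mul]
      exact mul_le_mul_of_nonneg_left (mfl_pair hB hY (hYT.trans hTN) hnY hj hl)
        (by positivity)
    refine (norm_sum_le_of_le _ h1).trans ?_
    have h2 : ∑ l ∈ VK n B R, ∑ j ∈ VK n B R,
        |cf n B f j| * |cf n B g l| * (8 * √(N : ℝ) + 8 * Y ^ 2) =
        (8 * √(N : ℝ) + 8 * Y ^ 2) *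
          ((∑ j ∈ VK n B R, |cf n B f j|) * ∑ l ∈ VK n B R, |cf n B g l|) := by
      rw [mul_comm (∑ j ∈ VK n B R, |cf n B f j|), Finset.sum_mul_sum, Finset.mul_sum]
      refine Finset.sum_congr rfl fun l _ => ?_
      rw [Finset.mul_sum]
      refine Finset.sum_congr rfl fun j _ => ?_
      ring
    rw [h2]
    refine mul_le_mul_of_nonneg_left ?_ (by positivity)
    exact mul_le_mul hZf hZg (Finset.sum_nonneg fun k _ => abs_nonneg _) hZf0
  have hNs : √(N : ℝ) ≤ 2 * P := by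
    rw [Real.sqrt_le_iff]
    refine ⟨by positivity, hNu.trans ?_⟩
    have h1 : P ^ 2 = T ^ (3 / 2 : ℝ) := by
      rw [hP, ← Real.rpow_natCast, ← Real.rpow_mul hT0.le]
      norm_num
    have h2 : (2 * P) ^ 2 = 4 * T ^ (3 / 2 : ℝ) := by rw [mul_pow, h1]; norm_num
    rw [h2]
    linarith
  have hfin : 8 * √(N : ℝ) + 8 * Y ^ 2 ≤ 24 * (P * Y ^ 2) := by
    have h1 : P ≤ P * Y ^ 2 := le_mul_of_one_le_right (by linarith) hY2
    have h2 : Y ^ 2 ≤ P * Y ^ 2 := le_mul_of_one_le_left (by linarith) hP1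
    linarith
  have hZZ : 0 ≤ Zf * Zg := mul_nonneg hZf0 hZg0
  calc _ = ‖((∫ t in T..(2 * T), riemannZeta (1 / 2 + t * I) * F t * (starRingEnd ℂ) (G t)) -
        ∫ t in T..(2 * T), zsum (1 / 2 + t * I) N * F t * (starRingEnd ℂ) (G t)) +
        ((∫ t in T..(2 * T), zsum (1 / 2 + t * I) N * F t * (starRingEnd ℂ) (G t)) -
        (T * ∑ l ∈ VK n B R, ∑ j ∈ (VK n B R).filter
          (fun j => ∀ p ∈ (range n).biUnion B, j p ≤ l p),
          cf n B f j * cf n B g l * ((nQ n B l : ℝ))⁻¹ : ℝ))‖ := by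
        congr 1
        ring
    _ ≤ C * P * Zf * Zg + (8 * √(N : ℝ) + 8 * Y ^ 2) * (Zf * Zg) :=
        (norm_add_le _ _).trans (add_le_add hrep hsum)
    _ ≤ C * P * Zf * Zg * Y ^ 2 + 24 * (P * Y ^ 2) * (Zf * Zg) := by
        refine add_le_add ?_ (mul_le_mul_of_nonneg_right hfin hZZ)
        refine le_mul_of_one_le_right ?_ hY2
        have : 0 ≤ P := by linarith
        positivity
    _ = (C + 24) * P * Y ^ 2 * Zf * Zg := by ring

end Pool.Agent.Lib.MP_aa9ae4_nt.L1
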