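import Pool.Agent.Lib.MP_aa9ae4_nt.L1.SpecA
import Pool.Agent.Lib.MP_aa9ae4_nt.S1.PNn
import Pool.Agent.Lib.MP_aa9ae4_nt.MeanValue

/-!
MP_aa9ae4_nt, Theorem L, part A: the mean square of a block product (`S_Msq`).
-/

namespace Pool.Agent.Lib.MP_aa9ae4_nt.L1

open Finset MeasureTheory Filter Topology
open Complex (I)
open Pool.Agent.Lib.MP_aa9ae4_nt.S1 (pw psumS eulS tail prs nn KK expJ HT fzS y1)

open Classical in
private theorem msq_reindex {ι : Type*} (S : Finset ι) (g : ι → ℕ)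
    (hg : ∀ k ∈ S, ∀ l ∈ S, g k = g l → k = l) (N : ℕ) (hN : ∀ k ∈ S, g k ∈ Icc 1 N) (a : ι → ℂ) :
    ∃ A : ℕ → ℂ, ∀ {M : Type} [AddCommMonoid M] (F : ℕ → ℂ → M), (∀ n, F n 0 = 0) →
      ∑ n ∈ Icc 1 N, F n (A n) = ∑ k ∈ S, F (g k) (a k) := by
  refine ⟨fun n => if h : ∃ k ∈ S, g k = n then a h.choose else 0, ?_⟩
  intro M _ F hF
  have h1 : ∑ n ∈ S.image g, F n (if h : ∃ k ∈ S, g k = n then a h.choose else 0) =
      ∑ k ∈ S, F (g k) (a k) := by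
    rw [Finset.sum_image fun k hk l hl h => hg k hk l hl h]
    refine Finset.sum_congr rfl fun k hk => ?_
    have hex : ∃ l ∈ S, g l = g k := ⟨k, hk, rfl⟩
    have hc : hex.choose = k := hg _ hex.choose_spec.1 _ hk hex.choose_spec.2
    rw [dif_pos hex, hc]
  rw [← h1]
  refine (Finset.sum_subset ?_ ?_).symm
  · intro n hn
    rw [Finset.mem_image] at hn
    obtain ⟨k, hk, rfl⟩ := hn
    exact hN k hk
  · intro n _ hn
    have : ¬ ∃ k ∈ S, g k = n := fun h => hn (Finset.mem_image.2 h)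
    simp only []
    rw [dif_neg this, hF]

private theorem msq_pw (σ u : ℝ) {n : ℕ} (hn : n ≠ 0) :
    pw σ n u = (((n : ℝ) ^ (-σ) : ℝ) : ℂ) * (n : ℂ) ^ (-(u * I)) := by
  unfold pw
  have h0 : (n : ℂ) ≠ 0 := by exact_mod_cast hn
  rw [neg_add, Complex.cpow_add _ _ h0, Complex.ofReal_cpow (Nat.cast_nonneg n)]
  simp

private theorem msq_zero (n : ℕ) (B : ℕ → Finset ℕ) (R : ℕ → ℕ) : (0 : ℕ → ℕ) ∈ VK n B R := by
  classical
  unfold VK
  rw [Finset.mem_filter]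
  refine ⟨?_, fun i _ => by simp⟩
  have h0 : (0 : ℕ → ℕ) ∈ ((range n).biUnion B).piAntidiag 0 := by
    rw [Finset.mem_piAntidiag]
    simp
  exact Finset.mem_biUnion.2 ⟨0, Finset.mem_range.2 (by omega), h0⟩

private theorem msq_cf (n : ℕ) (B : ℕ → Finset ℕ) (f : ℕ → ℕ → ℝ) (k : ℕ → ℕ) :
    cf n B f k ^ 2 ≤ cf n B (fun i r => f i r ^ 2) k := by
  unfold cf
  rw [← Finset.prod_pow]
  refine Finset.prod_le_prod (fun i _ => sq_nonneg _) fun i _ => ?_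
  rw [mul_pow, ← Finset.prod_pow]
  refine mul_le_mul_of_nonneg_left ?_ (sq_nonneg _)
  refine Finset.prod_le_prod (fun p _ => sq_nonneg _) fun p _ => ?_
  have h1 : (1 : ℝ) ≤ ((k p).factorial : ℝ) := by exact_mod_cast (k p).factorial_pos
  have h2 : (((k p).factorial : ℝ))⁻¹ ≤ 1 := inv_le_one_of_one_le₀ h1
  have h3 : (0 : ℝ) ≤ (((k p).factorial : ℝ))⁻¹ := by positivity
  nlinarith

/-- Mean square of a block product. -/
theorem pMsq (hExd : S_Exd) : S_Msq := by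
  obtain ⟨C, hC, hmv⟩ := mean_value
  refine ⟨C, hC, ?_⟩
  intro T Y n B R f hT hB hY
  obtain ⟨hBp, hBd⟩ := hB
  obtain ⟨hE1, -⟩ := hExd n B R f hBd
  obtain ⟨-, hE2⟩ := hExd n B R (fun i r => f i r ^ 2) hBd
  have hprime : ∀ p ∈ (range n).biUnion B, p.Prime := by
    intro p hp
    obtain ⟨i, hi, hpi⟩ := Finset.mem_biUnion.1 hp
    exact hBp i hi p hpi
  obtain ⟨hinj, -, -, -, -, hf⟩ := S1.pNn ((range n).biUnion B) hprime (∑ i ∈ range n, R i)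
  have hsub : ∀ k ∈ VK n B R, k ∈ KK ((range n).biUnion B) (∑ i ∈ range n, R i) := by
    intro k hk
    unfold VK at hk
    exact (Finset.mem_filter.1 hk).1
  have hpos : ∀ k : ℕ → ℕ, 0 < nQ n B k := by
    intro k
    unfold nQ nn
    exact Finset.prod_pos fun p hp => pow_pos (hprime p hp).pos _
  have hY0 : (0 : ℝ) ≤ Y := (Nat.cast_nonneg _).trans (hY 0 (msq_zero n B R))
  set a : (ℕ → ℕ) → ℂ := fun k => (cf n B f k : ℂ) * (((nQ n B k : ℝ) ^ (-(1 / 2) : ℝ) : ℝ) : ℂ)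
    with ha
  have hexp : ∀ t : ℝ, MB n B R f (fun p => pw (1 / 2) p t) =
      ∑ k ∈ VK n B R, a k * (nQ n B k : ℂ) ^ (-((t : ℂ) * I)) := by
    intro t
    rw [hE1]
    refine Finset.sum_congr rfl fun k _ => ?_
    rw [← hf (1 / 2) t k, ha]
    have h1 := msq_pw (1 / 2) t (hpos k).ne'
    unfold nQ at h1
    rw [h1]
    unfold nQ
    ring
  obtain ⟨A, hA⟩ := msq_reindex (VK n B R) (nQ n B)
    (fun k hk l hl h => hinj k (hsub k hk) l (hsub l hl) h) ⌊Y⌋₊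
    (fun k hk => Finset.mem_Icc.2 ⟨hpos k, Nat.le_floor (hY k hk)⟩) a
  have hint : ∫ t in T..(2 * T), ‖MB n B R f (fun p => pw (1 / 2) p t)‖ ^ 2 =
      ∫ t in T..(T + T), ‖∑ m ∈ Icc 1 ⌊Y⌋₊, A m * (m : ℂ) ^ (-((t : ℂ) * I))‖ ^ 2 := by
    rw [two_mul]
    congr 1
    funext t
    rw [hexp t, hA (fun m w => w * (m : ℂ) ^ (-((t : ℂ) * I))) (fun m => zero_mul _)]
  rw [hint]
  refine (hmv T T hT ⌊Y⌋₊ A).trans ?_
  have hsum : ∑ m ∈ Icc 1 ⌊Y⌋₊, ‖A m‖ ^ 2 = ∑ k ∈ VK n B R, ‖a k‖ ^ 2 :=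
    hA (fun _ w => ‖w‖ ^ 2) (fun _ => by simp)
  rw [hsum]
  have hterm : ∀ k : ℕ → ℕ, ‖a k‖ ^ 2 ≤ cf n B (fun i r => f i r ^ 2) k *
      ∏ p ∈ (range n).biUnion B, ((p : ℝ)⁻¹) ^ k p := by
    intro k
    have h1 : ∏ p ∈ (range n).biUnion B, ((p : ℝ)⁻¹) ^ k p = ((nQ n B k : ℝ))⁻¹ := by
      unfold nQ nn
      push_cast
      rw [← Finset.prod_inv_distrib]
      exact Finset.prod_congr rfl fun p _ => inv_pow _ _
    have h2 : (0 : ℝ) < nQ n B k := by exact_mod_cast hpos k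
    have h3 : ((nQ n B k : ℝ) ^ (-(1 / 2) : ℝ)) ^ 2 = ((nQ n B k : ℝ))⁻¹ := by
      rw [← Real.rpow_natCast, ← Real.rpow_mul h2.le]
      norm_num
      exact Real.rpow_neg_one _
    rw [h1, ha]
    simp only []
    rw [norm_mul, Complex.norm_real, Complex.norm_real, mul_pow, Real.norm_eq_abs,
      Real.norm_eq_abs, sq_abs, sq_abs, h3]
    exact mul_le_mul_of_nonneg_right (msq_cf n B f k) (by positivity)
  have hsq : ∑ k ∈ VK n B R, ‖a k‖ ^ 2 ≤ ∏ i ∈ range n, ∑ r ∈ range (R i + 1),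
      f i r ^ 2 * (∑ p ∈ B i, (p : ℝ)⁻¹) ^ r / (r.factorial : ℝ) := by
    refine (Finset.sum_le_sum fun k _ => hterm k).trans ?_
    rw [← hE2]
    refine le_of_eq (Finset.prod_congr rfl fun i _ => Finset.sum_congr rfl fun r _ => ?_)
    ring
  have hfl : ((⌊Y⌋₊ : ℕ) : ℝ) ≤ Y := Nat.floor_le hY0
  have h5 : 0 ≤ ∑ k ∈ VK n B R, ‖a k‖ ^ 2 := Finset.sum_nonneg fun k _ => sq_nonneg _
  exact mul_le_mul (mul_le_mul_of_nonneg_left (by linarith) hC.le) hsq h5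
    (mul_nonneg hC.le (by linarith))

end Pool.Agent.Lib.MP_aa9ae4_nt.L1
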