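import Mathlib
import Pool.Agent.Lib.MP_aa9ae4_nt.L1.SpecB
import Pool.Agent.Lib.MP_9f2731_nt.BT.Mert

/-!
MP_aa9ae4_nt, Theorem L: Mertens' second theorem.
-/

namespace Pool.Agent.Lib.MP_aa9ae4_nt.L1

open Finset MeasureTheory Filter Topology
open Complex (I)
open Pool.Agent.Lib.MP_aa9ae4_nt.S1 (tail prs)
open Pool.Agent.Lib.MP_9f2731_nt.BT (mert_A_ge mert_lower)

private lemma mt_step (x : ℕ) (hx : 2 ≤ x) :
    (1 / (x : ℝ)) * (Real.log (Real.log (x + 1 : ℕ)) - Real.log (Real.log x)) ≤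
      3 * (1 / (x : ℝ) - 1 / ((x + 1 : ℕ) : ℝ)) := by
  have hx2 : (2 : ℝ) ≤ x := by exact_mod_cast hx
  have hx0 : (0 : ℝ) < x := by linarith
  have hl2 : (1 : ℝ) / 2 ≤ Real.log x := by
    have h1 : Real.log 2 ≤ Real.log x := Real.log_le_log (by norm_num) hx2
    have h2 := Real.log_two_gt_d9
    linarith
  have hl : 0 < Real.log x := by linarith
  have hl1 : 0 < Real.log ((x + 1 : ℕ) : ℝ) := Real.log_pos (by push_cast; linarith)
  have h1 : Real.log (Real.log (x + 1 : ℕ)) - Real.log (Real.log x) ≤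
      Real.log ((x + 1 : ℕ) : ℝ) / Real.log x - 1 := by
    have h3 := Real.log_le_sub_one_of_pos (div_pos hl1 hl)
    rwa [Real.log_div hl1.ne' hl.ne'] at h3
  have h2 : Real.log ((x + 1 : ℕ) : ℝ) - Real.log x ≤ 1 / x := by
    rw [← Real.log_div (by positivity) (by positivity)]
    have h3 := Real.log_le_sub_one_of_pos
      (show 0 < ((x + 1 : ℕ) : ℝ) / x by positivity)
    refine h3.trans (le_of_eq ?_)
    push_cast
    field_simp
    ring
  have h3 : Real.log ((x + 1 : ℕ) : ℝ) / Real.log x - 1 ≤ 2 / x := by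
    rw [div_sub_one hl.ne', div_le_iff₀ hl]
    calc Real.log ((x + 1 : ℕ) : ℝ) - Real.log x ≤ 1 / x := h2
      _ = 2 / x * (1 / 2) := by ring
      _ ≤ 2 / x * Real.log x := mul_le_mul_of_nonneg_left hl2 (by positivity)
  have h4 : (1 / (x : ℝ)) * (Real.log (Real.log (x + 1 : ℕ)) - Real.log (Real.log x)) ≤
      1 / x * (2 / x) := mul_le_mul_of_nonneg_left (h1.trans h3) (by positivity)
  refine h4.trans ?_
  have h5 : 3 * (1 / (x : ℝ) - 1 / ((x + 1 : ℕ) : ℝ)) = 3 / (x * (x + 1)) := by
    push_cast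
    field_simp
    ring
  rw [h5, div_mul_div_comm, div_le_div_iff₀ (by positivity) (by positivity)]
  nlinarith

private lemma mt_lower (c : ℝ) (hc : ∀ n : ℕ, 1 ≤ n → Real.log n - c ≤ mertensA n) (N : ℕ)
    (hN : 2 ≤ N) :
    Real.log (Real.log N) - Real.log (Real.log (2 : ℕ)) -
        c * (1 / Real.log (2 : ℕ) - 1 / Real.log N) - 3 * (1 / ((2 : ℕ) : ℝ) - 1 / N) ≤
      (mertensS N - mertensA N / Real.log N) - (mertensS 2 - mertensA 2 / Real.log (2 : ℕ)) := by
  induction N, hN using Nat.le_induction with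
  | base => simp
  | succ x hx ih =>
    have h1 := mert_lower c hc x hx (x + 1) (Nat.le_succ x)
    have h2 := mt_step x hx
    have h3 : (1 - 1 / (x : ℝ)) * (Real.log (Real.log (x + 1 : ℕ)) - Real.log (Real.log x)) =
      (Real.log (Real.log (x + 1 : ℕ)) - Real.log (Real.log x)) -
        (1 / (x : ℝ)) * (Real.log (Real.log (x + 1 : ℕ)) - Real.log (Real.log x)) := by ring
    rw [h3] at h1
    linarith

private lemma mt_tail (x : ℕ) : tail 1 0 x = mertensS x := by
  unfold tail mertensS prs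
  refine Finset.sum_congr ?_ fun p _ => ?_
  · ext p
    simp only [Finset.mem_filter, Finset.mem_Icc, Finset.mem_Ioc]
    constructor
    · rintro ⟨⟨h1, h2⟩, h3⟩; exact ⟨⟨by omega, h2⟩, h3⟩
    · rintro ⟨⟨h1, h2⟩, h3⟩; exact ⟨⟨by omega, h2⟩, h3⟩
  · rw [Real.rpow_neg_one, one_div]

theorem pMt : S_Mt := by
  obtain ⟨c, hc0, hc⟩ := mert_A_ge
  set F : ℝ := mertensS 2 - mertensA 2 / Real.log (2 : ℕ) with hF
  set l2 : ℝ := Real.log (2 : ℕ) with hl2
  have hl20 : 0 < l2 := Real.log_pos (by norm_num)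
  refine ⟨4 * (|Real.log l2| + c / l2 + |F| + 5), ?_, fun x hx => ?_⟩
  · have h1 := abs_nonneg (Real.log l2)
    have h2 := abs_nonneg F
    have h3 : 0 ≤ c / l2 := by positivity
    linarith
  · rw [mt_tail]
    have hx2 : (2 : ℝ) ≤ x := by exact_mod_cast hx
    have hl : 0 < Real.log x := Real.log_pos (by linarith)
    have h1 := mertens_main x hx
    have h2 := mertensA_le x (by omega)
    have h3 := mt_lower c hc x hx
    rw [← hl2, ← hF] at h3
    have h4 := hc x (by omega)
    have h5 : mertensA x / Real.log x ≤ 1 + Real.log 4 / Real.log x := by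
      rw [div_le_iff₀ hl]
      have : (1 + Real.log 4 / Real.log x) * Real.log x = Real.log x + Real.log 4 := by
        field_simp
      linarith
    have h6 : 1 - c / Real.log x ≤ mertensA x / Real.log x := by
      rw [le_div_iff₀ hl]
      have : (1 - c / Real.log x) * Real.log x = Real.log x - c := by
        field_simp
      linarith
    have h7 : Real.log 4 = 2 * l2 := by
      rw [hl2, show (4 : ℝ) = ((2 : ℕ) : ℝ) ^ 2 by norm_num, Real.log_pow]
      norm_num
    have h8 : Real.log 4 * (1 / Real.log 2 - 1 / Real.log x) = 2 - Real.log 4 / Real.log x := by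
      have h9 : Real.log 4 / Real.log 2 = 2 := by
        rw [h7, hl2]
        have h10 : Real.log ((2 : ℕ) : ℝ) = Real.log 2 := by norm_num
        rw [h10, div_eq_iff (Real.log_pos (by norm_num)).ne']
      rw [mul_sub, mul_one_div, mul_one_div, h9]
    have h9 : Real.log (Real.log 2) = Real.log l2 := by
      rw [hl2]; norm_num
    rw [h8, h9] at h1
    have h10 : c * (1 / l2 - 1 / Real.log x) = c / l2 - c / Real.log x := by ring
    rw [h10] at h3
    have h11 : 0 ≤ 1 / (x : ℝ) := by positivity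
    have h12 : 1 / ((2 : ℕ) : ℝ) = 1 / 2 := by norm_num
    rw [h12] at h3
    have h13 := neg_abs_le (Real.log l2)
    have h14 := le_abs_self (Real.log l2)
    have h15 := neg_abs_le F
    have h16 := le_abs_self F
    have h17 : 0 ≤ c / l2 := by positivity
    rw [abs_le]
    constructor <;> linarith

end Pool.Agent.Lib.MP_aa9ae4_nt.L1
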