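import Mathlib
import Pool.Agent.Lib.MP_aa9ae4_nt.L1.SpecB
import Pool.Agent.Lib.MP_aa9ae4_nt.S1.PTay

/-!
MP_aa9ae4_nt, Theorem L: the pointwise inequality in one block (`S_Pnt`).
-/

namespace Pool.Agent.Lib.MP_aa9ae4_nt.L1

open Finset MeasureTheory Filter Topology
open Complex (I)
open Pool.Agent.Lib.MP_aa9ae4_nt.S1 (expJ pTay)

private theorem pnt_tay (K : ℕ) (y : ℂ) (hy : ‖y‖ ≤ (K : ℝ) / 20) :
    ‖expJ K y‖ ≤ Real.exp y.re * (1 + Real.exp (-(19 / 20 * (K : ℝ)))) ∧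
    Real.exp y.re * (1 - Real.exp (-(19 / 20 * (K : ℝ)))) ≤ ‖expJ K y‖ := by
  have hK : (0 : ℝ) ≤ K := Nat.cast_nonneg K
  have h1 : ‖Complex.exp y - expJ K y‖ ≤ Real.exp (-(K : ℝ)) := pTay K y (by linarith)
  have h2 : ‖Complex.exp y‖ = Real.exp y.re := Complex.norm_exp y
  have h3 : -((K : ℝ) / 20) ≤ y.re := by
    have := Complex.abs_re_le_norm y
    have := neg_abs_le y.re
    linarith
  have h4 : Real.exp (-(K : ℝ)) ≤ Real.exp y.re * Real.exp (-(19 / 20 * (K : ℝ))) := by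
    rw [← Real.exp_add]
    exact Real.exp_le_exp.2 (by linarith)
  have h5 : ‖expJ K y‖ ≤ ‖Complex.exp y‖ + ‖Complex.exp y - expJ K y‖ := by
    have : expJ K y = Complex.exp y - (Complex.exp y - expJ K y) := by ring
    calc ‖expJ K y‖ = ‖Complex.exp y - (Complex.exp y - expJ K y)‖ := by rw [← this]
      _ ≤ _ := norm_sub_le _ _
  have h6 : ‖Complex.exp y‖ ≤ ‖expJ K y‖ + ‖Complex.exp y - expJ K y‖ := by
    calc ‖Complex.exp y‖ = ‖expJ K y + (Complex.exp y - expJ K y)‖ := by ring_nf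
      _ ≤ _ := norm_add_le _ _
  constructor
  · rw [mul_add, mul_one]
    linarith
  · rw [mul_sub, mul_one]
    linarith

private theorem pnt_triv (K : ℕ) (hK : 1 ≤ K) (u : ℝ) (hu : 1 ≤ 20 * u) (y : ℂ)
    (hy : ‖y‖ ≤ u * K) : ‖expJ K y‖ ≤ (120 * u) ^ K := by
  have hu0 : 0 < u := by linarith
  have hK0 : (0 : ℝ) < K := by exact_mod_cast hK
  have h1 : ‖expJ K y‖ ≤ ∑ j ∈ range (K + 1), ‖y‖ ^ j / (j.factorial : ℝ) := by
    unfold expJ
    refine (norm_sum_le _ _).trans (Finset.sum_le_sum fun j _ => ?_)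
    rw [norm_div, norm_pow, Complex.norm_natCast]
  have h2 : ∀ j ∈ range (K + 1), ‖y‖ ^ j / (j.factorial : ℝ) ≤ (20 * u) ^ K * Real.exp K := by
    intro j hj
    have hjK : j ≤ K := by
      have := Finset.mem_range.1 hj
      omega
    have h3 : ‖y‖ ^ j ≤ (u * K) ^ j := pow_le_pow_left₀ (norm_nonneg _) hy _
    have h4 : (K : ℝ) ^ j / (j.factorial : ℝ) ≤ Real.exp K :=
      Real.pow_div_factorial_le_exp _ hK0.le _
    have h5 : u ^ j ≤ (20 * u) ^ K :=
      (pow_le_pow_left₀ hu0.le (by linarith) _).trans (pow_le_pow_right₀ hu hjK)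
    calc ‖y‖ ^ j / (j.factorial : ℝ) ≤ (u * K) ^ j / (j.factorial : ℝ) := by gcongr
      _ = u ^ j * ((K : ℝ) ^ j / (j.factorial : ℝ)) := by rw [mul_pow, mul_div_assoc]
      _ ≤ (20 * u) ^ K * Real.exp K := by
          gcongr
  have h3 : ∑ j ∈ range (K + 1), ‖y‖ ^ j / (j.factorial : ℝ) ≤
      ((K : ℝ) + 1) * ((20 * u) ^ K * Real.exp K) := by
    refine (Finset.sum_le_sum h2).trans ?_
    rw [Finset.sum_const, Finset.card_range, nsmul_eq_mul]
    push_cast
    rfl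
  have h4 : (K : ℝ) + 1 ≤ 2 ^ K := by
    have : K + 1 ≤ 2 ^ K := Nat.lt_two_pow_self
    exact_mod_cast this
  have h5 : Real.exp K = Real.exp 1 ^ K := by
    rw [← Real.exp_nat_mul, mul_one]
  have h6 : Real.exp 1 < 3 := Real.exp_one_lt_three
  have h7 : (0 : ℝ) ≤ (20 * u) ^ K * Real.exp K := by positivity
  calc ‖expJ K y‖ ≤ ((K : ℝ) + 1) * ((20 * u) ^ K * Real.exp K) := h1.trans h3
    _ ≤ 2 ^ K * ((20 * u) ^ K * Real.exp K) := mul_le_mul_of_nonneg_right h4 h7
    _ = (2 * (20 * u) * Real.exp 1) ^ K := by rw [h5, ← mul_pow, ← mul_pow]; ring_nf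
    _ ≤ (120 * u) ^ K := by
        refine pow_le_pow_left₀ (by positivity) ?_ _
        nlinarith

theorem pPnt : S_Pnt := by
  intro k A1 A2 m hk hA1 hA2 hA hAm
  refine ⟨10 * (m + 1), fun K hK0 hK x => ?_⟩
  have hKpos : (0 : ℝ) < K := by exact_mod_cast hK
  have hm0 : (0 : ℝ) ≤ m := Nat.cast_nonneg m
  have hKm : 10 * ((m : ℝ) + 1) ≤ K := by exact_mod_cast hK0
  have hsq : (0 : ℝ) ≤ (1 + Real.exp (-(K : ℝ) / 2)) * ‖expJ K ((k : ℂ) * x)‖ ^ 2 := by
    positivity
  have hck : 0 ≤ ck k * ‖x‖ / K := by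
    unfold ck
    positivity
  have hnk : ‖((k : ℂ) * x)‖ = k * ‖x‖ := by
    rw [norm_mul, Complex.norm_real, Real.norm_eq_abs, abs_of_pos hk]
  have hnk1 : ‖(((k - 1 : ℝ) : ℂ) * x)‖ ≤ (k + 1) * ‖x‖ := by
    rw [norm_mul, Complex.norm_real, Real.norm_eq_abs]
    refine mul_le_mul_of_nonneg_right ?_ (norm_nonneg _)
    rw [abs_le]
    constructor <;> linarith
  have hx0 : 0 ≤ ‖x‖ := norm_nonneg x
  by_cases hx : ‖x‖ ≤ K / (20 * (k + 1))
  · -- case 1
    have hx1 : (k + 1) * ‖x‖ ≤ K / 20 := by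
      rw [le_div_iff₀ (by positivity)] at hx
      linarith
    set δ := Real.exp (-(19 / 20 * (K : ℝ))) with hδ
    set ε := Real.exp (-(K : ℝ) / 2) with hε
    have hδ0 : 0 < δ := Real.exp_pos _
    have hε0 : 0 < ε := Real.exp_pos _
    have hε1 : ε ≤ 1 := by
      rw [hε, Real.exp_le_one_iff]
      linarith
    have hδε : (4 * (m : ℝ) + 4) * δ ≤ ε := by
      have h1 : ε = Real.exp (9 / 20 * K) * δ := by
        rw [hε, hδ, ← Real.exp_add]
        congr 1
        ring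
      have h2 : 9 / 20 * (K : ℝ) + 1 ≤ Real.exp (9 / 20 * K) := Real.add_one_le_exp _
      rw [h1]
      refine mul_le_mul_of_nonneg_right ?_ hδ0.le
      linarith
    have hδ1 : δ ≤ 1 / 4 := by nlinarith
    obtain ⟨u1, -⟩ := pnt_tay K (((k - 1 : ℝ) : ℂ) * x) (by linarith)
    obtain ⟨u2, l2⟩ := pnt_tay K ((k : ℂ) * x) (by rw [hnk]; nlinarith)
    rw [← hδ] at u1 u2 l2
    have hre1 : (((k - 1 : ℝ) : ℂ) * x).re = (k - 1) * x.re := Complex.re_ofReal_mul _ _
    have hre2 : ((k : ℂ) * x).re = k * x.re := Complex.re_ofReal_mul _ _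
    rw [hre1] at u1
    rw [hre2] at u2 l2
    have hb0 : (0 : ℝ) < 1 + δ := by linarith
    have hL : ‖expJ K (((k - 1 : ℝ) : ℂ) * x)‖ ^ A1 * ‖expJ K ((k : ℂ) * x)‖ ^ A2 ≤
        Real.exp (2 * k * x.re) * (1 + δ) ^ (A1 + A2) := by
      calc ‖expJ K (((k - 1 : ℝ) : ℂ) * x)‖ ^ A1 * ‖expJ K ((k : ℂ) * x)‖ ^ A2
          ≤ (Real.exp ((k - 1) * x.re) * (1 + δ)) ^ A1 * (Real.exp (k * x.re) * (1 + δ)) ^ A2 := by
            gcongr
        _ = (Real.exp ((k - 1) * x.re * A1) * Real.exp (k * x.re * A2)) *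
            ((1 + δ) ^ A1 * (1 + δ) ^ A2) := by
            rw [Real.mul_rpow (Real.exp_pos _).le hb0.le, Real.mul_rpow (Real.exp_pos _).le hb0.le,
              ← Real.exp_mul, ← Real.exp_mul]
            ring
        _ = Real.exp (2 * k * x.re) * (1 + δ) ^ (A1 + A2) := by
            rw [← Real.exp_add, ← Real.rpow_add hb0]
            congr 2
            linear_combination x.re * hA
    have hP : (1 + δ) ^ (A1 + A2) ≤ 1 + 4 * m * δ := by
      have h1 : (1 + δ) ^ (A1 + A2) ≤ (1 + δ) ^ (2 * (m : ℝ)) :=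
        Real.rpow_le_rpow_of_exponent_le (by linarith) hAm
      have h2 : (1 + δ) ^ (2 * (m : ℝ)) ≤ Real.exp (2 * m * δ) := by
        have h3 : 1 + δ ≤ Real.exp δ := by
          have := Real.add_one_le_exp δ
          linarith
        calc (1 + δ) ^ (2 * (m : ℝ)) ≤ (Real.exp δ) ^ (2 * (m : ℝ)) :=
              Real.rpow_le_rpow hb0.le h3 (by positivity)
          _ = Real.exp (2 * m * δ) := by
              rw [← Real.exp_mul]
              congr 1
              ring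
      have h3 : 2 * m * δ ≤ 1 := by nlinarith
      have h4 : Real.exp (2 * m * δ) ≤ 1 + 2 * (2 * m * δ) := by
        have h5 : 0 ≤ 2 * m * δ := by positivity
        have h6 := Real.abs_exp_sub_one_le (x := 2 * m * δ) (by rw [abs_of_nonneg h5]; exact h3)
        rw [abs_of_nonneg h5] at h6
        have := (abs_le.1 h6).2
        linarith
      linarith
    have hR : Real.exp (2 * k * x.re) * (1 - 2 * δ) ≤ ‖expJ K ((k : ℂ) * x)‖ ^ 2 := by
      have h1 : 0 ≤ Real.exp (k * x.re) * (1 - δ) := by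
        have := Real.exp_pos (k * x.re)
        have : 0 ≤ 1 - δ := by linarith
        positivity
      calc Real.exp (2 * k * x.re) * (1 - 2 * δ)
          ≤ Real.exp (2 * k * x.re) * (1 - δ) ^ 2 := by
            have := Real.exp_pos (2 * k * x.re)
            refine mul_le_mul_of_nonneg_left ?_ this.le
            nlinarith
        _ = (Real.exp (k * x.re) * (1 - δ)) ^ 2 := by
            rw [mul_pow, ← Real.exp_nat_mul]
            congr 2
            push_cast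
            ring
        _ ≤ _ := pow_le_pow_left₀ h1 l2 2
    have hfin : Real.exp (2 * k * x.re) * (1 + δ) ^ (A1 + A2) ≤
        (1 + ε) * ‖expJ K ((k : ℂ) * x)‖ ^ 2 := by
      calc Real.exp (2 * k * x.re) * (1 + δ) ^ (A1 + A2)
          ≤ Real.exp (2 * k * x.re) * (1 + 4 * m * δ) :=
            mul_le_mul_of_nonneg_left hP (Real.exp_pos _).le
        _ ≤ Real.exp (2 * k * x.re) * ((1 + ε) * (1 - 2 * δ)) := by
            refine mul_le_mul_of_nonneg_left ?_ (Real.exp_pos _).le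
            nlinarith
        _ = (1 + ε) * (Real.exp (2 * k * x.re) * (1 - 2 * δ)) := by ring
        _ ≤ _ := mul_le_mul_of_nonneg_left hR (by positivity)
    have hpow : (0 : ℝ) ≤ (ck k * ‖x‖ / K) ^ (2 * (m * K)) := pow_nonneg hck _
    linarith
  · -- case 2
    rw [not_le] at hx
    have hk1 : 0 < k + 1 := by linarith
    set u := (k + 1) * ‖x‖ / K with hu
    have hu1 : 1 ≤ 20 * u := by
      rw [div_lt_iff₀ (by positivity)] at hx
      rw [hu, mul_div_assoc', le_div_iff₀ hKpos]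
      linarith
    have huK : u * K = (k + 1) * ‖x‖ := by
      rw [hu]
      field_simp
    have e1 := pnt_triv K hK u hu1 (((k - 1 : ℝ) : ℂ) * x) (by rw [huK]; exact hnk1)
    have e2 := pnt_triv K hK u hu1 ((k : ℂ) * x) (by rw [huK, hnk]; nlinarith)
    have hU : 1 ≤ 120 * u := by linarith
    have hcu : ck k * ‖x‖ / K = 120 * u := by
      unfold ck
      rw [hu]
      ring
    have hlast : ‖expJ K (((k - 1 : ℝ) : ℂ) * x)‖ ^ A1 * ‖expJ K ((k : ℂ) * x)‖ ^ A2 ≤
        (ck k * ‖x‖ / K) ^ (2 * (m * K)) := by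
      calc ‖expJ K (((k - 1 : ℝ) : ℂ) * x)‖ ^ A1 * ‖expJ K ((k : ℂ) * x)‖ ^ A2
          ≤ ((120 * u) ^ K) ^ A1 * ((120 * u) ^ K) ^ A2 := by
            gcongr
        _ = ((120 * u) ^ K) ^ (A1 + A2) := by
            rw [← Real.rpow_add (by positivity)]
        _ ≤ ((120 * u) ^ K) ^ (2 * (m : ℝ)) :=
            Real.rpow_le_rpow_of_exponent_le (one_le_pow₀ hU) hAm
        _ = (120 * u) ^ (2 * (m * K)) := by
            have h1 : (2 * (m : ℝ)) = ((2 * m : ℕ) : ℝ) := by push_cast; ring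
            rw [h1, Real.rpow_natCast, ← pow_mul]
            congr 1
            ring
        _ = _ := by rw [hcu]
    linarith

end Pool.Agent.Lib.MP_aa9ae4_nt.L1
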