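import Mathlib
import Pool.Agent.Lib.MP_aa9ae4_nt.L1.SpecB
import Pool.Agent.Lib.MP_aa9ae4_nt.S1.PMn
import Pool.Agent.Lib.MP_aa9ae4_nt.S1.PSz

/-!
MP_aa9ae4_nt, Theorem L: twisted means of `|A_S|^2`.
-/

namespace Pool.Agent.Lib.MP_aa9ae4_nt.L1

open Finset MeasureTheory Filter Topology
open Complex (I)
open Pool.Agent.Lib.MP_aa9ae4_nt.S1 (pw psumS eulS tail prs nn KK expJ HT fzS y1 pMn pSz)

/-! ### the function `Phi` as a product -/

private noncomputable def psl_f (n : ℕ) (B : ℕ → Finset ℕ) (b : ℕ → ℝ) (r : ℕ → ℕ) : ℝ :=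
  (∏ i ∈ range n, (b i ^ (∑ p ∈ B i, r p) * ∏ p ∈ B i, ((r p).factorial : ℝ)⁻¹)) *
    (√(nQ n B r : ℝ))⁻¹

private lemma psl_Phi (n : ℕ) (B : ℕ → Finset ℕ) (b : ℕ → ℝ) (r s : ℕ → ℕ) :
    Phi n B b r s = psl_f n B b r * psl_f n B b s := by
  unfold Phi psl_f
  rw [Real.sqrt_mul (Nat.cast_nonneg _), mul_inv]
  have h1 : ∀ i ∈ range n, b i ^ (∑ p ∈ B i, r p + ∑ p ∈ B i, s p) *
      ∏ p ∈ B i, (((r p).factorial : ℝ) * ((s p).factorial : ℝ))⁻¹ =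
      (b i ^ (∑ p ∈ B i, r p) * ∏ p ∈ B i, ((r p).factorial : ℝ)⁻¹) *
      (b i ^ (∑ p ∈ B i, s p) * ∏ p ∈ B i, ((s p).factorial : ℝ)⁻¹) := by
    intro i _
    have h2 : ∏ p ∈ B i, (((r p).factorial : ℝ) * ((s p).factorial : ℝ))⁻¹ =
        (∏ p ∈ B i, ((r p).factorial : ℝ)⁻¹) * ∏ p ∈ B i, ((s p).factorial : ℝ)⁻¹ := by
      rw [← Finset.prod_mul_distrib]
      exact Finset.prod_congr rfl fun p _ => by rw [mul_inv]
    rw [h2, pow_add]
    ring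
  rw [Finset.prod_congr rfl h1, Finset.prod_mul_distrib]
  ring

private lemma psl_beta (n : ℕ) (B : ℕ → Finset ℕ) (b : ℕ → ℝ)
    (hB : ∀ i ∈ range n, ∀ j ∈ range n, i ≠ j → Disjoint (B i) (B j))
    (hb : ∀ i ∈ range n, 0 ≤ b i) :
    ∃ β : ℕ → ℝ, (∀ p, 0 ≤ β p) ∧ ∀ i ∈ range n, ∀ p ∈ B i, β p = b i := by
  classical
  refine ⟨fun p => if h : ∃ i ∈ range n, p ∈ B i then b h.choose else 0, fun p => ?_,
    fun i hi p hp => ?_⟩
  · by_cases h : ∃ i ∈ range n, p ∈ B i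
    · simp only [dif_pos h]
      exact hb _ h.choose_spec.1
    · simp only [dif_neg h]
      exact le_refl _
  · have h : ∃ i ∈ range n, p ∈ B i := ⟨i, hi, hp⟩
    simp only [dif_pos h]
    have h1 := h.choose_spec
    by_contra hne
    have h2 : h.choose ≠ i := fun h3 => hne (by rw [h3])
    exact (Finset.disjoint_left.1 (hB _ h1.1 i hi h2)) h1.2 hp

private lemma psl_pd (n : ℕ) (B : ℕ → Finset ℕ)
    (hB : ∀ i ∈ range n, ∀ j ∈ range n, i ≠ j → Disjoint (B i) (B j)) :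
    Set.PairwiseDisjoint (↑(range n)) B := fun i hi j hj hne =>
  hB i hi j hj hne

private lemma psl_sqrt (s : Finset ℕ) (r : ℕ → ℕ) :
    √((∏ p ∈ s, p ^ r p : ℕ) : ℝ) = ∏ p ∈ s, √(p : ℝ) ^ r p := by
  rw [Real.sqrt_eq_iff_mul_self_eq (Nat.cast_nonneg _)
    (Finset.prod_nonneg fun p _ => pow_nonneg (Real.sqrt_nonneg _) _), ← Finset.prod_mul_distrib]
  push_cast
  refine Finset.prod_congr rfl fun p _ => ?_
  rw [← mul_pow, Real.mul_self_sqrt (Nat.cast_nonneg _)]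

private lemma psl_f_eq (n : ℕ) (B : ℕ → Finset ℕ) (b β : ℕ → ℝ)
    (hB : ∀ i ∈ range n, ∀ j ∈ range n, i ≠ j → Disjoint (B i) (B j))
    (hβ : ∀ i ∈ range n, ∀ p ∈ B i, β p = b i) (r : ℕ → ℕ) :
    psl_f n B b r = ∏ p ∈ (range n).biUnion B,
      ((β p * (√(p : ℝ))⁻¹) ^ r p * ((r p).factorial : ℝ)⁻¹) := by
  unfold psl_f nQ nn
  rw [psl_sqrt, Finset.prod_biUnion (psl_pd n B hB), Finset.prod_biUnion (psl_pd n B hB),
    ← Finset.prod_inv_distrib, ← Finset.prod_mul_distrib]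
  refine Finset.prod_congr rfl fun i hi => ?_
  rw [← Finset.prod_pow_eq_pow_sum, ← Finset.prod_mul_distrib, ← Finset.prod_inv_distrib,
    ← Finset.prod_mul_distrib]
  refine Finset.prod_congr rfl fun p hp => ?_
  rw [hβ i hi p hp, mul_pow, inv_pow]
  ring

private lemma psl_f_nonneg (n : ℕ) (B : ℕ → Finset ℕ) (b : ℕ → ℝ) (hb : ∀ i ∈ range n, 0 ≤ b i)
    (r : ℕ → ℕ) : 0 ≤ psl_f n B b r := by
  unfold psl_f
  refine mul_nonneg (Finset.prod_nonneg fun i hi => mul_nonneg (pow_nonneg (hb i hi) _)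
    (Finset.prod_nonneg fun p _ => inv_nonneg.2 (Nat.cast_nonneg _))) (inv_nonneg.2 (Real.sqrt_nonneg _))

private lemma psl_f_pow (n : ℕ) (B : ℕ → Finset ℕ) (b β : ℕ → ℝ) (v : ℝ) (hv : 1 ≤ v)
    (hB : ∀ i ∈ range n, ∀ j ∈ range n, i ≠ j → Disjoint (B i) (B j))
    (hβ0 : ∀ p, 0 ≤ β p) (hβ : ∀ i ∈ range n, ∀ p ∈ B i, β p = b i) (r : ℕ → ℕ) :
    psl_f n B b r ^ v ≤ ∏ p ∈ (range n).biUnion B,
      (((β p * (√(p : ℝ))⁻¹) ^ v) ^ r p / ((r p).factorial : ℝ)) := by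
  have h0 : ∀ p : ℕ, 0 ≤ β p * (√(p : ℝ))⁻¹ := fun p =>
    mul_nonneg (hβ0 p) (inv_nonneg.2 (Real.sqrt_nonneg _))
  rw [psl_f_eq n B b β hB hβ r, ← Real.finsetProd_rpow _ _ (fun p _ =>
    mul_nonneg (pow_nonneg (h0 p) _) (inv_nonneg.2 (Nat.cast_nonneg _)))]
  refine Finset.prod_le_prod (fun p _ => Real.rpow_nonneg (mul_nonneg (pow_nonneg (h0 p) _)
    (inv_nonneg.2 (Nat.cast_nonneg _))) _) fun p _ => ?_
  rw [Real.mul_rpow (pow_nonneg (h0 p) _) (inv_nonneg.2 (Nat.cast_nonneg _)), div_eq_mul_inv]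
  have h1 : ((β p * (√(p : ℝ))⁻¹) ^ r p) ^ v = ((β p * (√(p : ℝ))⁻¹) ^ v) ^ r p := by
    rw [← Real.rpow_natCast, ← Real.rpow_mul (h0 p), mul_comm ((r p : ℕ) : ℝ) v,
      Real.rpow_mul (h0 p), Real.rpow_natCast]
  rw [h1]
  refine mul_le_mul_of_nonneg_left ?_ (pow_nonneg (Real.rpow_nonneg (h0 p) _) _)
  rw [Real.inv_rpow (Nat.cast_nonneg _)]
  have h2 : (1 : ℝ) ≤ ((r p).factorial : ℝ) := by exact_mod_cast Nat.factorial_pos _
  have h3 : ((r p).factorial : ℝ) ≤ ((r p).factorial : ℝ) ^ v := by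
    calc ((r p).factorial : ℝ) = ((r p).factorial : ℝ) ^ (1 : ℝ) := (Real.rpow_one _).symm
      _ ≤ _ := Real.rpow_le_rpow_of_exponent_le h2 hv
  exact inv_anti₀ (by linarith) h3

private lemma psl_sum (n : ℕ) (B : ℕ → Finset ℕ) (R : ℕ → ℕ) (b β : ℕ → ℝ) (v : ℝ) (hv : 1 ≤ v)
    (hB : ∀ i ∈ range n, ∀ j ∈ range n, i ≠ j → Disjoint (B i) (B j))
    (hb : ∀ i ∈ range n, 0 ≤ b i)
    (hβ0 : ∀ p, 0 ≤ β p) (hβ : ∀ i ∈ range n, ∀ p ∈ B i, β p = b i) :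
    ∑ r ∈ VK n B R, ∑ s ∈ VK n B R, Phi n B b r s ^ v ≤
      Real.exp (2 * ∑ p ∈ (range n).biUnion B, (β p * (√(p : ℝ))⁻¹) ^ v) := by
  have h0 : ∀ p : ℕ, 0 ≤ β p * (√(p : ℝ))⁻¹ := fun p =>
    mul_nonneg (hβ0 p) (inv_nonneg.2 (Real.sqrt_nonneg _))
  have h1 : ∑ r ∈ VK n B R, psl_f n B b r ^ v ≤
      Real.exp (∑ p ∈ (range n).biUnion B, (β p * (√(p : ℝ))⁻¹) ^ v) := by
    refine le_trans ?_ (pMn.2 ((range n).biUnion B) (fun p => (β p * (√(p : ℝ))⁻¹) ^ v)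
      (∑ i ∈ range n, R i) (fun p => Real.rpow_nonneg (h0 p) _))
    refine (Finset.sum_le_sum fun r _ => psl_f_pow n B b β v hv hB hβ0 hβ r).trans ?_
    unfold VK
    refine Finset.sum_le_sum_of_subset_of_nonneg (Finset.filter_subset _ _) fun r _ _ => ?_
    exact Finset.prod_nonneg fun p _ => div_nonneg (pow_nonneg (Real.rpow_nonneg (h0 p) _) _)
      (Nat.cast_nonneg _)
  have h2 : ∑ r ∈ VK n B R, ∑ s ∈ VK n B R, Phi n B b r s ^ v =
      (∑ r ∈ VK n B R, psl_f n B b r ^ v) * ∑ r ∈ VK n B R, psl_f n B b r ^ v := by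
    rw [Finset.sum_mul_sum]
    refine Finset.sum_congr rfl fun r _ => Finset.sum_congr rfl fun s _ => ?_
    rw [psl_Phi, Real.mul_rpow (psl_f_nonneg n B b hb r) (psl_f_nonneg n B b hb s)]
  have h3 : 0 ≤ ∑ r ∈ VK n B R, psl_f n B b r ^ v :=
    Finset.sum_nonneg fun r _ => Real.rpow_nonneg (psl_f_nonneg n B b hb r) _
  rw [h2, two_mul, Real.exp_add]
  exact mul_le_mul h1 h1 h3 (Real.exp_pos _).le

/-! ### injectivity -/

private lemma psl_inj (V : Finset (ℕ → ℕ)) (F : (ℕ → ℕ) → (ℕ → ℕ) → ℝ)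
    (hF : ∀ r ∈ V, ∀ s ∈ V, 0 ≤ F r s) (H : ℕ) (ψ : ℕ → ℕ → ℝ)
    (P : ℕ → ℕ → (ℕ → ℕ) → (ℕ → ℕ) → Prop)
    (hψ : ∀ h ∈ Icc 1 H, ∀ k ∈ Icc 1 H, ψ h k = 0 ∨
      ∃ r ∈ V, ∃ s ∈ V, P h k r s ∧ ψ h k = F r s)
    (hP : ∀ h ∈ Icc 1 H, ∀ k ∈ Icc 1 H, ∀ h' ∈ Icc 1 H, ∀ k' ∈ Icc 1 H, ∀ r s,
      P h k r s → P h' k' r s → h = h' ∧ k = k')
    (v : ℝ) (hv : 0 < v) :
    ∑ h ∈ Icc 1 H, ∑ k ∈ Icc 1 H, ψ h k ^ v ≤ ∑ r ∈ V, ∑ s ∈ V, F r s ^ v := by
  classical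
  rw [← Finset.sum_product', ← Finset.sum_product']
  set S := (Icc 1 H ×ˢ Icc 1 H).filter (fun x : ℕ × ℕ => ψ x.1 x.2 ≠ 0) with hS
  have h1 : ∑ x ∈ Icc 1 H ×ˢ Icc 1 H, ψ x.1 x.2 ^ v = ∑ x ∈ S, ψ x.1 x.2 ^ v := by
    symm
    apply Finset.sum_filter_of_ne
    intro x _ hne h0
    rw [h0, Real.zero_rpow hv.ne'] at hne
    exact hne rfl
  have h2 : ∀ x : ℕ × ℕ, x ∈ S → ∃ y : (ℕ → ℕ) × (ℕ → ℕ), y ∈ V ×ˢ V ∧
      P x.1 x.2 y.1 y.2 ∧ ψ x.1 x.2 = F y.1 y.2 := by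
    intro x hx
    rw [hS, Finset.mem_filter, Finset.mem_product] at hx
    rcases hψ x.1 hx.1.1 x.2 hx.1.2 with h0 | ⟨r, hr, s, hs, h3, h4⟩
    · exact absurd h0 hx.2
    · exact ⟨(r, s), Finset.mem_product.2 ⟨hr, hs⟩, h3, h4⟩
  choose! g hg1 hg2 hg3 using h2
  have hinj : Set.InjOn g (S : Set (ℕ × ℕ)) := by
    intro x hx y hy hxy
    have hx' := hg2 x hx
    have hy' := hg2 y hy
    rw [← hxy] at hy'
    have hxS := Finset.mem_coe.1 hx
    have hyS := Finset.mem_coe.1 hy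
    rw [hS, Finset.mem_filter, Finset.mem_product] at hxS hyS
    obtain ⟨h5, h6⟩ := hP x.1 hxS.1.1 x.2 hxS.1.2 y.1 hyS.1.1 y.2 hyS.1.2 _ _ hx' hy'
    exact Prod.ext h5 h6
  have h3 : ∑ x ∈ S, ψ x.1 x.2 ^ v = ∑ y ∈ S.image g, F y.1 y.2 ^ v := by
    rw [Finset.sum_image hinj]
    exact Finset.sum_congr rfl fun x hx => by rw [hg3 x hx]
  rw [h1, h3]
  refine Finset.sum_le_sum_of_subset_of_nonneg ?_ ?_
  · intro y hy
    obtain ⟨x, hx, rfl⟩ := Finset.mem_image.1 hy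
    exact hg1 x hx
  · intro y hy _
    rw [Finset.mem_product] at hy
    exact Real.rpow_nonneg (hF _ hy.1 _ hy.2) _

private lemma psl_sep1 (a ε X : ℝ) (H h k h' k' : ℕ) (ha : 0 < a)
    (hh : 1 ≤ h) (hhH : h ≤ H) (hk : 1 ≤ k) (hh' : 1 ≤ h')
    (hk' : 1 ≤ k') (hk'H : k' ≤ H)
    (h1 : |a * (Real.log k - Real.log h) - X| ≤ ε)
    (h2 : |a * (Real.log k' - Real.log h') - X| ≤ ε) (hsep : 2 * ε * (H : ℝ) ^ 2 < a)
    (hlt : k * h' < k' * h) : False := by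
  have hk0 : (0 : ℝ) < k := by exact_mod_cast hk
  have hh0 : (0 : ℝ) < h := by exact_mod_cast hh
  have hk'0 : (0 : ℝ) < k' := by exact_mod_cast hk'
  have hh'0 : (0 : ℝ) < h' := by exact_mod_cast hh'
  have hH0 : (0 : ℝ) < H := by exact_mod_cast (lt_of_lt_of_le hh hhH)
  have h3 : (k : ℝ) * h' + 1 ≤ k' * h := by exact_mod_cast hlt
  have h4 : (k' : ℝ) * h ≤ H ^ 2 := by
    have h5 : (k' : ℝ) ≤ H := by exact_mod_cast hk'H
    have h6 : (h : ℝ) ≤ H := by exact_mod_cast hhH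
    nlinarith
  have h5 : Real.log (k' * h) - Real.log (k * h') ≥ 1 / (H : ℝ) ^ 2 := by
    rw [← Real.log_div (by positivity) (by positivity)]
    have h6 := Real.one_sub_inv_le_log_of_pos
      (show 0 < (k' : ℝ) * h / (k * h') by positivity)
    rw [inv_div] at h6
    refine le_trans ?_ h6
    rw [one_sub_div (by positivity), div_le_div_iff₀ (by positivity) (by positivity)]
    have h7 : (1 : ℝ) ≤ k' * h - k * h' := by linarith
    have h8 : (0 : ℝ) ≤ (H : ℝ) ^ 2 := by positivity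
    nlinarith
  have h6 : Real.log (k' * h) - Real.log (k * h') =
      (Real.log k' - Real.log h') - (Real.log k - Real.log h) := by
    rw [Real.log_mul hk'0.ne' hh0.ne', Real.log_mul hk0.ne' hh'0.ne']
    ring
  rw [h6] at h5
  have h7 : a * ((Real.log k' - Real.log h') - (Real.log k - Real.log h)) ≤ 2 * ε := by
    have h8 := (abs_le.1 h1).1
    have h9 := (abs_le.1 h2).2
    linarith
  have h8 : a * (1 / (H : ℝ) ^ 2) ≤ 2 * ε := (mul_le_mul_of_nonneg_left h5 ha.le).trans h7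
  rw [mul_one_div, div_le_iff₀ (by positivity)] at h8
  linarith

private lemma psl_sep (a ε X : ℝ) (H h k h' k' : ℕ) (ha : 0 < a)
    (hh : h ∈ Icc 1 H) (hk : k ∈ Icc 1 H) (hh' : h' ∈ Icc 1 H) (hk' : k' ∈ Icc 1 H)
    (hc : Nat.Coprime h k) (hc' : Nat.Coprime h' k')
    (h1 : |a * (Real.log k - Real.log h) - X| ≤ ε)
    (h2 : |a * (Real.log k' - Real.log h') - X| ≤ ε) (hsep : 2 * ε * (H : ℝ) ^ 2 < a) :
    h = h' ∧ k = k' := by
  rw [Finset.mem_Icc] at hh hk hh' hk'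
  rcases lt_trichotomy (k * h') (k' * h) with h3 | h3 | h3
  · exact (psl_sep1 a ε X H h k h' k' ha hh.1 hh.2 hk.1 hh'.1 hk'.1 hk'.2 h1 h2 hsep h3).elim
  · have h4 : h ∣ h' := by
      have : h ∣ k * h' := by rw [h3]; exact Dvd.intro_left _ rfl
      exact hc.dvd_of_dvd_mul_left this
    have h5 : h' ∣ h := by
      have : h' ∣ k' * h := by rw [← h3]; exact Dvd.intro_left _ rfl
      exact hc'.dvd_of_dvd_mul_left this
    have h6 : h = h' := Nat.dvd_antisymm h4 h5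
    subst h6
    exact ⟨rfl, Nat.eq_of_mul_eq_mul_right (by omega) h3⟩
  · exact (psl_sep1 a ε X H h' k' h k ha hh'.1 hh'.2 hk'.1 hh.1 hk.1 hk.2 h2 h1 hsep h3).elim

/-! ### the sum over the primes -/

private lemma psl_rp (β v : ℝ) (hβ : 0 ≤ β) (p : ℕ) :
    (β * (√(p : ℝ))⁻¹) ^ v = β ^ v * (p : ℝ) ^ (-(v / 2)) := by
  have hp : (0 : ℝ) ≤ p := Nat.cast_nonneg _
  rw [Real.mul_rpow hβ (inv_nonneg.2 (Real.sqrt_nonneg _)), Real.sqrt_eq_rpow,
    ← Real.rpow_neg hp, ← Real.rpow_mul hp]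
  congr 2
  ring

private lemma psl_primes (n : ℕ) (lo' hi : ℕ → ℕ) (b β : ℕ → ℝ) (v c E : ℝ)
    (hv : 2 < v)
    (hB : ∀ i ∈ range (n + 1), ∀ j ∈ range (n + 1), i ≠ j →
      Disjoint (prs (lo' i) (hi i)) (prs (lo' j) (hi j)))
    (hβ0 : ∀ p, 0 ≤ β p)
    (hβ : ∀ i ∈ range (n + 1), ∀ p ∈ prs (lo' i) (hi i), β p = b i)
    (hb0 : ∀ i ∈ range (n + 1), 0 ≤ b i)
    (hbn : b n ≤ c) (hbi : ∀ i < n, b i ^ v ≤ E) (y : ℝ) (hy : 0 ≤ y)
    (hlo : ∀ i < n, Real.exp y ≤ (lo' i : ℝ)) :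
    ∑ p ∈ (range (n + 1)).biUnion (fun i => prs (lo' i) (hi i)), (β p * (√(p : ℝ))⁻¹) ^ v ≤
      n * (E * (Real.exp (-(v / 2 - 1) * y) / (v / 2 - 1))) + c ^ v * (v / 2 / (v / 2 - 1)) := by
  have hv2 : 1 < v / 2 := by linarith
  rw [Finset.sum_biUnion (psl_pd _ _ hB), Finset.sum_range_succ]
  have h0 : ∀ i ∈ range (n + 1), ∑ p ∈ prs (lo' i) (hi i), (β p * (√(p : ℝ))⁻¹) ^ v =
      b i ^ v * tail (v / 2) (lo' i) (hi i) := by
    intro i hi'
    unfold tail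
    rw [Finset.mul_sum]
    refine Finset.sum_congr rfl fun p hp => ?_
    rw [psl_rp _ _ (hβ0 p), hβ i hi' p hp]
  have h0t : ∀ i, 0 ≤ tail (v / 2) (lo' i) (hi i) := fun i =>
    Finset.sum_nonneg fun p _ => Real.rpow_nonneg (Nat.cast_nonneg _) _
  refine add_le_add ?_ ?_
  · have h1 : ∀ i ∈ range n, ∑ p ∈ prs (lo' i) (hi i), (β p * (√(p : ℝ))⁻¹) ^ v ≤
        E * (Real.exp (-(v / 2 - 1) * y) / (v / 2 - 1)) := by
      intro i hi'
      have hi2 := Finset.mem_range.1 hi'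
      rw [h0 i (Finset.mem_range.2 (by omega))]
      have hl := hlo i hi2
      have h1l : 1 ≤ lo' i := by
        have h3 : (1 : ℝ) ≤ Real.exp y := Real.one_le_exp hy
        exact_mod_cast h3.trans hl
      have h2 := pSz.1 (v / 2) hv2 (lo' i) (hi i) h1l
      have h3 : (lo' i : ℝ) ^ (1 - v / 2) ≤ Real.exp (-(v / 2 - 1) * y) := by
        calc (lo' i : ℝ) ^ (1 - v / 2) ≤ (Real.exp y) ^ (1 - v / 2) :=
              Real.rpow_le_rpow_of_nonpos (Real.exp_pos _) hl (by linarith)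
          _ = Real.exp (-(v / 2 - 1) * y) := by
              rw [← Real.exp_mul]
              congr 1
              ring
      have h4 : tail (v / 2) (lo' i) (hi i) ≤ Real.exp (-(v / 2 - 1) * y) / (v / 2 - 1) :=
        h2.trans (div_le_div_of_nonneg_right h3 (by linarith))
      have h5 := hbi i hi2
      have h6 : 0 ≤ b i ^ v := Real.rpow_nonneg (hb0 i (Finset.mem_range.2 (by omega))) _
      exact mul_le_mul h5 h4 (h0t i) (h6.trans h5)
    refine (Finset.sum_le_sum h1).trans ?_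
    rw [Finset.sum_const, Finset.card_range, nsmul_eq_mul]
  · rw [h0 n (Finset.mem_range.2 (by omega))]
    have h1 := pSz.2.1 (v / 2) hv2 (lo' n) (hi n)
    have h2 : b n ^ v ≤ c ^ v :=
      Real.rpow_le_rpow (hb0 n (Finset.mem_range.2 (by omega))) hbn (by linarith)
    have h3 : 0 ≤ b n ^ v := Real.rpow_nonneg (hb0 n (Finset.mem_range.2 (by omega))) _
    exact mul_le_mul h2 h1 (h0t n) (h3.trans h2)

/-! ### facts for large `T` -/

private lemma psl_ev1 (a : ℝ) (ha : 0 < a) :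
    ∀ᶠ T : ℝ in atTop, 2 * (√T)⁻¹ * (HT T : ℝ) ^ 2 < a := by
  have h1 : ∀ᶠ u : ℝ in atTop, Real.log u ^ 2 ≤ u / 8 := by
    have h2 := (Real.isLittleO_pow_log_id_atTop (n := 2)).def (show (0 : ℝ) < 1 / 8 by norm_num)
    filter_upwards [h2, eventually_ge_atTop (0 : ℝ)] with u hu hu0
    rw [Real.norm_of_nonneg (by positivity), id, Real.norm_of_nonneg hu0] at hu
    linarith
  have h2 : ∀ᶠ u : ℝ in atTop, 4 * (-Real.log (a / 2)) < u := eventually_gt_atTop _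
  filter_upwards [Real.tendsto_log_atTop.eventually h1, Real.tendsto_log_atTop.eventually h2,
    eventually_ge_atTop (1 : ℝ)] with T hT1 hT2 hT3
  have hT0 : 0 < T := by linarith
  have h3 : (HT T : ℝ) ≤ Real.exp (Real.log (Real.log T) ^ 2) := by
    unfold HT
    exact Nat.floor_le (Real.exp_pos _).le
  have h4 : (HT T : ℝ) ^ 2 ≤ Real.exp (Real.log T / 4) := by
    calc (HT T : ℝ) ^ 2 ≤ (Real.exp (Real.log (Real.log T) ^ 2)) ^ 2 := by gcongr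
      _ = Real.exp (2 * Real.log (Real.log T) ^ 2) := by
          rw [← Real.exp_nat_mul]
          norm_num
      _ ≤ Real.exp (Real.log T / 4) := Real.exp_le_exp.2 (by linarith)
  have h5 : (√T)⁻¹ = Real.exp (-(Real.log T / 2)) := by
    rw [Real.exp_neg, Real.sqrt_eq_rpow, Real.rpow_def_of_pos hT0]
    congr 2
    ring
  have h6 : Real.exp (-(Real.log T / 4)) < a / 2 := by
    rw [← Real.exp_log (show 0 < a / 2 by linarith)]
    exact Real.exp_lt_exp.2 (by linarith)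
  calc 2 * (√T)⁻¹ * (HT T : ℝ) ^ 2 ≤
      2 * Real.exp (-(Real.log T / 2)) * Real.exp (Real.log T / 4) := by
        rw [h5]
        exact mul_le_mul_of_nonneg_left h4 (by positivity)
    _ = 2 * Real.exp (-(Real.log T / 4)) := by
        rw [mul_assoc, ← Real.exp_add]
        congr 2
        ring
    _ < a := by linarith

private lemma psl_ev2 (x : ℝ) (hx : x ≤ 1 / 400) (hx0 : 0 ≤ x) :
    ∀ᶠ T : ℝ in atTop, 1 ≤ T ^ (5 * x) ∧ 2 * (T ^ (5 * x)) ^ 2 < √T ∧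
      2 * √T * (T ^ (6 * x)) ^ 2 ≤ T ^ (3 / 4 : ℝ) := by
  filter_upwards [(tendsto_rpow_atTop (show (0 : ℝ) < 22 / 100 by norm_num)).eventually_gt_atTop 2,
    eventually_ge_atTop (1 : ℝ)] with T hT1 hT2
  have hT0 : 0 < T := by linarith
  have h1 : (T ^ (5 * x)) ^ 2 = T ^ (10 * x) := by
    rw [← Real.rpow_natCast, ← Real.rpow_mul hT0.le]
    congr 1
    push_cast
    ring
  have h2 : (T ^ (6 * x)) ^ 2 = T ^ (12 * x) := by
    rw [← Real.rpow_natCast, ← Real.rpow_mul hT0.le]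
    congr 1
    push_cast
    ring
  have hp : ∀ y z : ℝ, y ≤ z → T ^ y ≤ T ^ z := fun y z h =>
    Real.rpow_le_rpow_of_exponent_le hT2 h
  have hp0 : ∀ y : ℝ, 0 < T ^ y := fun y => Real.rpow_pos_of_pos hT0 y
  refine ⟨Real.one_le_rpow hT2 (by linarith), ?_, ?_⟩
  · rw [h1, Real.sqrt_eq_rpow]
    calc 2 * T ^ (10 * x) < T ^ (22 / 100 : ℝ) * T ^ (10 * x) :=
          mul_lt_mul_of_pos_right hT1 (hp0 _)
      _ = T ^ (22 / 100 + 10 * x) := (Real.rpow_add hT0 _ _).symm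
      _ ≤ T ^ (1 / 2 : ℝ) := hp _ _ (by linarith)
  · rw [h2, Real.sqrt_eq_rpow]
    calc 2 * T ^ (1 / 2 : ℝ) * T ^ (12 * x) ≤
          T ^ (22 / 100 : ℝ) * T ^ (1 / 2 : ℝ) * T ^ (12 * x) :=
          mul_le_mul_of_nonneg_right (mul_le_mul_of_nonneg_right hT1.le (hp0 _).le) (hp0 _).le
      _ = T ^ (22 / 100 + 1 / 2 + 12 * x) := by rw [Real.rpow_add hT0, Real.rpow_add hT0]
      _ ≤ T ^ (3 / 4 : ℝ) := hp _ _ (by linarith)

private lemma psl_ev4 (c2 v : ℝ) (hc2 : 0 < c2) (hv : 2 < v) :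
    ∀ᶠ T : ℝ in atTop, 4 * Real.log (Real.log T) * ((c2 * Real.log (Real.log T)) ^ v *
      (Real.exp (-(v / 2 - 1) * √(Real.log T)) / (v / 2 - 1))) ≤ 1 := by
  have hk : 0 < v / 2 - 1 := by linarith
  set K : ℝ := 8 * (2 * c2) ^ v / (v / 2 - 1) with hK
  have hK0 : 0 < K := by positivity
  have h1 := tendsto_rpow_mul_exp_neg_mul_atTop_nhds_zero (v + 1) (v / 2 - 1) hk
  have h2 : ∀ᶠ y : ℝ in atTop, y ^ (v + 1) * Real.exp (-(v / 2 - 1) * y) < 1 / K :=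
    h1.eventually_lt_const (by positivity)
  have h3 : Tendsto (fun T : ℝ => √(Real.log T)) atTop atTop :=
    Real.tendsto_sqrt_atTop.comp Real.tendsto_log_atTop
  filter_upwards [h3.eventually h2, Real.tendsto_log_atTop.eventually_ge_atTop 1] with T hT1 hT2
  set y : ℝ := √(Real.log T) with hy
  have hy2 : y ^ 2 = Real.log T := Real.sq_sqrt (by linarith)
  have hy1 : 1 ≤ y := by
    rw [hy]
    exact Real.one_le_sqrt.2 hT2
  have hy0 : 0 < y := by linarith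
  have hl0 : 0 ≤ Real.log (Real.log T) := Real.log_nonneg hT2
  have hl1 : Real.log (Real.log T) ≤ 2 * y := by
    rw [← hy2, Real.log_pow]
    have := Real.log_le_sub_one_of_pos hy0
    push_cast
    linarith
  have h4 : (c2 * Real.log (Real.log T)) ^ v ≤ (2 * c2) ^ v * y ^ v := by
    rw [← Real.mul_rpow (by positivity) hy0.le]
    refine Real.rpow_le_rpow (by positivity) ?_ (by linarith)
    nlinarith
  have h5 : 0 ≤ Real.exp (-(v / 2 - 1) * y) / (v / 2 - 1) := by positivity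
  calc 4 * Real.log (Real.log T) * ((c2 * Real.log (Real.log T)) ^ v *
      (Real.exp (-(v / 2 - 1) * y) / (v / 2 - 1))) ≤
      4 * (2 * y) * (((2 * c2) ^ v * y ^ v) * (Real.exp (-(v / 2 - 1) * y) / (v / 2 - 1))) := by
        refine mul_le_mul (by linarith) (mul_le_mul_of_nonneg_right h4 h5) ?_ (by positivity)
        exact mul_nonneg (Real.rpow_nonneg (by positivity) _) h5
    _ = K * (y ^ (v + 1) * Real.exp (-(v / 2 - 1) * y)) := by
        rw [Real.rpow_add hy0, Real.rpow_one, hK]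
        ring
    _ ≤ K * (1 / K) := mul_le_mul_of_nonneg_left hT1.le hK0.le
    _ = 1 := by field_simp

private lemma psl_Kb (C1 : ℝ) (hC1 : 1 ≤ C1) (i : ℕ) :
    1 ≤ Kb C1 i ∧ (Kb C1 i : ℝ) ≤ C1 * Real.exp ((i : ℝ) / 2) + 1 := by
  unfold Kb
  have h1 : 0 < C1 * Real.exp ((i : ℝ) / 2) := by positivity
  exact ⟨Nat.ceil_pos.2 h1, (Nat.ceil_lt_add_one h1.le).le⟩

private lemma psl_bb (k : ℝ) (m : ℕ) (C1 C0 T : ℝ) (hk : 0 < k) (hC1 : 1 ≤ C1) (hC0 : 4 ≤ C0)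
    (hl : 1 ≤ Real.log (Real.log T))
    (hn : Real.exp ((nI T : ℝ) / 2) ≤ 2 * Real.log (Real.log T)) :
    (∀ i, 0 < Vu C0 T i) ∧ (∀ i, 0 ≤ bb k m C1 C0 T i) ∧
    (∀ i < nI T, bb k m C1 C0 T i ≤ (1 + k + m * (2 * C1 + 1)) * Real.log (Real.log T)) ∧
    bb k m C1 C0 T (nI T) ≤ 1 + k + m * (2 * C1 + 1) := by
  have hV : ∀ i, 0 < Vu C0 T i := by
    intro i
    unfold Vu
    split_ifs
    · linarith
    · nlinarith
  have hm : (0 : ℝ) ≤ m := Nat.cast_nonneg _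
  have hK : ∀ i ≤ nI T, ((m * Kb C1 i : ℕ) : ℝ) ≤ m * (2 * C1 + 1) * Real.log (Real.log T) := by
    intro i hi
    have h1 := (psl_Kb C1 hC1 i).2
    have h2 : Real.exp ((i : ℝ) / 2) ≤ Real.exp ((nI T : ℝ) / 2) := by
      refine Real.exp_le_exp.2 ?_
      have : (i : ℝ) ≤ nI T := by exact_mod_cast hi
      linarith
    have h3 : C1 * Real.exp ((i : ℝ) / 2) ≤ C1 * (2 * Real.log (Real.log T)) :=
      mul_le_mul_of_nonneg_left (h2.trans hn) (by linarith)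
    have h4 : (Kb C1 i : ℝ) ≤ (2 * C1 + 1) * Real.log (Real.log T) := by nlinarith
    push_cast
    calc (m : ℝ) * (Kb C1 i : ℝ) ≤ m * ((2 * C1 + 1) * Real.log (Real.log T)) :=
          mul_le_mul_of_nonneg_left h4 hm
      _ = m * (2 * C1 + 1) * Real.log (Real.log T) := by ring
  refine ⟨hV, fun i => ?_, fun i hi => ?_, ?_⟩
  · unfold bb
    have : 0 ≤ ((m * Kb C1 i : ℕ) : ℝ) / Vu C0 T i := div_nonneg (Nat.cast_nonneg _) (hV i).le
    linarith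
  · unfold bb
    have h1 : Vu C0 T i = C0 := by unfold Vu; rw [if_pos hi]
    have h2 : ((m * Kb C1 i : ℕ) : ℝ) / Vu C0 T i ≤ m * (2 * C1 + 1) * Real.log (Real.log T) := by
      rw [h1, div_le_iff₀ (by linarith)]
      have h3 := hK i hi.le
      have h4 : 0 ≤ m * (2 * C1 + 1) * Real.log (Real.log T) := by positivity
      nlinarith
    nlinarith
  · unfold bb
    have h1 : Vu C0 T (nI T) = C0 * Real.log (Real.log T) := by
      unfold Vu; rw [if_neg (lt_irrefl _)]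
    have h2 : ((m * Kb C1 (nI T) : ℕ) : ℝ) / Vu C0 T (nI T) ≤ m * (2 * C1 + 1) := by
      rw [h1, div_le_iff₀ (by positivity)]
      have h3 := hK (nI T) le_rfl
      have h4 : 0 ≤ m * (2 * C1 + 1) * Real.log (Real.log T) := by positivity
      nlinarith
    linarith

private lemma psl_nI (T : ℝ) (hn : Real.exp ((nI T : ℝ) / 2) ≤ 2 * Real.log (Real.log T)) :
    (nI T : ℝ) ≤ 4 * Real.log (Real.log T) := by
  have h1 := Real.add_one_le_exp ((nI T : ℝ) / 2)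
  linarith

private lemma psl_fS (k : ℝ) (m : ℕ) (C1 : ℝ) (hk : 0 < k) (hC1 : 1 ≤ C1) (S : Finset ℕ) :
    (∀ i r, 0 ≤ fS k m C1 S i r) ∧
    ∀ i r, |fS k m C1 S i r| ≤ (1 + k + ck k) ^ r * (r.factorial : ℝ) := by
  have hck : 0 < ck k := by unfold ck; linarith
  have hf : ∀ i r, 0 ≤ fS k m C1 S i r ∧
      fS k m C1 S i r ≤ (1 + k + ck k) ^ r * (r.factorial : ℝ) := by
    intro i r
    have h1 : (1 : ℝ) ≤ (r.factorial : ℝ) := by exact_mod_cast Nat.factorial_pos r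
    have hK := (psl_Kb C1 hC1 i).1
    have hK1 : (1 : ℝ) ≤ (Kb C1 i : ℝ) := by exact_mod_cast hK
    have h0 : 0 ≤ (1 + k + ck k) ^ r * (r.factorial : ℝ) := by positivity
    unfold fS
    split_ifs with hi hr hr
    · refine ⟨by positivity, ?_⟩
      calc k ^ r = k ^ r * 1 := (mul_one _).symm
        _ ≤ (1 + k + ck k) ^ r * (r.factorial : ℝ) := by
            refine mul_le_mul (pow_le_pow_left₀ hk.le (by linarith) r) h1 zero_le_one
              (by positivity)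
    · exact ⟨le_refl _, h0⟩
    · refine ⟨by positivity, mul_le_mul_of_nonneg_right ?_ (by positivity)⟩
      refine pow_le_pow_left₀ (by positivity) ?_ r
      rw [div_le_iff₀ (by linarith)]
      nlinarith
    · exact ⟨le_refl _, h0⟩
  exact ⟨fun i r => (hf i r).1, fun i r => by rw [abs_of_nonneg (hf i r).1]; exact (hf i r).2⟩

/-! ### the theorem -/

theorem pPsl (hBk : S_Bk) (hSz2 : S_Sz2) (hBlq : S_Blq) (hTwm : S_Twm) : S_Psl := by
  classical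
  intro k m C1 C0 η a v hk hm hC1 hC0 hη hη1 hηm ha hv
  have hC04 : 4 ≤ C0 := hC0.1
  have hck : 0 < ck k := by unfold ck; linarith
  have hm0 : (0 : ℝ) ≤ m := Nat.cast_nonneg _
  set c2 : ℝ := 1 + k + m * (2 * C1 + 1) with hc2
  have hc20 : 0 < c2 := by positivity
  have hx0 : 0 ≤ η * m * C1 := by positivity
  refine ⟨Real.exp (2 * (1 + c2 ^ v * (v / 2 / (v / 2 - 1)))), Real.exp_pos _, ?_⟩
  have hl1 : ∀ᶠ T : ℝ in atTop, 1 ≤ Real.log (Real.log T) :=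
    (Real.tendsto_log_atTop.comp Real.tendsto_log_atTop).eventually_ge_atTop 1
  filter_upwards [hBk C0 η hC0 hη hη1, (hSz2 m C1 η hm hC1 hη hη1).1,
    (hSz2 m C1 η hm hC1 hη hη1).2 (1 + k + ck k) (by linarith),
    hBlq k m C1 C0 η hk hm hC1 hC0 hη hη1, psl_ev1 a ha, psl_ev2 (η * m * C1) hηm hx0,
    psl_ev4 c2 v hc20 hv, hl1, eventually_ge_atTop (2 : ℝ)] with T hT1 hT2 hT3 hT4 hT5 hT6 hT7 hT8 hT9
  intro S
  obtain ⟨-, hlo, -, ⟨-, hn⟩, hIsBl, -, -⟩ := hT1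
  obtain ⟨hV, hb0, hbi, hbn⟩ := psl_bb k m C1 C0 T hk hC1 hC04 hT8 hn
  obtain ⟨hf0, hf1⟩ := psl_fS k m C1 hk hC1 S
  have hT0 : 0 < T := by linarith
  have e5 : 5 * η * m * C1 = 5 * (η * m * C1) := by ring
  have e6 : 6 * η * m * C1 = 6 * (η * m * C1) := by ring
  rw [e5] at hT2
  rw [e6] at hT3
  set Y : ℝ := T ^ (5 * (η * m * C1)) with hY
  set Z : ℝ := T ^ (6 * (η * m * C1)) with hZ
  set B := Bl η T with hB
  set n := nI T + 1 with hn'
  set R : ℕ → ℕ := fun i => m * Kb C1 i with hR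
  set b := bb k m C1 C0 T with hb
  set W := wS k m C1 C0 η T S with hW
  set V := VK n B R with hVd
  have hW0 : ∀ i ∈ range n, 0 ≤ W i := by
    intro i _
    rw [hW]
    unfold wS
    have hV' := (hV i).le
    split_ifs <;> positivity
  have hcf : ∑ r ∈ V, cf n B (fS k m C1 S) r ≤ Z :=
    (Finset.sum_le_sum fun r _ => le_abs_self _).trans (hT3 _ hf1)
  set II : ℕ → ℕ → ℂ := fun h k' => ∫ t in T..(2 * T), ((‖AS k m C1 η S T t‖ ^ 2 : ℝ) : ℂ) *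
    ((((k' : ℝ) / h) ^ a : ℝ) : ℂ) ^ ((t : ℂ) * I) with hII
  have htw : ∀ h ∈ Icc 1 (HT T), ∀ k' ∈ Icc 1 (HT T),
      ‖II h k'‖ ≤ T ^ (3 / 4 : ℝ) ∨ ∃ r ∈ V, ∃ s ∈ V,
      |a * (Real.log k' - Real.log h) - (Real.log (nQ n B r) - Real.log (nQ n B s))| ≤ (√T)⁻¹ ∧
      ‖II h k'‖ ≤ T * (∏ i ∈ range n, W i) * Phi n B b r s + T ^ (3 / 4 : ℝ) := by
    intro h hh k' hk'
    have hh0 : (0 : ℝ) < h := by exact_mod_cast (Finset.mem_Icc.1 hh).1
    have hk0 : (0 : ℝ) < k' := by exact_mod_cast (Finset.mem_Icc.1 hk').1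
    have hθ : (0 : ℝ) < ((k' : ℝ) / h) ^ a := Real.rpow_pos_of_pos (by positivity) _
    have hlog : Real.log (((k' : ℝ) / h) ^ a) = a * (Real.log k' - Real.log h) := by
      rw [Real.log_rpow (by positivity), Real.log_div hk0.ne' hh0.ne']
    rcases hTwm n B R (fS k m C1 S) b W T Y Z (((k' : ℝ) / h) ^ a) hIsBl hf0
      (fun i _ => hb0 i) hW0 (fun i hi u v => hT4 S i hi u v) hT9 hT6.1 hT6.2.1 hθ hT2 hcf with
      h1 | ⟨r, hr, s, hs, -, h2, h3⟩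
    · exact Or.inl (h1.trans hT6.2.2)
    · refine Or.inr ⟨r, hr, s, hs, ?_, ?_⟩
      · rw [hlog] at h2
        exact h2
      · refine h3.trans ?_
        have := hT6.2.2
        linarith
  have hPhi0 : ∀ r s, 0 ≤ Phi n B b r s := by
    intro r s
    rw [psl_Phi]
    exact mul_nonneg (psl_f_nonneg n B b (fun i _ => hb0 i) r)
      (psl_f_nonneg n B b (fun i _ => hb0 i) s)
  set Q : ℕ → ℕ → (ℕ → ℕ) × (ℕ → ℕ) → Prop := fun h k' x =>
    Nat.Coprime h k' ∧ x.1 ∈ V ∧ x.2 ∈ V ∧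
    |a * (Real.log k' - Real.log h) - (Real.log (nQ n B x.1) - Real.log (nQ n B x.2))| ≤ (√T)⁻¹ ∧
      ‖II h k'‖ ≤ T * (∏ i ∈ range n, W i) * Phi n B b x.1 x.2 + T ^ (3 / 4 : ℝ) with hQ
  refine ⟨fun h k' => if H : ∃ x, Q h k' x then Phi n B b H.choose.1 H.choose.2 else 0,
    ⟨fun h k' => ?_, fun h hh k' hk' hc => ?_⟩, ?_⟩
  · by_cases H : ∃ x, Q h k' x
    · simp only [dif_pos H]
      exact hPhi0 _ _
    · simp only [dif_neg H]
      exact le_refl _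
  · by_cases H : ∃ x, Q h k' x
    · simp only [dif_pos H]
      have h1 := H.choose_spec.2.2.2.2
      refine h1.trans (le_of_eq ?_)
      unfold WS
      ring
    · simp only [dif_neg H]
      rcases htw h hh k' hk' with h1 | ⟨r, hr, s, hs, h2, h3⟩
      · rw [zero_mul, zero_add]
        exact h1
      · exact absurd ⟨(r, s), hc, hr, hs, h2, h3⟩ H
  · refine (psl_inj V (Phi n B b) (fun r _ s _ => hPhi0 r s) (HT T) _
      (fun h k' r s => Nat.Coprime h k' ∧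
        |a * (Real.log k' - Real.log h) - (Real.log (nQ n B r) - Real.log (nQ n B s))| ≤ (√T)⁻¹)
      (fun h hh k' hk' => ?_) (fun h hh k' hk' h' hh' k'' hk'' r s h1 h2 => ?_) v
      (by linarith)).trans ?_
    · by_cases H : ∃ x, Q h k' x
      · right
        have h1 := H.choose_spec
        exact ⟨H.choose.1, h1.2.1, H.choose.2, h1.2.2.1, ⟨h1.1, h1.2.2.2.1⟩, by rw [dif_pos H]⟩
      · left
        rw [dif_neg H]
    · exact psl_sep a (√T)⁻¹ _ (HT T) h k' h' k'' ha hh hk' hh' hk'' h1.1 h2.1 h1.2 h2.2 hT5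
    · obtain ⟨β, hβ0, hβ⟩ := psl_beta n B b hIsBl.2 (fun i _ => hb0 i)
      refine (psl_sum n B R b β v (by linarith) hIsBl.2 (fun i _ => hb0 i) hβ0 hβ).trans ?_
      refine Real.exp_le_exp.2 (mul_le_mul_of_nonneg_left ?_ zero_le_two)
      have hl0 : 0 ≤ Real.log (Real.log T) := by linarith
      have h1 := psl_primes (nI T) (lo η T) (xe η T) b β v c2
        ((c2 * Real.log (Real.log T)) ^ v) hv hIsBl.2 hβ0 hβ (fun i _ => hb0 i) hbn
        (fun i hi => Real.rpow_le_rpow (hb0 i) (hbi i hi) (by linarith))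
        (√(Real.log T)) (Real.sqrt_nonneg _) hlo
      refine h1.trans (add_le_add ?_ le_rfl)
      refine le_trans ?_ hT7
      refine mul_le_mul_of_nonneg_right (psl_nI T hn) ?_
      have hk2 : 0 < v / 2 - 1 := by linarith
      have h2 : 0 ≤ (c2 * Real.log (Real.log T)) ^ v := Real.rpow_nonneg (by positivity) _
      positivity

end Pool.Agent.Lib.MP_aa9ae4_nt.L1
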