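import Pool.Agent.Lib.MP_aa9ae4_nt.L1.SpecB

/-! MP_aa9ae4_nt, Theorem L, part B: sizes. -/

namespace Pool.Agent.Lib.MP_aa9ae4_nt.L1

open Finset MeasureTheory Filter Topology
open Complex (I)
open Pool.Agent.Lib.MP_aa9ae4_nt.S1 (pw psumS eulS tail prs nn KK expJ HT fzS y1)

private theorem sz2_anti {η T : ℝ} (hη : 0 ≤ η) (hT : 0 ≤ Real.log T) (i j : ℕ) (hij : i ≤ j) :
    xe η T j ≤ xe η T i := by
  unfold xe
  apply Nat.floor_le_floor
  apply Real.exp_le_exp.mpr
  apply mul_le_mul_of_nonneg_left _ (by positivity)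
  apply Real.exp_le_exp.mpr
  have : (i : ℝ) ≤ j := by exact_mod_cast hij
  linarith

private theorem sz2_isBl {η T : ℝ} (hη : 0 ≤ η) (hT : 0 ≤ Real.log T) :
    IsBl (nI T + 1) (Bl η T) := by
  have hdisj : ∀ i ≤ nI T, ∀ j ≤ nI T, i < j → Disjoint (Bl η T i) (Bl η T j) := by
    intro i _ j hj hij
    rw [Finset.disjoint_left]
    intro p hp hq
    simp only [Bl, prs, Finset.mem_filter, Finset.mem_Ioc] at hp hq
    have hlo : lo η T i = xe η T (i + 1) := by
      unfold lo
      rw [if_pos (by omega)]
    rw [hlo] at hp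
    have h4 := sz2_anti hη hT (i + 1) j (by omega)
    omega
  constructor
  · intro i _ p hp
    simp only [Bl, prs, Finset.mem_filter] at hp
    exact hp.2
  · intro i hi j hj hij
    rw [Finset.mem_range] at hi hj
    rcases lt_or_gt_of_ne hij with h4 | h4
    · exact hdisj i (by omega) j (by omega) h4
    · exact (hdisj j (by omega) i (by omega) h4).symm

private theorem sz2_one_le {η T : ℝ} (hη : 0 ≤ η) (hT : 0 ≤ Real.log T) (i : ℕ) :
    1 ≤ xe η T i := by
  unfold xe
  apply Nat.le_floor
  rw [Nat.cast_one]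
  exact Real.one_le_exp (by positivity)

private theorem sz2_le_exp (η T : ℝ) (i : ℕ) :
    (xe η T i : ℝ) ≤ Real.exp (η * Real.log T * Real.exp (-(i : ℝ))) := by
  unfold xe
  exact Nat.floor_le (Real.exp_nonneg _)

private theorem sz2_geo {r : ℝ} (h0 : 0 ≤ r) (h1 : r < 1) (N : ℕ) :
    ∑ i ∈ range N, r ^ i ≤ (1 - r)⁻¹ := by
  rw [← tsum_geometric_of_lt_one h0 h1]
  exact (summable_geometric_of_lt_one h0 h1).sum_le_tsum _ fun i _ => pow_nonneg h0 i

private theorem sz2_geo1 (N : ℕ) : ∑ i ∈ range N, Real.exp (-(i : ℝ)) ≤ 5 / 3 := by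
  have he : Real.exp (-1) ≤ 2 / 5 := by
    rw [Real.exp_neg]
    have := Real.exp_one_gt_d9
    rw [inv_le_comm₀ (Real.exp_pos _) (by norm_num)]
    norm_num at this ⊢
    linarith
  calc ∑ i ∈ range N, Real.exp (-(i : ℝ)) ≤ ∑ i ∈ range N, (2 / 5 : ℝ) ^ i := by
        apply Finset.sum_le_sum
        intro i _
        have : Real.exp (-(i : ℝ)) = Real.exp (-1) ^ i := by
          rw [← Real.exp_nat_mul]
          congr 1
          ring
        rw [this]
        exact pow_le_pow_left₀ (Real.exp_nonneg _) he i
    _ ≤ (1 - 2 / 5 : ℝ)⁻¹ := sz2_geo (by norm_num) (by norm_num) N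
    _ = 5 / 3 := by norm_num

private theorem sz2_geo2 (N : ℕ) : ∑ i ∈ range N, Real.exp (-((i : ℝ) / 2)) ≤ 8 / 3 := by
  have he : Real.exp (-(1 / 2)) ≤ 5 / 8 := by
    rw [Real.exp_neg]
    have h1 := Real.exp_one_gt_d9
    have h2 : Real.exp (1 / 2) ^ 2 = Real.exp 1 := by
      rw [← Real.exp_nat_mul]
      norm_num
    have h3 := Real.exp_pos (1 / 2)
    have h4 : 8 / 5 ≤ Real.exp (1 / 2) := by nlinarith
    rw [inv_le_comm₀ (Real.exp_pos _) (by norm_num)]
    norm_num at h4 ⊢
    linarith
  calc ∑ i ∈ range N, Real.exp (-((i : ℝ) / 2)) ≤ ∑ i ∈ range N, (5 / 8 : ℝ) ^ i := by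
        apply Finset.sum_le_sum
        intro i _
        have : Real.exp (-((i : ℝ) / 2)) = Real.exp (-(1 / 2)) ^ i := by
          rw [← Real.exp_nat_mul]
          congr 1
          ring
        rw [this]
        exact pow_le_pow_left₀ (Real.exp_nonneg _) he i
    _ ≤ (1 - 5 / 8 : ℝ)⁻¹ := sz2_geo (by norm_num) (by norm_num) N
    _ = 8 / 3 := by norm_num

private theorem sz2_Kb {C1 : ℝ} (hC1 : 1 ≤ C1) (i : ℕ) :
    (Kb C1 i : ℝ) ≤ C1 * Real.exp ((i : ℝ) / 2) + 1 := by
  unfold Kb
  exact (Nat.ceil_lt_add_one (by positivity)).le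

private theorem sz2_prod {η T C1 : ℝ} (m : ℕ) (hη : 0 ≤ η) (hT : 0 ≤ Real.log T)
    (hC1 : 1 ≤ C1) :
    ∏ i ∈ range (nI T + 1), (xe η T i : ℝ) ^ (m * Kb C1 i) ≤
      Real.exp (5 * η * m * C1 * Real.log T) := by
  calc ∏ i ∈ range (nI T + 1), (xe η T i : ℝ) ^ (m * Kb C1 i) ≤
      ∏ i ∈ range (nI T + 1), Real.exp (η * Real.log T * m * (C1 * Real.exp (-((i : ℝ) / 2)) +
        Real.exp (-(i : ℝ)))) := by
        apply Finset.prod_le_prod
        · intro i _
          positivity
        · intro i _
          calc (xe η T i : ℝ) ^ (m * Kb C1 i) ≤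
              Real.exp (η * Real.log T * Real.exp (-(i : ℝ))) ^ (m * Kb C1 i) :=
                pow_le_pow_left₀ (Nat.cast_nonneg _) (sz2_le_exp η T i) _
            _ = Real.exp (((m * Kb C1 i : ℕ) : ℝ) * (η * Real.log T * Real.exp (-(i : ℝ)))) := by
                rw [← Real.exp_nat_mul]
            _ ≤ _ := by
                apply Real.exp_le_exp.mpr
                have h1 := sz2_Kb hC1 i
                have h2 : 0 ≤ η * Real.log T * m * Real.exp (-(i : ℝ)) := by positivity
                have h3 := mul_le_mul_of_nonneg_left h1 h2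
                have h4 : Real.exp (-(i : ℝ)) * Real.exp ((i : ℝ) / 2) =
                    Real.exp (-((i : ℝ) / 2)) := by
                  rw [← Real.exp_add]
                  congr 1
                  ring
                push_cast
                calc (m : ℝ) * (Kb C1 i : ℝ) * (η * Real.log T * Real.exp (-(i : ℝ))) =
                    η * Real.log T * m * Real.exp (-(i : ℝ)) * (Kb C1 i : ℝ) := by ring
                  _ ≤ _ := h3
                  _ = η * Real.log T * m * (C1 * (Real.exp (-(i : ℝ)) * Real.exp ((i : ℝ) / 2)) +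
                      Real.exp (-(i : ℝ))) := by ring
                  _ = _ := by rw [h4]
    _ = Real.exp (∑ i ∈ range (nI T + 1), η * Real.log T * m *
        (C1 * Real.exp (-((i : ℝ) / 2)) + Real.exp (-(i : ℝ)))) := (Real.exp_sum _ _).symm
    _ ≤ _ := by
        apply Real.exp_le_exp.mpr
        rw [← Finset.mul_sum, Finset.sum_add_distrib, ← Finset.mul_sum]
        have h1 := sz2_geo1 (nI T + 1)
        have h2 := sz2_geo2 (nI T + 1)
        have h3 : C1 * ∑ i ∈ range (nI T + 1), Real.exp (-((i : ℝ) / 2)) +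
            ∑ i ∈ range (nI T + 1), Real.exp (-(i : ℝ)) ≤ 5 * C1 := by
          have := mul_le_mul_of_nonneg_left h2 (show 0 ≤ C1 by linarith)
          linarith
        have h4 : 0 ≤ η * Real.log T * m := by positivity
        calc _ ≤ η * Real.log T * m * (5 * C1) := mul_le_mul_of_nonneg_left h3 h4
          _ = _ := by ring

theorem pSz2 (_hBk : S_Bk) (hExd : S_Exd) : S_Sz2 := by
  intro m C1 η hm hC1 hη hη1
  have hL : Tendsto Real.log atTop atTop := Real.tendsto_log_atTop
  have hl : Tendsto (fun T : ℝ => Real.log (Real.log T)) atTop atTop := hL.comp hL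
  have hC10 : 0 < C1 := by linarith
  have hm0 : (1 : ℝ) ≤ m := by exact_mod_cast hm
  constructor
  · filter_upwards [hL.eventually_ge_atTop 1, eventually_gt_atTop 0] with T hT hT0
    intro k hk
    have hLT : 0 ≤ Real.log T := by linarith
    have hB := sz2_isBl hη.le hLT
    have hk2 := (Finset.mem_filter.mp hk).2
    have h1 : nQ (nI T + 1) (Bl η T) k = ∏ i ∈ range (nI T + 1), ∏ p ∈ Bl η T i, p ^ k p := by
      unfold nQ nn
      rw [Finset.prod_biUnion]
      intro i hi j hj hij
      exact hB.2 i hi j hj hij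
    have h2 : nQ (nI T + 1) (Bl η T) k ≤ ∏ i ∈ range (nI T + 1), xe η T i ^ (m * Kb C1 i) := by
      rw [h1]
      apply Finset.prod_le_prod'
      intro i hi
      calc ∏ p ∈ Bl η T i, p ^ k p ≤ ∏ p ∈ Bl η T i, xe η T i ^ k p := by
            apply Finset.prod_le_prod'
            intro p hp
            simp only [Bl, prs, Finset.mem_filter, Finset.mem_Ioc] at hp
            exact Nat.pow_le_pow_left hp.1.2 _
        _ = xe η T i ^ (∑ p ∈ Bl η T i, k p) := Finset.prod_pow_eq_pow_sum _ _ _
        _ ≤ xe η T i ^ (m * Kb C1 i) :=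
            Nat.pow_le_pow_right (sz2_one_le hη.le hLT i) (hk2 i hi)
    have h3 : (nQ (nI T + 1) (Bl η T) k : ℝ) ≤
        ∏ i ∈ range (nI T + 1), (xe η T i : ℝ) ^ (m * Kb C1 i) := by
      exact_mod_cast h2
    refine h3.trans ((sz2_prod m hη.le hLT hC1).trans (le_of_eq ?_))
    rw [Real.rpow_def_of_pos hT0, mul_comm]
  · intro c0 hc0
    set D : ℝ := 16 * Real.log (2 * c0) with hD
    have hlog0 : 0 ≤ Real.log (2 * c0) := Real.log_nonneg (by linarith)
    have hD0 : 0 ≤ D := by positivity
    have hev : ∀ᶠ x : ℝ in atTop, D * Real.log x ^ 2 ≤ η * x := by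
      have h := (Real.isLittleO_pow_log_id_atTop (n := 2)).bound
        (show (0 : ℝ) < η / (D + 1) by positivity)
      filter_upwards [h, eventually_ge_atTop 1] with x hx hx1
      have h1 : 0 ≤ Real.log x := Real.log_nonneg hx1
      rw [Real.norm_of_nonneg (pow_nonneg h1 _), id, Real.norm_of_nonneg (by linarith)] at hx
      have h2 := mul_le_mul_of_nonneg_left hx hD0
      refine h2.trans ?_
      have h3 : D * (η / (D + 1) * x) = D / (D + 1) * (η * x) := by
        field_simp
      rw [h3]
      have h4 : D / (D + 1) ≤ 1 := by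
        rw [div_le_one (by positivity)]
        linarith
      exact mul_le_of_le_one_left (by positivity) h4
    filter_upwards [hL.eventually hev, hL.eventually_ge_atTop 1, hl.eventually_ge_atTop 1,
      eventually_gt_atTop 0] with T hT1 hT hT2 hT0
    intro f hf
    have hLT : 0 ≤ Real.log T := by linarith
    have hB := sz2_isBl hη.le hLT
    set n := nI T with hn
    set l := Real.log (Real.log T) with hldef
    have hl0 : 0 < l := by linarith
    have hlogl : 0 ≤ Real.log l := Real.log_nonneg hT2
    have hn2 : (n : ℝ) ≤ 2 * Real.log l + 1 := by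
      rw [hn]
      unfold nI
      exact (Nat.ceil_lt_add_one (by positivity)).le
    have hen : Real.exp ((n : ℝ) / 2) ≤ 2 * l := by
      have h4 : Real.exp (1 / 2) ≤ 2 := by
        have h5 : Real.exp (1 / 2) ^ 2 = Real.exp 1 := by
          rw [← Real.exp_nat_mul]
          norm_num
        have h6 := Real.exp_pos (1 / 2)
        have h7 := Real.exp_one_lt_d9
        nlinarith
      calc Real.exp ((n : ℝ) / 2) ≤ Real.exp (Real.log l + 1 / 2) :=
            Real.exp_le_exp.mpr (by linarith)
        _ = l * Real.exp (1 / 2) := by rw [Real.exp_add, Real.exp_log hl0]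
        _ ≤ l * 2 := mul_le_mul_of_nonneg_left h4 hl0.le
        _ = 2 * l := mul_comm _ _
    have hx1 : ∀ i, (1 : ℝ) ≤ xe η T i := fun i => by exact_mod_cast sz2_one_le hη.le hLT i
    -- the sum of the degrees
    have hR : ((∑ i ∈ range (n + 1), m * Kb C1 i : ℕ) : ℝ) ≤ 16 * m * C1 * l ^ 2 := by
      push_cast
      rw [← Finset.mul_sum]
      have h1 : ∑ i ∈ range (n + 1), (Kb C1 i : ℝ) ≤ (n + 1) * (2 * C1 * Real.exp ((n : ℝ) / 2)) := by
        calc ∑ i ∈ range (n + 1), (Kb C1 i : ℝ) ≤
            ∑ _i ∈ range (n + 1), (2 * C1 * Real.exp ((n : ℝ) / 2)) := by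
              apply Finset.sum_le_sum
              intro i hi
              have h2 := sz2_Kb hC1 i
              have h3 : (i : ℝ) ≤ n := by
                have : i ≤ n := Nat.lt_succ_iff.mp (Finset.mem_range.mp hi)
                exact_mod_cast this
              have h4 : Real.exp ((i : ℝ) / 2) ≤ Real.exp ((n : ℝ) / 2) :=
                Real.exp_le_exp.mpr (by linarith)
              have h5 : (1 : ℝ) ≤ Real.exp ((n : ℝ) / 2) := Real.one_le_exp (by positivity)
              nlinarith
          _ = _ := by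
              rw [Finset.sum_const, Finset.card_range, nsmul_eq_mul]
              push_cast
              ring
      have h2 : (n : ℝ) + 1 ≤ 2 * Real.exp ((n : ℝ) / 2) := by
        have := Real.add_one_le_exp ((n : ℝ) / 2)
        linarith
      have h3 : (0 : ℝ) ≤ Real.exp ((n : ℝ) / 2) := Real.exp_nonneg _
      have h4 : ((n : ℝ) + 1) * (2 * C1 * Real.exp ((n : ℝ) / 2)) ≤ 16 * C1 * l ^ 2 := by
        calc ((n : ℝ) + 1) * (2 * C1 * Real.exp ((n : ℝ) / 2)) ≤
            (2 * (2 * l)) * (2 * C1 * (2 * l)) := by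
              apply mul_le_mul _ _ (by positivity) (by positivity)
              · linarith
              · exact mul_le_mul_of_nonneg_left hen (by positivity)
          _ = 16 * C1 * l ^ 2 := by ring
      calc (m : ℝ) * ∑ i ∈ range (n + 1), (Kb C1 i : ℝ) ≤ m * (16 * C1 * l ^ 2) :=
            mul_le_mul_of_nonneg_left (h1.trans h4) (by positivity)
        _ = _ := by ring
    -- comparison with the coefficients `c0 ^ r * r!`
    set g : ℕ → ℕ → ℝ := fun _ r => c0 ^ r * (r.factorial : ℝ) with hg
    have h1 : ∀ k, |cf (n + 1) (Bl η T) f k| ≤ cf (n + 1) (Bl η T) g k := by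
      intro k
      unfold cf
      rw [Finset.abs_prod]
      apply Finset.prod_le_prod
      · intro i _
        exact abs_nonneg _
      · intro i _
        have hp : (0 : ℝ) ≤ ∏ p ∈ Bl η T i, ((k p).factorial : ℝ)⁻¹ :=
          Finset.prod_nonneg fun p _ => by positivity
        rw [abs_mul, abs_of_nonneg hp]
        exact mul_le_mul_of_nonneg_right (hf i _) hp
    have h2 := (hExd (n + 1) (Bl η T) (fun i => m * Kb C1 i) g hB.2).2 fun _ => 1
    simp only [one_pow, Finset.prod_const_one, mul_one, Finset.sum_const, nsmul_eq_mul] at h2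
    have hcard : ∀ i, ((Bl η T i).card : ℝ) ≤ xe η T i := by
      intro i
      have h3 : (Bl η T i).card ≤ xe η T i := by
        calc (Bl η T i).card ≤ (Ioc (lo η T i) (xe η T i)).card := Finset.card_filter_le _ _
          _ = xe η T i - lo η T i := Nat.card_Ioc _ _
          _ ≤ xe η T i := Nat.sub_le _ _
      exact_mod_cast h3
    calc ∑ k ∈ VK (n + 1) (Bl η T) (fun i => m * Kb C1 i), |cf (n + 1) (Bl η T) f k| ≤
        ∑ k ∈ VK (n + 1) (Bl η T) (fun i => m * Kb C1 i), cf (n + 1) (Bl η T) g k :=
          Finset.sum_le_sum fun k _ => h1 k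
      _ = _ := h2.symm
      _ ≤ ∏ i ∈ range (n + 1), ((2 * c0) ^ (m * Kb C1 i) * (xe η T i : ℝ) ^ (m * Kb C1 i)) := by
          apply Finset.prod_le_prod
          · intro i _
            apply Finset.sum_nonneg
            intro r _
            simp only [hg]
            positivity
          · intro i _
            have hy : 1 ≤ c0 * (xe η T i : ℝ) := by
              have := hx1 i
              nlinarith
            calc ∑ r ∈ range (m * Kb C1 i + 1), g i r / (r.factorial : ℝ) *
                ((Bl η T i).card : ℝ) ^ r ≤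
                ∑ _r ∈ range (m * Kb C1 i + 1), (c0 * (xe η T i : ℝ)) ^ (m * Kb C1 i) := by
                  apply Finset.sum_le_sum
                  intro r hr
                  have hr' : r ≤ m * Kb C1 i := Nat.lt_succ_iff.mp (Finset.mem_range.mp hr)
                  have h3 : g i r / (r.factorial : ℝ) = c0 ^ r := by
                    simp only [hg]
                    have : (r.factorial : ℝ) ≠ 0 := by exact_mod_cast r.factorial_ne_zero
                    field_simp
                  rw [h3, ← mul_pow]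
                  calc (c0 * ((Bl η T i).card : ℝ)) ^ r ≤ (c0 * (xe η T i : ℝ)) ^ r := by
                        apply pow_le_pow_left₀ (by positivity)
                        exact mul_le_mul_of_nonneg_left (hcard i) (by linarith)
                    _ ≤ _ := pow_le_pow_right₀ hy hr'
              _ = ((m * Kb C1 i : ℕ) + 1 : ℝ) * (c0 * (xe η T i : ℝ)) ^ (m * Kb C1 i) := by
                  rw [Finset.sum_const, Finset.card_range, nsmul_eq_mul]
                  push_cast
                  ring
              _ ≤ 2 ^ (m * Kb C1 i) * (c0 * (xe η T i : ℝ)) ^ (m * Kb C1 i) := by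
                  apply mul_le_mul_of_nonneg_right _ (by positivity)
                  have h4 : m * Kb C1 i + 1 ≤ 2 ^ (m * Kb C1 i) := Nat.lt_two_pow_self
                  exact_mod_cast h4
              _ = _ := by
                  rw [mul_pow, mul_pow]
                  ring
      _ = (2 * c0) ^ (∑ i ∈ range (n + 1), m * Kb C1 i) *
          ∏ i ∈ range (n + 1), (xe η T i : ℝ) ^ (m * Kb C1 i) := by
          rw [Finset.prod_mul_distrib, Finset.prod_pow_eq_pow_sum]
      _ ≤ Real.exp (η * m * C1 * Real.log T) * Real.exp (5 * η * m * C1 * Real.log T) := by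
          apply mul_le_mul _ (sz2_prod m hη.le hLT hC1) (by positivity) (Real.exp_nonneg _)
          have h5 : (2 * c0) ^ (∑ i ∈ range (n + 1), m * Kb C1 i) =
              Real.exp (((∑ i ∈ range (n + 1), m * Kb C1 i : ℕ) : ℝ) * Real.log (2 * c0)) := by
            rw [Real.exp_nat_mul, Real.exp_log (by linarith)]
          rw [h5]
          apply Real.exp_le_exp.mpr
          have h6 := mul_le_mul_of_nonneg_right hR hlog0
          have h7 : 16 * (m : ℝ) * C1 * l ^ 2 * Real.log (2 * c0) = m * C1 * (D * l ^ 2) := by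
            rw [hD]
            ring
          rw [h7] at h6
          have h8 := mul_le_mul_of_nonneg_left hT1 (show (0 : ℝ) ≤ m * C1 by positivity)
          calc _ ≤ _ := h6
            _ ≤ _ := h8
            _ = _ := by ring
      _ = T ^ (6 * η * m * C1) := by
          rw [← Real.exp_add, Real.rpow_def_of_pos hT0]
          congr 1
          ring

end Pool.Agent.Lib.MP_aa9ae4_nt.L1
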