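import Pool.Agent.Lib.MP_aa9ae4_nt.L1.SpecA
import Pool.Agent.Lib.MP_aa9ae4_nt.S1.PNn

/-!
MP_aa9ae4_nt, Theorem L: twisted mean of a block product (`S_Twm`).
-/

namespace Pool.Agent.Lib.MP_aa9ae4_nt.L1

open Finset MeasureTheory Filter Topology
open Complex (I)
open Pool.Agent.Lib.MP_aa9ae4_nt.S1

theorem twm_KK {s : Finset ℕ} {J : ℕ} {k : ℕ → ℕ} :
    k ∈ KK s J ↔ ∑ p ∈ s, k p ≤ J ∧ ∀ p, k p ≠ 0 → p ∈ s := by
  classical
  unfold KK
  rw [Finset.mem_biUnion]
  constructor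
  · rintro ⟨j, hj, hk⟩
    rw [mem_piAntidiag] at hk
    rw [Finset.mem_range] at hj
    exact ⟨by rw [hk.1]; omega, hk.2⟩
  · rintro ⟨h1, h2⟩
    exact ⟨∑ p ∈ s, k p, Finset.mem_range.2 (by omega), mem_piAntidiag.2 ⟨rfl, h2⟩⟩

theorem twm_mem {n : ℕ} {B : ℕ → Finset ℕ} {R : ℕ → ℕ} (hB : IsBl n B) {k : ℕ → ℕ} :
    k ∈ VK n B R ↔ (∀ p, k p ≠ 0 → p ∈ (range n).biUnion B) ∧
      ∀ i ∈ range n, ∑ p ∈ B i, k p ≤ R i := by
  unfold VK
  rw [Finset.mem_filter, twm_KK]
  constructor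
  · rintro ⟨⟨-, h2⟩, h3⟩
    exact ⟨h2, h3⟩
  · rintro ⟨h2, h3⟩
    refine ⟨⟨?_, h2⟩, h3⟩
    rw [Finset.sum_biUnion]
    · exact Finset.sum_le_sum h3
    · intro i hi j hj hij
      exact hB.2 i (by simpa using hi) j (by simpa using hj) hij

theorem twm_prime {n : ℕ} {B : ℕ → Finset ℕ} (hB : IsBl n B) :
    ∀ p ∈ (range n).biUnion B, p.Prime := by
  intro p hp
  rw [Finset.mem_biUnion] at hp
  obtain ⟨i, hi, hpi⟩ := hp
  exact hB.1 i hi p hpi

theorem twm_nQ_pos {n : ℕ} {B : ℕ → Finset ℕ} (hB : IsBl n B) (k : ℕ → ℕ) : 1 ≤ nQ n B k := by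
  unfold nQ nn
  refine Nat.pos_of_ne_zero (Finset.prod_ne_zero_iff.2 fun p hp => pow_ne_zero _ ?_)
  exact (twm_prime hB p hp).ne_zero

theorem twm_nQ_add (n : ℕ) (B : ℕ → Finset ℕ) (k l : ℕ → ℕ) :
    nQ n B (k + l) = nQ n B k * nQ n B l := by
  unfold nQ nn
  rw [← Finset.prod_mul_distrib]
  exact Finset.prod_congr rfl fun p _ => by rw [Pi.add_apply, pow_add]

theorem twm_nQ_inj {n : ℕ} {B : ℕ → Finset ℕ} (hB : IsBl n B) {k l : ℕ → ℕ}
    (hk : ∀ p, k p ≠ 0 → p ∈ (range n).biUnion B) (hl : ∀ p, l p ≠ 0 → p ∈ (range n).biUnion B)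
    (h : nQ n B k = nQ n B l) : k = l := by
  have h1 := (pNn ((range n).biUnion B) (twm_prime hB)
    (∑ p ∈ (range n).biUnion B, k p + ∑ p ∈ (range n).biUnion B, l p)).1
  exact h1 k (twm_KK.2 ⟨by omega, hk⟩) l (twm_KK.2 ⟨by omega, hl⟩) h

theorem twm_pw {m : ℕ} (hm : 1 ≤ m) (t : ℝ) :
    pw (1 / 2) m t = (((√(m : ℝ))⁻¹ : ℝ) : ℂ) *
      Complex.exp (((-Real.log m * t : ℝ) : ℂ) * I) := by
  have hm0 : (0 : ℝ) < m := by exact_mod_cast hm
  have hmc : (m : ℂ) ≠ 0 := by exact_mod_cast hm0.ne'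
  unfold pw
  have e1 : (-(((1 / 2 : ℝ) : ℂ) + (t : ℂ) * I)) = ((-(1 / 2) : ℝ) : ℂ) + -((t : ℂ) * I) := by
    push_cast
    ring
  rw [e1, Complex.cpow_add _ _ hmc]
  congr 1
  · rw [← Complex.ofReal_natCast, ← Complex.ofReal_cpow hm0.le, Real.rpow_neg hm0.le,
      Real.sqrt_eq_rpow]
  · rw [Complex.cpow_def_of_ne_zero hmc, ← Complex.natCast_log]
    congr 1
    push_cast
    ring

theorem twm_exp (hExd : S_Exd) {n : ℕ} {B : ℕ → Finset ℕ} (hB : IsBl n B) (R : ℕ → ℕ)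
    (f : ℕ → ℕ → ℝ) (t : ℝ) :
    MB n B R f (fun p => pw (1 / 2) p t) =
      ∑ k ∈ VK n B R, (cf n B f k : ℂ) * pw (1 / 2) (nQ n B k) t := by
  rw [(hExd n B R f hB.2).1]
  refine Finset.sum_congr rfl fun k _ => ?_
  rw [nQ, (pNn ((range n).biUnion B) (twm_prime hB) 0).2.2.2.2.2 (1 / 2) t k]

theorem twm_cf_nonneg {n : ℕ} {B : ℕ → Finset ℕ} {f : ℕ → ℕ → ℝ} (hf : ∀ i r, 0 ≤ f i r)
    (k : ℕ → ℕ) : 0 ≤ cf n B f k := by
  unfold cf
  exact Finset.prod_nonneg fun i _ => mul_nonneg (hf _ _)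
    (Finset.prod_nonneg fun p _ => by positivity)

theorem twm_osc_le {T : ℝ} (hT : 0 ≤ T) (c : ℝ) :
    ‖∫ t in T..(2 * T), Complex.exp (((c * t : ℝ) : ℂ) * I)‖ ≤ T := by
  have h := intervalIntegral.norm_integral_le_of_norm_le_const (C := 1) (a := T) (b := 2 * T)
    (f := fun t : ℝ => Complex.exp (((c * t : ℝ) : ℂ) * I))
    (fun t _ => by rw [Complex.norm_exp_ofReal_mul_I])
  refine h.trans (le_of_eq ?_)
  rw [one_mul, show 2 * T - T = T by ring, abs_of_nonneg hT]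

theorem twm_osc {T : ℝ} {c : ℝ} (hc : c ≠ 0) :
    ‖∫ t in T..(2 * T), Complex.exp (((c * t : ℝ) : ℂ) * I)‖ ≤ 2 / |c| := by
  have hcI : (c : ℂ) * I ≠ 0 := mul_ne_zero (by exact_mod_cast hc) Complex.I_ne_zero
  have h1 : (∫ t in T..(2 * T), Complex.exp (((c * t : ℝ) : ℂ) * I)) =
      ∫ t in T..(2 * T), Complex.exp ((c : ℂ) * I * (t : ℂ)) := by
    refine intervalIntegral.integral_congr fun t _ => ?_
    change Complex.exp (((c * t : ℝ) : ℂ) * I) = Complex.exp ((c : ℂ) * I * (t : ℂ))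
    congr 1
    push_cast
    ring
  rw [h1, integral_exp_mul_complex hcI, norm_div, norm_mul, Complex.norm_I, mul_one,
    Complex.norm_real, Real.norm_eq_abs]
  refine div_le_div_of_nonneg_right ?_ (abs_nonneg _)
  have h2 : ∀ x : ℝ, ‖Complex.exp ((c : ℂ) * I * (x : ℂ))‖ = 1 := by
    intro x
    have e : (c : ℂ) * I * (x : ℂ) = ((c * x : ℝ) : ℂ) * I := by
      push_cast
      ring
    rw [e, Complex.norm_exp_ofReal_mul_I]
  refine (norm_sub_le _ _).trans ?_
  rw [h2, h2]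
  norm_num

theorem twm_osc_cont (c : ℝ) : Continuous fun t : ℝ => Complex.exp (((c * t : ℝ) : ℂ) * I) := by
  fun_prop

/-- different integers `x, y ≤ M` have logarithms at distance `≥ 1/M` -/
theorem twm_gap {x y : ℕ} {M : ℝ} (hx : 1 ≤ x) (hy : 1 ≤ y) (hxM : (x : ℝ) ≤ M)
    (hyM : (y : ℝ) ≤ M) (h : x ≠ y) : 1 / M ≤ |Real.log x - Real.log y| := by
  have key : ∀ u v : ℕ, 1 ≤ u → 1 ≤ v → (v : ℝ) ≤ M → u < v →
      1 / M ≤ Real.log v - Real.log u := by
    intro u v hu hv hvM huv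
    have hu0 : (0 : ℝ) < u := by exact_mod_cast hu
    have hv0 : (0 : ℝ) < v := by exact_mod_cast hv
    have h1 := Real.one_sub_inv_le_log_of_pos (by positivity : (0 : ℝ) < (v : ℝ) / u)
    rw [Real.log_div hv0.ne' hu0.ne', inv_div] at h1
    have h2 : (u : ℝ) + 1 ≤ v := by exact_mod_cast huv
    have h3 : 1 / (v : ℝ) ≤ 1 - (u : ℝ) / v := by
      rw [div_le_iff₀ hv0, sub_mul, div_mul_cancel₀ _ hv0.ne']
      linarith
    have h4 : 1 / M ≤ 1 / (v : ℝ) := one_div_le_one_div_of_le hv0 hvM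
    linarith
  rcases lt_or_gt_of_ne h with h1 | h1
  · have := key x y hx hy hyM h1
    rw [abs_sub_comm]
    exact this.trans (le_abs_self _)
  · have := key y x hy hx hxM h1
    exact this.trans (le_abs_self _)

/-- the integral as a double sum -/
private theorem twm_int (hExd : S_Exd) {n : ℕ} {B : ℕ → Finset ℕ} (hB : IsBl n B) (R : ℕ → ℕ)
    (f : ℕ → ℕ → ℝ) {T θ : ℝ} (hθ : 0 < θ) :
    ∫ t in T..(2 * T), ((‖MB n B R f (fun p => pw (1 / 2) p t)‖ ^ 2 : ℝ) : ℂ) *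
      (θ : ℂ) ^ ((t : ℂ) * I) =
    ∑ k ∈ VK n B R, ∑ l ∈ VK n B R,
      ((cf n B f k * (√(nQ n B k : ℝ))⁻¹ * (cf n B f l * (√(nQ n B l : ℝ))⁻¹) : ℝ) : ℂ) *
      ∫ t in T..(2 * T), Complex.exp ((((Real.log θ + Real.log (nQ n B l) -
        Real.log (nQ n B k)) * t : ℝ) : ℂ) * I) := by
  have h1 : ∀ t : ℝ, ((‖MB n B R f (fun p => pw (1 / 2) p t)‖ ^ 2 : ℝ) : ℂ) *
      (θ : ℂ) ^ ((t : ℂ) * I) = ∑ k ∈ VK n B R, ∑ l ∈ VK n B R,
      ((cf n B f k * (√(nQ n B k : ℝ))⁻¹ * (cf n B f l * (√(nQ n B l : ℝ))⁻¹) : ℝ) : ℂ) *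
      Complex.exp ((((Real.log θ + Real.log (nQ n B l) -
        Real.log (nQ n B k)) * t : ℝ) : ℂ) * I) := by
    intro t
    have e0 : (θ : ℂ) ^ ((t : ℂ) * I) = Complex.exp (((Real.log θ * t : ℝ) : ℂ) * I) := by
      rw [Complex.cpow_def_of_ne_zero (by exact_mod_cast hθ.ne'), ← Complex.ofReal_log hθ.le]
      congr 1
      push_cast
      ring
    rw [Complex.ofReal_pow, ← Complex.mul_conj', twm_exp hExd hB R f t, map_sum,
      Finset.sum_mul_sum, Finset.sum_mul, e0]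
    refine Finset.sum_congr rfl fun k _ => ?_
    rw [Finset.sum_mul]
    refine Finset.sum_congr rfl fun l _ => ?_
    rw [twm_pw (twm_nQ_pos hB k), twm_pw (twm_nQ_pos hB l), map_mul, map_mul, Complex.conj_ofReal,
      Complex.conj_ofReal, ← Complex.exp_conj, map_mul, Complex.conj_ofReal, Complex.conj_I]
    have e1 : Complex.exp ((((Real.log θ + Real.log (nQ n B l) -
        Real.log (nQ n B k)) * t : ℝ) : ℂ) * I) =
        Complex.exp (((-Real.log (nQ n B k) * t : ℝ) : ℂ) * I) *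
        Complex.exp (((-Real.log (nQ n B l) * t : ℝ) : ℂ) * -I) *
        Complex.exp (((Real.log θ * t : ℝ) : ℂ) * I) := by
      rw [← Complex.exp_add, ← Complex.exp_add]
      congr 1
      push_cast
      ring
    rw [e1]
    push_cast
    ring
  rw [intervalIntegral.integral_congr (fun t _ => h1 t), intervalIntegral.integral_finsetSum]
  · refine Finset.sum_congr rfl fun k _ => ?_
    rw [intervalIntegral.integral_finsetSum]
    · refine Finset.sum_congr rfl fun l _ => ?_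
      rw [intervalIntegral.integral_const_mul]
    · intro l _
      exact ((twm_osc_cont _).const_mul _).intervalIntegrable _ _
  · intro k _
    refine Continuous.intervalIntegrable ?_ _ _
    exact continuous_finsetSum _ fun l _ => (twm_osc_cont _).const_mul _

/-- the near pairs are determined by one of them -/
private theorem twm_near {n : ℕ} {B : ℕ → Finset ℕ} {R : ℕ → ℕ} (hB : IsBl n B) {T Y θ : ℝ}
    (hT : 2 ≤ T) (hY : 1 ≤ Y) (hYT : 2 * Y ^ 2 < √T) (hnY : ∀ k ∈ VK n B R, (nQ n B k : ℝ) ≤ Y)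
    {k l k0 l0 : ℕ → ℕ} (hk : k ∈ VK n B R) (hl : l ∈ VK n B R) (hk0 : k0 ∈ VK n B R)
    (hl0 : l0 ∈ VK n B R)
    (h : |Real.log θ + Real.log (nQ n B l) - Real.log (nQ n B k)| ≤ (√T)⁻¹)
    (h0 : |Real.log θ + Real.log (nQ n B l0) - Real.log (nQ n B k0)| ≤ (√T)⁻¹) :
    k + l0 = l + k0 := by
  have hs0 : 0 < √T := Real.sqrt_pos.2 (by linarith)
  have hkm := (twm_mem hB).1 hk
  have hlm := (twm_mem hB).1 hl
  have hk0m := (twm_mem hB).1 hk0
  have hl0m := (twm_mem hB).1 hl0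
  have hpos : ∀ m : ℕ → ℕ, (0 : ℝ) < nQ n B m := fun m => by exact_mod_cast twm_nQ_pos hB m
  refine twm_nQ_inj hB ?_ ?_ ?_
  · intro p hp
    by_cases h1 : k p = 0
    · refine hl0m.1 p fun h2 => hp ?_
      rw [Pi.add_apply, h1, h2]
    · exact hkm.1 p h1
  · intro p hp
    by_cases h1 : l p = 0
    · refine hk0m.1 p fun h2 => hp ?_
      rw [Pi.add_apply, h1, h2]
    · exact hlm.1 p h1
  · by_contra hne
    have hb : ∀ u ∈ VK n B R, ∀ v ∈ VK n B R, (nQ n B (u + v) : ℝ) ≤ Y ^ 2 := by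
      intro u hu v hv
      rw [twm_nQ_add, Nat.cast_mul, pow_two]
      exact mul_le_mul (hnY u hu) (hnY v hv) (hpos v).le (by linarith)
    have h1 := twm_gap (twm_nQ_pos hB (k + l0)) (twm_nQ_pos hB (l + k0)) (hb k hk l0 hl0)
      (hb l hl k0 hk0) hne
    rw [twm_nQ_add, twm_nQ_add, Nat.cast_mul, Nat.cast_mul,
      Real.log_mul (hpos _).ne' (hpos _).ne', Real.log_mul (hpos _).ne' (hpos _).ne'] at h1
    have h2 : |Real.log (nQ n B k) + Real.log (nQ n B l0) -
        (Real.log (nQ n B l) + Real.log (nQ n B k0))| ≤ (√T)⁻¹ + (√T)⁻¹ := by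
      have e : Real.log (nQ n B k) + Real.log (nQ n B l0) -
          (Real.log (nQ n B l) + Real.log (nQ n B k0)) =
          (Real.log θ + Real.log (nQ n B l0) - Real.log (nQ n B k0)) -
          (Real.log θ + Real.log (nQ n B l) - Real.log (nQ n B k)) := by ring
      rw [e]
      refine (abs_sub _ _).trans ?_
      linarith
    have h3 : (√T)⁻¹ + (√T)⁻¹ < 1 / Y ^ 2 := by
      rw [← two_mul, ← div_eq_mul_inv, div_lt_div_iff₀ hs0 (by positivity)]
      linarith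
    linarith

theorem pTwm (hExd : S_Exd) (hDia : S_Dia) : S_Twm := by
  classical
  intro n B R f b W T Y Z θ hB hf hb hW hfb hT hY hYT hθ hnY hZ
  have hT0 : 0 < T := by linarith
  have hs0 : 0 < √T := Real.sqrt_pos.2 hT0
  have hpos : ∀ m : ℕ → ℕ, (0 : ℝ) < nQ n B m := fun m => by exact_mod_cast twm_nQ_pos hB m
  have hone : ∀ m : ℕ → ℕ, (1 : ℝ) ≤ nQ n B m := fun m => by exact_mod_cast twm_nQ_pos hB m
  have hcf : ∀ k, 0 ≤ cf n B f k := fun k => twm_cf_nonneg hf k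
  set lam : (ℕ → ℕ) → (ℕ → ℕ) → ℝ := fun k l =>
    Real.log θ + Real.log (nQ n B l) - Real.log (nQ n B k) with hlam
  set a : (ℕ → ℕ) → ℝ := fun k => cf n B f k * (√(nQ n B k : ℝ))⁻¹ with ha
  have ha0 : ∀ k, 0 ≤ a k := fun k => mul_nonneg (hcf k) (by positivity)
  have ha1 : ∀ k, a k ≤ cf n B f k := by
    intro k
    have h1 : (√(nQ n B k : ℝ))⁻¹ ≤ 1 := by
      refine inv_le_one_of_one_le₀ ?_
      rw [Real.one_le_sqrt]
      exact hone k
    calc a k ≤ cf n B f k * 1 := mul_le_mul_of_nonneg_left h1 (hcf k)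
      _ = cf n B f k := mul_one _
  set V := VK n B R with hV
  set near : Finset ((ℕ → ℕ) × (ℕ → ℕ)) :=
    (V ×ˢ V).filter fun q => |lam q.1 q.2| ≤ (√T)⁻¹ with hnear
  -- the basic estimate
  have hmain : ‖∫ t in T..(2 * T), ((‖MB n B R f (fun p => pw (1 / 2) p t)‖ ^ 2 : ℝ) : ℂ) *
      (θ : ℂ) ^ ((t : ℂ) * I)‖ ≤ ∑ q ∈ near, T * (a q.1 * a q.2) + 2 * √T * Z ^ 2 := by
    rw [twm_int hExd hB R f hθ]
    have h1 : ‖∑ k ∈ V, ∑ l ∈ V,
        ((cf n B f k * (√(nQ n B k : ℝ))⁻¹ * (cf n B f l * (√(nQ n B l : ℝ))⁻¹) : ℝ) : ℂ) *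
        ∫ t in T..(2 * T), Complex.exp ((((Real.log θ + Real.log (nQ n B l) -
          Real.log (nQ n B k)) * t : ℝ) : ℂ) * I)‖ ≤
        ∑ k ∈ V, ∑ l ∈ V, ((if |lam k l| ≤ (√T)⁻¹ then T * (a k * a l) else 0) +
          2 * √T * (cf n B f k * cf n B f l)) := by
      refine norm_sum_le_of_le _ fun k _ => norm_sum_le_of_le _ fun l _ => ?_
      rw [norm_mul, Complex.norm_real, Real.norm_eq_abs]
      have h2 : |cf n B f k * (√(nQ n B k : ℝ))⁻¹ * (cf n B f l * (√(nQ n B l : ℝ))⁻¹)| =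
          a k * a l := abs_of_nonneg (mul_nonneg (ha0 k) (ha0 l))
      rw [h2]
      have h3 : 0 ≤ 2 * √T * (cf n B f k * cf n B f l) :=
        mul_nonneg (by positivity) (mul_nonneg (hcf k) (hcf l))
      split_ifs with h4
      · have h5 := mul_le_mul_of_nonneg_left (twm_osc_le hT0.le (lam k l))
          (mul_nonneg (ha0 k) (ha0 l))
        rw [hlam] at h5
        linarith
      · have h6 : 0 < |lam k l| := lt_of_lt_of_le (by positivity) (not_le.1 h4).le
        have h7 : lam k l ≠ 0 := abs_pos.1 h6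
        have h8 := twm_osc (T := T) h7
        have h9 : 2 / |lam k l| ≤ 2 * √T := by
          rw [div_le_iff₀ h6]
          have h10 := (not_le.1 h4).le
          have h11 : 1 ≤ √T * |lam k l| := by
            calc (1 : ℝ) = √T * (√T)⁻¹ := (mul_inv_cancel₀ hs0.ne').symm
              _ ≤ √T * |lam k l| := mul_le_mul_of_nonneg_left h10 hs0.le
          linarith
        rw [zero_add]
        calc a k * a l * ‖∫ t in T..(2 * T), Complex.exp ((((Real.log θ +
              Real.log (nQ n B l) - Real.log (nQ n B k)) * t : ℝ) : ℂ) * I)‖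
            ≤ cf n B f k * cf n B f l * (2 * √T) :=
              mul_le_mul (mul_le_mul (ha1 k) (ha1 l) (ha0 l) (hcf k)) (h8.trans h9)
                (norm_nonneg _) (mul_nonneg (hcf k) (hcf l))
          _ = 2 * √T * (cf n B f k * cf n B f l) := by ring
    refine h1.trans ?_
    simp only [Finset.sum_add_distrib]
    refine add_le_add (le_of_eq ?_) ?_
    · rw [hnear, Finset.sum_filter, Finset.sum_product]
    · have h2 : ∑ k ∈ V, ∑ l ∈ V, 2 * √T * (cf n B f k * cf n B f l) =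
          2 * √T * (∑ k ∈ V, cf n B f k) ^ 2 := by
        rw [pow_two, Finset.sum_mul_sum, Finset.mul_sum]
        exact Finset.sum_congr rfl fun k _ => by rw [Finset.mul_sum]
      rw [h2]
      have h3 : 0 ≤ ∑ k ∈ V, cf n B f k := Finset.sum_nonneg fun k _ => hcf k
      exact mul_le_mul_of_nonneg_left (pow_le_pow_left₀ h3 hZ 2) (by positivity)
  rcases near.eq_empty_or_nonempty with he | ⟨⟨k0, l0⟩, hq0⟩
  · left
    rw [he, Finset.sum_empty, zero_add] at hmain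
    exact hmain
  · right
    rw [hnear, Finset.mem_filter, Finset.mem_product] at hq0
    obtain ⟨⟨hk0, hl0⟩, hn0⟩ := hq0
    simp only at hk0 hl0 hn0
    have hk0m := (twm_mem hB).1 hk0
    have hl0m := (twm_mem hB).1 hl0
    set g0 : ℕ → ℕ := fun p => min (k0 p) (l0 p) with hg0
    set r : ℕ → ℕ := fun p => k0 p - g0 p with hr
    set s : ℕ → ℕ := fun p => l0 p - g0 p with hs
    have hsub : ∀ u ∈ V, ∀ v : ℕ → ℕ, (∀ p, v p ≤ u p) → v ∈ V := by
      intro u hu v hv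
      have hum := (twm_mem hB).1 hu
      refine (twm_mem hB).2 ⟨fun p hp => hum.1 p ?_, fun i hi => ?_⟩
      · have := hv p
        omega
      · exact (Finset.sum_le_sum fun p _ => hv p).trans (hum.2 i hi)
    have hrV : r ∈ V := hsub k0 hk0 r fun p => Nat.sub_le _ _
    have hsV : s ∈ V := hsub l0 hl0 s fun p => Nat.sub_le _ _
    have hk0e : k0 = g0 + r := by
      funext p
      simp only [hg0, hr, Pi.add_apply]
      omega
    have hl0e : l0 = g0 + s := by
      funext p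
      simp only [hg0, hs, Pi.add_apply]
      omega
    -- a near pair
    have hpair : ∀ q ∈ near, q.1 = (fun p => min (q.1 p) (q.2 p)) + r ∧
        q.2 = (fun p => min (q.1 p) (q.2 p)) + s ∧ q.1 ∈ V ∧ q.2 ∈ V := by
      rintro ⟨k, l⟩ hq
      rw [hnear, Finset.mem_filter, Finset.mem_product] at hq
      obtain ⟨⟨hk, hl⟩, hn⟩ := hq
      simp only at hk hl hn
      have h1 := twm_near hB hT hY hYT hnY hk hl hk0 hl0 hn hn0
      refine ⟨?_, ?_, hk, hl⟩
      · funext p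
        have h2 := congrFun h1 p
        simp only [hr, hg0, Pi.add_apply] at h2 ⊢
        omega
      · funext p
        have h2 := congrFun h1 p
        simp only [hs, hg0, Pi.add_apply] at h2 ⊢
        omega
    refine ⟨r, hrV, s, hsV, fun p => ?_, ?_, hmain.trans (add_le_add ?_ le_rfl)⟩
    · simp only [hr, hs, hg0]
      omega
    · have e1 : Real.log (nQ n B k0) = Real.log (nQ n B g0) + Real.log (nQ n B r) := by
        rw [hk0e, twm_nQ_add, Nat.cast_mul, Real.log_mul (hpos _).ne' (hpos _).ne']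
      have e2 : Real.log (nQ n B l0) = Real.log (nQ n B g0) + Real.log (nQ n B s) := by
        rw [hl0e, twm_nQ_add, Nat.cast_mul, Real.log_mul (hpos _).ne' (hpos _).ne']
      have e3 : lam k0 l0 =
          Real.log θ - (Real.log (nQ n B r) - Real.log (nQ n B s)) := by
        simp only [hlam]
        rw [e1, e2]
        ring
      rw [← e3]
      exact hn0
    · -- the near part
      set G : (ℕ → ℕ) → ℝ := fun g => T * (√((nQ n B r : ℝ) * (nQ n B s : ℝ)))⁻¹ *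
        (cf n B f (g + r) * cf n B f (g + s) * ((nQ n B g : ℝ))⁻¹) with hG
      have hG0 : ∀ g, 0 ≤ G g := fun g => by
        have h1 := hcf (g + r)
        have h2 := hcf (g + s)
        simp only [hG]
        positivity
      have h1 : ∀ g : ℕ → ℕ, T * (a (g + r) * a (g + s)) = G g := by
        intro g
        simp only [ha, hG]
        rw [twm_nQ_add, twm_nQ_add, Nat.cast_mul, Nat.cast_mul, Real.sqrt_mul (hpos g).le,
          Real.sqrt_mul (hpos g).le, Real.sqrt_mul (hpos r).le]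
        have h2 : √(nQ n B g : ℝ) * √(nQ n B g : ℝ) = nQ n B g := Real.mul_self_sqrt (hpos g).le
        have h3 : ((nQ n B g : ℝ))⁻¹ = (√(nQ n B g : ℝ))⁻¹ * (√(nQ n B g : ℝ))⁻¹ := by
          rw [← mul_inv, h2]
        rw [h3]
        simp only [mul_inv]
        ring
      have h2 : ∑ q ∈ near, T * (a q.1 * a q.2) =
          ∑ q ∈ near, G (fun p => min (q.1 p) (q.2 p)) := by
        refine Finset.sum_congr rfl fun q hq => ?_
        obtain ⟨h3, h4, -, -⟩ := hpair q hq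
        rw [← h1, ← h3, ← h4]
      have h3 : ∑ q ∈ near, G (fun p => min (q.1 p) (q.2 p)) =
          ∑ g ∈ near.image (fun q => fun p => min (q.1 p) (q.2 p)), G g := by
        rw [Finset.sum_image]
        intro q hq q' hq' hqq
        obtain ⟨h4, h5, -, -⟩ := hpair q hq
        obtain ⟨h6, h7, -, -⟩ := hpair q' hq'
        simp only at hqq
        refine Prod.ext ?_ ?_
        · rw [h4, h6, hqq]
        · rw [h5, h7, hqq]
      have h4 : ∑ g ∈ near.image (fun q => fun p => min (q.1 p) (q.2 p)), G g ≤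
          ∑ g ∈ V, G g := by
        refine Finset.sum_le_sum_of_subset_of_nonneg ?_ fun g _ _ => hG0 g
        intro g hg
        rw [Finset.mem_image] at hg
        obtain ⟨q, hq, rfl⟩ := hg
        obtain ⟨-, -, h5, -⟩ := hpair q hq
        exact hsub q.1 h5 _ fun p => min_le_left _ _
      rw [h2, h3]
      refine h4.trans ?_
      simp only [hG]
      rw [← Finset.mul_sum]
      have h5 := hDia n B R f b W hB hf hb hW hfb r hrV s hsV
      have h6 := mul_le_mul_of_nonneg_left h5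
        (by positivity : 0 ≤ T * (√((nQ n B r : ℝ) * (nQ n B s : ℝ)))⁻¹)
      refine h6.trans (le_of_eq ?_)
      unfold Phi
      ring

end Pool.Agent.Lib.MP_aa9ae4_nt.L1
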