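import Mathlib
import Pool.Agent.Lib.MP_aa9ae4_nt.L1.SpecB

/-!
MP_aa9ae4_nt, Theorem L: the total mass (`S_Wsm`).
-/

namespace Pool.Agent.Lib.MP_aa9ae4_nt.L1

open Finset MeasureTheory Filter Topology
open Complex (I)

private theorem wsm_half (n : ℕ) : ∑ i ∈ range n, (1 / 2 : ℝ) ^ (i + 1) ≤ 1 := by
  have h : ∀ n : ℕ, ∑ i ∈ range n, (1 / 2 : ℝ) ^ (i + 1) = 1 - (1 / 2) ^ n := by
    intro n
    induction n with
    | zero => simp
    | succ n ih => rw [Finset.sum_range_succ, ih, pow_succ]; ring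
  rw [h]
  have : (0 : ℝ) ≤ (1 / 2) ^ n := by positivity
  linarith

private theorem wsm_K (C1 : ℝ) (hC : 2 ≤ C1) (i : ℕ) :
    Real.exp (-(Kb C1 i : ℝ)) ≤ (1 / 2) ^ (i + 1) := by
  have h1 : C1 * Real.exp ((i : ℝ) / 2) ≤ (Kb C1 i : ℝ) := Nat.le_ceil _
  have h2 : (i : ℝ) / 2 + 1 ≤ Real.exp ((i : ℝ) / 2) := Real.add_one_le_exp _
  have hi : (0 : ℝ) ≤ i := Nat.cast_nonneg i
  have h3 : 2 * ((i : ℝ) / 2 + 1) ≤ (Kb C1 i : ℝ) := by
    refine le_trans ?_ h1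
    exact mul_le_mul hC h2 (by positivity) (by linarith)
  have h4 : (1 / 2 : ℝ) ^ (i + 1) = (2 ^ (i + 1))⁻¹ := by
    rw [one_div, inv_pow]
  have h5 : (2 : ℝ) ^ (i + 1) ≤ Real.exp ((i : ℝ) + 1) := by
    have h6 : (2 : ℝ) ≤ Real.exp 1 := by
      have := Real.add_one_le_exp (1 : ℝ)
      linarith
    have h7 : Real.exp ((i : ℝ) + 1) = Real.exp 1 ^ (i + 1) := by
      rw [← Real.exp_nat_mul]
      push_cast
      ring_nf
    rw [h7]
    exact pow_le_pow_left₀ (by norm_num) h6 _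
  rw [h4]
  calc Real.exp (-(Kb C1 i : ℝ)) ≤ Real.exp (-((i : ℝ) + 1)) :=
        Real.exp_le_exp.2 (by linarith)
    _ = (Real.exp ((i : ℝ) + 1))⁻¹ := Real.exp_neg _
    _ ≤ _ := by gcongr

/-- one factor -/
private theorem wsm_q (c V K : ℝ) (M : ℕ) (hK : 0 < K) (hV : 0 ≤ V)
    (h : c ^ 2 * M * V / K ^ 2 ≤ 1 / 3) (hKM : K ≤ M) :
    (c / K) ^ (2 * M) * (M.factorial : ℝ) * V ^ M ≤ Real.exp (-K) := by
  have h1 : (M.factorial : ℝ) ≤ (M : ℝ) ^ M := by exact_mod_cast Nat.factorial_le_pow M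
  have h2 : (c / K) ^ (2 * M) = ((c / K) ^ 2) ^ M := pow_mul _ _ _
  have h3 : (0 : ℝ) ≤ ((c / K) ^ 2) ^ M := by positivity
  have h4 : (c / K) ^ (2 * M) * (M.factorial : ℝ) * V ^ M ≤ (c ^ 2 * M * V / K ^ 2) ^ M := by
    calc (c / K) ^ (2 * M) * (M.factorial : ℝ) * V ^ M
        ≤ ((c / K) ^ 2) ^ M * (M : ℝ) ^ M * V ^ M := by
          rw [h2]
          gcongr
      _ = (c ^ 2 * M * V / K ^ 2) ^ M := by
          rw [← mul_pow, ← mul_pow]
          congr 1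
          rw [div_pow]
          ring
  have h5 : (0 : ℝ) ≤ c ^ 2 * M * V / K ^ 2 := by positivity
  have h6 : (1 / 3 : ℝ) ≤ Real.exp (-1) := by
    rw [Real.exp_neg, one_div]
    have := Real.exp_one_lt_three
    gcongr
  calc (c / K) ^ (2 * M) * (M.factorial : ℝ) * V ^ M ≤ (c ^ 2 * M * V / K ^ 2) ^ M := h4
    _ ≤ (Real.exp (-1)) ^ M := pow_le_pow_left₀ h5 (h.trans h6) _
    _ = Real.exp (-(M : ℝ)) := by
        rw [← Real.exp_nat_mul]
        ring_nf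
    _ ≤ Real.exp (-K) := Real.exp_le_exp.2 (by linarith)

theorem pWsm (hBk : S_Bk) : S_Wsm := by
  intro k m C1 C0 η hk hm hC0 hC1 hη hη1
  refine ⟨Real.exp (1 + k ^ 2 * (C0 + |Real.log η| + 1)), Real.exp_pos _, ?_⟩
  filter_upwards [hBk C0 η hC0 hη hη1, eventually_ge_atTop (Real.exp (Real.exp 1))] with T hT hT2
  obtain ⟨-, -, -, ⟨b4, -⟩, -, -, b8⟩ := hT
  have hTp : 0 < T := (Real.exp_pos _).trans_le hT2
  have hL : Real.exp 1 ≤ Real.log T := (Real.le_log_iff_exp_le hTp).2 hT2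
  have hLp : 0 < Real.log T := (Real.exp_pos _).trans_le hL
  have hl : 1 ≤ Real.log (Real.log T) := (Real.le_log_iff_exp_le hLp).2 hL
  have hC4 : 4 ≤ C0 := hC0.1
  have hck : 120 ≤ ck k := by
    unfold ck
    linarith
  have hm1 : (1 : ℝ) ≤ m := by exact_mod_cast hm
  have hcm : 1 ≤ ck k ^ 2 * m := by nlinarith
  have hC12 : 2 ≤ C1 := by
    refine le_trans ?_ hC1
    nlinarith
  have h1 : ∑ S ∈ (range (nI T + 1)).powerset, WS k m C1 C0 η T S =
      ∏ i ∈ range (nI T + 1), (Real.exp (k ^ 2 * Vb η T i) +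
        (ck k / (Kb C1 i : ℝ)) ^ (2 * (m * Kb C1 i)) * ((m * Kb C1 i).factorial : ℝ) *
          Vu C0 T i ^ (m * Kb C1 i)) := by
    rw [Finset.prod_add]
    refine Finset.sum_congr rfl fun S hS => ?_
    have hSn : S ⊆ range (nI T + 1) := Finset.mem_powerset.1 hS
    have hf1 : (range (nI T + 1)).filter (fun i => i ∈ S) = S := by
      ext i
      simp only [Finset.mem_filter]
      exact ⟨fun h => h.2, fun h => ⟨hSn h, h⟩⟩
    have hf2 : (range (nI T + 1)).filter (fun i => i ∉ S) = range (nI T + 1) \ S := by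
      ext i
      simp only [Finset.mem_filter, Finset.mem_sdiff]
    unfold WS wS
    rw [Finset.prod_ite, hf1, hf2]
  have hVb0 : ∀ i, 0 ≤ Vb η T i := by
    intro i
    unfold Vb
    positivity
  have h2 : ∀ i ∈ range (nI T + 1), Real.exp (k ^ 2 * Vb η T i) +
        (ck k / (Kb C1 i : ℝ)) ^ (2 * (m * Kb C1 i)) * ((m * Kb C1 i).factorial : ℝ) *
          Vu C0 T i ^ (m * Kb C1 i) ≤
      Real.exp (k ^ 2 * Vb η T i) * Real.exp ((1 / 2) ^ (i + 1)) := by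
    intro i hi
    have hi' : i ≤ nI T := by
      have := Finset.mem_range.1 hi
      omega
    have hK1 : C1 * Real.exp ((i : ℝ) / 2) ≤ (Kb C1 i : ℝ) := Nat.le_ceil _
    have he1 : (1 : ℝ) ≤ Real.exp ((i : ℝ) / 2) := Real.one_le_exp (by positivity)
    have hKp : (0 : ℝ) < Kb C1 i := by nlinarith
    have hVu0 : 0 ≤ Vu C0 T i := by
      unfold Vu
      split_ifs
      · linarith
      · positivity
    have hVu : Vu C0 T i ≤ C0 * Real.exp ((i : ℝ) / 2) := by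
      unfold Vu
      split_ifs with h
      · nlinarith
      · have hin : i = nI T := by omega
        rw [hin]
        exact mul_le_mul_of_nonneg_left b4 (by linarith)
    have hq := wsm_q (ck k) (Vu C0 T i) (Kb C1 i) (m * Kb C1 i) hKp hVu0 ?_ ?_
    · have hexp1 : 1 ≤ Real.exp (k ^ 2 * Vb η T i) :=
        Real.one_le_exp (mul_nonneg (sq_nonneg _) (hVb0 i))
      have h3 := hq.trans (wsm_K C1 hC12 i)
      have h4 : (1 / 2 : ℝ) ^ (i + 1) + 1 ≤ Real.exp ((1 / 2) ^ (i + 1)) :=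
        Real.add_one_le_exp _
      have h5 : (0 : ℝ) ≤ (1 / 2) ^ (i + 1) := by positivity
      calc _ ≤ Real.exp (k ^ 2 * Vb η T i) + (1 / 2) ^ (i + 1) := by linarith
        _ ≤ Real.exp (k ^ 2 * Vb η T i) * ((1 / 2) ^ (i + 1) + 1) := by nlinarith
        _ ≤ _ := mul_le_mul_of_nonneg_left h4 (Real.exp_pos _).le
    · have h3 : (((m * Kb C1 i : ℕ)) : ℝ) = m * Kb C1 i := by push_cast; rfl
      rw [h3, div_le_iff₀ (by positivity)]
      have h4 : 3 * (ck k ^ 2 * m * Vu C0 T i) ≤ Kb C1 i := by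
        calc 3 * (ck k ^ 2 * m * Vu C0 T i)
            ≤ 3 * (ck k ^ 2 * m * (C0 * Real.exp ((i : ℝ) / 2))) := by gcongr
          _ = (3 * ck k ^ 2 * m * C0) * Real.exp ((i : ℝ) / 2) := by ring
          _ ≤ C1 * Real.exp ((i : ℝ) / 2) := by gcongr
          _ ≤ _ := hK1
      calc ck k ^ 2 * (m * (Kb C1 i : ℝ)) * Vu C0 T i
          = (1 / 3) * ((3 * (ck k ^ 2 * m * Vu C0 T i)) * Kb C1 i) := by ring
        _ ≤ (1 / 3) * ((Kb C1 i : ℝ) * Kb C1 i) := by gcongr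
        _ = 1 / 3 * (Kb C1 i : ℝ) ^ 2 := by ring
    · have h3 : (((m * Kb C1 i : ℕ)) : ℝ) = m * Kb C1 i := by push_cast; rfl
      rw [h3]
      nlinarith
  rw [h1]
  have hKpos : ∀ i, 0 ≤ (ck k / (Kb C1 i : ℝ)) ^ (2 * (m * Kb C1 i)) *
      ((m * Kb C1 i).factorial : ℝ) * Vu C0 T i ^ (m * Kb C1 i) := by
    intro i
    have hVu0 : 0 ≤ Vu C0 T i := by
      unfold Vu
      split_ifs
      · linarith
      · positivity
    have : 0 ≤ ck k := by linarith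
    positivity
  calc _ ≤ ∏ i ∈ range (nI T + 1), (Real.exp (k ^ 2 * Vb η T i) * Real.exp ((1 / 2) ^ (i + 1))) :=
        Finset.prod_le_prod (fun i _ => add_nonneg (Real.exp_pos _).le (hKpos i)) h2
    _ = Real.exp (k ^ 2 * ∑ i ∈ range (nI T + 1), Vb η T i) *
        Real.exp (∑ i ∈ range (nI T + 1), (1 / 2 : ℝ) ^ (i + 1)) := by
        rw [Finset.prod_mul_distrib, ← Real.exp_sum, ← Real.exp_sum, Finset.mul_sum]
    _ ≤ Real.exp (k ^ 2 * (Real.log (Real.log T) + (C0 + |Real.log η| + 1))) * Real.exp 1 := by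
        have h3 := (abs_le.1 b8).2
        have h4 := wsm_half (nI T + 1)
        gcongr
        linarith
    _ = Real.exp (1 + k ^ 2 * (C0 + |Real.log η| + 1)) * Real.log T ^ (k ^ 2) := by
        rw [Real.rpow_def_of_pos hLp, ← Real.exp_add, ← Real.exp_add]
        congr 1
        ring

end Pool.Agent.Lib.MP_aa9ae4_nt.L1
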