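import Pool.Agent.Lib.MP_aa9ae4_nt.L1.SpecA
import Pool.Agent.Lib.MP_aa9ae4_nt.ZetaApprox

/-!
MP_aa9ae4_nt, Theorem L: approximation of `ζ(1/2+it)` by a sum of length `T^(3/2)` (`S_Zap`).
-/

namespace Pool.Agent.Lib.MP_aa9ae4_nt.L1

open Finset MeasureTheory Filter Topology
open Complex (I)
open Pool.Agent.Lib.MP_aa9ae4_nt.S1

private theorem zap_deriv (r : ℂ) {x : ℝ} (hx : 0 < x) :
    HasDerivAt (fun y : ℝ => (y : ℂ) ^ r) (r * (x : ℂ) ^ (r - 1)) x := by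
  have h : HasStrictDerivAt (fun z : ℂ => z ^ r) (r * (x : ℂ) ^ (r - 1)) (x : ℂ) :=
    Complex.hasStrictDerivAt_cpow_const (Or.inl (by simpa using hx))
  exact h.hasDerivAt.comp_ofReal

/-- the error of the trapezoidal rule -/
private noncomputable def zapE (n : ℕ) (s : ℂ) : ℂ :=
  ((n : ℂ) ^ (1 - s) - ((n + 1 : ℕ) : ℂ) ^ (1 - s)) / (s - 1) -
    ((n : ℂ) ^ (-s) + ((n + 1 : ℕ) : ℂ) ^ (-s)) / 2

private theorem zap_trap {n : ℕ} (hn : 1 ≤ n) {s : ℂ} (hs : s ≠ 1) (hre : 0 < s.re) :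
    ‖zapE n s‖ ≤ ‖s‖ * ‖s + 1‖ * (n : ℝ) ^ (-s.re - 2) := by
  have hn0 : (0 : ℝ) < n := by exact_mod_cast hn
  have hs1 : s - 1 ≠ 0 := sub_ne_zero.mpr hs
  set K : ℝ := ‖s‖ * ‖s + 1‖ * (n : ℝ) ^ (-s.re - 2) with hK
  have hK0 : 0 ≤ K := by positivity
  set φ : ℝ → ℂ := fun x => ((n : ℂ) ^ (1 - s) - (x : ℂ) ^ (1 - s)) / (s - 1) -
    ((x : ℂ) - n) * ((n : ℂ) ^ (-s) + (x : ℂ) ^ (-s)) / 2 with hφ
  set φ1 : ℝ → ℂ := fun x => ((x : ℂ) ^ (-s) - (n : ℂ) ^ (-s)) / 2 +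
    ((x : ℂ) - n) * (s * (x : ℂ) ^ (-s - 1)) / 2 with hφ1
  set φ2 : ℝ → ℂ := fun x => -(((x : ℂ) - n) * (s * (s + 1) * (x : ℂ) ^ (-s - 2))) / 2 with hφ2
  have hid : ∀ x : ℝ, HasDerivAt (fun y : ℝ => (y : ℂ) - n) 1 x := by
    intro x
    have := (Complex.ofRealCLM.hasDerivAt (x := x)).sub_const (n : ℂ)
    simpa using this
  have hd1 : ∀ x : ℝ, 0 < x → HasDerivAt φ (φ1 x) x := by
    intro x hx
    have h1 := zap_deriv (1 - s) hx
    have h2 := zap_deriv (-s) hx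
    have h3 := ((h1.const_sub ((n : ℂ) ^ (1 - s))).div_const (s - 1)).sub
      (((hid x).mul (h2.const_add ((n : ℂ) ^ (-s)))).div_const 2)
    refine h3.congr_deriv ?_
    simp only [hφ1]
    have e1 : (1 - s - 1 : ℂ) = -s := by ring
    rw [e1]
    field_simp
    ring
  have hd2 : ∀ x : ℝ, 0 < x → HasDerivAt φ1 (φ2 x) x := by
    intro x hx
    have h2 := zap_deriv (-s) hx
    have h4 := zap_deriv (-s - 1) hx
    have h3 := ((h2.sub_const ((n : ℂ) ^ (-s))).div_const 2).add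
      (((hid x).mul (h4.const_mul s)).div_const 2)
    refine h3.congr_deriv ?_
    simp only [hφ2]
    have e1 : (-s - 1 - 1 : ℂ) = -s - 2 := by ring
    rw [e1]
    ring
  have hb2 : ∀ x ∈ Set.Ico (n : ℝ) (n + 1), ‖φ2 x‖ ≤ K := by
    intro x hx
    have hx0 : 0 < x := lt_of_lt_of_le hn0 hx.1
    simp only [hφ2]
    rw [norm_div, norm_neg, norm_mul, norm_mul, norm_mul,
      Complex.norm_cpow_eq_rpow_re_of_pos hx0]
    have e1 : (-s - 2 : ℂ).re = -s.re - 2 := by simp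
    rw [e1]
    have h1 : ‖(x : ℂ) - n‖ ≤ 1 := by
      have e2 : (x : ℂ) - n = ((x - n : ℝ) : ℂ) := by push_cast; ring
      rw [e2, Complex.norm_real, Real.norm_eq_abs, abs_le]
      constructor <;> linarith [hx.1, hx.2]
    have h2 : x ^ (-s.re - 2) ≤ (n : ℝ) ^ (-s.re - 2) :=
      Real.rpow_le_rpow_of_nonpos hn0 hx.1 (by linarith)
    have h3 : ‖(2 : ℂ)‖ = 2 := by simp
    rw [h3]
    have h4 : ‖(x : ℂ) - n‖ * (‖s‖ * ‖s + 1‖ * x ^ (-s.re - 2)) ≤ 1 * K := by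
      refine mul_le_mul h1 ?_ (by positivity) (by norm_num)
      rw [hK]
      exact mul_le_mul_of_nonneg_left h2 (by positivity)
    linarith [hK0]
  have hb1 : ∀ x ∈ Set.Icc (n : ℝ) (n + 1), ‖φ1 x‖ ≤ K := by
    intro x hx
    have h1 := norm_image_sub_le_of_norm_deriv_le_segment' (f := φ1) (f' := φ2) (C := K)
      (a := (n : ℝ)) (b := (n : ℝ) + 1)
      (fun y hy => (hd2 y (lt_of_lt_of_le hn0 hy.1)).hasDerivWithinAt) hb2 x hx
    have h2 : φ1 n = 0 := by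
      simp [hφ1]
    rw [h2, sub_zero] at h1
    refine h1.trans ?_
    have : x - n ≤ 1 := by linarith [hx.2]
    calc K * (x - n) ≤ K * 1 := mul_le_mul_of_nonneg_left this hK0
      _ = K := mul_one K
  have h1 := norm_image_sub_le_of_norm_deriv_le_segment' (f := φ) (f' := φ1) (C := K)
      (a := (n : ℝ)) (b := (n : ℝ) + 1)
      (fun y hy => (hd1 y (lt_of_lt_of_le hn0 hy.1)).hasDerivWithinAt)
      (fun y hy => hb1 y ⟨hy.1, hy.2.le⟩) ((n : ℝ) + 1) ⟨by linarith, le_rfl⟩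
  have h2 : φ n = 0 := by
    simp [hφ]
  have h3 : φ ((n : ℝ) + 1) = zapE n s := by
    simp only [hφ, zapE]
    push_cast
    ring
  rw [h2, sub_zero, h3] at h1
  linarith

private theorem zap_F (n : ℕ) {s : ℂ} (hs : s ≠ 1) :
    zetaApprox_F n s / (s - 1) = zapE n s + ((n : ℂ) ^ (-s) - ((n + 1 : ℕ) : ℂ) ^ (-s)) / 2 := by
  have hs1 : s - 1 ≠ 0 := sub_ne_zero.mpr hs
  unfold zetaApprox_F zapE
  field_simp
  ring

private theorem zap_sum (N k : ℕ) {s : ℂ} (hs : s ≠ 1) :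
    (∑ i ∈ range k, zetaApprox_F (N + i) s) / (s - 1) =
      ∑ i ∈ range k, zapE (N + i) s + ((N : ℂ) ^ (-s) - ((N + k : ℕ) : ℂ) ^ (-s)) / 2 := by
  induction k with
  | zero => simp
  | succ k ih =>
    rw [Finset.sum_range_succ, Finset.sum_range_succ, add_div, ih, zap_F _ hs, ← add_assoc N k 1]
    ring

private theorem zap_five {n : ℕ} (hn : 1 ≤ n) :
    (n : ℝ) ^ (-(1 / 2 : ℝ) - 2) ≤
      6 * ((n : ℝ) ^ (-(3 / 2 : ℝ)) - ((n + 1 : ℕ) : ℝ) ^ (-(3 / 2 : ℝ))) := by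
  have hn0 : (0 : ℝ) < n := by exact_mod_cast hn
  have hn1 : (1 : ℝ) ≤ n := by exact_mod_cast hn
  have hm0 : (0 : ℝ) < ((n + 1 : ℕ) : ℝ) := by positivity
  have hle : (n : ℝ) ≤ ((n + 1 : ℕ) : ℝ) := by push_cast; linarith
  -- lower bound for the integral
  have h1 : ((n + 1 : ℕ) : ℝ) ^ (-(3 / 2 : ℝ) - 1) ≤ zetaApprox_I n (3 / 2) := by
    have h2 : ∫ _u in (n : ℝ)..((n + 1 : ℕ) : ℝ), ((n + 1 : ℕ) : ℝ) ^ (-(3 / 2 : ℝ) - 1) ≤
        zetaApprox_I n (3 / 2) := by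
      refine intervalIntegral.integral_mono_on hle intervalIntegrable_const
        (zetaApprox_intble hn le_rfl hle) ?_
      intro u hu
      exact Real.rpow_le_rpow_of_nonpos (lt_of_lt_of_le hn0 hu.1) hu.2 (by norm_num)
    rw [intervalIntegral.integral_const] at h2
    simpa using h2
  rw [zetaApprox_I_eq hn (by norm_num : (0 : ℝ) < 3 / 2)] at h1
  have h3 : (n : ℝ) ^ (-(1 / 2 : ℝ) - 2) ≤ 6 * ((n + 1 : ℕ) : ℝ) ^ (-(3 / 2 : ℝ) - 1) := by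
    have e1 : (-(1 / 2 : ℝ) - 2) = -(5 / 2) := by norm_num
    have e2 : (-(3 / 2 : ℝ) - 1) = -(5 / 2) := by norm_num
    rw [e1, e2]
    have h4 : (2 * (n : ℝ)) ^ (-(5 / 2) : ℝ) ≤ ((n + 1 : ℕ) : ℝ) ^ (-(5 / 2) : ℝ) := by
      refine Real.rpow_le_rpow_of_nonpos hm0 ?_ (by norm_num)
      push_cast
      linarith
    rw [Real.mul_rpow (by norm_num) hn0.le] at h4
    have h5 : (1 : ℝ) / 6 ≤ (2 : ℝ) ^ (-(5 / 2) : ℝ) := by
      have h6 : (2 : ℝ) ^ (5 / 2 : ℝ) ≤ 6 := by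
        have h7 : ((2 : ℝ) ^ (5 / 2 : ℝ)) ^ 2 = 32 := by
          rw [← Real.rpow_natCast, ← Real.rpow_mul (by norm_num)]
          norm_num
        nlinarith [Real.rpow_nonneg (by norm_num : (0 : ℝ) ≤ 2) (5 / 2 : ℝ)]
      rw [Real.rpow_neg (by norm_num), ← one_div]
      exact one_div_le_one_div_of_le (by positivity) h6
    have h8 : 0 ≤ (n : ℝ) ^ (-(5 / 2) : ℝ) := by positivity
    nlinarith
  have h9 : 0 ≤ (n : ℝ) ^ (-(3 / 2 : ℝ)) - ((n + 1 : ℕ) : ℝ) ^ (-(3 / 2 : ℝ)) := by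
    have := Real.rpow_le_rpow_of_nonpos hn0 hle (by norm_num : (-(3 / 2 : ℝ)) ≤ 0)
    linarith
  rw [le_div_iff₀ (by norm_num)] at h1
  nlinarith

private theorem zap_tail {N k : ℕ} (hN : 1 ≤ N) :
    ∑ i ∈ range k, ((N + i : ℕ) : ℝ) ^ (-(1 / 2 : ℝ) - 2) ≤
      6 * ((N : ℝ) ^ (-(3 / 2 : ℝ)) - ((N + k : ℕ) : ℝ) ^ (-(3 / 2 : ℝ))) := by
  induction k with
  | zero => simp
  | succ k ih =>
    rw [Finset.sum_range_succ, ← add_assoc N k 1]
    have := zap_five (n := N + k) (by omega)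
    linarith

theorem pZap : S_Zap := by
  refine ⟨100, by norm_num, fun T t hT ht1 ht2 => ?_⟩
  have hT0 : 0 < T := by linarith
  set s : ℂ := 1 / 2 + t * I with hs
  have hsre : s.re = 1 / 2 := by simp [hs]
  have hsim : s.im = t := by simp [hs]
  have hs1 : s ≠ 1 := by
    intro h
    have := congrArg Complex.re h
    rw [hsre] at this
    norm_num at this
  have hsub : s - 1 ≠ 0 := sub_ne_zero.mpr hs1
  have hns : ‖s‖ ≤ 3 * T := by
    calc ‖s‖ ≤ ‖(1 / 2 : ℂ)‖ + ‖(t : ℂ) * I‖ := norm_add_le _ _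
      _ = 1 / 2 + |t| := by simp
      _ ≤ 3 * T := by
        rw [abs_of_pos (by linarith)]
        linarith
  have hns1 : ‖s + 1‖ ≤ 4 * T := by
    calc ‖s + 1‖ ≤ ‖s‖ + ‖(1 : ℂ)‖ := norm_add_le _ _
      _ ≤ 4 * T := by rw [norm_one]; linarith
  have hnl : T ≤ ‖s - 1‖ := by
    have h1 : |(s - 1).im| ≤ ‖s - 1‖ := Complex.abs_im_le_norm _
    have h2 : (s - 1).im = t := by simp [hsim]
    rw [h2, abs_of_pos (by linarith)] at h1
    linarith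
  set N : ℕ := ⌈T ^ (3 / 2 : ℝ)⌉₊ with hN
  have hT32 : 1 ≤ T ^ (3 / 2 : ℝ) := Real.one_le_rpow (by linarith) (by norm_num)
  have hNle : T ^ (3 / 2 : ℝ) ≤ N := Nat.le_ceil _
  have hNu : (N : ℝ) ≤ 2 * T ^ (3 / 2 : ℝ) := by
    have := Nat.ceil_lt_add_one (by positivity : 0 ≤ T ^ (3 / 2 : ℝ))
    linarith
  have hN1 : 1 ≤ N := by
    have : (1 : ℝ) ≤ N := hT32.trans hNle
    exact_mod_cast this
  have hN0 : (0 : ℝ) < N := by exact_mod_cast hN1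
  set k : ℕ := ⌈T ^ 4⌉₊ with hk
  have hM1 : 1 ≤ N + k := by omega
  have hM : T ^ 4 ≤ ((N + k : ℕ) : ℝ) := by
    have h1 : T ^ 4 ≤ (k : ℝ) := Nat.le_ceil _
    push_cast
    linarith
  have hM0 : (0 : ℝ) < ((N + k : ℕ) : ℝ) := by exact_mod_cast hM1
  -- the approximation with `N + k` terms
  have hA := zeta_approx (s := s) (by rw [hsre]; norm_num) hs1 (N + k) hM1
  have hG := zetaApprox_G_add N k s
  have hS := zap_sum N k hs1
  have key : riemannZeta s - zsum s N =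
      (riemannZeta s - zsum s (N + k) - ((N + k : ℕ) : ℂ) ^ (1 - s) / (s - 1)) +
      (N : ℂ) ^ (1 - s) / (s - 1) - ((N : ℂ) ^ (-s) - ((N + k : ℕ) : ℂ) ^ (-s)) / 2 -
      ∑ i ∈ range k, zapE (N + i) s := by
    have h1 : zsum s (N + k) + ((N + k : ℕ) : ℂ) ^ (1 - s) / (s - 1) =
        zetaApprox_G (N + k) s / (s - 1) := by
      unfold zetaApprox_G
      field_simp
    have h2 : zsum s N + (N : ℂ) ^ (1 - s) / (s - 1) = zetaApprox_G N s / (s - 1) := by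
      unfold zetaApprox_G
      field_simp
    rw [hG, sub_div, hS, ← h2] at h1
    linear_combination h1
  rw [key]
  set q : ℝ := T ^ (-(1 / 4) : ℝ) with hq
  have hq0 : 0 < q := by positivity
  -- powers of T
  have hTp : ∀ x : ℝ, x ≤ -(1 / 4) → T ^ x ≤ q := fun x hx =>
    Real.rpow_le_rpow_of_exponent_le (by linarith) hx
  have b1 : ‖riemannZeta s - zsum s (N + k) - ((N + k : ℕ) : ℂ) ^ (1 - s) / (s - 1)‖ ≤ 6 * q := by
    refine hA.trans ?_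
    rw [hsre]
    have h1 : ((N + k : ℕ) : ℝ) ^ (-(1 / 2) : ℝ) ≤ T ^ (-2 : ℝ) := by
      calc ((N + k : ℕ) : ℝ) ^ (-(1 / 2) : ℝ) ≤ (T ^ 4) ^ (-(1 / 2) : ℝ) :=
            Real.rpow_le_rpow_of_nonpos (by positivity) hM (by norm_num)
        _ = T ^ (-2 : ℝ) := by
          rw [← Real.rpow_natCast, ← Real.rpow_mul hT0.le]
          norm_num
    have h2 : T * T ^ (-2 : ℝ) = T ^ (-1 : ℝ) := by
      nth_rewrite 1 [← Real.rpow_one T]
      rw [← Real.rpow_add hT0]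
      norm_num
    have h3 := hTp (-1) (by norm_num)
    have h4 : ‖s‖ * ((N + k : ℕ) : ℝ) ^ (-(1 / 2) : ℝ) ≤ 3 * T * T ^ (-2 : ℝ) :=
      mul_le_mul hns h1 (by positivity) (by positivity)
    rw [div_le_iff₀ (by norm_num)]
    nlinarith
  have b2 : ‖(N : ℂ) ^ (1 - s) / (s - 1)‖ ≤ 2 * q := by
    rw [norm_div, Complex.norm_natCast_cpow_of_pos hN1]
    have e1 : (1 - s).re = 1 / 2 := by
      rw [Complex.sub_re, hsre]
      norm_num
    rw [e1, div_le_iff₀ (lt_of_lt_of_le hT0 hnl)]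
    have h1 : (N : ℝ) ^ (1 / 2 : ℝ) ≤ 2 * T ^ (3 / 4 : ℝ) := by
      calc (N : ℝ) ^ (1 / 2 : ℝ) ≤ (2 * T ^ (3 / 2 : ℝ)) ^ (1 / 2 : ℝ) :=
            Real.rpow_le_rpow hN0.le hNu (by norm_num)
        _ = 2 ^ (1 / 2 : ℝ) * T ^ (3 / 4 : ℝ) := by
          rw [Real.mul_rpow (by norm_num) (by positivity), ← Real.rpow_mul hT0.le]
          norm_num
        _ ≤ 2 * T ^ (3 / 4 : ℝ) := by
          refine mul_le_mul_of_nonneg_right ?_ (by positivity)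
          calc (2 : ℝ) ^ (1 / 2 : ℝ) ≤ 2 ^ (1 : ℝ) :=
                Real.rpow_le_rpow_of_exponent_le (by norm_num) (by norm_num)
            _ = 2 := by norm_num
    have h2 : q * T = T ^ (3 / 4 : ℝ) := by
      rw [hq]
      nth_rewrite 2 [← Real.rpow_one T]
      rw [← Real.rpow_add hT0]
      norm_num
    have h3 : q * T ≤ q * ‖s - 1‖ := mul_le_mul_of_nonneg_left hnl hq0.le
    nlinarith
  have c1 : ∀ m : ℕ, 1 ≤ m → T ≤ m → ‖(m : ℂ) ^ (-s)‖ ≤ q := by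
    intro m hm hTm
    rw [Complex.norm_natCast_cpow_of_pos hm, Complex.neg_re, hsre]
    calc (m : ℝ) ^ (-(1 / 2) : ℝ) ≤ T ^ (-(1 / 2) : ℝ) :=
          Real.rpow_le_rpow_of_nonpos hT0 hTm (by norm_num)
      _ ≤ q := hTp _ (by norm_num)
  have hTN : T ≤ N := by
    refine le_trans ?_ hNle
    nth_rewrite 1 [← Real.rpow_one T]
    exact Real.rpow_le_rpow_of_exponent_le (by linarith) (by norm_num)
  have b3 : ‖((N : ℂ) ^ (-s) - ((N + k : ℕ) : ℂ) ^ (-s)) / 2‖ ≤ q := by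
    rw [norm_div]
    have h1 := c1 N hN1 hTN
    have h2 := c1 (N + k) hM1 (by push_cast; linarith [(Nat.cast_nonneg k : (0 : ℝ) ≤ k)])
    have h3 : ‖(2 : ℂ)‖ = 2 := by simp
    rw [h3, div_le_iff₀ (by norm_num)]
    refine (norm_sub_le _ _).trans ?_
    linarith
  have b4 : ‖∑ i ∈ range k, zapE (N + i) s‖ ≤ 72 * q := by
    have h1 : ‖∑ i ∈ range k, zapE (N + i) s‖ ≤
        ∑ i ∈ range k, ‖s‖ * ‖s + 1‖ * ((N + i : ℕ) : ℝ) ^ (-(1 / 2 : ℝ) - 2) := by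
      refine norm_sum_le_of_le _ fun i _ => ?_
      have := zap_trap (n := N + i) (by omega) hs1 (by rw [hsre]; norm_num)
      rwa [hsre] at this
    refine h1.trans ?_
    rw [← Finset.mul_sum]
    have h2 := zap_tail (N := N) (k := k) hN1
    have h3 : 0 ≤ ((N + k : ℕ) : ℝ) ^ (-(3 / 2 : ℝ)) := by positivity
    have h4 : (N : ℝ) ^ (-(3 / 2 : ℝ)) ≤ T ^ (-(9 / 4) : ℝ) := by
      calc (N : ℝ) ^ (-(3 / 2 : ℝ)) ≤ (T ^ (3 / 2 : ℝ)) ^ (-(3 / 2 : ℝ)) :=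
            Real.rpow_le_rpow_of_nonpos (by positivity) hNle (by norm_num)
        _ = T ^ (-(9 / 4) : ℝ) := by
          rw [← Real.rpow_mul hT0.le]
          norm_num
    have h5 : ‖s‖ * ‖s + 1‖ ≤ 3 * T * (4 * T) :=
      mul_le_mul hns hns1 (norm_nonneg _) (by positivity)
    have h6 : ∑ i ∈ range k, ((N + i : ℕ) : ℝ) ^ (-(1 / 2 : ℝ) - 2) ≤
        6 * T ^ (-(9 / 4) : ℝ) := by linarith
    have h7 : T * T * T ^ (-(9 / 4) : ℝ) = q := by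
      have e : T * T = T ^ (2 : ℝ) := by
        rw [Real.rpow_two]
        ring
      rw [e, ← Real.rpow_add hT0, hq]
      norm_num
    calc ‖s‖ * ‖s + 1‖ * ∑ i ∈ range k, ((N + i : ℕ) : ℝ) ^ (-(1 / 2 : ℝ) - 2)
        ≤ 3 * T * (4 * T) * (6 * T ^ (-(9 / 4) : ℝ)) :=
          mul_le_mul h5 h6 (Finset.sum_nonneg fun i _ => by positivity) (by positivity)
      _ = 72 * (T * T * T ^ (-(9 / 4) : ℝ)) := by ring
      _ = 72 * q := by rw [h7]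
  calc _ ≤ ‖riemannZeta s - zsum s (N + k) - ((N + k : ℕ) : ℂ) ^ (1 - s) / (s - 1)‖ +
        ‖(N : ℂ) ^ (1 - s) / (s - 1)‖ + ‖((N : ℂ) ^ (-s) - ((N + k : ℕ) : ℂ) ^ (-s)) / 2‖ +
        ‖∑ i ∈ range k, zapE (N + i) s‖ := by
        refine (norm_sub_le _ _).trans (add_le_add ?_ le_rfl)
        refine (norm_sub_le _ _).trans (add_le_add ?_ le_rfl)
        exact norm_add_le _ _
    _ ≤ 100 * q := by linarith

end Pool.Agent.Lib.MP_aa9ae4_nt.L1
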