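import Pool.Agent.Lib.MP_aa9ae4_nt.L1.PLA
import Pool.Agent.Lib.MP_aa9ae4_nt.L1.PBk
import Pool.Agent.Lib.MP_aa9ae4_nt.L1.PBlq
import Pool.Agent.Lib.MP_aa9ae4_nt.L1.PDg
import Pool.Agent.Lib.MP_aa9ae4_nt.L1.PDia
import Pool.Agent.Lib.MP_aa9ae4_nt.L1.PExd
import Pool.Agent.Lib.MP_aa9ae4_nt.L1.PFz
import Pool.Agent.Lib.MP_aa9ae4_nt.L1.PGs
import Pool.Agent.Lib.MP_aa9ae4_nt.L1.PLow
import Pool.Agent.Lib.MP_aa9ae4_nt.L1.PM4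
import Pool.Agent.Lib.MP_aa9ae4_nt.L1.PMfl
import Pool.Agent.Lib.MP_aa9ae4_nt.L1.PMsq
import Pool.Agent.Lib.MP_aa9ae4_nt.L1.PMt
import Pool.Agent.Lib.MP_aa9ae4_nt.L1.PPnt
import Pool.Agent.Lib.MP_aa9ae4_nt.L1.PPrd
import Pool.Agent.Lib.MP_aa9ae4_nt.L1.PPsl
import Pool.Agent.Lib.MP_aa9ae4_nt.L1.PSz2
import Pool.Agent.Lib.MP_aa9ae4_nt.L1.PTwm
import Pool.Agent.Lib.MP_aa9ae4_nt.L1.PUpp
import Pool.Agent.Lib.MP_aa9ae4_nt.L1.PWeg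
import Pool.Agent.Lib.MP_aa9ae4_nt.L1.PWsg
import Pool.Agent.Lib.MP_aa9ae4_nt.L1.PWsm
import Pool.Agent.Lib.MP_aa9ae4_nt.L1.PWxg
import Pool.Agent.Lib.MP_aa9ae4_nt.L1.PZap

/-! Assembly of the parts A and B: the case `k > 1/2` of the lower bound. -/

namespace Pool.Agent.Lib.MP_aa9ae4_nt.L1



theorem mSz2 : S_Sz2 := pSz2 pBk pExd

theorem mUpp : S_Upp :=
  pUpp pBk (pPsl pBk mSz2 (pBlq pBk) (pTwm pExd (pDia pExd)))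
    (pWeg (pWxg pWsg)) (pM4 pBk mSz2 (pMsq pExd)) (pPrd pPnt) (pWsm pBk) pFz pMt

theorem mLow : S_Low := pLow pBk mSz2 pExd (pMfl pExd pZap) (pDg pBk pMt)

theorem mLA : S_LA := pLA pMt (pGs pMt) mUpp mLow



end Pool.Agent.Lib.MP_aa9ae4_nt.L1
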