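import Mathlib
import Pool.Agent.Lib.MP_aa9ae4_nt.L1.SpecB

/-!
MP_aa9ae4_nt, Theorem L. The final Hoelder step.
-/

namespace Pool.Agent.Lib.MP_aa9ae4_nt.L1

open Finset MeasureTheory Filter Topology
open Complex (I)
open Pool.Agent.Lib.MP_aa9ae4_nt.S1 (pw psumS eulS tail prs nn KK expJ HT fzS y1)

lemma la_fzS_cont (σ a T : ℝ) (ha : 0 < a) (hT : 0 < T) :
    ContinuousOn (fun t => ‖fzS σ a t‖) (Set.Icc T (2 * T)) := by
  apply ContinuousOn.norm
  intro t ht
  have ht0 : 0 < t := lt_of_lt_of_le hT ht.1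
  have h1 : ((σ : ℂ) + ((a * t : ℝ) : ℂ) * I) ≠ 1 := by
    intro h2
    have := congrArg Complex.im h2
    simp only [Complex.add_im, Complex.one_im, Complex.mul_im, Complex.ofReal_re, Complex.I_im,
      Complex.ofReal_im, Complex.I_re] at this
    have h3 : a * t = 0 := by linarith
    exact (mul_pos ha ht0).ne' h3
  have h3 : ContinuousAt (fun t : ℝ => (σ : ℂ) + ((a * t : ℝ) : ℂ) * I) t := by fun_prop
  exact (ContinuousAt.comp (f := fun t : ℝ => (σ : ℂ) + ((a * t : ℝ) : ℂ) * I)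
    (differentiableAt_riemannZeta h1).continuousAt h3).continuousWithinAt

lemma la_pw_cont (σ : ℝ) (p : ℕ) (hp : p ≠ 0) : Continuous fun u : ℝ => pw σ p u := by
  unfold S1.pw
  apply Continuous.const_cpow (by fun_prop)
  left
  exact_mod_cast hp

lemma la_eulS_cont (σ : ℝ) (y z : ℕ) : Continuous fun u : ℝ => eulS σ y z u := by
  unfold S1.eulS
  apply continuous_finsetProd
  intro p hp
  have hp0 : p ≠ 0 := by
    unfold S1.prs at hp
    exact (mem_filter.1 hp).2.ne_zero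
  exact continuous_const.sub (la_pw_cont σ p hp0)

lemma la_MB_cont (n : ℕ) (B : ℕ → Finset ℕ) (R : ℕ → ℕ) (f : ℕ → ℕ → ℝ) (σ : ℝ)
    (hB : ∀ i ∈ range n, ∀ p ∈ B i, p ≠ 0) :
    Continuous fun t : ℝ => MB n B R f (fun p => pw σ p t) := by
  unfold MB
  apply continuous_finsetProd
  intro i hi
  apply continuous_finsetSum
  intro r _
  apply continuous_const.mul
  apply Continuous.pow
  apply continuous_finsetSum
  intro p hp
  exact la_pw_cont σ p (hB i hi p hp)

lemma la_Bl_ne (η T : ℝ) (i p : ℕ) (hp : p ∈ Bl η T i) : p ≠ 0 := by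
  unfold Bl S1.prs at hp
  exact (mem_filter.1 hp).2.ne_zero

lemma la_Np_cont (C1 η α T : ℝ) : Continuous fun t : ℝ => Np C1 η α T t :=
  la_MB_cont _ _ _ _ _ fun i _ p hp => la_Bl_ne η T i p hp

/-- the compact set where zeta is not too small -/
private lemma la_compact (σ a T : ℝ) (z : ℕ) (ha : 0 < a) (hT : 0 < T) :
    IsCompact {t ∈ Set.Icc T (2 * T) | 1 / 2 ≤ ‖fzS σ a t‖ * ‖eulS σ 0 z (a * t)‖} := by
  have hc : ContinuousOn (fun t => ‖fzS σ a t‖ * ‖eulS σ 0 z (a * t)‖) (Set.Icc T (2 * T)) :=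
    (la_fzS_cont σ a T ha hT).mul
      (((la_eulS_cont σ 0 z).comp (continuous_const.mul continuous_id)).norm.continuousOn)
  have h1 := hc.preimage_isClosed_of_isClosed isClosed_Icc (isClosed_Ici (a := (1 / 2 : ℝ)))
  exact isCompact_Icc.of_isClosed_subset h1 Set.inter_subset_left

private lemma la_memLp (K G : Set ℝ) (f : ℝ → ℝ) (p : ENNReal) (hK : IsCompact K) (hG : MeasurableSet G)
    (hGK : G ⊆ K) (hf : ContinuousOn f K) : MemLp f p (volume.restrict G) := by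
  obtain ⟨C, hC⟩ := hK.exists_bound_of_continuousOn hf
  haveI : IsFiniteMeasure (volume.restrict G) :=
    ⟨by rw [Measure.restrict_apply_univ]; exact (measure_mono hGK).trans_lt hK.measure_lt_top⟩
  refine MemLp.of_bound ((hf.mono hGK).aestronglyMeasurable hG) C ?_
  filter_upwards [ae_restrict_mem hG] with t ht
  exact hC t (hGK ht)

private lemma la_num (c C X J U k : ℝ) (hc : 0 < c) (hC : 0 < C) (hX : 0 < X) (hJ : 0 ≤ J) (hU : 0 ≤ U)
    (hk : 1 / 2 < k) (hUC : U ≤ C * X)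
    (h : c * X ≤ J ^ (1 / (2 * k)) * U ^ (1 / (2 * k / (2 * k - 1)))) :
    c ^ (2 * k) * C ^ (-(2 * k - 1)) * X ≤ J := by
  have hk2 : 0 < 2 * k := by linarith
  have hk3 : 0 < 2 * k - 1 := by linarith
  have h1 : (c * X) ^ (2 * k) ≤ J * (C * X) ^ (2 * k - 1) := by
    calc (c * X) ^ (2 * k) ≤ (J ^ (1 / (2 * k)) * U ^ (1 / (2 * k / (2 * k - 1)))) ^ (2 * k) :=
          Real.rpow_le_rpow (by positivity) h hk2.le
      _ = J * U ^ (2 * k - 1) := by
          rw [Real.mul_rpow (Real.rpow_nonneg hJ _) (Real.rpow_nonneg hU _), ← Real.rpow_mul hJ,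
            ← Real.rpow_mul hU]
          congr 2
          · rw [one_div, inv_mul_cancel₀ hk2.ne', Real.rpow_one]
          · field_simp
      _ ≤ J * (C * X) ^ (2 * k - 1) :=
          mul_le_mul_of_nonneg_left (Real.rpow_le_rpow hU hUC hk3.le) hJ
  rw [Real.mul_rpow hc.le hX.le, Real.mul_rpow hC.le hX.le] at h1
  have h2 : X ^ (2 * k) = X * X ^ (2 * k - 1) := by
    rw [← Real.rpow_one_add' hX.le (by linarith)]
    congr 1
    ring
  rw [h2] at h1
  have hXp : 0 < X ^ (2 * k - 1) := Real.rpow_pos_of_pos hX _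
  have hCp : 0 < C ^ (2 * k - 1) := Real.rpow_pos_of_pos hC _
  rw [Real.rpow_neg hC.le]
  have h3 : c ^ (2 * k) * X ≤ J * C ^ (2 * k - 1) := by
    have h4 : (c ^ (2 * k) * X) * X ^ (2 * k - 1) ≤ (J * C ^ (2 * k - 1)) * X ^ (2 * k - 1) := by
      calc (c ^ (2 * k) * X) * X ^ (2 * k - 1) = c ^ (2 * k) * (X * X ^ (2 * k - 1)) := by ring
        _ ≤ J * (C ^ (2 * k - 1) * X ^ (2 * k - 1)) := h1
        _ = _ := by ring
    exact le_of_mul_le_mul_right h4 hXp
  calc c ^ (2 * k) * (C ^ (2 * k - 1))⁻¹ * X = (c ^ (2 * k) * X) / C ^ (2 * k - 1) := by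
        field_simp
    _ ≤ J := by
        rw [div_le_iff₀ hCp]
        exact h3

theorem pLA (hMt : S_Mt) (hGs : S_Gs) (hUpp : S_Upp) (hLow : S_Low) : S_LA := by
  intro k σ a β hk hσ hσ1 ha
  have hk0 : 0 < k := by linarith
  have hk2 : 0 < 2 * k := by linarith
  have hk3 : 0 < 2 * k - 1 := by linarith
  set q : ℝ := 2 * k / (2 * k - 1) with hq
  have hq0 : 0 < q := div_pos hk2 hk3
  have hq1 : 1 < q := by
    rw [hq, one_lt_div hk3]
    linarith
  set m : ℕ := ⌈q⌉₊ with hm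
  have hqm : q ≤ m := Nat.le_ceil q
  have hm1 : 1 ≤ m := by
    have : 0 < m := Nat.ceil_pos.2 hq0
    omega
  have hA : q * (k - 1) + q * k = 2 * k := by
    rw [hq]
    field_simp
    ring
  obtain ⟨C0, hC0⟩ := hMt
  obtain ⟨C10, hU⟩ := hUpp k q q m hk0 hq0.le hq0.le hA (by linarith) hm1
  obtain ⟨Kz, om, δ, z, gs, hom0, hom1, hδ0, hδ1, hgs⟩ := hGs σ a hσ hσ1 ha
  set C1 : ℝ := max C10 (max 8 (8 * k ^ 2 * C0)) with hC1
  have hC10 : C10 ≤ C1 := le_max_left _ _
  have hC18 : 8 ≤ C1 := (le_max_left _ _).trans (le_max_right _ _)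
  have hC1k : 8 * k ^ 2 * C0 ≤ C1 := (le_max_right _ _).trans (le_max_right _ _)
  have hC1p : 0 < C1 := by linarith
  have hmp : (1 : ℝ) ≤ m := by exact_mod_cast hm1
  set η : ℝ := δ / (400 * m * C1) with hη
  have hη0 : 0 < η := by positivity
  have hηm : η * m * C1 = δ / 400 := by
    rw [hη]
    field_simp
  have hη1 : η ≤ 1 := by
    rw [hη, div_le_one (by positivity)]
    nlinarith
  have hηC : η * C1 ≤ δ / 400 := by
    rw [← hηm]
    have : η * C1 * 1 ≤ η * C1 * m := mul_le_mul_of_nonneg_left hmp (by positivity)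
    linarith
  obtain ⟨C, hCp, hUe⟩ := hU C1 hC10 η hη0 hη1 (by rw [hηm]; linarith) σ a Kz om δ z gs hσ hσ1 ha hom0
    hom1 hgs (β * q)
  obtain ⟨c, hcp, hLe⟩ := hLow k C0 C1 η hk0 hC0 hC18 hC1k hη0 hη1 (by linarith) σ a Kz om δ z gs
    hδ0 hδ1 (by linarith) hgs
  refine ⟨c ^ (2 * k) * C ^ (-(2 * k - 1)), by positivity, ?_⟩
  filter_upwards [hUe, hLe, hgs, eventually_gt_atTop (1 : ℝ)] with T hUT hLT hgT hT1
  obtain ⟨-, -, hGm, hGI, -, hGp⟩ := hgT
  have hT0 : 0 < T := by linarith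
  have hlog : 0 < Real.log T := Real.log_pos hT1
  set X : ℝ := T * Real.log T ^ (k ^ 2) with hX
  have hXp : 0 < X := by positivity
  set G := gs T with hG
  set K := {t ∈ Set.Icc T (2 * T) | 1 / 2 ≤ ‖fzS σ a t‖ * ‖eulS σ 0 (z T) (a * t)‖} with hK
  have hKc : IsCompact K := la_compact σ a T (z T) ha hT0
  have hGK : G ⊆ K := fun t ht => ⟨hGI ht, (hGp t ht).2.1⟩
  have hypos : ∀ t ∈ K, ‖fzS σ a t‖ ≠ 0 := by
    intro t ht h0
    have := ht.2
    rw [h0, zero_mul] at this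
    linarith
  have hyc : ContinuousOn (fun t => ‖fzS σ a t‖) K :=
    (la_fzS_cont σ a T ha hT0).mono fun t ht => ht.1
  set f : ℝ → ℝ := fun t => ‖riemannZeta (1 / 2 + t * I)‖ / ‖fzS σ a t‖ ^ β with hf
  set g : ℝ → ℝ := fun t => (‖Np C1 η (k - 1) T t‖ * ‖Np C1 η k T t‖) * ‖fzS σ a t‖ ^ β with hg
  have hfc : ContinuousOn f K := by
    apply ContinuousOn.div fin_cont_half.norm.continuousOn
      (hyc.rpow_const fun t ht => Or.inl (hypos t ht))
    intro t ht
    have : 0 < ‖fzS σ a t‖ := lt_of_le_of_ne (norm_nonneg _) (Ne.symm (hypos t ht))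
    positivity
  have hgc : ContinuousOn g K :=
    (((la_Np_cont _ _ _ _).norm.mul (la_Np_cont _ _ _ _).norm).continuousOn).mul
      (hyc.rpow_const fun t ht => Or.inl (hypos t ht))
  have hf0 : ∀ t, 0 ≤ f t := fun t => div_nonneg (norm_nonneg _) (Real.rpow_nonneg (norm_nonneg _) _)
  have hg0 : ∀ t, 0 ≤ g t := fun t => mul_nonneg (mul_nonneg (norm_nonneg _) (norm_nonneg _))
    (Real.rpow_nonneg (norm_nonneg _) _)
  have hpq : (2 * k).HolderConjugate q := by
    rw [Real.holderConjugate_iff]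
    refine ⟨by linarith, ?_⟩
    rw [hq]
    field_simp
    ring
  have hH := integral_mul_le_Lp_mul_Lq_of_nonneg (μ := volume.restrict G) hpq
    (Filter.Eventually.of_forall hf0) (Filter.Eventually.of_forall hg0)
    (la_memLp K G f _ hKc hGm hGK hfc) (la_memLp K G g _ hKc hGm hGK hgc)
  have h1 : ∫ t in G, f t * g t = ∫ t in G, ‖riemannZeta (1 / 2 + t * I)‖ *
      ‖Np C1 η (k - 1) T t‖ * ‖Np C1 η k T t‖ := by
    apply setIntegral_congr_fun hGm
    intro t ht
    have hy : 0 < ‖fzS σ a t‖ :=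
      lt_of_le_of_ne (norm_nonneg _) (Ne.symm (hypos t (hGK ht)))
    have hy2 : ‖fzS σ a t‖ ^ β ≠ 0 := (Real.rpow_pos_of_pos hy _).ne'
    simp only [hf, hg]
    field_simp
  have h2 : ∫ t in G, g t ^ q = ∫ t in G, ‖Np C1 η (k - 1) T t‖ ^ q * ‖Np C1 η k T t‖ ^ q *
      ‖fzS σ a t‖ ^ (β * q) := by
    congr 1
    funext t
    simp only [hg]
    rw [Real.mul_rpow (mul_nonneg (norm_nonneg _) (norm_nonneg _))
      (Real.rpow_nonneg (norm_nonneg _) _), Real.mul_rpow (norm_nonneg _) (norm_nonneg _),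
      ← Real.rpow_mul (norm_nonneg _)]
  have hJ0 : 0 ≤ ∫ t in G, f t ^ (2 * k) := integral_nonneg fun t => Real.rpow_nonneg (hf0 t) _
  have hU0 : 0 ≤ ∫ t in G, g t ^ q := integral_nonneg fun t => Real.rpow_nonneg (hg0 t) _
  have h3 : c ^ (2 * k) * C ^ (-(2 * k - 1)) * X ≤ ∫ t in G, f t ^ (2 * k) := by
    apply la_num c C X _ (∫ t in G, g t ^ q) k hcp hCp hXp hJ0 hU0 hk
    · rw [h2, hX]
      calc _ ≤ C * T * Real.log T ^ (k ^ 2) := hUT
        _ = _ := by ring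
    · rw [h1] at hH
      calc c * X = c * T * Real.log T ^ (k ^ 2) := by rw [hX]; ring
        _ ≤ _ := hLT
        _ ≤ _ := hH
  have hint : Integrable (fun t => f t ^ (2 * k)) (volume.restrict G) := by
    have h4 : ContinuousOn (fun t => f t ^ (2 * k)) K :=
      hfc.rpow_const fun t _ => Or.inr hk2.le
    exact (h4.integrableOn_compact hKc).mono_set hGK
  calc ENNReal.ofReal (c ^ (2 * k) * C ^ (-(2 * k - 1)) * T * Real.log T ^ (k ^ 2))
      ≤ ENNReal.ofReal (∫ t in G, f t ^ (2 * k)) := by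
        apply ENNReal.ofReal_le_ofReal
        calc _ = c ^ (2 * k) * C ^ (-(2 * k - 1)) * X := by rw [hX]; ring
          _ ≤ _ := h3
    _ = ∫⁻ t in G, ENNReal.ofReal (f t ^ (2 * k)) :=
        ofReal_integral_eq_lintegral_ofReal hint
          (Filter.Eventually.of_forall fun t => Real.rpow_nonneg (hf0 t) _)
    _ ≤ ∫⁻ t in Set.Icc T (2 * T), ENNReal.ofReal (f t ^ (2 * k)) := lintegral_mono_set hGI
    _ = _ := by
        congr 1
        funext t
        simp only [hf]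
        congr 4
        unfold S1.fzS
        push_cast
        rfl

end Pool.Agent.Lib.MP_aa9ae4_nt.L1
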