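import Pool.Agent.Lib.MP_aa9ae4_nt.L1.SpecC

/-!
MP_aa9ae4_nt, Theorem L, part C: Lambert series.
-/

set_option autoImplicit false

namespace Pool.Agent.Lib.MP_aa9ae4_nt.L1

open Finset MeasureTheory Filter Topology

namespace pLamAux

/-- `1/(e^x-1)` -/
noncomputable def f (x : ℝ) : ℝ := 1 / (Real.exp x - 1)

/-- `1/(e^x-1) - 1/x` -/
noncomputable def F (x : ℝ) : ℝ := f x - 1 / x

/-- `log(1-e^{-x})` -/
noncomputable def La (x : ℝ) : ℝ := Real.log (1 - Real.exp (-x))

theorem exp_sub_pos {x : ℝ} (hx : 0 < x) : 0 < Real.exp x - 1 := by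
  have := Real.add_one_lt_exp hx.ne'
  linarith

theorem one_sub_pos {x : ℝ} (hx : 0 < x) : 0 < 1 - Real.exp (-x) := by
  have : Real.exp (-x) < 1 := by
    rw [Real.exp_lt_one_iff]; linarith
  linarith

theorem f_eq {x : ℝ} (hx : 0 < x) : f x = Real.exp (-x) / (1 - Real.exp (-x)) := by
  have h1 := exp_sub_pos hx
  have h2 := one_sub_pos hx
  have h3 : Real.exp x * Real.exp (-x) = 1 := by rw [← Real.exp_add]; simp
  unfold f
  rw [div_eq_div_iff h1.ne' h2.ne']
  nlinarith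

theorem f_pos {x : ℝ} (hx : 0 < x) : 0 < f x := one_div_pos.2 (exp_sub_pos hx)

theorem f_le {x : ℝ} (hx : 0 < x) : f x ≤ 1 / x := by
  unfold f
  apply one_div_le_one_div_of_le hx
  have := Real.add_one_lt_exp hx.ne'
  linarith

theorem le_f {x : ℝ} (hx : 0 < x) : 1 / x - 1 ≤ f x := by
  rw [f_eq hx]
  have h2 := one_sub_pos hx
  have h3 : 1 - Real.exp (-x) ≤ x := by
    have := Real.add_one_le_exp (-x)
    linarith
  have h4 : Real.exp (-x) / x ≤ Real.exp (-x) / (1 - Real.exp (-x)) :=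
    div_le_div_of_nonneg_left (Real.exp_pos _).le h2 h3
  refine le_trans ?_ h4
  have h5 : 1 / x - 1 = (1 - x) / x := by field_simp
  rw [h5]
  apply div_le_div_of_nonneg_right _ hx.le
  have := Real.add_one_le_exp (-x)
  linarith

theorem La_nonpos {x : ℝ} (hx : 0 < x) : La x ≤ 0 := by
  apply Real.log_nonpos (one_sub_pos hx).le
  have := Real.exp_pos (-x)
  linarith

/-- comparison of `La` with `f` -/
theorem La_sub_le {a b : ℝ} (ha : 0 < a) (hab : a < b) : La b - La a ≤ (b - a) * f a := by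
  have h1 := one_sub_pos ha
  have h2 := one_sub_pos (ha.trans hab)
  unfold La
  rw [← Real.log_div h2.ne' h1.ne']
  refine (Real.log_le_sub_one_of_pos (div_pos h2 h1)).trans ?_
  rw [f_eq ha]
  have h3 : Real.exp (-b) = Real.exp (-a) * Real.exp (-(b - a)) := by
    rw [← Real.exp_add]; congr 1; ring
  have h4 := Real.add_one_le_exp (-(b - a))
  rw [div_sub_one h1.ne', ← mul_div_assoc]
  apply div_le_div_of_nonneg_right _ h1.le
  rw [h3]
  nlinarith [Real.exp_pos (-a)]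

theorem le_La_sub {a b : ℝ} (ha : 0 < a) (hab : a < b) : (b - a) * f b ≤ La b - La a := by
  have hb := ha.trans hab
  have h1 := one_sub_pos ha
  have h2 := one_sub_pos hb
  unfold La
  have h0 : Real.log (1 - Real.exp (-b)) - Real.log (1 - Real.exp (-a)) =
      - Real.log ((1 - Real.exp (-a)) / (1 - Real.exp (-b))) := by
    rw [Real.log_div h1.ne' h2.ne']; ring
  rw [h0]
  have h5 := Real.log_le_sub_one_of_pos (div_pos h1 h2)
  refine le_trans ?_ (neg_le_neg h5)
  rw [f_eq hb]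
  have h3 : Real.exp (-a) = Real.exp (-b) * Real.exp (b - a) := by
    rw [← Real.exp_add]; congr 1; ring
  have h4 := Real.add_one_le_exp (b - a)
  rw [div_sub_one h2.ne', ← neg_div, ← mul_div_assoc]
  apply div_le_div_of_nonneg_right _ h2.le
  rw [h3]
  nlinarith [Real.exp_pos (-b)]

theorem hasDerivAt_F {x : ℝ} (hx : 0 < x) :
    HasDerivAt F (-(Real.exp x / (Real.exp x - 1) ^ 2) + 1 / x ^ 2) x := by
  have h1 := exp_sub_pos hx
  have hf : HasDerivAt (fun y : ℝ => (Real.exp y - 1)⁻¹)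
      (-(Real.exp x) / (Real.exp x - 1) ^ 2) x :=
    ((Real.hasDerivAt_exp x).sub_const 1).inv h1.ne'
  have hg : HasDerivAt (fun y : ℝ => y⁻¹) (-(x ^ 2)⁻¹) x := hasDerivAt_inv hx.ne'
  have h := hf.sub hg
  have e : F = fun y : ℝ => (Real.exp y - 1)⁻¹ - y⁻¹ := by
    funext y
    unfold F f
    rw [one_div, one_div]
  rw [e]
  refine h.congr_deriv ?_
  rw [neg_div]
  ring

theorem F_deriv_nonneg {x : ℝ} (hx : 0 < x) :
    0 ≤ -(Real.exp x / (Real.exp x - 1) ^ 2) + 1 / x ^ 2 := by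
  have h1 := exp_sub_pos hx
  -- `x^2 e^x ≤ (e^x-1)^2`
  have h2 : x / 2 ≤ Real.sinh (x / 2) := Real.self_le_sinh_iff.2 (by linarith)
  rw [Real.sinh_eq] at h2
  have h3 : Real.exp x = Real.exp (x / 2) * Real.exp (x / 2) := by
    rw [← Real.exp_add]; congr 1; ring
  have h4 : Real.exp (x / 2) * Real.exp (-(x / 2)) = 1 := by
    rw [← Real.exp_add]; simp
  have h5 := Real.exp_pos (x / 2)
  have h6 : x * Real.exp (x / 2) ≤ Real.exp x - 1 := by
    have : x * Real.exp (x / 2) ≤ (Real.exp (x / 2) - Real.exp (-(x / 2))) * Real.exp (x / 2) := by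
      apply mul_le_mul_of_nonneg_right _ h5.le
      linarith
    calc x * Real.exp (x / 2) ≤ _ := this
      _ = Real.exp x - 1 := by rw [h3]; nlinarith
  have h7 : x ^ 2 * Real.exp x ≤ (Real.exp x - 1) ^ 2 := by
    have : (x * Real.exp (x / 2)) ^ 2 ≤ (Real.exp x - 1) ^ 2 :=
      pow_le_pow_left₀ (by positivity) h6 2
    calc x ^ 2 * Real.exp x = (x * Real.exp (x / 2)) ^ 2 := by rw [h3]; ring
      _ ≤ _ := this
  have h8 : Real.exp x / (Real.exp x - 1) ^ 2 ≤ 1 / x ^ 2 := by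
    rw [div_le_div_iff₀ (by positivity) (by positivity)]
    linarith
  linarith

theorem F_mono : MonotoneOn F (Set.Ioi 0) := by
  apply monotoneOn_of_deriv_nonneg (convex_Ioi 0)
  · intro x hx
    exact (hasDerivAt_F hx).continuousAt.continuousWithinAt
  · rw [interior_Ioi]
    intro x hx
    exact (hasDerivAt_F hx).differentiableAt.differentiableWithinAt
  · rw [interior_Ioi]
    intro x hx
    rw [(hasDerivAt_F hx).deriv]
    exact F_deriv_nonneg hx

/-- `log(1-e^{-x}) - log x` -/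
noncomputable def Ph (x : ℝ) : ℝ := La x - Real.log x

theorem hasDerivAt_Ph {x : ℝ} (hx : 0 < x) : HasDerivAt Ph (F x) x := by
  have h1 := one_sub_pos hx
  have h2 : HasDerivAt (fun y : ℝ => 1 - Real.exp (-y)) (Real.exp (-x)) x := by
    have := ((hasDerivAt_id x).neg.exp).const_sub 1
    simpa using this
  have h3 := (h2.log h1.ne').sub (Real.hasDerivAt_log hx.ne')
  have e : F x = Real.exp (-x) / (1 - Real.exp (-x)) - x⁻¹ := by
    unfold F
    rw [f_eq hx, one_div]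
  rw [e]
  exact h3

theorem Ph_sub {a b : ℝ} (ha : 0 < a) (hab : a < b) :
    (b - a) * F a ≤ Ph b - Ph a ∧ Ph b - Ph a ≤ (b - a) * F b := by
  obtain ⟨c, hc, hc'⟩ := exists_hasDerivAt_eq_slope Ph F hab
    (fun x hx => (hasDerivAt_Ph (ha.trans_le hx.1)).continuousAt.continuousWithinAt)
    (fun x hx => hasDerivAt_Ph (ha.trans hx.1))
  have hba : 0 < b - a := by linarith
  have h1 : Ph b - Ph a = (b - a) * F c := by
    rw [hc']; field_simp
  have hc0 : 0 < c := ha.trans hc.1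
  rw [h1]
  exact ⟨mul_le_mul_of_nonneg_left (F_mono ha hc0 hc.1.le) hba.le,
    mul_le_mul_of_nonneg_left (F_mono hc0 (ha.trans hab) hc.2.le) hba.le⟩

theorem sumF {τ : ℝ} (hτ : 0 < τ) (n : ℕ) :
    τ * F τ + Ph ((n + 1) * τ) - Ph τ ≤ τ * ∑ l ∈ range (n + 1), F ((l + 1) * τ) ∧
    τ * ∑ l ∈ range (n + 1), F ((l + 1) * τ) ≤
      τ * F ((n + 1) * τ) + Ph ((n + 1) * τ) - Ph τ := by
  induction n with
  | zero => simp
  | succ n ih =>
    have ha : 0 < ((n : ℝ) + 1) * τ := by positivity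
    have hab : ((n : ℝ) + 1) * τ < ((n + 1 : ℕ) + 1) * τ := by
      push_cast; nlinarith
    have hd : ((n + 1 : ℕ) + 1 : ℝ) * τ - ((n : ℝ) + 1) * τ = τ := by push_cast; ring
    obtain ⟨h1, h2⟩ := Ph_sub ha hab
    rw [hd] at h1 h2
    rw [Finset.sum_range_succ, mul_add]
    constructor
    · linarith [ih.1]
    · linarith [ih.2]

theorem sumf {τ : ℝ} (hτ : 0 < τ) {M : ℕ} (hM : 1 ≤ M) (j : ℕ) :
    La (((M : ℝ) + 1 + j) * τ) - La (((M : ℝ) + 1) * τ) ≤
      τ * ∑ l ∈ range j, f ((((M + l : ℕ) : ℝ) + 1) * τ) ∧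
    τ * ∑ l ∈ range j, f ((((M + l : ℕ) : ℝ) + 1) * τ) ≤
      La (((M : ℝ) + j) * τ) - La ((M : ℝ) * τ) := by
  have hM' : (1 : ℝ) ≤ M := by exact_mod_cast hM
  induction j with
  | zero => simp
  | succ j ih =>
    rw [Finset.sum_range_succ, mul_add]
    have ha : 0 < ((M : ℝ) + j) * τ := by positivity
    have hab : ((M : ℝ) + j) * τ < (((M + j : ℕ) : ℝ) + 1) * τ := by push_cast; nlinarith
    have hd : (((M + j : ℕ) : ℝ) + 1) * τ - ((M : ℝ) + j) * τ = τ := by push_cast; ring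
    have h1 := le_La_sub ha hab
    rw [hd] at h1
    have hab2 : (((M + j : ℕ) : ℝ) + 1) * τ < ((M : ℝ) + 1 + (j + 1 : ℕ)) * τ := by
      push_cast; nlinarith
    have hd2 : ((M : ℝ) + 1 + (j + 1 : ℕ)) * τ - (((M + j : ℕ) : ℝ) + 1) * τ = τ := by
      push_cast; ring
    have h2 := La_sub_le (ha.trans hab) hab2
    rw [hd2] at h2
    have e1 : (((M + j : ℕ) : ℝ) + 1) * τ = ((M : ℝ) + 1 + j) * τ := by push_cast; ring
    have e2 : (((M + j : ℕ) : ℝ) + 1) * τ = ((M : ℝ) + (j + 1 : ℕ)) * τ := by push_cast; ring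
    constructor
    · have h3 : La ((((M + j : ℕ) : ℝ) + 1) * τ) = La (((M : ℝ) + 1 + j) * τ) := by rw [e1]
      linarith [ih.1]
    · have h3 : La ((((M + j : ℕ) : ℝ) + 1) * τ) = La (((M : ℝ) + (j + 1 : ℕ)) * τ) := by rw [e2]
      linarith [ih.2]

theorem neg_Ph {τ : ℝ} (hτ : 0 < τ) : 0 ≤ - Ph τ ∧ - Ph τ ≤ τ := by
  have h1 := one_sub_pos hτ
  have h2 : Ph τ = Real.log ((1 - Real.exp (-τ)) / τ) := by
    unfold Ph La
    rw [Real.log_div h1.ne' hτ.ne']
  rw [h2]
  constructor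
  · rw [neg_nonneg]
    apply Real.log_nonpos (div_pos h1 hτ).le
    rw [div_le_one hτ]
    have := Real.add_one_le_exp (-τ)
    linarith
  · rw [neg_le]
    have h3 := Real.add_one_le_exp τ
    have h4 : Real.exp τ * Real.exp (-τ) = 1 := by rw [← Real.exp_add]; simp
    calc -τ = Real.log (Real.exp (-τ)) := (Real.log_exp _).symm
      _ ≤ Real.log ((1 - Real.exp (-τ)) / τ) := by
        apply Real.log_le_log (Real.exp_pos _)
        rw [le_div_iff₀ hτ]
        nlinarith [Real.exp_pos (-τ)]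

theorem La_tendsto {τ : ℝ} (hτ : 0 < τ) (c : ℝ) :
    Tendsto (fun j : ℕ => La ((c + j) * τ)) atTop (𝓝 0) := by
  have h1 : Tendsto (fun j : ℕ => (c + j) * τ) atTop atTop :=
    (tendsto_atTop_add_const_left _ c tendsto_natCast_atTop_atTop).atTop_mul_const hτ
  have h2 : Tendsto (fun j : ℕ => 1 - Real.exp (-((c + j) * τ))) atTop (𝓝 (1 - 0)) :=
    (Real.tendsto_exp_neg_atTop_nhds_zero.comp h1).const_sub 1
  have h3 := (Real.continuousAt_log (by norm_num : (1 - 0 : ℝ) ≠ 0)).tendsto.comp h2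
  simpa [La, Function.comp_def] using h3

end pLamAux

open pLamAux in
theorem pLam : S_Lam := by
  refine ⟨Real.eulerMascheroniConstant, 3, by norm_num, fun τ hτ hτ1 => ?_⟩
  set γ := Real.eulerMascheroniConstant with hγ
  set M := ⌊1 / τ⌋₊ with hMdef
  have h1τ : 1 ≤ 1 / τ := by rw [le_div_iff₀ hτ]; linarith
  have hM : 1 ≤ M := Nat.le_floor (by simpa using h1τ)
  have hM' : (1 : ℝ) ≤ M := by exact_mod_cast hM
  have hMτ : 1 / 2 < (M : ℝ) * τ := by
    have h1 : 1 / τ < (M : ℝ) + 1 := Nat.lt_floor_add_one _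
    rw [div_lt_iff₀ hτ] at h1
    nlinarith
  have hMτ0 : 0 < (M : ℝ) * τ := by positivity
  -- the harmonic sum
  have hH1 : γ ≤ (harmonic M : ℝ) - Real.log M := by
    have h := Real.eulerMascheroniConstant_lt_eulerMascheroniSeq' M
    rw [Real.eulerMascheroniSeq', if_neg (by omega)] at h
    exact h.le
  have hH2 : (harmonic M : ℝ) - Real.log M ≤ γ + 2 * τ := by
    have h := Real.eulerMascheroniSeq_lt_eulerMascheroniConstant M
    rw [Real.eulerMascheroniSeq] at h
    have h2 : Real.log ((M : ℝ) + 1) - Real.log M ≤ 2 * τ := by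
      rw [← Real.log_div (by positivity) (by positivity)]
      refine (Real.log_le_sub_one_of_pos (by positivity)).trans ?_
      have h3 : ((M : ℝ) + 1) / M - 1 = 1 / M := by field_simp; ring
      rw [h3, div_le_iff₀ (by positivity)]
      nlinarith
    linarith
  have hsumH : ∑ l ∈ range M, 1 / (((l : ℝ) + 1) * τ) = (harmonic M : ℝ) / τ := by
    rw [harmonic]
    push_cast
    rw [Finset.sum_div]
    refine Finset.sum_congr rfl fun l _ => ?_
    rw [one_div, mul_inv, div_eq_mul_inv]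
  -- the sum up to M
  obtain ⟨n, hn⟩ : ∃ n, M = n + 1 := ⟨M - 1, by omega⟩
  have hF := sumF hτ n
  have hFM : ((n : ℝ) + 1) = M := by rw [hn]; push_cast; ring
  rw [hFM, ← hn] at hF
  have hA : τ * ∑ l ∈ range M, f ((l + 1) * τ) =
      τ * ∑ l ∈ range M, F ((l + 1) * τ) + (harmonic M : ℝ) := by
    have e : ∑ l ∈ range M, f ((l + 1) * τ) =
        ∑ l ∈ range M, F ((l + 1) * τ) + (harmonic M : ℝ) / τ := by
      rw [← hsumH, ← Finset.sum_add_distrib]
      refine Finset.sum_congr rfl fun l _ => ?_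
      unfold F; ring
    rw [e]; field_simp
  have hPhi : Ph ((M : ℝ) * τ) = La (M * τ) - Real.log M - Real.log τ := by
    unfold Ph
    rw [Real.log_mul (by positivity) hτ.ne']; ring
  have hlog : Real.log (1 / τ) = - Real.log τ := by rw [one_div, Real.log_inv]
  have hFτ : -1 ≤ F τ := by
    have := le_f hτ
    unfold F; linarith
  have hFM0 : F ((M : ℝ) * τ) ≤ 0 := by
    have := f_le hMτ0
    unfold F; linarith
  have hfM : f ((M : ℝ) * τ) ≤ 2 := by
    refine (f_le hMτ0).trans ?_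
    rw [div_le_iff₀ hMτ0]
    linarith
  have hPτ := neg_Ph hτ
  -- initial sums
  have hsplit : ∀ j, ∑ l ∈ range (M + j), f ((l + 1) * τ) =
      ∑ l ∈ range M, f ((l + 1) * τ) + ∑ l ∈ range j, f ((((M + l : ℕ) : ℝ) + 1) * τ) :=
    fun j => Finset.sum_range_add (fun l : ℕ => f (((l : ℝ) + 1) * τ)) M j
  have hup : ∀ j, τ * ∑ l ∈ range (M + j), f ((l + 1) * τ) ≤
      Real.log (1 / τ) + γ + 3 * τ := by
    intro j
    have h2 := (sumf hτ hM j).2
    have h3 : La (((M : ℝ) + j) * τ) ≤ 0 := La_nonpos (by positivity)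
    rw [hsplit, mul_add, hA, hlog]
    have h4 : τ * F ((M : ℝ) * τ) ≤ 0 := mul_nonpos_of_nonneg_of_nonpos hτ.le hFM0
    linarith [hF.2]
  have hlo : ∀ j : ℕ, Real.log (1 / τ) + γ - 3 * τ + La (((M : ℝ) + 1 + j) * τ) ≤
      τ * ∑ l ∈ range (M + j), f ((l + 1) * τ) := by
    intro j
    have h2 := (sumf hτ hM j).1
    have hab : (M : ℝ) * τ < ((M : ℝ) + 1) * τ := by nlinarith
    have h5 := La_sub_le hMτ0 hab
    have hd : ((M : ℝ) + 1) * τ - (M : ℝ) * τ = τ := by ring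
    rw [hd] at h5
    rw [hsplit, mul_add, hA, hlog]
    have h4 : -τ ≤ τ * F τ := by nlinarith
    have h6 : τ * f ((M : ℝ) * τ) ≤ 2 * τ := by nlinarith
    linarith [hF.1]
  have hpos : ∀ l : ℕ, 0 ≤ f (((l : ℝ) + 1) * τ) := fun l => (f_pos (by positivity)).le
  have hsum : Summable fun l : ℕ => f (((l : ℝ) + 1) * τ) := by
    refine summable_of_sum_range_le (c := (Real.log (1 / τ) + γ + 3 * τ) / τ) hpos fun N => ?_
    rw [le_div_iff₀ hτ, mul_comm]
    refine le_trans ?_ (hup N)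
    apply mul_le_mul_of_nonneg_left _ hτ.le
    exact Finset.sum_le_sum_of_subset_of_nonneg
      (Finset.range_subset_range.2 (by omega)) fun i _ _ => hpos i
  have hten : Tendsto (fun j : ℕ => ∑ l ∈ range (M + j), f ((l + 1) * τ)) atTop
      (𝓝 (∑' l : ℕ, f (((l : ℝ) + 1) * τ))) := by
    have h := hsum.hasSum.tendsto_sum_nat
    have h2 : Tendsto (fun j : ℕ => M + j) atTop atTop :=
      tendsto_atTop_mono (fun j => Nat.le_add_left j M) tendsto_id
    exact h.comp h2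
  set S := ∑' l : ℕ, f (((l : ℝ) + 1) * τ) with hS
  have hSup : τ * S ≤ Real.log (1 / τ) + γ + 3 * τ :=
    le_of_tendsto' (hten.const_mul τ) hup
  have hSlo : Real.log (1 / τ) + γ - 3 * τ ≤ τ * S := by
    have h1 := (La_tendsto hτ ((M : ℝ) + 1)).const_add (Real.log (1 / τ) + γ - 3 * τ)
    rw [add_zero] at h1
    exact le_of_tendsto_of_tendsto' h1 (hten.const_mul τ) hlo
  have hgoal : |S - (Real.log (1 / τ) + γ) / τ| ≤ 3 := by
    have e : S - (Real.log (1 / τ) + γ) / τ = (τ * S - (Real.log (1 / τ) + γ)) / τ := by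
      field_simp
    rw [e, abs_div, abs_of_pos hτ, div_le_iff₀ hτ, abs_le]
    constructor <;> linarith
  exact hgoal

end Pool.Agent.Lib.MP_aa9ae4_nt.L1
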