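import Mathlib
import Pool.Agent.Lib.MP_aa9ae4_nt.L1.SpecB

/-!
MP_aa9ae4_nt, Theorem L: fourth moment of the polynomials `AS` (`S_M4`).
-/

set_option autoImplicit false

namespace Pool.Agent.Lib.MP_aa9ae4_nt.L1

open Finset MeasureTheory Filter Topology
open Complex (I)

private theorem m4_cauchy (R : ℕ) (a : ℕ → ℂ) (ha : ∀ j, R < j → a j = 0) :
    (∑ j ∈ range (R + 1), a j) ^ 2 =
      ∑ r ∈ range (2 * R + 1), ∑ x ∈ antidiagonal r, a x.1 * a x.2 := by
  have h1 : ∑ r ∈ range (2 * R + 1), ∑ x ∈ antidiagonal r, a x.1 * a x.2 =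
      ∑ x ∈ (range (2 * R + 1) ×ˢ range (2 * R + 1)).filter (fun x => x.1 + x.2 < 2 * R + 1),
        a x.1 * a x.2 := by
    rw [← Finset.sum_fiberwise_of_maps_to
      (s := (range (2 * R + 1) ×ˢ range (2 * R + 1)).filter (fun x => x.1 + x.2 < 2 * R + 1))
      (t := range (2 * R + 1)) (g := fun x => x.1 + x.2)
      (fun x hx => Finset.mem_range.2 (Finset.mem_filter.1 hx).2)]
    refine Finset.sum_congr rfl fun r hr => Finset.sum_congr ?_ fun _ _ => rfl
    ext ⟨i, j⟩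
    simp only [Finset.mem_filter, Finset.mem_product, Finset.mem_range,
      Finset.HasAntidiagonal.mem_antidiagonal] at hr ⊢
    omega
  rw [h1, sq, Finset.sum_mul_sum, ← Finset.sum_product']
  refine Finset.sum_subset ?_ ?_
  · intro x hx
    simp only [Finset.mem_filter, Finset.mem_product, Finset.mem_range] at hx ⊢
    omega
  · intro x hx hnx
    simp only [Finset.mem_filter, Finset.mem_product, Finset.mem_range] at hx hnx
    have : R < x.1 ∨ R < x.2 := by omega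
    rcases this with h | h
    · rw [ha _ h, zero_mul]
    · rw [ha _ h, mul_zero]

/-- the coefficients of the square -/
private noncomputable def m4_g (f : ℕ → ℝ) (r : ℕ) : ℝ :=
  (r.factorial : ℝ) * ∑ x ∈ antidiagonal r, f x.1 / (x.1.factorial : ℝ) *
    (f x.2 / (x.2.factorial : ℝ))

private theorem m4_sq (R : ℕ) (f : ℕ → ℝ) (hf : ∀ j, R < j → f j = 0) (y : ℂ) :
    (∑ r ∈ range (R + 1), ((f r / (r.factorial : ℝ) : ℝ) : ℂ) * y ^ r) ^ 2 =
      ∑ r ∈ range (2 * R + 1), ((m4_g f r / (r.factorial : ℝ) : ℝ) : ℂ) * y ^ r := by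
  rw [m4_cauchy R (fun r => ((f r / (r.factorial : ℝ) : ℝ) : ℂ) * y ^ r)
    (fun j hj => by rw [hf j hj]; simp)]
  refine Finset.sum_congr rfl fun r _ => ?_
  have h1 : m4_g f r / (r.factorial : ℝ) = ∑ x ∈ antidiagonal r,
      f x.1 / (x.1.factorial : ℝ) * (f x.2 / (x.2.factorial : ℝ)) := by
    unfold m4_g
    rw [mul_div_assoc, mul_comm, div_mul_cancel₀]
    exact_mod_cast (Nat.factorial_pos r).ne'
  rw [h1, Complex.ofReal_sum, Finset.sum_mul]
  refine Finset.sum_congr rfl fun x hx => ?_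
  rw [← (Finset.HasAntidiagonal.mem_antidiagonal.1 hx), pow_add, Complex.ofReal_mul]
  ring

private theorem m4_N (k : ℝ) (f : ℕ → ℝ) (hf : ∀ j, 0 ≤ f j ∧ f j ≤ k ^ j)
    (r : ℕ) : 0 ≤ m4_g f r ∧ m4_g f r ≤ (2 * k) ^ r := by
  have hp : ∀ n : ℕ, (0 : ℝ) < (n.factorial : ℝ) := fun n => by
    exact_mod_cast Nat.factorial_pos n
  constructor
  · exact mul_nonneg (hp r).le (Finset.sum_nonneg fun x _ =>
      mul_nonneg (div_nonneg (hf _).1 (hp _).le) (div_nonneg (hf _).1 (hp _).le))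
  · have h1 : (2 * k) ^ r = (r.factorial : ℝ) * ∑ x ∈ antidiagonal r,
        k ^ x.1 / (x.1.factorial : ℝ) * (k ^ x.2 / (x.2.factorial : ℝ)) := by
      rw [two_mul, (Commute.all k k).add_pow', Finset.mul_sum]
      refine Finset.sum_congr rfl fun x hx => ?_
      have hx' := Finset.HasAntidiagonal.mem_antidiagonal.1 hx
      have h2 : ((r.choose x.1 : ℕ) : ℝ) * (x.1.factorial : ℝ) * (x.2.factorial : ℝ) =
          (r.factorial : ℝ) := by
        rw [← hx']
        have h5 : (x.1 + x.2).choose x.1 * x.1.factorial * x.2.factorial =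
            (x.1 + x.2).factorial := by
          rw [Nat.choose_symm_add]
          exact Nat.add_choose_mul_factorial_mul_factorial x.1 x.2
        exact_mod_cast h5
      rw [nsmul_eq_mul, ← h2]
      have h3 := (hp x.1).ne'
      have h4 := (hp x.2).ne'
      field_simp
    rw [h1]
    unfold m4_g
    refine mul_le_mul_of_nonneg_left (Finset.sum_le_sum fun x _ => ?_) (hp r).le
    exact mul_le_mul (div_le_div_of_nonneg_right (hf _).2 (hp _).le)
      (div_le_div_of_nonneg_right (hf _).2 (hp _).le) (div_nonneg (hf _).1 (hp _).le)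
      (div_nonneg ((hf _).1.trans (hf _).2) (hp _).le)

private theorem m4_facN (k V : ℝ) (hV : 0 ≤ V) (f : ℕ → ℝ)
    (hf : ∀ j, 0 ≤ f j ∧ f j ≤ k ^ j) (R : ℕ) :
    ∑ r ∈ range (R + 1), m4_g f r ^ 2 * V ^ r / (r.factorial : ℝ) ≤
      Real.exp (4 * k ^ 2 * V) := by
  have h1 : ∀ r ∈ range (R + 1), m4_g f r ^ 2 * V ^ r / (r.factorial : ℝ) ≤
      (4 * k ^ 2 * V) ^ r / (r.factorial : ℝ) := by
    intro r _
    obtain ⟨h2, h3⟩ := m4_N k f hf r
    apply div_le_div_of_nonneg_right _ (Nat.cast_nonneg _)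
    have h4 : m4_g f r ^ 2 ≤ ((2 * k) ^ r) ^ 2 := pow_le_pow_left₀ h2 h3 2
    calc m4_g f r ^ 2 * V ^ r ≤ ((2 * k) ^ r) ^ 2 * V ^ r :=
          mul_le_mul_of_nonneg_right h4 (pow_nonneg hV r)
      _ = (4 * k ^ 2 * V) ^ r := by
          rw [← pow_mul, mul_comm r 2, pow_mul, ← mul_pow]
          congr 1
          ring
  exact (Finset.sum_le_sum h1).trans (Real.sum_le_exp_of_nonneg (by positivity) _)

private theorem m4_gQ (c : ℝ) (M : ℕ) (f : ℕ → ℝ)
    (hf : ∀ j, f j = if j = M then c ^ j * (j.factorial : ℝ) else 0) (r : ℕ) :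
    m4_g f r = if r = 2 * M then (r.factorial : ℝ) * c ^ (2 * M) else 0 := by
  have hp : ∀ n : ℕ, ((n.factorial : ℕ) : ℝ) ≠ 0 := fun n => by
    exact_mod_cast (Nat.factorial_pos n).ne'
  have h1 : ∀ j, f j / (j.factorial : ℝ) = if j = M then c ^ M else 0 := by
    intro j
    rw [hf j]
    split_ifs with h
    · rw [mul_div_cancel_right₀ _ (hp j), h]
    · rw [zero_div]
  unfold m4_g
  simp only [h1]
  split_ifs with h
  · congr 1
    rw [Finset.sum_eq_single (M, M)]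
    · simp only [if_true]
      rw [← pow_add, two_mul]
    · rintro ⟨i, j⟩ hx hne
      dsimp only
      by_cases hi : i = M
      · have hj : j ≠ M := fun hj => hne (by rw [hi, hj])
        rw [if_neg hj, mul_zero]
      · rw [if_neg hi, zero_mul]
    · intro hn
      exact absurd (Finset.HasAntidiagonal.mem_antidiagonal.2 (by rw [h]; ring)) hn
  · rw [Finset.sum_eq_zero, mul_zero]
    rintro ⟨i, j⟩ hx
    have hx' := Finset.HasAntidiagonal.mem_antidiagonal.1 hx
    dsimp only at hx' ⊢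
    by_cases hi : i = M
    · have hj : j ≠ M := fun hj => h (by omega)
      rw [if_neg hj, mul_zero]
    · rw [if_neg hi, zero_mul]

private theorem m4_facQ (c V K : ℝ) (m M : ℕ) (hV : 0 ≤ V) (hK : 0 < K) (hM : (M : ℝ) = m * K)
    (hb : 2 * m * c ^ 2 * V ≤ K) (f : ℕ → ℝ)
    (hf : ∀ j, f j = if j = M then (c / K) ^ j * (j.factorial : ℝ) else 0) :
    ∑ r ∈ range (2 * M + 1), m4_g f r ^ 2 * V ^ r / (r.factorial : ℝ) ≤ 1 := by
  have hp : (0 : ℝ) < ((2 * M).factorial : ℝ) := by exact_mod_cast Nat.factorial_pos _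
  rw [Finset.sum_eq_single (2 * M)]
  · rw [m4_gQ (c / K) M f hf, if_pos rfl]
    have h1 : (((2 * M).factorial : ℝ) * (c / K) ^ (2 * M)) ^ 2 * V ^ (2 * M) /
        ((2 * M).factorial : ℝ) = ((2 * M).factorial : ℝ) * ((c / K) ^ 2 * V) ^ (2 * M) := by
      rw [mul_pow, mul_pow, ← pow_mul, ← pow_mul, mul_comm 2 (2 * M)]
      field_simp
    rw [h1]
    have h2 : ((2 * M).factorial : ℝ) ≤ (2 * (M : ℝ)) ^ (2 * M) := by
      exact_mod_cast Nat.factorial_le_pow (2 * M)
    have h3 : 0 ≤ (c / K) ^ 2 * V := mul_nonneg (sq_nonneg _) hV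
    calc ((2 * M).factorial : ℝ) * ((c / K) ^ 2 * V) ^ (2 * M)
        ≤ (2 * (M : ℝ)) ^ (2 * M) * ((c / K) ^ 2 * V) ^ (2 * M) :=
          mul_le_mul_of_nonneg_right h2 (pow_nonneg h3 _)
      _ = (2 * (M : ℝ) * ((c / K) ^ 2 * V)) ^ (2 * M) := by rw [mul_pow (2 * (M : ℝ))]
      _ ≤ 1 := by
          apply pow_le_one₀
          · positivity
          · rw [hM]
            have h4 : 2 * (m * K) * ((c / K) ^ 2 * V) = 2 * m * c ^ 2 * V / K := by
              field_simp
            rw [h4]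
            exact (div_le_one hK).2 hb
  · intro r _ hr
    rw [m4_gQ (c / K) M f hf, if_neg hr]
    simp
  · intro hn
    exact absurd (Finset.mem_range.2 (by omega)) hn

/-- **Fourth moment of `A_S`.** -/
theorem pM4 (hBk : S_Bk) (hSz2 : S_Sz2) (hMsq : S_Msq) : S_M4 := by
  intro k m C1 C0 η hk hm hC0 hC1 hη hη1 hηm
  obtain ⟨C, hC, hMs⟩ := hMsq
  have hm' : (1 : ℝ) ≤ m := by exact_mod_cast hm
  have hck : 120 ≤ ck k := by
    unfold ck
    linarith
  have hC04 : 4 ≤ C0 := hC0.1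
  have hC11 : 1 ≤ C1 := by
    have h1 : 1 ≤ ck k ^ 2 := by nlinarith
    have h2 : 1 ≤ (m : ℝ) * ck k ^ 2 := by nlinarith
    have h3 : 1 ≤ (m : ℝ) * ck k ^ 2 * C0 := by nlinarith
    nlinarith
  have hK0 : ∀ i, (0 : ℝ) < (Kb C1 i : ℝ) ∧ C1 * Real.exp ((i : ℝ) / 2) ≤ (Kb C1 i : ℝ) := by
    intro i
    have h1 : C1 * Real.exp ((i : ℝ) / 2) ≤ (Kb C1 i : ℝ) := Nat.le_ceil _
    have h2 : 0 < C1 * Real.exp ((i : ℝ) / 2) := mul_pos (by linarith) (Real.exp_pos _)
    exact ⟨h2.trans_le h1, h1⟩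
  have hev := (hSz2 (2 * m) C1 η (by omega) hC11 hη hη1).1
  have hlog : ∀ᶠ T : ℝ in atTop,
      2 * C * Real.exp (4 * k ^ 2 * (C0 + |Real.log η| + 1)) ≤ Real.log T :=
    Real.tendsto_log_atTop.eventually_ge_atTop _
  filter_upwards [hBk C0 η hC0 hη hη1, hev, hlog, eventually_gt_atTop (1 : ℝ)]
    with T hT hsz hlT hT1 S
  obtain ⟨b1, -, -, ⟨b4, -⟩, b5, -, b7⟩ := hT
  have hL : 0 < Real.log T := Real.log_pos hT1
  set n := nI T + 1 with hn
  set f := fS k m C1 S with hfdef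
  set g : ℕ → ℕ → ℝ := fun i => m4_g (f i) with hg
  -- support of the coefficients
  have hf0 : ∀ i j, m * Kb C1 i < j → f i j = 0 := by
    intro i j hj
    have hKm : Kb C1 i ≤ m * Kb C1 i := Nat.le_mul_of_pos_left _ (by omega)
    rw [hfdef]
    unfold fS
    split_ifs with h1 h2 h3
    · exact absurd h2 (by omega)
    · rfl
    · exact absurd h3 (by omega)
    · rfl
  -- the square
  have hsq : ∀ x : ℕ → ℂ, MB n (Bl η T) (fun i => m * Kb C1 i) f x ^ 2 =
      MB n (Bl η T) (fun i => 2 * m * Kb C1 i) g x := by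
    intro x
    unfold MB
    rw [← Finset.prod_pow]
    refine Finset.prod_congr rfl fun i _ => ?_
    rw [m4_sq (m * Kb C1 i) (f i) (hf0 i), ← Nat.mul_assoc]
  have hint : ∫ t in T..(2 * T), ‖AS k m C1 η S T t‖ ^ 4 =
      ∫ t in T..(2 * T), ‖MB n (Bl η T) (fun i => 2 * m * Kb C1 i) g
        (fun p => S1.pw (1 / 2) p t)‖ ^ 2 := by
    refine intervalIntegral.integral_congr fun t _ => ?_
    rw [← hsq, norm_pow, ← pow_mul]
    rfl
  rw [hint]
  have hY : ∀ k' ∈ VK n (Bl η T) (fun i => 2 * m * Kb C1 i),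
      (nQ n (Bl η T) k' : ℝ) ≤ T := by
    intro k' hk'
    refine (hsz k' hk').trans ?_
    calc T ^ (5 * η * ((2 * m : ℕ) : ℝ) * C1) ≤ T ^ (1 : ℝ) := by
          apply Real.rpow_le_rpow_of_exponent_le hT1.le
          push_cast
          nlinarith
      _ = T := Real.rpow_one T
  refine (hMs T T n (Bl η T) (fun i => 2 * m * Kb C1 i) g hT1.le b5 hY).trans ?_
  -- the factors
  have hV0 : ∀ i, 0 ≤ Vb η T i := fun i =>
    Finset.sum_nonneg fun p _ => inv_nonneg.2 (Nat.cast_nonneg _)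
  have hfac : ∀ i ∈ range n, ∑ r ∈ range (2 * m * Kb C1 i + 1), g i r ^ 2 *
      (∑ p ∈ Bl η T i, (p : ℝ)⁻¹) ^ r / (r.factorial : ℝ) ≤
      Real.exp (4 * k ^ 2 * Vb η T i) := by
    intro i hi
    have hi' : i ≤ nI T := by
      rw [Finset.mem_range] at hi
      omega
    by_cases hS : i ∈ S
    · refine m4_facN k (Vb η T i) (hV0 i) (f i) (fun j => ?_) _
      rw [hfdef]
      unfold fS
      rw [if_pos hS]
      split_ifs
      · exact ⟨pow_nonneg hk.le _, le_rfl⟩
      · exact ⟨le_rfl, pow_nonneg hk.le _⟩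
    · have hV : Vb η T i ≤ C0 * Real.exp ((i : ℝ) / 2) := by
        refine (b1 i hi').trans ?_
        unfold Vu
        split_ifs with h
        · have : 1 ≤ Real.exp ((i : ℝ) / 2) := Real.one_le_exp (by positivity)
          nlinarith
        · have : i = nI T := by omega
          rw [this]
          exact mul_le_mul_of_nonneg_left b4 (by linarith)
      have h1 : 2 * (m : ℝ) * ck k ^ 2 * Vb η T i ≤ (Kb C1 i : ℝ) := by
        calc 2 * (m : ℝ) * ck k ^ 2 * Vb η T i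
            ≤ 2 * (m : ℝ) * ck k ^ 2 * (C0 * Real.exp ((i : ℝ) / 2)) :=
              mul_le_mul_of_nonneg_left hV (by positivity)
          _ = 2 * (m : ℝ) * ck k ^ 2 * C0 * Real.exp ((i : ℝ) / 2) := by ring
          _ ≤ C1 * Real.exp ((i : ℝ) / 2) :=
              mul_le_mul_of_nonneg_right hC1 (Real.exp_pos _).le
          _ ≤ (Kb C1 i : ℝ) := (hK0 i).2
      have h2 := m4_facQ (ck k) (Vb η T i) (Kb C1 i : ℝ) m (m * Kb C1 i) (hV0 i) (hK0 i).1
        (by push_cast; rfl) h1 (f i) (fun j => by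
          rw [hfdef]
          unfold fS
          rw [if_neg hS])
      rw [← Nat.mul_assoc] at h2
      refine h2.trans (Real.one_le_exp ?_)
      have := hV0 i
      positivity
  have hprod : ∏ i ∈ range n, ∑ r ∈ range (2 * m * Kb C1 i + 1), g i r ^ 2 *
      (∑ p ∈ Bl η T i, (p : ℝ)⁻¹) ^ r / (r.factorial : ℝ) ≤
      Real.exp (4 * k ^ 2 * (C0 + |Real.log η| + 1)) * Real.log T ^ (4 * k ^ 2) := by
    calc ∏ i ∈ range n, ∑ r ∈ range (2 * m * Kb C1 i + 1), g i r ^ 2 *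
          (∑ p ∈ Bl η T i, (p : ℝ)⁻¹) ^ r / (r.factorial : ℝ)
        ≤ ∏ i ∈ range n, Real.exp (4 * k ^ 2 * Vb η T i) := by
          refine Finset.prod_le_prod (fun i _ => Finset.sum_nonneg fun r _ => ?_) hfac
          exact div_nonneg (mul_nonneg (sq_nonneg _) (pow_nonneg (hV0 i) _))
            (Nat.cast_nonneg _)
      _ = Real.exp (4 * k ^ 2 * ∑ i ∈ range n, Vb η T i) := by
          rw [← Real.exp_sum, Finset.mul_sum]
      _ ≤ Real.exp (4 * k ^ 2 * (C0 + |Real.log η| + 1) + Real.log (Real.log T) * (4 * k ^ 2)) := by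
          apply Real.exp_le_exp.2
          have h1 := (abs_le.1 b7).2
          have h2 : 0 ≤ 4 * k ^ 2 := by positivity
          nlinarith
      _ = _ := by
          rw [Real.exp_add, ← Real.rpow_def_of_pos hL]
  calc C * (T + T) * ∏ i ∈ range n, ∑ r ∈ range (2 * m * Kb C1 i + 1), g i r ^ 2 *
        (∑ p ∈ Bl η T i, (p : ℝ)⁻¹) ^ r / (r.factorial : ℝ)
      ≤ C * (T + T) * (Real.exp (4 * k ^ 2 * (C0 + |Real.log η| + 1)) *
          Real.log T ^ (4 * k ^ 2)) := mul_le_mul_of_nonneg_left hprod (by positivity)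
    _ = T * Real.log T ^ (4 * k ^ 2) *
        (2 * C * Real.exp (4 * k ^ 2 * (C0 + |Real.log η| + 1))) := by ring
    _ ≤ T * Real.log T ^ (4 * k ^ 2) * Real.log T :=
        mul_le_mul_of_nonneg_left hlT (by positivity)
    _ = T * Real.log T ^ (4 * k ^ 2 + 1) := by
        rw [Real.rpow_add hL, Real.rpow_one]
        ring

end Pool.Agent.Lib.MP_aa9ae4_nt.L1
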