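import Pool.Agent.Lib.MP_aa9ae4_nt.L1.SpecA
import Pool.Agent.Lib.MP_aa9ae4_nt.S1.PTay

/-! MP_aa9ae4_nt, Theorem L, part A: weighted exponential moments, general weight. -/

namespace Pool.Agent.Lib.MP_aa9ae4_nt.L1

open Finset MeasureTheory Filter Topology
open Complex (I)
open Pool.Agent.Lib.MP_aa9ae4_nt.S1 (pw psumS eulS tail prs nn KK expJ HT fzS y1)

private theorem weg_psum_cont (σ : ℝ) (y z : ℕ) : Continuous fun u : ℝ => psumS σ y z u := by
  unfold psumS
  refine continuous_finsetSum _ fun p hp => ?_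
  unfold pw
  have hp0 : (p : ℂ) ≠ 0 := by
    have := (mem_filter.mp hp).2.ne_zero
    exact_mod_cast this
  exact Continuous.const_cpow (by fun_prop) (Or.inl hp0)

private theorem weg_expJ_cont (J : ℕ) : Continuous (expJ J) := by
  unfold expJ
  exact continuous_finsetSum _ fun j _ => (continuous_pow j).div_const _

private theorem weg_exp_norm (lam : ℝ) (om S : ℂ) :
    ‖Complex.exp ((lam : ℂ) * om * S)‖ ^ 2 = Real.exp (2 * lam * (om * S).re) := by
  rw [Complex.norm_exp, ← Real.exp_nat_mul, mul_assoc, Complex.re_ofReal_mul]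
  congr 1
  push_cast
  ring

private theorem weg_exp_le (lam : ℝ) (hlam : 0 ≤ lam) (S : ℂ) :
    Real.exp (lam * ‖S‖) ≤ ‖Complex.exp ((lam : ℂ) * 1 * S)‖ ^ 2 +
      ‖Complex.exp ((lam : ℂ) * I * S)‖ ^ 2 + ‖Complex.exp ((lam : ℂ) * (-1) * S)‖ ^ 2 +
      ‖Complex.exp ((lam : ℂ) * (-I) * S)‖ ^ 2 := by
  simp only [weg_exp_norm]
  have h1 : (1 * S).re = S.re := by simp
  have h2 : (I * S).re = -S.im := by simp
  have h3 : (-1 * S).re = -S.re := by simp
  have h4 : (-I * S).re = S.im := by simp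
  rw [h1, h2, h3, h4]
  have hn : ‖S‖ ≤ |S.re| + |S.im| := Complex.norm_le_abs_re_add_abs_im S
  have p1 := Real.exp_pos (2 * lam * S.re)
  have p2 := Real.exp_pos (2 * lam * -S.im)
  have p3 := Real.exp_pos (2 * lam * -S.re)
  have p4 := Real.exp_pos (2 * lam * S.im)
  have key : ∀ x : ℝ, ‖S‖ ≤ 2 * x → Real.exp (lam * ‖S‖) ≤ Real.exp (2 * lam * x) := by
    intro x hx
    apply Real.exp_le_exp.mpr
    nlinarith
  rcases le_total |S.re| |S.im| with h | h
  · rcases abs_cases S.im with ⟨h5, -⟩ | ⟨h5, -⟩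
    · have := key S.im (by linarith)
      linarith
    · have := key (-S.im) (by linarith)
      linarith
  · rcases abs_cases S.re with ⟨h5, -⟩ | ⟨h5, -⟩
    · have := key S.re (by linarith)
      linarith
    · have := key (-S.re) (by linarith)
      linarith

private theorem weg_trunc (J : ℕ) (x : ℂ) (hx : ‖x‖ ≤ (J : ℝ) / 10) :
    ‖Complex.exp x‖ ^ 2 ≤ 2 * ‖expJ J x‖ ^ 2 + 2 := by
  have h1 := S1.pTay J x hx
  have h2 : Real.exp (-(J : ℝ)) ≤ 1 := Real.exp_le_one_iff.mpr (by simp)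
  have h3 : ‖Complex.exp x‖ ≤ ‖expJ J x‖ + 1 := by
    have h4 : Complex.exp x = expJ J x + (Complex.exp x - expJ J x) := by ring
    calc ‖Complex.exp x‖ = ‖expJ J x + (Complex.exp x - expJ J x)‖ := by rw [← h4]
      _ ≤ ‖expJ J x‖ + ‖Complex.exp x - expJ J x‖ := norm_add_le _ _
      _ ≤ ‖expJ J x‖ + 1 := by linarith
  nlinarith [norm_nonneg (Complex.exp x), norm_nonneg (expJ J x), sq_nonneg (‖expJ J x‖ - 1)]

theorem pWeg (hWxg : S_Wxg) : S_Weg := by
  intro σ a lam K Cp A hσ hσ1 ha hlam hK hCp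
  obtain ⟨C₁, hC₁, hev₁⟩ :=
    hWxg σ a lam (10 * lam * K + 1) Cp A hσ hσ1 ha hlam (by positivity) hCp
  set C₂ : ℝ := Cp ^ (1 / (2 * σ + 1)) with hC₂def
  have hC₂ : 0 < C₂ := Real.rpow_pos_of_pos hCp _
  refine ⟨8 * C₁ + 8 * C₂, by positivity, ?_⟩
  have hl : Tendsto (fun T : ℝ => Real.log (Real.log T)) atTop atTop :=
    Real.tendsto_log_atTop.comp Real.tendsto_log_atTop
  filter_upwards [hev₁, hl.eventually_ge_atTop 2, eventually_gt_atTop 0] with T h1 h3 hT0
  intro w M E ψ hwc hw0 hM hE hpsi hsum z hz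
  have h1' := h1 w M E ψ hwc hM hE hpsi hsum
  set l := Real.log (Real.log T) with hldef
  set J : ℕ := ⌈10 * lam * K * l⌉₊ with hJdef
  have hl0 : 0 ≤ l := by linarith
  have hJ1 : 10 * lam * K * l ≤ J := Nat.le_ceil _
  have hJ2 : (J : ℝ) ≤ (10 * lam * K + 1) * l := by
    have h4 : (J : ℝ) < 10 * lam * K * l + 1 := Nat.ceil_lt_add_one (by positivity)
    linarith
  have hI : ∀ om : ℂ, ‖om‖ ≤ 1 →
      ∫ t in T..(2 * T), w t * ‖expJ J ((lam : ℂ) * om * psumS σ 0 z (a * t))‖ ^ 2 ≤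
        C₁ * M + Real.exp (2 * l ^ 2) * E := fun om hom => h1' z J om hz hJ2 hom
  have hHT : 1 ∈ Icc 1 (HT T) := by
    rw [Finset.mem_Icc]
    refine ⟨le_rfl, ?_⟩
    unfold HT
    apply Nat.le_floor
    rw [Nat.cast_one]
    exact Real.one_le_exp (sq_nonneg _)
  have hψ1 : ψ 1 1 ≤ C₂ := by
    have h5 : ψ 1 1 ^ (2 * σ + 1) ≤ Cp := by
      refine le_trans ?_ hsum
      refine le_trans ?_ (Finset.single_le_sum (f := fun h =>
        ∑ k ∈ Icc 1 (HT T), ψ h k ^ (2 * σ + 1)) (fun h _ => Finset.sum_nonneg fun k _ =>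
          Real.rpow_nonneg (hpsi.1 h k) _) hHT)
      exact Finset.single_le_sum (f := fun k => ψ 1 k ^ (2 * σ + 1))
        (fun k _ => Real.rpow_nonneg (hpsi.1 1 k) _) hHT
    have h6 : (ψ 1 1 ^ (2 * σ + 1)) ^ (1 / (2 * σ + 1)) = ψ 1 1 := by
      rw [← Real.rpow_mul (hpsi.1 1 1), mul_one_div_cancel (by linarith), Real.rpow_one]
    rw [← h6, hC₂def]
    exact Real.rpow_le_rpow (Real.rpow_nonneg (hpsi.1 1 1) _) h5 (by positivity)
  have hmean : ∫ t in T..(2 * T), w t ≤ C₂ * M + E := by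
    have h5 := hpsi.2 1 hHT 1 hHT (Nat.coprime_one_left 1)
    have h6 : ∫ t in T..(2 * T), (w t : ℂ) *
        (((((1 : ℕ) : ℝ) / ((1 : ℕ) : ℝ)) ^ a : ℝ) : ℂ) ^ ((t : ℂ) * I) =
        ((∫ t in T..(2 * T), w t : ℝ) : ℂ) := by
      rw [← intervalIntegral.integral_ofReal]
      refine intervalIntegral.integral_congr fun t _ => ?_
      simp only [Nat.cast_one, div_one, Real.one_rpow, Complex.ofReal_one, Complex.one_cpow,
        mul_one]
    rw [h6, Complex.norm_real, Real.norm_eq_abs] at h5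
    have h7 : ψ 1 1 * M ≤ C₂ * M := mul_le_mul_of_nonneg_right hψ1 hM
    linarith [le_abs_self (∫ t in T..(2 * T), w t)]
  have hcS : Continuous fun t : ℝ => psumS σ 0 z (a * t) :=
    (weg_psum_cont σ 0 z).comp (continuous_const.mul continuous_id)
  have hcz : Continuous fun t : ℝ => w t := hwc
  have hce : ∀ om : ℂ, Continuous fun t : ℝ =>
      w t * ‖expJ J ((lam : ℂ) * om * psumS σ 0 z (a * t))‖ ^ 2 := fun om =>
    hcz.mul (((weg_expJ_cont J).comp (continuous_const.mul hcS)).norm.pow 2)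
  set Es : Set ℝ := {t ∈ Set.Icc T (2 * T) | ‖psumS σ 0 z (a * t)‖ ≤ K * l} with hEs
  have hEm : MeasurableSet Es :=
    measurableSet_Icc.inter (measurableSet_le hcS.norm.measurable measurable_const)
  set g : ℝ → ℝ := fun t =>
    2 * (w t * ‖expJ J ((lam : ℂ) * 1 * psumS σ 0 z (a * t))‖ ^ 2) +
    2 * (w t * ‖expJ J ((lam : ℂ) * I * psumS σ 0 z (a * t))‖ ^ 2) +
    2 * (w t * ‖expJ J ((lam : ℂ) * (-1) * psumS σ 0 z (a * t))‖ ^ 2) +
    2 * (w t * ‖expJ J ((lam : ℂ) * (-I) * psumS σ 0 z (a * t))‖ ^ 2) + 8 * w t with hg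
  have hgc : Continuous g :=
    (((((hce 1).const_smul (2 : ℝ)).add ((hce I).const_smul (2 : ℝ))).add
      ((hce (-1)).const_smul (2 : ℝ))).add ((hce (-I)).const_smul (2 : ℝ))).add
      (hcz.const_smul (8 : ℝ))
  have hg0 : ∀ t, 0 ≤ g t := fun t => by
    have := hw0 t
    simp only [hg]
    positivity
  have hfc : Continuous fun t : ℝ => w t * Real.exp (lam * ‖psumS σ 0 z (a * t)‖) :=
    hcz.mul (Real.continuous_exp.comp (continuous_const.mul hcS.norm))
  have hle : ∀ t ∈ Es, w t * Real.exp (lam * ‖psumS σ 0 z (a * t)‖) ≤ g t := by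
    intro t ht
    have hS : ‖psumS σ 0 z (a * t)‖ ≤ K * l := ht.2
    have hn : ∀ om : ℂ, ‖om‖ ≤ 1 →
        ‖Complex.exp ((lam : ℂ) * om * psumS σ 0 z (a * t))‖ ^ 2 ≤
          2 * ‖expJ J ((lam : ℂ) * om * psumS σ 0 z (a * t))‖ ^ 2 + 2 := by
      intro om hom
      apply weg_trunc
      rw [norm_mul, norm_mul, Complex.norm_real, Real.norm_eq_abs, abs_of_nonneg hlam]
      have h5 : lam * ‖om‖ * ‖psumS σ 0 z (a * t)‖ ≤ lam * 1 * (K * l) := by
        apply mul_le_mul _ hS (norm_nonneg _) (by linarith)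
        exact mul_le_mul_of_nonneg_left hom hlam
      linarith
    have h6 := weg_exp_le lam hlam (psumS σ 0 z (a * t))
    have n1 := hn 1 (by simp)
    have n2 := hn I (by simp)
    have n3 := hn (-1) (by simp)
    have n4 := hn (-I) (by simp)
    have h7 : Real.exp (lam * ‖psumS σ 0 z (a * t)‖) ≤
        2 * ‖expJ J ((lam : ℂ) * 1 * psumS σ 0 z (a * t))‖ ^ 2 +
        2 * ‖expJ J ((lam : ℂ) * I * psumS σ 0 z (a * t))‖ ^ 2 +
        2 * ‖expJ J ((lam : ℂ) * (-1) * psumS σ 0 z (a * t))‖ ^ 2 +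
        2 * ‖expJ J ((lam : ℂ) * (-I) * psumS σ 0 z (a * t))‖ ^ 2 + 8 := by linarith
    calc w t * Real.exp (lam * ‖psumS σ 0 z (a * t)‖) ≤ w t * _ :=
          mul_le_mul_of_nonneg_left h7 (hw0 t)
      _ = g t := by
          simp only [hg]
          ring
  have hsub : Es ⊆ Set.Icc T (2 * T) := fun t ht => ht.1
  have hint1 : IntegrableOn (fun t : ℝ => w t * Real.exp (lam * ‖psumS σ 0 z (a * t)‖)) Es :=
    (hfc.integrableOn_Icc).mono_set hsub
  have hint2 : IntegrableOn g (Set.Icc T (2 * T)) := hgc.integrableOn_Icc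
  have hT2 : T ≤ 2 * T := by linarith
  calc ∫ t in Es, w t * Real.exp (lam * ‖psumS σ 0 z (a * t)‖) ≤ ∫ t in Es, g t :=
        setIntegral_mono_on hint1 (hint2.mono_set hsub) hEm hle
    _ ≤ ∫ t in Set.Icc T (2 * T), g t :=
        setIntegral_mono_set hint2 (Filter.Eventually.of_forall hg0)
          (Filter.Eventually.of_forall hsub)
    _ = ∫ t in T..(2 * T), g t := by
        rw [integral_Icc_eq_integral_Ioc, ← intervalIntegral.integral_of_le hT2]
    _ = 2 * (∫ t in T..(2 * T), w t * ‖expJ J ((lam : ℂ) * 1 * psumS σ 0 z (a * t))‖ ^ 2) +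
        2 * (∫ t in T..(2 * T), w t * ‖expJ J ((lam : ℂ) * I * psumS σ 0 z (a * t))‖ ^ 2) +
        2 * (∫ t in T..(2 * T), w t * ‖expJ J ((lam : ℂ) * (-1) * psumS σ 0 z (a * t))‖ ^ 2) +
        2 * (∫ t in T..(2 * T), w t * ‖expJ J ((lam : ℂ) * (-I) * psumS σ 0 z (a * t))‖ ^ 2) +
        8 * ∫ t in T..(2 * T), w t := by
        have i0 : IntervalIntegrable (fun t : ℝ => 8 * w t) volume T (2 * T) :=
          (continuous_const.mul hcz).intervalIntegrable _ _
        have ii : ∀ om : ℂ, IntervalIntegrable (fun t : ℝ =>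
            2 * (w t * ‖expJ J ((lam : ℂ) * om * psumS σ 0 z (a * t))‖ ^ 2)) volume T (2 * T) :=
          fun om => (continuous_const.mul (hce om)).intervalIntegrable _ _
        simp only [hg]
        rw [intervalIntegral.integral_add ((((ii 1).add (ii I)).add (ii (-1))).add (ii (-I))) i0,
          intervalIntegral.integral_add (((ii 1).add (ii I)).add (ii (-1))) (ii (-I)),
          intervalIntegral.integral_add ((ii 1).add (ii I)) (ii (-1)),
          intervalIntegral.integral_add (ii 1) (ii I),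
          intervalIntegral.integral_const_mul, intervalIntegral.integral_const_mul,
          intervalIntegral.integral_const_mul, intervalIntegral.integral_const_mul,
          intervalIntegral.integral_const_mul]
    _ ≤ (8 * C₁ + 8 * C₂) * M + Real.exp (3 * l ^ 2) * E := by
        have n1 := hI 1 (by simp)
        have n2 := hI I (by simp)
        have n3 := hI (-1) (by simp)
        have n4 := hI (-I) (by simp)
        have e1 : 16 * Real.exp (2 * l ^ 2) ≤ Real.exp (3 * l ^ 2) := by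
          have h8 : Real.exp (3 * l ^ 2) = Real.exp (l ^ 2) * Real.exp (2 * l ^ 2) := by
            rw [← Real.exp_add]
            congr 1
            ring
          have h9 : (16 : ℝ) ≤ Real.exp (l ^ 2) := by
            have h10 : (2 : ℝ) ≤ Real.exp 1 := by
              have := Real.add_one_le_exp (1 : ℝ)
              linarith
            have h11 : Real.exp 4 = Real.exp 1 ^ 4 := by
              rw [← Real.exp_nat_mul]
              norm_num
            have h12 : (4 : ℝ) ≤ l ^ 2 := by nlinarith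
            calc (16 : ℝ) = 2 ^ 4 := by norm_num
              _ ≤ Real.exp 1 ^ 4 := pow_le_pow_left₀ (by norm_num) h10 4
              _ = Real.exp 4 := h11.symm
              _ ≤ Real.exp (l ^ 2) := Real.exp_le_exp.mpr h12
          rw [h8]
          exact mul_le_mul_of_nonneg_right h9 (Real.exp_nonneg _)
        have e2 : (1 : ℝ) ≤ Real.exp (2 * l ^ 2) := Real.one_le_exp (by positivity)
        have e3 : (8 * Real.exp (2 * l ^ 2) + 8) * E ≤ Real.exp (3 * l ^ 2) * E :=
          mul_le_mul_of_nonneg_right (by linarith) hE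
        linarith

end Pool.Agent.Lib.MP_aa9ae4_nt.L1
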